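import Mathlib

/-!
# JOB FA-3: solvability from a dual estimate
Closed (unbounded) operators are represented by their graphs.
-/

set_option autoImplicit false

open Filter Topology

namespace Pool.Agent.HopfEmb

noncomputable section

variable {H1 H2 : Type*} [NormedAddCommGroup H1] [InnerProductSpace ℂ H1] [CompleteSpace H1]
  [NormedAddCommGroup H2] [InnerProductSpace ℂ H2] [CompleteSpace H2]

/-- A bounded operator with `c ‖v‖² ≤ re ⟨v, B v⟩` is surjective. -/
private theorem FA3_coercive {H : Type*} [NormedAddCommGroup H] [InnerProductSpace ℂ H]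
    [CompleteSpace H] (B : H →L[ℂ] H) (c : ℝ) (hc : 0 < c)
    (hB : ∀ v, c * ‖v‖ ^ 2 ≤ (inner ℂ v (B v)).re) : Function.Surjective B := by
  have h1 : ∀ v, ‖v‖ ≤ (⟨c⁻¹, by positivity⟩ : NNReal) * ‖B v‖ := by
    intro v
    have h2 : c * ‖v‖ ^ 2 ≤ ‖v‖ * ‖B v‖ := (hB v).trans
      ((Complex.re_le_norm _).trans (norm_inner_le_norm _ _))
    change ‖v‖ ≤ c⁻¹ * ‖B v‖
    rcases eq_or_lt_of_le (norm_nonneg v) with h3 | h3
    · rw [← h3]; positivity
    · rw [le_inv_mul_iff₀ hc]
      have h4 : ‖v‖ * (c * ‖v‖) ≤ ‖v‖ * ‖B v‖ := by nlinarith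
      exact le_of_mul_le_mul_left h4 h3
  have hanti : AntilipschitzWith _ B := B.antilipschitz_of_bound h1
  have hclosed : IsClosed (B.range : Set H) := hanti.isClosed_range B.uniformContinuous
  have hcomp : CompleteSpace B.range := hclosed.completeSpace_coe
  have hbot : B.rangeᗮ = ⊥ := by
    rw [Submodule.eq_bot_iff]
    intro w hw
    have h5 : inner ℂ (B w) w = 0 := hw (B w) ⟨w, rfl⟩
    have h6 : inner ℂ w (B w) = 0 := by rw [← inner_conj_symm, h5, map_zero]
    have h7 := hB w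
    rw [h6, Complex.zero_re] at h7
    have h8 : ‖w‖ ^ 2 ≤ 0 := by
      by_contra h9
      push Not at h9
      nlinarith
    have h9 : ‖w‖ = 0 := by
      have : ‖w‖ ^ 2 = 0 := le_antisymm h8 (sq_nonneg _)
      exact pow_eq_zero_iff (two_ne_zero) |>.1 this
    exact norm_eq_zero.1 h9
  have htop : B.range = ⊤ := (Submodule.orthogonal_eq_bot_iff).1 hbot
  exact LinearMap.range_eq_top.1 htop

/-- FA-3. Solvability from a dual estimate (Hörmander).

Proof. Given `h₀ ∈ K2`, let `Y = {g | ∃ v, (v,g) ∈ G1*}` where `(v,g) ∈ G1*` means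
`∀ (f,h) ∈ G1, inner h v = inner f g`. If `(v,g) ∈ G1*` and `v' = proj_{K2} v` then `(v',g) ∈ G1*`
(as `G1` has second components in `K2`), `inner h₀ v = inner h₀ v'` and `‖v'‖ ≤ C ‖g‖`. Hence
`g ↦ inner h₀ v` is a well defined bounded functional on `Y`; extend it and represent it as
`inner f₀ g` (Riesz / Hahn-Banach). Then `(f₀,h₀)` is orthogonal to the orthogonal complement of
`G1` in the Hilbert sum, so `(f₀,h₀) ∈ G1` as `G1` is closed. -/
theorem solve_of_dual_estimate
    (G1 : Submodule ℂ (H1 × H2)) (hG1 : IsClosed (G1 : Set (H1 × H2)))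
    (K2 : Submodule ℂ H2) (hK2 : IsClosed (K2 : Set H2))
    (hGK : ∀ f h, (f, h) ∈ G1 → h ∈ K2) (C : ℝ)
    (est : ∀ v ∈ K2, ∀ g : H1, (∀ f h, (f, h) ∈ G1 → inner ℂ h v = inner ℂ f g) → ‖v‖ ≤ C * ‖g‖) :
    ∀ h ∈ K2, ∃ f, (f, h) ∈ G1 := by
  let e := WithLp.prodContinuousLinearEquiv 2 ℂ H1 H2
  let G : Submodule ℂ (WithLp 2 (H1 × H2)) := G1.comap (e : WithLp 2 (H1 × H2) →ₗ[ℂ] H1 × H2)
  have hG : IsClosed (G : Set (WithLp 2 (H1 × H2))) := hG1.preimage e.continuous
  have hGc : CompleteSpace G := hG.completeSpace_coe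
  have hKc : CompleteSpace K2 := hK2.completeSpace_coe
  let ι : H2 →L[ℂ] WithLp 2 (H1 × H2) :=
    (e.symm : (H1 × H2) →L[ℂ] WithLp 2 (H1 × H2)) ∘L ContinuousLinearMap.inr ℂ H1 H2
  let π : WithLp 2 (H1 × H2) →L[ℂ] H2 :=
    ContinuousLinearMap.snd ℂ H1 H2 ∘L (e : WithLp 2 (H1 × H2) →L[ℂ] H1 × H2)
  let A : H2 →L[ℂ] H2 := π ∘L G.starProjection ∘L ι
  let B : H2 →L[ℂ] H2 := A + (ContinuousLinearMap.id ℂ H2 - K2.starProjection)
  have hin : ∀ (v : H2) (x : WithLp 2 (H1 × H2)), inner ℂ (ι v) x = inner ℂ v (π x) := by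
    intro v x
    rw [WithLp.prod_inner_apply]
    change inner ℂ (0 : H1) _ + inner ℂ v _ = _
    rw [inner_zero_left, zero_add]
    rfl
  -- `P ι v` only depends on the projection of `v` to `K2`
  have hPι : ∀ v, G.starProjection (ι v) = G.starProjection (ι (K2.starProjection v)) := by
    intro v
    rw [← sub_eq_zero, ← map_sub, ← map_sub, Submodule.starProjection_apply_eq_zero_iff]
    intro x hx
    have hx' : π x ∈ K2 := hGK _ _ hx
    rw [← inner_conj_symm, hin, ← inner_conj_symm, Complex.conj_conj]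
    exact Submodule.sub_starProjection_mem_orthogonal v _ hx'
  -- the estimate
  have hest : ∀ v ∈ K2, ‖v‖ ≤ (|C| + 1) * ‖G.starProjection (ι v)‖ := by
    intro v hv
    let p : WithLp 2 (H1 × H2) := G.starProjection (ι v)
    have hp : p ∈ G := Submodule.starProjection_apply_mem _ _
    have hpK : π p ∈ K2 := hGK _ _ hp
    have h1 : ∀ f h, (f, h) ∈ G1 → inner ℂ h (v - π p) = inner ℂ f (e p).1 := by
      intro f h hfh
      have h2 : ι v - p ∈ Gᗮ := Submodule.sub_starProjection_mem_orthogonal _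
      have h3 : inner ℂ (e.symm (f, h)) (ι v - p) = 0 := h2 _ (by
        change e (e.symm (f, h)) ∈ G1
        rw [e.apply_symm_apply]; exact hfh)
      rw [WithLp.prod_inner_apply] at h3
      have h4 : inner ℂ f (0 - (e p).1) + inner ℂ h (v - π p) = 0 := h3
      rw [zero_sub, inner_neg_right] at h4
      rw [neg_add_eq_zero] at h4
      exact h4.symm
    have h5 := est (v - π p) (K2.sub_mem hv hpK) (e p).1 h1
    have h6 : ‖(e p).1‖ ≤ ‖p‖ := WithLp.norm_fst_le _ _
    have h7 : ‖π p‖ ≤ ‖p‖ := WithLp.norm_snd_le _ _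
    calc ‖v‖ = ‖(v - π p) + π p‖ := by rw [sub_add_cancel]
      _ ≤ ‖v - π p‖ + ‖π p‖ := norm_add_le _ _
      _ ≤ |C| * ‖p‖ + ‖p‖ := by
          refine add_le_add (h5.trans ?_) h7
          exact mul_le_mul (le_abs_self C) h6 (norm_nonneg _) (abs_nonneg _)
      _ = (|C| + 1) * ‖p‖ := by ring
  have hcoer : ∀ v, ((|C| + 1) ^ 2)⁻¹ * ‖v‖ ^ 2 ≤ (inner ℂ v (B v)).re := by
    intro v
    have h1 : inner ℂ v (B v) = inner ℂ (ι v) (G.starProjection (ι v))
        + inner ℂ v (v - K2.starProjection v) := by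
      rw [hin, ← inner_add_right]
      rfl
    have h2 : (inner ℂ (ι v) (G.starProjection (ι v))).re = ‖G.starProjection (ι v)‖ ^ 2 := by
      have h3 := Submodule.re_inner_starProjection_eq_normSq (K := G) (ι v)
      rw [← inner_conj_symm, Complex.conj_re]
      exact h3
    have h4 : inner ℂ (K2.starProjection v) (v - K2.starProjection v) = 0 :=
      Submodule.sub_starProjection_mem_orthogonal v _ (Submodule.starProjection_apply_mem _ _)
    have h5 : (inner ℂ v (v - K2.starProjection v)).re = ‖v - K2.starProjection v‖ ^ 2 := by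
      have h6 : inner ℂ v (v - K2.starProjection v)
          = inner ℂ (v - K2.starProjection v) (v - K2.starProjection v) := by
        rw [inner_sub_left, h4, sub_zero]
      rw [h6, inner_self_eq_norm_sq_to_K]
      norm_cast
    have h6 : ‖v‖ ^ 2 = ‖K2.starProjection v‖ ^ 2 + ‖v - K2.starProjection v‖ ^ 2 := by
      have h7 := norm_add_sq_eq_norm_sq_add_norm_sq_of_inner_eq_zero (K2.starProjection v)
        (v - K2.starProjection v) (𝕜 := ℂ) h4
      rw [add_sub_cancel] at h7
      rw [sq, h7]; ring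
    have h7 := hest _ (Submodule.starProjection_apply_mem K2 v)
    rw [← hPι] at h7
    rw [h1, Complex.add_re, h2, h5, h6]
    have h8 : 1 ≤ (|C| + 1) ^ 2 := by nlinarith [abs_nonneg C]
    rw [inv_mul_le_iff₀ (by positivity)]
    have h9 : ‖K2.starProjection v‖ ^ 2 ≤ (|C| + 1) ^ 2 * ‖G.starProjection (ι v)‖ ^ 2 := by
      rw [← mul_pow]
      exact pow_le_pow_left₀ (norm_nonneg _) h7 2
    nlinarith [sq_nonneg ‖v - K2.starProjection v‖]
  intro h hh
  obtain ⟨v, hv⟩ := FA3_coercive B _ (by positivity) hcoer h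
  let p : WithLp 2 (H1 × H2) := G.starProjection (ι v)
  have hp : p ∈ G := Submodule.starProjection_apply_mem _ _
  have hpK : π p ∈ K2 := hGK _ _ hp
  have h1 : π p + (v - K2.starProjection v) = h := hv
  have h2 : v - K2.starProjection v ∈ K2 := by
    have : v - K2.starProjection v = h - π p := by rw [← h1]; abel
    rw [this]
    exact K2.sub_mem hh hpK
  have h3 : v - K2.starProjection v = 0 := by
    have h4 : inner ℂ (v - K2.starProjection v) (v - K2.starProjection v) = 0 :=
      Submodule.sub_starProjection_mem_orthogonal v _ h2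
    exact inner_self_eq_zero.1 h4
  rw [h3, add_zero] at h1
  refine ⟨(e p).1, ?_⟩
  rw [← h1]
  exact hp

end

end Pool.Agent.HopfEmb
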