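import Pool.Agent.Lib.MP_d404b9_ag.FA2
import Pool.Agent.Lib.MP_d404b9_ag.FA3

/-!
# The two abstract theorems for tuples in a Hilbert space
-/

set_option autoImplicit false

open Filter Topology

namespace Pool.Agent.HopfEmb

noncomputable section

variable {K : Type*} [NormedAddCommGroup K] [InnerProductSpace ℂ K] [CompleteSpace K]

/-- Triples with the Hilbert norm. -/
abbrev Trip (K : Type*) [NormedAddCommGroup K] : Type _ := PiLp 2 (fun _ : Fin 3 => K)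

/-- Packing of three operators. -/
def packK {X : Type*} [NormedAddCommGroup X] [NormedSpace ℂ X] (T : Fin 3 → (X →L[ℂ] K)) :
    X →L[ℂ] Trip K :=
  (PiLp.continuousLinearEquiv 2 ℂ (fun _ : Fin 3 => K)).symm.toContinuousLinearMap ∘L
    ContinuousLinearMap.pi T

theorem packK_apply {X : Type*} [NormedAddCommGroup X] [NormedSpace ℂ X]
    (T : Fin 3 → (X →L[ℂ] K)) (x : X) (j : Fin 3) : packK T x j = T j x := rfl

/-- Projections. -/
def prj (j : Fin 3) : Trip K →L[ℂ] K := PiLp.proj 2 (fun _ : Fin 3 => K) j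

theorem prj_apply (f : Trip K) (j : Fin 3) : prj j f = f j := rfl

theorem compact_of_prj {X : Type*} [NormedAddCommGroup X] [NormedSpace ℂ X]
    (T : X →L[ℂ] Trip K) (h : ∀ j, IsCompactOperator (prj j ∘L T)) :
    IsCompactOperator T := by
  let inc : Fin 3 → (K →L[ℂ] Trip K) := fun j =>
    packK (fun k => if k = j then ContinuousLinearMap.id ℂ K else 0)
  have key : ∀ j : Fin 3, IsCompactOperator (inc j ∘L (prj j ∘L T)) :=
    fun j => by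
      have := (h j).clm_comp (inc j)
      exact this
  have hT : T = inc 0 ∘L (prj 0 ∘L T) + inc 1 ∘L (prj 1 ∘L T) + inc 2 ∘L (prj 2 ∘L T) := by
    ext1 x
    refine PiLp.ext fun k => ?_
    fin_cases k <;> simp [inc, packK_apply, prj_apply]
  rw [hT]
  exact ((key 0).add (key 1)).add (key 2)

theorem trip_norm_sq (f : Trip K) : ‖f‖ ^ 2 = ∑ j : Fin 3, ‖f j‖ ^ 2 := by
  rw [PiLp.norm_sq_eq_of_L2]

theorem le_sqrt_mul {a b c : ℝ} (hb : 0 ≤ b) (hc : 0 ≤ c) (h : a ^ 2 ≤ c * b ^ 2) :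
    a ≤ Real.sqrt c * b := by
  have h1 : a ^ 2 ≤ (Real.sqrt c * b) ^ 2 := by
    rw [mul_pow, Real.sq_sqrt hc]; exact h
  exact le_of_sq_le_sq h1 (by positivity)

theorem abs_V01 (R0 : ℝ → K → (Fin 3 → K) → Prop) (R1 : ℝ → (Fin 3 → K) → (Fin 3 → K) → Prop)
    (M : Fin 3 → K →L[ℂ] K) (comm : ∀ i j u, M i (M j u) = M j (M i u))
    (hG0 : ∀ s, ∃ G : Submodule ℂ (K × Trip K), IsClosed (G : Set (K × Trip K)) ∧
      ∀ p, p ∈ G ↔ R0 s p.1 (fun j => p.2 j))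
    (hG1 : ∀ s, ∃ G : Submodule ℂ (Trip K × Trip K), IsClosed (G : Set (Trip K × Trip K)) ∧
      ∀ p, p ∈ G ↔ R1 s (fun j => p.1 j) (fun j => p.2 j))
    (cplx : ∀ s u f, R0 s u f → R1 s f (fun _ => 0))
    (shift0 : ∀ s τ u f, R0 (s + τ) u f ↔ R0 s u (fun j => f j - (τ : ℂ) • M j u))
    (shift1 : ∀ s τ f h, R1 (s + τ) f h ↔
      R1 s f (fun i => h i - (τ : ℂ) • (M (i + 1) (f (i + 2)) - M (i + 2) (f (i + 1)))))
    (est0 : ∃ σ C : ℝ, 0 < C ∧ ∀ s : ℝ, s ≤ -σ → ∀ (u : K) (f : Fin 3 → K), R0 s u f →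
      ‖u‖ ^ 2 ≤ C * ∑ j : Fin 3, ‖f j‖ ^ 2)
    (est1 : ∃ σ C : ℝ, 0 < C ∧ ∀ s : ℝ, s ≤ -σ → ∀ (f h : Fin 3 → K), R1 s f h →
      (∀ (u : K) (f' : Fin 3 → K), R0 s u f' → ∑ j : Fin 3, inner ℂ (f' j) (f j) = 0) →
      ∑ j : Fin 3, ‖f j‖ ^ 2 ≤ C * ∑ j : Fin 3, ‖h j‖ ^ 2)
    (cpt0 : ∀ s, ∀ (Q : Trip K →L[ℂ] K) (A : Fin 3 → Trip K →L[ℂ] K),
      (∀ x, R0 s (Q x) (fun j => A j x)) → IsCompactOperator Q)
    (cpt1 : ∀ s, ∀ (Q A : Fin 3 → Trip K →L[ℂ] K),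
      (∀ x, R1 s (fun j => Q j x) (fun j => A j x)) →
      (∀ x, ∀ (u : K) (f' : Fin 3 → K), R0 s u f' → ∑ j : Fin 3, inner ℂ (f' j) (Q j x) = 0) →
      ∀ j, IsCompactOperator (Q j)) :
    ∃ N : Set ℝ, N.Countable ∧ ∀ s : ℝ, s ∉ N →
      (∀ u : K, R0 s u (fun _ => 0) → u = 0) ∧
      (∀ f : Fin 3 → K, R1 s f (fun _ => 0) → ∃ u : K, R0 s u f) := by
  obtain ⟨σ0, C0, hC0, hest0⟩ := est0
  obtain ⟨σ1, C1, hC1, hest1⟩ := est1
  set s₀ : ℝ := -(max σ0 σ1) with hs₀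
  have hs0 : s₀ ≤ -σ0 := by
    rw [hs₀]; exact neg_le_neg (le_max_left _ _)
  have hs1 : s₀ ≤ -σ1 := by
    rw [hs₀]; exact neg_le_neg (le_max_right _ _)
  obtain ⟨G0, hG0c, hG0⟩ := hG0 s₀
  obtain ⟨G1, hG1c, hG1⟩ := hG1 s₀
  set C : ℝ := max (Real.sqrt C0) (Real.sqrt C1) with hC
  let M0 : K →L[ℂ] Trip K := packK M
  let M1 : Trip K →L[ℂ] Trip K := packK (fun i => M (i + 1) ∘L prj (i + 2) -
    M (i + 2) ∘L prj (i + 1))
  have hM0 : ∀ u j, M0 u j = M j u := fun _ _ => rfl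
  have hM1 : ∀ f i, M1 f i = M (i + 1) (f (i + 2)) - M (i + 2) (f (i + 1)) := fun _ _ => rfl
  have hMM : ∀ u, M1 (M0 u) = 0 := by
    intro u
    refine PiLp.ext fun i => ?_
    rw [hM1, hM0, hM0, comm, sub_self]
    rfl
  have h01 : ∀ u f, (u, f) ∈ G0 → (f, (0 : Trip K)) ∈ G1 := by
    intro u f h
    rw [hG0] at h
    rw [hG1]
    exact cplx _ _ _ h
  have hGM : ∀ u f, (u, f) ∈ G0 → (M0 u, -(M1 f)) ∈ G1 := by
    intro u f h
    have h1 := h01 u f h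
    rw [hG0] at h
    have h2 : R0 (s₀ + 1) u (fun j => f j + M j u) := by
      rw [shift0]
      have e : (fun j => f j + M j u - ((1 : ℝ) : ℂ) • M j u) = fun j => f j := by
        funext j
        rw [Complex.ofReal_one, one_smul, add_sub_cancel_right]
      rw [e]
      exact h
    have h3 := cplx _ _ _ h2
    rw [shift1] at h3
    have h5 : (f + M0 u, -(M1 f)) ∈ G1 := by
      rw [hG1]
      have e : (fun i : Fin 3 => (0 : K) - ((1 : ℝ) : ℂ) •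
          (M (i + 1) (f (i + 2) + M (i + 2) u) - M (i + 2) (f (i + 1) + M (i + 1) u))) =
          fun i => (-(M1 f)) i := by
        funext i
        rw [Complex.ofReal_one, one_smul, map_add, map_add, comm (i + 1) (i + 2)]
        show _ = -(M1 f i)
        rw [hM1]
        abel
      rw [e] at h3
      exact h3
    have h6 := G1.sub_mem h5 h1
    have e : ((f + M0 u, -(M1 f)) - (f, (0 : Trip K)) : Trip K × Trip K) = (M0 u, -(M1 f)) := by
      rw [Prod.mk_sub_mk, add_sub_cancel_left, sub_zero]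
    rw [e] at h6
    exact h6
  have he0 : ∀ (u : K) (f : Trip K), (u, f) ∈ G0 → ‖u‖ ≤ C * ‖f‖ := by
    intro u f h
    rw [hG0] at h
    have h1 := hest0 s₀ hs0 u (fun j => f j) h
    rw [← trip_norm_sq] at h1
    refine (le_sqrt_mul (norm_nonneg _) hC0.le h1).trans ?_
    exact mul_le_mul_of_nonneg_right (le_max_left _ _) (norm_nonneg _)
  have he1 : ∀ (f h : Trip K), (f, h) ∈ G1 → (∀ (u : K) (f' : Trip K), (u, f') ∈ G0 →
      inner ℂ f' f = 0) → ‖f‖ ≤ C * ‖h‖ := by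
    intro f h hfh horth
    rw [hG1] at hfh
    have h1 := hest1 s₀ hs1 (fun j => f j) (fun j => h j) hfh (by
      intro u f' hu
      have h2 := horth u (WithLp.toLp 2 f') ((hG0 _).mpr hu)
      rw [PiLp.inner_apply] at h2
      exact h2)
    rw [← trip_norm_sq, ← trip_norm_sq] at h1
    refine (le_sqrt_mul (norm_nonneg _) hC1.le h1).trans ?_
    exact mul_le_mul_of_nonneg_right (le_max_right _ _) (norm_nonneg _)
  have hc0 : ∀ (Q : Trip K →L[ℂ] K) (A : Trip K →L[ℂ] Trip K), (∀ x, (Q x, A x) ∈ G0) →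
      IsCompactOperator Q := by
    intro Q A h
    exact cpt0 s₀ Q (fun j => prj j ∘L A) (fun x => (hG0 _).mp (h x))
  have hc1 : ∀ (Q : Trip K →L[ℂ] Trip K) (A : Trip K →L[ℂ] Trip K), (∀ x, (Q x, A x) ∈ G1) →
      (∀ (x : Trip K) (u : K) (f' : Trip K), (u, f') ∈ G0 → inner ℂ f' (Q x) = 0) →
      IsCompactOperator Q := by
    intro Q A h h'
    refine compact_of_prj Q fun j => ?_
    refine cpt1 s₀ (fun j => prj j ∘L Q) (fun j => prj j ∘L A) (fun x => (hG1 _).mp (h x)) ?_ j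
    intro x u f' hu
    have h2 := h' x u (WithLp.toLp 2 f') ((hG0 _).mpr hu)
    rw [PiLp.inner_apply] at h2
    exact h2
  obtain ⟨N, hN, hNτ⟩ := exact_perturb (H0 := K) (H1 := Trip K) (H2 := Trip K) G0 G1 hG0c hG1c
    h01 C he0 he1 M0 M1 hMM hGM hc0 hc1
  refine ⟨(fun s => s - s₀) ⁻¹' N, hN.preimage (sub_left_injective), fun s hs => ?_⟩
  obtain ⟨τ, hτ⟩ : ∃ τ, s = s₀ + τ := ⟨s - s₀, by ring⟩
  subst hτ
  have hτ' : τ ∉ N := by
    have e : s₀ + τ - s₀ = τ := by ring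
    rw [Set.mem_preimage, e] at hs
    exact hs
  obtain ⟨ha, hb⟩ := hNτ τ hτ'
  constructor
  · intro u hu
    apply ha u
    rw [shift0] at hu
    rw [hG0]
    have e : (fun j : Fin 3 => (0 : K) - (τ : ℂ) • M j u) = fun j => (-((τ : ℂ) • M0 u)) j := by
      funext j
      rw [zero_sub]
      rfl
    rw [e] at hu
    exact hu
  · intro f hf
    rw [shift1] at hf
    have e : (fun i : Fin 3 => (0 : K) - (τ : ℂ) • (M (i + 1) (f (i + 2)) -
        M (i + 2) (f (i + 1)))) = fun j => (-((τ : ℂ) • M1 (WithLp.toLp 2 f))) j := by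
      funext j
      rw [zero_sub]
      rfl
    rw [e] at hf
    obtain ⟨u, hu⟩ := hb (WithLp.toLp 2 f) ((hG1 _).mpr hf)
    refine ⟨u, ?_⟩
    rw [hG0] at hu
    rw [shift0]
    exact hu

theorem abs_V2 (R1 : (Fin 3 → K) → (Fin 3 → K) → Prop) (R2 : (Fin 3 → K) → Prop)
    (hG1 : ∃ G : Submodule ℂ (Trip K × Trip K), IsClosed (G : Set (Trip K × Trip K)) ∧
      ∀ p, p ∈ G ↔ R1 (fun j => p.1 j) (fun j => p.2 j))
    (hG2 : ∃ G : Submodule ℂ (Trip K), IsClosed (G : Set (Trip K)) ∧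
      ∀ p, p ∈ G ↔ R2 (fun j => p j))
    (cplx : ∀ f h, R1 f h → R2 h) (C : ℝ) (hC : 0 < C)
    (est2 : ∀ (v g : Fin 3 → K), R2 v →
      (∀ (f h : Fin 3 → K), R1 f h →
        ∑ i : Fin 3, inner ℂ (h i) (v i) = ∑ j : Fin 3, inner ℂ (f j) (g j)) →
      ∑ j : Fin 3, ‖v j‖ ^ 2 ≤ C * ∑ j : Fin 3, ‖g j‖ ^ 2) :
    ∀ h : Fin 3 → K, R2 h → ∃ f : Fin 3 → K, R1 f h := by
  intro h hh
  obtain ⟨G1, hG1c, hG1⟩ := hG1
  obtain ⟨K2, hK2c, hK2⟩ := hG2
  have hGK : ∀ (f h : Trip K), (f, h) ∈ G1 → h ∈ K2 := by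
    intro f h hfh
    rw [hG1] at hfh
    rw [hK2]
    exact cplx _ _ hfh
  have he : ∀ v ∈ K2, ∀ g : Trip K, (∀ (f h : Trip K), (f, h) ∈ G1 → inner ℂ h v = inner ℂ f g) →
      ‖v‖ ≤ Real.sqrt C * ‖g‖ := by
    intro v hv g hvg
    rw [hK2] at hv
    have h1 := est2 (fun j => v j) (fun j => g j) hv (by
      intro f h hfh
      have h2 := hvg (WithLp.toLp 2 f) (WithLp.toLp 2 h) ((hG1 _).mpr hfh)
      rw [PiLp.inner_apply, PiLp.inner_apply] at h2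
      exact h2)
    rw [← trip_norm_sq, ← trip_norm_sq] at h1
    exact le_sqrt_mul (norm_nonneg _) hC.le h1
  obtain ⟨f, hf⟩ := solve_of_dual_estimate (H1 := Trip K) (H2 := Trip K) G1 hG1c K2 hK2c hGK
    (Real.sqrt C) he (WithLp.toLp 2 h) ((hK2 _).mpr hh)
  exact ⟨fun j => f j, (hG1 _).mp hf⟩

end

end Pool.Agent.HopfEmb
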