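import Pool.Agent.Lib.MP_d404b9_ag.Basic

/-!
# JOB CALC-A: smooth solutions are weak solutions

Smooth solutions are weak solutions (integration by parts, e.g.
`integral_bilinear_hasLineDerivAt_right_eq_neg_left_of_integrable`; cut off the smooth function,
which is only smooth on `ℂ³ ∖ 0`, outside the support of the test function).
-/

set_option autoImplicit false

open MeasureTheory Complex Filter Topology
open scoped ContDiff ComplexConjugate

namespace Pool.Agent.HopfEmb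

noncomputable section

variable {m : ℕ}

section aux

variable {G1 G2 G3 : Type*} [NormedAddCommGroup G1] [NormedSpace ℂ G1]
  [NormedAddCommGroup G2] [NormedSpace ℂ G2] [NormedAddCommGroup G3] [NormedSpace ℂ G3]

/-- Products of a continuous function with compact support away from `0` and a function which is
continuous away from `0` are integrable. -/
theorem CalcA_integrable (B : G1 →L[ℝ] G2 →L[ℝ] G3) {a : C3 → G1} (ha : Continuous a)
    (hac : HasCompactSupport a) (ha0 : (0 : C3) ∉ tsupport a) {b : C3 → G2}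
    (hb : ∀ z : C3, z ≠ 0 → ContinuousAt b z) : Integrable (fun z => B (a z) (b z)) := by
  have hcont : Continuous fun z => B (a z) (b z) := by
    rw [continuous_iff_continuousAt]
    intro z
    by_cases hz : z = 0
    · subst hz
      have h1 : a =ᶠ[𝓝 0] 0 := notMem_tsupport_iff_eventuallyEq.1 ha0
      have h2 : (fun z => B (a z) (b z)) =ᶠ[𝓝 0] fun _ => 0 := by
        filter_upwards [h1] with y hy
        rw [hy]
        simp
      exact continuousAt_const.congr h2.symm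
    · have h1 : ContinuousAt (fun p : G1 × G2 => B p.1 p.2) (a z, b z) :=
        B.isBoundedBilinearMap.continuous.continuousAt
      exact ContinuousAt.comp (f := fun z => (a z, b z)) h1 (ha.continuousAt.prodMk (hb z hz))
  refine hcont.integrable_of_hasCompactSupport ?_
  refine hac.mono' ?_
  intro z hz
  apply subset_tsupport
  intro h
  apply hz
  change B (a z) (b z) = 0
  rw [h]
  simp

theorem CalcA_test_fderiv {Ψ : C3 → G1} (hΨ : IsTest Ψ) (v : C3) :
    IsTest (fun z => fderiv ℝ Ψ z v) := by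
  refine ⟨?_, hΨ.compact.fderiv_apply (𝕜 := ℝ) v, ?_⟩
  · exact (hΨ.smooth.fderiv_right (m := ∞) (by simp)).clm_apply contDiff_const
  · intro h
    exact hΨ.zero_notMem (tsupport_fderiv_apply_subset ℝ v h)

theorem CalcA_smooth_fderiv {U : C3 → G2} (hU : ∀ z : C3, z ≠ 0 → ContDiffAt ℝ ∞ U z) (v : C3) :
    ∀ z : C3, z ≠ 0 → ContDiffAt ℝ ∞ (fun z => fderiv ℝ U z v) z := fun z hz =>
  ((hU z hz).fderiv_right (m := ∞) (by simp)).clm_apply contDiffAt_const

theorem CalcA_ibp_dir (B : G1 →L[ℝ] G2 →L[ℝ] G3) {Ψ : C3 → G1} (hΨ : IsTest Ψ) {U : C3 → G2}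
    (hU : ∀ z : C3, z ≠ 0 → ContDiffAt ℝ ∞ U z) (v : C3) :
    Integrable (fun z => B (fderiv ℝ Ψ z v) (U z)) ∧
    Integrable (fun z => B (Ψ z) (fderiv ℝ U z v)) ∧
    ∫ z, B (fderiv ℝ Ψ z v) (U z) = - ∫ z, B (Ψ z) (fderiv ℝ U z v) := by
  have h1 : Integrable (fun z => B (fderiv ℝ Ψ z v) (U z)) :=
    CalcA_integrable B (CalcA_test_fderiv hΨ v).smooth.continuous (CalcA_test_fderiv hΨ v).compact
      (CalcA_test_fderiv hΨ v).zero_notMem (fun z hz => (hU z hz).continuousAt)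
  have h2 : Integrable (fun z => B (Ψ z) (fderiv ℝ U z v)) :=
    CalcA_integrable B hΨ.smooth.continuous hΨ.compact hΨ.zero_notMem
      (fun z hz => (CalcA_smooth_fderiv hU v z hz).continuousAt)
  have h3 : Integrable (fun z => B (Ψ z) (U z)) :=
    CalcA_integrable B hΨ.smooth.continuous hΨ.compact hΨ.zero_notMem
      (fun z hz => (hU z hz).continuousAt)
  refine ⟨h1, h2, ?_⟩
  rw [integral_bilinear_fderiv_right_eq_neg_left_of_integrable h1 h2 h3, neg_neg]
  · intro x _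
    exact (hΨ.smooth.differentiable (by simp)).differentiableAt
  · intro x hx
    have hx0 : x ≠ 0 := by
      rintro rfl
      exact hΨ.zero_notMem hx
    exact (hU x hx0).differentiableAt (by simp)

/-- Integration by parts for `∂̄_j`. -/
theorem CalcA_ibp (B : G1 →L[ℂ] G2 →L[ℂ] G3) {Ψ : C3 → G1} (hΨ : IsTest Ψ) {U : C3 → G2}
    (hU : ∀ z : C3, z ≠ 0 → ContDiffAt ℝ ∞ U z) (j : Fin 3) :
    Integrable (fun z => B (dbar j Ψ z) (U z)) ∧
    Integrable (fun z => B (Ψ z) (dbar j U z)) ∧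
    ∫ z, B (dbar j Ψ z) (U z) = - ∫ z, B (Ψ z) (dbar j U z) := by
  obtain ⟨h1, h2, h3⟩ := CalcA_ibp_dir (B.bilinearRestrictScalars ℝ) hΨ hU (Pi.single j 1)
  obtain ⟨h1', h2', h3'⟩ := CalcA_ibp_dir (B.bilinearRestrictScalars ℝ) hΨ hU (Pi.single j I)
  simp only [ContinuousLinearMap.bilinearRestrictScalars_apply_apply] at h1 h2 h3 h1' h2' h3'
  have e1 : (fun z => B (dbar j Ψ z) (U z)) = fun z => (1 / 2 : ℂ) •
      (B (fderiv ℝ Ψ z (Pi.single j 1)) (U z) + I • B (fderiv ℝ Ψ z (Pi.single j I)) (U z)) := by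
    funext z
    simp only [dbar, map_smul, map_add, smul_apply, add_apply]
  have e2 : (fun z => B (Ψ z) (dbar j U z)) = fun z => (1 / 2 : ℂ) •
      (B (Ψ z) (fderiv ℝ U z (Pi.single j 1)) + I • B (Ψ z) (fderiv ℝ U z (Pi.single j I))) := by
    funext z
    simp only [dbar, map_smul, map_add]
  rw [e1, e2]
  have h4 : Integrable (fun z => I • B (fderiv ℝ Ψ z (Pi.single j I)) (U z)) := h1'.smul I
  have h5 : Integrable (fun z => I • B (Ψ z) (fderiv ℝ U z (Pi.single j I))) := h2'.smul I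
  refine ⟨(h1.add h4).smul _, (h2.add h5).smul _, ?_⟩
  rw [integral_smul, integral_smul, integral_add h1 h4, integral_add h2 h5,
    integral_smul, integral_smul, h3, h3', smul_neg, ← neg_add, smul_neg]

/-- The bilinear form used in the weak equations. -/
abbrev CalcA_ev (m : ℕ) : (Fm m →L[ℂ] ℂ) →L[ℂ] Fm m →L[ℂ] ℂ :=
  ContinuousLinearMap.id ℂ (Fm m →L[ℂ] ℂ)

theorem CalcA_test_zero {Ψ : C3 → G1} (hΨ : IsTest Ψ) : Ψ 0 = 0 :=
  image_eq_zero_of_notMem_tsupport hΨ.zero_notMem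

end aux

theorem weak0_of_smooth {E : Fin 3 → C3 → (Fm m →L[ℂ] Fm m)} {U : C3 → Fm m}
    {F : Fin 3 → C3 → Fm m} (hU : ∀ z : C3, z ≠ 0 → ContDiffAt ℝ ∞ U z)
    (h : ∀ j, ∀ z : C3, z ≠ 0 → dbar j U z = E j z (U z) + F j z) : Weak0 E U F := by
  intro Ψ hΨ j
  have h1 := (CalcA_ibp (CalcA_ev m) hΨ hU j).2.2
  simp only [CalcA_ev, ContinuousLinearMap.id_apply] at h1
  rw [h1]
  congr 1
  refine integral_congr_ae (Eventually.of_forall fun z => ?_)
  by_cases hz : z = 0
  · subst hz; simp [CalcA_test_zero hΨ]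
  · simp only [h j z hz]

theorem weak1_of_smooth {E : Fin 3 → C3 → (Fm m →L[ℂ] Fm m)} {F H : Fin 3 → C3 → Fm m}
    (hF : ∀ j, ∀ z : C3, z ≠ 0 → ContDiffAt ℝ ∞ (F j) z)
    (h : ∀ i : Fin 3, ∀ z : C3, z ≠ 0 → dbar (i + 1) (F (i + 2)) z - dbar (i + 2) (F (i + 1)) z =
      E (i + 1) z (F (i + 2) z) - E (i + 2) z (F (i + 1) z) + H i z) : Weak1 E F H := by
  intro Ψ hΨ i
  obtain ⟨h1, h2, h3⟩ := CalcA_ibp (CalcA_ev m) hΨ (hF (i + 2)) (i + 1)
  obtain ⟨h1', h2', h3'⟩ := CalcA_ibp (CalcA_ev m) hΨ (hF (i + 1)) (i + 2)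
  simp only [CalcA_ev, ContinuousLinearMap.id_apply] at h1 h2 h3 h1' h2' h3'
  rw [integral_sub h1 h1', h3, h3', sub_neg_eq_add, neg_add_eq_sub, ← neg_sub,
    ← integral_sub h2 h2']
  congr 1
  refine integral_congr_ae (Eventually.of_forall fun z => ?_)
  by_cases hz : z = 0
  · subst hz; simp [CalcA_test_zero hΨ]
  · simp only [← h i z hz, map_sub]

theorem weak2_of_smooth {E : Fin 3 → C3 → (Fm m →L[ℂ] Fm m)} {H : Fin 3 → C3 → Fm m}
    (hH : ∀ j, ∀ z : C3, z ≠ 0 → ContDiffAt ℝ ∞ (H j) z)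
    (h : ∀ z : C3, z ≠ 0 → ∑ i : Fin 3, dbar i (H i) z = ∑ i : Fin 3, E i z (H i z)) :
    Weak2 E H := by
  intro Ψ hΨ
  have h1 := fun i => CalcA_ibp (CalcA_ev m) hΨ (hH i) i
  simp only [CalcA_ev, ContinuousLinearMap.id_apply] at h1
  rw [integral_finsetSum _ (fun i _ => (h1 i).1)]
  simp only [(h1 _).2.2]
  rw [Finset.sum_neg_distrib, ← integral_finsetSum _ (fun i _ => (h1 i).2.1)]
  congr 1
  refine integral_congr_ae (Eventually.of_forall fun z => ?_)
  by_cases hz : z = 0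
  · subst hz; simp [CalcA_test_zero hΨ]
  · simp only [← map_sum, h z hz]

end

end Pool.Agent.HopfEmb
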