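import Pool.Agent.Lib.MP_d404b9_ag.Basic

/-!
# JOB CALC-B: the complex property, multiplication, twisting

The complex property and multiplication by functions. Here one tests with `Ψ ∘ E_b`, `a Ψ`, `∂̄_a Ψ`,
which are again test functions (`E_b`, `a` are smooth away from `0`).
`Weak0 → Weak1`: in `∫ (∂̄_a Ψ)F_b - (∂̄_b Ψ)F_a` insert `∫ Ψ' F_b = -∫ (∂̄_b Ψ')U - ∫ Ψ' E_b U` with
`Ψ' = ∂̄_a Ψ`; second derivatives cancel by symmetry (`second_derivative_symmetric`,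
`ContDiffAt.isSymmSndFDerivAt`); the rest is `∫ Ψ (∂̄_a E_b - ∂̄_b E_a - E_a E_b + E_b E_a) U = 0`.
`Weak1 → Weak2` is similar: the coefficient of `F_c` is `∂̄_{c+1}E_{c+2} - ∂̄_{c+2}E_{c+1}
- [E_{c+1},E_{c+2}]` (test `Weak1` with `∂̄_i Ψ` and with `Ψ ∘ E_i`, sum over `i`).
`PE.twist` : `∂̄_k η_j = ∂̄_j η_k` and `η_j(2z) = η_j(z)/2`.
-/

set_option autoImplicit false

open MeasureTheory Complex Filter Topology
open scoped ContDiff ComplexConjugate

namespace Pool.Agent.HopfEmb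

noncomputable section

variable {m : ℕ}

section CalcB

variable {G G' G'' : Type*} [NormedAddCommGroup G] [NormedSpace ℂ G]
  [NormedAddCommGroup G'] [NormedSpace ℂ G'] [NormedAddCommGroup G''] [NormedSpace ℂ G'']

/-- a criterion for test functions -/
theorem CalcB_isTest {Ψ : C3 → G} (hΨ : IsTest Ψ) {f : C3 → G'}
    (h1 : ∀ z, z ≠ 0 → ContDiffAt ℝ ∞ f z) (h2 : ∀ z, z ∉ tsupport Ψ → f z = 0) : IsTest f := by
  have hs : tsupport f ⊆ tsupport Ψ := by
    apply closure_minimal _ (isClosed_tsupport Ψ)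
    intro z hz
    by_contra h
    exact hz (h2 z h)
  have h0 : (0 : C3) ∉ tsupport f := fun h => hΨ.zero_notMem (hs h)
  refine ⟨?_, ?_, h0⟩
  · rw [contDiff_iff_contDiffAt]
    intro z
    by_cases hz : z = 0
    · subst hz
      have : f =ᶠ[𝓝 0] fun _ => 0 := notMem_tsupport_iff_eventuallyEq.1 h0
      exact (contDiffAt_const (c := (0:G'))).congr_of_eventuallyEq this
    · exact h1 z hz
  · exact IsCompact.of_isClosed_subset hΨ.compact (isClosed_tsupport f) hs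

theorem CalcB_contDiffAt_fderiv {f : C3 → G} {z : C3} (hf : ContDiffAt ℝ ∞ f z) :
    ContDiffAt ℝ ∞ (fderiv ℝ f) z := hf.fderiv_right (m := ∞) le_rfl

theorem CalcB_contDiffAt_dbar {f : C3 → G} {z : C3} (hf : ContDiffAt ℝ ∞ f z) (j : Fin 3) :
    ContDiffAt ℝ ∞ (dbar j f) z := by
  unfold dbar
  have h := CalcB_contDiffAt_fderiv hf
  have h1 : ContDiffAt ℝ ∞ (fun z => fderiv ℝ f z (Pi.single j 1)) z := h.clm_apply contDiffAt_const
  have h2 : ContDiffAt ℝ ∞ (fun z => fderiv ℝ f z (Pi.single j I)) z := h.clm_apply contDiffAt_const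
  exact contDiffAt_const.smul (h1.add (contDiffAt_const.smul h2))

theorem CalcB_dbar_zero {f : C3 → G} {z : C3} (hz : z ∉ tsupport f) (j : Fin 3) :
    dbar j f z = 0 := by
  have h : f =ᶠ[𝓝 z] fun _ => 0 := notMem_tsupport_iff_eventuallyEq.1 hz
  unfold dbar
  rw [h.fderiv_eq]
  simp

theorem CalcB_isTest_dbar {f : C3 → G} (hf : IsTest f) (j : Fin 3) : IsTest (dbar j f) :=
  CalcB_isTest hf (fun _ _ => CalcB_contDiffAt_dbar hf.smooth.contDiffAt j)
    fun _ hz => CalcB_dbar_zero hz j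

theorem CalcB_bilin_contDiffAt (B : G →L[ℂ] G' →L[ℂ] G'') {f : C3 → G} {g : C3 → G'} {z : C3}
    (hf : ContDiffAt ℝ ∞ f z) (hg : ContDiffAt ℝ ∞ g z) :
    ContDiffAt ℝ ∞ (fun z => B (f z) (g z)) z := by
  have h1 : ContDiffAt ℝ ∞ (fun z => B (f z)) z :=
    (B.restrictScalars ℝ).contDiff.contDiffAt.comp z hf
  have h2 : ContDiff ℝ ∞ (fun p : (G' →L[ℂ] G'') × G' => p.1 p.2) := 
    (isBoundedBilinearMap_apply (𝕜 := ℂ) (E := G') (F := G'')).contDiff.restrict_scalars ℝ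
  exact h2.contDiffAt.comp z (h1.prodMk hg)

theorem CalcB_dbar_bilin (B : G →L[ℂ] G' →L[ℂ] G'') {f : C3 → G} {g : C3 → G'} {z : C3}
    (hf : DifferentiableAt ℝ f z) (hg : DifferentiableAt ℝ g z) (j : Fin 3) :
    dbar j (fun z => B (f z) (g z)) z = B (dbar j f z) (g z) + B (f z) (dbar j g z) := by
  have h : HasFDerivAt (fun z => B (f z) (g z))
      ((((B.flip (g z)).restrictScalars ℝ).comp (fderiv ℝ f z)) +
        (((B (f z)).restrictScalars ℝ).comp (fderiv ℝ g z))) z := by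
    have hB : HasFDerivAt (fun p : G × G' => B p.1 p.2)
        ((B.isBoundedBilinearMap.deriv (f z, g z)).restrictScalars ℝ) (f z, g z) :=
      (B.isBoundedBilinearMap.hasFDerivAt (f z, g z)).restrictScalars ℝ
    have h2 := hB.comp z (hf.hasFDerivAt.prodMk hg.hasFDerivAt)
    refine h2.congr_fderiv ?_
    ext v
    simp [add_comm]
  unfold dbar
  rw [h.fderiv]
  simp only [add_apply, ContinuousLinearMap.comp_apply,
    ContinuousLinearMap.coe_restrictScalars', ContinuousLinearMap.flip_apply, map_add, map_smul,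
    smul_add, smul_apply]
  abel

theorem CalcB_dbar_comm {f : C3 → G} {z : C3} (hf : ContDiffAt ℝ ∞ f z) (i j : Fin 3) :
    dbar i (dbar j f) z = dbar j (dbar i f) z := by
  have hs : IsSymmSndFDerivAt ℝ f z := by
    apply hf.isSymmSndFDerivAt
    rw [minSmoothness_of_isRCLikeNormedField]
    exact WithTop.coe_le_coe.2 (le_top : (2 : ℕ∞) ≤ ⊤)
  have hd : DifferentiableAt ℝ (fderiv ℝ f) z :=
    (CalcB_contDiffAt_fderiv hf).differentiableAt (by simp)
  have key : ∀ (j : Fin 3) (v : C3), fderiv ℝ (dbar j f) z v = (1 / 2 : ℂ) •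
      (fderiv ℝ (fderiv ℝ f) z v (Pi.single j 1) + I • fderiv ℝ (fderiv ℝ f) z v (Pi.single j I)) := by
    intro j v
    have h1 : HasFDerivAt (fun z => fderiv ℝ f z (Pi.single j 1))
        ((fderiv ℝ (fderiv ℝ f) z).flip (Pi.single j 1)) z := by
      have := hd.hasFDerivAt.clm_apply (hasFDerivAt_const (Pi.single j (1:ℂ) : C3) z)
      refine this.congr_fderiv ?_
      ext v
      simp
    have h2 : HasFDerivAt (fun z => fderiv ℝ f z (Pi.single j I))
        ((fderiv ℝ (fderiv ℝ f) z).flip (Pi.single j I)) z := by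
      have := hd.hasFDerivAt.clm_apply (hasFDerivAt_const (Pi.single j (I:ℂ) : C3) z)
      refine this.congr_fderiv ?_
      ext v
      simp
    have h3 : HasFDerivAt (dbar j f) ((1 / 2 : ℂ) •
        ((fderiv ℝ (fderiv ℝ f) z).flip (Pi.single j 1) +
          I • (fderiv ℝ (fderiv ℝ f) z).flip (Pi.single j I))) z :=
      (h1.add (h2.const_smul I)).const_smul (1 / 2 : ℂ)
    rw [h3.fderiv]
    simp
  have e1 : dbar i (dbar j f) z = (1 / 2 : ℂ) • (fderiv ℝ (dbar j f) z (Pi.single i 1) +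
    I • fderiv ℝ (dbar j f) z (Pi.single i I)) := rfl
  have e2 : dbar j (dbar i f) z = (1 / 2 : ℂ) • (fderiv ℝ (dbar i f) z (Pi.single j 1) +
    I • fderiv ℝ (dbar i f) z (Pi.single j I)) := rfl
  rw [e1, e2, key, key, key, key, hs (Pi.single j 1) (Pi.single i 1),
    hs (Pi.single j 1) (Pi.single i I), hs (Pi.single j I) (Pi.single i 1),
    hs (Pi.single j I) (Pi.single i I)]
  simp only [smul_add, smul_smul]
  ring_nf
  abel

/-- pairing a test function with a locally integrable function -/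
theorem CalcB_integrable {Ψ : C3 → (Fm m →L[ℂ] ℂ)} (hΨ : IsTest Ψ) {U : C3 → Fm m} (hU : LI U) :
    Integrable (fun z => Ψ z (U z)) := by
  have hK : IsCompact (tsupport Ψ) := hΨ.compact
  have h1 : IntegrableOn U (tsupport Ψ) := hU.integrableOn_compact_subset
    (fun z hz h => hΨ.zero_notMem (h ▸ hz)) hK
  have hs : Function.support (fun z => Ψ z (U z)) ⊆ tsupport Ψ := by
    intro z hz
    by_contra h
    apply hz
    simp only
    rw [image_eq_zero_of_notMem_tsupport h]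
    rfl
  rw [← integrableOn_iff_integrable_of_support_subset hs]
  obtain ⟨C, hC⟩ := hΨ.compact.exists_bound_of_continuous hΨ.smooth.continuous
  exact (ContinuousLinearMap.id ℂ (Fm m →L[ℂ] ℂ)).integrable_of_bilin_of_bdd_left C
    hΨ.smooth.continuous.aestronglyMeasurable (ae_of_all _ hC) h1

/-! #### the function `R2` -/

theorem CalcB_R2_pos {z : C3} (hz : z ≠ 0) : 0 < R2 z := by
  unfold R2
  have h0 : ∃ i, z i ≠ 0 := by
    by_contra h
    push Not at h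
    exact hz (funext h)
  obtain ⟨i, hi⟩ := h0
  apply Finset.sum_pos' (fun i _ => by positivity)
  exact ⟨i, Finset.mem_univ _, by positivity⟩

theorem CalcB_hasFDerivAt_R2 (z : C3) :
    HasFDerivAt R2 (∑ i, (2:ℝ) • (innerSL ℝ (z i)).comp
      ((ContinuousLinearMap.proj (R := ℝ) (φ := fun _ : Fin 3 => ℂ) i))) z := by
  unfold R2
  apply HasFDerivAt.fun_sum
  intro i _
  have h := (ContinuousLinearMap.proj (R := ℝ) (φ := fun _ : Fin 3 => ℂ) i).hasFDerivAt (x := z)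
  refine h.norm_sq.congr_fderiv ?_
  rw [ofNat_smul_eq_nsmul ℝ 2]
  rfl

theorem CalcB_dbar_R2 {g : ℝ → ℝ} {g' : ℝ} {z : C3} (hg : HasDerivAt g g' (R2 z)) (j : Fin 3) :
    dbar j (fun z => ((g (R2 z) : ℝ) : ℂ)) z = (g' : ℂ) * z j := by
  have h1 : HasFDerivAt (fun z => g (R2 z)) (g' • (∑ i, (2:ℝ) • (innerSL ℝ (z i)).comp
      ((ContinuousLinearMap.proj (R := ℝ) (φ := fun _ : Fin 3 => ℂ) i)))) z :=
    hg.comp_hasFDerivAt z (CalcB_hasFDerivAt_R2 z)
  have h2 : HasFDerivAt (fun z => ((g (R2 z) : ℝ) : ℂ)) (Complex.ofRealCLM.comp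
      (g' • (∑ i, (2:ℝ) • (innerSL ℝ (z i)).comp
      ((ContinuousLinearMap.proj (R := ℝ) (φ := fun _ : Fin 3 => ℂ) i))))) z :=
    Complex.ofRealCLM.hasFDerivAt.comp z h1
  have h3 : ∀ c : ℂ, (∑ i, (2:ℝ) • (innerSL ℝ (z i)).comp
      ((ContinuousLinearMap.proj (R := ℝ) (φ := fun _ : Fin 3 => ℂ) i))) (Pi.single j c) =
      2 * (conj (z j) * c).re := by
    intro c
    rw [sum_apply, Finset.sum_eq_single j]
    · simp [Complex.inner]
      ring
    · intro i _ hi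
      simp [Pi.single_eq_of_ne hi]
    · intro h
      exact absurd (Finset.mem_univ j) h
  unfold dbar
  rw [h2.fderiv]
  simp only [ContinuousLinearMap.comp_apply, smul_apply, h3, Complex.ofRealCLM_apply]
  apply Complex.ext
  · simp
    ring
  · simp
    ring

theorem CalcB_contDiff_R2 : ContDiff ℝ ∞ R2 := by
  unfold R2
  apply ContDiff.sum
  intro i _
  exact (contDiff_apply ℝ ℂ i).norm_sq ℝ

theorem CalcB_dbar_coord (j k : Fin 3) (z : C3) : dbar k (fun z : C3 => z j) z = 0 := by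
  have h : HasFDerivAt (fun z : C3 => z j)
      (ContinuousLinearMap.proj (R := ℝ) (φ := fun _ : Fin 3 => ℂ) j) z :=
    (ContinuousLinearMap.proj (R := ℝ) (φ := fun _ : Fin 3 => ℂ) j).hasFDerivAt
  unfold dbar
  rw [h.fderiv]
  simp only [ContinuousLinearMap.proj_apply]
  by_cases hjk : j = k
  · subst hjk
    simp
  · simp [Pi.single_eq_of_ne hjk]

theorem CalcB_contDiffAt_eta (j : Fin 3) {z : C3} (hz : z ≠ 0) : ContDiffAt ℝ ∞ (eta j) z := by
  have e : eta j = fun z : C3 => z j * (((R2 z)⁻¹ : ℝ) : ℂ) := by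
    funext z
    unfold eta
    simp [div_eq_mul_inv]
  rw [e]
  have h1 : ContDiffAt ℝ ∞ (fun z : C3 => z j) z := (contDiff_apply ℝ ℂ j).contDiffAt
  have h2 : ContDiffAt ℝ ∞ (fun z : C3 => (R2 z)⁻¹) z :=
    CalcB_contDiff_R2.contDiffAt.inv (CalcB_R2_pos hz).ne'
  exact h1.mul (Complex.ofRealCLM.contDiff.contDiffAt.comp z h2)

theorem CalcB_dbar_eta (j k : Fin 3) {z : C3} (hz : z ≠ 0) :
    dbar k (eta j) z = - (z j * z k) / ((R2 z : ℂ)) ^ 2 := by
  have h0 := (CalcB_R2_pos hz).ne'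
  have h0' : ((R2 z : ℝ) : ℂ) ≠ 0 := by exact_mod_cast h0
  have e : eta j = fun z : C3 => (ContinuousLinearMap.mul ℂ ℂ) (z j) (((R2 z)⁻¹ : ℝ) : ℂ) := by
    funext z
    unfold eta
    simp [div_eq_mul_inv]
  have h1 : DifferentiableAt ℝ (fun z : C3 => z j) z :=
    (contDiff_apply ℝ ℂ j).contDiffAt.differentiableAt (n := 1) (by simp)
  have h2 : ContDiffAt ℝ ∞ (fun z : C3 => (R2 z)⁻¹) z := CalcB_contDiff_R2.contDiffAt.inv h0
  have h3 : DifferentiableAt ℝ (fun z : C3 => (((R2 z)⁻¹ : ℝ) : ℂ)) z :=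
    ((Complex.ofRealCLM.contDiff.contDiffAt.comp z h2)).differentiableAt (by simp)
  rw [e, CalcB_dbar_bilin _ h1 h3, CalcB_dbar_coord, CalcB_dbar_R2 (hasDerivAt_inv h0)]
  simp
  field_simp


theorem CalcB_dbar_const (c : G) (j : Fin 3) (z : C3) : dbar j (fun _ => c) z = 0 := by
  unfold dbar
  simp

theorem CalcB_dbar_sub {f g : C3 → G} {z : C3} (hf : DifferentiableAt ℝ f z)
    (hg : DifferentiableAt ℝ g z) (j : Fin 3) :
    dbar j (fun z => f z - g z) z = dbar j f z - dbar j g z := by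
  have h : HasFDerivAt (fun z => f z - g z) (fderiv ℝ f z - fderiv ℝ g z) z :=
    hf.hasFDerivAt.sub hg.hasFDerivAt
  unfold dbar
  rw [h.fderiv]
  simp only [sub_apply, smul_sub, smul_add]
  abel

theorem CalcB_dbar_smul {a : C3 → ℂ} {f : C3 → G} {z : C3} (ha : DifferentiableAt ℝ a z)
    (hf : DifferentiableAt ℝ f z) (j : Fin 3) :
    dbar j (fun z => a z • f z) z = dbar j a z • f z + a z • dbar j f z :=
  CalcB_dbar_bilin (ContinuousLinearMap.lsmul ℂ ℂ) ha hf j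

theorem CalcB_dbar_comp {f : C3 → (G' →L[ℂ] G'')} {g : C3 → (G →L[ℂ] G')} {z : C3}
    (hf : DifferentiableAt ℝ f z) (hg : DifferentiableAt ℝ g z) (j : Fin 3) :
    dbar j (fun z => f z ∘L g z) z = dbar j f z ∘L g z + f z ∘L dbar j g z :=
  CalcB_dbar_bilin (ContinuousLinearMap.compL ℂ G G' G'') hf hg j

theorem CalcB_diff {f : C3 → G} {z : C3} (h : ContDiffAt ℝ ∞ f z) : DifferentiableAt ℝ f z :=
  h.differentiableAt (by simp)

theorem CalcB_isTest_smul {a : C3 → ℂ} (ha : ∀ z : C3, z ≠ 0 → ContDiffAt ℝ ∞ a z) {Ψ : C3 → G}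
    (hΨ : IsTest Ψ) : IsTest (fun z => a z • Ψ z) := by
  refine CalcB_isTest hΨ (fun z hz => ?_) fun z hz => ?_
  · exact (ha z hz).smul hΨ.smooth.contDiffAt
  · rw [image_eq_zero_of_notMem_tsupport hz, smul_zero]

theorem CalcB_isTest_comp {E : C3 → (G' →L[ℂ] G)} (hE : ∀ z : C3, z ≠ 0 → ContDiffAt ℝ ∞ E z)
    {Ψ : C3 → (G →L[ℂ] G'')} (hΨ : IsTest Ψ) : IsTest (fun z => Ψ z ∘L E z) := by
  refine CalcB_isTest hΨ (fun z hz => ?_) fun z hz => ?_
  · exact CalcB_bilin_contDiffAt (ContinuousLinearMap.compL ℂ G' G G'') hΨ.smooth.contDiffAt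
      (hE z hz)
  · rw [image_eq_zero_of_notMem_tsupport hz, ContinuousLinearMap.zero_comp]

theorem CalcB_ne_zero {Ψ : C3 → G} (hΨ : IsTest Ψ) {z : C3} (h : Ψ z ≠ 0) : z ≠ 0 := by
  rintro rfl
  exact hΨ.zero_notMem (subset_tsupport _ h)

end CalcB

theorem CalcB_eta_scale (j : Fin 3) (z : C3) : eta j ((2 : ℂ) • z) = (1 / 2 : ℂ) * eta j z := by
  unfold eta R2
  have h : ∀ i, ‖((2:ℂ) • z) i‖ ^ 2 = 4 * ‖z i‖ ^ 2 := by
    intro i
    rw [Pi.smul_apply, smul_eq_mul, norm_mul, mul_pow]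
    norm_num
  simp only [h]
  rw [← Finset.mul_sum, Pi.smul_apply, smul_eq_mul]
  push_cast
  rcases eq_or_ne (∑ i, (‖z i‖ : ℂ) ^ 2) 0 with h0 | h0
  · rw [h0]; simp
  · field_simp
    ring

theorem PE.twist {P : C3 → (Fm m →L[ℂ] Fm m)} {E : Fin 3 → C3 → (Fm m →L[ℂ] Fm m)}
    (h : PE P E) (s : ℝ) : PE P (twist s E) := by
  have hs : ∀ j, ∀ z : C3, z ≠ 0 → ContDiffAt ℝ ∞ (fun z => (s : ℂ) * eta j z) z :=
    fun j z hz => contDiffAt_const.mul (CalcB_contDiffAt_eta j hz)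
  have hd : ∀ j k, ∀ z : C3, z ≠ 0 → dbar k (HopfEmb.twist s E j) z =
      dbar k (E j) z - ((s : ℂ) * dbar k (eta j) z) • ContinuousLinearMap.id ℂ (Fm m) := by
    intro j k z hz
    have e : HopfEmb.twist s E j = fun z => E j z - ((s : ℂ) * eta j z) •
      ContinuousLinearMap.id ℂ (Fm m) := rfl
    have h3 : ContDiffAt ℝ ∞ (fun z => ((s : ℂ) * eta j z) • ContinuousLinearMap.id ℂ (Fm m)) z :=
      (hs j z hz).smul contDiffAt_const
    rw [e, CalcB_dbar_sub (CalcB_diff (h.E_smooth j z hz)) (CalcB_diff h3),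
      CalcB_dbar_smul (CalcB_diff (hs j z hz)) (differentiableAt_const _), CalcB_dbar_const,
      smul_zero, add_zero]
    have e2 : dbar k (fun z => (s : ℂ) * eta j z) z = (s : ℂ) * dbar k (eta j) z := by
      have := CalcB_dbar_smul (a := fun _ => (s : ℂ)) (f := eta j) (z := z)
        (differentiableAt_const _) (CalcB_diff (CalcB_contDiffAt_eta j hz)) k
      rw [CalcB_dbar_const, zero_smul, zero_add] at this
      exact this
    rw [e2]
  refine ⟨h.P_smooth, ?_, h.P_idem, h.P_symm, h.P_scale, ?_, ?_, ?_⟩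
  · intro j z hz
    exact (h.E_smooth j z hz).sub ((hs j z hz).smul contDiffAt_const)
  · intro j z hz
    unfold HopfEmb.twist
    rw [h.E_scale j z hz, CalcB_eta_scale, smul_sub, smul_smul]
    congr 2
    ring
  · intro j z hz
    rw [h.compat j z hz]
    unfold HopfEmb.twist
    ext v
    have hP := congrArg (fun T : Fm m →L[ℂ] Fm m => T v) (h.P_idem z hz)
    simp only [ContinuousLinearMap.comp_apply] at hP
    simp [hP]
  · intro j k z hz
    rw [hd j k z hz, hd k j z hz, CalcB_dbar_eta j k hz, CalcB_dbar_eta k j hz]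
    have hc := h.curv j k z hz
    have e : (dbar k (E j) z - ((s : ℂ) * (-(z j * z k) / (R2 z : ℂ) ^ 2)) •
        ContinuousLinearMap.id ℂ (Fm m) -
        (dbar j (E k) z - ((s : ℂ) * (-(z k * z j) / (R2 z : ℂ) ^ 2)) •
        ContinuousLinearMap.id ℂ (Fm m)) -
        HopfEmb.twist s E k z ∘L HopfEmb.twist s E j z +
        HopfEmb.twist s E j z ∘L HopfEmb.twist s E k z) =
        dbar k (E j) z - dbar j (E k) z - E k z ∘L E j z + E j z ∘L E k z := by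
      unfold HopfEmb.twist
      ext v
      simp [mul_comm (z k) (z j), smul_sub, smul_smul, mul_comm]
      ring
    rw [e, hc]


theorem CalcB_dbar_comp_test {E : C3 → (Fm m →L[ℂ] Fm m)}
    (hE : ∀ z : C3, z ≠ 0 → ContDiffAt ℝ ∞ E z) {Ψ : C3 → (Fm m →L[ℂ] ℂ)} (hΨ : IsTest Ψ)
    (j : Fin 3) (z : C3) :
    dbar j (fun z => Ψ z ∘L E z) z = dbar j Ψ z ∘L E z + Ψ z ∘L dbar j E z := by
  by_cases hz : z = 0
  · subst hz
    rw [CalcB_dbar_zero (CalcB_isTest_comp hE hΨ).zero_notMem, CalcB_dbar_zero hΨ.zero_notMem,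
      image_eq_zero_of_notMem_tsupport hΨ.zero_notMem]
    simp
  · exact CalcB_dbar_comp (CalcB_diff hΨ.smooth.contDiffAt) (CalcB_diff (hE z hz)) j

theorem CalcB_dbar_smul_test {a : C3 → ℂ}
    (ha : ∀ z : C3, z ≠ 0 → ContDiffAt ℝ ∞ a z) {Ψ : C3 → (Fm m →L[ℂ] ℂ)} (hΨ : IsTest Ψ)
    (j : Fin 3) (z : C3) :
    dbar j (fun z => a z • Ψ z) z = dbar j a z • Ψ z + a z • dbar j Ψ z := by
  by_cases hz : z = 0
  · subst hz
    rw [CalcB_dbar_zero (CalcB_isTest_smul ha hΨ).zero_notMem, CalcB_dbar_zero hΨ.zero_notMem,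
      image_eq_zero_of_notMem_tsupport hΨ.zero_notMem]
    ext v
    simp
  · exact CalcB_dbar_smul (CalcB_diff (ha z hz)) (CalcB_diff hΨ.smooth.contDiffAt) j

/-- the pairing of a test function with a vector function -/
def CalcB_pair (Ψ : C3 → (Fm m →L[ℂ] ℂ)) (U : C3 → Fm m) : ℂ := ∫ z, Ψ z (U z)

theorem CalcB_pair_add {Ψ Ψ' : C3 → (Fm m →L[ℂ] ℂ)} (hΨ : IsTest Ψ) (hΨ' : IsTest Ψ')
    {U V : C3 → Fm m} (hU : LI U) (hV : LI V) :
    ∫ z, (Ψ z (U z) + Ψ' z (V z)) = CalcB_pair Ψ U + CalcB_pair Ψ' V :=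
  integral_add (CalcB_integrable hΨ hU) (CalcB_integrable hΨ' hV)

theorem CalcB_pair_sub {Ψ Ψ' : C3 → (Fm m →L[ℂ] ℂ)} (hΨ : IsTest Ψ) (hΨ' : IsTest Ψ')
    {U V : C3 → Fm m} (hU : LI U) (hV : LI V) :
    ∫ z, (Ψ z (U z) - Ψ' z (V z)) = CalcB_pair Ψ U - CalcB_pair Ψ' V :=
  integral_sub (CalcB_integrable hΨ hU) (CalcB_integrable hΨ' hV)

theorem CalcB_int4 {f1 f2 f3 f4 : C3 → ℂ} (h1 : Integrable f1) (h2 : Integrable f2)
    (h3 : Integrable f3) (h4 : Integrable f4) :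
    ∫ z, (f1 z - f2 z - f3 z + f4 z) =
      (∫ z, f1 z) - (∫ z, f2 z) - (∫ z, f3 z) + ∫ z, f4 z := by
  have h12 : Integrable (fun z => f1 z - f2 z) := h1.sub h2
  have h123 : Integrable (fun z => f1 z - f2 z - f3 z) := h12.sub h3
  rw [integral_add h123 h4, integral_sub h12 h3, integral_sub h1 h2]

theorem CalcB_curv {P : C3 → (Fm m →L[ℂ] Fm m)} {E : Fin 3 → C3 → (Fm m →L[ℂ] Fm m)}
    (hPE : PE P E) {U : C3 → Fm m} (hU : LI U)
    (hPU : ∀ᵐ z : C3, P z (U z) = U z) {Ψ : C3 → (Fm m →L[ℂ] ℂ)} (hΨ : IsTest Ψ) (j k : Fin 3) :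
    CalcB_pair (fun z => Ψ z ∘L dbar k (E j) z) U - CalcB_pair (fun z => Ψ z ∘L dbar j (E k) z) U -
      CalcB_pair (fun z => (Ψ z ∘L E k z) ∘L E j z) U +
      CalcB_pair (fun z => (Ψ z ∘L E j z) ∘L E k z) U = 0 := by
  have hE := hPE.E_smooth
  have hdE : ∀ j k, ∀ z : C3, z ≠ 0 → ContDiffAt ℝ ∞ (dbar k (E j)) z :=
    fun j k z hz => CalcB_contDiffAt_dbar (hE j z hz) k
  have t1 := CalcB_integrable (CalcB_isTest_comp (hdE j k) hΨ) hU
  have t2 := CalcB_integrable (CalcB_isTest_comp (hdE k j) hΨ) hU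
  have t3 := CalcB_integrable (CalcB_isTest_comp (hE j) (CalcB_isTest_comp (hE k) hΨ)) hU
  have t4 := CalcB_integrable (CalcB_isTest_comp (hE k) (CalcB_isTest_comp (hE j) hΨ)) hU
  have e1 : (∫ z, ((Ψ z ∘L dbar k (E j) z) (U z) - (Ψ z ∘L dbar j (E k) z) (U z) -
      ((Ψ z ∘L E k z) ∘L E j z) (U z) + ((Ψ z ∘L E j z) ∘L E k z) (U z))) =
      (∫ z, (Ψ z ∘L dbar k (E j) z) (U z)) - (∫ z, (Ψ z ∘L dbar j (E k) z) (U z)) -
      (∫ z, ((Ψ z ∘L E k z) ∘L E j z) (U z)) + ∫ z, ((Ψ z ∘L E j z) ∘L E k z) (U z) :=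
    CalcB_int4 t1 t2 t3 t4
  unfold CalcB_pair
  refine e1.symm.trans ?_
  have h0 : (0 : ℂ) = ∫ _ : C3, (0 : ℂ) := by simp
  rw [h0]
  apply integral_congr_ae
  filter_upwards [hPU] with z hz
  by_cases hz0 : z = 0
  · subst hz0
    rw [image_eq_zero_of_notMem_tsupport hΨ.zero_notMem]
    simp
  · have hc := congrArg (fun T : Fm m →L[ℂ] Fm m => Ψ z (T (U z))) (hPE.curv j k z hz0)
    simp only [ContinuousLinearMap.comp_apply, hz, sub_apply, add_apply, map_sub, map_add,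
      zero_apply, map_zero] at hc
    simp only [ContinuousLinearMap.comp_apply]
    exact hc

theorem weak1_of_weak0 {P : C3 → (Fm m →L[ℂ] Fm m)} {E : Fin 3 → C3 → (Fm m →L[ℂ] Fm m)}
    (hPE : PE P E) {U : C3 → Fm m} {F : Fin 3 → C3 → Fm m} (hU : LI U) (hF : ∀ j, LI (F j))
    (hPU : ∀ᵐ z : C3, P z (U z) = U z) (h : Weak0 E U F) :
    Weak1 E F (fun _ _ => 0) := by
  have hE := hPE.E_smooth
  have hdE : ∀ j k, ∀ z : C3, z ≠ 0 → ContDiffAt ℝ ∞ (dbar k (E j)) z :=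
    fun j k z hz => CalcB_contDiffAt_dbar (hE j z hz) k
  -- weak equation, expanded
  have hw : ∀ Ψ : C3 → (Fm m →L[ℂ] ℂ), IsTest Ψ → ∀ j : Fin 3,
      CalcB_pair (dbar j Ψ) U = -(CalcB_pair (fun z => Ψ z ∘L E j z) U + CalcB_pair Ψ (F j)) := by
    intro Ψ hΨ j
    have h1 := h Ψ hΨ j
    rw [← CalcB_pair_add (CalcB_isTest_comp (hE j) hΨ) hΨ hU (hF j)]
    refine h1.trans ?_
    congr 1
    apply integral_congr_ae
    filter_upwards with z
    simp
  have hw' : ∀ Ψ : C3 → (Fm m →L[ℂ] ℂ), IsTest Ψ → ∀ j k : Fin 3,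
      CalcB_pair (dbar j (fun z => Ψ z ∘L E k z)) U =
      CalcB_pair (fun z => dbar j Ψ z ∘L E k z) U +
        CalcB_pair (fun z => Ψ z ∘L dbar j (E k) z) U := by
    intro Ψ hΨ j k
    rw [← CalcB_pair_add (CalcB_isTest_comp (hE k) (CalcB_isTest_dbar hΨ j))
      (CalcB_isTest_comp (hdE k j) hΨ) hU hU]
    apply integral_congr_ae
    filter_upwards with z
    rw [CalcB_dbar_comp_test (hE k) hΨ]
    simp
  intro Ψ hΨ i
  have h1 := hw _ (CalcB_isTest_dbar hΨ (i + 1)) (i + 2)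
  have h2 := hw _ (CalcB_isTest_dbar hΨ (i + 2)) (i + 1)
  have h3 := hw _ (CalcB_isTest_comp (hE (i + 2)) hΨ) (i + 1)
  have h4 := hw _ (CalcB_isTest_comp (hE (i + 1)) hΨ) (i + 2)
  rw [hw' Ψ hΨ] at h3 h4
  have h5 := CalcB_curv hPE hU hPU hΨ (i + 2) (i + 1)
  have h6 : CalcB_pair (dbar (i + 2) (dbar (i + 1) Ψ)) U =
      CalcB_pair (dbar (i + 1) (dbar (i + 2) Ψ)) U := by
    have : dbar (i + 2) (dbar (i + 1) Ψ) = dbar (i + 1) (dbar (i + 2) Ψ) := by
      funext z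
      exact CalcB_dbar_comm hΨ.smooth.contDiffAt _ _
    rw [this]
  rw [CalcB_pair_sub (CalcB_isTest_dbar hΨ (i + 1)) (CalcB_isTest_dbar hΨ (i + 2)) (hF _) (hF _)]
  have h7 : ∫ z, Ψ z (E (i + 1) z (F (i + 2) z) - E (i + 2) z (F (i + 1) z) + 0) =
      CalcB_pair (fun z => Ψ z ∘L E (i + 1) z) (F (i + 2)) -
      CalcB_pair (fun z => Ψ z ∘L E (i + 2) z) (F (i + 1)) := by
    rw [← CalcB_pair_sub (CalcB_isTest_comp (hE _) hΨ) (CalcB_isTest_comp (hE _) hΨ) (hF _) (hF _)]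
    apply integral_congr_ae
    filter_upwards with z
    simp
  rw [h7]
  linear_combination h1 - h2 - h3 + h4 + h5 - h6


theorem weak2_of_weak1 {P : C3 → (Fm m →L[ℂ] Fm m)} {E : Fin 3 → C3 → (Fm m →L[ℂ] Fm m)}
    (hPE : PE P E) {F H : Fin 3 → C3 → Fm m} (hF : ∀ j, LI (F j)) (hH : ∀ j, LI (H j))
    (hPF : ∀ j, ∀ᵐ z : C3, P z (F j z) = F j z) (h : Weak1 E F H) : Weak2 E H := by
  have hE := hPE.E_smooth
  have hdE : ∀ j k, ∀ z : C3, z ≠ 0 → ContDiffAt ℝ ∞ (dbar k (E j)) z :=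
    fun j k z hz => CalcB_contDiffAt_dbar (hE j z hz) k
  -- weak equation, expanded
  have hw : ∀ Ψ : C3 → (Fm m →L[ℂ] ℂ), IsTest Ψ → ∀ i : Fin 3,
      CalcB_pair (dbar (i + 1) Ψ) (F (i + 2)) - CalcB_pair (dbar (i + 2) Ψ) (F (i + 1)) =
      -(CalcB_pair (fun z => Ψ z ∘L E (i + 1) z) (F (i + 2)) -
        CalcB_pair (fun z => Ψ z ∘L E (i + 2) z) (F (i + 1)) + CalcB_pair Ψ (H i)) := by
    intro Ψ hΨ i
    have h1 := h Ψ hΨ i
    have hi1 := CalcB_integrable (CalcB_isTest_comp (hE (i + 1)) hΨ) (hF (i + 2))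
    have hi2 := CalcB_integrable (CalcB_isTest_comp (hE (i + 2)) hΨ) (hF (i + 1))
    have hi3 := CalcB_integrable hΨ (hH i)
    have hi12 : Integrable (fun z => (Ψ z ∘L E (i + 1) z) (F (i + 2) z) -
      (Ψ z ∘L E (i + 2) z) (F (i + 1) z)) := hi1.sub hi2
    rw [← CalcB_pair_sub (CalcB_isTest_dbar hΨ _) (CalcB_isTest_dbar hΨ _) (hF _) (hF _), h1]
    unfold CalcB_pair
    rw [← integral_sub hi1 hi2, ← integral_add hi12 hi3]
    congr 1
    apply integral_congr_ae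
    filter_upwards with z
    simp
  have hw' : ∀ Ψ : C3 → (Fm m →L[ℂ] ℂ), IsTest Ψ → ∀ j k c : Fin 3,
      CalcB_pair (dbar j (fun z => Ψ z ∘L E k z)) (F c) =
      CalcB_pair (fun z => dbar j Ψ z ∘L E k z) (F c) +
        CalcB_pair (fun z => Ψ z ∘L dbar j (E k) z) (F c) := by
    intro Ψ hΨ j k c
    rw [← CalcB_pair_add (CalcB_isTest_comp (hE k) (CalcB_isTest_dbar hΨ j))
      (CalcB_isTest_comp (hdE k j) hΨ) (hF c) (hF c)]
    apply integral_congr_ae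
    filter_upwards with z
    rw [CalcB_dbar_comp_test (hE k) hΨ]
    simp
  intro Ψ hΨ
  have hA := fun i : Fin 3 => hw _ (CalcB_isTest_dbar hΨ i) i
  have hB := fun i : Fin 3 => hw _ (CalcB_isTest_comp (hE i) hΨ) i
  have hC := fun c : Fin 3 => CalcB_curv hPE (hF c) (hPF c) hΨ (c + 1) (c + 2)
  have hD : ∀ j k c : Fin 3, CalcB_pair (dbar j (dbar k Ψ)) (F c) =
      CalcB_pair (dbar k (dbar j Ψ)) (F c) := by
    intro j k c
    have : dbar j (dbar k Ψ) = dbar k (dbar j Ψ) := by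
      funext z
      exact CalcB_dbar_comm hΨ.smooth.contDiffAt _ _
    rw [this]
  have hL : ∫ z, ∑ i : Fin 3, (dbar i Ψ z) (H i z) = ∑ i : Fin 3, CalcB_pair (dbar i Ψ) (H i) :=
    integral_finsetSum _ fun i _ => CalcB_integrable (CalcB_isTest_dbar hΨ i) (hH i)
  have hR : ∫ z, ∑ i : Fin 3, Ψ z (E i z (H i z)) =
      ∑ i : Fin 3, CalcB_pair (fun z => Ψ z ∘L E i z) (H i) :=
    integral_finsetSum _ fun i _ => CalcB_integrable (CalcB_isTest_comp (hE i) hΨ) (hH i)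
  rw [hL, hR, Fin.sum_univ_three, Fin.sum_univ_three]
  have a0 := hA 0
  have a1 := hA 1
  have a2 := hA 2
  have b0 := hB 0
  have b1 := hB 1
  have b2 := hB 2
  have c0 := hC 0
  have c1 := hC 1
  have c2 := hC 2
  rw [hw' Ψ hΨ, hw' Ψ hΨ] at b0 b1 b2
  have e01 : (0 : Fin 3) + 1 = 1 := rfl
  have e02 : (0 : Fin 3) + 2 = 2 := rfl
  have e11 : (1 : Fin 3) + 1 = 2 := rfl
  have e12 : (1 : Fin 3) + 2 = 0 := rfl
  have e21 : (2 : Fin 3) + 1 = 0 := rfl
  have e22 : (2 : Fin 3) + 2 = 1 := rfl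
  simp only [e01, e02, e11, e12, e21, e22] at a0 a1 a2 b0 b1 b2 c0 c1 c2
  have d0 := hD 1 0 2
  have d1 := hD 2 0 1
  have d2 := hD 2 1 0
  linear_combination a0 + a1 + a2 + b0 + b1 + b2 - c0 - c1 - c2 - d0 + d1 - d2

theorem Weak0.mul {E : Fin 3 → C3 → (Fm m →L[ℂ] Fm m)}
    (hE : ∀ j, ∀ z : C3, z ≠ 0 → ContDiffAt ℝ ∞ (E j) z)
    {U : C3 → Fm m} {F : Fin 3 → C3 → Fm m} (hU : LI U) (hF : ∀ j, LI (F j))
    (h : Weak0 E U F) {a : C3 → ℂ} (ha : ∀ z : C3, z ≠ 0 → ContDiffAt ℝ ∞ a z) :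
    Weak0 E (fun z => a z • U z) (fun j z => dbar j a z • U z + a z • F j z) := by
  intro Ψ hΨ j
  have hda : ∀ z : C3, z ≠ 0 → ContDiffAt ℝ ∞ (dbar j a) z :=
    fun z hz => CalcB_contDiffAt_dbar (ha z hz) j
  have ht := CalcB_isTest_smul ha hΨ
  have h1 := h _ ht j
  have i1 := CalcB_integrable (CalcB_isTest_smul hda hΨ) hU
  have i2 := CalcB_integrable (CalcB_isTest_smul ha (CalcB_isTest_dbar hΨ j)) hU
  have i3 := CalcB_integrable (CalcB_isTest_comp (hE j) ht) hU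
  have i4 := CalcB_integrable ht (hF j)
  have e1 : ∫ z, (dbar j (fun z => a z • Ψ z) z) (U z) =
      (∫ z, (dbar j a z • Ψ z) (U z)) + ∫ z, (a z • dbar j Ψ z) (U z) := by
    rw [← integral_add i1 i2]
    apply integral_congr_ae
    filter_upwards with z
    rw [CalcB_dbar_smul_test ha hΨ]
    simp
  have e2 : ∫ z, (a z • Ψ z) (E j z (U z) + F j z) =
      (∫ z, ((a z • Ψ z) ∘L E j z) (U z)) + ∫ z, (a z • Ψ z) (F j z) := by
    rw [← integral_add i3 i4]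
    apply integral_congr_ae
    filter_upwards with z
    simp [mul_add]
  have e3 : ∫ z, (dbar j Ψ z) (a z • U z) = ∫ z, (a z • dbar j Ψ z) (U z) := by
    apply integral_congr_ae
    filter_upwards with z
    simp
  have e4 : ∫ z, Ψ z (E j z (a z • U z) + (dbar j a z • U z + a z • F j z)) =
      (∫ z, ((a z • Ψ z) ∘L E j z) (U z)) + ((∫ z, (dbar j a z • Ψ z) (U z)) +
        ∫ z, (a z • Ψ z) (F j z)) := by
    have i14 : Integrable (fun z => (dbar j a z • Ψ z) (U z) + (a z • Ψ z) (F j z)) := i1.add i4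
    rw [← integral_add i1 i4, ← integral_add i3 i14]
    apply integral_congr_ae
    filter_upwards with z
    simp
  rw [e3, e4]
  rw [e1, e2] at h1
  linear_combination h1

theorem Weak1.mul {E : Fin 3 → C3 → (Fm m →L[ℂ] Fm m)}
    (hE : ∀ j, ∀ z : C3, z ≠ 0 → ContDiffAt ℝ ∞ (E j) z)
    {F H : Fin 3 → C3 → Fm m} (hF : ∀ j, LI (F j)) (hH : ∀ j, LI (H j))
    (h : Weak1 E F H) {a : C3 → ℂ} (ha : ∀ z : C3, z ≠ 0 → ContDiffAt ℝ ∞ a z) :
    Weak1 E (fun j z => a z • F j z) (fun i z => (dbar (i + 1) a z • F (i + 2) z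
      - dbar (i + 2) a z • F (i + 1) z) + a z • H i z) := by
  intro Ψ hΨ i
  have hda : ∀ j, ∀ z : C3, z ≠ 0 → ContDiffAt ℝ ∞ (dbar j a) z :=
    fun j z hz => CalcB_contDiffAt_dbar (ha z hz) j
  have ht := CalcB_isTest_smul ha hΨ
  have h1 := h _ ht i
  have i1 := CalcB_integrable (CalcB_isTest_smul (hda (i + 1)) hΨ) (hF (i + 2))
  have i1' := CalcB_integrable (CalcB_isTest_smul (hda (i + 2)) hΨ) (hF (i + 1))
  have i2 := CalcB_integrable (CalcB_isTest_smul ha (CalcB_isTest_dbar hΨ (i + 1))) (hF (i + 2))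
  have i2' := CalcB_integrable (CalcB_isTest_smul ha (CalcB_isTest_dbar hΨ (i + 2))) (hF (i + 1))
  have i3 := CalcB_integrable (CalcB_isTest_comp (hE (i + 1)) ht) (hF (i + 2))
  have i3' := CalcB_integrable (CalcB_isTest_comp (hE (i + 2)) ht) (hF (i + 1))
  have i4 := CalcB_integrable ht (hH i)
  have i11 : Integrable (fun z => (dbar (i + 1) a z • Ψ z) (F (i + 2) z) -
    (dbar (i + 2) a z • Ψ z) (F (i + 1) z)) := i1.sub i1'
  have i22 : Integrable (fun z => (a z • dbar (i + 1) Ψ z) (F (i + 2) z) -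
    (a z • dbar (i + 2) Ψ z) (F (i + 1) z)) := i2.sub i2'
  have i33 : Integrable (fun z => ((a z • Ψ z) ∘L E (i + 1) z) (F (i + 2) z) -
    ((a z • Ψ z) ∘L E (i + 2) z) (F (i + 1) z)) := i3.sub i3'
  have e1 : ∫ z, ((dbar (i + 1) (fun z => a z • Ψ z) z) (F (i + 2) z) -
      (dbar (i + 2) (fun z => a z • Ψ z) z) (F (i + 1) z)) =
      (∫ z, ((dbar (i + 1) a z • Ψ z) (F (i + 2) z) - (dbar (i + 2) a z • Ψ z) (F (i + 1) z))) +
      ∫ z, ((a z • dbar (i + 1) Ψ z) (F (i + 2) z) - (a z • dbar (i + 2) Ψ z) (F (i + 1) z)) := by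
    rw [← integral_add i11 i22]
    apply integral_congr_ae
    filter_upwards with z
    rw [CalcB_dbar_smul_test ha hΨ, CalcB_dbar_smul_test ha hΨ]
    simp
    ring
  have e2 : ∫ z, (a z • Ψ z) (E (i + 1) z (F (i + 2) z) - E (i + 2) z (F (i + 1) z) + H i z) =
      (∫ z, (((a z • Ψ z) ∘L E (i + 1) z) (F (i + 2) z) -
      ((a z • Ψ z) ∘L E (i + 2) z) (F (i + 1) z))) + ∫ z, (a z • Ψ z) (H i z) := by
    rw [← integral_add i33 i4]
    apply integral_congr_ae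
    filter_upwards with z
    simp
    ring
  have e3 : ∫ z, ((dbar (i + 1) Ψ z) (a z • F (i + 2) z) -
      (dbar (i + 2) Ψ z) (a z • F (i + 1) z)) =
      ∫ z, ((a z • dbar (i + 1) Ψ z) (F (i + 2) z) - (a z • dbar (i + 2) Ψ z) (F (i + 1) z)) := by
    apply integral_congr_ae
    filter_upwards with z
    simp
  have e4 : ∫ z, Ψ z (E (i + 1) z (a z • F (i + 2) z) - E (i + 2) z (a z • F (i + 1) z) +
      ((dbar (i + 1) a z • F (i + 2) z - dbar (i + 2) a z • F (i + 1) z) + a z • H i z)) =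
      (∫ z, (((a z • Ψ z) ∘L E (i + 1) z) (F (i + 2) z) -
      ((a z • Ψ z) ∘L E (i + 2) z) (F (i + 1) z))) +
      ((∫ z, ((dbar (i + 1) a z • Ψ z) (F (i + 2) z) - (dbar (i + 2) a z • Ψ z) (F (i + 1) z))) +
      ∫ z, (a z • Ψ z) (H i z)) := by
    have i14 : Integrable (fun z => ((dbar (i + 1) a z • Ψ z) (F (i + 2) z) -
      (dbar (i + 2) a z • Ψ z) (F (i + 1) z)) + (a z • Ψ z) (H i z)) := i11.add i4
    rw [← integral_add i11 i4, ← integral_add i33 i14]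
    apply integral_congr_ae
    filter_upwards with z
    simp
  rw [e3, e4]
  rw [e1, e2] at h1
  linear_combination h1

theorem Weak2.mul {E : Fin 3 → C3 → (Fm m →L[ℂ] Fm m)}
    (hE : ∀ j, ∀ z : C3, z ≠ 0 → ContDiffAt ℝ ∞ (E j) z)
    {H : Fin 3 → C3 → Fm m} (hH : ∀ j, LI (H j))
    (h : Weak2 E H) {a : C3 → ℂ} (ha : ∀ z : C3, z ≠ 0 → ContDiffAt ℝ ∞ a z)
    (E' : Fin 3 → C3 → (Fm m →L[ℂ] Fm m))
    (hE' : ∀ j, ∀ z : C3, z ≠ 0 → a z • E' j z =
      a z • E j z + dbar j a z • ContinuousLinearMap.id ℂ (Fm m)) :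
    Weak2 E' (fun j z => a z • H j z) := by
  intro Ψ hΨ
  have hda : ∀ j, ∀ z : C3, z ≠ 0 → ContDiffAt ℝ ∞ (dbar j a) z :=
    fun j z hz => CalcB_contDiffAt_dbar (ha z hz) j
  have ht := CalcB_isTest_smul ha hΨ
  have h1 := h _ ht
  have i1 := fun j => CalcB_integrable (CalcB_isTest_smul (hda j) hΨ) (hH j)
  have i2 := fun j => CalcB_integrable (CalcB_isTest_smul ha (CalcB_isTest_dbar hΨ j)) (hH j)
  have i3 := fun j => CalcB_integrable (CalcB_isTest_comp (hE j) ht) (hH j)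
  have s1 : Integrable (fun z => ∑ j : Fin 3, (dbar j a z • Ψ z) (H j z)) :=
    integrable_finsetSum _ fun j _ => i1 j
  have s2 : Integrable (fun z => ∑ j : Fin 3, (a z • dbar j Ψ z) (H j z)) :=
    integrable_finsetSum _ fun j _ => i2 j
  have s3 : Integrable (fun z => ∑ j : Fin 3, ((a z • Ψ z) ∘L E j z) (H j z)) :=
    integrable_finsetSum _ fun j _ => i3 j
  have e1 : ∫ z, ∑ j : Fin 3, (dbar j (fun z => a z • Ψ z) z) (H j z) =
      (∫ z, ∑ j : Fin 3, (dbar j a z • Ψ z) (H j z)) +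
        ∫ z, ∑ j : Fin 3, (a z • dbar j Ψ z) (H j z) := by
    rw [← integral_add s1 s2]
    apply integral_congr_ae
    filter_upwards with z
    rw [← Finset.sum_add_distrib]
    apply Finset.sum_congr rfl
    intro j _
    rw [CalcB_dbar_smul_test ha hΨ]
    simp
  have e3 : ∫ z, ∑ j : Fin 3, (dbar j Ψ z) (a z • H j z) =
      ∫ z, ∑ j : Fin 3, (a z • dbar j Ψ z) (H j z) := by
    apply integral_congr_ae
    filter_upwards with z
    simp
  have e2 : ∫ z, ∑ j : Fin 3, (a z • Ψ z) (E j z (H j z)) =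
      ∫ z, ∑ j : Fin 3, ((a z • Ψ z) ∘L E j z) (H j z) := rfl
  have e4 : ∫ z, ∑ j : Fin 3, Ψ z (E' j z (a z • H j z)) =
      (∫ z, ∑ j : Fin 3, ((a z • Ψ z) ∘L E j z) (H j z)) +
        ∫ z, ∑ j : Fin 3, (dbar j a z • Ψ z) (H j z) := by
    rw [← integral_add s3 s1]
    apply integral_congr_ae
    filter_upwards with z
    rw [← Finset.sum_add_distrib]
    apply Finset.sum_congr rfl
    intro j _
    by_cases hz : z = 0
    · subst hz
      have h0 : Ψ 0 = 0 := image_eq_zero_of_notMem_tsupport hΨ.zero_notMem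
      simp [h0]
    · have := congrArg (fun T : Fm m →L[ℂ] Fm m => Ψ z (T (H j z))) (hE' j z hz)
      simp only [smul_apply, add_apply, map_smul, map_add, ContinuousLinearMap.id_apply] at this
      rw [map_smul, map_smul, this]
      simp
  rw [e3, e4]
  rw [e1, e2] at h1
  linear_combination h1

theorem dbar_R2_rpow (s : ℝ) (j : Fin 3) {z : C3} (hz : z ≠ 0) :
    dbar j (fun z => (((R2 z) ^ s : ℝ) : ℂ)) z = ((s : ℂ) * eta j z) * (((R2 z) ^ s : ℝ) : ℂ) := by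
  have h0 := CalcB_R2_pos hz
  have h1 : HasDerivAt (fun x : ℝ => x ^ s) (s * (R2 z) ^ (s - 1)) (R2 z) :=
    Real.hasDerivAt_rpow_const (Or.inl h0.ne')
  rw [CalcB_dbar_R2 h1, Real.rpow_sub_one h0.ne']
  unfold eta
  have h2 : ((R2 z : ℝ) : ℂ) ≠ 0 := by exact_mod_cast h0.ne'
  push_cast
  field_simp

theorem contDiffAt_R2_rpow (s : ℝ) {z : C3} (hz : z ≠ 0) :
    ContDiffAt ℝ ∞ (fun z : C3 => (((R2 z) ^ s : ℝ) : ℂ)) z := by
  have h0 := CalcB_R2_pos hz
  have h1 : ContDiffAt ℝ ∞ (fun z : C3 => (R2 z) ^ s) z :=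
    CalcB_contDiff_R2.contDiffAt.rpow_const_of_ne h0.ne'
  exact Complex.ofRealCLM.contDiff.contDiffAt.comp z h1

end

end Pool.Agent.HopfEmb
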