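import Pool.Agent.Lib.MP_d404b9_ag.ExtB
import Pool.Agent.Lib.MP_d404b9_ag.CalcA
import Pool.Agent.Lib.MP_d404b9_ag.CalcB

/-!
# JOB ADJ: from Hilbert space orthogonality to weak adjoint equations

Notation: `F_j = ext 1 (f j)`, `V_i = ext 2 (v i)`. All test functions have compact support in
`ℂ³ ∖ 0`. Every dual valued test function is `Ψ = ⟪Φ', ·⟫` with `Φ'` an `Fm m`-valued test function
(`InnerProductSpace.toDual`), and `∂_j Ψ = ⟪∂̄_j Φ', ·⟫`.

`adj1`: for a test function `Φ : C3 → Fm m` let `u ∈ HP P` with `ext 0 u = Per 0 (P Φ)` and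
`f' j ∈ HP P` with `ext 1 (f' j) = Per 1 ((∂̄_j - E_j)(P Φ))` (`exists_per`; the range condition holds
by `PE.compat`). By `weak0_of_smooth`, `dbar_Per`, `Per_bilin` we have `Rel0`. Hence by
`unfold_inner` `∫ |z|⁻⁴ ∑ ⟪(∂̄_j - E_j)(P Φ), F_j⟫ = 0`. Use `P F_j = F_j`, `P` self-adjoint, put
`Φ = |z|⁴ Φ'` and `∂̄_j |z|⁴ = 2 η_j |z|⁴`:
`∫ ∑ ⟪∂̄_j Φ', F_j⟫ = - ∫ ⟪Φ', ∑ (2 conj η_j + (∂̄_j P)^* - (E_j P)^*) F_j⟫`.

`adj2`: similarly with `f = Per 1 (P Φ_j)`, `h = Per 2 (curl_{∂̄-E} (P Φ))`, `|z|⁻²` instead of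
`|z|⁻⁴`, `Φ = |z|² Φ'`, `∂̄_j |z|² = η_j |z|²`.
-/

set_option autoImplicit false

open MeasureTheory Complex Filter Topology
open scoped ContDiff ComplexConjugate

namespace Pool.Agent.HopfEmb

noncomputable section

variable {m : ℕ}

section calculus

variable {V W : Type*} [NormedAddCommGroup V] [NormedSpace ℂ V]
  [NormedAddCommGroup W] [NormedSpace ℂ W]

theorem adj_hasFDerivAt_clm {A : C3 → (V →L[ℂ] W)} {f : C3 → V} {z : C3}
    (hA : DifferentiableAt ℝ A z) (hf : DifferentiableAt ℝ f z) (v : C3) :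
    fderiv ℝ (fun y => A y (f y)) z v = (fderiv ℝ A z v) (f z) + A z (fderiv ℝ f z v) := by
  have h1 : HasFDerivAt (fun y => (ContinuousLinearMap.restrictScalarsL ℂ V W ℝ ℝ) (A y))
      ((ContinuousLinearMap.restrictScalarsL ℂ V W ℝ ℝ).comp (fderiv ℝ A z)) z :=
    (ContinuousLinearMap.restrictScalarsL ℂ V W ℝ ℝ).hasFDerivAt.comp z hA.hasFDerivAt
  have h2 := h1.clm_apply hf.hasFDerivAt
  have h3 := h2.fderiv
  have h4 : (fun y => ((ContinuousLinearMap.restrictScalarsL ℂ V W ℝ ℝ) (A y)) (f y)) =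
      fun y => A y (f y) := rfl
  rw [h4] at h3
  rw [h3]
  simp [add_comm]

theorem adj_contDiffAt_clm {n : WithTop ℕ∞} {A : C3 → (V →L[ℂ] W)} {f : C3 → V} {z : C3}
    (hA : ContDiffAt ℝ n A z) (hf : ContDiffAt ℝ n f z) :
    ContDiffAt ℝ n (fun y => A y (f y)) z := by
  have h1 : ContDiffAt ℝ n (fun y => (ContinuousLinearMap.restrictScalarsL ℂ V W ℝ ℝ) (A y)) z :=
    (ContinuousLinearMap.restrictScalarsL ℂ V W ℝ ℝ).contDiff.contDiffAt.comp z hA
  exact h1.clm_apply hf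

theorem adj_dbar_clm {A : C3 → (V →L[ℂ] W)} {f : C3 → V} {z : C3} (j : Fin 3)
    (hA : DifferentiableAt ℝ A z) (hf : DifferentiableAt ℝ f z) :
    dbar j (fun y => A y (f y)) z = (dbar j A z) (f z) + A z (dbar j f z) := by
  unfold dbar
  rw [adj_hasFDerivAt_clm hA hf, adj_hasFDerivAt_clm hA hf]
  simp only [smul_apply, add_apply, map_smul, map_add, smul_add]
  abel

theorem adj_dbar_smul {a : C3 → ℂ} {f : C3 → V} {z : C3} (j : Fin 3)
    (ha : DifferentiableAt ℝ a z) (hf : DifferentiableAt ℝ f z) :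
    dbar j (fun y => a y • f y) z = (dbar j a z) • (f z) + a z • (dbar j f z) := by
  unfold dbar
  have h : ∀ v, fderiv ℝ (fun y => a y • f y) z v =
      (fderiv ℝ a z v) • f z + a z • fderiv ℝ f z v := by
    intro v
    rw [fderiv_fun_smul ha hf]
    simp [add_comm]
  rw [h, h]
  simp only [smul_add, smul_eq_mul, add_smul, mul_smul, smul_comm (a z)]
  abel

theorem adj_contDiff_dbar {f : C3 → V} (hf : ContDiff ℝ ∞ f) (j : Fin 3) :
    ContDiff ℝ ∞ (dbar j f) := by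
  have h : ContDiff ℝ ∞ (fderiv ℝ f) := hf.fderiv_right (m := ∞) (by simp)
  unfold dbar
  have h1 : ∀ v : C3, ContDiff ℝ ∞ fun z => fderiv ℝ f z v := fun v => h.clm_apply contDiff_const
  exact contDiff_const.smul ((h1 _).add (contDiff_const.smul (h1 _)))

theorem adj_contDiff_ddel {f : C3 → V} (hf : ContDiff ℝ ∞ f) (j : Fin 3) :
    ContDiff ℝ ∞ (ddel j f) := by
  have h : ContDiff ℝ ∞ (fderiv ℝ f) := hf.fderiv_right (m := ∞) (by simp)
  unfold ddel
  have h1 : ∀ v : C3, ContDiff ℝ ∞ fun z => fderiv ℝ f z v := fun v => h.clm_apply contDiff_const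
  exact contDiff_const.smul ((h1 _).sub (contDiff_const.smul (h1 _)))

theorem adj_contDiffAt_dbar {f : C3 → V} {z : C3} (hf : ContDiffAt ℝ ∞ f z) (j : Fin 3) :
    ContDiffAt ℝ ∞ (dbar j f) z := by
  have h : ContDiffAt ℝ ∞ (fderiv ℝ f) z := hf.fderiv_right (m := ∞) (by simp)
  unfold dbar
  have h1 : ∀ v : C3, ContDiffAt ℝ ∞ (fun z => fderiv ℝ f z v) z :=
    fun v => h.clm_apply contDiffAt_const
  exact contDiffAt_const.smul ((h1 _).add (contDiffAt_const.smul (h1 _)))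

theorem adj_isTest_of {f : C3 → V} {g : C3 → W} (hf : IsTest f) (hg : ContDiff ℝ ∞ g)
    (h : ∀ z, (∀ᶠ y in 𝓝 z, f y = 0) → g z = 0) : IsTest g := by
  have hsub : tsupport g ⊆ tsupport f := by
    refine closure_minimal ?_ (isClosed_tsupport f)
    intro z hz
    by_contra hn
    exact hz (h z (notMem_tsupport_iff_eventuallyEq.1 hn))
  exact ⟨hg, hf.compact.of_isClosed_subset (isClosed_tsupport g) hsub,
    fun h0 => hf.zero_notMem (hsub h0)⟩

theorem adj_fderiv_zero {f : C3 → V} {z : C3} (h : ∀ᶠ y in 𝓝 z, f y = 0) :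
    fderiv ℝ f z = 0 := by
  have : f =ᶠ[𝓝 z] fun _ => 0 := h
  rw [this.fderiv_eq]
  simp

theorem adj_isTest_dbar {f : C3 → V} (hf : IsTest f) (j : Fin 3) : IsTest (dbar j f) := by
  refine adj_isTest_of hf (adj_contDiff_dbar hf.smooth j) ?_
  intro z hz
  simp [dbar, adj_fderiv_zero hz]

theorem adj_isTest_ddel {f : C3 → V} (hf : IsTest f) (j : Fin 3) : IsTest (ddel j f) := by
  refine adj_isTest_of hf (adj_contDiff_ddel hf.smooth j) ?_
  intro z hz
  simp [ddel, adj_fderiv_zero hz]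

/-- A function which is smooth away from `0`, applied to a test function. -/
theorem adj_isTest_clm {A : C3 → (V →L[ℂ] W)} {f : C3 → V} (hf : IsTest f)
    (hA : ∀ z : C3, z ≠ 0 → ContDiffAt ℝ ∞ A z) : IsTest (fun z => A z (f z)) := by
  refine adj_isTest_of hf ?_ ?_
  · rw [contDiff_iff_contDiffAt]
    intro z
    by_cases hz : z = 0
    · have h0 : ∀ᶠ y in 𝓝 z, f y = 0 := by
        rw [hz]
        exact notMem_tsupport_iff_eventuallyEq.1 hf.zero_notMem
      have h1 : (fun z => A z (f z)) =ᶠ[𝓝 z] fun _ => 0 := by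
        filter_upwards [h0] with y hy
        rw [hy, map_zero]
      exact contDiffAt_const.congr_of_eventuallyEq h1
    · exact adj_contDiffAt_clm (hA z hz) hf.smooth.contDiffAt
  · intro z hz
    rw [hz.self_of_nhds, map_zero]

theorem adj_isTest_smul {a : C3 → ℂ} {f : C3 → V} (hf : IsTest f)
    (ha : ∀ z : C3, z ≠ 0 → ContDiffAt ℝ ∞ a z) : IsTest (fun z => a z • f z) := by
  refine adj_isTest_of hf ?_ ?_
  · rw [contDiff_iff_contDiffAt]
    intro z
    by_cases hz : z = 0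
    · have h0 : ∀ᶠ y in 𝓝 z, f y = 0 := by
        rw [hz]
        exact notMem_tsupport_iff_eventuallyEq.1 hf.zero_notMem
      have h1 : (fun z => a z • f z) =ᶠ[𝓝 z] fun _ => 0 := by
        filter_upwards [h0] with y hy
        rw [hy, smul_zero]
      exact contDiffAt_const.congr_of_eventuallyEq h1
    · exact (ha z hz).smul hf.smooth.contDiffAt
  · intro z hz
    rw [hz.self_of_nhds, smul_zero]

theorem adj_isTest_sub {f g : C3 → V} (hf : IsTest f) (hg : IsTest g) :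
    IsTest (fun z => f z - g z) := by
  have hsub : tsupport (fun z => f z - g z) ⊆ tsupport f ∪ tsupport g := by
    refine closure_minimal ?_ ((isClosed_tsupport f).union (isClosed_tsupport g))
    intro z hz
    by_contra hn
    simp only [Set.mem_union, not_or] at hn
    apply hz
    show f z - g z = 0
    rw [image_eq_zero_of_notMem_tsupport hn.1, image_eq_zero_of_notMem_tsupport hn.2, sub_zero]
  exact ⟨hf.smooth.sub hg.smooth,
    (hf.compact.isCompact.union hg.compact.isCompact).of_isClosed_subset (isClosed_tsupport _)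
      hsub, fun h0 => (hsub h0).elim hf.zero_notMem hg.zero_notMem⟩

theorem adj_cont {A : C3 → (V →L[ℂ] V)} {Ψ : C3 → (V →L[ℂ] W)} (hΨ : IsTest Ψ)
    (hA : ∀ z : C3, z ≠ 0 → ContinuousAt A z) :
    Continuous (fun z => Ψ z ∘L A z) ∧ HasCompactSupport (fun z => Ψ z ∘L A z) ∧
      (0 : C3) ∉ tsupport (fun z => Ψ z ∘L A z) := by
  have hsub : tsupport (fun z => Ψ z ∘L A z) ⊆ tsupport Ψ := by
    refine closure_minimal ?_ (isClosed_tsupport Ψ)
    intro z hz
    by_contra hn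
    apply hz
    show Ψ z ∘L A z = 0
    rw [image_eq_zero_of_notMem_tsupport hn, ContinuousLinearMap.zero_comp]
  refine ⟨?_, hΨ.compact.of_isClosed_subset (isClosed_tsupport _) hsub,
    fun h0 => hΨ.zero_notMem (hsub h0)⟩
  rw [continuous_iff_continuousAt]
  intro z
  by_cases hz : z = 0
  · have h0 : ∀ᶠ y in 𝓝 z, Ψ y = 0 := by
      rw [hz]
      exact notMem_tsupport_iff_eventuallyEq.1 hΨ.zero_notMem
    have h1 : (fun z => Ψ z ∘L A z) =ᶠ[𝓝 z] fun _ => 0 := by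
      filter_upwards [h0] with y hy
      rw [hy, ContinuousLinearMap.zero_comp]
    exact continuousAt_const.congr h1.symm
  · exact hΨ.smooth.continuous.continuousAt.clm_comp (hA z hz)

end calculus


/-- `∂̄ u = E u + f` on the Hilbert space level. -/
def Rel0 (E : Fin 3 → C3 → (Fm m →L[ℂ] Fm m)) (u : C3 → Fm m) (f : Fin 3 → C3 → Fm m) : Prop :=
  Weak0 E (ext 0 u) (fun j => ext 1 (f j))

/-- `curl f = E × f + h` on the Hilbert space level. -/
def Rel1 (E : Fin 3 → C3 → (Fm m →L[ℂ] Fm m)) (f h : Fin 3 → C3 → Fm m) : Prop :=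
  Weak1 E (fun j => ext 1 (f j)) (fun i => ext 2 (h i))

/-- `div h = E · h` on the Hilbert space level. -/
def Rel2 (E : Fin 3 → C3 → (Fm m →L[ℂ] Fm m)) (h : Fin 3 → C3 → Fm m) : Prop :=
  Weak2 E (fun i => ext 2 (h i))

/-- The zeroth order operator in the adjoint equations. -/
def Ladj (t : ℝ) (P : C3 → (Fm m →L[ℂ] Fm m)) (E : Fin 3 → C3 → (Fm m →L[ℂ] Fm m))
    (j : Fin 3) (z : C3) : Fm m →L[ℂ] Fm m :=
  ((t : ℂ) * conj (eta j z)) • ContinuousLinearMap.id ℂ (Fm m)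
    + ContinuousLinearMap.adjoint (dbar j P z) - ContinuousLinearMap.adjoint (E j z ∘L P z)

section dual

/-- The inverse of the Riesz isomorphism as a real linear map. -/
def adjT : (Fm m →L[ℂ] ℂ) →L[ℝ] Fm m where
  toFun := fun ψ => (InnerProductSpace.toDual ℂ (Fm m)).symm ψ
  map_add' := fun a b => map_add _ a b
  map_smul' := fun r a => by
    have h : (r • a : Fm m →L[ℂ] ℂ) = (r : ℂ) • a := rfl
    rw [h, map_smulₛₗ]
    simp
  cont := (InnerProductSpace.toDual ℂ (Fm m)).symm.continuous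

theorem adjT_inner (ψ : Fm m →L[ℂ] ℂ) (v : Fm m) : inner ℂ (adjT ψ) v = ψ v :=
  InnerProductSpace.toDual_symm_apply

theorem adjT_smul (c : ℂ) (ψ : Fm m →L[ℂ] ℂ) : adjT (c • ψ) = conj c • adjT ψ :=
  map_smulₛₗ (InnerProductSpace.toDual ℂ (Fm m)).symm c ψ

theorem adjT_dbar {Ψ : C3 → (Fm m →L[ℂ] ℂ)} {z : C3} (h : DifferentiableAt ℝ Ψ z) (j : Fin 3) :
    dbar j (fun y => adjT (Ψ y)) z = adjT (ddel j Ψ z) := by
  have h1 : ∀ v, fderiv ℝ (fun y => adjT (Ψ y)) z v = adjT (fderiv ℝ Ψ z v) := by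
    intro v
    have := (adjT.hasFDerivAt.comp z h.hasFDerivAt).fderiv
    have h2 : (adjT : (Fm m →L[ℂ] ℂ) → Fm m) ∘ Ψ = fun y => adjT (Ψ y) := rfl
    rw [h2] at this
    rw [this]
    rfl
  unfold dbar ddel
  have h2 : (starRingEnd ℂ) (2 : ℂ) = 2 := Complex.conj_ofNat 2
  rw [h1, h1, adjT_smul, map_sub, adjT_smul]
  simp [h2]

theorem adjT_isTest {Ψ : C3 → (Fm m →L[ℂ] ℂ)} (h : IsTest Ψ) : IsTest (fun y => adjT (Ψ y)) := by
  refine adj_isTest_of h (adjT.contDiff.comp h.smooth) ?_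
  intro z hz
  rw [hz.self_of_nhds, map_zero]

end dual

section per

variable {G : Type*} [NormedAddCommGroup G] [NormedSpace ℂ G]

theorem adj_Per_sub {f g : C3 → G} (hf : IsTest f) (hg : IsTest g) (w : ℤ) {z : C3} (hz : z ≠ 0) :
    Per w (fun y => f y - g y) z = Per w f z - Per w g z := by
  obtain ⟨K, hK⟩ := Per_eventually hf.compact hf.zero_notMem hz
  obtain ⟨L, hL⟩ := Per_eventually hg.compact hg.zero_notMem hz
  have hK' := hK.self_of_nhds.1
  have hL' := hL.self_of_nhds.1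
  have s1 : Summable fun k : ℤ => ((2 : ℂ) ^ (w * k)) • f (((2 : ℂ) ^ k) • z) :=
    summable_of_ne_finset_zero (s := K) fun k hk => by rw [hK' k hk, smul_zero]
  have s2 : Summable fun k : ℤ => ((2 : ℂ) ^ (w * k)) • g (((2 : ℂ) ^ k) • z) :=
    summable_of_ne_finset_zero (s := L) fun k hk => by rw [hL' k hk, smul_zero]
  unfold Per
  rw [← s1.tsum_sub s2]
  simp only [smul_sub]

end per

section core

variable {P : C3 → (Fm m →L[ℂ] Fm m)} {E : Fin 3 → C3 → (Fm m →L[ℂ] Fm m)}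

/-- The function `(∂̄_j - E_j) (P Φ)`. -/
def adjD (P : C3 → (Fm m →L[ℂ] Fm m)) (E : Fin 3 → C3 → (Fm m →L[ℂ] Fm m)) (j : Fin 3)
    (Φ : C3 → Fm m) (z : C3) : Fm m :=
  dbar j (fun y => P y (Φ y)) z - E j z (P z (Φ z))

theorem adjD_isTest (hPE : PE P E) {Φ : C3 → Fm m} (hΦ : IsTest Φ) (j : Fin 3) :
    IsTest (adjD P E j Φ) := by
  have h1 : IsTest (fun y => P y (Φ y)) := adj_isTest_clm hΦ hPE.P_smooth
  exact adj_isTest_sub (adj_isTest_dbar h1 j) (adj_isTest_clm h1 (hPE.E_smooth j))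

theorem adj_idem (hPE : PE P E) {z : C3} (hz : z ≠ 0) (v : Fm m) : P z (P z v) = P z v := by
  have := congrArg (fun L : Fm m →L[ℂ] Fm m => L v) (hPE.P_idem z hz)
  simpa using this

theorem adjD_eq (hPE : PE P E) {Φ : C3 → Fm m} (hΦ : IsTest Φ) (j : Fin 3) {z : C3} (hz : z ≠ 0) :
    adjD P E j Φ z = (dbar j P z) (Φ z) + P z (dbar j Φ z) - (E j z ∘L P z) (Φ z) := by
  unfold adjD
  rw [adj_dbar_clm j ((hPE.P_smooth z hz).differentiableAt (by simp))
    (hΦ.smooth.contDiffAt.differentiableAt (by simp))]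
  rfl

theorem adjD_range (hPE : PE P E) {Φ : C3 → Fm m} (hΦ : IsTest Φ) (j : Fin 3) {z : C3}
    (hz : z ≠ 0) : P z (adjD P E j Φ z) = adjD P E j Φ z := by
  have h1 : IsTest (fun y => P y (Φ y)) := adj_isTest_clm hΦ hPE.P_smooth
  have h2 : dbar j (fun y => P y (Φ y)) z =
      (dbar j P z) (P z (Φ z)) + P z (dbar j (fun y => P y (Φ y)) z) := by
    rw [← adj_dbar_clm j ((hPE.P_smooth z hz).differentiableAt (by simp))
      (h1.smooth.contDiffAt.differentiableAt (by simp))]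
    have : (fun y => P y (Φ y)) =ᶠ[𝓝 z] fun y => P y (P y (Φ y)) := by
      filter_upwards [isOpen_ne.mem_nhds hz] with y hy
      rw [adj_idem hPE hy]
    unfold dbar
    rw [this.fderiv_eq]
  have h3 : (dbar j P z) (P z (Φ z)) = E j z (P z (Φ z)) - P z (E j z (P z (Φ z))) := by
    have := congrArg (fun L : Fm m →L[ℂ] Fm m => L (Φ z)) (hPE.compat j z hz)
    simpa using this
  unfold adjD
  rw [map_sub]
  rw [h3] at h2
  have h4 : P z (dbar j (fun y => P y (Φ y)) z) =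
      dbar j (fun y => P y (Φ y)) z - (E j z (P z (Φ z)) - P z (E j z (P z (Φ z)))) := by
    rw [eq_sub_iff_add_eq, add_comm]
    exact h2.symm
  rw [h4]
  abel

theorem adj_per_rel (hPE : PE P E) {Φ : C3 → Fm m} (hΦ : IsTest Φ) (w : ℤ) (j : Fin 3) {z : C3}
    (hz : z ≠ 0) : dbar j (Per w (fun y => P y (Φ y))) z =
      E j z (Per w (fun y => P y (Φ y)) z) + Per (w + 1) (adjD P E j Φ) z := by
  have h1 : IsTest (fun y => P y (Φ y)) := adj_isTest_clm hΦ hPE.P_smooth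
  rw [dbar_Per h1 w j hz]
  have h2 := Per_bilin (ContinuousLinearMap.id ℂ (Fm m →L[ℂ] Fm m)) h1.compact h1.zero_notMem
    w 1 (A := E j) (fun y hy => by
      rw [hPE.E_scale j y hy]
      norm_num) hz
  simp only [ContinuousLinearMap.id_apply] at h2
  rw [h2]
  have h3 : Per (w + 1) (adjD P E j Φ) z = Per (w + 1) (dbar j (fun y => P y (Φ y))) z -
      Per (w + 1) (fun y => E j y (P y (Φ y))) z :=
    adj_Per_sub (adj_isTest_dbar h1 j) (adj_isTest_clm h1 (hPE.E_smooth j)) _ hz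
  rw [h3]
  abel


/-- The test function `|z|^{2n} Φ'`. -/
def adjW (n : ℕ) (Ψ : C3 → (Fm m →L[ℂ] ℂ)) (z : C3) : Fm m :=
  (((R2 z) ^ (n : ℝ) : ℝ) : ℂ) • adjT (Ψ z)

theorem adjW_isTest (n : ℕ) {Ψ : C3 → (Fm m →L[ℂ] ℂ)} (h : IsTest Ψ) : IsTest (adjW n Ψ) :=
  adj_isTest_smul (adjT_isTest h) fun _ hz => contDiffAt_R2_rpow _ hz

theorem adj_weight {n q : ℕ} (hn : n + q = 3) {z : C3} (hz : z ≠ 0) :
    ((rr z : ℂ) ^ (2 * (q : ℤ) - 6)) * (((R2 z) ^ (n : ℝ) : ℝ) : ℂ) = 1 := by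
  have hr : 0 < rr z := rr_pos hz
  have hR : R2 z = rr z ^ 2 := by
    unfold rr
    rw [Real.sq_sqrt]
    exact Finset.sum_nonneg fun i _ => by positivity
  have hrc : (rr z : ℂ) ≠ 0 := by exact_mod_cast hr.ne'
  rw [hR, Real.rpow_natCast, ← pow_mul]
  push_cast
  rw [← zpow_natCast, ← zpow_add₀ hrc]
  have : (2 * (q : ℤ) - 6 + ((2 * n : ℕ) : ℤ)) = 0 := by
    push_cast
    omega
  rw [this, zpow_zero]

theorem adj_pointwise (hPE : PE P E) {n q : ℕ} (hn : n + q = 3) {Ψ : C3 → (Fm m →L[ℂ] ℂ)}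
    (hΨ : IsTest Ψ) (j : Fin 3) {z : C3} (hz : z ≠ 0) {F : Fm m} (hF : P z F = F) :
    ((rr z : ℂ) ^ (2 * (q : ℤ) - 6)) * inner ℂ (adjD P E j (adjW n Ψ) z) F =
      (ddel j Ψ z) F + Ψ z (Ladj n P E j z F) := by
  have hw := adj_weight hn hz
  have hΨd : DifferentiableAt ℝ Ψ z := hΨ.smooth.contDiffAt.differentiableAt (by simp)
  have hd : dbar j (adjW n Ψ) z = (((n : ℂ) * eta j z) * (((R2 z) ^ (n : ℝ) : ℝ) : ℂ)) •
      adjT (Ψ z) + (((R2 z) ^ (n : ℝ) : ℝ) : ℂ) • adjT (ddel j Ψ z) := by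
    unfold adjW
    rw [adj_dbar_smul j ((contDiffAt_R2_rpow (n : ℝ) hz).differentiableAt (by simp))
      ((adjT_isTest hΨ).smooth.contDiffAt.differentiableAt (by simp)), dbar_R2_rpow _ _ hz,
      adjT_dbar hΨd]
    simp
  set A := (((R2 z) ^ (n : ℝ) : ℝ) : ℂ) with hA
  have hAc : conj A = A := Complex.conj_ofReal _
  have hW : adjW n Ψ z = A • adjT (Ψ z) := rfl
  rw [adjD_eq hPE (adjW_isTest n hΨ) j hz, hd, hW]
  have e1 : inner ℂ ((dbar j P z) (adjT (Ψ z))) F =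
      Ψ z (ContinuousLinearMap.adjoint (dbar j P z) F) := by
    rw [← adjT_inner, ContinuousLinearMap.adjoint_inner_right]
  have e2 : inner ℂ ((E j z ∘L P z) (adjT (Ψ z))) F =
      Ψ z (ContinuousLinearMap.adjoint (E j z ∘L P z) F) := by
    rw [← adjT_inner, ContinuousLinearMap.adjoint_inner_right]
  have e3 : ∀ ψ : Fm m →L[ℂ] ℂ, inner ℂ (P z (adjT ψ)) F = ψ F := by
    intro ψ
    rw [hPE.P_symm z hz, hF, adjT_inner]
  simp only [map_smul, map_add, inner_add_left, inner_sub_left, inner_smul_left, e1, e2, e3,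
    Ladj, smul_apply, add_apply, sub_apply, map_sub, map_mul, hAc, ContinuousLinearMap.id_apply]
  have hnc : conj (n : ℂ) = (n : ℂ) := Complex.conj_natCast n
  rw [hnc]
  simp only [smul_eq_mul, Complex.ofReal_natCast]
  linear_combination ((Ψ z) ((ContinuousLinearMap.adjoint (dbar j P z)) F) +
    (n : ℂ) * conj (eta j z) * Ψ z F + (ddel j Ψ z) F -
    (Ψ z) ((ContinuousLinearMap.adjoint (E j z ∘L P z)) F)) * hw

theorem adj_R2_cont : Continuous (fun z : C3 => (R2 z : ℂ)) := by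
  refine Complex.continuous_ofReal.comp ?_
  unfold R2
  exact continuous_finsetSum _ fun i _ => (continuous_apply i).norm.pow 2

theorem adj_R2_ne {z : C3} (hz : z ≠ 0) : (R2 z : ℂ) ≠ 0 := by
  have hr : 0 < rr z := rr_pos hz
  have : R2 z ≠ 0 := by
    intro h
    unfold rr at hr
    rw [h, Real.sqrt_zero] at hr
    exact lt_irrefl _ hr
  exact_mod_cast this

theorem adj_Ladj_cont (hPE : PE P E) (t : ℝ) (j : Fin 3) {z : C3} (hz : z ≠ 0) :
    ContinuousAt (Ladj t P E j) z := by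
  have h1 : ContinuousAt (dbar j P) z :=
    (adj_contDiffAt_dbar (hPE.P_smooth z hz) j).continuousAt
  have h2 : ContinuousAt (fun z => E j z ∘L P z) z :=
    (hPE.E_smooth j z hz).continuousAt.clm_comp (hPE.P_smooth z hz).continuousAt
  have h3 : ContinuousAt (fun z => conj (eta j z)) z := by
    refine (Complex.continuous_conj.continuousAt).comp ?_
    have h4 : ContinuousAt (fun z : C3 => (R2 z : ℂ)) z := adj_R2_cont.continuousAt
    have h5 : (R2 z : ℂ) ≠ 0 := adj_R2_ne hz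
    unfold eta
    exact (continuousAt_apply j z).div h4 h5
  unfold Ladj
  refine ContinuousAt.sub (ContinuousAt.add ?_ ?_) ?_
  · exact (continuousAt_const.mul h3).smul continuousAt_const
  · exact (ContinuousLinearMap.adjoint (𝕜 := ℂ) (E := Fm m)
      (F := Fm m)).continuous.continuousAt.comp h1
  · exact (ContinuousLinearMap.adjoint (𝕜 := ℂ) (E := Fm m)
      (F := Fm m)).continuous.continuousAt.comp h2

theorem adj_int1 {q : ℕ} {Ψ : C3 → (Fm m →L[ℂ] ℂ)} (hΨ : IsTest Ψ) (j : Fin 3)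
    (w : Lp (Fm m) 2 μS) : Integrable (fun z => (ddel j Ψ z) (ext q w z)) := by
  have h := adj_isTest_ddel hΨ j
  exact (ext_pairing h.smooth.continuous h.compact h.zero_notMem q).1 w

theorem adj_int2 {q : ℕ} {Ψ : C3 → (Fm m →L[ℂ] ℂ)} (hΨ : IsTest Ψ)
    {L : C3 → (Fm m →L[ℂ] Fm m)} (hL : ∀ z : C3, z ≠ 0 → ContinuousAt L z)
    (w : Lp (Fm m) 2 μS) : Integrable (fun z => Ψ z (L z (ext q w z))) := by
  obtain ⟨h1, h2, h3⟩ := adj_cont hΨ hL
  exact (ext_pairing h1 h2 h3 q).1 w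

theorem adj_core (hPE : PE P E) {n q : ℕ} (hn : n + q = 3) {Ψ : C3 → (Fm m →L[ℂ] ℂ)}
    (hΨ : IsTest Ψ) (j : Fin 3) (v : Lp (Fm m) 2 μS)
    (hv : ext q v =ᵐ[volume] Per (q : ℤ) (adjD P E j (adjW n Ψ))) (w : HP P) :
    inner ℂ v (w : Lp (Fm m) 2 μS) = (∫ z, (ddel j Ψ z) (ext q (w : Lp (Fm m) 2 μS) z)) +
      ∫ z, Ψ z (Ladj n P E j z (ext q (w : Lp (Fm m) 2 μS) z)) := by
  have hT := adjD_isTest hPE (adjW_isTest n hΨ) j
  rw [unfold_inner (by omega) hT.smooth.continuous hT.compact hT.zero_notMem hv,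
    ← integral_add (adj_int1 hΨ j _) (adj_int2 hΨ (fun z hz => adj_Ladj_cont hPE n j hz) _)]
  refine integral_congr_ae ?_
  have hne : ∀ᵐ z : C3, z ≠ 0 := by
    have := (Set.countable_singleton (0 : C3)).ae_notMem (volume : Measure C3)
    simpa using this
  filter_upwards [hne, ext_proj hPE.P_scale w.2 q] with z hz hP
  exact adj_pointwise hPE hn hΨ j hz hP

theorem adj_weak0_congr {U U' : C3 → Fm m} {F F' : Fin 3 → C3 → Fm m}
    (hU : U =ᵐ[volume] U') (hF : ∀ j, F j =ᵐ[volume] F' j) (h : Weak0 E U' F') :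
    Weak0 E U F := by
  intro Ψ hΨ j
  have h1 : ∫ z, (dbar j Ψ z) (U z) = ∫ z, (dbar j Ψ z) (U' z) := by
    refine integral_congr_ae ?_
    filter_upwards [hU] with z h1
    rw [h1]
  have h2 : ∫ z, Ψ z (E j z (U z) + F j z) = ∫ z, Ψ z (E j z (U' z) + F' j z) := by
    refine integral_congr_ae ?_
    filter_upwards [hU, hF j] with z h1 h2
    rw [h1, h2]
  rw [h1, h2]
  exact h Ψ hΨ j

theorem adj_weak1_congr {F F' H H' : Fin 3 → C3 → Fm m}
    (hF : ∀ j, F j =ᵐ[volume] F' j) (hH : ∀ j, H j =ᵐ[volume] H' j) (h : Weak1 E F' H') :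
    Weak1 E F H := by
  intro Ψ hΨ i
  have h1 : ∫ z, ((dbar (i + 1) Ψ z) (F (i + 2) z) - (dbar (i + 2) Ψ z) (F (i + 1) z)) =
      ∫ z, ((dbar (i + 1) Ψ z) (F' (i + 2) z) - (dbar (i + 2) Ψ z) (F' (i + 1) z)) := by
    refine integral_congr_ae ?_
    filter_upwards [hF (i + 1), hF (i + 2)] with z h1 h2
    rw [h1, h2]
  have h2 : ∫ z, Ψ z (E (i + 1) z (F (i + 2) z) - E (i + 2) z (F (i + 1) z) + H i z) =
      ∫ z, Ψ z (E (i + 1) z (F' (i + 2) z) - E (i + 2) z (F' (i + 1) z) + H' i z) := by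
    refine integral_congr_ae ?_
    filter_upwards [hF (i + 1), hF (i + 2), hH i] with z h1 h2 h3
    rw [h1, h2, h3]
  rw [h1, h2]
  exact h Ψ hΨ i

theorem adj1 {P : C3 → (Fm m →L[ℂ] Fm m)} {E : Fin 3 → C3 → (Fm m →L[ℂ] Fm m)}
    (hPE : PE P E) (f : Fin 3 → HP P)
    (h : ∀ (u : HP P) (f' : Fin 3 → HP P), Rel0 E (u : Lp (Fm m) 2 μS)
      (fun j => ((f' j : Lp (Fm m) 2 μS) : C3 → Fm m)) →
      ∑ j : Fin 3, inner ℂ (f' j) (f j) = 0) :
    ∀ Ψ : C3 → (Fm m →L[ℂ] ℂ), IsTest Ψ →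
      ∫ z, ∑ j : Fin 3, (ddel j Ψ z) (ext 1 (f j : Lp (Fm m) 2 μS) z) =
        - ∫ z, Ψ z (∑ j : Fin 3, Ladj 2 P E j z (ext 1 (f j : Lp (Fm m) 2 μS) z)) := by
  intro Ψ hΨ
  have hW := adjW_isTest 2 hΨ
  have hPW : IsTest (fun y => P y (adjW 2 Ψ y)) := adj_isTest_clm hW hPE.P_smooth
  have hD := fun j => adjD_isTest hPE hW j
  obtain ⟨u, hu, huP⟩ := exists_per (q := 0) (by norm_num) hPW.smooth.continuous hPW.compact
    hPW.zero_notMem
  have hex := fun j => exists_per (q := 1) (by norm_num) (hD j).smooth.continuous (hD j).compact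
    (hD j).zero_notMem
  choose v hv hvP using hex
  have huP' : u ∈ HP P := huP P hPE.P_scale fun z hz => adj_idem hPE hz _
  have hvP' : ∀ j, v j ∈ HP P := fun j => hvP j P hPE.P_scale fun z hz => adjD_range hPE hW j hz
  have key := h ⟨u, huP'⟩ (fun j => ⟨v j, hvP' j⟩) (by
    refine adj_weak0_congr hu hv ?_
    refine weak0_of_smooth (fun z hz => Per_contDiffAt hPW.smooth hPW.compact hPW.zero_notMem _ hz)
      ?_
    intro j z hz
    exact adj_per_rel hPE hW 0 j hz)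
  have key2 : ∑ j : Fin 3, ((∫ z, (ddel j Ψ z) (ext 1 (f j : Lp (Fm m) 2 μS) z)) +
      ∫ z, Ψ z (Ladj 2 P E j z (ext 1 (f j : Lp (Fm m) 2 μS) z))) = 0 := by
    rw [← key]
    refine Finset.sum_congr rfl fun j _ => ?_
    rw [Submodule.coe_inner]
    have := adj_core hPE (n := 2) (q := 1) (by norm_num) hΨ j (v j) (hv j) (f j)
    rw [this]
    norm_num
  rw [Finset.sum_add_distrib] at key2
  have i1 : ∫ z, ∑ j : Fin 3, (ddel j Ψ z) (ext 1 (f j : Lp (Fm m) 2 μS) z) =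
      ∑ j : Fin 3, ∫ z, (ddel j Ψ z) (ext 1 (f j : Lp (Fm m) 2 μS) z) :=
    integral_finsetSum _ fun j _ => adj_int1 hΨ j _
  have i2 : ∫ z, Ψ z (∑ j : Fin 3, Ladj 2 P E j z (ext 1 (f j : Lp (Fm m) 2 μS) z)) =
      ∑ j : Fin 3, ∫ z, Ψ z (Ladj 2 P E j z (ext 1 (f j : Lp (Fm m) 2 μS) z)) := by
    rw [← integral_finsetSum _ fun j _ =>
      adj_int2 hΨ (fun z hz => adj_Ladj_cont hPE 2 j hz) _]
    simp only [map_sum]
  rw [i1, i2]
  exact eq_neg_of_add_eq_zero_left key2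

theorem adj_fin (i : Fin 3) : i + 1 + 1 = i + 2 ∧ i + 1 + 2 = i ∧ i + 2 + 1 = i ∧
    i + 2 + 2 = i + 1 ∧ i + 1 ≠ i ∧ i + 2 ≠ i ∧ i + 1 ≠ i + 2 := by
  fin_cases i <;> decide

theorem adj_sum {A : Type*} [AddCommGroup A] (a : Fin 3 → A) (i : Fin 3) :
    ∑ k, a k = a i + a (i + 1) + a (i + 2) := by
  rw [Fin.sum_univ_three]
  fin_cases i
  · rfl
  · show a 0 + a 1 + a 2 = a 1 + a 2 + a 0
    abel
  · show a 0 + a 1 + a 2 = a 2 + a 0 + a 1
    abel

theorem adj_cases (i k : Fin 3) : k = i ∨ k = i + 1 ∨ k = i + 2 := by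
  fin_cases i <;> fin_cases k <;> decide

theorem adj_ext_zero (q : ℕ) : ext q (⇑(0 : Lp (Fm m) 2 μS)) =ᵐ[volume] fun _ => 0 := by
  have := ext_smul q (0 : ℂ) (0 : Lp (Fm m) 2 μS)
  rw [smul_zero] at this
  filter_upwards [this] with z hz
  rw [hz, zero_smul]

theorem adj_ext_neg (q : ℕ) (u : Lp (Fm m) 2 μS) :
    ext q (⇑(-u)) =ᵐ[volume] fun z => - ext q u z := by
  have := ext_smul q (-1 : ℂ) u
  rw [neg_one_smul] at this
  filter_upwards [this] with z hz
  rw [hz, neg_one_smul]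

theorem adj2 {P : C3 → (Fm m →L[ℂ] Fm m)} {E : Fin 3 → C3 → (Fm m →L[ℂ] Fm m)}
    (hPE : PE P E) (v g : Fin 3 → HP P)
    (h : ∀ (f h : Fin 3 → HP P), Rel1 E (fun j => ((f j : Lp (Fm m) 2 μS) : C3 → Fm m))
      (fun j => ((h j : Lp (Fm m) 2 μS) : C3 → Fm m)) →
      ∑ i : Fin 3, inner ℂ (h i) (v i) = ∑ j : Fin 3, inner ℂ (f j) (g j)) :
    ∀ Ψ : C3 → (Fm m →L[ℂ] ℂ), IsTest Ψ → ∀ i : Fin 3,
      ∫ z, ((ddel (i + 1) Ψ z) (ext 2 (v (i + 2) : Lp (Fm m) 2 μS) z)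
          - (ddel (i + 2) Ψ z) (ext 2 (v (i + 1) : Lp (Fm m) 2 μS) z)) =
        - ∫ z, Ψ z (Ladj 1 P E (i + 1) z (ext 2 (v (i + 2) : Lp (Fm m) 2 μS) z)
          - Ladj 1 P E (i + 2) z (ext 2 (v (i + 1) : Lp (Fm m) 2 μS) z)
          + ((R2 z : ℂ))⁻¹ • ext 1 (g i : Lp (Fm m) 2 μS) z) := by
  intro Ψ hΨ i
  obtain ⟨f1, f2, f3, f4, f5, f6, f7⟩ := adj_fin i
  have hW := adjW_isTest 1 hΨ
  have hPW : IsTest (fun y => P y (adjW 1 Ψ y)) := adj_isTest_clm hW hPE.P_smooth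
  have hD := fun j => adjD_isTest hPE hW j
  obtain ⟨u, hu, huP⟩ := exists_per (q := 1) (by norm_num) hPW.smooth.continuous hPW.compact
    hPW.zero_notMem
  have hex := fun j => exists_per (q := 2) (by norm_num) (hD j).smooth.continuous (hD j).compact
    (hD j).zero_notMem
  choose d hd hdP using hex
  have huP' : u ∈ HP P := huP P hPE.P_scale fun z hz => adj_idem hPE hz _
  have hdP' : ∀ j, d j ∈ HP P := fun j => hdP j P hPE.P_scale fun z hz => adjD_range hPE hW j hz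
  let U : HP P := ⟨u, huP'⟩
  let D : Fin 3 → HP P := fun j => ⟨d j, hdP' j⟩
  let G : C3 → Fm m := Per 1 (fun y => P y (adjW 1 Ψ y))
  let K : Fin 3 → C3 → Fm m := fun j => Per 2 (adjD P E j (adjW 1 Ψ))
  have hGs : ∀ z : C3, z ≠ 0 → ContDiffAt ℝ ∞ G z := fun z hz =>
    Per_contDiffAt hPW.smooth hPW.compact hPW.zero_notMem _ hz
  have hGK : ∀ j, ∀ z : C3, z ≠ 0 → dbar j G z = E j z (G z) + K j z := fun j z hz =>
    adj_per_rel hPE hW 1 j hz
  have hd0 : ∀ j (z : C3), dbar j (fun _ : C3 => (0 : Fm m)) z = 0 := by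
    intro j z
    simp [dbar]
  have key := h (fun j => if j = i then U else 0)
    (fun k => if k = i + 1 then D (i + 2) else if k = i + 2 then -D (i + 1) else 0) (by
    refine adj_weak1_congr (F' := fun j => if j = i then G else fun _ => 0)
      (H' := fun k => if k = i + 1 then K (i + 2) else if k = i + 2 then fun z => -K (i + 1) z
        else fun _ => 0) ?_ ?_ ?_
    · intro j
      by_cases hj : j = i
      · simp only [hj, if_true]
        exact hu
      · simp only [hj, if_false]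
        exact adj_ext_zero 1
    · intro k
      by_cases hk : k = i + 1
      · simp only [hk, if_true]
        exact hd (i + 2)
      · by_cases hk2 : k = i + 2
        · simp only [hk2, if_true, if_neg f7.symm]
          refine (adj_ext_neg 2 (d (i + 1))).trans ?_
          filter_upwards [hd (i + 1)] with z hz
          rw [hz]
          rfl
        · simp only [hk, hk2, if_false]
          exact adj_ext_zero 2
    · refine weak1_of_smooth ?_ ?_
      · intro j z hz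
        by_cases hj : j = i
        · simp only [hj, if_true]
          exact hGs z hz
        · simp only [hj, if_false]
          exact contDiffAt_const
      · intro k z hz
        rcases adj_cases i k with hk | hk | hk
        · subst hk
          simp only [if_neg f5, if_neg f6, if_neg f5.symm, if_neg f6.symm, hd0, map_zero]
          simp
        · subst hk
          simp only [f1, f2, if_neg f6, if_true, hd0, map_zero]
          rw [hGK (i + 2) z hz]
          abel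
        · subst hk
          simp only [f3, f4, if_neg f5, if_neg f7.symm, if_true, hd0, map_zero]
          rw [hGK (i + 1) z hz]
          abel)
  rw [adj_sum _ i, adj_sum _ i] at key
  simp only [if_neg f5, if_neg f6, if_neg f5.symm, if_neg f6.symm, if_neg f7.symm, if_true,
    inner_zero_left, inner_neg_left, Submodule.coe_inner] at key
  have k1 := adj_core hPE (n := 1) (q := 2) (by norm_num) hΨ (i + 2) (d (i + 2)) (hd (i + 2))
    (v (i + 1))
  have k2 := adj_core hPE (n := 1) (q := 2) (by norm_num) hΨ (i + 1) (d (i + 1)) (hd (i + 1))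
    (v (i + 2))
  have k3 : inner ℂ u (g i : Lp (Fm m) 2 μS) =
      ∫ z, Ψ z (((R2 z : ℂ))⁻¹ • ext 1 (g i : Lp (Fm m) 2 μS) z) := by
    rw [unfold_inner (by norm_num) hPW.smooth.continuous hPW.compact hPW.zero_notMem hu]
    refine integral_congr_ae ?_
    have hne : ∀ᵐ z : C3, z ≠ 0 := by
      have := (Set.countable_singleton (0 : C3)).ae_notMem (volume : Measure C3)
      simpa using this
    filter_upwards [hne, ext_proj hPE.P_scale (g i).2 1] with z hz hP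
    have hr : 0 < rr z := rr_pos hz
    have hrc : (rr z : ℂ) ≠ 0 := by exact_mod_cast hr.ne'
    have hR : R2 z = rr z ^ 2 := by
      unfold rr
      rw [Real.sq_sqrt]
      exact Finset.sum_nonneg fun i _ => by positivity
    show (rr z : ℂ) ^ (2 * ((1 : ℕ) : ℤ) - 6) * inner ℂ (P z (adjW 1 Ψ z))
      (ext 1 (g i : Lp (Fm m) 2 μS) z) = _
    rw [hPE.P_symm z hz, hP]
    unfold adjW
    rw [inner_smul_left, adjT_inner, Complex.conj_ofReal, map_smul, hR]
    have hone : ((1 : ℕ) : ℝ) = 1 := by norm_num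
    rw [hone, Real.rpow_one, smul_eq_mul, ← mul_assoc]
    congr 1
    push_cast
    have h4 : ((-4 : ℤ)) = -((4 : ℕ) : ℤ) := by norm_num
    rw [h4, zpow_neg, zpow_natCast]
    field_simp
  have key' : inner ℂ (d (i + 2)) (v (i + 1) : Lp (Fm m) 2 μS) -
      inner ℂ (d (i + 1)) (v (i + 2) : Lp (Fm m) 2 μS) =
      inner ℂ u (g i : Lp (Fm m) 2 μS) := by
    simpa [sub_eq_add_neg] using key
  rw [k1, k2, k3] at key'
  have hone : (((1 : ℕ) : ℝ)) = 1 := by norm_num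
  rw [hone] at key'
  have hL : ∀ j (w : Lp (Fm m) 2 μS),
      Integrable (fun z => Ψ z (Ladj 1 P E j z (ext 2 w z))) := fun j w =>
    adj_int2 hΨ (fun z hz => adj_Ladj_cont hPE 1 j hz) w
  have hR : Integrable (fun z => Ψ z (((R2 z : ℂ))⁻¹ • ext 1 (g i : Lp (Fm m) 2 μS) z)) :=
    adj_int2 hΨ (L := fun z => ((R2 z : ℂ))⁻¹ • ContinuousLinearMap.id ℂ (Fm m))
      (fun z hz => (adj_R2_cont.continuousAt.inv₀ (adj_R2_ne hz)).smul continuousAt_const) _
  have i1 : ∫ z, ((ddel (i + 1) Ψ z) (ext 2 (v (i + 2) : Lp (Fm m) 2 μS) z)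
          - (ddel (i + 2) Ψ z) (ext 2 (v (i + 1) : Lp (Fm m) 2 μS) z)) =
      (∫ z, (ddel (i + 1) Ψ z) (ext 2 (v (i + 2) : Lp (Fm m) 2 μS) z)) -
      ∫ z, (ddel (i + 2) Ψ z) (ext 2 (v (i + 1) : Lp (Fm m) 2 μS) z) :=
    integral_sub (adj_int1 hΨ _ _) (adj_int1 hΨ _ _)
  have i2 : ∫ z, Ψ z (Ladj 1 P E (i + 1) z (ext 2 (v (i + 2) : Lp (Fm m) 2 μS) z)
          - Ladj 1 P E (i + 2) z (ext 2 (v (i + 1) : Lp (Fm m) 2 μS) z)
          + ((R2 z : ℂ))⁻¹ • ext 1 (g i : Lp (Fm m) 2 μS) z) =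
      (∫ z, Ψ z (Ladj 1 P E (i + 1) z (ext 2 (v (i + 2) : Lp (Fm m) 2 μS) z))) -
      (∫ z, Ψ z (Ladj 1 P E (i + 2) z (ext 2 (v (i + 1) : Lp (Fm m) 2 μS) z))) +
      ∫ z, Ψ z (((R2 z : ℂ))⁻¹ • ext 1 (g i : Lp (Fm m) 2 μS) z) := by
    simp only [map_add, map_sub]
    rw [← integral_sub (hL _ _) (hL _ _)]
    exact integral_add ((hL (i + 1) _).sub (hL (i + 2) _)) hR
  rw [i1, i2]
  linear_combination -key'

end core

end

end Pool.Agent.HopfEmb
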