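import Mathlib

/-!
# Basic analytic definitions on `ℂ³`

`C3 = Fin 3 → ℂ` with Lebesgue measure; `R2 z = |z|²`, `rr z = |z|` (Euclidean), the shell
`S = {1 ≤ |z| < 2}`; `dbar j = ∂/∂z̄_j`, `ddel j = ∂/∂z_j`; `eta j z = z_j / |z|²` (the `j`-th
coefficient of `∂̄ log |z|²`); test functions; weak forms of the first order systems.
-/

set_option autoImplicit false

open MeasureTheory Complex
open scoped ContDiff ComplexConjugate

namespace Pool.Agent.HopfEmb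

noncomputable section

/-- Three dimensional complex space. -/
abbrev C3 : Type := Fin 3 → ℂ

/-- The fibre space. -/
abbrev Fm (m : ℕ) : Type := EuclideanSpace ℂ (Fin m)

/-- The squared Euclidean norm. -/
def R2 (z : C3) : ℝ := ∑ i, ‖z i‖ ^ 2

/-- The Euclidean norm. -/
def rr (z : C3) : ℝ := Real.sqrt (R2 z)

/-- The fundamental shell. -/
def S : Set C3 := {z | 1 ≤ rr z ∧ rr z < 2}

/-- Lebesgue measure restricted to the shell. -/
def μS : Measure C3 := volume.restrict S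

/-- The first unit vector. -/
def e1 : C3 := Pi.single 0 1

section ops

variable {G : Type*} [NormedAddCommGroup G] [NormedSpace ℂ G]

/-- `∂f/∂z̄_j`. -/
def dbar (j : Fin 3) (f : C3 → G) (z : C3) : G :=
  (1 / 2 : ℂ) • (fderiv ℝ f z (Pi.single j 1) + I • fderiv ℝ f z (Pi.single j I))

/-- `∂f/∂z_j`. -/
def ddel (j : Fin 3) (f : C3 → G) (z : C3) : G :=
  (1 / 2 : ℂ) • (fderiv ℝ f z (Pi.single j 1) - I • fderiv ℝ f z (Pi.single j I))

/-- `η_j = z_j / |z|²`. -/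
def eta (j : Fin 3) (z : C3) : ℂ := z j / (R2 z : ℂ)

/-- Smooth functions with compact support in `ℂ³ ∖ 0`. -/
structure IsTest (f : C3 → G) : Prop where
  smooth : ContDiff ℝ ∞ f
  compact : HasCompactSupport f
  zero_notMem : (0 : C3) ∉ tsupport f

/-- Smooth functions with compact support in `ℂ³`. -/
structure IsTestC (f : C3 → G) : Prop where
  smooth : ContDiff ℝ ∞ f
  compact : HasCompactSupport f

end ops

variable {m : ℕ}

/-- The operator `∂̄_j + s η_j`. -/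
def Zop (s : ℝ) (j : Fin 3) (f : C3 → Fm m) (z : C3) : Fm m :=
  dbar j f z + ((s : ℂ) * eta j z) • f z

/-- Its formal adjoint `-∂_j + s conj η_j`. -/
def Zst (s : ℝ) (j : Fin 3) (f : C3 → Fm m) (z : C3) : Fm m :=
  -ddel j f z + ((s : ℂ) * conj (eta j z)) • f z

/-- Weak form (tests with compact support in `ℂ³ ∖ 0`) of `∂̄_j U = E_j U + F_j`. -/
def Weak0 (E : Fin 3 → C3 → (Fm m →L[ℂ] Fm m)) (U : C3 → Fm m) (F : Fin 3 → C3 → Fm m) : Prop :=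
  ∀ Ψ : C3 → (Fm m →L[ℂ] ℂ), IsTest Ψ → ∀ j : Fin 3,
    ∫ z, (dbar j Ψ z) (U z) = - ∫ z, Ψ z (E j z (U z) + F j z)

/-- Weak form of `∂̄_{i+1} F_{i+2} - ∂̄_{i+2} F_{i+1} = E_{i+1} F_{i+2} - E_{i+2} F_{i+1} + H_i`. -/
def Weak1 (E : Fin 3 → C3 → (Fm m →L[ℂ] Fm m)) (F H : Fin 3 → C3 → Fm m) : Prop :=
  ∀ Ψ : C3 → (Fm m →L[ℂ] ℂ), IsTest Ψ → ∀ i : Fin 3,
    ∫ z, ((dbar (i + 1) Ψ z) (F (i + 2) z) - (dbar (i + 2) Ψ z) (F (i + 1) z))
      = - ∫ z, Ψ z (E (i + 1) z (F (i + 2) z) - E (i + 2) z (F (i + 1) z) + H i z)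

/-- Weak form of `∑ ∂̄_i H_i = ∑ E_i H_i`. -/
def Weak2 (E : Fin 3 → C3 → (Fm m →L[ℂ] Fm m)) (H : Fin 3 → C3 → Fm m) : Prop :=
  ∀ Ψ : C3 → (Fm m →L[ℂ] ℂ), IsTest Ψ →
    ∫ z, ∑ i : Fin 3, (dbar i Ψ z) (H i z) = - ∫ z, ∑ i : Fin 3, Ψ z (E i z (H i z))

/-- A smooth, `2`-periodic family `P` of orthogonal projections on `ℂ³ ∖ 0` and a `2`-periodic
connection form `E`, such that `∂̄ - E` preserves the range of `P` and squares to zero on it. -/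
structure PE (P : C3 → (Fm m →L[ℂ] Fm m)) (E : Fin 3 → C3 → (Fm m →L[ℂ] Fm m)) : Prop where
  P_smooth : ∀ z : C3, z ≠ 0 → ContDiffAt ℝ ∞ P z
  E_smooth : ∀ j, ∀ z : C3, z ≠ 0 → ContDiffAt ℝ ∞ (E j) z
  P_idem : ∀ z : C3, z ≠ 0 → P z ∘L P z = P z
  P_symm : ∀ z : C3, z ≠ 0 → ∀ v w : Fm m, inner ℂ (P z v) w = inner ℂ v (P z w)
  P_scale : ∀ z : C3, z ≠ 0 → P ((2 : ℂ) • z) = P z
  E_scale : ∀ j, ∀ z : C3, z ≠ 0 → E j ((2 : ℂ) • z) = (1 / 2 : ℂ) • E j z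
  compat : ∀ j, ∀ z : C3, z ≠ 0 → dbar j P z ∘L P z = (1 - P z) ∘L E j z ∘L P z
  curv : ∀ j k, ∀ z : C3, z ≠ 0 →
    (dbar k (E j) z - dbar j (E k) z - E k z ∘L E j z + E j z ∘L E k z) ∘L P z = 0

/-- Local integrability away from the origin. -/
def LI (U : C3 → Fm m) : Prop := LocallyIntegrableOn U {z : C3 | z ≠ 0} volume

/-- The twist of a connection form by `s ∂̄ log |z|²`. -/
def twist (s : ℝ) (E : Fin 3 → C3 → (Fm m →L[ℂ] Fm m)) (j : Fin 3) (z : C3) : Fm m →L[ℂ] Fm m :=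
  E j z - ((s : ℂ) * eta j z) • ContinuousLinearMap.id ℂ (Fm m)

/-- Locally square integrable on `ℂ³ ∖ 0`. -/
def L2loc (U : C3 → Fm m) : Prop :=
  ∀ K : Set C3, IsCompact K → (0 : C3) ∉ K → MemLp U 2 (volume.restrict K)

/-- `L²` sections of weight `w` (`U(2z) = 2^w U(z)`) with values in the range of `P`. -/
structure PL2 (P : C3 → (Fm m →L[ℂ] Fm m)) (w : ℝ) (U : C3 → Fm m) : Prop where
  aesm : AEStronglyMeasurable U volume
  scale : ∀ᵐ z : C3, U ((2 : ℂ) • z) = (((2 : ℝ) ^ w : ℝ) : ℂ) • U z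
  proj : ∀ᵐ z : C3, P z (U z) = U z
  l2 : MemLp U 2 μS

end

end Pool.Agent.HopfEmb
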