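import Pool.Agent.Lib.MP_d404b9_ag.Data

/-!
# JOB FRAMES: the orthogonal projection and the connection form defined by smooth frames

On `V i` put `λ_i = (B_i† B_i)⁻¹ B_i†` (so `λ_i B_i = 1`), `P = B_i λ_i`, `E_j = (∂̄_j B_i) λ_i`. On
overlaps `B_k = B_i g`, `λ_k = g⁻¹ λ_i`, `∂̄_j B_k = (∂̄_j B_i) g`, so `P`, `E_j` do not depend on `i`
(define them with a choice function `z ↦ i(z)`; near a point of `V i` they are given by the formula
with the fixed `i`, which is smooth: `contDiffAt_ringInverse`, the adjoint is real linear).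
`compat`: `∂̄P P = (∂̄B λ + B ∂̄λ) Bλ`, `∂̄λ B = - λ ∂̄B`, so `∂̄P P = ∂̄B λ - B λ ∂̄B λ = (1-P) E P`.
`curv`: `∂̄_k E_j - ∂̄_j E_k = ∂̄_jB ∂̄_kλ - ∂̄_kB ∂̄_jλ`, and `∂̄_kλ B = -λ ∂̄_kB`.
-/

set_option autoImplicit false

open Complex Filter Topology
open scoped ContDiff ComplexConjugate

namespace Pool.Agent.HopfEmb

/-- The left inverse `(B† B)⁻¹ B†`. -/
private noncomputable def frames_lam {N m : ℕ} (B : Fm N →L[ℂ] Fm m) : Fm m →L[ℂ] Fm N :=
  Ring.inverse (ContinuousLinearMap.adjoint B ∘L B) ∘L ContinuousLinearMap.adjoint B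

private theorem frames_isUnit {N m : ℕ} (B : Fm N →L[ℂ] Fm m) (hB : Function.Injective B) :
    IsUnit (ContinuousLinearMap.adjoint B ∘L B) := by
  rw [ContinuousLinearMap.isUnit_iff_bijective]
  have hinj : Function.Injective (ContinuousLinearMap.adjoint B ∘L B) := by
    rw [injective_iff_map_eq_zero]
    intro v hv
    have h1 : inner ℂ (B v) (B v) = 0 := by
      rw [← ContinuousLinearMap.adjoint_inner_left]
      have : ContinuousLinearMap.adjoint B (B v) = 0 := hv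
      rw [this, inner_zero_left]
    have h2 : B v = 0 := inner_self_eq_zero.1 h1
    exact hB (by rw [h2, map_zero])
  refine ⟨hinj, ?_⟩
  exact (LinearMap.injective_iff_surjective
    (f := (ContinuousLinearMap.adjoint B ∘L B : Fm N →L[ℂ] Fm N).toLinearMap)).1 hinj

private theorem frames_lam_comp {N m : ℕ} (B : Fm N →L[ℂ] Fm m) (hB : Function.Injective B) :
    frames_lam B ∘L B = 1 := by
  have h := Ring.inverse_mul_cancel _ (frames_isUnit B hB)
  rw [frames_lam, ContinuousLinearMap.comp_assoc]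
  exact h

private theorem frames_M_lam {N m : ℕ} (B : Fm N →L[ℂ] Fm m) (hB : Function.Injective B) :
    (ContinuousLinearMap.adjoint B ∘L B) ∘L frames_lam B = ContinuousLinearMap.adjoint B := by
  have e3 : (ContinuousLinearMap.adjoint B ∘L B) ∘L
      Ring.inverse (ContinuousLinearMap.adjoint B ∘L B) = 1 :=
    Ring.mul_inverse_cancel _ (frames_isUnit B hB)
  rw [frames_lam, ← ContinuousLinearMap.comp_assoc, e3]
  rfl

private theorem frames_symm {N m : ℕ} (B : Fm N →L[ℂ] Fm m) (hB : Function.Injective B)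
    (v w : Fm m) :
    inner ℂ ((B ∘L frames_lam B) v) w = inner ℂ v ((B ∘L frames_lam B) w) := by
  have e : ∀ w, ContinuousLinearMap.adjoint B (B (frames_lam B w))
      = ContinuousLinearMap.adjoint B w := fun w =>
    congrArg (fun f : Fm m →L[ℂ] Fm N => f w) (frames_M_lam B hB)
  have k1 : inner ℂ (B (frames_lam B v)) w
      = inner ℂ (B (frames_lam B v)) (B (frames_lam B w)) := by
    rw [← ContinuousLinearMap.adjoint_inner_right, ← e w,
      ContinuousLinearMap.adjoint_inner_right]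
  have k2 : inner ℂ v (B (frames_lam B w))
      = inner ℂ (B (frames_lam B v)) (B (frames_lam B w)) := by
    rw [← ContinuousLinearMap.adjoint_inner_left, ← e v,
      ContinuousLinearMap.adjoint_inner_left]
  simp only [ContinuousLinearMap.comp_apply]
  rw [k1, k2]

private theorem frames_compat {N m : ℕ} (b d : Fm N →L[ℂ] Fm m) (l dl : Fm m →L[ℂ] Fm N)
    (e1 : l ∘L b = 1) (e2 : dl ∘L b = - (l ∘L d)) :
    (d ∘L l + b ∘L dl) ∘L (b ∘L l) = (1 - b ∘L l) ∘L (d ∘L l) ∘L (b ∘L l) := by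
  have f1 : ∀ v, l (b v) = v := fun v => congrArg (fun f : Fm N →L[ℂ] Fm N => f v) e1
  have f2 : ∀ v, dl (b v) = - (l (d v)) := fun v => congrArg (fun f : Fm N →L[ℂ] Fm N => f v) e2
  refine ContinuousLinearMap.ext fun v => ?_
  simp [f1, f2, sub_eq_add_neg]

private theorem frames_curv {N m : ℕ} (b dj dk h : Fm N →L[ℂ] Fm m) (l lj lk : Fm m →L[ℂ] Fm N)
    (e1 : l ∘L b = 1) (e2 : lj ∘L b = - (l ∘L dj)) (e3 : lk ∘L b = - (l ∘L dk)) :
    ((h ∘L l + dj ∘L lk) - (h ∘L l + dk ∘L lj) - (dk ∘L l) ∘L (dj ∘L l)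
      + (dj ∘L l) ∘L (dk ∘L l)) ∘L (b ∘L l) = 0 := by
  have f1 : ∀ v, l (b v) = v := fun v => congrArg (fun f : Fm N →L[ℂ] Fm N => f v) e1
  have f2 : ∀ v, lj (b v) = - (l (dj v)) := fun v => congrArg (fun f : Fm N →L[ℂ] Fm N => f v) e2
  have f3 : ∀ v, lk (b v) = - (l (dk v)) := fun v => congrArg (fun f : Fm N →L[ℂ] Fm N => f v) e3
  refine ContinuousLinearMap.ext fun v => ?_
  simp only [ContinuousLinearMap.comp_apply, add_apply,
    sub_apply, f1, f2, f3, map_neg, zero_apply]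
  abel

private theorem frames_lam_trans {N m : ℕ} (B : Fm N →L[ℂ] Fm m) (hB : Function.Injective B)
    (g g' : Fm N →L[ℂ] Fm N) (h1 : g ∘L g' = 1) (h2 : g' ∘L g = 1) :
    frames_lam (B ∘L g) = g' ∘L frames_lam B := by
  have hBg : Function.Injective (B ∘L g) := by
    intro v w h
    have h' : B (g v) = B (g w) := h
    have h'' := hB h'
    have e : ∀ v, g' (g v) = v := fun v => by
      have := congrArg (fun f : Fm N →L[ℂ] Fm N => f v) h2
      simpa using this
    rw [← e v, ← e w, h'']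
  have hu := frames_isUnit (B ∘L g) hBg
  have hu0 := frames_isUnit B hB
  -- `M' g' λ = (B g)†`
  have key : (ContinuousLinearMap.adjoint (B ∘L g) ∘L (B ∘L g)) ∘L (g' ∘L frames_lam B)
      = ContinuousLinearMap.adjoint (B ∘L g) := by
    have e1 : (ContinuousLinearMap.adjoint (B ∘L g) ∘L (B ∘L g)) ∘L (g' ∘L frames_lam B)
        = ContinuousLinearMap.adjoint (B ∘L g) ∘L (B ∘L ((g ∘L g') ∘L frames_lam B)) := by
      simp only [ContinuousLinearMap.comp_assoc]
    have e2 : (ContinuousLinearMap.adjoint B ∘L B) ∘L frames_lam B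
        = ContinuousLinearMap.adjoint B := by
      have := Ring.mul_inverse_cancel _ hu0
      rw [frames_lam, ← ContinuousLinearMap.comp_assoc]
      have e3 : (ContinuousLinearMap.adjoint B ∘L B) ∘L
          Ring.inverse (ContinuousLinearMap.adjoint B ∘L B) = 1 := this
      rw [e3]
      rfl
    rw [e1, h1, ContinuousLinearMap.adjoint_comp, ContinuousLinearMap.comp_assoc]
    have e4 : (1 : Fm N →L[ℂ] Fm N) ∘L frames_lam B = frames_lam B := rfl
    rw [e4, ← ContinuousLinearMap.comp_assoc (ContinuousLinearMap.adjoint B), e2]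
  have e5 : Ring.inverse (ContinuousLinearMap.adjoint (B ∘L g) ∘L (B ∘L g)) ∘L
      (ContinuousLinearMap.adjoint (B ∘L g) ∘L (B ∘L g)) = 1 := Ring.inverse_mul_cancel _ hu
  have e6 : Ring.inverse (ContinuousLinearMap.adjoint (B ∘L g) ∘L (B ∘L g)) ∘L
      ((ContinuousLinearMap.adjoint (B ∘L g) ∘L (B ∘L g)) ∘L (g' ∘L frames_lam B))
      = g' ∘L frames_lam B := by
    rw [← ContinuousLinearMap.comp_assoc, e5]
    rfl
  rw [key] at e6
  exact e6


private theorem frames_isBil (E F G : Type) [NormedAddCommGroup E] [NormedSpace ℂ E]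
    [NormedAddCommGroup F] [NormedSpace ℂ F] [NormedAddCommGroup G] [NormedSpace ℂ G] :
    IsBoundedBilinearMap ℂ (fun p : (F →L[ℂ] G) × (E →L[ℂ] F) => p.1 ∘L p.2) :=
  isBoundedBilinearMap_comp

private theorem frames_contDiff_comp {a b c : ℕ} (A : C3 → (Fm b →L[ℂ] Fm c))
    (B : C3 → (Fm a →L[ℂ] Fm b)) (z : C3) (hA : ContDiffAt ℝ ∞ A z) (hB : ContDiffAt ℝ ∞ B z) :
    ContDiffAt ℝ ∞ (fun w => A w ∘L B w) z := by
  have h1 : ContDiff ℝ ∞ (fun p : (Fm b →L[ℂ] Fm c) × (Fm a →L[ℂ] Fm b) => p.1 ∘L p.2) :=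
    (frames_isBil (Fm a) (Fm b) (Fm c)).contDiff.restrict_scalars ℝ
  exact h1.contDiffAt.comp z (hA.prodMk hB)

private theorem frames_dbar_comp {a b c : ℕ} (A : C3 → (Fm b →L[ℂ] Fm c))
    (B : C3 → (Fm a →L[ℂ] Fm b)) (z : C3) (hA : DifferentiableAt ℝ A z)
    (hB : DifferentiableAt ℝ B z) (j : Fin 3) :
    dbar j (fun w => A w ∘L B w) z = dbar j A z ∘L B z + A z ∘L dbar j B z := by
  have h1 := ((frames_isBil (Fm a) (Fm b) (Fm c)).hasFDerivAt (A z, B z)).restrictScalars ℝ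
  have h2 := h1.comp z (hA.hasFDerivAt.prodMk hB.hasFDerivAt)
  have h3 : HasFDerivAt (fun w => A w ∘L B w) _ z := h2
  have h4 := h3.fderiv
  have h5 : ∀ v : C3, fderiv ℝ (fun w => A w ∘L B w) z v
      = A z ∘L fderiv ℝ B z v + fderiv ℝ A z v ∘L B z := by
    intro v
    rw [h4]
    simp
  simp only [dbar, h5]
  ext v i
  simp
  ring

/-- The adjoint as a real linear map. -/
private noncomputable def frames_adj (a b : ℕ) :
    (Fm a →L[ℂ] Fm b) →L[ℝ] (Fm b →L[ℂ] Fm a) :=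
  LinearMap.mkContinuous
    { toFun := fun A => ContinuousLinearMap.adjoint A
      map_add' := fun A B => by simp
      map_smul' := fun r A => by
        have : (r • A : Fm a →L[ℂ] Fm b) = (r : ℂ) • A := by
          ext v i; simp
        rw [this, map_smulₛₗ]
        ext v i
        simp } 1 (fun A => by
          have : ‖ContinuousLinearMap.adjoint A‖ = ‖A‖ := LinearIsometryEquiv.norm_map _ _
          simp)

private theorem frames_adj_apply {a b : ℕ} (A : Fm a →L[ℂ] Fm b) :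
    frames_adj a b A = ContinuousLinearMap.adjoint A := rfl

private theorem frames_contDiff_adj {a b : ℕ} (A : C3 → (Fm a →L[ℂ] Fm b)) (z : C3)
    (hA : ContDiffAt ℝ ∞ A z) : ContDiffAt ℝ ∞ (fun w => ContinuousLinearMap.adjoint (A w)) z :=
  (frames_adj a b).contDiff.contDiffAt.comp z hA

private theorem frames_contDiff_lam {N m : ℕ} (B : C3 → (Fm N →L[ℂ] Fm m)) (z : C3)
    (hB : ContDiffAt ℝ ∞ B z) (hi : Function.Injective (B z)) :
    ContDiffAt ℝ ∞ (fun w => frames_lam (B w)) z := by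
  have h1 : ContDiffAt ℝ ∞ (fun w => ContinuousLinearMap.adjoint (B w) ∘L B w) z :=
    frames_contDiff_comp _ _ z (frames_contDiff_adj B z hB) hB
  obtain ⟨u, hu⟩ := frames_isUnit (B z) hi
  have h2 : ContDiffAt ℝ ∞ (Ring.inverse : (Fm N →L[ℂ] Fm N) → (Fm N →L[ℂ] Fm N))
      (ContinuousLinearMap.adjoint (B z) ∘L B z) := by
    rw [← hu]
    exact (contDiffAt_ringInverse ℂ u).restrict_scalars ℝ
  have h3 : ContDiffAt ℝ ∞
      (fun w => Ring.inverse (ContinuousLinearMap.adjoint (B w) ∘L B w)) z :=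
    ContDiffAt.comp (f := fun w => ContinuousLinearMap.adjoint (B w) ∘L B w) z h2 h1
  exact frames_contDiff_comp _ _ z h3 (frames_contDiff_adj B z hB)

private theorem frames_contDiff_dbar {a b : ℕ} (A : C3 → (Fm a →L[ℂ] Fm b)) (z : C3)
    (hA : ContDiffAt ℝ ∞ A z) (j : Fin 3) : ContDiffAt ℝ ∞ (dbar j A) z := by
  have h1 : ContDiffAt ℝ ∞ (fderiv ℝ A) z := hA.fderiv_right (m := ∞) (by simp)
  have h2 : ∀ v : C3, ContDiffAt ℝ ∞ (fun w => fderiv ℝ A w v) z := fun v =>
    h1.clm_apply contDiffAt_const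
  have h3 : ContDiffAt ℝ ∞ (fun w => (1 / 2 : ℂ) • (fderiv ℝ A w (Pi.single j 1)
      + I • fderiv ℝ A w (Pi.single j I))) z :=
    ((h2 _).add ((h2 _).const_smul I)).const_smul (1 / 2 : ℂ)
  exact h3

private theorem frames_dbar_symm {a b : ℕ} (A : C3 → (Fm a →L[ℂ] Fm b)) (z : C3)
    (hA : ContDiffAt ℝ ∞ A z) (j k : Fin 3) :
    dbar k (dbar j A) z = dbar j (dbar k A) z := by
  have h1 : ContDiffAt ℝ ∞ (fderiv ℝ A) z := hA.fderiv_right (m := ∞) (by simp)
  have hd : DifferentiableAt ℝ (fderiv ℝ A) z := h1.differentiableAt (by simp)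
  have hs : IsSymmSndFDerivAt ℝ A z := hA.isSymmSndFDerivAt (by
    rw [minSmoothness_of_isRCLikeNormedField]
    exact WithTop.coe_le_coe.2 (le_top : (2 : ℕ∞) ≤ ⊤))
  have h2 : ∀ v w : C3, fderiv ℝ (fun x => fderiv ℝ A x v) z w = fderiv ℝ (fderiv ℝ A) z w v := by
    intro v w
    rw [fderiv_clm_apply hd (differentiableAt_const v)]
    simp
  have hdv : ∀ v : C3, DifferentiableAt ℝ (fun x => fderiv ℝ A x v) z := fun v =>
    hd.clm_apply (differentiableAt_const v)
  have h3 : ∀ (j : Fin 3) (w : C3), fderiv ℝ (dbar j A) z w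
      = (1 / 2 : ℂ) • (fderiv ℝ (fderiv ℝ A) z w (Pi.single j 1)
        + I • fderiv ℝ (fderiv ℝ A) z w (Pi.single j I)) := by
    intro j w
    have e : dbar j A = fun x => (1 / 2 : ℂ) • (fderiv ℝ A x (Pi.single j 1)
        + I • fderiv ℝ A x (Pi.single j I)) := rfl
    have hv1 := (hdv (Pi.single j 1)).hasFDerivAt
    have hv2 := (hdv (Pi.single j I)).hasFDerivAt
    have h4 := ((hv1.add (hv2.const_smul I)).const_smul (1 / 2 : ℂ))
    have h5 : HasFDerivAt (dbar j A) _ z := h4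
    rw [h5.fderiv]
    simp [h2]
  have e1 : ∀ (j k : Fin 3), dbar k (dbar j A) z = (1 / 2 : ℂ) • (fderiv ℝ (dbar j A) z
      (Pi.single k 1) + I • fderiv ℝ (dbar j A) z (Pi.single k I)) := fun j k => rfl
  rw [e1, e1]
  simp only [h3]
  rw [hs.eq (Pi.single k 1) (Pi.single j 1), hs.eq (Pi.single k 1) (Pi.single j I),
    hs.eq (Pi.single k I) (Pi.single j 1), hs.eq (Pi.single k I) (Pi.single j I)]
  module

private theorem frames_dbar_congr {a b : ℕ} {A A' : C3 → (Fm a →L[ℂ] Fm b)} {z : C3}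
    (h : A =ᶠ[𝓝 z] A') (j : Fin 3) : dbar j A z = dbar j A' z := by
  simp only [dbar, h.fderiv_eq]

private theorem frames_dbar_const {a b : ℕ} (A : Fm a →L[ℂ] Fm b) (z : C3) (j : Fin 3) :
    dbar j (fun _ => A) z = 0 := by
  simp [dbar]

private theorem frames_dbar_scale {a b : ℕ} (A : C3 → (Fm a →L[ℂ] Fm b)) (z : C3)
    (hA : DifferentiableAt ℝ A ((2 : ℂ) • z))
    (h : ∀ᶠ w in 𝓝 z, A ((2 : ℂ) • w) = A w) (j : Fin 3) :
    dbar j A ((2 : ℂ) • z) = (1 / 2 : ℂ) • dbar j A z := by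
  have h1 : HasFDerivAt (fun w : C3 => (2 : ℂ) • w)
      ((2 : ℂ) • ContinuousLinearMap.id ℝ C3) z := (hasFDerivAt_id z).const_smul (2 : ℂ)
  have h2 := hA.hasFDerivAt.comp z h1
  have h3 : HasFDerivAt A ((fderiv ℝ A ((2 : ℂ) • z)) ∘L
      ((2 : ℂ) • ContinuousLinearMap.id ℝ C3)) z := by
    refine h2.congr_of_eventuallyEq ?_
    filter_upwards [h] with w hw
    exact hw.symm
  have h4 : ∀ v : C3, fderiv ℝ A z v = (2 : ℂ) • fderiv ℝ A ((2 : ℂ) • z) v := by
    intro v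
    rw [h3.fderiv]
    have : (2 : ℂ) • v = (2 : ℝ) • v := by
      ext i; simp
    simp only [ContinuousLinearMap.comp_apply, smul_apply,
      ContinuousLinearMap.id_apply]
    rw [this, map_smul]
    ext v i; simp
  simp only [dbar, h4]
  module

theorem exists_PE_of_frames {N m : ℕ} {I : Type} (V : I → Set C3) (h1 : ∀ i, IsOpen (V i))
    (h2 : ∀ i, (0 : C3) ∉ V i) (h3 : ∀ z : C3, z ≠ 0 → ∃ i, z ∈ V i)
    (h4 : ∀ i, ∀ z : C3, (2 : ℂ) • z ∈ V i ↔ z ∈ V i)
    (g : I → I → C3 → (Fm N →L[ℂ] Fm N))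
    (g_smooth : ∀ i k, ∀ z ∈ V i ∩ V k, ContDiffAt ℝ ∞ (g i k) z)
    (g_hol : ∀ i k j, ∀ z ∈ V i ∩ V k, dbar j (g i k) z = 0)
    (g_inv : ∀ i k, ∀ z ∈ V i ∩ V k, g i k z ∘L g k i z = ContinuousLinearMap.id ℂ (Fm N))
    (B : I → C3 → (Fm N →L[ℂ] Fm m))
    (B_smooth : ∀ i, ∀ z ∈ V i, ContDiffAt ℝ ∞ (B i) z)
    (B_inj : ∀ i, ∀ z ∈ V i, Function.Injective (B i z))
    (B_scale : ∀ i, ∀ z ∈ V i, B i ((2 : ℂ) • z) = B i z)
    (B_trans : ∀ i k, ∀ z ∈ V i ∩ V k, B k z = B i z ∘L g i k z) :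
    ∃ (P : C3 → (Fm m →L[ℂ] Fm m)) (E : Fin 3 → C3 → (Fm m →L[ℂ] Fm m)),
      PE P E ∧ (∀ i, ∀ z ∈ V i, P z ∘L B i z = B i z) ∧
      (∀ i j, ∀ z ∈ V i, E j z ∘L B i z = dbar j (B i) z) := by
  classical
  -- nonzero points and the choice of a chart
  have hne : ∀ i, ∀ z ∈ V i, z ≠ 0 := fun i z hz h0 => h2 i (h0 ▸ hz)
  obtain hI | hI := isEmpty_or_nonempty I
  · exfalso
    obtain ⟨i, _⟩ := h3 e1 (by
      intro h
      have := congrFun h 0
      simp [e1] at this)
    exact hI.false i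
  have hc : ∀ z : C3, ∃ i : I, z ≠ 0 → z ∈ V i := by
    intro z
    by_cases hz : z = 0
    · exact ⟨Classical.arbitrary I, fun h => absurd hz h⟩
    · obtain ⟨i, hi⟩ := h3 z hz
      exact ⟨i, fun _ => hi⟩
  choose c hc using hc
  set P : C3 → (Fm m →L[ℂ] Fm m) := fun z => B (c z) z ∘L frames_lam (B (c z) z) with hP
  set E : Fin 3 → C3 → (Fm m →L[ℂ] Fm m) :=
    fun j z => dbar j (B (c z)) z ∘L frames_lam (B (c z) z) with hE
  have hlam : ∀ i, ∀ z ∈ V i, frames_lam (B i z) ∘L B i z = 1 := fun i z hz =>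
    frames_lam_comp _ (B_inj i z hz)
  -- transition of `lam`
  have htr : ∀ i k, ∀ z ∈ V i, z ∈ V k →
      frames_lam (B k z) = g k i z ∘L frames_lam (B i z) := by
    intro i k z hi hk
    rw [B_trans i k z ⟨hi, hk⟩]
    exact frames_lam_trans _ (B_inj i z hi) _ _ (g_inv i k z ⟨hi, hk⟩) (g_inv k i z ⟨hk, hi⟩)
  have hdB : ∀ i k j, ∀ z ∈ V i, z ∈ V k →
      dbar j (B k) z = dbar j (B i) z ∘L g i k z := by
    intro i k j z hi hk
    have hev : B k =ᶠ[𝓝 z] fun w => B i w ∘L g i k w := by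
      filter_upwards [((h1 i).inter (h1 k)).mem_nhds ⟨hi, hk⟩] with w hw
      exact B_trans i k w hw
    rw [frames_dbar_congr hev, frames_dbar_comp _ _ _
      ((B_smooth i z hi).differentiableAt (by simp))
      ((g_smooth i k z ⟨hi, hk⟩).differentiableAt (by simp)), g_hol i k j z ⟨hi, hk⟩]
    simp
  have hPi : ∀ i, ∀ z ∈ V i, P z = B i z ∘L frames_lam (B i z) := by
    intro i z hz
    have hcz := hc z (hne i z hz)
    show B (c z) z ∘L frames_lam (B (c z) z) = _
    rw [htr i (c z) z hz hcz, B_trans i (c z) z ⟨hz, hcz⟩, ContinuousLinearMap.comp_assoc,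
      ← ContinuousLinearMap.comp_assoc (g i (c z) z), g_inv i (c z) z ⟨hz, hcz⟩]
    rfl
  have hEi : ∀ i j, ∀ z ∈ V i, E j z = dbar j (B i) z ∘L frames_lam (B i z) := by
    intro i j z hz
    have hcz := hc z (hne i z hz)
    show dbar j (B (c z)) z ∘L frames_lam (B (c z) z) = _
    rw [htr i (c z) z hz hcz, hdB i (c z) j z hz hcz, ContinuousLinearMap.comp_assoc,
      ← ContinuousLinearMap.comp_assoc (g i (c z) z), g_inv i (c z) z ⟨hz, hcz⟩]
    rfl
  have hPev : ∀ i, ∀ z ∈ V i, P =ᶠ[𝓝 z] fun w => B i w ∘L frames_lam (B i w) := by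
    intro i z hz
    filter_upwards [(h1 i).mem_nhds hz] with w hw
    exact hPi i w hw
  have hEev : ∀ i j, ∀ z ∈ V i, E j =ᶠ[𝓝 z] fun w => dbar j (B i) w ∘L frames_lam (B i w) := by
    intro i j z hz
    filter_upwards [(h1 i).mem_nhds hz] with w hw
    exact hEi i j w hw
  have hlamS : ∀ i, ∀ z ∈ V i, ContDiffAt ℝ ∞ (fun w => frames_lam (B i w)) z := fun i z hz =>
    frames_contDiff_lam _ _ (B_smooth i z hz) (B_inj i z hz)
  have hdBS : ∀ i j, ∀ z ∈ V i, ContDiffAt ℝ ∞ (dbar j (B i)) z := fun i j z hz =>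
    frames_contDiff_dbar _ _ (B_smooth i z hz) j
  -- `∂̄λ B = - λ ∂̄B`
  have hdl : ∀ i j, ∀ z ∈ V i, dbar j (fun w => frames_lam (B i w)) z ∘L B i z
      = - (frames_lam (B i z) ∘L dbar j (B i) z) := by
    intro i j z hz
    have hev : (fun w => frames_lam (B i w) ∘L B i w) =ᶠ[𝓝 z] fun _ => (1 : Fm N →L[ℂ] Fm N) := by
      filter_upwards [(h1 i).mem_nhds hz] with w hw
      exact hlam i w hw
    have e := frames_dbar_congr hev j
    rw [frames_dbar_const, frames_dbar_comp _ _ _ ((hlamS i z hz).differentiableAt (by simp))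
      ((B_smooth i z hz).differentiableAt (by simp))] at e
    exact eq_neg_of_add_eq_zero_left e
  refine ⟨P, E, ⟨?_, ?_, ?_, ?_, ?_, ?_, ?_, ?_⟩, ?_, ?_⟩
  · intro z hz
    obtain ⟨i, hi⟩ := h3 z hz
    exact (frames_contDiff_comp _ _ z (B_smooth i z hi) (hlamS i z hi)).congr_of_eventuallyEq
      (hPev i z hi)
  · intro j z hz
    obtain ⟨i, hi⟩ := h3 z hz
    exact (frames_contDiff_comp _ _ z (hdBS i j z hi) (hlamS i z hi)).congr_of_eventuallyEq
      (hEev i j z hi)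
  · intro z hz
    obtain ⟨i, hi⟩ := h3 z hz
    rw [hPi i z hi, ContinuousLinearMap.comp_assoc, ← ContinuousLinearMap.comp_assoc _ (B i z),
      hlam i z hi]
    rfl
  · intro z hz v w
    obtain ⟨i, hi⟩ := h3 z hz
    rw [hPi i z hi]
    exact frames_symm _ (B_inj i z hi) v w
  · intro z hz
    obtain ⟨i, hi⟩ := h3 z hz
    rw [hPi i z hi, hPi i _ ((h4 i z).2 hi), B_scale i z hi]
  · intro j z hz
    obtain ⟨i, hi⟩ := h3 z hz
    have hi2 := (h4 i z).2 hi
    rw [hEi i j z hi, hEi i j _ hi2, B_scale i z hi, frames_dbar_scale (B i) z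
      ((B_smooth i _ hi2).differentiableAt (by simp)) (by
        filter_upwards [(h1 i).mem_nhds hi] with w hw
        exact B_scale i w hw)]
    ext v i
    simp
  · intro j z hz
    obtain ⟨i, hi⟩ := h3 z hz
    rw [frames_dbar_congr (hPev i z hi), hPi i z hi, hEi i j z hi,
      frames_dbar_comp _ _ _ ((B_smooth i z hi).differentiableAt (by simp))
        ((hlamS i z hi).differentiableAt (by simp))]
    exact frames_compat _ _ _ _ (hlam i z hi) (hdl i j z hi)
  · intro j k z hz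
    obtain ⟨i, hi⟩ := h3 z hz
    rw [frames_dbar_congr (hEev i j z hi) k, frames_dbar_congr (hEev i k z hi) j, hPi i z hi,
      hEi i j z hi, hEi i k z hi,
      frames_dbar_comp _ _ _ ((hdBS i j z hi).differentiableAt (by simp))
        ((hlamS i z hi).differentiableAt (by simp)),
      frames_dbar_comp _ _ _ ((hdBS i k z hi).differentiableAt (by simp))
        ((hlamS i z hi).differentiableAt (by simp)),
      frames_dbar_symm (B i) z (B_smooth i z hi) j k]
    exact frames_curv _ _ _ _ _ _ _ (hlam i z hi) (hdl i j z hi) (hdl i k z hi)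
  · intro i z hz
    rw [hPi i z hz, ContinuousLinearMap.comp_assoc, hlam i z hz]
    rfl
  · intro i j z hz
    rw [hEi i j z hz, ContinuousLinearMap.comp_assoc, hlam i z hz]
    rfl

end Pool.Agent.HopfEmb
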