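import Pool.Agent.Lib.MP_d404b9_ag.Unity
import Pool.Agent.Lib.MP_d404b9_ag.Frames

/-!
# From cocycle data to projection data

With `κ` from `exists_unity`, `m = card (I × Fin N)` and (via `Fintype.equivFin`)
`B_i(z) v = (κ_l(z) (g_{li}(z) v)_n)_{(l,n)}` on `V i`. Near a point `z ∈ V i ∖ V l` the function `κ_l`
vanishes; near a point of `V i ∩ V l` the entry is smooth. `B_i` is injective since `κ_l(z) ≠ 0` for
some `l` (then `z ∈ V l`) and `g_{li}(z)` is invertible. Sections: `σ = B_i s_i` on `V i`,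
`A = B_{i₀} a`, etc.; `∂̄_j (B_i s_i) = (∂̄_j B_i) s_i` because `s_i` is holomorphic
(`AnalyticAt` gives `fderiv ℝ = (fderiv ℂ).restrictScalars ℝ`, hence `dbar j s_i = 0`).
-/

set_option autoImplicit false

open Complex Filter Topology
open scoped ContDiff ComplexConjugate

namespace Pool.Agent.HopfEmb

/-- Holomorphic maps are killed by `∂̄`. -/
theorem dbar_of_analyticAt {G : Type*} [NormedAddCommGroup G] [NormedSpace ℂ G] {f : C3 → G}
    {z : C3} (hf : AnalyticAt ℂ f z) (j : Fin 3) : dbar j f z = 0 := by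
  have h1 : HasFDerivAt f (fderiv ℂ f z) z := hf.differentiableAt.hasFDerivAt
  have h2 : fderiv ℝ f z = (fderiv ℂ f z).restrictScalars ℝ :=
    (h1.restrictScalars ℝ).fderiv
  unfold dbar
  rw [h2]
  have h3 : (Pi.single j I : C3) = I • (Pi.single j 1 : C3) := by
    funext k
    by_cases hk : k = j
    · subst hk; simp
    · simp [Pi.single_eq_of_ne hk]
  rw [h3]
  simp only [ContinuousLinearMap.coe_restrictScalars', map_smul, smul_smul, I_mul_I]
  simp

noncomputable section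

variable {N m : ℕ}

/-- Evaluation as a real bilinear map. -/
def Bundle_ev (N m : ℕ) : (Fm N →L[ℂ] Fm m) →L[ℝ] (Fm N →L[ℝ] Fm m) :=
  ContinuousLinearMap.restrictScalarsL ℂ (Fm N) (Fm m) ℝ ℝ

theorem Bundle_contDiffAt_apply {B : C3 → (Fm N →L[ℂ] Fm m)} {s : C3 → Fm N} {z : C3}
    (hB : ContDiffAt ℝ ∞ B z) (hs : ContDiffAt ℝ ∞ s z) :
    ContDiffAt ℝ ∞ (fun y => B y (s y)) z := by
  have h1 : ContDiffAt ℝ ∞ (fun y => Bundle_ev N m (B y)) z :=
    (Bundle_ev N m).contDiff.contDiffAt.comp z hB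
  exact h1.clm_apply hs

theorem Bundle_dbar_apply {B : C3 → (Fm N →L[ℂ] Fm m)} {s : C3 → Fm N} {z : C3}
    (hB : ContDiffAt ℝ ∞ B z) (hs : ContDiffAt ℝ ∞ s z) (j : Fin 3) :
    dbar j (fun y => B y (s y)) z = dbar j B z (s z) + B z (dbar j s z) := by
  have hB' : HasFDerivAt B (fderiv ℝ B z) z := (hB.differentiableAt (by simp)).hasFDerivAt
  have hs' : HasFDerivAt s (fderiv ℝ s z) z := (hs.differentiableAt (by simp)).hasFDerivAt
  have h1 : HasFDerivAt (fun y => Bundle_ev N m (B y)) ((Bundle_ev N m) ∘L (fderiv ℝ B z)) z :=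
    (Bundle_ev N m).hasFDerivAt.comp z hB'
  have h2 := h1.clm_apply hs'
  have h3 : (fun y => (Bundle_ev N m (B y)) (s y)) = fun y => B y (s y) := rfl
  rw [h3] at h2
  unfold dbar
  rw [h2.fderiv]
  simp only [add_apply, ContinuousLinearMap.comp_apply,
    ContinuousLinearMap.flip_apply, smul_apply, map_smul, map_add]
  have e1 : ∀ v : Fm N, Bundle_ev N m (B z) v = B z v := fun v => rfl
  have e2 : ∀ (w : C3) (v : Fm N), Bundle_ev N m (fderiv ℝ B z w) v = (fderiv ℝ B z w) v :=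
    fun w v => rfl
  simp only [e1, e2]
  module

section blocks

variable {I : Type} [Fintype I] [DecidableEq I]

/-- The inclusion of the `l`-th block. -/
def Bundle_inc (e : I × Fin N ≃ Fin m) (l : I) : Fm N →L[ℂ] Fm m :=
  LinearMap.toContinuousLinearMap
    { toFun := fun v => WithLp.toLp 2 (fun x => if (e.symm x).1 = l then v (e.symm x).2 else 0)
      map_add' := fun v w => by
        ext x
        simp only [PiLp.add_apply]
        split_ifs <;> simp
      map_smul' := fun c v => by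
        ext x
        simp only [PiLp.smul_apply, RingHom.id_apply]
        split_ifs <;> simp }

/-- The projection to the `l`-th block. -/
def Bundle_prj (e : I × Fin N ≃ Fin m) (l : I) : Fm m →L[ℂ] Fm N :=
  LinearMap.toContinuousLinearMap
    { toFun := fun w => WithLp.toLp 2 (fun n => w (e (l, n)))
      map_add' := fun v w => by
        ext x
        simp
      map_smul' := fun c v => by
        ext x
        simp }

omit [Fintype I] in
theorem Bundle_prj_inc (e : I × Fin N ≃ Fin m) (l k : I) (v : Fm N) :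
    Bundle_prj e l (Bundle_inc e k v) = if l = k then v else 0 := by
  ext n
  simp only [Bundle_prj, Bundle_inc, LinearMap.coe_toContinuousLinearMap', LinearMap.coe_mk,
    AddHom.coe_mk, Equiv.symm_apply_apply]
  split_ifs <;> simp

variable (D : HopfData N I) (κ : I → C3 → ℝ) (e : I × Fin N ≃ Fin m)

/-- The frame on `V i`. -/
def Bundle_B (i : I) (z : C3) : Fm N →L[ℂ] Fm m :=
  ∑ l, κ l z • (Bundle_inc e l ∘L D.g l i z)

omit [Fintype I] [DecidableEq I] in
theorem Bundle_zero_smul (T : Fm N →L[ℂ] Fm m) : (0 : ℝ) • T = 0 := by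
  ext v i
  rw [smul_apply]
  simp

theorem Bundle_prj_B (i l : I) (z : C3) (v : Fm N) :
    Bundle_prj e l (Bundle_B D κ e i z v) = κ l z • D.g l i z v := by
  unfold Bundle_B
  simp only [sum_apply, map_sum, smul_apply,
    ContinuousLinearMap.comp_apply]
  have h : ∀ k, Bundle_prj e l (κ k z • Bundle_inc e k (D.g k i z v)) =
      if l = k then κ k z • D.g k i z v else 0 := by
    intro k
    have : κ k z • Bundle_inc e k (D.g k i z v) =
        ((κ k z : ℝ) : ℂ) • Bundle_inc e k (D.g k i z v) := rfl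
    rw [this, map_smul, Bundle_prj_inc]
    split_ifs
    · rfl
    · simp
  simp only [h]
  simp

end blocks

theorem exists_PE_of_hopfData {N : ℕ} {I : Type} [Fintype I] (D : HopfData N I) :
    ∃ (m : ℕ) (P : C3 → (Fm m →L[ℂ] Fm m)) (E : Fin 3 → C3 → (Fm m →L[ℂ] Fm m)),
      PE P E ∧ Nonempty (SecData P E) := by
  classical
  obtain ⟨κ, κ_smooth, κ_scale, κ_zero, κ_sum⟩ :=
    exists_unity D.V D.V_open D.V_zero D.V_cover D.V_scale
  let e : I × Fin N ≃ Fin (Fintype.card (I × Fin N)) := Fintype.equivFin _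
  let B := Bundle_B D κ e
  have hne : ∀ i, ∀ z ∈ D.V i, z ≠ 0 := fun i z hz h => D.V_zero i (h ▸ hz)
  have hκ0 : ∀ l, ∀ z : C3, z ≠ 0 → z ∉ D.V l → κ l z = 0 := fun l z hz hl =>
    (κ_zero l z hz hl).self_of_nhds
  have g_smooth : ∀ i k, ∀ z ∈ D.V i ∩ D.V k, ContDiffAt ℝ ∞ (D.g i k) z := fun i k z hz =>
    ((D.g_an i k z hz).contDiffAt (n := ∞)).restrict_scalars ℝ
  have g_inv : ∀ i k, ∀ z ∈ D.V i ∩ D.V k,
      D.g i k z ∘L D.g k i z = ContinuousLinearMap.id ℂ (Fm N) := fun i k z hz => by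
    rw [D.g_mul i k i z ⟨hz, hz.1⟩, D.g_self i z hz.1]
  have B_smooth : ∀ i, ∀ z ∈ D.V i, ContDiffAt ℝ ∞ (B i) z := by
    intro i z hz
    have hz0 := hne i z hz
    apply ContDiffAt.sum
    intro l _
    by_cases hl : z ∈ D.V l
    · refine (κ_smooth l z hz0).smul ?_
      let T : (Fm N →L[ℂ] Fm N) →L[ℂ] (Fm N →L[ℂ] Fm (Fintype.card (I × Fin N))) :=
        ContinuousLinearMap.compL ℂ (Fm N) (Fm N) (Fm (Fintype.card (I × Fin N)))
          (Bundle_inc e l)
      have hT : ContDiff ℝ ∞ T := (T.restrictScalars ℝ).contDiff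
      exact hT.contDiffAt.comp z (g_smooth l i z ⟨hl, hz⟩)
    · have : (fun y => κ l y • (Bundle_inc e l ∘L D.g l i y)) =ᶠ[𝓝 z] fun _ => 0 := by
        filter_upwards [κ_zero l z hz0 hl] with y hy
        rw [hy]
        exact Bundle_zero_smul _
      exact contDiffAt_const.congr_of_eventuallyEq this
  have B_inj : ∀ i, ∀ z ∈ D.V i, Function.Injective (B i z) := by
    intro i z hz
    have hz0 := hne i z hz
    rw [injective_iff_map_eq_zero]
    intro v hv
    have h1 : ∃ l, κ l z ≠ 0 := by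
      by_contra h
      push Not at h
      have := κ_sum z hz0
      simp [h] at this
    obtain ⟨l, hl⟩ := h1
    have hl' : z ∈ D.V l := by
      by_contra h
      exact hl (hκ0 l z hz0 h)
    have h2 := Bundle_prj_B D κ e i l z v
    have h3 : Bundle_B D κ e i z v = 0 := hv
    rw [h3, map_zero] at h2
    have h4 : D.g l i z v = 0 := (smul_eq_zero.1 h2.symm).resolve_left hl
    have h5 : v = (D.g i l z ∘L D.g l i z) v := by
      rw [g_inv i l z ⟨hz, hl'⟩]
      rfl
    rw [h5, ContinuousLinearMap.comp_apply, h4, map_zero]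
  have B_scale : ∀ i, ∀ z ∈ D.V i, B i ((2 : ℂ) • z) = B i z := by
    intro i z hz
    have hz0 := hne i z hz
    show Bundle_B D κ e i ((2 : ℂ) • z) = Bundle_B D κ e i z
    unfold Bundle_B
    apply Finset.sum_congr rfl
    intro l _
    rw [κ_scale l z hz0]
    by_cases hl : z ∈ D.V l
    · rw [D.g_scale l i z ⟨hl, hz⟩]
    · rw [hκ0 l z hz0 hl]
      exact (Bundle_zero_smul _).trans (Bundle_zero_smul _).symm
  have B_trans : ∀ i k, ∀ z ∈ D.V i ∩ D.V k, B k z = B i z ∘L D.g i k z := by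
    intro i k z hz
    have hz0 := hne i z hz.1
    show Bundle_B D κ e k z = Bundle_B D κ e i z ∘L D.g i k z
    unfold Bundle_B
    rw [ContinuousLinearMap.finsetSum_comp]
    apply Finset.sum_congr rfl
    intro l _
    by_cases hl : z ∈ D.V l
    · rw [ContinuousLinearMap.smul_comp, ContinuousLinearMap.comp_assoc,
        D.g_mul l i k z ⟨⟨hl, hz.1⟩, hz.2⟩]
    · rw [hκ0 l z hz0 hl]
      have h1 : ((0 : ℝ) • (Bundle_inc e l ∘L D.g l i z)) = 0 := Bundle_zero_smul _
      have h2 : ((0 : ℝ) • (Bundle_inc e l ∘L D.g l k z)) = 0 := Bundle_zero_smul _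
      rw [h1, h2, ContinuousLinearMap.zero_comp]
  obtain ⟨P, E, hPE, hPB, hEB⟩ := exists_PE_of_frames D.V D.V_open D.V_zero D.V_cover D.V_scale
    D.g g_smooth (fun i k j z hz => dbar_of_analyticAt (D.g_an i k z hz) j) g_inv B B_smooth B_inj
    B_scale B_trans
  refine ⟨Fintype.card (I × Fin N), P, E, hPE, ?_⟩
  -- sections of the form `B i s`
  have key : ∀ (i : I) (s : C3 → Fm N) (z : C3), z ∈ D.V i → AnalyticAt ℂ s z →
      ContDiffAt ℝ ∞ (fun y => B i y (s y)) z ∧ P z (B i z (s z)) = B i z (s z) ∧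
      ∀ j, dbar j (fun y => B i y (s y)) z = E j z (B i z (s z)) := by
    intro i s z hz hs
    have hs' : ContDiffAt ℝ ∞ s z := (hs.contDiffAt (n := ∞)).restrict_scalars ℝ
    refine ⟨Bundle_contDiffAt_apply (B_smooth i z hz) hs', ?_, fun j => ?_⟩
    · rw [← ContinuousLinearMap.comp_apply, hPB i z hz]
    · rw [Bundle_dbar_apply (B_smooth i z hz) hs' j, dbar_of_analyticAt hs j, map_zero, add_zero,
        ← ContinuousLinearMap.comp_apply (E j z), hEB i j z hz]
  let ι : C3 → I := fun z => if h : z ≠ 0 then (D.V_cover z h).choose else D.i₀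
  have hι : ∀ z : C3, z ≠ 0 → z ∈ D.V (ι z) := by
    intro z hz
    have : ι z = (D.V_cover z hz).choose := by
      simp only [ι]
      rw [dif_pos hz]
    rw [this]
    exact (D.V_cover z hz).choose_spec
  let σ : C3 → Fm (Fintype.card (I × Fin N)) := fun z => B (ι z) z (D.s (ι z) z)
  have hσ : ∀ i, ∀ z ∈ D.V i, σ z = B i z (D.s i z) := by
    intro i z hz
    have h1 := hι z (hne i z hz)
    show B (ι z) z (D.s (ι z) z) = B i z (D.s i z)
    rw [B_trans i (ι z) z ⟨hz, h1⟩, ContinuousLinearMap.comp_apply, ← D.s_trans i (ι z) z ⟨hz, h1⟩]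
  have hσe : ∀ i, ∀ z ∈ D.V i, σ =ᶠ[𝓝 z] fun y => B i y (D.s i y) := by
    intro i z hz
    filter_upwards [(D.V_open i).mem_nhds hz] with y hy
    exact hσ i y hy
  have dbar_congr : ∀ (j : Fin 3) (f g : C3 → Fm (Fintype.card (I × Fin N))) (z : C3),
      f =ᶠ[𝓝 z] g → dbar j f z = dbar j g z := by
    intro j f g z h
    unfold dbar
    rw [h.fderiv_eq]
  obtain ⟨ε, ε_pos, hε⟩ : ∃ ε : ℝ, 0 < ε ∧ ∀ z ∈ Metric.ball e1 ε, z ∈ D.V D.i₀ ∧
      AnalyticAt ℂ D.a z ∧ AnalyticAt ℂ D.b z ∧ AnalyticAt ℂ D.c z ∧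
      D.s D.i₀ z = (z 0 - 1) • D.a z + z 1 • D.b z + z 2 • D.c z := by
    have h : ∀ᶠ z in 𝓝 e1, z ∈ D.V D.i₀ := (D.V_open D.i₀).mem_nhds D.mem₀
    have h2 := h.and ((D.a_an.eventually_analyticAt).and ((D.b_an.eventually_analyticAt).and
      ((D.c_an.eventually_analyticAt).and D.s_eq)))
    rw [Metric.eventually_nhds_iff_ball] at h2
    obtain ⟨ε, h3, h4⟩ := h2
    exact ⟨ε, h3, h4⟩
  refine ⟨SecData.mk σ (fun z => B D.i₀ z (D.a z)) (fun z => B D.i₀ z (D.b z))
    (fun z => B D.i₀ z (D.c z)) ε ε_pos ?_ ?_ ?_ ?_ ?_ ?_ ?_⟩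
  · refine ⟨fun z hz => ?_, fun z hz => ?_, fun j z hz => ?_⟩
    · have h1 := hι z hz
      exact (key _ _ z h1 (D.s_an _ z h1)).1.congr_of_eventuallyEq (hσe _ z h1)
    · have h1 := hι z hz
      exact (key _ _ z h1 (D.s_an _ z h1)).2.1
    · have h1 := hι z hz
      rw [dbar_congr j _ _ z (hσe _ z h1), (key _ _ z h1 (D.s_an _ z h1)).2.2 j]
  · intro z hz
    have h1 := hι z hz
    rw [hσ (ι z) _ ((D.V_scale _ z).2 h1), hσ (ι z) z h1, B_scale _ z h1, D.s_scale _ z h1]
  · exact ⟨fun z hz => (key _ _ z (hε z hz).1 (hε z hz).2.1).1,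
      fun z hz => (key _ _ z (hε z hz).1 (hε z hz).2.1).2.1,
      fun j z hz => (key _ _ z (hε z hz).1 (hε z hz).2.1).2.2 j⟩
  · exact ⟨fun z hz => (key _ _ z (hε z hz).1 (hε z hz).2.2.1).1,
      fun z hz => (key _ _ z (hε z hz).1 (hε z hz).2.2.1).2.1,
      fun j z hz => (key _ _ z (hε z hz).1 (hε z hz).2.2.1).2.2 j⟩
  · exact ⟨fun z hz => (key _ _ z (hε z hz).1 (hε z hz).2.2.2.1).1,
      fun z hz => (key _ _ z (hε z hz).1 (hε z hz).2.2.2.1).2.1,
      fun j z hz => (key _ _ z (hε z hz).1 (hε z hz).2.2.2.1).2.2 j⟩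
  · intro z hz
    rw [hσ D.i₀ z (hε z hz).1, (hε z hz).2.2.2.2]
    simp only [map_add, map_smul]
  · have h1 : Tendsto (fun t : ℂ => t • e1) (𝓝[≠] (1 : ℂ)) (𝓝 e1) := by
      have : Tendsto (fun t : ℂ => t • e1) (𝓝 (1 : ℂ)) (𝓝 ((1 : ℂ) • e1)) :=
        (continuous_id.smul continuous_const).tendsto _
      rw [one_smul] at this
      exact this.mono_left nhdsWithin_le_nhds
    have h2 := h1.eventually ((D.V_open D.i₀).mem_nhds D.mem₀)
    filter_upwards [D.s_ne, h2] with t h3 h4 h5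
    rw [hσ D.i₀ _ h4] at h5
    exact h3 ((injective_iff_map_eq_zero _).1 (B_inj D.i₀ _ h4) _ h5)

end

end Pool.Agent.HopfEmb
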