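import Pool.Agent.Lib.MP_d404b9_ag.CalcA

/-!
# JOB CALC-C: localization

Localization: multiply by a cutoff `ρ` and pass to scalar test functions (test with
`Ψ = φ ρ ℓ`, `ℓ : Fm m →L[ℂ] ℂ` arbitrary; such functionals separate points).
-/

set_option autoImplicit false

open MeasureTheory Complex Filter Topology
open scoped ContDiff ComplexConjugate

namespace Pool.Agent.HopfEmb

noncomputable section

variable {m : ℕ}

section aux

variable {G1 G2 G3 : Type*} [NormedAddCommGroup G1] [NormedSpace ℂ G1]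
  [NormedAddCommGroup G2] [NormedSpace ℂ G2] [NormedAddCommGroup G3] [NormedSpace ℂ G3]

theorem CalcC_integrable (B : G1 →L[ℝ] G2 →L[ℝ] G3) {a : C3 → G1} (ha : Continuous a)
    (hac : HasCompactSupport a) (ha0 : (0 : C3) ∉ tsupport a) {U : C3 → G2}
    (hU : LocallyIntegrableOn U {z : C3 | z ≠ 0} volume) :
    Integrable (fun z => B (a z) (U z)) := by
  have hsub : tsupport a ⊆ {z : C3 | z ≠ 0} := by
    rintro z hz rfl
    exact ha0 hz
  have h1 : IntegrableOn U (tsupport a) := hU.integrableOn_compact_subset hsub hac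
  obtain ⟨C, hC⟩ := hac.exists_bound_of_continuous ha
  have hsupp : Function.support (fun z => B (a z) (U z)) ⊆ tsupport a := by
    intro z hz
    apply subset_tsupport
    intro h
    apply hz
    change B (a z) (U z) = 0
    rw [h]
    simp
  rw [← integrableOn_iff_integrable_of_support_subset hsupp]
  have hm : AEStronglyMeasurable (fun z => B (a z) (U z)) (volume.restrict (tsupport a)) :=
    B.aestronglyMeasurable_comp₂ ha.aestronglyMeasurable h1.aestronglyMeasurable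
  refine Integrable.mono' (h1.norm.const_mul (‖B‖ * C)) hm (Eventually.of_forall fun z => ?_)
  refine (B.le_opNorm₂ _ _).trans ?_
  gcongr
  exact hC z

theorem CalcC_integrable' (B : G1 →L[ℂ] G2 →L[ℂ] G3) {a : C3 → G1} (ha : Continuous a)
    (hac : HasCompactSupport a) (ha0 : (0 : C3) ∉ tsupport a) {U : C3 → G2}
    (hU : LocallyIntegrableOn U {z : C3 | z ≠ 0} volume) :
    Integrable (fun z => B (a z) (U z)) :=
  CalcC_integrable (B.bilinearRestrictScalars ℝ) ha hac ha0 hU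

theorem CalcC_test_smul {ρ : C3 → ℂ} (hρ : IsTest ρ) {A : C3 → G1}
    (hA : ∀ z : C3, z ≠ 0 → ContDiffAt ℝ ∞ A z) : IsTest (fun z => ρ z • A z) := by
  have hsupp : tsupport (fun z => ρ z • A z) ⊆ tsupport ρ := tsupport_smul_subset_left _ _
  refine ⟨?_, ?_, fun h => hρ.zero_notMem (hsupp h)⟩
  · rw [contDiff_iff_contDiffAt]
    intro z
    by_cases hz : z = 0
    · subst hz
      have h1 : ρ =ᶠ[𝓝 0] 0 := notMem_tsupport_iff_eventuallyEq.1 hρ.zero_notMem
      have h2 : (fun z => ρ z • A z) =ᶠ[𝓝 0] fun _ => 0 := by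
        filter_upwards [h1] with y hy
        rw [hy]
        simp
      exact contDiffAt_const.congr_of_eventuallyEq h2
    · exact (hρ.smooth.contDiffAt).smul (hA z hz)
  · exact hρ.compact.smul_right

theorem CalcC_fderiv_smul {c : C3 → ℂ} {A : C3 → G1} {z : C3} (hc : DifferentiableAt ℝ c z)
    (hA : DifferentiableAt ℝ A z) (v : C3) :
    fderiv ℝ (fun z => c z • A z) z v = fderiv ℝ c z v • A z + c z • fderiv ℝ A z v := by
  rw [fderiv_fun_smul hc hA]
  simp [add_comm]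

theorem CalcC_dbar_smul {c : C3 → ℂ} {A : C3 → G1} {z : C3} (hc : DifferentiableAt ℝ c z)
    (hA : DifferentiableAt ℝ A z) (j : Fin 3) :
    dbar j (fun z => c z • A z) z = dbar j c z • A z + c z • dbar j A z := by
  simp only [dbar, CalcC_fderiv_smul hc hA, smul_eq_mul]
  module

theorem CalcC_ddel_smul {c : C3 → ℂ} {A : C3 → G1} {z : C3} (hc : DifferentiableAt ℝ c z)
    (hA : DifferentiableAt ℝ A z) (j : Fin 3) :
    ddel j (fun z => c z • A z) z = ddel j c z • A z + c z • ddel j A z := by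
  simp only [ddel, CalcC_fderiv_smul hc hA, smul_eq_mul]
  module

theorem CalcC_dbar_const (a : G1) (j : Fin 3) (z : C3) : dbar j (fun _ : C3 => a) z = 0 := by
  simp [dbar]

theorem CalcC_ddel_const (a : G1) (j : Fin 3) (z : C3) : ddel j (fun _ : C3 => a) z = 0 := by
  simp [ddel]

theorem CalcC_test_dbar {Ψ : C3 → G1} (hΨ : IsTest Ψ) (j : Fin 3) : IsTest (dbar j Ψ) := by
  have h1 := CalcA_test_fderiv hΨ (Pi.single j 1)
  have h2 := CalcA_test_fderiv hΨ (Pi.single j I)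
  refine ⟨(h1.smooth.add (h2.smooth.const_smul I)).const_smul _, ?_, ?_⟩
  · exact hΨ.compact.mono' (by
      intro z hz
      by_contra hz'
      apply hz
      have h3 : fderiv ℝ Ψ z = 0 := by
        have := notMem_tsupport_iff_eventuallyEq.1 hz'
        rw [this.fderiv_eq]
        exact fderiv_const_apply 0
      simp [dbar, h3])
  · intro h0
    have h3 := notMem_tsupport_iff_eventuallyEq.1 hΨ.zero_notMem
    have h4 : dbar j Ψ =ᶠ[𝓝 0] 0 := by
      have h5 := h3.fderiv (𝕜 := ℝ)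
      filter_upwards [h5] with y hy
      have h6 : fderiv ℝ Ψ y = 0 := by
        rw [hy]
        exact fderiv_const_apply 0
      simp [dbar, h6]
    exact notMem_tsupport_iff_eventuallyEq.2 h4 h0

theorem CalcC_test_ddel {Ψ : C3 → G1} (hΨ : IsTest Ψ) (j : Fin 3) : IsTest (ddel j Ψ) := by
  have h1 := CalcA_test_fderiv hΨ (Pi.single j 1)
  have h2 := CalcA_test_fderiv hΨ (Pi.single j I)
  refine ⟨(h1.smooth.sub (h2.smooth.const_smul I)).const_smul _, ?_, ?_⟩
  · exact hΨ.compact.mono' (by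
      intro z hz
      by_contra hz'
      apply hz
      have h3 : fderiv ℝ Ψ z = 0 := by
        have := notMem_tsupport_iff_eventuallyEq.1 hz'
        rw [this.fderiv_eq]
        exact fderiv_const_apply 0
      simp [ddel, h3])
  · intro h0
    have h3 := notMem_tsupport_iff_eventuallyEq.1 hΨ.zero_notMem
    have h4 : ddel j Ψ =ᶠ[𝓝 0] 0 := by
      have h5 := h3.fderiv (𝕜 := ℝ)
      filter_upwards [h5] with y hy
      have h6 : fderiv ℝ Ψ y = 0 := by
        rw [hy]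
        exact fderiv_const_apply 0
      simp [ddel, h6]
    exact notMem_tsupport_iff_eventuallyEq.2 h4 h0

theorem CalcC_cont_dbar {φ : C3 → ℂ} (hφ : IsTestC φ) (j : Fin 3) : Continuous (dbar j φ) := by
  have h : ∀ v : C3, Continuous fun z => fderiv ℝ φ z v := fun v =>
    ((hφ.smooth.fderiv_right (m := ∞) (by simp)).clm_apply contDiff_const).continuous
  exact ((h _).add ((h _).const_smul I)).const_smul (1 / 2 : ℂ)

theorem CalcC_cont_ddel {φ : C3 → ℂ} (hφ : IsTestC φ) (j : Fin 3) : Continuous (ddel j φ) := by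
  have h : ∀ v : C3, Continuous fun z => fderiv ℝ φ z v := fun v =>
    ((hφ.smooth.fderiv_right (m := ∞) (by simp)).clm_apply contDiff_const).continuous
  exact ((h _).sub ((h _).const_smul I)).const_smul (1 / 2 : ℂ)

theorem CalcC_i1 {c1 c2 : C3 → ℂ} (h1 : Continuous c1) (h2 : IsTest c2) {U : C3 → Fm m}
    (hU : LI U) : Integrable (fun z => c1 z • (c2 z • U z)) := by
  have hs : tsupport (fun z => c1 z * c2 z) ⊆ tsupport c2 := tsupport_mul_subset_right
  have h3 := CalcC_integrable' (ContinuousLinearMap.lsmul ℂ ℂ (E := Fm m))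
    (a := fun z => c1 z * c2 z) (h1.mul h2.smooth.continuous) h2.compact.mul_left
    (fun h => h2.zero_notMem (hs h)) hU
  refine h3.congr (Eventually.of_forall fun z => ?_)
  simp [mul_smul]

theorem CalcC_prod (c1 : C3 → ℂ) (h1 : Continuous c1) (f : C3 → G1) (hf : IsTest f) :
    Continuous (fun z => c1 z • f z) ∧ HasCompactSupport (fun z => c1 z • f z) ∧
      (0 : C3) ∉ tsupport (fun z => c1 z • f z) :=
  ⟨h1.smul hf.smooth.continuous, hf.compact.smul_left,
    fun h => hf.zero_notMem (tsupport_smul_subset_right c1 f h)⟩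

theorem CalcC_i2_aux {a : C3 → (Fm m →L[ℂ] Fm m)} (ha : Continuous a)
    (hac : HasCompactSupport a) (ha0 : (0 : C3) ∉ tsupport a) {U : C3 → Fm m}
    (hU : LI U) : Integrable (fun z => a z (U z)) :=
  CalcC_integrable' (ContinuousLinearMap.id ℂ (Fm m →L[ℂ] Fm m)) ha hac ha0 hU

theorem CalcC_i2 {c1 c2 : C3 → ℂ} (h1 : Continuous c1) (h2 : IsTest c2)
    {A : C3 → (Fm m →L[ℂ] Fm m)} (hA : ∀ z : C3, z ≠ 0 → ContDiffAt ℝ ∞ A z) {U : C3 → Fm m}
    (hU : LI U) : Integrable (fun z => c1 z • (c2 z • A z (U z))) := by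
  have h3 := CalcC_test_smul h2 hA
  obtain ⟨hac, hcs, h0⟩ := CalcC_prod c1 h1 _ h3
  have h4 := CalcC_i2_aux hac hcs h0 hU
  refine h4.congr (Eventually.of_forall fun z => ?_)
  simp only [smul_apply]

theorem CalcC_core {X X2 X3 Y : C3 → Fm m} (hX : Integrable X) (hX2 : Integrable X2)
    (hX3 : Integrable X3) (hY : ∀ z, Y z = X2 z + X3 z)
    (h : ∀ ℓ : Fm m →L[ℂ] ℂ, ∫ z, (ℓ (X z) + ℓ (X2 z)) = - ∫ z, ℓ (X3 z)) :
    ∫ z, X z = - ∫ z, Y z := by
  have hY' : Y = fun z => X2 z + X3 z := funext hY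
  rw [hY']
  have key : ∀ ℓ : Fm m →L[ℂ] ℂ, ℓ (∫ z, X z) = ℓ (- ∫ z, (X2 z + X3 z)) := by
    intro ℓ
    have h1 := h ℓ
    rw [integral_add (ℓ.integrable_comp hX) (ℓ.integrable_comp hX2), ℓ.integral_comp_comm hX,
      ℓ.integral_comp_comm hX2, ℓ.integral_comp_comm hX3] at h1
    rw [integral_add hX2 hX3, map_neg, map_add, eq_sub_of_add_eq h1]
    ring
  ext i
  exact key (EuclideanSpace.proj i)

/-- The test functions used in the localization. -/
theorem CalcC_psi {ρ : C3 → ℂ} (hρ : IsTest ρ) {φ : C3 → ℂ} (hφ : IsTestC φ)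
    (ℓ : Fm m →L[ℂ] ℂ) : IsTest (fun z => ρ z • (φ z • ℓ)) ∧
    (∀ j z, dbar j (fun z => ρ z • (φ z • ℓ)) z = (dbar j φ z * ρ z + φ z * dbar j ρ z) • ℓ) ∧
    (∀ j z, ddel j (fun z => ρ z • (φ z • ℓ)) z = (ddel j φ z * ρ z + φ z * ddel j ρ z) • ℓ) := by
  have hd : ∀ z, DifferentiableAt ℝ ρ z := fun z =>
    (hρ.smooth.differentiable (by simp)).differentiableAt
  have hd' : ∀ z, DifferentiableAt ℝ φ z := fun z =>
    (hφ.smooth.differentiable (by simp)).differentiableAt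
  have hd'' : ∀ z, DifferentiableAt ℝ (fun z => φ z • ℓ) z := fun z =>
    (hd' z).smul (differentiableAt_const _)
  refine ⟨CalcC_test_smul hρ fun z _ => (hφ.smooth.contDiffAt).smul contDiffAt_const, ?_, ?_⟩
  · intro j z
    rw [CalcC_dbar_smul (hd z) (hd'' z), CalcC_dbar_smul (hd' z) (differentiableAt_const _),
      CalcC_dbar_const]
    module
  · intro j z
    rw [CalcC_ddel_smul (hd z) (hd'' z), CalcC_ddel_smul (hd' z) (differentiableAt_const _),
      CalcC_ddel_const]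
    module

end aux

theorem Weak0.localize {E : Fin 3 → C3 → (Fm m →L[ℂ] Fm m)}
    (hE : ∀ j, ∀ z : C3, z ≠ 0 → ContDiffAt ℝ ∞ (E j) z)
    {U : C3 → Fm m} {F : Fin 3 → C3 → Fm m} (hU : LI U) (hF : ∀ j, LI (F j))
    (h : Weak0 E U F) {ρ : C3 → ℂ} (hρ : IsTest ρ) (φ : C3 → ℂ) (hφ : IsTestC φ) (j : Fin 3) :
    ∫ z, dbar j φ z • (ρ z • U z) =
      - ∫ z, φ z • (dbar j ρ z • U z + ρ z • (E j z (U z) + F j z)) := by
  have hφc := hφ.smooth.continuous
  refine CalcC_core (X2 := fun z => φ z • (dbar j ρ z • U z))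
    (X3 := fun z => φ z • (ρ z • E j z (U z)) + φ z • (ρ z • F j z))
    (CalcC_i1 (CalcC_cont_dbar hφ j) hρ hU) (CalcC_i1 hφc (CalcC_test_dbar hρ j) hU)
    ((CalcC_i2 hφc hρ (hE j) hU).add (CalcC_i1 hφc hρ (hF j))) (fun z => by module) ?_
  intro ℓ
  obtain ⟨h1, h2, -⟩ := CalcC_psi hρ hφ ℓ
  have h3 := h _ h1 j
  simp only [h2] at h3
  convert h3 using 2
  · funext z
    simp only [map_smul, smul_apply, smul_eq_mul]; ring
  · congr 1
    funext z
    simp only [map_add, map_smul, smul_apply, smul_eq_mul]; ring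

theorem Weak1.localize {E : Fin 3 → C3 → (Fm m →L[ℂ] Fm m)}
    (hE : ∀ j, ∀ z : C3, z ≠ 0 → ContDiffAt ℝ ∞ (E j) z)
    {F H : Fin 3 → C3 → Fm m} (hF : ∀ j, LI (F j)) (hH : ∀ j, LI (H j))
    (h : Weak1 E F H) {ρ : C3 → ℂ} (hρ : IsTest ρ) (φ : C3 → ℂ) (hφ : IsTestC φ) (i : Fin 3) :
    ∫ z, (dbar (i + 1) φ z • (ρ z • F (i + 2) z) - dbar (i + 2) φ z • (ρ z • F (i + 1) z)) =
      - ∫ z, φ z • (dbar (i + 1) ρ z • F (i + 2) z - dbar (i + 2) ρ z • F (i + 1) z +
        ρ z • (E (i + 1) z (F (i + 2) z) - E (i + 2) z (F (i + 1) z) + H i z)) := by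
  have hφc := hφ.smooth.continuous
  refine CalcC_core
    (X2 := fun z => φ z • (dbar (i + 1) ρ z • F (i + 2) z) - φ z • (dbar (i + 2) ρ z • F (i + 1) z))
    (X3 := fun z => φ z • (ρ z • E (i + 1) z (F (i + 2) z)) - φ z • (ρ z • E (i + 2) z (F (i + 1) z))
      + φ z • (ρ z • H i z))
    ((CalcC_i1 (CalcC_cont_dbar hφ _) hρ (hF _)).sub (CalcC_i1 (CalcC_cont_dbar hφ _) hρ (hF _)))
    ((CalcC_i1 hφc (CalcC_test_dbar hρ _) (hF _)).sub (CalcC_i1 hφc (CalcC_test_dbar hρ _) (hF _)))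
    (((CalcC_i2 hφc hρ (hE _) (hF _)).sub (CalcC_i2 hφc hρ (hE _) (hF _))).add
      (CalcC_i1 hφc hρ (hH _))) (fun z => by module) ?_
  intro ℓ
  obtain ⟨h1, h2, -⟩ := CalcC_psi hρ hφ ℓ
  have h3 := h _ h1 i
  simp only [h2] at h3
  convert h3 using 2
  · funext z
    simp only [map_sub, map_smul, smul_apply, smul_eq_mul]; ring
  · congr 1
    funext z
    simp only [map_add, map_sub, map_smul, smul_apply, smul_eq_mul]; ring

theorem Weak2.localize {E : Fin 3 → C3 → (Fm m →L[ℂ] Fm m)}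
    (hE : ∀ j, ∀ z : C3, z ≠ 0 → ContDiffAt ℝ ∞ (E j) z)
    {H : Fin 3 → C3 → Fm m} (hH : ∀ j, LI (H j))
    (h : Weak2 E H) {ρ : C3 → ℂ} (hρ : IsTest ρ) (φ : C3 → ℂ) (hφ : IsTestC φ) :
    ∫ z, ∑ j : Fin 3, dbar j φ z • (ρ z • H j z) =
      - ∫ z, φ z • (∑ j : Fin 3, (dbar j ρ z • H j z + ρ z • E j z (H j z))) := by
  have hφc := hφ.smooth.continuous
  refine CalcC_core
    (X2 := fun z => ∑ j : Fin 3, φ z • (dbar j ρ z • H j z))
    (X3 := fun z => ∑ j : Fin 3, φ z • (ρ z • E j z (H j z)))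
    (integrable_finsetSum _ fun j _ => CalcC_i1 (CalcC_cont_dbar hφ _) hρ (hH _))
    (integrable_finsetSum _ fun j _ => CalcC_i1 hφc (CalcC_test_dbar hρ _) (hH _))
    (integrable_finsetSum _ fun j _ => CalcC_i2 hφc hρ (hE _) (hH _))
    (fun z => by rw [Finset.smul_sum, ← Finset.sum_add_distrib]; simp only [smul_add]) ?_
  intro ℓ
  obtain ⟨h1, h2, -⟩ := CalcC_psi hρ hφ ℓ
  have h3 := h _ h1
  simp only [h2] at h3
  convert h3 using 2
  · funext z
    rw [map_sum, map_sum, ← Finset.sum_add_distrib]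
    refine Finset.sum_congr rfl fun j _ => ?_
    simp only [map_smul, smul_apply, smul_eq_mul]; ring
  · congr 1
    funext z
    rw [map_sum]
    refine Finset.sum_congr rfl fun j _ => ?_
    simp only [map_smul, smul_apply, smul_eq_mul]; ring

/-- Localization of a weak `∂`-divergence equation. -/
theorem del_div_localize {F : Fin 3 → C3 → Fm m} {G : C3 → Fm m} (hF : ∀ j, LI (F j)) (hG : LI G)
    (h : ∀ Ψ : C3 → (Fm m →L[ℂ] ℂ), IsTest Ψ →
      ∫ z, ∑ j : Fin 3, (ddel j Ψ z) (F j z) = - ∫ z, Ψ z (G z))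
    {ρ : C3 → ℂ} (hρ : IsTest ρ) (φ : C3 → ℂ) (hφ : IsTestC φ) :
    ∫ z, ∑ j : Fin 3, ddel j φ z • (ρ z • F j z) =
      - ∫ z, φ z • ((∑ j : Fin 3, ddel j ρ z • F j z) + ρ z • G z) := by
  have hφc := hφ.smooth.continuous
  refine CalcC_core
    (X2 := fun z => ∑ j : Fin 3, φ z • (ddel j ρ z • F j z))
    (X3 := fun z => φ z • (ρ z • G z))
    (integrable_finsetSum _ fun j _ => CalcC_i1 (CalcC_cont_ddel hφ _) hρ (hF _))
    (integrable_finsetSum _ fun j _ => CalcC_i1 hφc (CalcC_test_ddel hρ _) (hF _))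
    (CalcC_i1 hφc hρ hG)
    (fun z => by rw [smul_add, Finset.smul_sum]) ?_
  intro ℓ
  obtain ⟨h1, -, h2⟩ := CalcC_psi hρ hφ ℓ
  have h3 := h _ h1
  simp only [h2] at h3
  convert h3 using 2
  · funext z
    rw [map_sum, map_sum, ← Finset.sum_add_distrib]
    refine Finset.sum_congr rfl fun j _ => ?_
    simp only [map_smul, smul_apply, smul_eq_mul]; ring
  · congr 1
    funext z
    simp only [map_smul, smul_apply, smul_eq_mul]; ring

/-- Localization of a weak `∂`-curl equation. -/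
theorem del_curl_localize {F H : Fin 3 → C3 → Fm m} (hF : ∀ j, LI (F j)) (hH : ∀ j, LI (H j))
    (h : ∀ Ψ : C3 → (Fm m →L[ℂ] ℂ), IsTest Ψ → ∀ i : Fin 3,
      ∫ z, ((ddel (i + 1) Ψ z) (F (i + 2) z) - (ddel (i + 2) Ψ z) (F (i + 1) z)) =
        - ∫ z, Ψ z (H i z))
    {ρ : C3 → ℂ} (hρ : IsTest ρ) (φ : C3 → ℂ) (hφ : IsTestC φ) (i : Fin 3) :
    ∫ z, (ddel (i + 1) φ z • (ρ z • F (i + 2) z) - ddel (i + 2) φ z • (ρ z • F (i + 1) z)) =
      - ∫ z, φ z • (ddel (i + 1) ρ z • F (i + 2) z - ddel (i + 2) ρ z • F (i + 1) z +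
        ρ z • H i z) := by
  have hφc := hφ.smooth.continuous
  refine CalcC_core
    (X2 := fun z => φ z • (ddel (i + 1) ρ z • F (i + 2) z) - φ z • (ddel (i + 2) ρ z • F (i + 1) z))
    (X3 := fun z => φ z • (ρ z • H i z))
    ((CalcC_i1 (CalcC_cont_ddel hφ _) hρ (hF _)).sub (CalcC_i1 (CalcC_cont_ddel hφ _) hρ (hF _)))
    ((CalcC_i1 hφc (CalcC_test_ddel hρ _) (hF _)).sub (CalcC_i1 hφc (CalcC_test_ddel hρ _) (hF _)))
    (CalcC_i1 hφc hρ (hH _)) (fun z => by module) ?_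
  intro ℓ
  obtain ⟨h1, -, h2⟩ := CalcC_psi hρ hφ ℓ
  have h3 := h _ h1 i
  simp only [h2] at h3
  convert h3 using 2
  · funext z
    simp only [map_sub, map_smul, smul_apply, smul_eq_mul]; ring
  · congr 1
    funext z
    simp only [map_smul, smul_apply, smul_eq_mul]; ring

end

end Pool.Agent.HopfEmb
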