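import Mathlib

/-!
# JOB THETA: a theta-like meromorphic function

For `1/2 < μ < 1` the series `θ₀(y) = ∑_{n ∈ ℤ} μ^{-n} / (1 - 2^n y)` converges for `y ≠ 0`,
`y ∉ 2^ℤ` (for `n → +∞` the terms are `≈ -(2μ)^{-n}/y`, for `n → -∞` they are `≈ μ^{|n|}`), satisfies
`θ₀(2y) = μ θ₀(y)`, and has simple poles exactly at `2^ℤ`. For real `w ∉ ℤ` write `w = k + w'` with
`k = ⌈w⌉ ∈ ℤ`, `w' ∈ (-1, 0)`, `μ = 2^{w'}` and `θ(y) = y^k θ₀(y)`; near `1`:
`(y-1) θ(y) = y^k (-1 + (y-1) ∑_{n ≠ 0} μ^{-n}/(1 - 2^n y))`.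
-/

set_option autoImplicit false

open Complex Filter Topology

namespace Pool.Agent.HopfEmb

noncomputable section

/-- The dominating series. -/
private def thU (μ : ℝ) (n : ℤ) : ℝ := μ ^ (-n) / max 1 ((2 : ℝ) ^ n)

private theorem thU_summable {μ : ℝ} (h1 : 1 / 2 < μ) (h2 : μ < 1) : Summable (thU μ) := by
  have hμ : 0 < μ := by linarith
  apply Summable.of_nat_of_neg
  · have h : (fun n : ℕ => thU μ (n : ℤ)) = fun n : ℕ => (1 / (2 * μ)) ^ n := by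
      funext n
      have h3 : max 1 ((2 : ℝ) ^ (n : ℤ)) = 2 ^ n := by
        rw [zpow_natCast]
        exact max_eq_right (one_le_pow₀ (by norm_num))
      rw [thU, h3, zpow_neg, zpow_natCast, one_div, inv_pow, mul_pow, mul_inv]
      rw [div_eq_mul_inv, mul_comm]
    rw [h]
    apply summable_geometric_of_lt_one
    · positivity
    · rw [div_lt_one (by positivity)]
      linarith
  · have h : (fun n : ℕ => thU μ (-(n : ℤ))) = fun n : ℕ => μ ^ n := by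
      funext n
      have h3 : max 1 ((2 : ℝ) ^ (-(n : ℤ))) = 1 := by
        apply max_eq_left
        rw [zpow_neg, zpow_natCast]
        exact inv_le_one_of_one_le₀ (one_le_pow₀ (by norm_num))
      rw [thU, h3, neg_neg, zpow_natCast, div_one]
    rw [h]
    exact summable_geometric_of_lt_one hμ.le h2

/-- The terms of the series, with coefficients `ε n`. -/
private def thF (μ : ℝ) (ε : ℤ → ℂ) (n : ℤ) (y : ℂ) : ℂ :=
  ε n * ((μ : ℂ) ^ (-n) / (1 - (2 : ℂ) ^ n * y))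

private theorem thF_le {μ : ℝ} (hμ : 0 < μ) {ε : ℤ → ℂ} (hε : ∀ n, ‖ε n‖ ≤ 1) {U : Set ℂ} {c : ℝ}
    (hc : 0 < c)
    (h : ∀ n, ε n ≠ 0 → ∀ y ∈ U, c * max 1 ((2 : ℝ) ^ n) ≤ ‖1 - (2 : ℂ) ^ n * y‖)
    (n : ℤ) (y : ℂ) (hy : y ∈ U) : ‖thF μ ε n y‖ ≤ c⁻¹ * thU μ n := by
  have hU : 0 ≤ thU μ n := by
    unfold thU
    positivity
  by_cases h0 : ε n = 0
  · rw [thF, h0, zero_mul, norm_zero]
    positivity
  · have h1 := h n h0 y hy
    have hm : 0 < max 1 ((2 : ℝ) ^ n) := lt_of_lt_of_le one_pos (le_max_left _ _)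
    rw [thF, norm_mul, norm_div, norm_zpow, Complex.norm_of_nonneg hμ.le]
    have h2 : μ ^ (-n) / ‖1 - (2 : ℂ) ^ n * y‖ ≤ c⁻¹ * thU μ n := by
      calc μ ^ (-n) / ‖1 - (2 : ℂ) ^ n * y‖ ≤ μ ^ (-n) / (c * max 1 ((2 : ℝ) ^ n)) := by
            apply div_le_div_of_nonneg_left _ (by positivity) h1
            positivity
        _ = c⁻¹ * thU μ n := by
            unfold thU
            field_simp
    calc ‖ε n‖ * (μ ^ (-n) / ‖1 - (2 : ℂ) ^ n * y‖)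
        ≤ 1 * (μ ^ (-n) / ‖1 - (2 : ℂ) ^ n * y‖) :=
          mul_le_mul_of_nonneg_right (hε n) (by positivity)
      _ ≤ c⁻¹ * thU μ n := by rw [one_mul]; exact h2

private theorem thF_diff {μ : ℝ} {ε : ℤ → ℂ} {U : Set ℂ} {c : ℝ}
    (hc : 0 < c)
    (h : ∀ n, ε n ≠ 0 → ∀ y ∈ U, c * max 1 ((2 : ℝ) ^ n) ≤ ‖1 - (2 : ℂ) ^ n * y‖)
    (n : ℤ) : DifferentiableOn ℂ (thF μ ε n) U := by
  by_cases h0 : ε n = 0
  · have : thF μ ε n = fun _ => 0 := by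
      funext y
      rw [thF, h0, zero_mul]
    rw [this]
    exact differentiableOn_const _
  · intro y hy
    have h1 : 1 - (2 : ℂ) ^ n * y ≠ 0 := by
      intro h2
      have h3 := h n h0 y hy
      rw [h2, norm_zero] at h3
      have hm : 0 < max 1 ((2 : ℝ) ^ n) := lt_of_lt_of_le one_pos (le_max_left _ _)
      have : 0 < c * max 1 ((2 : ℝ) ^ n) := by positivity
      linarith
    apply DifferentiableAt.differentiableWithinAt
    unfold thF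
    fun_prop (disch := exact h1)

private theorem th_series {μ : ℝ} (hμ1 : 1 / 2 < μ) (hμ2 : μ < 1) {ε : ℤ → ℂ}
    (hε : ∀ n, ‖ε n‖ ≤ 1) {U : Set ℂ} (hU : IsOpen U) {c : ℝ} (hc : 0 < c)
    (h : ∀ n, ε n ≠ 0 → ∀ y ∈ U, c * max 1 ((2 : ℝ) ^ n) ≤ ‖1 - (2 : ℂ) ^ n * y‖) :
    DifferentiableOn ℂ (fun y => ∑' n : ℤ, thF μ ε n y) U ∧
      ∀ y ∈ U, Summable fun n : ℤ => thF μ ε n y := by
  have hμ : 0 < μ := by linarith
  have hs : Summable fun n => c⁻¹ * thU μ n := (thU_summable hμ1 hμ2).mul_left _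
  constructor
  · exact differentiableOn_tsum_of_summable_norm hs (fun n => thF_diff hc h n) hU
      (fun n y hy => thF_le hμ hε hc h n y hy)
  · intro y hy
    exact Summable.of_norm_bounded hs (fun n => thF_le hμ hε hc h n y hy)

private theorem th_finite_lower (s : Finset ℤ) (f : ℤ → ℝ) (hf : ∀ n, 0 < f n) :
    ∃ c : ℝ, 0 < c ∧ ∀ n ∈ s, c ≤ f n := by
  classical
  induction s using Finset.induction_on with
  | empty => exact ⟨1, one_pos, fun n hn => absurd hn (Finset.notMem_empty n)⟩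
  | insert a s ha ih =>
    obtain ⟨c, hc, h⟩ := ih
    refine ⟨min c (f a), lt_min hc (hf a), ?_⟩
    intro n hn
    rcases Finset.mem_insert.1 hn with rfl | hn
    · exact min_le_right _ _
    · exact (min_le_left _ _).trans (h n hn)

private theorem th_lower {y₀ : ℂ} (h0 : y₀ ≠ 0) (h1 : ∀ k : ℤ, y₀ ≠ (2 : ℂ) ^ k) :
    ∃ c : ℝ, 0 < c ∧ ∀ n : ℤ, c * max 1 ((2 : ℝ) ^ n) ≤ ‖1 - (2 : ℂ) ^ n * y₀‖ := by
  have hy : 0 < ‖y₀‖ := norm_pos_iff.2 h0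
  obtain ⟨N1, hN1⟩ := pow_unbounded_of_one_lt (2 / ‖y₀‖) (one_lt_two : (1 : ℝ) < 2)
  obtain ⟨N2, hN2⟩ := pow_unbounded_of_one_lt (2 * ‖y₀‖) (one_lt_two : (1 : ℝ) < 2)
  have hne : ∀ n : ℤ, 1 - (2 : ℂ) ^ n * y₀ ≠ 0 := by
    intro n hn
    apply h1 (-n)
    rw [zpow_neg]
    apply eq_inv_of_mul_eq_one_left
    linear_combination -hn
  have hmax : ∀ n : ℤ, 0 < max 1 ((2 : ℝ) ^ n) :=
    fun n => lt_of_lt_of_le one_pos (le_max_left _ _)
  have hnorm : ∀ n : ℤ, ‖(2 : ℂ) ^ n * y₀‖ = (2 : ℝ) ^ n * ‖y₀‖ := by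
    intro n
    rw [norm_mul, norm_zpow]
    norm_num
  obtain ⟨c, hc, hcs⟩ := th_finite_lower (Finset.Icc (-(N2 : ℤ)) (N1 : ℤ))
    (fun n => ‖1 - (2 : ℂ) ^ n * y₀‖ / max 1 ((2 : ℝ) ^ n))
    (fun n => div_pos (norm_pos_iff.2 (hne n)) (hmax n))
  refine ⟨min c (min (‖y₀‖ / 2) (1 / 2)), lt_min hc (lt_min (by positivity) (by norm_num)), ?_⟩
  intro n
  by_cases hn : n ∈ Finset.Icc (-(N2 : ℤ)) (N1 : ℤ)
  · have h2 := hcs n hn
    rw [le_div_iff₀ (hmax n)] at h2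
    exact (mul_le_mul_of_nonneg_right (min_le_left _ _) (hmax n).le).trans h2
  · rw [Finset.mem_Icc, not_and_or, not_le, not_le] at hn
    rcases hn with hn | hn
    · -- very negative
      have h3 : (2 : ℝ) ^ n ≤ ((2 : ℝ) ^ N2)⁻¹ := by
        rw [← zpow_natCast, ← zpow_neg]
        exact zpow_le_zpow_right₀ (by norm_num) hn.le
      have h4 : max 1 ((2 : ℝ) ^ n) = 1 := by
        apply max_eq_left
        exact h3.trans (inv_le_one_of_one_le₀ (one_le_pow₀ (by norm_num)))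
      have h5 : (2 : ℝ) ^ n * ‖y₀‖ ≤ 1 / 2 := by
        calc (2 : ℝ) ^ n * ‖y₀‖ ≤ ((2 : ℝ) ^ N2)⁻¹ * ‖y₀‖ :=
              mul_le_mul_of_nonneg_right h3 hy.le
          _ ≤ 1 / 2 := by
              rw [inv_mul_le_iff₀ (by positivity)]
              linarith
      have h6 : 1 - (2 : ℝ) ^ n * ‖y₀‖ ≤ ‖1 - (2 : ℂ) ^ n * y₀‖ := by
        have := norm_sub_norm_le (1 : ℂ) ((2 : ℂ) ^ n * y₀)
        rw [norm_one, hnorm] at this
        exact this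
      rw [h4, mul_one]
      calc min c (min (‖y₀‖ / 2) (1 / 2)) ≤ 1 / 2 := (min_le_right _ _).trans (min_le_right _ _)
        _ ≤ 1 - (2 : ℝ) ^ n * ‖y₀‖ := by linarith
        _ ≤ _ := h6
    · have h3 : (2 : ℝ) ^ N1 ≤ (2 : ℝ) ^ n := by
        rw [← zpow_natCast]
        exact zpow_le_zpow_right₀ (by norm_num) hn.le
      have h4 : max 1 ((2 : ℝ) ^ n) = (2 : ℝ) ^ n := by
        apply max_eq_right
        exact (one_le_pow₀ (by norm_num)).trans h3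
      have h5 : 2 ≤ (2 : ℝ) ^ n * ‖y₀‖ := by
        have : 2 < (2 : ℝ) ^ N1 * ‖y₀‖ := by
          rw [div_lt_iff₀ hy] at hN1
          exact hN1
        exact this.le.trans (mul_le_mul_of_nonneg_right h3 hy.le)
      have h6 : (2 : ℝ) ^ n * ‖y₀‖ - 1 ≤ ‖1 - (2 : ℂ) ^ n * y₀‖ := by
        have := norm_sub_norm_le ((2 : ℂ) ^ n * y₀) (1 : ℂ)
        rw [norm_one, hnorm, norm_sub_rev] at this
        exact this
      rw [h4]
      have hp : 0 < (2 : ℝ) ^ n := by positivity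
      calc min c (min (‖y₀‖ / 2) (1 / 2)) * (2 : ℝ) ^ n ≤ ‖y₀‖ / 2 * (2 : ℝ) ^ n :=
            mul_le_mul_of_nonneg_right ((min_le_right _ _).trans (min_le_left _ _)) hp.le
        _ ≤ (2 : ℝ) ^ n * ‖y₀‖ - 1 := by nlinarith
        _ ≤ _ := h6

private theorem th_lower_ball {y₀ : ℂ} (h0 : y₀ ≠ 0) (h1 : ∀ k : ℤ, y₀ ≠ (2 : ℂ) ^ k) :
    ∃ c : ℝ, 0 < c ∧ ∀ n : ℤ, ∀ y ∈ Metric.ball y₀ c,
      c * max 1 ((2 : ℝ) ^ n) ≤ ‖1 - (2 : ℂ) ^ n * y‖ := by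
  obtain ⟨c, hc, h⟩ := th_lower h0 h1
  refine ⟨c / 2, by positivity, ?_⟩
  intro n y hy
  have h2 := h n
  rw [Metric.mem_ball, dist_eq_norm] at hy
  have h3 : ‖(2 : ℂ) ^ n * (y - y₀)‖ ≤ c / 2 * max 1 ((2 : ℝ) ^ n) := by
    rw [norm_mul, norm_zpow]
    have : ‖(2 : ℂ)‖ = 2 := by norm_num
    rw [this, mul_comm]
    apply mul_le_mul hy.le (le_max_right _ _) (by positivity) (by positivity)
  have h4 : ‖1 - (2 : ℂ) ^ n * y₀‖ ≤ ‖1 - (2 : ℂ) ^ n * y‖ + ‖(2 : ℂ) ^ n * (y - y₀)‖ := by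
    have : 1 - (2 : ℂ) ^ n * y₀ = (1 - (2 : ℂ) ^ n * y) + (2 : ℂ) ^ n * (y - y₀) := by ring
    rw [this]
    exact norm_add_le _ _
  linarith

private theorem th_lower_one (n : ℤ) (hn : n ≠ 0) (y : ℂ) (hy : y ∈ Metric.ball (1 : ℂ) (1 / 4)) :
    (1 / 4 : ℝ) * max 1 ((2 : ℝ) ^ n) ≤ ‖1 - (2 : ℂ) ^ n * y‖ := by
  rw [Metric.mem_ball, dist_eq_norm] at hy
  have hnorm : ‖(2 : ℂ) ^ n * y‖ = (2 : ℝ) ^ n * ‖y‖ := by
    rw [norm_mul, norm_zpow]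
    norm_num
  have hy1 : ‖y‖ ≤ 5 / 4 := by
    have := norm_sub_norm_le y 1
    rw [norm_one] at this
    linarith
  have hy2 : 3 / 4 ≤ ‖y‖ := by
    have := norm_sub_norm_le 1 y
    rw [norm_one, norm_sub_rev] at this
    linarith
  rcases lt_or_gt_of_ne hn with hn | hn
  · have h3 : (2 : ℝ) ^ n ≤ 1 / 2 := by
      have : (2 : ℝ) ^ n ≤ (2 : ℝ) ^ (-1 : ℤ) := zpow_le_zpow_right₀ (by norm_num) (by omega)
      rw [zpow_neg_one] at this
      linarith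
    have h4 : max 1 ((2 : ℝ) ^ n) = 1 := max_eq_left (by linarith)
    have h6 : 1 - (2 : ℝ) ^ n * ‖y‖ ≤ ‖1 - (2 : ℂ) ^ n * y‖ := by
      have := norm_sub_norm_le (1 : ℂ) ((2 : ℂ) ^ n * y)
      rw [norm_one, hnorm] at this
      exact this
    have hp : 0 < (2 : ℝ) ^ n := by positivity
    rw [h4]
    nlinarith
  · have h3 : 2 ≤ (2 : ℝ) ^ n := by
      have : (2 : ℝ) ^ (1 : ℤ) ≤ (2 : ℝ) ^ n := zpow_le_zpow_right₀ (by norm_num) (by omega)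
      rwa [zpow_one] at this
    have h4 : max 1 ((2 : ℝ) ^ n) = (2 : ℝ) ^ n := max_eq_right (by linarith)
    have h6 : (2 : ℝ) ^ n * ‖y‖ - 1 ≤ ‖1 - (2 : ℂ) ^ n * y‖ := by
      have := norm_sub_norm_le ((2 : ℂ) ^ n * y) (1 : ℂ)
      rw [norm_one, hnorm, norm_sub_rev] at this
      exact this
    rw [h4]
    nlinarith

theorem exists_theta (w : ℝ) (hw : ∀ k : ℤ, w ≠ k) :
    ∃ θ ϑ : ℂ → ℂ,
      (∀ y : ℂ, y ≠ 0 → θ (2 * y) = (((2 : ℝ) ^ w : ℝ) : ℂ) * θ y) ∧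
      (∀ y : ℂ, y ≠ 0 → (∀ k : ℤ, y ≠ (2 : ℂ) ^ k) → AnalyticAt ℂ θ y) ∧
      (∀ y ∈ Metric.ball (1 : ℂ) (1 / 4), AnalyticAt ℂ ϑ y) ∧
      (∀ y ∈ Metric.ball (1 : ℂ) (1 / 4), y ≠ 1 → ϑ y = (y - 1) * θ y) ∧
      ϑ 1 ≠ 0 := by
  set k : ℤ := ⌈w⌉ with hk
  set μ : ℝ := (2 : ℝ) ^ (w - k) with hμ
  have hw1 : w < k := lt_of_le_of_ne (Int.le_ceil w) (hw _)
  have hw2 : (k : ℝ) < w + 1 := Int.ceil_lt_add_one w
  have hμ2 : μ < 1 := Real.rpow_lt_one_of_one_lt_of_neg one_lt_two (by linarith)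
  have hμ1 : 1 / 2 < μ := by
    have h : (2 : ℝ) ^ (-1 : ℝ) < (2 : ℝ) ^ (w - k) :=
      Real.rpow_lt_rpow_of_exponent_lt one_lt_two (by linarith)
    rw [Real.rpow_neg_one] at h
    rw [hμ]
    linarith
  have hμ0 : 0 < μ := by linarith
  have hμc : (μ : ℂ) ≠ 0 := by exact_mod_cast hμ0.ne'
  have hwμ : (2 : ℝ) ^ w = (2 : ℝ) ^ k * μ := by
    rw [hμ, ← Real.rpow_intCast, ← Real.rpow_add (by norm_num)]
    congr 1
    ring
  -- the unit coefficients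
  let ε1 : ℤ → ℂ := fun _ => 1
  have hε1 : ∀ n, ‖ε1 n‖ ≤ 1 := fun n => by simp [ε1]
  let ε0 : ℤ → ℂ := fun n => if n = 0 then 0 else 1
  have hε0 : ∀ n, ‖ε0 n‖ ≤ 1 := fun n => by
    simp only [ε0]
    split_ifs <;> simp
  have hball : ∀ n, ε0 n ≠ 0 → ∀ y ∈ Metric.ball (1 : ℂ) (1 / 4),
      (1 / 4 : ℝ) * max 1 ((2 : ℝ) ^ n) ≤ ‖1 - (2 : ℂ) ^ n * y‖ := by
    intro n hn y hy
    apply th_lower_one n _ y hy
    rintro rfl
    simp [ε0] at hn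
  obtain ⟨hd0, hs0⟩ := th_series hμ1 hμ2 hε0 Metric.isOpen_ball (by norm_num : (0 : ℝ) < 1 / 4)
    hball
  have hball0 : ∀ y ∈ Metric.ball (1 : ℂ) (1 / 4), y ≠ 0 := by
    rintro y hy rfl
    rw [Metric.mem_ball, dist_eq_norm, zero_sub, norm_neg, norm_one] at hy
    norm_num at hy
  refine ⟨fun y => y ^ k * ∑' n : ℤ, thF μ ε1 n y,
    fun y => y ^ k * (-1 + (y - 1) * ∑' n : ℤ, thF μ ε0 n y), ?_, ?_, ?_, ?_, ?_⟩
  · intro y _
    have h1 : ∑' n : ℤ, thF μ ε1 n (2 * y) = μ * ∑' n : ℤ, thF μ ε1 n y := by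
      rw [← tsum_mul_left, ← (Equiv.addRight (1 : ℤ)).tsum_eq (fun n => (μ : ℂ) * thF μ ε1 n y)]
      congr 1
      funext n
      simp only [thF, ε1, Equiv.coe_addRight, one_mul]
      have h2 : (2 : ℂ) ^ (n + 1) = (2 : ℂ) ^ n * 2 := zpow_add_one₀ two_ne_zero n
      have h3 : (μ : ℂ) ^ (-n) = μ * (μ : ℂ) ^ (-(n + 1)) := by
        rw [← zpow_one_add₀ hμc]
        congr 1
        ring
      rw [h2, h3]
      ring
    simp only [h1, hwμ]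
    rw [mul_zpow]
    push_cast
    ring
  · intro y hy1 hy2
    obtain ⟨c, hc, h⟩ := th_lower_ball hy1 hy2
    obtain ⟨hd, _⟩ := th_series hμ1 hμ2 hε1 Metric.isOpen_ball hc (fun n _ => h n)
    have h1 : AnalyticAt ℂ (fun y => ∑' n : ℤ, thF μ ε1 n y) y :=
      hd.analyticAt (Metric.ball_mem_nhds y hc)
    have h2 : AnalyticAt ℂ (fun y : ℂ => y ^ k) y := analyticAt_id.zpow hy1
    exact h2.mul h1
  · intro y hy
    have h1 : AnalyticAt ℂ (fun y => ∑' n : ℤ, thF μ ε0 n y) y :=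
      hd0.analyticAt (Metric.isOpen_ball.mem_nhds hy)
    have h2 : AnalyticAt ℂ (fun y : ℂ => y ^ k) y := analyticAt_id.zpow (hball0 y hy)
    exact h2.mul (analyticAt_const.add ((analyticAt_id.sub analyticAt_const).mul h1))
  · intro y hy hy1
    have hne : ∀ j : ℤ, y ≠ (2 : ℂ) ^ j := by
      intro j hj
      rcases eq_or_ne j 0 with rfl | hj0
      · exact hy1 (by rw [hj, zpow_zero])
      · have h := th_lower_one (-j) (by omega) y hy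
        have h2 : 1 - (2 : ℂ) ^ (-j) * y = 0 := by
          rw [hj, zpow_neg, inv_mul_cancel₀ (zpow_ne_zero _ two_ne_zero), sub_self]
        rw [h2, norm_zero] at h
        have hm : 0 < max 1 ((2 : ℝ) ^ (-j)) := lt_of_lt_of_le one_pos (le_max_left _ _)
        linarith
    obtain ⟨c, hc, h⟩ := th_lower_ball (hball0 y hy) hne
    obtain ⟨_, hs⟩ := th_series hμ1 hμ2 hε1 Metric.isOpen_ball hc (fun n _ => h n)
    have h1 := (hs y (Metric.mem_ball_self hc)).tsum_eq_add_tsum_ite 0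
    have h2 : (fun n : ℤ => if n = 0 then (0 : ℂ) else thF μ ε1 n y) = fun n => thF μ ε0 n y := by
      funext n
      simp only [thF, ε0, ε1]
      split_ifs <;> simp
    rw [h2] at h1
    have h3 : thF μ ε1 0 y = 1 / (1 - y) := by
      simp [thF, ε1]
    have h4 : (1 : ℂ) - y ≠ 0 := sub_ne_zero.2 (Ne.symm hy1)
    simp only
    rw [h1, h3]
    have h5 : (y - 1) * (1 / (1 - y)) = -1 := by
      field_simp
      ring
    linear_combination (-(y ^ k)) * h5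
  · simp
end

end Pool.Agent.HopfEmb
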