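import Pool.Agent.Lib.MP_d404b9_ag.Data
import Pool.Agent.Lib.MP_d404b9_ag.Theta

/-!
# JOB CHASE-A: the local extension of the theta section near the elliptic curve

Let `w = 2s`, `θ, ϑ` from `exists_theta w`, `b` a bump function at `1 ∈ ℂ`, `n(y)` the integer with
`3/4 * 2^n ≤ |y| < 3/2 * 2^n`. On the fundamental annulus put
`F(z) = θ(z_0) σ(z) + b(z_0) (ϑ(z_0) A(z) - θ(z_0) σ(z))`, and `f(z) = 2^{w n} F(2^{-n} z)`,
`n = n(z_0)`, and similarly for `g, g'` with weight `w - 2` and the functions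
`G_0(z) = - ∂̄b(z_0) θ(z_0) B(z)`, `G_1 = G_2 = 0`.
-/

set_option autoImplicit false

open Complex Filter Topology
open scoped ContDiff ComplexConjugate

namespace Pool.Agent.HopfEmb

variable {m : ℕ}

/-- A conical neighbourhood of the punctured axis `{z_1 = z_2 = 0}`. -/
def cone (δ : ℝ) : Set C3 := {z | z ≠ 0 ∧ ‖z 1‖ ^ 2 + ‖z 2‖ ^ 2 < δ * R2 z}

section chaseA_aux

variable {G : Type*} [NormedAddCommGroup G] [NormedSpace ℂ G]

private lemma chaseA_dbar_congr {f g : C3 → G} {z : C3} (h : f =ᶠ[𝓝 z] g) (j : Fin 3) :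
    dbar j f z = dbar j g z := by
  unfold dbar; rw [h.fderiv_eq]

private lemma chaseA_dbar_smul {φ : C3 → ℂ} {f : C3 → G} {z : C3}
    (hφ : DifferentiableAt ℝ φ z) (hf : DifferentiableAt ℝ f z) (j : Fin 3) :
    dbar j (fun y => φ y • f y) z = dbar j φ z • f z + φ z • dbar j f z := by
  unfold dbar
  rw [(hφ.hasFDerivAt.fun_smul hf.hasFDerivAt).fderiv]
  simp only [_root_.add_apply, _root_.smul_apply,
    ContinuousLinearMap.smulRight_apply, smul_add, smul_eq_mul, add_smul, mul_smul]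
  simp only [smul_smul]
  ring_nf
  abel

private lemma chaseA_dbar_add {f g : C3 → G} {z : C3}
    (hf : DifferentiableAt ℝ f z) (hg : DifferentiableAt ℝ g z) (j : Fin 3) :
    dbar j (fun y => f y + g y) z = dbar j f z + dbar j g z := by
  unfold dbar
  rw [(hf.hasFDerivAt.fun_add hg.hasFDerivAt).fderiv]
  simp only [_root_.add_apply, smul_add]
  abel

private lemma chaseA_dbar_sub {f g : C3 → G} {z : C3}
    (hf : DifferentiableAt ℝ f z) (hg : DifferentiableAt ℝ g z) (j : Fin 3) :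
    dbar j (fun y => f y - g y) z = dbar j f z - dbar j g z := by
  unfold dbar
  rw [(hf.hasFDerivAt.fun_sub hg.hasFDerivAt).fderiv]
  simp only [_root_.sub_apply, smul_sub, smul_add]
  abel

private lemma chaseA_dbar_const (c : G) (z : C3) (j : Fin 3) :
    dbar j (fun _ : C3 => c) z = 0 := by
  unfold dbar
  simp

/-- the `∂̄` of a function of one complex variable -/
private noncomputable def chaseA_db (φ : ℂ → ℂ) (y : ℂ) : ℂ :=
  (1 / 2 : ℂ) * (fderiv ℝ φ y 1 + I * fderiv ℝ φ y I)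

private lemma chaseA_dbar_coord {φ : ℂ → ℂ} {z : C3} (hφ : DifferentiableAt ℝ φ (z 0))
    (j : Fin 3) : dbar j (fun y : C3 => φ (y 0)) z = if j = 0 then chaseA_db φ (z 0) else 0 := by
  have h1 : HasFDerivAt (fun y : C3 => y 0) (ContinuousLinearMap.proj (R := ℝ) (φ := fun _ => ℂ) 0) z :=
    (ContinuousLinearMap.proj (R := ℝ) (φ := fun _ : Fin 3 => ℂ) 0).hasFDerivAt
  have h2 := (hφ.hasFDerivAt.comp z h1).fderiv
  unfold dbar chaseA_db
  have h3 : (fun y : C3 => φ (y 0)) = φ ∘ (fun y : C3 => y 0) := rfl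
  rw [h3, h2]
  simp only [ContinuousLinearMap.comp_apply, ContinuousLinearMap.proj_apply, smul_eq_mul]
  split_ifs with h
  · subst h; simp
  · have : (0 : Fin 3) ≠ j := fun h' => h h'.symm
    simp [Pi.single_eq_of_ne this]

private lemma chaseA_db_analytic {φ : ℂ → ℂ} {y : ℂ} (h : AnalyticAt ℂ φ y) :
    chaseA_db φ y = 0 := by
  have h1 : HasFDerivAt φ ((fderiv ℂ φ y).restrictScalars ℝ) y :=
    h.differentiableAt.hasFDerivAt.restrictScalars ℝ
  unfold chaseA_db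
  rw [h1.fderiv]
  simp only [ContinuousLinearMap.coe_restrictScalars']
  have : fderiv ℂ φ y I = I * fderiv ℂ φ y 1 := by
    have h2 := (fderiv ℂ φ y).map_smul I 1
    rwa [smul_eq_mul, smul_eq_mul, mul_one] at h2
  rw [this, ← mul_assoc, I_mul_I]
  ring

private lemma chaseA_contDiffAt_coord {φ : ℂ → G} {z : C3} (hφ : ContDiffAt ℝ ∞ φ (z 0)) :
    ContDiffAt ℝ ∞ (fun y : C3 => φ (y 0)) z := by
  have h1 : ContDiffAt ℝ ∞ (fun y : C3 => y 0) z :=
    (ContinuousLinearMap.proj (R := ℝ) (φ := fun _ : Fin 3 => ℂ) 0).contDiff.contDiffAt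
  exact hφ.comp z h1

private lemma chaseA_db_congr {φ ψ : ℂ → ℂ} {y : ℂ} (h : φ =ᶠ[𝓝 y] ψ) :
    chaseA_db φ y = chaseA_db ψ y := by
  unfold chaseA_db; rw [h.fderiv_eq]

private lemma chaseA_db_contDiffAt {φ : ℂ → ℂ} {y : ℂ} (h : ContDiffAt ℝ ∞ φ y) :
    ContDiffAt ℝ ∞ (chaseA_db φ) y := by
  have h1 : ContDiffAt ℝ ∞ (fderiv ℝ φ) y := h.fderiv_right (m := ∞) (by simp)
  have h2 : ∀ v : ℂ, ContDiffAt ℝ ∞ (fun x => fderiv ℝ φ x v) y := fun v =>
    h1.clm_apply contDiffAt_const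
  unfold chaseA_db
  exact contDiffAt_const.mul ((h2 1).add (contDiffAt_const.mul (h2 I)))

/-- scaling by a power of two -/
private lemma chaseA_dbar_scale {f : C3 → G} {z : C3} (c : ℂ) (n : ℤ)
    (hf : DifferentiableAt ℝ f (((2 : ℂ) ^ n) • z)) (j : Fin 3) :
    dbar j (fun y => c • f (((2 : ℂ) ^ n) • y)) z =
      (c * (2 : ℂ) ^ n) • dbar j f (((2 : ℂ) ^ n) • z) := by
  have hr : ((2 : ℂ) ^ n) = (((2 : ℝ) ^ n : ℝ) : ℂ) := by push_cast; rfl
  set r : ℝ := (2 : ℝ) ^ n with hrdef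
  have hL : ∀ y : C3, ((2 : ℂ) ^ n) • y = r • y := by
    intro y; rw [hr]; ext i; simp
  have h1 : HasFDerivAt (fun y : C3 => ((2 : ℂ) ^ n) • y)
      (r • ContinuousLinearMap.id ℝ C3) z := by
    have : (fun y : C3 => ((2 : ℂ) ^ n) • y) = fun y => (r • ContinuousLinearMap.id ℝ C3) y := by
      funext y; rw [hL]; simp
    rw [this]
    exact (r • ContinuousLinearMap.id ℝ C3).hasFDerivAt
  have h2 := ((hf.hasFDerivAt.comp z h1).const_smul c).fderiv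
  unfold dbar
  have h3 : (fun y => c • f (((2 : ℂ) ^ n) • y)) = c • (f ∘ fun y : C3 => ((2 : ℂ) ^ n) • y) := rfl
  rw [h3, h2]
  simp only [_root_.smul_apply, ContinuousLinearMap.comp_apply,
    ContinuousLinearMap.id_apply, map_smul]
  have h4 : ∀ v : G, r • v = ((2 : ℂ) ^ n) • v := by
    intro v; rw [hr]; exact (Complex.coe_smul r v).symm
  simp only [h4, smul_smul, smul_add]
  congr 1 <;> ring_nf

/-- iteration of the scaling relation -/
private lemma chaseA_iter {H : Type*} [AddCommGroup H] [Module ℂ H] {Φ : C3 → H} {c : ℂ}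
    (hc : c ≠ 0) {T : Set C3} (hT : ∀ z, (2 : ℂ) • z ∈ T ↔ z ∈ T)
    (h : ∀ z ∈ T, Φ ((2 : ℂ) • z) = c • Φ z) (n : ℤ) :
    ∀ z ∈ T, ((2 : ℂ) ^ n) • z ∈ T ∧ Φ (((2 : ℂ) ^ n) • z) = c ^ n • Φ z := by
  induction n using Int.induction_on with
  | zero => intro z hz; simpa using hz
  | succ k ih =>
    intro z hz
    obtain ⟨h1, h2⟩ := ih z hz
    have e : ((2 : ℂ) ^ ((k : ℤ) + 1)) • z = (2 : ℂ) • (((2 : ℂ) ^ (k : ℤ)) • z) := by
      rw [smul_smul, zpow_add_one₀ (by norm_num), mul_comm]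
    rw [e]
    refine ⟨(hT _).2 h1, ?_⟩
    rw [h _ h1, h2, smul_smul, zpow_add_one₀ hc, mul_comm]
  | pred k ih =>
    intro z hz
    obtain ⟨h1, h2⟩ := ih z hz
    have e : ((2 : ℂ) ^ (-(k : ℤ))) • z = (2 : ℂ) • (((2 : ℂ) ^ (-(k : ℤ) - 1)) • z) := by
      rw [smul_smul, zpow_sub_one₀ (by norm_num)]
      congr 1
      field_simp
    rw [e] at h1 h2
    have h3 := (hT _).1 h1
    refine ⟨h3, ?_⟩
    rw [h _ h3] at h2
    rw [zpow_sub_one₀ hc, mul_comm, ← smul_smul, ← h2, smul_smul, inv_mul_cancel₀ hc, one_smul]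

/-- the scale index: `3/4 * 2^n ≤ |y| < 3/2 * 2^n` -/
private noncomputable def chaseA_n (y : ℂ) : ℤ := Int.log 2 (4 / 3 * ‖y‖)

private lemma chaseA_n_spec {y : ℂ} (hy : y ≠ 0) :
    3 / 4 * (2 : ℝ) ^ chaseA_n y ≤ ‖y‖ ∧ ‖y‖ < 3 / 4 * (2 : ℝ) ^ (chaseA_n y + 1) := by
  have h0 : 0 < 4 / 3 * ‖y‖ := by positivity
  have h1 := Int.zpow_log_le_self (b := 2) (r := 4 / 3 * ‖y‖) (by norm_num) h0
  have h2 := Int.lt_zpow_succ_log_self (b := 2) (by norm_num) (4 / 3 * ‖y‖)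
  unfold chaseA_n
  push_cast at h1 h2
  constructor <;> linarith

private lemma chaseA_n_unique {y : ℂ} {k : ℤ} (h1 : 3 / 4 * (2 : ℝ) ^ k ≤ ‖y‖)
    (h2 : ‖y‖ < 3 / 4 * (2 : ℝ) ^ (k + 1)) : chaseA_n y = k := by
  have h0 : 0 < 4 / 3 * ‖y‖ := by
    have : 0 < 3 / 4 * (2 : ℝ) ^ k := by positivity
    linarith
  unfold chaseA_n
  apply le_antisymm
  · have := (Int.lt_zpow_iff_log_lt (b := 2) (by norm_num) (x := k + 1) h0).1 (by
      push_cast; linarith)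
    omega
  · exact (Int.zpow_le_iff_le_log (b := 2) (by norm_num) (x := k) h0).1 (by push_cast; linarith)

private lemma chaseA_n_two {y : ℂ} (hy : y ≠ 0) : chaseA_n (2 * y) = chaseA_n y + 1 := by
  obtain ⟨h1, h2⟩ := chaseA_n_spec hy
  apply chaseA_n_unique
  · rw [norm_mul, Complex.norm_ofNat, zpow_add_one₀ (by norm_num)]; linarith
  · rw [norm_mul, Complex.norm_ofNat, zpow_add_one₀ (by norm_num)]; linarith

/-- The homogeneous extension of a function on the fundamental annulus. -/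
private noncomputable def chaseA_T (c : ℂ) (Φ : C3 → G) (z : C3) : G :=
  c ^ chaseA_n (z 0) • Φ (((2 : ℂ) ^ (-chaseA_n (z 0))) • z)

private lemma chaseA_T_scale {c : ℂ} (hc : c ≠ 0) (Φ : C3 → G) {z : C3} (hz : z 0 ≠ 0) :
    chaseA_T c Φ ((2 : ℂ) • z) = c • chaseA_T c Φ z := by
  unfold chaseA_T
  have : ((2 : ℂ) • z) 0 = 2 * z 0 := by simp
  rw [this, chaseA_n_two hz, smul_smul, smul_smul, zpow_add_one₀ hc, mul_comm c]
  congr 2
  congr 1
  rw [neg_add, zpow_add₀ (by norm_num), mul_assoc]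
  norm_num

private lemma chaseA_T_zero {c : ℂ} (Φ : C3 → G) {z : C3} (hz : chaseA_n (z 0) = 0) :
    chaseA_T c Φ z = Φ z := by
  unfold chaseA_T; rw [hz]; simp

/-- near the points over the interior of the fundamental annulus -/
private lemma chaseA_T_near {c : ℂ} (Φ : C3 → G) {q : C3} (h1 : 3 / 4 < ‖q 0‖)
    (h2 : ‖q 0‖ < 3 / 2) : chaseA_T c Φ =ᶠ[𝓝 q] Φ := by
  have hc : Continuous fun y : C3 => ‖y 0‖ := by fun_prop
  filter_upwards [hc.continuousAt.eventually (lt_mem_nhds h1), hc.continuousAt.eventually (gt_mem_nhds h2)] with y hy1 hy2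
  apply chaseA_T_zero
  apply chaseA_n_unique
  · simpa using hy1.le
  · norm_num; linarith

private lemma chaseA_T_far {c : ℂ} (hc0 : c ≠ 0) {Φ Ψ : C3 → G} {r : ℝ} (hr : r ≤ 1 / 8)
    (hΨ : ∀ z : C3, z 0 ≠ 0 → Ψ ((2 : ℂ) • z) = c • Ψ z)
    (hΦ : ∀ z : C3, z 0 ≠ 0 → z 0 ∉ Metric.closedBall (1 : ℂ) r → Φ z = Ψ z)
    {q : C3} (h1 : 3 / 4 ≤ ‖q 0‖) (h2 : ‖q 0‖ < 3 / 2) (h3 : q 0 ∉ Metric.closedBall (1 : ℂ) r) :
    chaseA_T c Φ =ᶠ[𝓝 q] Ψ := by
  have hc : Continuous fun y : C3 => ‖y 0‖ := by fun_prop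
  have hc' : Continuous fun y : C3 => y 0 := by fun_prop
  have h4 : ∀ᶠ y in 𝓝 q, y 0 ∉ Metric.closedBall (1 : ℂ) r :=
    (Metric.isClosed_closedBall.isOpen_compl.preimage hc').mem_nhds h3
  filter_upwards [hc.continuousAt.eventually (lt_mem_nhds (show 9 / 16 < ‖q 0‖ by linarith)),
    hc.continuousAt.eventually (gt_mem_nhds h2), h4] with y hy1 hy2 hy3
  have hy0 : y 0 ≠ 0 := by
    intro h; rw [h, norm_zero] at hy1; linarith
  rcases le_or_gt (3 / 4) ‖y 0‖ with h | h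
  · rw [chaseA_T_zero, hΦ y hy0 hy3]
    apply chaseA_n_unique
    · simpa using h
    · norm_num; linarith
  · have hn : chaseA_n (y 0) = -1 := by
      apply chaseA_n_unique
      · norm_num; linarith
      · simpa using h
    unfold chaseA_T
    rw [hn]
    have e : ((2 : ℂ) ^ (-(-1 : ℤ))) • y = (2 : ℂ) • y := by norm_num
    rw [e, hΦ, hΨ y hy0, smul_smul, zpow_neg_one, inv_mul_cancel₀ hc0, one_smul]
    · simpa using hy0
    · intro hb
      have : ‖(2 : ℂ) • y 0‖ ≤ 1 + r := by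
        have h5 : dist (((2 : ℂ) • y) 0) 1 ≤ r := hb
        rw [dist_eq_norm] at h5
        have h6 : ((2 : ℂ) • y) 0 = (2 : ℂ) • y 0 := rfl
        rw [h6] at h5
        calc ‖(2 : ℂ) • y 0‖ = ‖((2 : ℂ) • y 0 - 1) + 1‖ := by ring_nf
          _ ≤ ‖(2 : ℂ) • y 0 - 1‖ + ‖(1 : ℂ)‖ := norm_add_le _ _
          _ ≤ 1 + r := by rw [norm_one]; linarith
      rw [norm_smul, Complex.norm_ofNat] at this
      linarith

/-- the local statement at one point -/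
private structure chaseA_Loc (P : C3 → (Fm m →L[ℂ] Fm m)) (E : Fin 3 → C3 → (Fm m →L[ℂ] Fm m))
    (f : C3 → Fm m) (g g' : Fin 3 → C3 → Fm m) (z : C3) : Prop where
  f_smooth : ContDiffAt ℝ ∞ f z
  g_smooth : ∀ j, ContDiffAt ℝ ∞ (g j) z
  g'_smooth : ∀ j, ContDiffAt ℝ ∞ (g' j) z
  f_proj : P z (f z) = f z
  g_proj : ∀ j, P z (g j z) = g j z
  g'_proj : ∀ j, P z (g' j z) = g' j z
  hf : ∀ j, dbar j f z = E j z (f z) + (z 1 • g j z + z 2 • g' j z)
  hg : ∀ i : Fin 3, dbar (i + 1) (g (i + 2)) z - dbar (i + 2) (g (i + 1)) z =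
    E (i + 1) z (g (i + 2) z) - E (i + 2) z (g (i + 1) z)
  hg' : ∀ i : Fin 3, dbar (i + 1) (g' (i + 2)) z - dbar (i + 2) (g' (i + 1)) z =
    E (i + 1) z (g' (i + 2) z) - E (i + 2) z (g' (i + 1) z)

private lemma chaseA_Loc_congr {P : C3 → (Fm m →L[ℂ] Fm m)} {E : Fin 3 → C3 → (Fm m →L[ℂ] Fm m)}
    {f F : C3 → Fm m} {g g' G G' : Fin 3 → C3 → Fm m} {z : C3} (hf : f =ᶠ[𝓝 z] F)
    (hg : ∀ j, g j =ᶠ[𝓝 z] G j) (hg' : ∀ j, g' j =ᶠ[𝓝 z] G' j)
    (h : chaseA_Loc P E F G G' z) : chaseA_Loc P E f g g' z where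
  f_smooth := h.f_smooth.congr_of_eventuallyEq hf
  g_smooth := fun j => (h.g_smooth j).congr_of_eventuallyEq (hg j)
  g'_smooth := fun j => (h.g'_smooth j).congr_of_eventuallyEq (hg' j)
  f_proj := by rw [hf.eq_of_nhds]; exact h.f_proj
  g_proj := fun j => by rw [(hg j).eq_of_nhds]; exact h.g_proj j
  g'_proj := fun j => by rw [(hg' j).eq_of_nhds]; exact h.g'_proj j
  hf := fun j => by
    rw [chaseA_dbar_congr hf, hf.eq_of_nhds, (hg j).eq_of_nhds, (hg' j).eq_of_nhds]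
    exact h.hf j
  hg := fun i => by
    rw [chaseA_dbar_congr (hg (i + 2)), chaseA_dbar_congr (hg (i + 1)),
      (hg (i + 2)).eq_of_nhds, (hg (i + 1)).eq_of_nhds]
    exact h.hg i
  hg' := fun i => by
    rw [chaseA_dbar_congr (hg' (i + 2)), chaseA_dbar_congr (hg' (i + 1)),
      (hg' (i + 2)).eq_of_nhds, (hg' (i + 1)).eq_of_nhds]
    exact h.hg' i

private lemma chaseA_scale_smooth {f : C3 → G} {z : C3} (c : ℂ) (n : ℤ)
    (hf : ContDiffAt ℝ ∞ f (((2 : ℂ) ^ n) • z)) :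
    ContDiffAt ℝ ∞ (fun y => c • f (((2 : ℂ) ^ n) • y)) z := by
  have h1 : ContDiffAt ℝ ∞ (fun y : C3 => ((2 : ℂ) ^ n) • y) z :=
    (contDiff_const_smul ((2 : ℂ) ^ n)).contDiffAt
  exact (hf.comp z h1).const_smul c

/-- transfer of the local statement under scaling -/
private lemma chaseA_Loc_scale {P : C3 → (Fm m →L[ℂ] Fm m)}
    {E : Fin 3 → C3 → (Fm m →L[ℂ] Fm m)} (hPE : PE P E)
    {f : C3 → Fm m} {g g' : Fin 3 → C3 → Fm m} {c c' : ℂ} (hc' : c' * 4 = c) (hc : c ≠ 0)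
    {O : Set C3} (hO : IsOpen O) (hO0 : ∀ z ∈ O, z ≠ 0) (hO2 : ∀ z : C3, (2 : ℂ) • z ∈ O ↔ z ∈ O)
    (f_scale : ∀ z ∈ O, f ((2 : ℂ) • z) = c • f z)
    (g_scale : ∀ j, ∀ z ∈ O, g j ((2 : ℂ) • z) = c' • g j z)
    (g'_scale : ∀ j, ∀ z ∈ O, g' j ((2 : ℂ) • z) = c' • g' j z)
    (n : ℤ) {z : C3} (hz : z ∈ O)
    (h : chaseA_Loc P E f g g' (((2 : ℂ) ^ n) • z)) : chaseA_Loc P E f g g' z := by
  have hc'0 : c' ≠ 0 := by rintro rfl; apply hc; rw [← hc']; ring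
  have hn : ∀ k : ℤ, (2 : ℂ) ^ k ≠ 0 := fun k => zpow_ne_zero _ (by norm_num)
  -- eventual formulas
  have key : ∀ {H : C3 → Fm m} {d : ℂ}, d ≠ 0 → (∀ z ∈ O, H ((2 : ℂ) • z) = d • H z) →
      ∀ y ∈ O, H y = (d ^ n)⁻¹ • H (((2 : ℂ) ^ n) • y) := by
    intro H d hd hH y hy
    rw [(chaseA_iter hd hO2 hH n y hy).2, smul_smul, inv_mul_cancel₀ (zpow_ne_zero _ hd), one_smul]
  have hev : ∀ {H : C3 → Fm m} {d : ℂ}, d ≠ 0 → (∀ z ∈ O, H ((2 : ℂ) • z) = d • H z) →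
      H =ᶠ[𝓝 z] fun y => (d ^ n)⁻¹ • H (((2 : ℂ) ^ n) • y) := by
    intro H d hd hH
    filter_upwards [hO.mem_nhds hz] with y hy using key hd hH y hy
  have hdb : ∀ {H : C3 → Fm m} {d : ℂ} (hd : d ≠ 0)
      (hH : ∀ z ∈ O, H ((2 : ℂ) • z) = d • H z)
      (hs : ContDiffAt ℝ ∞ H (((2 : ℂ) ^ n) • z)) (j : Fin 3),
      dbar j H z = ((d ^ n)⁻¹ * (2 : ℂ) ^ n) • dbar j H (((2 : ℂ) ^ n) • z) := by
    intro H d hd hH hs j
    rw [chaseA_dbar_congr (hev hd hH), chaseA_dbar_scale _ _ (hs.differentiableAt (by simp))]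
  have hO' : ∀ z : C3, (2 : ℂ) • z ∈ {z : C3 | z ≠ 0} ↔ z ∈ {z : C3 | z ≠ 0} := by
    intro z; simp
  have hP : P (((2 : ℂ) ^ n) • z) = P z := by
    have := (chaseA_iter (Φ := P) (c := 1) one_ne_zero hO'
      (fun z hz => by rw [one_smul]; exact hPE.P_scale z hz) n z (hO0 z hz)).2
    rwa [one_zpow, one_smul] at this
  have hE : ∀ j, E j z = ((2 : ℂ) ^ n) • E j (((2 : ℂ) ^ n) • z) := by
    intro j
    have := (chaseA_iter (Φ := E j) (c := 1 / 2) (by norm_num) hO'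
      (fun z hz => hPE.E_scale j z hz) n z (hO0 z hz)).2
    rw [this, smul_smul, ← mul_zpow]
    norm_num
  have hP' : ∀ {H : C3 → Fm m} {d : ℂ}, d ≠ 0 → (∀ z ∈ O, H ((2 : ℂ) • z) = d • H z) →
      P (((2 : ℂ) ^ n) • z) (H (((2 : ℂ) ^ n) • z)) = H (((2 : ℂ) ^ n) • z) →
      P z (H z) = H z := by
    intro H d hd hH h1
    rw [key hd hH z hz, map_smul, ← hP, h1]
  have hcc : (c' ^ n)⁻¹ = (c ^ n)⁻¹ * (2 : ℂ) ^ n * (2 : ℂ) ^ n := by
    rw [← hc', mul_zpow, mul_inv, mul_assoc, mul_assoc, ← mul_zpow]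
    norm_num
    rw [inv_mul_cancel₀ (zpow_ne_zero _ (by norm_num)), mul_one]
  refine
    { f_smooth := (chaseA_scale_smooth _ _ h.f_smooth).congr_of_eventuallyEq (hev hc f_scale)
      g_smooth := fun j => (chaseA_scale_smooth _ _ (h.g_smooth j)).congr_of_eventuallyEq
        (hev hc'0 (g_scale j))
      g'_smooth := fun j => (chaseA_scale_smooth _ _ (h.g'_smooth j)).congr_of_eventuallyEq
        (hev hc'0 (g'_scale j))
      f_proj := hP' hc f_scale h.f_proj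
      g_proj := fun j => hP' hc'0 (g_scale j) (h.g_proj j)
      g'_proj := fun j => hP' hc'0 (g'_scale j) (h.g'_proj j)
      hf := ?_
      hg := ?_
      hg' := ?_ }
  · intro j
    rw [hdb hc f_scale h.f_smooth, h.hf j, key hc f_scale z hz, key hc'0 (g_scale j) z hz,
      key hc'0 (g'_scale j) z hz, hE j]
    simp only [_root_.smul_apply, map_smul, smul_add, smul_smul, Pi.smul_apply, smul_eq_mul, hcc]
    refine congrArg₂ (· + ·) ?_ (congrArg₂ (· + ·) ?_ ?_) <;> congr 1 <;> ring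
  · intro i
    rw [hdb hc'0 (g_scale _) (h.g_smooth _), hdb hc'0 (g_scale _) (h.g_smooth _), ← smul_sub,
      h.hg i, key hc'0 (g_scale (i + 2)) z hz, key hc'0 (g_scale (i + 1)) z hz, hE, hE]
    simp only [_root_.smul_apply, map_smul, smul_sub, smul_smul]
  · intro i
    rw [hdb hc'0 (g'_scale _) (h.g'_smooth _), hdb hc'0 (g'_scale _) (h.g'_smooth _), ← smul_sub,
      h.hg' i, key hc'0 (g'_scale (i + 2)) z hz, key hc'0 (g'_scale (i + 1)) z hz, hE, hE]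
    simp only [_root_.smul_apply, map_smul, smul_sub, smul_smul]

/-- `F = θ σ + b (ϑ A - θ σ)` -/
private noncomputable def chaseA_F (θ ϑ b : ℂ → ℂ) (σ A : C3 → Fm m) (z : C3) : Fm m :=
  θ (z 0) • σ z + b (z 0) • (ϑ (z 0) • A z - θ (z 0) • σ z)

/-- `ψ = - ∂̄b θ` -/
private noncomputable def chaseA_psi (θ b : ℂ → ℂ) (y : ℂ) : ℂ := -(chaseA_db b y * θ y)

/-- `G = - ∂̄_j b θ B` -/
private noncomputable def chaseA_G (θ b : ℂ → ℂ) (B : C3 → Fm m) (j : Fin 3) (z : C3) : Fm m :=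
  if j = 0 then chaseA_psi θ b (z 0) • B z else 0

/-- the local statement, first case -/
private lemma chaseA_Loc_A {P : C3 → (Fm m →L[ℂ] Fm m)} {E : Fin 3 → C3 → (Fm m →L[ℂ] Fm m)}
    {σ : C3 → Fm m} (hσ : HolSec P E {z | z ≠ 0} σ) {θ : ℂ → ℂ} {q : C3} (hq : q ≠ 0)
    (hθ : AnalyticAt ℂ θ (q 0)) :
    chaseA_Loc P E (fun z => θ (z 0) • σ z) (fun _ _ => 0) (fun _ _ => 0) q := by
  have hθs : ContDiffAt ℝ ∞ (fun z : C3 => θ (z 0)) q :=
    chaseA_contDiffAt_coord (hθ.contDiffAt.restrict_scalars ℝ)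
  have hσs := hσ.smooth q hq
  have hi : (∞ : WithTop ℕ∞) ≠ 0 := by simp
  refine
    { f_smooth := hθs.smul hσs
      g_smooth := fun _ => contDiffAt_const
      g'_smooth := fun _ => contDiffAt_const
      f_proj := by rw [map_smul, hσ.proj q hq]
      g_proj := fun _ => by simp
      g'_proj := fun _ => by simp
      hf := ?_
      hg := fun _ => by simp [chaseA_dbar_const]
      hg' := fun _ => by simp [chaseA_dbar_const] }
  intro j
  rw [chaseA_dbar_smul (hθs.differentiableAt hi) (hσs.differentiableAt hi),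
    chaseA_dbar_coord ((hθ.contDiffAt.restrict_scalars ℝ).differentiableAt hi),
    chaseA_db_analytic hθ, hσ.hol j q hq]
  simp

private lemma chaseA_psi_smooth {θ b : ℂ → ℂ} {y : ℂ} (hb : ContDiff ℝ ∞ b)
    (h : AnalyticAt ℂ θ y ∨ b =ᶠ[𝓝 y] fun _ => 1) : ContDiffAt ℝ ∞ (chaseA_psi θ b) y := by
  rcases h with h | h
  · exact ((chaseA_db_contDiffAt hb.contDiffAt).mul (h.contDiffAt.restrict_scalars ℝ)).neg
  · have h1 : chaseA_psi θ b =ᶠ[𝓝 y] fun _ => 0 := by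
      filter_upwards [h.eventuallyEq_nhds] with x hx
      unfold chaseA_psi
      rw [chaseA_db_congr hx, chaseA_db_analytic analyticAt_const]
      simp
    exact contDiffAt_const.congr_of_eventuallyEq h1

private lemma chaseA_G_smooth {P : C3 → (Fm m →L[ℂ] Fm m)} {E : Fin 3 → C3 → (Fm m →L[ℂ] Fm m)}
    {D : Set C3} {B : C3 → Fm m} (hB : HolSec P E D B) {θ b : ℂ → ℂ} {q : C3} (hq : q ∈ D)
    (hb : ContDiff ℝ ∞ b) (h : AnalyticAt ℂ θ (q 0) ∨ b =ᶠ[𝓝 (q 0)] fun _ => 1) (j : Fin 3) :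
    ContDiffAt ℝ ∞ (chaseA_G θ b B j) q := by
  unfold chaseA_G
  split_ifs
  · exact (chaseA_contDiffAt_coord (chaseA_psi_smooth hb h)).smul (hB.smooth q hq)
  · exact contDiffAt_const

private lemma chaseA_G_proj {P : C3 → (Fm m →L[ℂ] Fm m)} {E : Fin 3 → C3 → (Fm m →L[ℂ] Fm m)}
    {D : Set C3} {B : C3 → Fm m} (hB : HolSec P E D B) {θ b : ℂ → ℂ} {q : C3} (hq : q ∈ D)
    (j : Fin 3) : P q (chaseA_G θ b B j q) = chaseA_G θ b B j q := by
  unfold chaseA_G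
  split_ifs
  · rw [map_smul, hB.proj q hq]
  · simp

private lemma chaseA_G_curl {P : C3 → (Fm m →L[ℂ] Fm m)} {E : Fin 3 → C3 → (Fm m →L[ℂ] Fm m)}
    {D : Set C3} {B : C3 → Fm m} (hB : HolSec P E D B) {θ b : ℂ → ℂ} {q : C3} (hq : q ∈ D)
    (hb : ContDiff ℝ ∞ b) (h : AnalyticAt ℂ θ (q 0) ∨ b =ᶠ[𝓝 (q 0)] fun _ => 1) (i : Fin 3) :
    dbar (i + 1) (chaseA_G θ b B (i + 2)) q - dbar (i + 2) (chaseA_G θ b B (i + 1)) q =
      E (i + 1) q (chaseA_G θ b B (i + 2) q) - E (i + 2) q (chaseA_G θ b B (i + 1) q) := by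
  have hψ := chaseA_psi_smooth hb h
  have hi : (∞ : WithTop ℕ∞) ≠ 0 := by simp
  have h0 : ∀ j : Fin 3, j ≠ 0 → chaseA_G θ b B j = fun _ => 0 := by
    intro j hj; funext z; simp [chaseA_G, hj]
  have h1 : ∀ j : Fin 3, j ≠ 0 → dbar j (chaseA_G θ b B 0) q = E j q (chaseA_G θ b B 0 q) := by
    intro j hj
    have e : chaseA_G θ b B 0 = fun z => chaseA_psi θ b (z 0) • B z := by
      funext z; simp [chaseA_G]
    rw [e, chaseA_dbar_smul ((chaseA_contDiffAt_coord hψ).differentiableAt hi)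
      ((hB.smooth q hq).differentiableAt hi), chaseA_dbar_coord (hψ.differentiableAt hi),
      hB.hol j q hq]
    simp [hj]
  have hz : ∀ j k : Fin 3, j ≠ 0 → dbar k (chaseA_G θ b B j) q = 0 := by
    intro j k hj
    rw [h0 j hj]; exact chaseA_dbar_const _ _ _
  have hz' : ∀ j k : Fin 3, j ≠ 0 → E k q (chaseA_G θ b B j q) = 0 := by
    intro j k hj
    rw [h0 j hj]; simp
  fin_cases i
  · change dbar 1 (chaseA_G θ b B 2) q - dbar 2 (chaseA_G θ b B 1) q =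
      E 1 q (chaseA_G θ b B 2 q) - E 2 q (chaseA_G θ b B 1 q)
    rw [hz 2 1 (by decide), hz 1 2 (by decide), hz' 2 1 (by decide), hz' 1 2 (by decide)]
  · change dbar 2 (chaseA_G θ b B 0) q - dbar 0 (chaseA_G θ b B 2) q =
      E 2 q (chaseA_G θ b B 0 q) - E 0 q (chaseA_G θ b B 2 q)
    rw [hz 2 0 (by decide), hz' 2 0 (by decide), h1 2 (by decide)]
  · change dbar 0 (chaseA_G θ b B 1) q - dbar 1 (chaseA_G θ b B 0) q =
      E 0 q (chaseA_G θ b B 1 q) - E 1 q (chaseA_G θ b B 0 q)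
    rw [hz 1 0 (by decide), hz' 1 0 (by decide), h1 1 (by decide)]

/-- the local statement, second case -/
private lemma chaseA_Loc_B {P : C3 → (Fm m →L[ℂ] Fm m)} {E : Fin 3 → C3 → (Fm m →L[ℂ] Fm m)}
    (D : SecData P E) {θ ϑ b : ℂ → ℂ} {q : C3} (hq : q ∈ Metric.ball e1 D.ε) (hq0 : q ≠ 0)
    (hb : ContDiff ℝ ∞ b) (h : AnalyticAt ℂ θ (q 0) ∨ b =ᶠ[𝓝 (q 0)] fun _ => 1)
    (hϑ : AnalyticAt ℂ ϑ (q 0))
    (hϑθ : ∀ᶠ y in 𝓝 (q 0), y ≠ 1 → ϑ y = (y - 1) * θ y) (h1 : q 0 = 1 → b =ᶠ[𝓝 (q 0)] fun _ => 1) :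
    chaseA_Loc P E (chaseA_F θ ϑ b D.σ D.A) (chaseA_G θ b D.B) (chaseA_G θ b D.C) q := by
  have hi : (∞ : WithTop ℕ∞) ≠ 0 := by simp
  have hAs := D.A_hol.smooth q hq
  have hσs := D.σ_hol.smooth q hq0
  have hϑr : ContDiffAt ℝ ∞ ϑ (q 0) := hϑ.contDiffAt.restrict_scalars ℝ
  have hϑs : ContDiffAt ℝ ∞ (fun z : C3 => ϑ (z 0)) q := chaseA_contDiffAt_coord hϑr
  have hbs : ContDiffAt ℝ ∞ (fun z : C3 => b (z 0)) q := chaseA_contDiffAt_coord hb.contDiffAt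
  have hc' : Continuous fun y : C3 => y 0 := by fun_prop
  by_cases hb1 : b =ᶠ[𝓝 (q 0)] fun _ => 1
  · -- near the axis point
    have hF : chaseA_F θ ϑ b D.σ D.A =ᶠ[𝓝 q] fun z => ϑ (z 0) • D.A z := by
      filter_upwards [hc'.continuousAt.eventually hb1] with z hz
      unfold chaseA_F
      rw [hz]; simp
    have hdb : chaseA_db b (q 0) = 0 := by
      rw [chaseA_db_congr hb1, chaseA_db_analytic analyticAt_const]
    have hG0 : ∀ (B : C3 → Fm m) (j : Fin 3), chaseA_G θ b B j q = 0 := by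
      intro B j
      unfold chaseA_G chaseA_psi
      rw [hdb]; simp
    refine
      { f_smooth := (hϑs.smul hAs).congr_of_eventuallyEq hF
        g_smooth := chaseA_G_smooth D.B_hol hq hb h
        g'_smooth := chaseA_G_smooth D.C_hol hq hb h
        f_proj := ?_
        g_proj := chaseA_G_proj D.B_hol hq
        g'_proj := chaseA_G_proj D.C_hol hq
        hf := ?_
        hg := chaseA_G_curl D.B_hol hq hb h
        hg' := chaseA_G_curl D.C_hol hq hb h }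
    · rw [hF.eq_of_nhds, map_smul, D.A_hol.proj q hq]
    · intro j
      rw [chaseA_dbar_congr hF, hF.eq_of_nhds, hG0, hG0,
        chaseA_dbar_smul (hϑs.differentiableAt hi) (hAs.differentiableAt hi),
        chaseA_dbar_coord (hϑr.differentiableAt hi), chaseA_db_analytic hϑ, D.A_hol.hol j q hq]
      simp
  · have hne : q 0 ≠ 1 := fun h' => hb1 (h1 h')
    have hθ : AnalyticAt ℂ θ (q 0) := h.resolve_right hb1
    have hθr : ContDiffAt ℝ ∞ θ (q 0) := hθ.contDiffAt.restrict_scalars ℝ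
    have hθs : ContDiffAt ℝ ∞ (fun z : C3 => θ (z 0)) q := chaseA_contDiffAt_coord hθr
    refine
      { f_smooth := (hθs.smul hσs).add (hbs.smul ((hϑs.smul hAs).sub (hθs.smul hσs)))
        g_smooth := chaseA_G_smooth D.B_hol hq hb h
        g'_smooth := chaseA_G_smooth D.C_hol hq hb h
        f_proj := ?_
        g_proj := chaseA_G_proj D.B_hol hq
        g'_proj := chaseA_G_proj D.C_hol hq
        hf := ?_
        hg := chaseA_G_curl D.B_hol hq hb h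
        hg' := chaseA_G_curl D.C_hol hq hb h }
    · unfold chaseA_F
      simp only [map_add, map_smul, map_sub, D.A_hol.proj q hq, D.σ_hol.proj q hq0]
    · intro j
      have e1 : dbar j (fun z : C3 => θ (z 0) • D.σ z) q = θ (q 0) • E j q (D.σ q) := by
        rw [chaseA_dbar_smul (hθs.differentiableAt hi) (hσs.differentiableAt hi),
          chaseA_dbar_coord (hθr.differentiableAt hi), chaseA_db_analytic hθ,
          D.σ_hol.hol j q hq0]
        simp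
      have e2 : dbar j (fun z : C3 => ϑ (z 0) • D.A z) q = ϑ (q 0) • E j q (D.A q) := by
        rw [chaseA_dbar_smul (hϑs.differentiableAt hi) (hAs.differentiableAt hi),
          chaseA_dbar_coord (hϑr.differentiableAt hi), chaseA_db_analytic hϑ,
          D.A_hol.hol j q hq]
        simp
      have e3 : dbar j (chaseA_F θ ϑ b D.σ D.A) q = θ (q 0) • E j q (D.σ q) +
          ((if j = 0 then chaseA_db b (q 0) else 0) • (ϑ (q 0) • D.A q - θ (q 0) • D.σ q) +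
            b (q 0) • (ϑ (q 0) • E j q (D.A q) - θ (q 0) • E j q (D.σ q))) := by
        have d1 : DifferentiableAt ℝ (fun z : C3 => θ (z 0) • D.σ z) q :=
          (hθs.smul hσs).differentiableAt hi
        have d2 : DifferentiableAt ℝ (fun z : C3 => ϑ (z 0) • D.A z) q :=
          (hϑs.smul hAs).differentiableAt hi
        have d3 : DifferentiableAt ℝ
            (fun z : C3 => ϑ (z 0) • D.A z - θ (z 0) • D.σ z) q := d2.sub d1
        have d4 : DifferentiableAt ℝ (fun z : C3 => b (z 0)) q := hbs.differentiableAt hi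
        have d5 : DifferentiableAt ℝ
            (fun z : C3 => b (z 0) • (ϑ (z 0) • D.A z - θ (z 0) • D.σ z)) q := d4.smul d3
        unfold chaseA_F
        rw [chaseA_dbar_add d1 d5, e1, chaseA_dbar_smul d4 d3, chaseA_dbar_sub d2 d1, e1, e2,
          chaseA_dbar_coord (hb.contDiffAt.differentiableAt hi)]
      have e4 : ϑ (q 0) • D.A q - θ (q 0) • D.σ q =
          -(θ (q 0) • (q 1 • D.B q + q 2 • D.C q)) := by
        rw [hϑθ.self_of_nhds hne, D.σ_eq q hq]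
        module
      rw [e3, e4]
      unfold chaseA_F chaseA_G chaseA_psi
      simp only [map_add, map_smul, map_sub]
      split_ifs <;> module

private lemma chaseA_cone_open (δ : ℝ) : IsOpen (cone δ) := by
  have h1 : Continuous fun z : C3 => ‖z 1‖ ^ 2 + ‖z 2‖ ^ 2 := by fun_prop
  have h2 : Continuous fun z : C3 => δ * R2 z := by unfold R2; fun_prop
  exact isOpen_ne.inter (isOpen_lt h1 h2)

private lemma chaseA_R2 (z : C3) : R2 z = ‖z 0‖ ^ 2 + ‖z 1‖ ^ 2 + ‖z 2‖ ^ 2 := by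
  unfold R2; rw [Fin.sum_univ_three]

private lemma chaseA_cone_two (δ : ℝ) (z : C3) : (2 : ℂ) • z ∈ cone δ ↔ z ∈ cone δ := by
  have h : ∀ i, ‖((2 : ℂ) • z) i‖ ^ 2 = 4 * ‖z i‖ ^ 2 := by
    intro i
    have : ((2 : ℂ) • z) i = 2 * z i := rfl
    rw [this, norm_mul, Complex.norm_ofNat]; ring
  unfold cone
  simp only [Set.mem_ofPred_eq, chaseA_R2, h]
  constructor
  · rintro ⟨h1, h2⟩
    refine ⟨fun h0 => h1 (by rw [h0, smul_zero]), by linarith⟩
  · rintro ⟨h1, h2⟩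
    refine ⟨by simpa using h1, by linarith⟩

private lemma chaseA_cone_ne {δ : ℝ} (hδ : δ ≤ 1 / 4) {z : C3} (hz : z ∈ cone δ) :
    z 0 ≠ 0 := by
  intro h
  obtain ⟨h1, h2⟩ := hz
  rw [chaseA_R2, h, norm_zero] at h2
  nlinarith [sq_nonneg ‖z 1‖, sq_nonneg ‖z 2‖]

private lemma chaseA_cone_ball {δ ε r : ℝ} (hδ : δ ≤ 1 / 4) (hδ' : δ ≤ ε ^ 2 / 16) (hε : 0 < ε)
    (hr : r < ε) {z : C3} (hz : z ∈ cone δ) (h0 : z 0 ∈ Metric.closedBall (1 : ℂ) r)
    (hz0 : ‖z 0‖ < 3 / 2) : z ∈ Metric.ball e1 ε := by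
  obtain ⟨h1, h2⟩ := hz
  rw [chaseA_R2] at h2
  have n0 := norm_nonneg (z 0)
  have h3 : ‖z 0‖ ^ 2 < 9 / 4 := by nlinarith
  have hδ0 : 0 < δ := by
    by_contra hneg
    push Not at hneg
    nlinarith [sq_nonneg ‖z 1‖, sq_nonneg ‖z 2‖, sq_nonneg ‖z 0‖]
  have h4 : ‖z 1‖ ^ 2 + ‖z 2‖ ^ 2 < ε ^ 2 := by
    nlinarith [sq_nonneg ‖z 1‖, sq_nonneg ‖z 2‖, sq_nonneg ‖z 0‖]
  rw [Metric.mem_ball, dist_pi_lt_iff hε]
  intro i
  fin_cases i
  · change dist (z 0) (e1 0) < ε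
    have : e1 0 = 1 := by simp [e1]
    rw [this]
    exact lt_of_le_of_lt h0 hr
  · change dist (z 1) (e1 1) < ε
    have : e1 1 = 0 := by simp [e1]
    rw [this, dist_zero_right]
    exact lt_of_pow_lt_pow_left₀ 2 hε.le (by nlinarith [sq_nonneg ‖z 2‖])
  · change dist (z 2) (e1 2) < ε
    have : e1 2 = 0 := by simp [e1]
    rw [this, dist_zero_right]
    exact lt_of_pow_lt_pow_left₀ 2 hε.le (by nlinarith [sq_nonneg ‖z 1‖])

private lemma chaseA_ne_zpow {y : ℂ} (h1 : 3 / 4 ≤ ‖y‖) (h2 : ‖y‖ < 3 / 2) (hy : y ≠ 1) (k : ℤ) :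
    y ≠ (2 : ℂ) ^ k := by
  intro h
  have e1 : chaseA_n y = 0 := by
    apply chaseA_n_unique
    · simpa using h1
    · norm_num; linarith
  have hp : 0 < (2 : ℝ) ^ k := by positivity
  have hn : ‖y‖ = (2 : ℝ) ^ k := by rw [h, norm_zpow, Complex.norm_ofNat]
  have e2 : chaseA_n y = k := by
    apply chaseA_n_unique
    · rw [hn]; linarith
    · rw [hn, zpow_add_one₀ (by norm_num)]; linarith
  rw [← e2, e1, zpow_zero] at h
  exact hy h

end chaseA_aux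

theorem chaseA {P : C3 → (Fm m →L[ℂ] Fm m)} {E : Fin 3 → C3 → (Fm m →L[ℂ] Fm m)}
    (hPE : PE P E) (D : SecData P E) (s : ℝ) (hs : ∀ k : ℤ, 2 * s ≠ k) :
    ∃ (δ : ℝ) (f : C3 → Fm m) (g g' : Fin 3 → C3 → Fm m), 0 < δ ∧ δ < 1 ∧
      (∀ z ∈ cone δ, ContDiffAt ℝ ∞ f z) ∧
      (∀ j, ∀ z ∈ cone δ, ContDiffAt ℝ ∞ (g j) z) ∧
      (∀ j, ∀ z ∈ cone δ, ContDiffAt ℝ ∞ (g' j) z) ∧
      (∀ z ∈ cone δ, P z (f z) = f z) ∧
      (∀ j, ∀ z ∈ cone δ, P z (g j z) = g j z) ∧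
      (∀ j, ∀ z ∈ cone δ, P z (g' j z) = g' j z) ∧
      (∀ z ∈ cone δ, f ((2 : ℂ) • z) = (((2 : ℝ) ^ (2 * s) : ℝ) : ℂ) • f z) ∧
      (∀ j, ∀ z ∈ cone δ, g j ((2 : ℂ) • z) = (((2 : ℝ) ^ (2 * s - 2) : ℝ) : ℂ) • g j z) ∧
      (∀ j, ∀ z ∈ cone δ, g' j ((2 : ℂ) • z) = (((2 : ℝ) ^ (2 * s - 2) : ℝ) : ℂ) • g' j z) ∧
      (∀ j, ∀ z ∈ cone δ, dbar j f z = E j z (f z) + (z 1 • g j z + z 2 • g' j z)) ∧
      (∀ i : Fin 3, ∀ z ∈ cone δ, dbar (i + 1) (g (i + 2)) z - dbar (i + 2) (g (i + 1)) z =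
        E (i + 1) z (g (i + 2) z) - E (i + 2) z (g (i + 1) z)) ∧
      (∀ i : Fin 3, ∀ z ∈ cone δ, dbar (i + 1) (g' (i + 2)) z - dbar (i + 2) (g' (i + 1)) z =
        E (i + 1) z (g' (i + 2) z) - E (i + 2) z (g' (i + 1) z)) ∧
      ∃ t : ℂ, t ≠ 0 ∧ f (t • e1) ≠ 0 := by
  obtain ⟨θ, ϑ, hθs, hθa, hϑa, hϑθ, hϑ1⟩ := exists_theta (2 * s) hs
  have hε := D.ε_pos
  obtain ⟨r, hr0, hr8, hrε⟩ : ∃ r : ℝ, 0 < r ∧ r ≤ 1 / 8 ∧ r < D.ε :=
    ⟨min (1 / 8) (D.ε / 2), by positivity, min_le_left _ _,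
      lt_of_le_of_lt (min_le_right _ _) (by linarith)⟩
  obtain ⟨δ, hδ0, hδ4, hδε⟩ : ∃ δ : ℝ, 0 < δ ∧ δ ≤ 1 / 4 ∧ δ ≤ D.ε ^ 2 / 16 :=
    ⟨min (1 / 4) (D.ε ^ 2 / 16), by positivity, min_le_left _ _, min_le_right _ _⟩
  obtain ⟨b, hb, hb1, hb0⟩ : ∃ b : ℂ → ℂ, ContDiff ℝ ∞ b ∧
      (∀ y ∈ Metric.ball (1 : ℂ) (r / 2), b y = 1) ∧
      (∀ y, y ∉ Metric.closedBall (1 : ℂ) r → b y = 0) := by
    let bb : ContDiffBump (1 : ℂ) := ⟨r / 2, r, by positivity, by linarith⟩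
    refine ⟨fun y => ((bb y : ℝ) : ℂ), Complex.ofRealCLM.contDiff.comp bb.contDiff, ?_, ?_⟩
    · intro y hy
      have := bb.one_of_mem_closedBall (Metric.ball_subset_closedBall hy)
      simp only [this, Complex.ofReal_one]
    · intro y hy
      have h1 : r ≤ dist y 1 := by
        rw [Metric.mem_closedBall, not_le] at hy; exact hy.le
      have := bb.zero_of_le_dist h1
      simp only [this, Complex.ofReal_zero]
  set c : ℂ := (((2 : ℝ) ^ (2 * s) : ℝ) : ℂ) with hcdef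
  set c' : ℂ := (((2 : ℝ) ^ (2 * s - 2) : ℝ) : ℂ) with hc'def
  have hc0 : c ≠ 0 := by
    rw [hcdef]; exact_mod_cast (Real.rpow_pos_of_pos (by norm_num) _).ne'
  have hc'0 : c' ≠ 0 := by
    rw [hc'def]; exact_mod_cast (Real.rpow_pos_of_pos (by norm_num) _).ne'
  have hcc : c' * 4 = c := by
    rw [hcdef, hc'def, Real.rpow_sub (by norm_num)]
    norm_num
  have hcone : ∀ z ∈ cone δ, z 0 ≠ 0 := fun z hz => chaseA_cone_ne hδ4 hz
  have hb1' : b =ᶠ[𝓝 1] fun _ => 1 := by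
    filter_upwards [Metric.ball_mem_nhds (1 : ℂ) (half_pos hr0)] with y hy using hb1 y hy
  have hdb0 : ∀ y, y ∉ Metric.closedBall (1 : ℂ) r → chaseA_db b y = 0 := by
    intro y hy
    have : b =ᶠ[𝓝 y] fun _ => 0 := by
      filter_upwards [Metric.isClosed_closedBall.isOpen_compl.mem_nhds hy] with x hx using hb0 x hx
    rw [chaseA_db_congr this, chaseA_db_analytic analyticAt_const]
  set f : C3 → Fm m := chaseA_T c (chaseA_F θ ϑ b D.σ D.A) with hfdef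
  set g : Fin 3 → C3 → Fm m := fun j => chaseA_T c' (chaseA_G θ b D.B j) with hgdef
  set g' : Fin 3 → C3 → Fm m := fun j => chaseA_T c' (chaseA_G θ b D.C j) with hg'def
  have f_scale : ∀ z ∈ cone δ, f ((2 : ℂ) • z) = c • f z := fun z hz =>
    chaseA_T_scale hc0 _ (hcone z hz)
  have g_scale : ∀ j, ∀ z ∈ cone δ, g j ((2 : ℂ) • z) = c' • g j z := fun j z hz =>
    chaseA_T_scale hc'0 _ (hcone z hz)
  have g'_scale : ∀ j, ∀ z ∈ cone δ, g' j ((2 : ℂ) • z) = c' • g' j z := fun j z hz =>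
    chaseA_T_scale hc'0 _ (hcone z hz)
  have main : ∀ z ∈ cone δ, chaseA_Loc P E f g g' z := by
    intro z hz
    have hz0 := hcone z hz
    obtain ⟨n1, n2⟩ := chaseA_n_spec hz0
    set n := chaseA_n (z 0) with hn
    have hqc : ((2 : ℂ) ^ (-n)) • z ∈ cone δ :=
      (chaseA_iter (Φ := fun _ : C3 => (0 : ℂ)) one_ne_zero (chaseA_cone_two δ)
        (fun _ _ => by simp) (-n) z hz).1
    apply chaseA_Loc_scale hPE hcc hc0 (chaseA_cone_open δ) (fun z hz => hz.1)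
      (chaseA_cone_two δ) f_scale g_scale g'_scale (-n) hz
    set q : C3 := ((2 : ℂ) ^ (-n)) • z with hq
    have hq0 : q 0 = (2 : ℂ) ^ (-n) * z 0 := rfl
    have hp : 0 < (2 : ℝ) ^ n := by positivity
    have hqn : ‖q 0‖ = ((2 : ℝ) ^ n)⁻¹ * ‖z 0‖ := by
      rw [hq0, norm_mul, norm_zpow, Complex.norm_ofNat, zpow_neg]
    have q1 : 3 / 4 ≤ ‖q 0‖ := by
      rw [hqn, inv_mul_eq_div, le_div_iff₀ hp]; exact n1
    have q2 : ‖q 0‖ < 3 / 2 := by
      rw [hqn, inv_mul_eq_div, div_lt_iff₀ hp]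
      rw [zpow_add_one₀ (by norm_num)] at n2; linarith
    have hqz : q 0 ≠ 0 := hcone q hqc
    by_cases hqb : q 0 ∈ Metric.closedBall (1 : ℂ) r
    · have hd : dist (q 0) 1 ≤ r := hqb
      have q3 : 3 / 4 < ‖q 0‖ := by
        have h1 : ‖(1 : ℂ)‖ ≤ ‖q 0‖ + ‖1 - q 0‖ := by
          calc ‖(1 : ℂ)‖ = ‖q 0 + (1 - q 0)‖ := by ring_nf
            _ ≤ _ := norm_add_le _ _
        rw [norm_one, ← dist_eq_norm, dist_comm] at h1
        linarith
      have hq4 : q 0 ∈ Metric.ball (1 : ℂ) (1 / 4) := by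
        rw [Metric.mem_ball]; linarith
      refine chaseA_Loc_congr (chaseA_T_near _ q3 q2) (fun j => chaseA_T_near _ q3 q2)
        (fun j => chaseA_T_near _ q3 q2)
        (chaseA_Loc_B D (chaseA_cone_ball hδ4 hδε hε hrε hqc hqb q2) hqc.1 hb ?_
          (hϑa _ hq4) ?_ ?_)
      · by_cases h1 : q 0 = 1
        · right; rw [h1]; exact hb1'
        · left; exact hθa _ hqz (chaseA_ne_zpow q1 q2 h1)
      · filter_upwards [Metric.isOpen_ball.mem_nhds hq4] with y hy using hϑθ y hy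
      · intro h1; rw [h1]; exact hb1'
    · have hq1 : q 0 ≠ 1 := by
        rintro h1; apply hqb; rw [h1]; exact Metric.mem_closedBall_self hr0.le
      refine chaseA_Loc_congr (F := fun z => θ (z 0) • D.σ z) (G := fun _ _ => 0)
        (G' := fun _ _ => 0) ?_ ?_ ?_
        (chaseA_Loc_A D.σ_hol hqc.1 (hθa _ hqz (chaseA_ne_zpow q1 q2 hq1)))
      · refine chaseA_T_far hc0 hr8 ?_ ?_ q1 q2 hqb
        · intro z hz
          have hz' : z ≠ 0 := by rintro rfl; exact hz rfl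
          have e : ((2 : ℂ) • z) 0 = 2 * z 0 := rfl
          rw [e, hθs _ hz, D.σ_scale z hz', smul_smul]
        · intro z _ hz
          unfold chaseA_F
          rw [hb0 _ hz]; simp
      · intro j
        refine chaseA_T_far hc'0 hr8 (fun _ _ => by simp) ?_ q1 q2 hqb
        intro z _ hz
        unfold chaseA_G chaseA_psi
        rw [hdb0 _ hz]; simp
      · intro j
        refine chaseA_T_far hc'0 hr8 (fun _ _ => by simp) ?_ q1 q2 hqb
        intro z _ hz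
        unfold chaseA_G chaseA_psi
        rw [hdb0 _ hz]; simp
  refine ⟨δ, f, g, g', hδ0, by linarith, fun z hz => (main z hz).f_smooth,
    fun j z hz => (main z hz).g_smooth j, fun j z hz => (main z hz).g'_smooth j,
    fun z hz => (main z hz).f_proj, fun j z hz => (main z hz).g_proj j,
    fun j z hz => (main z hz).g'_proj j, f_scale, g_scale, g'_scale,
    fun j z hz => (main z hz).hf j, fun i z hz => (main z hz).hg i,
    fun i z hz => (main z hz).hg' i, ?_⟩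
  -- nonvanishing on the axis
  have hcont : Continuous fun t : ℂ => t • e1 := by fun_prop
  have h1 : ∀ᶠ t in 𝓝[≠] (1 : ℂ), t ∈ Metric.ball (1 : ℂ) (r / 2) :=
    nhdsWithin_le_nhds (Metric.ball_mem_nhds _ (half_pos hr0))
  have h2 : ∀ᶠ t in 𝓝[≠] (1 : ℂ), ϑ t ≠ 0 :=
    nhdsWithin_le_nhds ((hϑa 1 (Metric.mem_ball_self (by norm_num))).continuousAt.eventually_ne hϑ1)
  have h3 : ∀ᶠ t in 𝓝[≠] (1 : ℂ), t • e1 ∈ Metric.ball e1 D.ε := by
    apply nhdsWithin_le_nhds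
    have : (1 : ℂ) • e1 ∈ Metric.ball e1 D.ε := by
      rw [one_smul]; exact Metric.mem_ball_self hε
    exact hcont.continuousAt.eventually (Metric.isOpen_ball.mem_nhds this)
  obtain ⟨t, ht1, ht2, ht3, ht4⟩ := (h1.and (h2.and (h3.and D.σ_ne))).exists
  have hd : dist t 1 < r / 2 := ht1
  have hn1 : ‖t‖ < 9 / 8 := by
    have : ‖t‖ ≤ ‖t - 1‖ + ‖(1 : ℂ)‖ := by
      calc ‖t‖ = ‖(t - 1) + 1‖ := by ring_nf
        _ ≤ _ := norm_add_le _ _
    rw [norm_one, ← dist_eq_norm] at this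
    linarith
  have hn2 : 7 / 8 < ‖t‖ := by
    have : ‖(1 : ℂ)‖ ≤ ‖t‖ + ‖1 - t‖ := by
      calc ‖(1 : ℂ)‖ = ‖t + (1 - t)‖ := by ring_nf
        _ ≤ _ := norm_add_le _ _
    rw [norm_one, ← dist_eq_norm, dist_comm] at this
    linarith
  have ht0 : t ≠ 0 := by rintro rfl; rw [norm_zero] at hn2; linarith
  refine ⟨t, ht0, ?_⟩
  have e0 : (t • e1) 0 = t := by simp [e1]
  have e1' : (t • e1) 1 = 0 := by simp [e1]
  have e2' : (t • e1) 2 = 0 := by simp [e1]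
  have hfT : f (t • e1) = chaseA_F θ ϑ b D.σ D.A (t • e1) := by
    apply chaseA_T_zero
    rw [e0]
    apply chaseA_n_unique
    · norm_num; linarith
    · norm_num; linarith
  have hA : D.A (t • e1) ≠ 0 := by
    intro hA
    apply ht4
    rw [D.σ_eq _ ht3, hA, e1', e2']
    simp
  rw [hfT]
  unfold chaseA_F
  rw [e0, hb1 t ht1]
  simp only [one_smul, add_sub_cancel]
  exact smul_ne_zero ht2 hA

end Pool.Agent.HopfEmb
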