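import Pool.Agent.Lib.MP_d404b9_ag.ChaseA

/-!
# JOB CHASE-B: cutting off (division by the Koszul complex)

Input: `f, g, g'` on `cone δ` as in `chaseA`. Let `q = (|z_1|² + |z_2|²)/|z|²` (smooth, `2`-periodic on
`ℂ³ ∖ 0`), `χ = χ₀(q)` with `χ₀ = 1` on `(-∞, δ/3]`, `χ₀ = 0` on `[2δ/3, ∞)`, and put on `ℂ³ ∖ 0`
(extension by zero outside the cone), with `ρ² = |z_1|² + |z_2|²`, `α = conj z_1/ρ²`,
`α' = conj z_2/ρ²`, `β = (conj z_2 dz̄_1 - conj z_1 dz̄_2)/ρ⁴` (all smooth where `∂̄χ ≠ 0`):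
* `f₁ = χ f`, `G = χ g + α ∂̄χ f`, `G' = χ g' + α' ∂̄χ f`,
* `h = ∂̄χ ∧ (α' g - α g') + β ∧ ∂̄χ f`, i.e. with `(a ∧ b)_i = a_{i+1} b_{i+2} - a_{i+2} b_{i+1}`.
Then, with `D = ∂̄ - E`: `D f₁ = ∂̄χ f + χ (z_1 g + z_2 g') = z_1 G + z_2 G'` as `α z_1 + α' z_2 = 1`.
`∂̄α = z_2 β`, `∂̄α' = - z_1 β`, `∂̄β = 0`, `D g = D g' = 0`, `D f = z_1 g + z_2 g'` give
`D G = ∂̄χ ∧ g + ∂̄α ∧ ∂̄χ f - α ∂̄χ ∧ (z_1 g + z_2 g') = z_2 h`, `D G' = - z_1 h`, `D h = 0`.
(`D h = 0` also follows from `z_2 D h = D D G = 0`, `z_1 D h = 0` and continuity.)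
-/

set_option autoImplicit false

open Complex Filter Topology
open scoped ContDiff ComplexConjugate

namespace Pool.Agent.HopfEmb

variable {m : ℕ}

section ChaseB_tools

variable {G : Type*} [NormedAddCommGroup G] [NormedSpace ℂ G]

private theorem ChaseB_congr {f g : C3 → G} {z : C3} (h : f =ᶠ[𝓝 z] g) (j : Fin 3) :
    dbar j f z = dbar j g z := by
  unfold dbar
  rw [h.fderiv_eq]

private theorem ChaseB_of_hasFDerivAt {f : C3 → G} {z : C3} {L : C3 →L[ℝ] G}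
    (h : HasFDerivAt f L z) (j : Fin 3) :
    dbar j f z = (1 / 2 : ℂ) • (L (Pi.single j 1) + I • L (Pi.single j I)) := by
  unfold dbar
  rw [h.fderiv]

private theorem ChaseB_smul {c : C3 → ℂ} {u : C3 → G} {z : C3} (hc : DifferentiableAt ℝ c z)
    (hu : DifferentiableAt ℝ u z) (j : Fin 3) :
    dbar j (fun y => c y • u y) z = dbar j c z • u z + c z • dbar j u z := by
  refine (ChaseB_of_hasFDerivAt (hc.hasFDerivAt.smul hu.hasFDerivAt) j).trans ?_
  unfold dbar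
  simp only [add_apply, smul_apply,
    ContinuousLinearMap.smulRight_apply, smul_eq_mul]
  module

private theorem ChaseB_add {f g : C3 → G} {z : C3} (hf : DifferentiableAt ℝ f z)
    (hg : DifferentiableAt ℝ g z) (j : Fin 3) :
    dbar j (fun y => f y + g y) z = dbar j f z + dbar j g z := by
  refine (ChaseB_of_hasFDerivAt (hf.hasFDerivAt.add hg.hasFDerivAt) j).trans ?_
  unfold dbar
  simp only [add_apply]
  module

private theorem ChaseB_sub {f g : C3 → G} {z : C3} (hf : DifferentiableAt ℝ f z)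
    (hg : DifferentiableAt ℝ g z) (j : Fin 3) :
    dbar j (fun y => f y - g y) z = dbar j f z - dbar j g z := by
  refine (ChaseB_of_hasFDerivAt (hf.hasFDerivAt.sub hg.hasFDerivAt) j).trans ?_
  unfold dbar
  simp only [sub_apply]
  module

private theorem ChaseB_mul {c u : C3 → ℂ} {z : C3} (hc : DifferentiableAt ℝ c z)
    (hu : DifferentiableAt ℝ u z) (j : Fin 3) :
    dbar j (fun y => c y * u y) z = dbar j c z * u z + c z * dbar j u z :=
  ChaseB_smul hc hu j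

private theorem ChaseB_const (c : G) {z : C3} (j : Fin 3) :
    dbar j (fun _ => c) z = 0 := by
  rw [ChaseB_of_hasFDerivAt (hasFDerivAt_const c z) j]
  simp

private theorem ChaseB_coord (i j : Fin 3) {z : C3} :
    dbar j (fun y : C3 => y i) z = 0 := by
  have h : HasFDerivAt (fun y : C3 => y i) (ContinuousLinearMap.proj (R := ℝ) (φ := fun _ : Fin 3 => ℂ) i) z :=
    (ContinuousLinearMap.proj (R := ℝ) (φ := fun _ : Fin 3 => ℂ) i).hasFDerivAt
  rw [ChaseB_of_hasFDerivAt h j]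
  simp only [ContinuousLinearMap.proj_apply]
  by_cases hij : i = j
  · subst hij; simp
  · simp [Pi.single_eq_of_ne hij]

private theorem ChaseB_conj (i j : Fin 3) {z : C3} :
    dbar j (fun y : C3 => conj (y i)) z = if i = j then 1 else 0 := by
  have h : HasFDerivAt (fun y : C3 => conj (y i))
      ((Complex.conjCLE : ℂ →L[ℝ] ℂ).comp
        (ContinuousLinearMap.proj (R := ℝ) (φ := fun _ : Fin 3 => ℂ) i)) z :=
    ((Complex.conjCLE : ℂ →L[ℝ] ℂ).comp
        (ContinuousLinearMap.proj (R := ℝ) (φ := fun _ : Fin 3 => ℂ) i)).hasFDerivAt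
  rw [ChaseB_of_hasFDerivAt h j]
  simp only [ContinuousLinearMap.comp_apply, ContinuousLinearMap.proj_apply]
  by_cases hij : i = j
  · subst hij; simp; norm_num
  · simp [hij]

private theorem ChaseB_diff_coord (i : Fin 3) {z : C3} :
    DifferentiableAt ℝ (fun y : C3 => y i) z :=
  (ContinuousLinearMap.proj (R := ℝ) (φ := fun _ : Fin 3 => ℂ) i).differentiableAt

private theorem ChaseB_contDiff_coord (i : Fin 3) : ContDiff ℝ ∞ (fun y : C3 => y i) :=
  (ContinuousLinearMap.proj (R := ℝ) (φ := fun _ : Fin 3 => ℂ) i).contDiff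

private theorem ChaseB_contDiff_conj (i : Fin 3) : ContDiff ℝ ∞ (fun y : C3 => conj (y i)) :=
  ((Complex.conjCLE : ℂ →L[ℝ] ℂ).comp
        (ContinuousLinearMap.proj (R := ℝ) (φ := fun _ : Fin 3 => ℂ) i)).contDiff

private theorem ChaseB_inv {c : C3 → ℂ} {z : C3} (hc : DifferentiableAt ℝ c z) (h0 : c z ≠ 0)
    (j : Fin 3) : dbar j (fun y => (c y)⁻¹) z = - dbar j c z / (c z) ^ 2 := by
  have h1 : DifferentiableAt ℝ (fun y => (c y)⁻¹) z := hc.inv h0
  have h2 : (fun y => c y * (c y)⁻¹) =ᶠ[𝓝 z] fun _ => (1 : ℂ) := by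
    filter_upwards [hc.continuousAt.eventually_ne h0] with y hy
    exact mul_inv_cancel₀ hy
  have h3 := ChaseB_congr h2 j
  rw [ChaseB_mul hc h1, ChaseB_const] at h3
  field_simp at h3 ⊢
  linear_combination h3

private theorem ChaseB_contDiffAt {f : C3 → G} {z : C3} (hf : ContDiffAt ℝ ∞ f z) (j : Fin 3) :
    ContDiffAt ℝ ∞ (dbar j f) z := by
  have h1 : ContDiffAt ℝ ∞ (fderiv ℝ f) z := hf.fderiv_right (m := ∞) (by simp)
  unfold dbar
  have h2 : ∀ v : C3, ContDiffAt ℝ ∞ (fun y => fderiv ℝ f y v) z := fun v =>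
    h1.clm_apply contDiffAt_const
  exact ((h2 _).add ((h2 _).const_smul I)).const_smul (1 / 2 : ℂ)

private theorem ChaseB_comm {f : C3 → G} {z : C3} (hf : ContDiffAt ℝ ∞ f z) (j k : Fin 3) :
    dbar k (dbar j f) z = dbar j (dbar k f) z := by
  have h1 : ContDiffAt ℝ ∞ (fderiv ℝ f) z := hf.fderiv_right (m := ∞) (by simp)
  have h1d : HasFDerivAt (fderiv ℝ f) (fderiv ℝ (fderiv ℝ f) z) z :=
    (h1.differentiableAt (by simp)).hasFDerivAt
  have hsym : IsSymmSndFDerivAt ℝ f z := by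
    apply hf.isSymmSndFDerivAt
    simp only [minSmoothness_of_isRCLikeNormedField]
    exact WithTop.coe_le_coe.2 (OrderTop.le_top _)
  have key : ∀ (v v' : C3) , HasFDerivAt (fun y => (1 / 2 : ℂ) • (fderiv ℝ f y v + I • fderiv ℝ f y v'))
      ((1 / 2 : ℂ) • ((ContinuousLinearMap.apply ℝ G v).comp (fderiv ℝ (fderiv ℝ f) z) +
        I • (ContinuousLinearMap.apply ℝ G v').comp (fderiv ℝ (fderiv ℝ f) z))) z := by
    intro v v'
    have a1 : HasFDerivAt (fun y => fderiv ℝ f y v)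
      ((ContinuousLinearMap.apply ℝ G v).comp (fderiv ℝ (fderiv ℝ f) z)) z :=
      (ContinuousLinearMap.apply ℝ G v).hasFDerivAt.comp z h1d
    have a2 : HasFDerivAt (fun y => fderiv ℝ f y v')
      ((ContinuousLinearMap.apply ℝ G v').comp (fderiv ℝ (fderiv ℝ f) z)) z :=
      (ContinuousLinearMap.apply ℝ G v').hasFDerivAt.comp z h1d
    exact (a1.add (a2.const_smul I)).const_smul (1 / 2 : ℂ)
  refine (ChaseB_of_hasFDerivAt (key (Pi.single j 1) (Pi.single j I)) k).trans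
    (Eq.trans ?_ (ChaseB_of_hasFDerivAt (key (Pi.single k 1) (Pi.single k I)) j).symm)
  simp only [smul_apply, add_apply,
    ContinuousLinearMap.comp_apply, ContinuousLinearMap.apply_apply]
  rw [hsym (Pi.single k 1) (Pi.single j 1), hsym (Pi.single k 1) (Pi.single j I),
    hsym (Pi.single k I) (Pi.single j 1), hsym (Pi.single k I) (Pi.single j I)]
  module

private theorem ChaseB_scale {f : C3 → G} {c : ℂ} {z : C3} (hz : z ≠ 0)
    (hf : DifferentiableAt ℝ f ((2 : ℂ) • z)) (hf' : DifferentiableAt ℝ f z)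
    (h : ∀ y : C3, y ≠ 0 → f ((2 : ℂ) • y) = c • f y) (j : Fin 3) :
    dbar j f ((2 : ℂ) • z) = (c / 2) • dbar j f z := by
  have e1 : ∀ v : C3, (2 : ℂ) • v = (2 : ℝ) • v := by
    intro v; ext i; simp
  have h2 : HasFDerivAt (fun y : C3 => (2 : ℂ) • y)
      ((2 : ℝ) • ContinuousLinearMap.id ℝ C3) z := by
    have := (hasFDerivAt_id (𝕜 := ℝ) z).const_smul (2 : ℝ)
    refine this.congr_of_eventuallyEq (Eventually.of_forall fun y => ?_)
    simp [e1]
  have h1 : HasFDerivAt (fun y => f ((2 : ℂ) • y))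
      ((fderiv ℝ f ((2 : ℂ) • z)).comp ((2 : ℝ) • ContinuousLinearMap.id ℝ C3)) z :=
    HasFDerivAt.comp z hf.hasFDerivAt h2
  have hne : ∀ᶠ y : C3 in 𝓝 z, y ≠ 0 := eventually_ne_nhds hz
  have h3 : (fun y => f ((2 : ℂ) • y)) =ᶠ[𝓝 z] fun y => c • f y := by
    filter_upwards [hne] with y hy using h y hy
  have h4 := h1.congr_of_eventuallyEq h3.symm
  have h5 := h4.unique (hf'.hasFDerivAt.const_smul c)
  have h6 : ∀ v : C3, (2 : ℂ) • fderiv ℝ f ((2 : ℂ) • z) v = c • fderiv ℝ f z v := by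
    intro v
    have := congrArg (fun L : C3 →L[ℝ] G => L v) h5
    simp only [ContinuousLinearMap.comp_apply, smul_apply,
      ContinuousLinearMap.id_apply, map_smul] at this
    rw [← this]
    norm_num [← Complex.coe_smul]
  have h7 : ∀ v : C3, fderiv ℝ f ((2 : ℂ) • z) v = (c / 2) • fderiv ℝ f z v := by
    intro v
    have := congrArg (fun x : G => (1 / 2 : ℂ) • x) (h6 v)
    simp only [smul_smul] at this
    rw [show (1 / 2 * 2 : ℂ) = 1 by norm_num, one_smul] at this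
    rw [this]; congr 1; ring
  unfold dbar
  rw [h7, h7]
  module

end ChaseB_tools

/-! ### The cutoff and the Koszul functions -/

private noncomputable def ChaseB_q (z : C3) : ℝ := (‖z 1‖ ^ 2 + ‖z 2‖ ^ 2) / R2 z

private noncomputable def ChaseB_X (δ : ℝ) (z : C3) : ℂ :=
  ((Real.smoothTransition (2 - 3 / δ * ChaseB_q z) : ℝ) : ℂ)

private noncomputable def ChaseB_a (δ : ℝ) (j : Fin 3) (z : C3) : ℂ := dbar j (ChaseB_X δ) z

private noncomputable def ChaseB_rho (z : C3) : ℂ := z 1 * conj (z 1) + z 2 * conj (z 2)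

private noncomputable def ChaseB_al (z : C3) : ℂ := conj (z 1) * (ChaseB_rho z)⁻¹

private noncomputable def ChaseB_al' (z : C3) : ℂ := conj (z 2) * (ChaseB_rho z)⁻¹

private noncomputable def ChaseB_be (j : Fin 3) (z : C3) : ℂ :=
  (if j = 1 then conj (z 2) else if j = 2 then - conj (z 1) else 0) *
    ((ChaseB_rho z)⁻¹ * (ChaseB_rho z)⁻¹)

private theorem ChaseB_R2_pos {z : C3} (hz : z ≠ 0) : 0 < R2 z := by
  unfold R2
  obtain ⟨i, hi⟩ : ∃ i, z i ≠ 0 := by
    by_contra h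
    push Not at h
    exact hz (funext h)
  exact Finset.sum_pos' (fun i _ => by positivity) ⟨i, Finset.mem_univ i, by positivity⟩

private theorem ChaseB_R2_contDiff : ContDiff ℝ ∞ R2 := by
  unfold R2
  exact ContDiff.sum fun i _ => (ChaseB_contDiff_coord i).norm_sq ℝ

private theorem ChaseB_q_contDiffAt {z : C3} (hz : z ≠ 0) : ContDiffAt ℝ ∞ ChaseB_q z := by
  unfold ChaseB_q
  exact ((((ChaseB_contDiff_coord 1).norm_sq ℝ).add
    ((ChaseB_contDiff_coord 2).norm_sq ℝ)).contDiffAt).div ChaseB_R2_contDiff.contDiffAt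
    (ChaseB_R2_pos hz).ne'

private theorem ChaseB_q_scale (z : C3) : ChaseB_q ((2 : ℂ) • z) = ChaseB_q z := by
  have h : R2 ((2 : ℂ) • z) = 4 * R2 z := by
    unfold R2
    rw [Finset.mul_sum]
    refine Finset.sum_congr rfl fun i _ => ?_
    simp only [Pi.smul_apply, smul_eq_mul, norm_mul, mul_pow]
    norm_num
  unfold ChaseB_q
  rw [h]
  simp only [Pi.smul_apply, smul_eq_mul, norm_mul, mul_pow, ← mul_add]
  rw [show ‖(2 : ℂ)‖ ^ 2 = 4 by norm_num]
  rw [mul_div_mul_left _ _ (by norm_num : (4 : ℝ) ≠ 0)]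

private theorem ChaseB_X_contDiffAt (δ : ℝ) {z : C3} (hz : z ≠ 0) :
    ContDiffAt ℝ ∞ (ChaseB_X δ) z := by
  unfold ChaseB_X
  have h1 : ContDiffAt ℝ ∞ (fun z => 2 - 3 / δ * ChaseB_q z) z :=
    contDiffAt_const.sub (contDiffAt_const.mul (ChaseB_q_contDiffAt hz))
  have h2 : ContDiffAt ℝ ∞ (fun z => Real.smoothTransition (2 - 3 / δ * ChaseB_q z)) z :=
    (Real.smoothTransition.contDiff.contDiffAt).comp z h1
  exact Complex.ofRealCLM.contDiff.contDiffAt.comp z h2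

private theorem ChaseB_X_scale (δ : ℝ) (z : C3) : ChaseB_X δ ((2 : ℂ) • z) = ChaseB_X δ z := by
  unfold ChaseB_X; rw [ChaseB_q_scale]

private theorem ChaseB_X_one {δ : ℝ} (hδ : 0 < δ) {z : C3} (h : ChaseB_q z ≤ δ / 3) :
    ChaseB_X δ z = 1 := by
  unfold ChaseB_X
  rw [Real.smoothTransition.one_of_one_le]
  · simp
  · have : 3 / δ * ChaseB_q z ≤ 3 / δ * (δ / 3) := by gcongr
    have h2 : 3 / δ * (δ / 3) = 1 := by field_simp
    linarith

private theorem ChaseB_X_zero {δ : ℝ} (hδ : 0 < δ) {z : C3} (h : 2 * δ / 3 ≤ ChaseB_q z) :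
    ChaseB_X δ z = 0 := by
  unfold ChaseB_X
  rw [Real.smoothTransition.zero_of_nonpos]
  · simp
  · have : 3 / δ * (2 * δ / 3) ≤ 3 / δ * ChaseB_q z := by gcongr
    have h2 : 3 / δ * (2 * δ / 3) = 2 := by field_simp
    linarith

private theorem ChaseB_X_ev_one {δ : ℝ} (hδ : 0 < δ) {z : C3} (hz : z ≠ 0)
    (h : ChaseB_q z < δ / 3) : ChaseB_X δ =ᶠ[𝓝 z] fun _ => 1 := by
  filter_upwards [(ChaseB_q_contDiffAt hz).continuousAt.eventually_lt_const h] with y hy
  exact ChaseB_X_one hδ hy.le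

private theorem ChaseB_X_ev_zero {δ : ℝ} (hδ : 0 < δ) {z : C3} (hz : z ≠ 0)
    (h : 2 * δ / 3 < ChaseB_q z) : ChaseB_X δ =ᶠ[𝓝 z] fun _ => 0 := by
  filter_upwards [(ChaseB_q_contDiffAt hz).continuousAt.eventually_const_lt h] with y hy
  exact ChaseB_X_zero hδ hy.le

private theorem ChaseB_a_ev_one {δ : ℝ} (hδ : 0 < δ) {z : C3} (hz : z ≠ 0)
    (h : ChaseB_q z < δ / 3) (j : Fin 3) : ChaseB_a δ j =ᶠ[𝓝 z] fun _ => 0 := by
  filter_upwards [(ChaseB_X_ev_one hδ hz h).eventuallyEq_nhds] with y hy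
  unfold ChaseB_a
  rw [ChaseB_congr hy, ChaseB_const]

private theorem ChaseB_a_ev_zero {δ : ℝ} (hδ : 0 < δ) {z : C3} (hz : z ≠ 0)
    (h : 2 * δ / 3 < ChaseB_q z) (j : Fin 3) : ChaseB_a δ j =ᶠ[𝓝 z] fun _ => 0 := by
  filter_upwards [(ChaseB_X_ev_zero hδ hz h).eventuallyEq_nhds] with y hy
  unfold ChaseB_a
  rw [ChaseB_congr hy, ChaseB_const]

private theorem ChaseB_a_contDiffAt (δ : ℝ) (j : Fin 3) {z : C3} (hz : z ≠ 0) :
    ContDiffAt ℝ ∞ (ChaseB_a δ j) z :=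
  ChaseB_contDiffAt (ChaseB_X_contDiffAt δ hz) j

private theorem ChaseB_a_comm (δ : ℝ) (j k : Fin 3) {z : C3} (hz : z ≠ 0) :
    dbar k (ChaseB_a δ j) z = dbar j (ChaseB_a δ k) z :=
  ChaseB_comm (ChaseB_X_contDiffAt δ hz) j k

private theorem ChaseB_two_ne {z : C3} (hz : z ≠ 0) : (2 : ℂ) • z ≠ 0 :=
  smul_ne_zero two_ne_zero hz

private theorem ChaseB_a_scale (δ : ℝ) (j : Fin 3) {z : C3} (hz : z ≠ 0) :
    ChaseB_a δ j ((2 : ℂ) • z) = (1 / 2 : ℂ) * ChaseB_a δ j z := by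
  unfold ChaseB_a
  rw [ChaseB_scale (c := 1) hz
    ((ChaseB_X_contDiffAt δ (ChaseB_two_ne hz)).differentiableAt (by simp))
    ((ChaseB_X_contDiffAt δ hz).differentiableAt (by simp))
    (fun y _ => by rw [ChaseB_X_scale, one_smul]) j, smul_eq_mul]

private theorem ChaseB_rho_contDiff : ContDiff ℝ ∞ ChaseB_rho := by
  unfold ChaseB_rho
  exact ((ChaseB_contDiff_coord 1).mul (ChaseB_contDiff_conj 1)).add
    ((ChaseB_contDiff_coord 2).mul (ChaseB_contDiff_conj 2))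

private theorem ChaseB_rho_eq (z : C3) : ChaseB_rho z = ((‖z 1‖ ^ 2 + ‖z 2‖ ^ 2 : ℝ) : ℂ) := by
  unfold ChaseB_rho
  rw [Complex.mul_conj, Complex.mul_conj, Complex.normSq_eq_norm_sq, Complex.normSq_eq_norm_sq]
  push_cast; rfl

private theorem ChaseB_rho_ne {z : C3} (h : 0 < ChaseB_q z) : ChaseB_rho z ≠ 0 := by
  rw [ChaseB_rho_eq]
  intro h0
  have h1 : ‖z 1‖ ^ 2 + ‖z 2‖ ^ 2 = 0 := by exact_mod_cast h0
  unfold ChaseB_q at h
  rw [h1] at h
  simp at h

private theorem ChaseB_dbar_rho (j : Fin 3) (z : C3) :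
    dbar j ChaseB_rho z = (if (1 : Fin 3) = j then z 1 else 0) + (if (2 : Fin 3) = j then z 2 else 0) := by
  have d1 := (ChaseB_contDiff_coord 1).differentiable (by simp) z
  have d2 := (ChaseB_contDiff_coord 2).differentiable (by simp) z
  have c1 := (ChaseB_contDiff_conj 1).differentiable (by simp) z
  have c2 := (ChaseB_contDiff_conj 2).differentiable (by simp) z
  have p1 : DifferentiableAt ℝ (fun y : C3 => y 1 * conj (y 1)) z := d1.mul c1
  have p2 : DifferentiableAt ℝ (fun y : C3 => y 2 * conj (y 2)) z := d2.mul c2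
  unfold ChaseB_rho
  rw [ChaseB_add p1 p2, ChaseB_mul d1 c1, ChaseB_mul d2 c2, ChaseB_coord,
    ChaseB_coord, ChaseB_conj, ChaseB_conj]
  simp

private theorem ChaseB_inv_diff {z : C3} (h : ChaseB_rho z ≠ 0) :
    ContDiffAt ℝ ∞ (fun y => (ChaseB_rho y)⁻¹) z :=
  ChaseB_rho_contDiff.contDiffAt.inv h

private theorem ChaseB_dbar_inv {z : C3} (h : ChaseB_rho z ≠ 0) (j : Fin 3) :
    dbar j (fun y => (ChaseB_rho y)⁻¹) z =
      - ((if (1 : Fin 3) = j then z 1 else 0) + (if (2 : Fin 3) = j then z 2 else 0)) /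
        (ChaseB_rho z) ^ 2 := by
  rw [ChaseB_inv (ChaseB_rho_contDiff.differentiable (by simp) z) h, ChaseB_dbar_rho]

private theorem ChaseB_al_contDiffAt {z : C3} (h : ChaseB_rho z ≠ 0) :
    ContDiffAt ℝ ∞ ChaseB_al z :=
  (ChaseB_contDiff_conj 1).contDiffAt.mul (ChaseB_inv_diff h)

private theorem ChaseB_al'_contDiffAt {z : C3} (h : ChaseB_rho z ≠ 0) :
    ContDiffAt ℝ ∞ ChaseB_al' z :=
  (ChaseB_contDiff_conj 2).contDiffAt.mul (ChaseB_inv_diff h)

private theorem ChaseB_num_contDiff (j : Fin 3) : ContDiff ℝ ∞ (fun z : C3 =>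
    (if j = 1 then conj (z 2) else if j = 2 then - conj (z 1) else 0)) := by
  by_cases h1 : j = 1
  · simp only [h1, if_true]; exact ChaseB_contDiff_conj 2
  · by_cases h2 : j = 2
    · simp only [h2, if_true]; exact (ChaseB_contDiff_conj 1).neg
    · simp only [h1, h2, if_false]; exact contDiff_const

private theorem ChaseB_be_contDiffAt (j : Fin 3) {z : C3} (h : ChaseB_rho z ≠ 0) :
    ContDiffAt ℝ ∞ (ChaseB_be j) z := by
  unfold ChaseB_be
  exact (ChaseB_num_contDiff j).contDiffAt.mul ((ChaseB_inv_diff h).mul (ChaseB_inv_diff h))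

private theorem ChaseB_koszul {z : C3} (h : ChaseB_rho z ≠ 0) :
    z 1 * ChaseB_al z + z 2 * ChaseB_al' z = 1 := by
  unfold ChaseB_al ChaseB_al'
  field_simp
  unfold ChaseB_rho
  ring

private theorem ChaseB_dbar_al {z : C3} (h : ChaseB_rho z ≠ 0) (j : Fin 3) :
    dbar j ChaseB_al z = z 2 * ChaseB_be j z := by
  have c1 := (ChaseB_contDiff_conj 1).differentiable (by simp) z
  have hi := (ChaseB_inv_diff h).differentiableAt (by simp)
  unfold ChaseB_al
  rw [ChaseB_mul c1 hi, ChaseB_conj, ChaseB_dbar_inv h]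
  unfold ChaseB_be
  fin_cases j <;> simp <;> field_simp <;> (unfold ChaseB_rho; ring)

private theorem ChaseB_dbar_al' {z : C3} (h : ChaseB_rho z ≠ 0) (j : Fin 3) :
    dbar j ChaseB_al' z = - z 1 * ChaseB_be j z := by
  have c1 := (ChaseB_contDiff_conj 2).differentiable (by simp) z
  have hi := (ChaseB_inv_diff h).differentiableAt (by simp)
  unfold ChaseB_al'
  rw [ChaseB_mul c1 hi, ChaseB_conj, ChaseB_dbar_inv h]
  unfold ChaseB_be
  fin_cases j <;> simp <;> field_simp <;> (unfold ChaseB_rho; ring)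

private theorem ChaseB_be_comm {z : C3} (h : ChaseB_rho z ≠ 0) (i : Fin 3) :
    dbar (i + 1) (ChaseB_be (i + 2)) z = dbar (i + 2) (ChaseB_be (i + 1)) z := by
  have c1 := (ChaseB_contDiff_conj 1).differentiable (by simp) z
  have c2 := (ChaseB_contDiff_conj 2).differentiable (by simp) z
  have hi := (ChaseB_inv_diff h).differentiableAt (by simp)
  have key : ∀ j k : Fin 3, dbar k (ChaseB_be j) z =
    (if j = 1 then (if (2 : Fin 3) = k then (1 : ℂ) else 0) else if j = 2 then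
      - (if (1 : Fin 3) = k then (1 : ℂ) else 0) else 0) *
      ((ChaseB_rho z)⁻¹ * (ChaseB_rho z)⁻¹) +
    (if j = 1 then conj (z 2) else if j = 2 then - conj (z 1) else 0) *
      (2 * (ChaseB_rho z)⁻¹ * (- ((if (1 : Fin 3) = k then z 1 else 0) +
        (if (2 : Fin 3) = k then z 2 else 0)) / (ChaseB_rho z) ^ 2)) := by
    intro j k
    have hii : DifferentiableAt ℝ (fun y => (ChaseB_rho y)⁻¹ * (ChaseB_rho y)⁻¹) z := hi.mul hi
    unfold ChaseB_be
    rw [ChaseB_mul ((ChaseB_num_contDiff j).differentiable (by simp) z) hii,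
      ChaseB_mul hi hi, ChaseB_dbar_inv h]
    have e : dbar k (fun y : C3 =>
        (if j = 1 then conj (y 2) else if j = 2 then - conj (y 1) else 0)) z =
        (if j = 1 then (if (2 : Fin 3) = k then (1 : ℂ) else 0) else if j = 2 then
      - (if (1 : Fin 3) = k then (1 : ℂ) else 0) else 0) := by
      by_cases h1 : j = 1
      · simp only [h1, if_true]; exact ChaseB_conj 2 k
      · by_cases h2 : j = 2
        · simp only [h2, if_true]
          have := ChaseB_smul (z := z) (c := fun _ => (-1 : ℂ)) (differentiableAt_const _) c1 k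
          simp only [neg_smul, one_smul, ChaseB_const, ChaseB_conj] at this
          simpa using this
        · simp only [h1, h2, if_false]; exact ChaseB_const _ k
    rw [e]
    ring
  rw [key, key]
  fin_cases i <;> simp <;> field_simp <;> unfold ChaseB_rho <;> ring

private theorem ChaseB_cone_iff {δ : ℝ} {z : C3} (hz : z ≠ 0) : z ∈ cone δ ↔ ChaseB_q z < δ := by
  unfold cone ChaseB_q
  rw [div_lt_iff₀ (ChaseB_R2_pos hz)]
  simp [hz]

private theorem ChaseB_cone_ev {δ : ℝ} {z : C3} (hz : z ∈ cone δ) : ∀ᶠ y in 𝓝 z, y ∈ cone δ := by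
  have hz0 : z ≠ 0 := hz.1
  filter_upwards [(ChaseB_q_contDiffAt hz0).continuousAt.eventually_lt_const
    ((ChaseB_cone_iff hz0).1 hz), eventually_ne_nhds hz0] with y hy hy0
  exact (ChaseB_cone_iff hy0).2 hy

private theorem ChaseB_cone_scale {δ : ℝ} {z : C3} (hz : z ≠ 0) :
    (2 : ℂ) • z ∈ cone δ ↔ z ∈ cone δ := by
  rw [ChaseB_cone_iff hz, ChaseB_cone_iff (ChaseB_two_ne hz), ChaseB_q_scale]

private theorem ChaseB_a_zero {δ : ℝ} (hδ : 0 < δ) {z : C3} (hz : z ≠ 0) (h : z ∉ cone δ)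
    (j : Fin 3) : ChaseB_a δ j z = 0 := by
  have h1 : δ ≤ ChaseB_q z := by
    by_contra h2
    exact h ((ChaseB_cone_iff hz).2 (not_le.1 h2))
  exact (ChaseB_a_ev_zero hδ hz (by linarith) j).self_of_nhds

private theorem ChaseB_X_out {δ : ℝ} (hδ : 0 < δ) {z : C3} (hz : z ≠ 0) (h : z ∉ cone δ) :
    ChaseB_X δ z = 0 := by
  have h1 : δ ≤ ChaseB_q z := by
    by_contra h2
    exact h ((ChaseB_cone_iff hz).2 (not_le.1 h2))
  exact ChaseB_X_zero hδ (by linarith)

private theorem ChaseB_rho_scale (z : C3) : ChaseB_rho ((2 : ℂ) • z) = 4 * ChaseB_rho z := by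
  unfold ChaseB_rho
  simp only [Pi.smul_apply, smul_eq_mul, map_mul, Complex.conj_ofNat]
  ring

private theorem ChaseB_al_scale (z : C3) : ChaseB_al ((2 : ℂ) • z) = (1 / 2) * ChaseB_al z := by
  unfold ChaseB_al
  rw [ChaseB_rho_scale, mul_inv]
  simp only [Pi.smul_apply, smul_eq_mul, map_mul, Complex.conj_ofNat]
  ring

private theorem ChaseB_al'_scale (z : C3) : ChaseB_al' ((2 : ℂ) • z) = (1 / 2) * ChaseB_al' z := by
  unfold ChaseB_al'
  rw [ChaseB_rho_scale, mul_inv]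
  simp only [Pi.smul_apply, smul_eq_mul, map_mul, Complex.conj_ofNat]
  ring

private theorem ChaseB_be_scale (j : Fin 3) (z : C3) :
    ChaseB_be j ((2 : ℂ) • z) = (1 / 8) * ChaseB_be j z := by
  unfold ChaseB_be
  rw [ChaseB_rho_scale, mul_inv]
  simp only [Pi.smul_apply, smul_eq_mul, map_mul, Complex.conj_ofNat]
  split_ifs <;> ring

section main

variable (δ : ℝ) (f : C3 → Fm m) (g g' : Fin 3 → C3 → Fm m)

private noncomputable def ChaseB_f1 (z : C3) : Fm m := ChaseB_X δ z • f z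

private noncomputable def ChaseB_G (j : Fin 3) (z : C3) : Fm m :=
  ChaseB_X δ z • g j z + (ChaseB_al z * ChaseB_a δ j z) • f z

private noncomputable def ChaseB_G' (j : Fin 3) (z : C3) : Fm m :=
  ChaseB_X δ z • g' j z + (ChaseB_al' z * ChaseB_a δ j z) • f z

private noncomputable def ChaseB_u (j : Fin 3) (z : C3) : Fm m :=
  ChaseB_al' z • g j z - ChaseB_al z • g' j z

private noncomputable def ChaseB_b (i : Fin 3) (z : C3) : ℂ :=
  ChaseB_be (i + 1) z * ChaseB_a δ (i + 2) z - ChaseB_be (i + 2) z * ChaseB_a δ (i + 1) z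

private noncomputable def ChaseB_h (i : Fin 3) (z : C3) : Fm m :=
  (ChaseB_a δ (i + 1) z • ChaseB_u g g' (i + 2) z - ChaseB_a δ (i + 2) z • ChaseB_u g g' (i + 1) z)
    + ChaseB_b δ i z • f z

end main

theorem chaseB {P : C3 → (Fm m →L[ℂ] Fm m)} {E : Fin 3 → C3 → (Fm m →L[ℂ] Fm m)}
    (hPE : PE P E) (s : ℝ) {δ : ℝ} {f : C3 → Fm m} {g g' : Fin 3 → C3 → Fm m}
    (hδ : 0 < δ) (hδ1 : δ < 1)
    (f_smooth : ∀ z ∈ cone δ, ContDiffAt ℝ ∞ f z)
    (g_smooth : ∀ j, ∀ z ∈ cone δ, ContDiffAt ℝ ∞ (g j) z)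
    (g'_smooth : ∀ j, ∀ z ∈ cone δ, ContDiffAt ℝ ∞ (g' j) z)
    (f_proj : ∀ z ∈ cone δ, P z (f z) = f z)
    (g_proj : ∀ j, ∀ z ∈ cone δ, P z (g j z) = g j z)
    (g'_proj : ∀ j, ∀ z ∈ cone δ, P z (g' j z) = g' j z)
    (f_scale : ∀ z ∈ cone δ, f ((2 : ℂ) • z) = (((2 : ℝ) ^ (2 * s) : ℝ) : ℂ) • f z)
    (g_scale : ∀ j, ∀ z ∈ cone δ,
      g j ((2 : ℂ) • z) = (((2 : ℝ) ^ (2 * s - 2) : ℝ) : ℂ) • g j z)
    (g'_scale : ∀ j, ∀ z ∈ cone δ,
      g' j ((2 : ℂ) • z) = (((2 : ℝ) ^ (2 * s - 2) : ℝ) : ℂ) • g' j z)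
    (hf : ∀ j, ∀ z ∈ cone δ, dbar j f z = E j z (f z) + (z 1 • g j z + z 2 • g' j z))
    (hg : ∀ i : Fin 3, ∀ z ∈ cone δ, dbar (i + 1) (g (i + 2)) z - dbar (i + 2) (g (i + 1)) z =
        E (i + 1) z (g (i + 2) z) - E (i + 2) z (g (i + 1) z))
    (hg' : ∀ i : Fin 3, ∀ z ∈ cone δ, dbar (i + 1) (g' (i + 2)) z - dbar (i + 2) (g' (i + 1)) z =
        E (i + 1) z (g' (i + 2) z) - E (i + 2) z (g' (i + 1) z)) :
    ∃ (f₁ : C3 → Fm m) (G G' h : Fin 3 → C3 → Fm m),
      (∀ z : C3, z ≠ 0 → ContDiffAt ℝ ∞ f₁ z) ∧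
      (∀ j, ∀ z : C3, z ≠ 0 → ContDiffAt ℝ ∞ (G j) z) ∧
      (∀ j, ∀ z : C3, z ≠ 0 → ContDiffAt ℝ ∞ (G' j) z) ∧
      (∀ j, ∀ z : C3, z ≠ 0 → ContDiffAt ℝ ∞ (h j) z) ∧
      (∀ z : C3, z ≠ 0 → P z (f₁ z) = f₁ z) ∧
      (∀ j, ∀ z : C3, z ≠ 0 → P z (G j z) = G j z) ∧
      (∀ j, ∀ z : C3, z ≠ 0 → P z (G' j z) = G' j z) ∧
      (∀ j, ∀ z : C3, z ≠ 0 → P z (h j z) = h j z) ∧
      (∀ z : C3, z ≠ 0 → f₁ ((2 : ℂ) • z) = (((2 : ℝ) ^ (2 * s) : ℝ) : ℂ) • f₁ z) ∧
      (∀ j, ∀ z : C3, z ≠ 0 →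
        G j ((2 : ℂ) • z) = (((2 : ℝ) ^ (2 * s - 2) : ℝ) : ℂ) • G j z) ∧
      (∀ j, ∀ z : C3, z ≠ 0 →
        G' j ((2 : ℂ) • z) = (((2 : ℝ) ^ (2 * s - 2) : ℝ) : ℂ) • G' j z) ∧
      (∀ j, ∀ z : C3, z ≠ 0 →
        h j ((2 : ℂ) • z) = (((2 : ℝ) ^ (2 * s - 4) : ℝ) : ℂ) • h j z) ∧
      (∀ j, ∀ z : C3, z ≠ 0 → dbar j f₁ z = E j z (f₁ z) + (z 1 • G j z + z 2 • G' j z)) ∧
      (∀ i : Fin 3, ∀ z : C3, z ≠ 0 →
        dbar (i + 1) (G (i + 2)) z - dbar (i + 2) (G (i + 1)) z =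
          E (i + 1) z (G (i + 2) z) - E (i + 2) z (G (i + 1) z) + z 2 • h i z) ∧
      (∀ i : Fin 3, ∀ z : C3, z ≠ 0 →
        dbar (i + 1) (G' (i + 2)) z - dbar (i + 2) (G' (i + 1)) z =
          E (i + 1) z (G' (i + 2) z) - E (i + 2) z (G' (i + 1) z) + (-(z 1)) • h i z) ∧
      (∀ z : C3, z ≠ 0 → ∑ i : Fin 3, dbar i (h i) z = ∑ i : Fin 3, E i z (h i z)) ∧
      (∀ t : ℂ, t ≠ 0 → f₁ (t • e1) = f (t • e1)) := by
  have hs2 : ∀ z : C3, z ≠ 0 → ChaseB_q z < δ / 3 ∨ (z ∈ cone δ ∧ ChaseB_rho z ≠ 0) ∨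
      2 * δ / 3 < ChaseB_q z := by
    intro z hz
    by_cases h1 : ChaseB_q z < δ / 3
    · exact Or.inl h1
    · by_cases h2 : 2 * δ / 3 < ChaseB_q z
      · exact Or.inr (Or.inr h2)
      · refine Or.inr (Or.inl ⟨(ChaseB_cone_iff hz).2 (by linarith), ChaseB_rho_ne (by linarith)⟩)
  have hcone : ∀ z : C3, z ≠ 0 → ChaseB_q z < δ / 3 → z ∈ cone δ := fun z hz h =>
    (ChaseB_cone_iff hz).2 (by linarith)
  -- eventual equalities in the three regions
  have ev1_f : ∀ z : C3, z ≠ 0 → ChaseB_q z < δ / 3 → ChaseB_f1 δ f =ᶠ[𝓝 z] f := by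
    intro z hz h
    filter_upwards [ChaseB_X_ev_one hδ hz h] with y hy
    simp [ChaseB_f1, hy]
  have ev1_G : ∀ j, ∀ z : C3, z ≠ 0 → ChaseB_q z < δ / 3 → ChaseB_G δ f g j =ᶠ[𝓝 z] g j := by
    intro j z hz h
    filter_upwards [ChaseB_X_ev_one hδ hz h, ChaseB_a_ev_one hδ hz h j] with y hy hy2
    simp [ChaseB_G, hy, hy2]
  have ev1_G' : ∀ j, ∀ z : C3, z ≠ 0 → ChaseB_q z < δ / 3 → ChaseB_G' δ f g' j =ᶠ[𝓝 z] g' j := by
    intro j z hz h
    filter_upwards [ChaseB_X_ev_one hδ hz h, ChaseB_a_ev_one hδ hz h j] with y hy hy2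
    simp [ChaseB_G', hy, hy2]
  have ev1_h : ∀ i, ∀ z : C3, z ≠ 0 → ChaseB_q z < δ / 3 →
      ChaseB_h δ f g g' i =ᶠ[𝓝 z] fun _ => 0 := by
    intro i z hz h
    filter_upwards [ChaseB_a_ev_one hδ hz h (i + 1), ChaseB_a_ev_one hδ hz h (i + 2)] with y hy hy2
    simp [ChaseB_h, ChaseB_b, hy, hy2]
  have ev3_f : ∀ z : C3, z ≠ 0 → 2 * δ / 3 < ChaseB_q z →
      ChaseB_f1 δ f =ᶠ[𝓝 z] fun _ => 0 := by
    intro z hz h
    filter_upwards [ChaseB_X_ev_zero hδ hz h] with y hy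
    simp [ChaseB_f1, hy]
  have ev3_G : ∀ j, ∀ z : C3, z ≠ 0 → 2 * δ / 3 < ChaseB_q z →
      ChaseB_G δ f g j =ᶠ[𝓝 z] fun _ => 0 := by
    intro j z hz h
    filter_upwards [ChaseB_X_ev_zero hδ hz h, ChaseB_a_ev_zero hδ hz h j] with y hy hy2
    simp [ChaseB_G, hy, hy2]
  have ev3_G' : ∀ j, ∀ z : C3, z ≠ 0 → 2 * δ / 3 < ChaseB_q z →
      ChaseB_G' δ f g' j =ᶠ[𝓝 z] fun _ => 0 := by
    intro j z hz h
    filter_upwards [ChaseB_X_ev_zero hδ hz h, ChaseB_a_ev_zero hδ hz h j] with y hy hy2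
    simp [ChaseB_G', hy, hy2]
  have ev3_h : ∀ i, ∀ z : C3, z ≠ 0 → 2 * δ / 3 < ChaseB_q z →
      ChaseB_h δ f g g' i =ᶠ[𝓝 z] fun _ => 0 := by
    intro i z hz h
    filter_upwards [ChaseB_a_ev_zero hδ hz h (i + 1), ChaseB_a_ev_zero hδ hz h (i + 2)]
      with y hy hy2
    simp [ChaseB_h, ChaseB_b, hy, hy2]
  -- smoothness in the middle region
  have sX : ∀ z : C3, z ≠ 0 → ContDiffAt ℝ ∞ (ChaseB_X δ) z := fun z hz => ChaseB_X_contDiffAt δ hz
  have sa : ∀ j, ∀ z : C3, z ≠ 0 → ContDiffAt ℝ ∞ (ChaseB_a δ j) z :=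
    fun j z hz => ChaseB_a_contDiffAt δ j hz
  have su : ∀ j, ∀ z ∈ cone δ, ChaseB_rho z ≠ 0 → ContDiffAt ℝ ∞ (ChaseB_u g g' j) z :=
    fun j z hz hr => ((ChaseB_al'_contDiffAt hr).smul (g_smooth j z hz)).sub
      ((ChaseB_al_contDiffAt hr).smul (g'_smooth j z hz))
  have sb : ∀ j, ∀ z : C3, z ≠ 0 → ChaseB_rho z ≠ 0 → ContDiffAt ℝ ∞ (ChaseB_b δ j) z :=
    fun j z hz hr => ((ChaseB_be_contDiffAt (j + 1) hr).mul (sa (j + 2) z hz)).sub
      ((ChaseB_be_contDiffAt (j + 2) hr).mul (sa (j + 1) z hz))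
  have dd : ∀ {G : Type} [NormedAddCommGroup G] [NormedSpace ℝ G] {u : C3 → G} {z : C3},
      ContDiffAt ℝ ∞ u z → DifferentiableAt ℝ u z := fun h => h.differentiableAt (by simp)
  have hc2 : (((2 : ℝ) ^ (2 * s - 2) : ℝ) : ℂ) = (((2 : ℝ) ^ (2 * s) : ℝ) : ℂ) / 4 := by
    rw [Real.rpow_sub (by norm_num)]; push_cast; norm_num
  have hc4 : (((2 : ℝ) ^ (2 * s - 4) : ℝ) : ℂ) = (((2 : ℝ) ^ (2 * s) : ℝ) : ℂ) / 16 := by
    rw [Real.rpow_sub (by norm_num)]; push_cast; norm_num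
  refine ⟨ChaseB_f1 δ f, ChaseB_G δ f g, ChaseB_G' δ f g', ChaseB_h δ f g g',
    ?_, ?_, ?_, ?_, ?_, ?_, ?_, ?_, ?_, ?_, ?_, ?_, ?_, ?_, ?_, ?_, ?_⟩
  · -- smoothness of f1
    intro z hz
    rcases hs2 z hz with h | ⟨h, hr⟩ | h
    · exact (f_smooth z (hcone z hz h)).congr_of_eventuallyEq (ev1_f z hz h)
    · exact (sX z hz).smul (f_smooth z h)
    · exact contDiffAt_const.congr_of_eventuallyEq (ev3_f z hz h)
  · intro j z hz
    rcases hs2 z hz with h | ⟨h, hr⟩ | h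
    · exact (g_smooth j z (hcone z hz h)).congr_of_eventuallyEq (ev1_G j z hz h)
    · exact ((sX z hz).smul (g_smooth j z h)).add
        (((ChaseB_al_contDiffAt hr).mul (sa j z hz)).smul (f_smooth z h))
    · exact contDiffAt_const.congr_of_eventuallyEq (ev3_G j z hz h)
  · intro j z hz
    rcases hs2 z hz with h | ⟨h, hr⟩ | h
    · exact (g'_smooth j z (hcone z hz h)).congr_of_eventuallyEq (ev1_G' j z hz h)
    · exact ((sX z hz).smul (g'_smooth j z h)).add
        (((ChaseB_al'_contDiffAt hr).mul (sa j z hz)).smul (f_smooth z h))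
    · exact contDiffAt_const.congr_of_eventuallyEq (ev3_G' j z hz h)
  · intro j z hz
    rcases hs2 z hz with h | ⟨h, hr⟩ | h
    · exact contDiffAt_const.congr_of_eventuallyEq (ev1_h j z hz h)
    · exact (((sa _ z hz).smul (su _ z h hr)).sub ((sa _ z hz).smul (su _ z h hr))).add
        ((sb j z hz hr).smul (f_smooth z h))
    · exact contDiffAt_const.congr_of_eventuallyEq (ev3_h j z hz h)
  · intro z hz
    by_cases h : z ∈ cone δ
    · simp [ChaseB_f1, f_proj z h]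
    · simp [ChaseB_f1, ChaseB_X_out hδ hz h]
  · intro j z hz
    by_cases h : z ∈ cone δ
    · simp [ChaseB_G, f_proj z h, g_proj j z h]
    · simp [ChaseB_G, ChaseB_X_out hδ hz h, ChaseB_a_zero hδ hz h]
  · intro j z hz
    by_cases h : z ∈ cone δ
    · simp [ChaseB_G', f_proj z h, g'_proj j z h]
    · simp [ChaseB_G', ChaseB_X_out hδ hz h, ChaseB_a_zero hδ hz h]
  · intro j z hz
    by_cases h : z ∈ cone δ
    · simp [ChaseB_h, ChaseB_u, f_proj z h, g_proj _ z h, g'_proj _ z h]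
    · simp [ChaseB_h, ChaseB_b, ChaseB_a_zero hδ hz h]
  · intro z hz
    by_cases h : z ∈ cone δ
    · simp only [ChaseB_f1, ChaseB_X_scale, f_scale z h]
      module
    · have h2 : (2 : ℂ) • z ∉ cone δ := fun h3 => h ((ChaseB_cone_scale hz).1 h3)
      simp [ChaseB_f1, ChaseB_X_out hδ hz h, ChaseB_X_out hδ (ChaseB_two_ne hz) h2]
  · intro j z hz
    by_cases h : z ∈ cone δ
    · simp only [ChaseB_G, ChaseB_X_scale, f_scale z h, g_scale j z h, ChaseB_al_scale,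
        ChaseB_a_scale δ _ hz, hc2]
      module
    · have h2 : (2 : ℂ) • z ∉ cone δ := fun h3 => h ((ChaseB_cone_scale hz).1 h3)
      simp [ChaseB_G, ChaseB_X_out hδ hz h, ChaseB_X_out hδ (ChaseB_two_ne hz) h2,
        ChaseB_a_zero hδ hz h, ChaseB_a_zero hδ (ChaseB_two_ne hz) h2]
  · intro j z hz
    by_cases h : z ∈ cone δ
    · simp only [ChaseB_G', ChaseB_X_scale, f_scale z h, g'_scale j z h, ChaseB_al'_scale,
        ChaseB_a_scale δ _ hz, hc2]
      module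
    · have h2 : (2 : ℂ) • z ∉ cone δ := fun h3 => h ((ChaseB_cone_scale hz).1 h3)
      simp [ChaseB_G', ChaseB_X_out hδ hz h, ChaseB_X_out hδ (ChaseB_two_ne hz) h2,
        ChaseB_a_zero hδ hz h, ChaseB_a_zero hδ (ChaseB_two_ne hz) h2]
  · intro j z hz
    by_cases h : z ∈ cone δ
    · simp only [ChaseB_h, ChaseB_u, ChaseB_b, f_scale z h, g_scale _ z h, g'_scale _ z h,
        ChaseB_al_scale, ChaseB_al'_scale, ChaseB_be_scale, ChaseB_a_scale δ _ hz, hc2, hc4]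
      module
    · have h2 : (2 : ℂ) • z ∉ cone δ := fun h3 => h ((ChaseB_cone_scale hz).1 h3)
      simp [ChaseB_h, ChaseB_b, ChaseB_a_zero hδ hz h, ChaseB_a_zero hδ (ChaseB_two_ne hz) h2]
  · -- the equation for f1
    intro j z hz
    rcases hs2 z hz with h | ⟨h, hr⟩ | h
    · have hc := hcone z hz h
      rw [ChaseB_congr (ev1_f z hz h), (ev1_f z hz h).self_of_nhds,
        (ev1_G j z hz h).self_of_nhds, (ev1_G' j z hz h).self_of_nhds]
      exact hf j z hc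
    · unfold ChaseB_f1 ChaseB_G ChaseB_G'
      rw [ChaseB_smul (dd (sX z hz)) (dd (f_smooth z h)), hf j z h, map_smul]
      change ChaseB_a δ j z • f z + _ = _
      linear_combination (norm := module) (-(ChaseB_koszul hr)) • (ChaseB_a δ j z • f z)
    · rw [ChaseB_congr (ev3_f z hz h), (ev3_f z hz h).self_of_nhds,
        (ev3_G j z hz h).self_of_nhds, (ev3_G' j z hz h).self_of_nhds, ChaseB_const]
      simp
  · -- the curl of G
    intro i z hz
    rcases hs2 z hz with h | ⟨h, hr⟩ | h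
    · have hc := hcone z hz h
      rw [ChaseB_congr (ev1_G _ z hz h), ChaseB_congr (ev1_G _ z hz h),
        (ev1_G _ z hz h).self_of_nhds, (ev1_G _ z hz h).self_of_nhds,
        (ev1_h _ z hz h).self_of_nhds, hg i z hc]
      simp
    · have hG : ∀ k j, dbar k (ChaseB_G δ f g j) z =
          (ChaseB_a δ k z • g j z + ChaseB_X δ z • dbar k (g j) z) +
          ((z 2 * ChaseB_be k z * ChaseB_a δ j z + ChaseB_al z * dbar k (ChaseB_a δ j) z) • f z +
            (ChaseB_al z * ChaseB_a δ j z) • (E k z (f z) + (z 1 • g k z + z 2 • g' k z))) := by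
        intro k j
        have t1 : DifferentiableAt ℝ (fun z => ChaseB_X δ z • g j z) z :=
          dd ((sX z hz).smul (g_smooth j z h))
        have t2 : DifferentiableAt ℝ (fun z => ChaseB_al z * ChaseB_a δ j z) z :=
          dd ((ChaseB_al_contDiffAt hr).mul (sa j z hz))
        have t3 : DifferentiableAt ℝ (fun z => (ChaseB_al z * ChaseB_a δ j z) • f z) z :=
          t2.smul (dd (f_smooth z h))
        change dbar k (fun z => ChaseB_X δ z • g j z + (ChaseB_al z * ChaseB_a δ j z) • f z) z = _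
        rw [ChaseB_add t1 t3, ChaseB_smul (dd (sX z hz)) (dd (g_smooth j z h)),
          ChaseB_smul t2 (dd (f_smooth z h)), ChaseB_mul (dd (ChaseB_al_contDiffAt hr))
          (dd (sa j z hz)), hf k z h, ChaseB_dbar_al hr]
        rfl
      rw [hG, hG]
      simp only [ChaseB_G, ChaseB_h, ChaseB_u, ChaseB_b, map_add, map_smul]
      linear_combination (norm := module) (ChaseB_X δ z) • hg i z h +
        (ChaseB_a_comm δ (i + 2) (i + 1) hz) • (ChaseB_al z • f z) -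
        (ChaseB_koszul hr) • (ChaseB_a δ (i + 1) z • g (i + 2) z -
          ChaseB_a δ (i + 2) z • g (i + 1) z)
    · rw [ChaseB_congr (ev3_G _ z hz h), ChaseB_congr (ev3_G _ z hz h),
        (ev3_G _ z hz h).self_of_nhds, (ev3_G _ z hz h).self_of_nhds,
        (ev3_h _ z hz h).self_of_nhds, ChaseB_const, ChaseB_const]
      simp
  · -- the curl of G'
    intro i z hz
    rcases hs2 z hz with h | ⟨h, hr⟩ | h
    · have hc := hcone z hz h
      rw [ChaseB_congr (ev1_G' _ z hz h), ChaseB_congr (ev1_G' _ z hz h),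
        (ev1_G' _ z hz h).self_of_nhds, (ev1_G' _ z hz h).self_of_nhds,
        (ev1_h _ z hz h).self_of_nhds, hg' i z hc]
      simp
    · have hG : ∀ k j, dbar k (ChaseB_G' δ f g' j) z =
          (ChaseB_a δ k z • g' j z + ChaseB_X δ z • dbar k (g' j) z) +
          ((-z 1 * ChaseB_be k z * ChaseB_a δ j z + ChaseB_al' z * dbar k (ChaseB_a δ j) z) • f z +
            (ChaseB_al' z * ChaseB_a δ j z) • (E k z (f z) + (z 1 • g k z + z 2 • g' k z))) := by
        intro k j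
        have t1 : DifferentiableAt ℝ (fun z => ChaseB_X δ z • g' j z) z :=
          dd ((sX z hz).smul (g'_smooth j z h))
        have t2 : DifferentiableAt ℝ (fun z => ChaseB_al' z * ChaseB_a δ j z) z :=
          dd ((ChaseB_al'_contDiffAt hr).mul (sa j z hz))
        have t3 : DifferentiableAt ℝ (fun z => (ChaseB_al' z * ChaseB_a δ j z) • f z) z :=
          t2.smul (dd (f_smooth z h))
        change dbar k (fun z => ChaseB_X δ z • g' j z + (ChaseB_al' z * ChaseB_a δ j z) • f z) z = _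
        rw [ChaseB_add t1 t3, ChaseB_smul (dd (sX z hz)) (dd (g'_smooth j z h)),
          ChaseB_smul t2 (dd (f_smooth z h)), ChaseB_mul (dd (ChaseB_al'_contDiffAt hr))
          (dd (sa j z hz)), hf k z h, ChaseB_dbar_al' hr]
        rfl
      rw [hG, hG]
      simp only [ChaseB_G', ChaseB_h, ChaseB_u, ChaseB_b, map_add, map_smul]
      linear_combination (norm := module) (ChaseB_X δ z) • hg' i z h +
        (ChaseB_a_comm δ (i + 2) (i + 1) hz) • (ChaseB_al' z • f z) -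
        (ChaseB_koszul hr) • (ChaseB_a δ (i + 1) z • g' (i + 2) z -
          ChaseB_a δ (i + 2) z • g' (i + 1) z)
    · rw [ChaseB_congr (ev3_G' _ z hz h), ChaseB_congr (ev3_G' _ z hz h),
        (ev3_G' _ z hz h).self_of_nhds, (ev3_G' _ z hz h).self_of_nhds,
        (ev3_h _ z hz h).self_of_nhds, ChaseB_const, ChaseB_const]
      simp
  · -- the divergence of h
    intro z hz
    rcases hs2 z hz with h | ⟨h, hr⟩ | h
    · simp only [ChaseB_congr (ev1_h _ z hz h), (ev1_h _ z hz h).self_of_nhds, ChaseB_const,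
        map_zero]
    · have hU : ∀ k j, dbar k (ChaseB_u g g' j) z =
          ((-z 1 * ChaseB_be k z) • g j z + ChaseB_al' z • dbar k (g j) z) -
          ((z 2 * ChaseB_be k z) • g' j z + ChaseB_al z • dbar k (g' j) z) := by
        intro k j
        have t1 : DifferentiableAt ℝ (fun z => ChaseB_al' z • g j z) z :=
          dd ((ChaseB_al'_contDiffAt hr).smul (g_smooth j z h))
        have t2 : DifferentiableAt ℝ (fun z => ChaseB_al z • g' j z) z :=
          dd ((ChaseB_al_contDiffAt hr).smul (g'_smooth j z h))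
        change dbar k (fun z => ChaseB_al' z • g j z - ChaseB_al z • g' j z) z = _
        rw [ChaseB_sub t1 t2, ChaseB_smul (dd (ChaseB_al'_contDiffAt hr)) (dd (g_smooth j z h)),
          ChaseB_smul (dd (ChaseB_al_contDiffAt hr)) (dd (g'_smooth j z h)),
          ChaseB_dbar_al' hr, ChaseB_dbar_al hr]
      have hB : ∀ i k, dbar k (ChaseB_b δ i) z =
          (dbar k (ChaseB_be (i + 1)) z * ChaseB_a δ (i + 2) z +
            ChaseB_be (i + 1) z * dbar k (ChaseB_a δ (i + 2)) z) -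
          (dbar k (ChaseB_be (i + 2)) z * ChaseB_a δ (i + 1) z +
            ChaseB_be (i + 2) z * dbar k (ChaseB_a δ (i + 1)) z) := by
        intro i k
        have t1 : DifferentiableAt ℝ (fun z => ChaseB_be (i + 1) z * ChaseB_a δ (i + 2) z) z :=
          dd ((ChaseB_be_contDiffAt _ hr).mul (sa _ z hz))
        have t2 : DifferentiableAt ℝ (fun z => ChaseB_be (i + 2) z * ChaseB_a δ (i + 1) z) z :=
          dd ((ChaseB_be_contDiffAt _ hr).mul (sa _ z hz))
        change dbar k (fun z => ChaseB_be (i + 1) z * ChaseB_a δ (i + 2) z -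
          ChaseB_be (i + 2) z * ChaseB_a δ (i + 1) z) z = _
        rw [ChaseB_sub t1 t2, ChaseB_mul (dd (ChaseB_be_contDiffAt _ hr)) (dd (sa _ z hz)),
          ChaseB_mul (dd (ChaseB_be_contDiffAt _ hr)) (dd (sa _ z hz))]
      have hH : ∀ i, dbar i (ChaseB_h δ f g g' i) z =
          ((dbar i (ChaseB_a δ (i + 1)) z • ChaseB_u g g' (i + 2) z +
              ChaseB_a δ (i + 1) z • dbar i (ChaseB_u g g' (i + 2)) z) -
            (dbar i (ChaseB_a δ (i + 2)) z • ChaseB_u g g' (i + 1) z +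
              ChaseB_a δ (i + 2) z • dbar i (ChaseB_u g g' (i + 1)) z)) +
          (dbar i (ChaseB_b δ i) z • f z + ChaseB_b δ i z •
            (E i z (f z) + (z 1 • g i z + z 2 • g' i z))) := by
        intro i
        have t1 : DifferentiableAt ℝ (fun z => ChaseB_a δ (i + 1) z • ChaseB_u g g' (i + 2) z) z :=
          dd ((sa _ z hz).smul (su _ z h hr))
        have t2 : DifferentiableAt ℝ (fun z => ChaseB_a δ (i + 2) z • ChaseB_u g g' (i + 1) z) z :=
          dd ((sa _ z hz).smul (su _ z h hr))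
        have t3 : DifferentiableAt ℝ (fun z => ChaseB_b δ i z • f z) z :=
          dd ((sb _ z hz hr).smul (f_smooth z h))
        have t12 : DifferentiableAt ℝ (fun z => ChaseB_a δ (i + 1) z • ChaseB_u g g' (i + 2) z -
          ChaseB_a δ (i + 2) z • ChaseB_u g g' (i + 1) z) z := t1.sub t2
        change dbar i (fun z => (ChaseB_a δ (i + 1) z • ChaseB_u g g' (i + 2) z -
          ChaseB_a δ (i + 2) z • ChaseB_u g g' (i + 1) z) + ChaseB_b δ i z • f z) z = _
        rw [ChaseB_add t12 t3, ChaseB_sub t1 t2, ChaseB_smul (dd (sa _ z hz)) (dd (su _ z h hr)),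
          ChaseB_smul (dd (sa _ z hz)) (dd (su _ z h hr)),
          ChaseB_smul (dd (sb _ z hz hr)) (dd (f_smooth z h)), hf i z h]
      have c0 := ChaseB_a_comm δ (0 + 2) (0 + 1) hz
      have c1 := ChaseB_a_comm δ (1 + 2) (1 + 1) hz
      have c2 := ChaseB_a_comm δ (2 + 2) (2 + 1) hz
      have b0 := ChaseB_be_comm hr 0
      have b1 := ChaseB_be_comm hr 1
      have b2 := ChaseB_be_comm hr 2
      have g0 := hg 0 z h
      have g1 := hg 1 z h
      have g2 := hg 2 z h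
      have g0' := hg' 0 z h
      have g1' := hg' 1 z h
      have g2' := hg' 2 z h
      simp only [Fin.sum_univ_three, hH, hU, hB]
      simp only [ChaseB_h, ChaseB_u, ChaseB_b, map_add, map_sub, map_smul]
      simp only [show (0 + 1 : Fin 3) = 1 from rfl, show (0 + 2 : Fin 3) = 2 from rfl,
        show (1 + 1 : Fin 3) = 2 from rfl, show (1 + 2 : Fin 3) = 0 from rfl,
        show (2 + 1 : Fin 3) = 0 from rfl, show (2 + 2 : Fin 3) = 1 from rfl]
        at c0 c1 c2 b0 b1 b2 g0 g1 g2 g0' g1' g2' ⊢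
      linear_combination (norm := module)
        c0 • ((ChaseB_al' z • g 0 z - ChaseB_al z • g' 0 z) - ChaseB_be 0 z • f z) +
        c1 • ((ChaseB_al' z • g 1 z - ChaseB_al z • g' 1 z) - ChaseB_be 1 z • f z) +
        c2 • ((ChaseB_al' z • g 2 z - ChaseB_al z • g' 2 z) - ChaseB_be 2 z • f z) +
        b0 • (ChaseB_a δ 0 z • f z) + b1 • (ChaseB_a δ 1 z • f z) + b2 • (ChaseB_a δ 2 z • f z) -
        (ChaseB_a δ 0 z * ChaseB_al' z) • g0 - (ChaseB_a δ 1 z * ChaseB_al' z) • g1 -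
        (ChaseB_a δ 2 z * ChaseB_al' z) • g2 +
        (ChaseB_a δ 0 z * ChaseB_al z) • g0' + (ChaseB_a δ 1 z * ChaseB_al z) • g1' +
        (ChaseB_a δ 2 z * ChaseB_al z) • g2'
    · simp only [ChaseB_congr (ev3_h _ z hz h), (ev3_h _ z hz h).self_of_nhds, ChaseB_const,
        map_zero]
  · intro t ht
    have h1 : ChaseB_q (t • e1) = 0 := by
      unfold ChaseB_q
      simp [e1]
    simp [ChaseB_f1, ChaseB_X_one hδ (z := t • e1) (by rw [h1]; positivity)]

end Pool.Agent.HopfEmb
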