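import Pool.Agent.Lib.MP_d404b9_ag.Moll

/-!
# JOB COMPACT: a Kolmogorov-Riesz (Rellich) compactness criterion

A bounded operator `T : X → L²(ℂ³)` whose values are supported in a fixed bounded set and satisfy
a uniform `L²` translation estimate is compact. Proof: average over the cells of a grid of mesh
`h`; by Jensen and Tonelli the averaged function is `O(h)`-close to `T x` in `L²`, and it lies in a
finite dimensional space independent of `x`. So `T` is a norm limit of finite rank operators.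
-/

set_option autoImplicit false

open MeasureTheory Complex Filter Topology
open scoped ContDiff ComplexConjugate ENNReal

namespace Pool.Agent.HopfEmb

noncomputable section

variable {m : ℕ}

/-- Index of the cell of the grid of mesh `h` which contains `z`. -/
private def cellC (h : ℝ) (z : C3) : Fin 3 → ℤ × ℤ := fun i => (⌊(z i).re / h⌋, ⌊(z i).im / h⌋)

private lemma cellC_meas (h : ℝ) : Measurable (cellC h) := by
  refine measurable_pi_lambda _ fun i => ?_
  exact (((Complex.measurable_re.comp (measurable_pi_apply i)).div_const h).floor).prodMk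
    (((Complex.measurable_im.comp (measurable_pi_apply i)).div_const h).floor)

private lemma cell_dist {h : ℝ} (hh : 0 < h) {z w : C3} (hc : cellC h w = cellC h z) :
    ‖z - w‖ < 2 * h := by
  rw [pi_norm_lt_iff (by positivity)]
  intro i
  have h1 := congrFun hc i
  simp only [cellC, Prod.mk.injEq] at h1
  have key : ∀ a b : ℝ, ⌊b / h⌋ = ⌊a / h⌋ → |a - b| < h := by
    intro a b hab
    have h2 := Int.abs_sub_lt_one_of_floor_eq_floor hab.symm
    rw [← sub_div, abs_div, abs_of_pos hh, div_lt_one hh] at h2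
    exact h2
  have h4 : |(z i - w i).re| < h := by rw [Complex.sub_re]; exact key _ _ h1.1
  have h5 : |(z i - w i).im| < h := by rw [Complex.sub_im]; exact key _ _ h1.2
  calc ‖(z - w) i‖ ≤ |(z i - w i).re| + |(z i - w i).im| := Complex.norm_le_abs_re_add_abs_im _
    _ < 2 * h := by linarith

private lemma cell_ball {h : ℝ} (hh : 0 < h) (z : C3) :
    ∃ c : C3, Metric.ball c (h / 2) ⊆ {w | cellC h w = cellC h z} := by
  refine ⟨fun i => ⟨(⌊(z i).re / h⌋ + 1 / 2) * h, (⌊(z i).im / h⌋ + 1 / 2) * h⟩, ?_⟩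
  intro w hw
  rw [Metric.mem_ball, dist_eq_norm, pi_norm_lt_iff (by positivity)] at hw
  have key : ∀ (k : ℤ) (a : ℝ), |a - (k + 1 / 2) * h| < h / 2 → ⌊a / h⌋ = k := by
    intro k a ha
    rw [abs_lt] at ha
    rw [Int.floor_eq_iff, le_div_iff₀ hh, div_lt_iff₀ hh]
    constructor <;> nlinarith [ha.1, ha.2]
  funext i
  have hi := hw i
  simp only [cellC, Prod.mk.injEq]
  refine ⟨key _ _ ?_, key _ _ ?_⟩
  · refine lt_of_le_of_lt ?_ hi
    refine le_trans ?_ (Complex.abs_re_le_norm _)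
    simp [Pi.sub_apply, Complex.sub_re]
  · refine lt_of_le_of_lt ?_ hi
    refine le_trans ?_ (Complex.abs_im_le_norm _)
    simp [Pi.sub_apply, Complex.sub_im]

private lemma cell_vol_ge {h : ℝ} (hh : 0 < h) (z : C3) :
    volume (Metric.ball (0 : C3) (h / 2)) ≤ volume {w | cellC h w = cellC h z} := by
  obtain ⟨c, hc⟩ := cell_ball hh z
  rw [← Measure.addHaar_ball_center volume c (h / 2)]
  exact measure_mono hc

private lemma cell_vol_lt {h : ℝ} (hh : 0 < h) (z : C3) :
    volume {w | cellC h w = cellC h z} < ⊤ := by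
  refine lt_of_le_of_lt (measure_mono (t := Metric.ball z (2 * h)) ?_) measure_ball_lt_top
  intro w hw
  rw [Metric.mem_ball, dist_comm, dist_eq_norm]
  exact cell_dist hh hw

private lemma sq_lintegral_le {α : Type*} [MeasurableSpace α] (μ : Measure α) {g : α → ℝ≥0∞}
    (hg : AEMeasurable g μ) : (∫⁻ x, g x ∂μ) ^ 2 ≤ μ Set.univ * ∫⁻ x, g x ^ 2 ∂μ := by
  have h := ENNReal.lintegral_mul_le_Lp_mul_Lq μ (p := 2) (q := 2)
    (Real.holderConjugate_iff.2 ⟨by norm_num, by norm_num⟩) (f := fun _ => 1) (g := g)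
    aemeasurable_const hg
  simp only [Pi.mul_apply, one_mul, ENNReal.one_rpow, lintegral_const] at h
  have h2 := pow_le_pow_left₀ zero_le h 2
  refine h2.trans_eq ?_
  rw [mul_pow, ← ENNReal.rpow_natCast, ← ENNReal.rpow_natCast, ← ENNReal.rpow_mul,
    ← ENNReal.rpow_mul]
  norm_num

private lemma enorm_sub_average_sq_le {Q : Set C3} (hQ0 : volume Q ≠ 0)
    (hQ : volume Q ≠ ⊤) {f : C3 → Fm m} (hf : IntegrableOn f Q) (v : Fm m) :
    ‖v - ⨍ w in Q, f w‖ₑ ^ 2 ≤ (volume Q)⁻¹ * ∫⁻ w in Q, ‖v - f w‖ₑ ^ 2 := by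
  have hfin : IsFiniteMeasure (volume.restrict Q) := ⟨by simpa using hQ.lt_top⟩
  have e1 : v - ⨍ w in Q, f w = (volume.real Q)⁻¹ • ∫ w in Q, (v - f w) := by
    rw [integral_sub (integrable_const v) hf, setAverage_eq, smul_sub]
    congr 1
    rw [integral_const, measureReal_restrict_apply_univ, smul_smul, inv_mul_cancel₀, one_smul]
    exact (ENNReal.toReal_pos hQ0 hQ).ne'
  have e2 : ‖v - ⨍ w in Q, f w‖ₑ ≤ (volume Q)⁻¹ * ∫⁻ w in Q, ‖v - f w‖ₑ := by
    rw [e1, enorm_smul]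
    have : ‖(volume.real Q)⁻¹‖ₑ = (volume Q)⁻¹ := by
      rw [Real.enorm_eq_ofReal (inv_nonneg.2 measureReal_nonneg), Measure.real,
        ← ENNReal.toReal_inv, ENNReal.ofReal_toReal (ENNReal.inv_ne_top.2 hQ0)]
    rw [this]
    gcongr
    exact enorm_integral_le_lintegral_enorm _
  have e3 : (∫⁻ w in Q, ‖v - f w‖ₑ) ^ 2 ≤ volume Q * ∫⁻ w in Q, ‖v - f w‖ₑ ^ 2 := by
    have := sq_lintegral_le (volume.restrict Q) (g := fun w => ‖v - f w‖ₑ)
      (((integrable_const v).sub hf).aestronglyMeasurable.enorm)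
    simpa using this
  calc ‖v - ⨍ w in Q, f w‖ₑ ^ 2 ≤ ((volume Q)⁻¹ * ∫⁻ w in Q, ‖v - f w‖ₑ) ^ 2 :=
        pow_le_pow_left₀ zero_le e2 2
    _ = (volume Q)⁻¹ ^ 2 * (∫⁻ w in Q, ‖v - f w‖ₑ) ^ 2 := mul_pow _ _ _
    _ ≤ (volume Q)⁻¹ ^ 2 * (volume Q * ∫⁻ w in Q, ‖v - f w‖ₑ ^ 2) := by gcongr
    _ = (volume Q)⁻¹ * ((volume Q)⁻¹ * volume Q) * ∫⁻ w in Q, ‖v - f w‖ₑ ^ 2 := by ring
    _ = _ := by rw [ENNReal.inv_mul_cancel hQ0 hQ, mul_one]

/-- The averaged function. -/
private def cellAvg (h : ℝ) (f : C3 → Fm m) (k : Fin 3 → ℤ × ℤ) : Fm m :=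
  ⨍ w in {w | cellC h w = k}, f w

private lemma cell_estimate {h : ℝ} (hh : 0 < h) {f : C3 → Fm m} (hf : StronglyMeasurable f)
    (hf2 : MemLp f 2 volume) (D : ℝ≥0∞)
    (ht : ∀ y : C3, ‖y‖ < 2 * h → ∫⁻ z, ‖f (z - y) - f z‖ₑ ^ 2 ≤ D) :
    ∫⁻ z, ‖f z - cellAvg h f (cellC h z)‖ₑ ^ 2 ≤
      ENNReal.ofReal (4 ^ Module.finrank ℝ C3) * D := by
  set μ0 := volume (Metric.ball (0 : C3) (h / 2)) with hμ0
  have hμ0pos : μ0 ≠ 0 := (Metric.measure_ball_pos volume 0 (by positivity)).ne'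
  have hμ0top : μ0 ≠ ⊤ := measure_ball_lt_top.ne
  have hint : ∀ z, IntegrableOn f {w | cellC h w = cellC h z} := by
    intro z
    have hfin : IsFiniteMeasure (volume.restrict {w | cellC h w = cellC h z}) :=
      ⟨by simpa using cell_vol_lt hh z⟩
    exact (hf2.restrict _).integrable (by norm_num)
  have step1 : ∀ z, ‖f z - cellAvg h f (cellC h z)‖ₑ ^ 2 ≤
      μ0⁻¹ * ∫⁻ y, (Metric.ball (0 : C3) (2 * h)).indicator (fun y => ‖f (z - y) - f z‖ₑ ^ 2) y := by
    intro z
    have h0 : volume {w | cellC h w = cellC h z} ≠ 0 :=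
      (lt_of_lt_of_le (pos_iff_ne_zero.2 hμ0pos) (cell_vol_ge hh z)).ne'
    refine (enorm_sub_average_sq_le h0 (cell_vol_lt hh z).ne (hint z) (f z)).trans ?_
    have hmeas : MeasurableSet {w | cellC h w = cellC h z} :=
      cellC_meas h (measurableSet_singleton _)
    refine mul_le_mul' (ENNReal.inv_le_inv.2 (cell_vol_ge hh z)) ?_
    rw [← lintegral_indicator hmeas]
    rw [← lintegral_sub_left_eq_self _ z]
    refine lintegral_mono fun y => ?_
    by_cases hy : z - y ∈ {w | cellC h w = cellC h z}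
    · have hy2 : y ∈ Metric.ball (0 : C3) (2 * h) := by
        have := cell_dist hh hy
        rw [mem_ball_zero_iff]
        simpa using this
      rw [Set.indicator_of_mem hy, Set.indicator_of_mem hy2, ← enorm_neg, neg_sub]
    · rw [Set.indicator_of_notMem hy]; exact zero_le
  have hmeas2 : AEMeasurable (Function.uncurry fun (z y : C3) =>
      (Metric.ball (0 : C3) (2 * h)).indicator (fun y => ‖f (z - y) - f z‖ₑ ^ 2) y)
      (volume.prod volume) := by
    have h1 : Measurable (fun p : C3 × C3 => ‖f (p.1 - p.2) - f p.1‖ₑ ^ 2) := by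
      have h2 : StronglyMeasurable (fun p : C3 × C3 => f (p.1 - p.2) - f p.1) :=
        (hf.comp_measurable (measurable_fst.sub measurable_snd)).sub
          (hf.comp_measurable measurable_fst)
      exact h2.enorm.pow_const 2
    have h3 : (Function.uncurry fun (z y : C3) =>
      (Metric.ball (0 : C3) (2 * h)).indicator (fun y => ‖f (z - y) - f z‖ₑ ^ 2) y) =
      (Prod.snd ⁻¹' (Metric.ball (0 : C3) (2 * h))).indicator
        (fun p : C3 × C3 => ‖f (p.1 - p.2) - f p.1‖ₑ ^ 2) := by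
      funext p
      rfl
    rw [h3]
    exact (h1.indicator (measurable_snd measurableSet_ball)).aemeasurable
  calc ∫⁻ z, ‖f z - cellAvg h f (cellC h z)‖ₑ ^ 2
      ≤ ∫⁻ z, μ0⁻¹ * ∫⁻ y, (Metric.ball (0 : C3) (2 * h)).indicator
          (fun y => ‖f (z - y) - f z‖ₑ ^ 2) y := lintegral_mono step1
    _ = μ0⁻¹ * ∫⁻ z, ∫⁻ y, (Metric.ball (0 : C3) (2 * h)).indicator
          (fun y => ‖f (z - y) - f z‖ₑ ^ 2) y :=
        lintegral_const_mul' _ _ (ENNReal.inv_ne_top.2 hμ0pos)
    _ = μ0⁻¹ * ∫⁻ y, ∫⁻ z, (Metric.ball (0 : C3) (2 * h)).indicator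
          (fun y => ‖f (z - y) - f z‖ₑ ^ 2) y := by rw [lintegral_lintegral_swap hmeas2]
    _ ≤ μ0⁻¹ * ∫⁻ y, (Metric.ball (0 : C3) (2 * h)).indicator (fun _ => D) y := by
        gcongr with y
        by_cases hy : y ∈ Metric.ball (0 : C3) (2 * h)
        · simp only [Set.indicator_of_mem hy]
          exact ht y (mem_ball_zero_iff.1 hy)
        · simp only [Set.indicator_of_notMem hy, lintegral_zero, le_refl]
    _ = μ0⁻¹ * (D * volume (Metric.ball (0 : C3) (2 * h))) := by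
        rw [lintegral_indicator measurableSet_ball, setLIntegral_const]
    _ = ENNReal.ofReal (4 ^ Module.finrank ℝ C3) * D := by
        have e : (2 * h) = 4 * (h / 2) := by ring
        rw [e, Measure.addHaar_ball_mul_of_pos volume 0 (by norm_num : (0 : ℝ) < 4) (h / 2),
          ← hμ0]
        calc μ0⁻¹ * (D * (ENNReal.ofReal (4 ^ Module.finrank ℝ C3) * μ0))
            = (μ0⁻¹ * μ0) * (ENNReal.ofReal (4 ^ Module.finrank ℝ C3) * D) := by ring
          _ = _ := by rw [ENNReal.inv_mul_cancel hμ0pos hμ0top, one_mul]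

private lemma isCompactOperator_of_approx {X H : Type*} [NormedAddCommGroup X] [NormedSpace ℂ X]
    [NormedAddCommGroup H] [InnerProductSpace ℂ H] [CompleteSpace H] (T : X →L[ℂ] H)
    (h : ∀ ε : ℝ, 0 < ε → ∃ V : Submodule ℂ H, FiniteDimensional ℂ V ∧
      ∀ x, ∃ g ∈ V, ‖T x - g‖ ≤ ε * ‖x‖) : IsCompactOperator T := by
  have hpos : ∀ n : ℕ, (0 : ℝ) < 1 / ((n : ℝ) + 1) := fun n => Nat.one_div_pos_of_nat
  choose V hV hVg using fun n : ℕ => h (1 / ((n : ℝ) + 1)) (hpos n)
  have hproj : ∀ n, (V n).HasOrthogonalProjection := fun n => by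
    have := hV n
    infer_instance
  set F : ℕ → X →L[ℂ] H := fun n =>
    (V n).subtypeL ∘L ((V n).orthogonalProjectionOnto ∘L T) with hF
  refine isCompactOperator_of_tendsto (l := atTop) (F := F) (f := T) ?_ ?_
  · rw [tendsto_iff_norm_sub_tendsto_zero]
    refine squeeze_zero (fun _ => norm_nonneg _) (fun n => ?_) tendsto_one_div_add_atTop_nhds_zero_nat
    refine ContinuousLinearMap.opNorm_le_bound _ (hpos n).le fun x => ?_
    obtain ⟨g, hg, hgn⟩ := hVg n x
    have e : ‖(F n - T) x‖ = ‖T x - (V n).starProjection (T x)‖ := by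
      rw [← norm_neg]
      congr 1
      simp only [hF, sub_apply, neg_sub]
      rfl
    rw [e, Submodule.starProjection_minimal]
    exact (ciInf_le ⟨0, by rintro _ ⟨y, rfl⟩; exact norm_nonneg _⟩ (⟨g, hg⟩ : V n)).trans hgn
  · refine Eventually.of_forall fun n => ?_
    have := hV n
    have h1 : IsCompactOperator (V n).subtypeL := isCompactOperator_of_locallyCompactSpace_rng _
    exact h1.comp_clm ((V n).orthogonalProjectionOnto ∘L T)

private lemma cell_finite {h : ℝ} (hh : 0 < h) (R : ℝ) :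
    (cellC h '' {z : C3 | ‖z‖ ≤ R}).Finite := by
  refine Set.Finite.subset (Set.Finite.pi (fun _ : Fin 3 =>
    (Set.finite_Icc ⌊-R / h⌋ ⌊R / h⌋).prod (Set.finite_Icc ⌊-R / h⌋ ⌊R / h⌋))) ?_
  rintro _ ⟨z, hz, rfl⟩
  intro i _
  have hz' : ‖z i‖ ≤ R := (norm_le_pi_norm z i).trans hz
  have key : ∀ a : ℝ, |a| ≤ R → ⌊a / h⌋ ∈ Set.Icc ⌊-R / h⌋ ⌊R / h⌋ := by
    intro a ha
    rw [abs_le] at ha
    exact ⟨Int.floor_le_floor (div_le_div_of_nonneg_right ha.1 hh.le),
      Int.floor_le_floor (div_le_div_of_nonneg_right ha.2 hh.le)⟩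
  exact ⟨key _ ((Complex.abs_re_le_norm _).trans hz'), key _ ((Complex.abs_im_le_norm _).trans hz')⟩

/-- Step function with values `φ k` on the cells with index in the finite set `I`. -/
private def stepF (h : ℝ) (I : Finset (Fin 3 → ℤ × ℤ)) (φ : I → Fm m) (z : C3) : Fm m :=
  if hk : cellC h z ∈ I then φ ⟨cellC h z, hk⟩ else 0

private lemma stepF_memLp {h : ℝ} (hh : 0 < h) (I : Finset (Fin 3 → ℤ × ℤ)) (φ : I → Fm m) :
    MemLp (stepF h I φ) 2 volume := by
  have e : stepF h I φ = fun z => ∑ k : I,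
      ({w | cellC h w = (k : Fin 3 → ℤ × ℤ)}).indicator (fun _ => φ k) z := by
    funext z
    by_cases hk : cellC h z ∈ I
    · rw [stepF, dif_pos hk, Finset.sum_eq_single (⟨cellC h z, hk⟩ : I)]
      · rw [Set.indicator_of_mem]; rfl
      · intro k _ hne
        rw [Set.indicator_of_notMem]
        intro hz
        exact hne (Subtype.ext hz.symm)
      · intro hn; exact absurd (Finset.mem_univ _) hn
    · rw [stepF, dif_neg hk, Finset.sum_eq_zero]
      intro k _
      rw [Set.indicator_of_notMem]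
      intro hz
      exact hk (by rw [show cellC h z = k from hz]; exact k.2)
  rw [e]
  refine memLp_finsetSum _ fun k _ => ?_
  refine memLp_indicator_const 2 (cellC_meas h (measurableSet_singleton _)) _ (Or.inr ?_)
  by_cases hne : ∃ z, cellC h z = (k : Fin 3 → ℤ × ℤ)
  · obtain ⟨z, hz⟩ := hne
    rw [← hz]
    exact (cell_vol_lt hh z).ne
  · have : cellC h ⁻¹' {(k : Fin 3 → ℤ × ℤ)} = ∅ := by
      ext w; simp only [Set.mem_preimage, Set.mem_singleton_iff, Set.mem_empty_iff_false, iff_false]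
      intro hw; exact hne ⟨w, hw⟩
    rw [this]; simp

/-- Step functions as elements of `L²`. -/
private def stepL {h : ℝ} (hh : 0 < h) (I : Finset (Fin 3 → ℤ × ℤ)) :
    (I → Fm m) →ₗ[ℂ] Lp (Fm m) 2 (volume : Measure C3) where
  toFun φ := (stepF_memLp hh I φ).toLp _
  map_add' φ φ' := by
    rw [← MemLp.toLp_add]
    refine MemLp.toLp_congr _ _ (Eventually.of_forall fun z => ?_)
    by_cases hk : cellC h z ∈ I <;> simp [stepF, hk]
  map_smul' c φ := by
    rw [RingHom.id_apply, ← MemLp.toLp_const_smul]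
    refine MemLp.toLp_congr _ _ (Eventually.of_forall fun z => ?_)
    by_cases hk : cellC h z ∈ I <;> simp [stepF, hk]

theorem compact_of_translation {X : Type*} [NormedAddCommGroup X] [NormedSpace ℂ X]
    (T : X →L[ℂ] Lp (Fm m) 2 (volume : Measure C3)) (R : ℝ)
    (hsupp : ∀ x, ∀ᵐ z, T x z ≠ 0 → ‖z‖ ≤ R) (C : ℝ)
    (ht : ∀ x : X, ∀ y : C3, ∫ z, ‖T x (z - y) - T x z‖ ^ 2 ≤ C * ‖y‖ ^ 2 * ‖x‖ ^ 2) :
    IsCompactOperator T := by
  set d := Module.finrank ℝ C3 with hd
  set A : ℝ := Real.sqrt (4 ^ d * |C|) * 2 + 1 with hA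
  have hApos : 0 < A := by positivity
  refine isCompactOperator_of_approx T fun ε hε => ?_
  set h : ℝ := ε / A with hh'
  have hh : 0 < h := div_pos hε hApos
  set I : Finset (Fin 3 → ℤ × ℤ) := (cell_finite hh R).toFinset with hI
  refine ⟨LinearMap.range (stepL (m := m) hh I), inferInstance, fun x => ?_⟩
  set f : C3 → Fm m := (T x : C3 → Fm m) with hf
  have hfm : StronglyMeasurable f := Lp.stronglyMeasurable (T x)
  have hf2 : MemLp f 2 volume := Lp.memLp (T x)
  refine ⟨stepL hh I (fun k => cellAvg h f k), ⟨_, rfl⟩, ?_⟩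
  -- translation estimate for the lower integral
  have ht' : ∀ y : C3, ‖y‖ < 2 * h →
      ∫⁻ z, ‖f (z - y) - f z‖ₑ ^ 2 ≤ ENNReal.ofReal (|C| * (2 * h) ^ 2 * ‖x‖ ^ 2) := by
    intro y hy
    have h1 : MemLp (fun z => f (z - y)) 2 volume :=
      hf2.comp_measurePreserving (measurePreserving_sub_right volume y)
    have h2 : MemLp (fun z => f (z - y) - f z) 2 volume := h1.sub hf2
    have h3 : Integrable (fun z => ‖f (z - y) - f z‖ ^ 2) volume := h2.norm.integrable_sq
    have h4 := ofReal_integral_eq_lintegral_ofReal h3 (Eventually.of_forall fun z => by positivity)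
    have h5 : ∀ z, ENNReal.ofReal (‖f (z - y) - f z‖ ^ 2) = ‖f (z - y) - f z‖ₑ ^ 2 := by
      intro z
      rw [ENNReal.ofReal_pow (norm_nonneg _), ofReal_norm]
    simp only [h5] at h4
    rw [← h4]
    apply ENNReal.ofReal_le_ofReal
    refine (ht x y).trans ?_
    have h6 : C * ‖y‖ ^ 2 ≤ |C| * (2 * h) ^ 2 := by
      calc C * ‖y‖ ^ 2 ≤ |C| * ‖y‖ ^ 2 := by gcongr; exact le_abs_self C
        _ ≤ |C| * (2 * h) ^ 2 := by gcongr
    gcongr
  have hest := cell_estimate hh hfm hf2 _ ht'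
  -- the norm
  have hsub : (T x - stepL hh I (fun k => cellAvg h f k) : Lp (Fm m) 2 (volume : Measure C3))
      =ᵐ[volume] fun z => f z - stepF h I (fun k => cellAvg h f k) z := by
    refine (Lp.coeFn_sub _ _).trans ?_
    filter_upwards [(stepF_memLp hh I (fun k => cellAvg h f k)).coeFn_toLp] with z hz
    rw [Pi.sub_apply]
    congr 1
  have hle : ∫⁻ z, ‖f z - stepF h I (fun k => cellAvg h f k) z‖ₑ ^ 2 ≤
      ∫⁻ z, ‖f z - cellAvg h f (cellC h z)‖ₑ ^ 2 := by
    refine lintegral_mono_ae ?_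
    filter_upwards [hsupp x] with z hz
    by_cases hk : cellC h z ∈ I
    · rw [stepF, dif_pos hk]
    · rw [stepF, dif_neg hk]
      have hz0 : f z = 0 := by
        by_contra hne
        apply hk
        rw [hI, Set.Finite.mem_toFinset]
        exact ⟨z, hz hne, rfl⟩
      rw [hz0]
      simp
  have hnorm : ‖T x - stepL hh I (fun k => cellAvg h f k)‖ₑ ^ 2 ≤
      ENNReal.ofReal (4 ^ d) * ENNReal.ofReal (|C| * (2 * h) ^ 2 * ‖x‖ ^ 2) := by
    rw [Lp.enorm_def, eLpNorm_congr_ae hsub]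
    refine le_trans ?_ (hle.trans hest)
    rw [eLpNorm_eq_lintegral_rpow_enorm_toReal (by norm_num) (by norm_num)]
    rw [← ENNReal.rpow_natCast, ← ENNReal.rpow_mul]
    norm_num
  rw [← ENNReal.ofReal_mul (by positivity), ← ofReal_norm, ← ENNReal.ofReal_pow (norm_nonneg _),
    ENNReal.ofReal_le_ofReal_iff (by positivity)] at hnorm
  have h7 : ‖T x - stepL hh I (fun k => cellAvg h f k)‖ ≤
      Real.sqrt (4 ^ d * |C|) * (2 * h) * ‖x‖ := by
    refine (sq_le_sq₀ (norm_nonneg _) (by positivity)).1 ?_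
    rw [mul_pow, mul_pow, Real.sq_sqrt (by positivity)]
    calc _ ≤ 4 ^ d * (|C| * (2 * h) ^ 2 * ‖x‖ ^ 2) := hnorm
      _ = _ := by ring
  refine h7.trans ?_
  have h8 : Real.sqrt (4 ^ d * |C|) * (2 * h) ≤ ε := by
    have : Real.sqrt (4 ^ d * |C|) * 2 ≤ A := by rw [hA]; linarith
    calc Real.sqrt (4 ^ d * |C|) * (2 * h) = Real.sqrt (4 ^ d * |C|) * 2 * h := by ring
      _ ≤ A * h := by gcongr
      _ = ε := by rw [hh']; field_simp
  gcongr

end

end Pool.Agent.HopfEmb
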