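import Pool.Agent.Lib.MP_d404b9_ag.Per

/-!
# The two interfaces: cocycle data on the Hopf threefold, and projection data with sections
-/

set_option autoImplicit false

open Complex Filter Topology
open scoped ContDiff ComplexConjugate

namespace Pool.Agent.HopfEmb

noncomputable section

/-- A holomorphic vector bundle of rank `N` on the Hopf threefold `(ℂ³ ∖ 0)/(z ~ 2z)`, given by a
`2`-periodic cocycle on `ℂ³ ∖ 0`, with a holomorphic section `s` which vanishes at `e1` with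
`s = (z_0 - 1) a + z_1 b + z_2 c` near `e1`, but does not vanish at the points `t e1`, `t ≠ 1`
close to `1`. -/
structure HopfData (N : ℕ) (I : Type) where
  V : I → Set C3
  V_open : ∀ i, IsOpen (V i)
  V_zero : ∀ i, (0 : C3) ∉ V i
  V_cover : ∀ z : C3, z ≠ 0 → ∃ i, z ∈ V i
  V_scale : ∀ i, ∀ z : C3, (2 : ℂ) • z ∈ V i ↔ z ∈ V i
  g : I → I → C3 → (Fm N →L[ℂ] Fm N)
  g_an : ∀ i k, ∀ z ∈ V i ∩ V k, AnalyticAt ℂ (g i k) z
  g_scale : ∀ i k, ∀ z ∈ V i ∩ V k, g i k ((2 : ℂ) • z) = g i k z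
  g_self : ∀ i, ∀ z ∈ V i, g i i z = ContinuousLinearMap.id ℂ (Fm N)
  g_mul : ∀ i k l, ∀ z ∈ V i ∩ V k ∩ V l, g i k z ∘L g k l z = g i l z
  s : I → C3 → Fm N
  s_an : ∀ i, ∀ z ∈ V i, AnalyticAt ℂ (s i) z
  s_scale : ∀ i, ∀ z ∈ V i, s i ((2 : ℂ) • z) = s i z
  s_trans : ∀ i k, ∀ z ∈ V i ∩ V k, s i z = g i k z (s k z)
  i₀ : I
  mem₀ : e1 ∈ V i₀
  a : C3 → Fm N
  b : C3 → Fm N
  c : C3 → Fm N
  a_an : AnalyticAt ℂ a e1
  b_an : AnalyticAt ℂ b e1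
  c_an : AnalyticAt ℂ c e1
  s_eq : ∀ᶠ z in 𝓝 e1, s i₀ z = (z 0 - 1) • a z + z 1 • b z + z 2 • c z
  s_ne : ∀ᶠ t in 𝓝[≠] (1 : ℂ), s i₀ (t • e1) ≠ 0

variable {m : ℕ}

/-- A holomorphic section of the bundle `(P, E)` on a set `D`. -/
structure HolSec (P : C3 → (Fm m →L[ℂ] Fm m)) (E : Fin 3 → C3 → (Fm m →L[ℂ] Fm m))
    (D : Set C3) (σ : C3 → Fm m) : Prop where
  smooth : ∀ z ∈ D, ContDiffAt ℝ ∞ σ z
  proj : ∀ z ∈ D, P z (σ z) = σ z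
  hol : ∀ j, ∀ z ∈ D, dbar j σ z = E j z (σ z)

/-- A global `2`-periodic holomorphic section `σ` with the local structure near `e1`. -/
structure SecData (P : C3 → (Fm m →L[ℂ] Fm m)) (E : Fin 3 → C3 → (Fm m →L[ℂ] Fm m)) where
  σ : C3 → Fm m
  A : C3 → Fm m
  B : C3 → Fm m
  C : C3 → Fm m
  ε : ℝ
  ε_pos : 0 < ε
  σ_hol : HolSec P E {z | z ≠ 0} σ
  σ_scale : ∀ z : C3, z ≠ 0 → σ ((2 : ℂ) • z) = σ z
  A_hol : HolSec P E (Metric.ball e1 ε) A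
  B_hol : HolSec P E (Metric.ball e1 ε) B
  C_hol : HolSec P E (Metric.ball e1 ε) C
  σ_eq : ∀ z ∈ Metric.ball e1 ε, σ z = (z 0 - 1) • A z + z 1 • B z + z 2 • C z
  σ_ne : ∀ᶠ t in 𝓝[≠] (1 : ℂ), σ (t • e1) ≠ 0

end

end Pool.Agent.HopfEmb
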