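import Pool.Agent.Lib.MP_d404b9_ag.Adj
import Pool.Agent.Lib.MP_d404b9_ag.Compact

/-!
# JOB EST-BASE: auxiliary statements

-/

set_option autoImplicit false

open MeasureTheory Complex Filter Topology
open scoped ContDiff ComplexConjugate

namespace Pool.Agent.HopfEmb

noncomputable section

variable {m : ℕ}

/-- The functions underlying a tuple in `HP P`. -/
def fn {P : C3 → (Fm m →L[ℂ] Fm m)} (f : Fin 3 → HP P) (j : Fin 3) : C3 → Fm m :=
  ((f j : Lp (Fm m) 2 μS) : C3 → Fm m)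

theorem est_zero_smul (A : Fm m →L[ℂ] Fm m) : (0 : ℂ) • A = 0 := by
  ext v
  simp

theorem estBase_R2_contDiff : ContDiff ℝ ∞ R2 := by
  unfold R2
  refine ContDiff.sum fun i _ => ?_
  exact (contDiff_norm_sq ℝ).comp (contDiff_apply ℝ ℂ i)

theorem estBase_R2_nonneg (z : C3) : 0 ≤ R2 z := Finset.sum_nonneg fun _ _ => by positivity

theorem estBase_norm_le (z : C3) : ‖z‖ ≤ rr z := by
  have h0 : 0 ≤ rr z := Real.sqrt_nonneg _
  rw [pi_norm_le_iff_of_nonneg h0]
  intro i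
  apply Real.le_sqrt_of_sq_le
  exact Finset.single_le_sum (f := fun i => ‖z i‖ ^ 2) (fun _ _ => by positivity)
    (Finset.mem_univ i)

theorem estBase_rr_sq (z : C3) : rr z ^ 2 = R2 z := Real.sq_sqrt (estBase_R2_nonneg z)

/-- A cutoff function. -/
theorem exists_cutoff : ∃ ρ : C3 → ℝ, ContDiff ℝ ∞ ρ ∧ HasCompactSupport ρ ∧
    (0 : C3) ∉ tsupport ρ ∧ (∀ z ∈ S, ρ z = 1) ∧ (∀ z, 0 ≤ ρ z ∧ ρ z ≤ 1) ∧
    (∀ z, ρ z ≠ 0 → 1 / 4 ≤ rr z ∧ rr z ≤ 8) := by
  have hR := estBase_R2_contDiff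
  set ρ : C3 → ℝ := fun z => Real.smoothTransition (2 * R2 z - 1) *
    Real.smoothTransition (5 - R2 z) with hρ
  have hsupp : ∀ z, ρ z ≠ 0 → 1 / 2 ≤ R2 z ∧ R2 z ≤ 5 := by
    intro z hz
    constructor
    · by_contra h
      push Not at h
      exact hz (by simp only [hρ]; rw [Real.smoothTransition.zero_of_nonpos (by linarith), zero_mul])
    · by_contra h
      push Not at h
      exact hz (by
        simp only [hρ]
        rw [Real.smoothTransition.zero_of_nonpos (x := 5 - R2 z) (by linarith), mul_zero])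
  have hcl : IsClosed {z : C3 | 1 / 2 ≤ R2 z ∧ R2 z ≤ 5} :=
    (isClosed_le continuous_const hR.continuous).inter (isClosed_le hR.continuous continuous_const)
  have hts : tsupport ρ ⊆ {z : C3 | 1 / 2 ≤ R2 z ∧ R2 z ≤ 5} :=
    closure_minimal (fun z hz => hsupp z hz) hcl
  have hbound : {z : C3 | 1 / 2 ≤ R2 z ∧ R2 z ≤ 5} ⊆ Metric.closedBall 0 3 := by
    intro z hz
    rw [mem_closedBall_zero_iff]
    refine (estBase_norm_le z).trans ?_
    rw [rr, Real.sqrt_le_left (by norm_num)]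
    linarith [hz.2]
  refine ⟨ρ, ?_, ?_, ?_, ?_, ?_, ?_⟩
  · exact (Real.smoothTransition.contDiff.comp ((contDiff_const.mul hR).sub contDiff_const)).mul
      (Real.smoothTransition.contDiff.comp (contDiff_const.sub hR))
  · exact (isCompact_closedBall (0 : C3) 3).of_isClosed_subset (isClosed_tsupport _)
      (hts.trans hbound)
  · intro h
    have := (hts h).1
    simp [R2] at this
    norm_num at this
  · intro z hz
    have h1 : 1 ≤ R2 z := by
      rw [← estBase_rr_sq]; nlinarith [hz.1]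
    have h2 : R2 z ≤ 4 := by
      rw [← estBase_rr_sq]
      have := hz.2
      have := hz.1
      nlinarith
    simp only [hρ]
    rw [Real.smoothTransition.one_of_one_le (by linarith),
      Real.smoothTransition.one_of_one_le (by linarith), mul_one]
  · intro z
    exact ⟨mul_nonneg (Real.smoothTransition.nonneg _) (Real.smoothTransition.nonneg _),
      mul_le_one₀ (Real.smoothTransition.le_one _) (Real.smoothTransition.nonneg _)
        (Real.smoothTransition.le_one _)⟩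
  · intro z hz
    obtain ⟨h1, h2⟩ := hsupp z hz
    constructor
    · apply Real.le_sqrt_of_sq_le
      norm_num
      linarith
    · rw [rr, Real.sqrt_le_left (by norm_num)]
      linarith

theorem ext_LI (q : ℕ) (u : Lp (Fm m) 2 μS) : LI (ext q u) := by
  intro x hx
  have hx0 : x ≠ 0 := hx
  have hxn : 0 < ‖x‖ := norm_pos_iff.2 hx0
  let ψ : ContDiffBump x := ⟨‖x‖ / 4, ‖x‖ / 2, by positivity, by linarith⟩
  have hA : Continuous (fun z => ((ψ z : ℝ) : ℂ) • ContinuousLinearMap.id ℂ (Fm m)) :=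
    (continuous_ofReal.comp ψ.continuous).smul continuous_const
  have hsub : tsupport (fun z => ((ψ z : ℝ) : ℂ) • ContinuousLinearMap.id ℂ (Fm m)) ⊆
      Metric.closedBall x (‖x‖ / 2) := by
    refine closure_minimal ?_ Metric.isClosed_closedBall
    intro z hz
    have : ψ z ≠ 0 := by
      intro h
      apply hz
      simp only [h, ofReal_zero]
      exact est_zero_smul _
    have hz2 : z ∈ Function.support ψ := this
    rw [ψ.support_eq] at hz2
    exact Metric.ball_subset_closedBall hz2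
  obtain ⟨C, -, hC⟩ := ext_bound hA
    ((isCompact_closedBall x (‖x‖ / 2)).of_isClosed_subset (isClosed_tsupport _) hsub)
    (by
      intro h
      have := hsub h
      rw [Metric.mem_closedBall, dist_zero_left] at this
      linarith) q
  have h1 := (hC u).1
  refine ⟨Metric.ball x (‖x‖ / 4), mem_nhdsWithin_of_mem_nhds (Metric.ball_mem_nhds x
    (by positivity)), ?_⟩
  have hfin : IsFiniteMeasure (volume.restrict (Metric.ball x (‖x‖ / 4))) :=
    ⟨by simpa using measure_ball_lt_top⟩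
  have h2 : Integrable (fun z => (((ψ z : ℝ) : ℂ) • ContinuousLinearMap.id ℂ (Fm m)) (ext q u z))
      (volume.restrict (Metric.ball x (‖x‖ / 4))) := (h1.restrict _).integrable (by norm_num)
  refine h2.congr ?_
  filter_upwards [ae_restrict_mem measurableSet_ball] with z hz
  rw [ψ.one_of_mem_closedBall (Metric.ball_subset_closedBall hz)]
  simp

/-! ### tools for the a priori estimates -/

/-- Continuous coefficients with compact support away from the origin. -/
def EstAdm (A : C3 → (Fm m →L[ℂ] Fm m)) : Prop :=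
  Continuous A ∧ HasCompactSupport A ∧ (0 : C3) ∉ tsupport A

theorem est_adm_smul {ρ : C3 → ℂ} (hρ : Continuous ρ) (hc : HasCompactSupport ρ)
    (h0 : (0 : C3) ∉ tsupport ρ) {B : C3 → (Fm m →L[ℂ] Fm m)}
    (hB : ContinuousOn B {z | z ≠ 0}) : EstAdm (fun z => ρ z • B z) := by
  have hsub : tsupport (fun z => ρ z • B z) ⊆ tsupport ρ := by
    refine closure_mono ?_
    intro z hz h
    exact hz (by simp only [h]; exact est_zero_smul _)
  refine ⟨?_, hc.mono' (fun z hz => hsub (subset_closure hz)), fun h => h0 (hsub h)⟩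
  rw [continuous_iff_continuousAt]
  intro z
  by_cases hz : z ∈ tsupport ρ
  · have hz0 : z ≠ 0 := fun h => h0 (h ▸ hz)
    exact hρ.continuousAt.smul (hB.continuousAt (isOpen_ne.mem_nhds hz0))
  · have h1 : (fun z => ρ z • B z) =ᶠ[𝓝 z] fun _ => 0 := by
      filter_upwards [(isClosed_tsupport ρ).isOpen_compl.mem_nhds hz] with y hy
      rw [image_eq_zero_of_notMem_tsupport hy]
      exact est_zero_smul _
    exact continuousAt_const.congr h1.symm

theorem est_dbar_test {ρ : C3 → ℂ} (hρ : IsTest ρ) (j : Fin 3) :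
    Continuous (dbar j ρ) ∧ HasCompactSupport (dbar j ρ) ∧ (0 : C3) ∉ tsupport (dbar j ρ) := by
  have hf : Continuous (fderiv ℝ ρ) := hρ.smooth.continuous_fderiv (by simp)
  have hsub : tsupport (dbar j ρ) ⊆ tsupport ρ := by
    refine closure_minimal ?_ (isClosed_tsupport _)
    intro z hz
    by_contra hz2
    apply hz
    have : fderiv ℝ ρ z = 0 := by
      by_contra h3
      exact hz2 (support_fderiv_subset ℝ h3)
    simp [dbar, this]
  refine ⟨?_, hρ.compact.mono' (fun z hz => hsub (subset_closure hz)),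
    fun h => hρ.zero_notMem (hsub h)⟩
  have hf1 : Continuous (fun z => fderiv ℝ ρ z (Pi.single j (1 : ℂ))) :=
    hf.clm_apply continuous_const
  have hf2 : Continuous (fun z => fderiv ℝ ρ z (Pi.single j I)) := hf.clm_apply continuous_const
  exact (hf1.add (hf2.const_smul I)).const_smul (1 / 2 : ℂ)

theorem est_ddel_test {ρ : C3 → ℂ} (hρ : IsTest ρ) (j : Fin 3) :
    Continuous (ddel j ρ) ∧ HasCompactSupport (ddel j ρ) ∧ (0 : C3) ∉ tsupport (ddel j ρ) := by
  have hf : Continuous (fderiv ℝ ρ) := hρ.smooth.continuous_fderiv (by simp)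
  have hsub : tsupport (ddel j ρ) ⊆ tsupport ρ := by
    refine closure_minimal ?_ (isClosed_tsupport _)
    intro z hz
    by_contra hz2
    apply hz
    have : fderiv ℝ ρ z = 0 := by
      by_contra h3
      exact hz2 (support_fderiv_subset ℝ h3)
    simp [ddel, this]
  refine ⟨?_, hρ.compact.mono' (fun z hz => hsub (subset_closure hz)),
    fun h => hρ.zero_notMem (hsub h)⟩
  have hf1 : Continuous (fun z => fderiv ℝ ρ z (Pi.single j (1 : ℂ))) :=
    hf.clm_apply continuous_const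
  have hf2 : Continuous (fun z => fderiv ℝ ρ z (Pi.single j I)) := hf.clm_apply continuous_const
  exact (hf1.sub (hf2.const_smul I)).const_smul (1 / 2 : ℂ)

/-- `g y` is square integrable with `‖g y‖² ≤ C N(y)`. -/
def EstBd {Y : Type*} (N : Y → ℝ) (g : Y → C3 → Fm m) : Prop :=
  ∃ C : ℝ, 0 ≤ C ∧ ∀ y, MemLp (g y) 2 volume ∧ ∫ z, ‖g y z‖ ^ 2 ≤ C * N y

theorem est_sq_add_le (a b : Fm m) : ‖a + b‖ ^ 2 ≤ 2 * ‖a‖ ^ 2 + 2 * ‖b‖ ^ 2 := by
  have h := norm_add_le a b
  have h2 : ‖a + b‖ ^ 2 ≤ (‖a‖ + ‖b‖) ^ 2 := pow_le_pow_left₀ (norm_nonneg _) h 2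
  nlinarith [sq_nonneg (‖a‖ - ‖b‖)]

theorem EstBd.add {Y : Type*} {N : Y → ℝ} {g g' : Y → C3 → Fm m}
    (h : EstBd N g) (h' : EstBd N g') : EstBd N (fun y z => g y z + g' y z) := by
  obtain ⟨C, hC, h⟩ := h
  obtain ⟨C', hC', h'⟩ := h'
  refine ⟨2 * C + 2 * C', by positivity, fun y => ⟨(h y).1.add (h' y).1, ?_⟩⟩
  have i1 : Integrable (fun z => ‖g y z‖ ^ 2) := (h y).1.norm.integrable_sq
  have i2 : Integrable (fun z => ‖g' y z‖ ^ 2) := (h' y).1.norm.integrable_sq
  calc ∫ z, ‖g y z + g' y z‖ ^ 2 ≤ ∫ z, (2 * ‖g y z‖ ^ 2 + 2 * ‖g' y z‖ ^ 2) := by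
        refine integral_mono ((h y).1.add (h' y).1).norm.integrable_sq
          ((i1.const_mul 2).add (i2.const_mul 2)) fun z => ?_
        exact est_sq_add_le _ _
    _ = 2 * (∫ z, ‖g y z‖ ^ 2) + 2 * (∫ z, ‖g' y z‖ ^ 2) := by
        rw [integral_add (i1.const_mul 2) (i2.const_mul 2), integral_const_mul,
          integral_const_mul]
    _ ≤ 2 * (C * N y) + 2 * (C' * N y) := by
        have := (h y).2
        have := (h' y).2
        linarith
    _ = _ := by ring

theorem EstBd.neg {Y : Type*} {N : Y → ℝ} {g : Y → C3 → Fm m}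
    (h : EstBd N g) : EstBd N (fun y z => - g y z) := by
  obtain ⟨C, hC, h⟩ := h
  refine ⟨C, hC, fun y => ⟨(h y).1.neg, ?_⟩⟩
  simp only [norm_neg]
  exact (h y).2

theorem EstBd.sub {Y : Type*} {N : Y → ℝ} {g g' : Y → C3 → Fm m}
    (h : EstBd N g) (h' : EstBd N g') : EstBd N (fun y z => g y z - g' y z) := by
  simpa only [sub_eq_add_neg] using h.add h'.neg

theorem EstBd.sum {Y : Type*} {N : Y → ℝ} {g : Fin 3 → Y → C3 → Fm m}
    (h : ∀ j, EstBd N (g j)) : EstBd N (fun y z => ∑ j : Fin 3, g j y z) := by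
  simp only [Fin.sum_univ_three]
  exact ((h 0).add (h 1)).add (h 2)

theorem EstBd.congr {Y : Type*} {N : Y → ℝ} {g g' : Y → C3 → Fm m}
    (h : EstBd N g) (he : ∀ y z, g' y z = g y z) : EstBd N g' := by
  have : g' = g := by funext y z; exact he y z
  rw [this]; exact h

theorem EstBd.congr_ae {Y : Type*} {N : Y → ℝ} {g g' : Y → C3 → Fm m}
    (h : EstBd N g) (he : ∀ y, ∀ᵐ z, g' y z = g y z) : EstBd N g' := by
  obtain ⟨C, hC, h⟩ := h
  refine ⟨C, hC, fun y => ⟨(memLp_congr_ae (he y)).2 (h y).1, ?_⟩⟩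
  rw [integral_congr_ae (g := fun z => ‖g y z‖ ^ 2)]
  · exact (h y).2
  · filter_upwards [he y] with z hz
    rw [hz]

theorem est_bd_ext {Y : Type*} {N : Y → ℝ} {A : C3 → (Fm m →L[ℂ] Fm m)} (hA : EstAdm A) (q : ℕ)
    (u : Y → Lp (Fm m) 2 μS) (hu : ∀ y, ‖u y‖ ^ 2 ≤ N y) :
    EstBd N (fun y z => A z (ext q (u y) z)) := by
  obtain ⟨C, hC, h⟩ := ext_bound hA.1 hA.2.1 hA.2.2 q
  exact ⟨C, hC, fun y => ⟨(h (u y)).1, (h (u y)).2.trans
    (mul_le_mul_of_nonneg_left (hu y) hC)⟩⟩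

/-- The bound for a triple. -/
theorem EstBd.sum_sq {Y : Type*} {N : Y → ℝ} {g : Fin 3 → Y → C3 → Fm m}
    (h : ∀ j, EstBd N (g j)) :
    ∃ C : ℝ, 0 ≤ C ∧ ∀ y, ∫ z, ∑ j : Fin 3, ‖g j y z‖ ^ 2 ≤ C * N y := by
  choose C hC h using h
  refine ⟨∑ j, C j, Finset.sum_nonneg fun j _ => hC j, fun y => ?_⟩
  rw [integral_finsetSum _ fun j _ => (h j y).1.norm.integrable_sq, Finset.sum_mul]
  exact Finset.sum_le_sum fun j _ => (h j y).2

/-- The support condition for a localized function. -/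
theorem est_supp {ρ : C3 → ℝ} (hρ : ∀ z, ρ z ≠ 0 → 1 / 4 ≤ rr z ∧ rr z ≤ 8) (U : C3 → Fm m) (z : C3)
    (h : ((ρ z : ℝ) : ℂ) • U z ≠ 0) : 1 / 4 ≤ rr z ∧ rr z ≤ 8 := by
  apply hρ
  intro h2
  apply h
  rw [h2]; simp

theorem est_isTest {ρ : C3 → ℝ} (h1 : ContDiff ℝ ∞ ρ) (h2 : HasCompactSupport ρ)
    (h3 : (0 : C3) ∉ tsupport ρ) : IsTest (fun z => ((ρ z : ℝ) : ℂ)) := by
  have hsub : tsupport (fun z => ((ρ z : ℝ) : ℂ)) ⊆ tsupport ρ := by
    refine closure_mono ?_
    intro z hz h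
    exact hz (by simp only [h, ofReal_zero])
  exact ⟨ofRealCLM.contDiff.comp h1, h2.mono' (fun z hz => hsub (subset_closure hz)),
    fun h => h3 (hsub h)⟩

/-- A localized extension divided by `|z|`. -/
theorem est_integrable_div {q : ℕ} {ρ : C3 → ℝ} (h1 : ContDiff ℝ ∞ ρ) (h2 : HasCompactSupport ρ)
    (h3 : (0 : C3) ∉ tsupport ρ) (u : Lp (Fm m) 2 μS) :
    Integrable (fun z => ‖((ρ z : ℝ) : ℂ) • ext q u z‖ ^ 2 / R2 z) := by
  have ht := est_isTest h1 h2 h3
  have hB : ContinuousOn (fun z : C3 => ((rr z : ℂ))⁻¹ • ContinuousLinearMap.id ℂ (Fm m))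
      {z | z ≠ 0} := by
    have hr : Continuous rr := Real.continuous_sqrt.comp estBase_R2_contDiff.continuous
    have hr2 : Continuous (fun z : C3 => (rr z : ℂ)) := continuous_ofReal.comp hr
    have hi : ContinuousOn (fun z : C3 => ((rr z : ℂ))⁻¹) {z | z ≠ 0} := by
      refine ContinuousOn.inv₀ hr2.continuousOn ?_
      intro z hz
      exact_mod_cast (rr_pos hz).ne'
    exact hi.smul continuousOn_const
  have hA := est_adm_smul ht.smooth.continuous ht.compact ht.zero_notMem hB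
  obtain ⟨C, -, h⟩ := ext_bound hA.1 hA.2.1 hA.2.2 q
  refine ((h u).1.norm.integrable_sq).congr (Eventually.of_forall fun z => ?_)
  simp only [smul_apply, ContinuousLinearMap.id_apply, norm_smul, norm_inv,
    Complex.norm_real]
  rw [← estBase_rr_sq, Real.norm_of_nonneg (show 0 ≤ rr z from Real.sqrt_nonneg _)]
  ring

theorem est_lower {q : ℕ} (hq : q ≤ 3) {ρ : C3 → ℝ} (h1 : ContDiff ℝ ∞ ρ)
    (h2 : HasCompactSupport ρ) (h3 : (0 : C3) ∉ tsupport ρ) (h4 : ∀ z ∈ S, ρ z = 1)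
    (u : Fin 3 → Lp (Fm m) 2 μS) :
    ∑ k : Fin 3, ‖u k‖ ^ 2 ≤
      4 * ∫ z, (∑ k : Fin 3, ‖((ρ z : ℝ) : ℂ) • ext q (u k) z‖ ^ 2) / R2 z := by
  have e : ∀ z, (∑ k : Fin 3, ‖((ρ z : ℝ) : ℂ) • ext q (u k) z‖ ^ 2) / R2 z =
      ∑ k : Fin 3, ‖((ρ z : ℝ) : ℂ) • ext q (u k) z‖ ^ 2 / R2 z := fun z => Finset.sum_div _ _ _
  simp only [e]
  rw [integral_finsetSum _ fun k _ => est_integrable_div h1 h2 h3 (u k), Finset.mul_sum]
  exact Finset.sum_le_sum fun k _ => norm_le_ext hq h1.continuous h2 h3 h4 (u k)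

/-- Local integrability is preserved by continuous coefficients. -/
theorem est_LI_clm {B : C3 → (Fm m →L[ℂ] Fm m)} (hB : ContinuousOn B {z | z ≠ 0}) {U : C3 → Fm m}
    (hU : LI U) : LI (fun z => B z (U z)) := by
  intro x hx
  have hx0 : x ≠ 0 := hx
  obtain ⟨V, hV, hVi⟩ := hU x hx
  rw [isOpen_ne.nhdsWithin_eq hx0] at hV
  have hBx : ContinuousAt B x := hB.continuousAt (isOpen_ne.mem_nhds hx0)
  have h1 : ∀ᶠ z in 𝓝 x, ‖B z‖ < ‖B x‖ + 1 := hBx.norm.eventually (gt_mem_nhds (by linarith))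
  obtain ⟨W, hW, hWo, hxW⟩ := mem_nhds_iff.1 (inter_mem (inter_mem hV h1) (isOpen_ne.mem_nhds hx0))
  refine ⟨W, mem_nhdsWithin_of_mem_nhds (hWo.mem_nhds hxW), ?_⟩
  have hUi : IntegrableOn U W := hVi.mono_set (fun z hz => (hW hz).1.1)
  refine Integrable.mono' (g := fun z => (‖B x‖ + 1) * ‖U z‖) (hUi.norm.const_mul _) ?_ ?_
  · have hBm : AEStronglyMeasurable B (volume.restrict W) :=
      (hB.mono (fun z hz => (hW hz).2)).aestronglyMeasurable hWo.measurableSet
    exact (ContinuousLinearMap.id ℂ (Fm m →L[ℂ] Fm m)).aestronglyMeasurable_comp₂ hBm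
      hUi.aestronglyMeasurable
  · filter_upwards [ae_restrict_mem hWo.measurableSet] with z hz
    refine ((B z).le_opNorm _).trans ?_
    have h2 : ‖B z‖ < ‖B x‖ + 1 := (hW hz).1.2
    exact mul_le_mul_of_nonneg_right h2.le (norm_nonneg _)

theorem est_LI_add {U V : C3 → Fm m} (hU : LI U) (hV : LI V) : LI (fun z => U z + V z) :=
  LocallyIntegrableOn.add hU hV

theorem est_LI_sub {U V : C3 → Fm m} (hU : LI U) (hV : LI V) : LI (fun z => U z - V z) :=
  LocallyIntegrableOn.sub hU hV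

theorem est_LI_sum {U : Fin 3 → C3 → Fm m} (hU : ∀ j, LI (U j)) :
    LI (fun z => ∑ j : Fin 3, U j z) := by
  simp only [Fin.sum_univ_three]
  exact est_LI_add (est_LI_add (hU 0) (hU 1)) (hU 2)

theorem est_eta_cont (j : Fin 3) : ContinuousOn (eta j) {z | z ≠ 0} := by
  unfold eta
  refine ContinuousOn.div (continuous_apply j).continuousOn
    (continuous_ofReal.comp estBase_R2_contDiff.continuous).continuousOn ?_
  intro z hz
  have h : R2 z ≠ 0 := by
    rw [← estBase_rr_sq]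
    exact pow_ne_zero 2 (rr_pos hz).ne'
  exact_mod_cast h

/-- `HP P` is closed. -/
theorem est_HP_closed (P : C3 → (Fm m →L[ℂ] Fm m)) : IsClosed (HP P : Set (Lp (Fm m) 2 μS)) := by
  rw [← isSeqClosed_iff_isClosed]
  intro u v hu huv
  have h1 : TendstoInMeasure μS (fun n => (u n : C3 → Fm m)) atTop v :=
    tendstoInMeasure_of_tendsto_Lp huv
  obtain ⟨ns, -, hns⟩ := h1.exists_seq_tendsto_ae
  have h2 : ∀ᵐ z ∂μS, ∀ n, P z (u n z) = u n z := ae_all_iff.2 fun n => hu n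
  filter_upwards [hns, h2] with z h3 h4
  have h5 : Tendsto (fun i => P z (u (ns i) z)) atTop (𝓝 (P z (v z))) :=
    ((P z).continuous.tendsto _).comp h3
  simp only [h4] at h5
  exact tendsto_nhds_unique h5 h3

theorem est_fderiv_zero {ρ : C3 → ℂ} {z : C3} (hz : z ∉ tsupport ρ) : fderiv ℝ ρ z = 0 := by
  by_contra h3
  exact hz (support_fderiv_subset ℝ h3)

theorem est_dbar_zero {ρ : C3 → ℂ} {z : C3} (hz : z ∉ tsupport ρ) (j : Fin 3) : dbar j ρ z = 0 := by
  simp [dbar, est_fderiv_zero hz]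

theorem est_ddel_zero {ρ : C3 → ℂ} {z : C3} (hz : z ∉ tsupport ρ) (j : Fin 3) : ddel j ρ z = 0 := by
  simp [ddel, est_fderiv_zero hz]

theorem est_compactSupport {ρ : C3 → ℂ} (hρ : IsTest ρ) {g : C3 → Fm m}
    (h : ∀ z, z ∉ tsupport ρ → g z = 0) : HasCompactSupport g :=
  HasCompactSupport.intro hρ.compact h

/-- Multiplication by a scalar test function, as a coefficient. -/
theorem est_adm_scalar {ρ : C3 → ℂ} (hρ : Continuous ρ) (hc : HasCompactSupport ρ)
    (h0 : (0 : C3) ∉ tsupport ρ) :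
    EstAdm (fun z => ρ z • ContinuousLinearMap.id ℂ (Fm m)) :=
  est_adm_smul hρ hc h0 continuousOn_const

theorem est_bd_scalar {Y : Type*} {N : Y → ℝ} {ρ : C3 → ℂ} (hρ : Continuous ρ)
    (hc : HasCompactSupport ρ) (h0 : (0 : C3) ∉ tsupport ρ) (q : ℕ)
    (u : Y → Lp (Fm m) 2 μS) (hu : ∀ y, ‖u y‖ ^ 2 ≤ N y) :
    EstBd N (fun y z => ρ z • ext q (u y) z) :=
  (est_bd_ext (est_adm_scalar hρ hc h0) q u hu).congr fun y z => by
    rw [smul_apply, ContinuousLinearMap.id_apply]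

theorem est_bd_coef {Y : Type*} {N : Y → ℝ} {ρ : C3 → ℂ} (hρ : IsTest ρ)
    {B : C3 → (Fm m →L[ℂ] Fm m)} (hB : ContinuousOn B {z | z ≠ 0}) (q : ℕ)
    (u : Y → Lp (Fm m) 2 μS) (hu : ∀ y, ‖u y‖ ^ 2 ≤ N y) :
    EstBd N (fun y z => ρ z • B z (ext q (u y) z)) :=
  (est_bd_ext (est_adm_smul hρ.smooth.continuous hρ.compact hρ.zero_notMem hB) q u hu).congr
    fun y z => by rw [smul_apply]

/-- Compactness from a translation estimate for the localized extensions. -/
theorem est_compact {P : C3 → (Fm m →L[ℂ] Fm m)} {X : Type*} [NormedAddCommGroup X]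
    [NormedSpace ℂ X] {q : ℕ} (hq : q ≤ 3) {ρ : C3 → ℝ} (h1 : ContDiff ℝ ∞ ρ)
    (h2 : HasCompactSupport ρ) (h3 : (0 : C3) ∉ tsupport ρ) (h4 : ∀ z ∈ S, ρ z = 1)
    (h6 : ∀ z, ρ z ≠ 0 → 1 / 4 ≤ rr z ∧ rr z ≤ 8) (Q : X →L[ℂ] HP P) (C : ℝ)
    (h : ∀ (x : X) (y : C3), ∫ z, ‖((ρ (z - y) : ℝ) : ℂ) • ext q (Q x : Lp (Fm m) 2 μS) (z - y) -
      ((ρ z : ℝ) : ℂ) • ext q (Q x : Lp (Fm m) 2 μS) z‖ ^ 2 ≤ C * ‖y‖ ^ 2 * ‖x‖ ^ 2) :
    IsCompactOperator Q := by
  obtain ⟨J, R, hJ, hR⟩ := exists_loc (m := m) hq h1.continuous h2 h3 h4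
  set ι := (HP P).subtypeL with hι
  have hT : IsCompactOperator (J ∘L ι ∘L Q) := by
    refine compact_of_translation _ 8 (fun x => ?_) C (fun x y => ?_)
    · filter_upwards [hJ (Q x)] with z hz hne
      have : (J ∘L ι ∘L Q) x = J (Q x) := rfl
      rw [this, hz] at hne
      exact (estBase_norm_le z).trans (est_supp h6 _ z hne).2
    · have e : (J ∘L ι ∘L Q) x = J (Q x) := rfl
      rw [e]
      refine le_trans (le_of_eq ?_) (h x y)
      refine integral_congr_ae ?_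
      have hsh := (measurePreserving_sub_right (volume : Measure C3) y).quasiMeasurePreserving.ae
        (hJ (Q x))
      filter_upwards [hJ (Q x), hsh] with z hz hz2
      rw [hz, hz2]
  have h5 : IsCompactOperator (fun x => (Q x : Lp (Fm m) 2 μS)) := by
    have := hT.clm_comp R
    refine (show (R ∘ (J ∘L ι ∘L Q)) = fun x => (Q x : Lp (Fm m) 2 μS) from ?_) ▸ this
    funext x
    exact hR _
  exact h5.codRestrict (V := HP P) (fun x => (Q x).2) (est_HP_closed P)

theorem est_E_cont {P : C3 → (Fm m →L[ℂ] Fm m)} {E : Fin 3 → C3 → (Fm m →L[ℂ] Fm m)}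
    (hPE : PE P E) (j : Fin 3) : ContinuousOn (E j) {z | z ≠ 0} := fun z hz =>
  (hPE.E_smooth j z hz).continuousAt.continuousWithinAt

theorem est_eta_smooth (j : Fin 3) {z : C3} (hz : z ≠ 0) : ContDiffAt ℝ ∞ (eta j) z := by
  unfold eta
  have h1 : ContDiffAt ℝ ∞ (fun z : C3 => z j) z := (contDiff_apply ℝ ℂ j).contDiffAt
  have h2 : ContDiffAt ℝ ∞ (fun z : C3 => ((R2 z : ℝ) : ℂ)) z :=
    (ofRealCLM.contDiff.comp estBase_R2_contDiff).contDiffAt
  have h : R2 z ≠ 0 := by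
    rw [← estBase_rr_sq]
    exact pow_ne_zero 2 (rr_pos hz).ne'
  simp only [div_eq_mul_inv]
  exact h1.mul (h2.inv (by exact_mod_cast h))

theorem est_twist_smooth {P : C3 → (Fm m →L[ℂ] Fm m)} {E : Fin 3 → C3 → (Fm m →L[ℂ] Fm m)}
    (hPE : PE P E) (s : ℝ) (j : Fin 3) {z : C3} (hz : z ≠ 0) :
    ContDiffAt ℝ ∞ (twist s E j) z := by
  unfold twist
  exact (hPE.E_smooth j z hz).sub ((contDiffAt_const.mul (est_eta_smooth j hz)).smul
    contDiffAt_const)

theorem est_twist_cont {P : C3 → (Fm m →L[ℂ] Fm m)} {E : Fin 3 → C3 → (Fm m →L[ℂ] Fm m)}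
    (hPE : PE P E) (s : ℝ) (j : Fin 3) : ContinuousOn (twist s E j) {z | z ≠ 0} := fun _ hz =>
  (est_twist_smooth hPE s j hz).continuousAt.continuousWithinAt


theorem est_fderiv_cont {G : Type*} [NormedAddCommGroup G] [NormedSpace ℂ G] {P : C3 → G} {z : C3}
    (h : ContDiffAt ℝ ∞ P z) : ContinuousAt (fderiv ℝ P) z :=
  (h.fderiv_right (m := 0) (by simp)).continuousAt

theorem est_Ladj_cont {P : C3 → (Fm m →L[ℂ] Fm m)} {E : Fin 3 → C3 → (Fm m →L[ℂ] Fm m)}
    (hPE : PE P E) (hE : ∀ j, ContinuousOn (E j) {z | z ≠ 0}) (t : ℝ) (j : Fin 3) :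
    ContinuousOn (Ladj t P E j) {z | z ≠ 0} := by
  intro z hz
  have hz0 : z ≠ 0 := hz
  refine ContinuousAt.continuousWithinAt ?_
  have hη : ContinuousAt (eta j) z := (est_eta_smooth j hz0).continuousAt
  have hf := est_fderiv_cont (hPE.P_smooth z hz0)
  have hd : ContinuousAt (dbar j P) z := by
    have hf1 : ContinuousAt (fun z => fderiv ℝ P z (Pi.single j (1 : ℂ))) z :=
      hf.clm_apply continuousAt_const
    have hf2 : ContinuousAt (fun z => fderiv ℝ P z (Pi.single j I)) z :=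
      hf.clm_apply continuousAt_const
    exact (hf1.add (hf2.const_smul I)).const_smul (1 / 2 : ℂ)
  have hEz : ContinuousAt (E j) z := (hE j).continuousAt (isOpen_ne.mem_nhds hz0)
  have hPz : ContinuousAt P z := (hPE.P_smooth z hz0).continuousAt
  have hadj : Continuous (fun A : Fm m →L[ℂ] Fm m => ContinuousLinearMap.adjoint A) :=
    ContinuousLinearMap.adjoint.continuous
  have h1 : ContinuousAt (fun z => ((t : ℂ) * conj (eta j z)) •
      ContinuousLinearMap.id ℂ (Fm m)) z :=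
    (continuousAt_const.mul (continuous_conj.continuousAt.comp hη)).smul continuousAt_const
  have h2 : ContinuousAt (fun z => ContinuousLinearMap.adjoint (dbar j P z)) z :=
    hadj.continuousAt.comp hd
  have h3 : ContinuousAt (fun z => ContinuousLinearMap.adjoint (E j z ∘L P z)) z :=
    ContinuousAt.comp (f := fun z => E j z ∘L P z) hadj.continuousAt (hEz.clm_comp hPz)
  exact (h1.add h2).sub h3

theorem est_P_adj {P : C3 → (Fm m →L[ℂ] Fm m)} {E : Fin 3 → C3 → (Fm m →L[ℂ] Fm m)}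
    (hPE : PE P E) {z : C3} (hz : z ≠ 0) : ContinuousLinearMap.adjoint (P z) = P z := by
  symm
  rw [ContinuousLinearMap.eq_adjoint_iff]
  exact hPE.P_symm z hz

theorem est_Ladj_twist {P : C3 → (Fm m →L[ℂ] Fm m)} {E : Fin 3 → C3 → (Fm m →L[ℂ] Fm m)}
    (hPE : PE P E) (s t : ℝ) (j : Fin 3) {z : C3} (hz : z ≠ 0) {v : Fm m} (hv : P z v = v) :
    Ladj t P (twist s E) j z v = Ladj t P E j z v + ((s : ℂ) * conj (eta j z)) • v := by
  have h1 : twist s E j z ∘L P z = E j z ∘L P z - ((s : ℂ) * eta j z) • P z := by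
    ext w
    simp [twist]
  have h2 : ContinuousLinearMap.adjoint (((s : ℂ) * eta j z) • P z) =
      ((s : ℂ) * conj (eta j z)) • P z := by
    rw [map_smulₛₗ, est_P_adj hPE hz]
    simp
  simp only [Ladj, h1, map_sub, h2, sub_apply, add_apply, smul_apply,
    ContinuousLinearMap.id_apply, hv]
  module

theorem est_ae_ne_zero : ∀ᵐ z : C3, z ≠ 0 := by
  rw [ae_iff]
  simp

end

end Pool.Agent.HopfEmb
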