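import Pool.Agent.Lib.MP_d404b9_ag.Basic

/-!
# JOB MOLL: mollification on `ℂ³`

`moll n v = v ⋆ φ_n` where `φ_n` is a normalized smooth bump supported in the ball of radius
`1/(n+1)`. Key points:
* smoothness: `HasCompactSupport.contDiff_convolution_left/right` (or differentiate under the
  integral sign);
* `L²`-convergence: by Jensen/Cauchy-Schwarz
  `‖moll n v z - v z‖² ≤ ∫ φ_n(w) ‖v(z-w) - v(z)‖² dw`, integrate in `z` (Tonelli) and use the
  continuity of translations in `L²`
  (`MeasureTheory.Lp.compMeasurePreserving_continuous`, or density of `C_c`: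
  `MeasureTheory.MemLp.exists_hasCompactSupport_eLpNorm_sub_le`).
-/

set_option autoImplicit false

open MeasureTheory Complex Filter Topology
open scoped ContDiff ComplexConjugate

namespace Pool.Agent.HopfEmb

noncomputable section

variable {m : ℕ}

/-- The bump function of radius `1/(n+1)`. -/
def bumpB (n : ℕ) : ContDiffBump (0 : C3) where
  rIn := 1 / (2 * ((n : ℝ) + 1))
  rOut := 1 / ((n : ℝ) + 1)
  rIn_pos := by positivity
  rIn_lt_rOut := by
    apply one_div_lt_one_div_of_lt
    · positivity
    · have : (0 : ℝ) < (n : ℝ) + 1 := by positivity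
      linarith

/-- The normalized bump function, as a complex valued function. -/
def bumpn (n : ℕ) (z : C3) : ℂ := (((bumpB n).normed volume z : ℝ) : ℂ)

/-- Mollification. -/
def moll (n : ℕ) (v : C3 → Fm m) (z : C3) : Fm m := ∫ w, bumpn n (z - w) • v w

private theorem mo_bump_contDiff (n : ℕ) : ContDiff ℝ ∞ ((bumpB n).normed (volume : Measure C3)) :=
  (bumpB n).contDiff_normed

theorem bumpn_test (n : ℕ) : IsTestC (bumpn n) := by
  constructor
  · exact Complex.ofRealCLM.contDiff.comp (mo_bump_contDiff n)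
  · exact (bumpB n).hasCompactSupport_normed.comp_left (g := fun x : ℝ => (x : ℂ))
      Complex.ofReal_zero

theorem bumpn_supp (n : ℕ) {z : C3} (h : bumpn n z ≠ 0) : ‖z‖ < 1 / ((n : ℝ) + 1) := by
  have h1 : (bumpB n).normed (volume : Measure C3) z ≠ 0 := by
    intro h2
    apply h
    rw [bumpn, h2, Complex.ofReal_zero]
  have h2 : z ∈ Function.support ((bumpB n).normed (volume : Measure C3)) := h1
  rw [(bumpB n).support_normed_eq, mem_ball_zero_iff] at h2
  exact h2

theorem bumpn_integral (n : ℕ) : ∫ z, bumpn n z = 1 := by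
  unfold bumpn
  rw [integral_complex_ofReal, (bumpB n).integral_normed, Complex.ofReal_one]

/-- The bilinear map used to write mollifications as convolutions. -/
private def moL (m : ℕ) : Fm m →L[ℝ] ℂ →L[ℝ] Fm m :=
  (ContinuousLinearMap.lsmul ℝ ℂ : ℂ →L[ℝ] Fm m →L[ℝ] Fm m).flip

private theorem moL_apply (x : Fm m) (c : ℂ) : moL m x c = c • x := rfl

private theorem moll_eq_conv (n : ℕ) (v : C3 → Fm m) :
    moll n v = convolution v (bumpn n) (moL m) volume := by
  funext z
  rfl

private theorem moll_contDiff (n : ℕ) {v : C3 → Fm m} (hv : LocallyIntegrable v volume) :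
    ContDiff ℝ ∞ (moll n v) := by
  rw [moll_eq_conv]
  exact (bumpn_test n).compact.contDiff_convolution_right (moL m) hv (bumpn_test n).smooth

/-- Mollifications of compactly supported `L²` functions are test functions. -/
theorem moll_test (n : ℕ) {v : C3 → Fm m} (hv : MemLp v 2 volume) (hc : HasCompactSupport v) :
    IsTestC (moll n v) := by
  refine ⟨moll_contDiff n (hv.locallyIntegrable (by norm_num)), ?_⟩
  rw [moll_eq_conv]
  exact hc.convolution (moL m) (bumpn_test n).compact

theorem moll_supp (n : ℕ) {v : C3 → Fm m} {z : C3} (h : moll n v z ≠ 0) :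
    ∃ w, v w ≠ 0 ∧ ‖z - w‖ < 1 / ((n : ℝ) + 1) := by
  by_contra hcon
  push Not at hcon
  apply h
  unfold moll
  have h1 : (fun w => bumpn n (z - w) • v w) = fun _ => (0 : Fm m) := by
    funext w
    by_cases hv : v w = 0
    · rw [hv, smul_zero]
    · have h2 := hcon w hv
      have h3 : bumpn n (z - w) = 0 := by
        by_contra h4
        exact absurd (bumpn_supp n h4) (not_lt.2 h2)
      rw [h3, zero_smul]
  rw [h1, integral_zero]

private theorem fderiv_moll (n : ℕ) {v : C3 → Fm m} (hv : LocallyIntegrable v volume)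
    (z e : C3) :
    fderiv ℝ (moll n v) z e = ∫ w, (fderiv ℝ (bumpn n) (z - w) e) • v w ∧
      Integrable (fun w => (fderiv ℝ (bumpn n) (z - w) e) • v w) := by
  have hs : ContDiff ℝ 1 (bumpn n) := (bumpn_test n).smooth.of_le (by exact_mod_cast le_top)
  have h1 := (bumpn_test n).compact.hasFDerivAt_convolution_right (moL m) hv hs z
  have h2 : ConvolutionExistsAt v (fderiv ℝ (bumpn n)) z ((moL m).precompR C3) volume :=
    ((bumpn_test n).compact.fderiv (𝕜 := ℝ)).convolutionExists_right _ hv
      (hs.continuous_fderiv (by norm_num)) z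
  have h3 : fderiv ℝ (moll n v) z =
      ∫ w, ((moL m).precompR C3) (v w) (fderiv ℝ (bumpn n) (z - w)) := by
    rw [moll_eq_conv, h1.fderiv]
    rfl
  constructor
  · rw [h3, ContinuousLinearMap.integral_apply h2]
    rfl
  · exact h2.apply_continuousLinearMap e

theorem dbar_moll (n : ℕ) {v : C3 → Fm m} (hv : MemLp v 2 volume) (hc : HasCompactSupport v)
    (j : Fin 3) (z : C3) :
    dbar j (moll n v) z = ∫ w, (dbar j (bumpn n) (z - w)) • v w := by
  have hl : LocallyIntegrable v volume := hv.locallyIntegrable (by norm_num)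
  obtain ⟨a1, a2⟩ := fderiv_moll n hl z (Pi.single j 1)
  obtain ⟨b1, b2⟩ := fderiv_moll n hl z (Pi.single j I)
  have b3 : Integrable (fun w => I • (fderiv ℝ (bumpn n) (z - w)) (Pi.single j I) • v w) :=
    b2.smul I
  unfold dbar
  rw [a1, b1, ← integral_smul, ← integral_add a2 b3, ← integral_smul]
  congr 1
  funext w
  simp only [smul_eq_mul, smul_smul, ← add_smul, Pi.smul_apply]

theorem ddel_moll (n : ℕ) {v : C3 → Fm m} (hv : MemLp v 2 volume) (hc : HasCompactSupport v)
    (j : Fin 3) (z : C3) :
    ddel j (moll n v) z = ∫ w, (ddel j (bumpn n) (z - w)) • v w := by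
  have hl : LocallyIntegrable v volume := hv.locallyIntegrable (by norm_num)
  obtain ⟨a1, a2⟩ := fderiv_moll n hl z (Pi.single j 1)
  obtain ⟨b1, b2⟩ := fderiv_moll n hl z (Pi.single j I)
  have b3 : Integrable (fun w => I • (fderiv ℝ (bumpn n) (z - w)) (Pi.single j I) • v w) :=
    b2.smul I
  unfold ddel
  rw [a1, b1, ← integral_smul, ← integral_sub a2 b3, ← integral_smul]
  congr 1
  funext w
  simp only [smul_eq_mul, smul_smul, ← sub_smul, Pi.smul_apply]

/-- The test function `w ↦ φ_n(z - w)` and its derivatives. -/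
theorem bumpn_reflect_test (n : ℕ) (z : C3) : IsTestC (fun w => bumpn n (z - w)) := by
  constructor
  · exact (bumpn_test n).smooth.comp (contDiff_const.sub contDiff_id)
  · exact (bumpn_test n).compact.comp_homeomorph (Homeomorph.subLeft z)

private theorem fderiv_bumpn_reflect (n : ℕ) (z w e : C3) :
    fderiv ℝ (fun w => bumpn n (z - w)) w e = - fderiv ℝ (bumpn n) (z - w) e := by
  have h1 : HasFDerivAt (bumpn n) (fderiv ℝ (bumpn n) (z - w)) (z - w) :=
    ((bumpn_test n).smooth.differentiable (by norm_num) _).hasFDerivAt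
  have h2 : HasFDerivAt (fun w : C3 => z - w) (-ContinuousLinearMap.id ℝ C3) w :=
    (hasFDerivAt_id w).const_sub z
  have h3 := h1.comp w h2
  have h4 : fderiv ℝ (fun w => bumpn n (z - w)) w =
      (fderiv ℝ (bumpn n) (z - w)).comp (-ContinuousLinearMap.id ℝ C3) := h3.fderiv
  rw [h4]
  simp

theorem dbar_bumpn_reflect (n : ℕ) (z : C3) (j : Fin 3) (w : C3) :
    dbar j (fun w => bumpn n (z - w)) w = - dbar j (bumpn n) (z - w) := by
  unfold dbar
  rw [fderiv_bumpn_reflect, fderiv_bumpn_reflect]
  simp only [smul_eq_mul]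
  ring

theorem ddel_bumpn_reflect (n : ℕ) (z : C3) (j : Fin 3) (w : C3) :
    ddel j (fun w => bumpn n (z - w)) w = - ddel j (bumpn n) (z - w) := by
  unfold ddel
  rw [fderiv_bumpn_reflect, fderiv_bumpn_reflect]
  simp only [smul_eq_mul]
  ring

theorem moll_memLp (n : ℕ) {v : C3 → Fm m} (hv : MemLp v 2 volume) (hc : HasCompactSupport v) :
    MemLp (moll n v) 2 volume :=
  (moll_test n hv hc).smooth.continuous.memLp_of_hasCompactSupport (moll_test n hv hc).compact

/-- Continuity of translations in `L²`. -/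
private theorem mo_translate {v : C3 → Fm m} (hv : MemLp v 2 volume) :
    Tendsto (fun w : C3 => eLpNorm (fun z => v (z - w) - v z) 2 volume) (𝓝 0) (𝓝 0) := by
  let g : C3 → C(C3, C3) := fun w => ⟨fun z => z - w, by fun_prop⟩
  have hg : Continuous g := by
    apply ContinuousMap.continuous_of_continuous_uncurry
    exact continuous_snd.sub continuous_fst
  have hgm : ∀ w, MeasurePreserving (g w) volume volume :=
    fun w => measurePreserving_sub_right volume w
  have : Fact ((1 : ENNReal) ≤ 2) := ⟨by norm_num⟩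
  have h := (continuous_const (y := hv.toLp v)).compMeasurePreservingLp hg hgm
    (by norm_num : (2 : ENNReal) ≠ ⊤)
  have h1 : Continuous fun w => ‖Lp.compMeasurePreserving (g w) (hgm w) (hv.toLp v)
      - hv.toLp v‖ₑ := (h.sub continuous_const).enorm
  have h2 : ∀ w, ‖Lp.compMeasurePreserving (g w) (hgm w) (hv.toLp v) - hv.toLp v‖ₑ =
      eLpNorm (fun z => v (z - w) - v z) 2 volume := by
    intro w
    rw [Lp.toLp_compMeasurePreserving, ← MemLp.toLp_sub, Lp.enorm_toLp]
    rfl
  have h3 := h1.tendsto 0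
  simp only [h2] at h3
  simpa using h3

/-- The probability measure with density `φ_n`. -/
private def moNu (n : ℕ) : Measure C3 :=
  volume.withDensity fun w => ENNReal.ofReal ((bumpB n).normed (volume : Measure C3) w)

private theorem moNu_meas (n : ℕ) :
    Measurable fun w => ENNReal.ofReal ((bumpB n).normed (volume : Measure C3) w) :=
  ((mo_bump_contDiff n).continuous.measurable).ennreal_ofReal

private theorem moNu_prob (n : ℕ) : IsProbabilityMeasure (moNu n) := by
  constructor
  rw [moNu, withDensity_apply _ MeasurableSet.univ, Measure.restrict_univ,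
    ← ofReal_integral_eq_lintegral_ofReal, (bumpB n).integral_normed, ENNReal.ofReal_one]
  · exact (bumpB n).integrable_normed
  · exact Eventually.of_forall fun w => (bumpB n).nonneg_normed w

private theorem mo_integral (n : ℕ) (g : C3 → Fm m) :
    ∫ w, g w ∂(moNu n) = ∫ w, bumpn n w • g w := by
  rw [moNu, integral_withDensity_eq_integral_toReal_smul (moNu_meas n)
    (Eventually.of_forall fun w => ENNReal.ofReal_lt_top)]
  congr 1
  funext w
  rw [ENNReal.toReal_ofReal ((bumpB n).nonneg_normed w), bumpn, Complex.coe_smul]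

private theorem mo_integrable (n : ℕ) {g : C3 → Fm m}
    (h : Integrable fun w => bumpn n w • g w) : Integrable g (moNu n) := by
  rw [moNu, integrable_withDensity_iff_integrable_smul' (moNu_meas n)
    (Eventually.of_forall fun w => ENNReal.ofReal_lt_top)]
  refine h.congr (Eventually.of_forall fun w => ?_)
  simp only
  rw [ENNReal.toReal_ofReal ((bumpB n).nonneg_normed w), bumpn, Complex.coe_smul]

private theorem mo_jensen (n : ℕ) {v : C3 → Fm m} (hv : LocallyIntegrable v volume) (z : C3) :
    ‖moll n v z - v z‖ₑ ^ 2 ≤ ∫⁻ w, ‖v (z - w) - v z‖ₑ ^ 2 ∂(moNu n) := by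
  have := moNu_prob n
  have h1 : moll n v z = ∫ w, v (z - w) ∂(moNu n) := by
    rw [mo_integral]
    unfold moll
    rw [← integral_sub_left_eq_self (fun w => bumpn n (z - w) • v w) volume z]
    simp only [sub_sub_cancel]
  have h2 : Integrable (fun w => bumpn n w • v (z - w)) := by
    have h3 : Integrable (fun w => bumpn n (z - w) • v w) :=
      (bumpn_test n).compact.convolutionExists_right (moL m) hv
        (bumpn_test n).smooth.continuous z
    have h4 := h3.comp_sub_left z
    simpa only [sub_sub_cancel] using h4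
  have h3 : Integrable (fun w => v (z - w)) (moNu n) := mo_integrable n h2
  have h4 : moll n v z - v z = ∫ w, (v (z - w) - v z) ∂(moNu n) := by
    rw [integral_sub h3 (integrable_const _), h1, integral_const]
    simp
  have h5 : Integrable (fun w => v (z - w) - v z) (moNu n) := h3.sub (integrable_const _)
  have h6 : ‖moll n v z - v z‖ₑ ≤ eLpNorm (fun w => v (z - w) - v z) 2 (moNu n) := by
    rw [h4]
    calc ‖∫ w, (v (z - w) - v z) ∂(moNu n)‖ₑ ≤ ∫⁻ w, ‖v (z - w) - v z‖ₑ ∂(moNu n) :=
          enorm_integral_le_lintegral_enorm _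
      _ = eLpNorm (fun w => v (z - w) - v z) 1 (moNu n) := (eLpNorm_one_eq_lintegral_enorm).symm
      _ ≤ _ := eLpNorm_le_eLpNorm_of_exponent_le (by norm_num) h5.aestronglyMeasurable
  have h7 := eLpNorm_nnreal_pow_eq_lintegral (f := fun w => v (z - w) - v z) (μ := moNu n)
    (p := 2) (by norm_num)
  have h8 : eLpNorm (fun w => v (z - w) - v z) 2 (moNu n) ^ 2 =
      ∫⁻ w, ‖v (z - w) - v z‖ₑ ^ 2 ∂(moNu n) := by
    have e1 : ((2 : NNReal) : ENNReal) = 2 := rfl
    have e2 : ((2 : NNReal) : ℝ) = 2 := rfl
    rw [e1, e2] at h7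
    simpa only [ENNReal.rpow_two] using h7
  rw [← h8]
  exact pow_le_pow_left' h6 2

private theorem mo_main {v : C3 → Fm m} (hv : MemLp v 2 volume) (hvm : StronglyMeasurable v) :
    Tendsto (fun n => ∫⁻ z, ‖moll n v z - v z‖ₑ ^ 2) atTop (𝓝 0) := by
  have hl : LocallyIntegrable v volume := hv.locallyIntegrable (by norm_num)
  have hT := mo_translate hv
  have hT2 : Tendsto (fun w : C3 => eLpNorm (fun z => v (z - w) - v z) 2 volume ^ 2)
      (𝓝 0) (𝓝 0) := by
    have := ENNReal.Tendsto.pow (n := 2) hT
    simpa using this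
  rw [ENNReal.tendsto_atTop_zero]
  intro ε hε
  have h1 : ∀ᶠ w : C3 in 𝓝 0, eLpNorm (fun z => v (z - w) - v z) 2 volume ^ 2 ≤ ε :=
    (ENNReal.tendsto_nhds_zero.1 hT2) ε hε
  obtain ⟨δ, hδ, h2⟩ := Metric.eventually_nhds_iff_ball.1 h1
  obtain ⟨N, hN⟩ := exists_nat_one_div_lt hδ
  refine ⟨N, fun n hn => ?_⟩
  have := moNu_prob n
  have hle : (1 : ℝ) / ((n : ℝ) + 1) ≤ 1 / ((N : ℝ) + 1) := by
    apply one_div_le_one_div_of_le
    · positivity
    · have : (N : ℝ) ≤ n := by exact_mod_cast hn
      linarith
  have hmeas : Measurable (Function.uncurry fun (z w : C3) => ‖v (z - w) - v z‖ₑ ^ 2) := by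
    have h3 : Measurable fun p : C3 × C3 => v (p.1 - p.2) - v p.1 :=
      (hvm.measurable.comp (measurable_fst.sub measurable_snd)).sub
        (hvm.measurable.comp measurable_fst)
    exact h3.enorm.pow_const 2
  calc ∫⁻ z, ‖moll n v z - v z‖ₑ ^ 2
      ≤ ∫⁻ z, ∫⁻ w, ‖v (z - w) - v z‖ₑ ^ 2 ∂(moNu n) := lintegral_mono fun z => mo_jensen n hl z
    _ = ∫⁻ w, ∫⁻ z, ‖v (z - w) - v z‖ₑ ^ 2 ∂volume ∂(moNu n) :=
        lintegral_lintegral_swap hmeas.aemeasurable
    _ ≤ ∫⁻ w, ε ∂(moNu n) := by
        apply lintegral_mono_ae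
        have h4 : ∀ᵐ w ∂(moNu n), ‖w‖ < δ := by
          rw [moNu, ae_withDensity_iff (moNu_meas n)]
          refine Eventually.of_forall fun w hw => ?_
          have h5 : bumpn n w ≠ 0 := by
            intro h6
            apply hw
            rw [bumpn, Complex.ofReal_eq_zero] at h6
            rw [h6, ENNReal.ofReal_zero]
          exact (bumpn_supp n h5).trans_le (hle.trans hN.le)
        filter_upwards [h4] with w hw
        have h5 := h2 w (by rwa [mem_ball_zero_iff])
        have h7 := eLpNorm_nnreal_pow_eq_lintegral (f := fun z => v (z - w) - v z)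
          (μ := (volume : Measure C3)) (p := 2) (by norm_num)
        have e1 : ((2 : NNReal) : ENNReal) = 2 := rfl
        have e2 : ((2 : NNReal) : ℝ) = 2 := rfl
        rw [e1, e2] at h7
        simp only [ENNReal.rpow_two] at h7
        rw [← h7]
        exact h5
    _ = ε := by
        rw [lintegral_const, measure_univ, mul_one]

/-- `L²` convergence of the mollifications. -/
theorem moll_tendsto {v : C3 → Fm m} (hv : MemLp v 2 volume) (hc : HasCompactSupport v) :
    Tendsto (fun n => ∫ z, ‖moll n v z - v z‖ ^ 2) atTop (𝓝 0) := by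
  have hae : v =ᵐ[volume] hv.1.mk v := hv.1.ae_eq_mk
  have hv' : MemLp (hv.1.mk v) 2 volume := (memLp_congr_ae hae).1 hv
  have h1 := mo_main hv' hv.1.stronglyMeasurable_mk
  have h2 : ∀ n, ∫ z, ‖moll n v z - v z‖ ^ 2 =
      (∫⁻ z, ‖moll n (hv.1.mk v) z - hv.1.mk v z‖ₑ ^ 2).toReal := by
    intro n
    have h3 : ∀ z, moll n v z = moll n (hv.1.mk v) z := by
      intro z
      unfold moll
      apply integral_congr_ae
      filter_upwards [hae] with w hw
      rw [hw]
    rw [integral_eq_lintegral_of_nonneg_ae (Eventually.of_forall fun z => by positivity)]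
    · congr 1
      apply lintegral_congr_ae
      filter_upwards [hae] with z hz
      rw [h3, hz, ← ofReal_norm, ENNReal.ofReal_pow (norm_nonneg _)]
    · have h4 : AEStronglyMeasurable (moll n v) volume :=
        (moll_contDiff n (hv.locallyIntegrable (by norm_num))).continuous.aestronglyMeasurable
      exact (h4.sub hv.1).norm.pow 2
  simp only [h2]
  have h3 := (ENNReal.tendsto_toReal ENNReal.zero_ne_top).comp h1
  rw [ENNReal.toReal_zero] at h3
  exact h3

end

end Pool.Agent.HopfEmb
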