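import Pool.Agent.Lib.MP_d404b9_ag.Basic

/-!
# JOB SMOOTH-B: gradient identities, translation estimate, Hardy inequality

`∂̄_j`, `∂_k` commute on smooth functions and `⟪∂̄_j f, g⟫ = -⟪f, ∂_j g⟫` in `L²` for `C_c^∞`
functions. `grad_eq`: `∑_i ‖∂̄_{i+1} f_{i+2} - ∂̄_{i+2} f_{i+1}‖² = ∑_{jk} ‖∂̄_j f_k‖²
- ∑_{jk} ⟪∂̄_k f_j, ∂̄_j f_k⟫` and `⟪∂̄_k f_j, ∂̄_j f_k⟫ = ⟪∂_j f_j, ∂_k f_k⟫`.
-/

set_option autoImplicit false

open MeasureTheory Complex Filter Topology
open scoped ContDiff ComplexConjugate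

namespace Pool.Agent.HopfEmb

noncomputable section

variable {m : ℕ}

section SmoothBAux

private def SmoothB_B : Fm m →L[ℝ] Fm m →L[ℝ] ℂ :=
  LinearMap.mkContinuous₂ (LinearMap.mk₂ ℝ (fun a b : Fm m => (inner ℂ a b : ℂ))
    (fun a b c => inner_add_left a b c)
    (fun c a b => by
      rw [show (c • a : Fm m) = ((c : ℂ) • a) from (Complex.coe_smul c a).symm ▸ rfl, inner_smul_left]
      simp)
    (fun a b c => inner_add_right a b c)
    (fun c a b => by
      rw [show (c • b : Fm m) = ((c : ℂ) • b) from (Complex.coe_smul c b).symm ▸ rfl, inner_smul_right]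
      simp)) 1
    (fun a b => by
      rw [one_mul]
      exact norm_inner_le_norm a b)

private theorem SmoothB_B_apply (a b : Fm m) : SmoothB_B a b = inner ℂ a b := rfl

private theorem SmoothB_cont {G : Type*} [NormedAddCommGroup G] [NormedSpace ℂ G]
    {f : C3 → G} (hf : IsTestC f) : Continuous f := hf.smooth.continuous

private theorem SmoothB_fderiv_test {G : Type*} [NormedAddCommGroup G] [NormedSpace ℂ G]
    {f : C3 → G} (hf : IsTestC f) (v : C3) : IsTestC (fun z => fderiv ℝ f z v) := by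
  constructor
  · exact (hf.smooth.fderiv_right (m := ∞) (by simp)).clm_apply contDiff_const
  · exact hf.compact.fderiv_apply ℝ v

private theorem SmoothB_integrable_inner {f g : C3 → Fm m} (hf : IsTestC f) (hg : IsTestC g) :
    Integrable (fun z => inner ℂ (f z) (g z)) := by
  apply Continuous.integrable_of_hasCompactSupport
  · exact (SmoothB_cont hf).inner (SmoothB_cont hg)
  · apply hf.compact.mono
    intro z hz h
    apply hz
    simp only [h, inner_zero_left]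

private theorem SmoothB_ibp {f g : C3 → Fm m} (hf : IsTestC f) (hg : IsTestC g) (v : C3) :
    ∫ z, inner ℂ (f z) (fderiv ℝ g z v) = -∫ z, inner ℂ (fderiv ℝ f z v) (g z) := by
  have := integral_bilinear_fderiv_right_eq_neg_left_of_integrable (μ := (volume : Measure C3))
    (f := f) (g := g) (v := v) (B := SmoothB_B)
    (SmoothB_integrable_inner (SmoothB_fderiv_test hf v) hg)
    (SmoothB_integrable_inner hf (SmoothB_fderiv_test hg v))
    (SmoothB_integrable_inner hf hg)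
    (fun x _ => (hf.smooth.differentiable (by simp)) x)
    (fun x _ => (hg.smooth.differentiable (by simp)) x)
  simpa only [SmoothB_B_apply] using this

private theorem SmoothB_dbar_test {f : C3 → Fm m} (hf : IsTestC f) (j : Fin 3) :
    IsTestC (dbar j f) := by
  constructor
  · exact ContDiff.const_smul (1 / 2 : ℂ) ((SmoothB_fderiv_test hf _).smooth.add
      (ContDiff.const_smul I (SmoothB_fderiv_test hf _).smooth))
  · have h1 := (SmoothB_fderiv_test hf (Pi.single j 1)).compact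
    have h2 := (SmoothB_fderiv_test hf (Pi.single j I)).compact
    have h3 : HasCompactSupport (fun z => I • fderiv ℝ f z (Pi.single j I)) := by
      apply h2.mono
      intro z hz h
      apply hz
      simp only [h, smul_zero]
    have h4 := h1.add h3
    apply h4.mono
    intro z hz h
    apply hz
    simp only [dbar]
    have h' : fderiv ℝ f z (Pi.single j 1) + I • fderiv ℝ f z (Pi.single j I) = 0 := h
    rw [h', smul_zero]

private theorem SmoothB_ddel_test {f : C3 → Fm m} (hf : IsTestC f) (j : Fin 3) :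
    IsTestC (ddel j f) := by
  constructor
  · exact ContDiff.const_smul (1 / 2 : ℂ) ((SmoothB_fderiv_test hf _).smooth.sub
      (ContDiff.const_smul I (SmoothB_fderiv_test hf _).smooth))
  · have h1 := (SmoothB_fderiv_test hf (Pi.single j 1)).compact
    have h2 := (SmoothB_fderiv_test hf (Pi.single j I)).compact
    have h3 : HasCompactSupport (fun z => I • fderiv ℝ f z (Pi.single j I)) := by
      apply h2.mono
      intro z hz h
      apply hz
      simp only [h, smul_zero]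
    have h4 := h1.sub h3
    apply h4.mono
    intro z hz h
    apply hz
    simp only [ddel]
    have h' : fderiv ℝ f z (Pi.single j 1) - I • fderiv ℝ f z (Pi.single j I) = 0 := h
    rw [h', smul_zero]

private theorem SmoothB_ibp_dbar {f g : C3 → Fm m} (hf : IsTestC f) (hg : IsTestC g)
    (j : Fin 3) :
    ∫ z, inner ℂ (f z) (dbar j g z) = -∫ z, inner ℂ (ddel j f z) (g z) := by
  have e1 := SmoothB_ibp hf hg (Pi.single j 1)
  have e2 := SmoothB_ibp hf hg (Pi.single j I)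
  simp only [dbar, ddel, inner_smul_left, inner_smul_right, inner_add_right, inner_sub_left]
  rw [integral_const_mul, integral_add, integral_const_mul, integral_const_mul, integral_sub,
    integral_const_mul, e1, e2]
  · simp only [conj_I, map_div₀, map_one, map_ofNat]
    ring
  · exact SmoothB_integrable_inner (SmoothB_fderiv_test hf _) hg
  · exact (SmoothB_integrable_inner (SmoothB_fderiv_test hf _) hg).const_mul _
  · exact SmoothB_integrable_inner hf (SmoothB_fderiv_test hg _)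
  · exact (SmoothB_integrable_inner hf (SmoothB_fderiv_test hg _)).const_mul _

private theorem SmoothB_ibp_ddel {f g : C3 → Fm m} (hf : IsTestC f) (hg : IsTestC g)
    (j : Fin 3) :
    ∫ z, inner ℂ (f z) (ddel j g z) = -∫ z, inner ℂ (dbar j f z) (g z) := by
  have e1 := SmoothB_ibp hf hg (Pi.single j 1)
  have e2 := SmoothB_ibp hf hg (Pi.single j I)
  simp only [dbar, ddel, inner_smul_left, inner_smul_right, inner_add_left, inner_sub_right]
  rw [integral_const_mul, integral_sub, integral_const_mul, integral_const_mul, integral_add,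
    integral_const_mul, e1, e2]
  · simp only [conj_I, map_div₀, map_one, map_ofNat]
    ring
  · exact SmoothB_integrable_inner (SmoothB_fderiv_test hf _) hg
  · exact (SmoothB_integrable_inner (SmoothB_fderiv_test hf _) hg).const_mul _
  · exact SmoothB_integrable_inner hf (SmoothB_fderiv_test hg _)
  · exact (SmoothB_integrable_inner hf (SmoothB_fderiv_test hg _)).const_mul _

private theorem SmoothB_D2 {f : C3 → Fm m} (hf : IsTestC f) (v w z : C3) :
    fderiv ℝ (fun z => fderiv ℝ f z v) z w = fderiv ℝ (fderiv ℝ f) z w v := by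
  have h : DifferentiableAt ℝ (fderiv ℝ f) z :=
    ((hf.smooth.fderiv_right (m := ∞) (by simp)).differentiable (by simp)) z
  rw [fderiv_clm_apply h (differentiableAt_const v)]
  simp

private theorem SmoothB_D2_symm {f : C3 → Fm m} (hf : IsTestC f) (v w z : C3) :
    fderiv ℝ (fderiv ℝ f) z w v = fderiv ℝ (fderiv ℝ f) z v w := by
  have h : IsSymmSndFDerivAt ℝ f z := by
    apply ContDiffAt.isSymmSndFDerivAt (n := ∞) hf.smooth.contDiffAt
    simp only [minSmoothness_of_isRCLikeNormedField]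
    exact WithTop.coe_le_coe.mpr le_top
  exact h w v

private theorem SmoothB_fderiv_dbar {f : C3 → Fm m} (hf : IsTestC f) (j : Fin 3) (z w : C3) :
    fderiv ℝ (dbar j f) z w = (1 / 2 : ℂ) • (fderiv ℝ (fderiv ℝ f) z w (Pi.single j 1) +
      I • fderiv ℝ (fderiv ℝ f) z w (Pi.single j I)) := by
  have d1 : DifferentiableAt ℝ (fun z => fderiv ℝ f z (Pi.single j 1)) z :=
    ((SmoothB_fderiv_test hf _).smooth.differentiable (by simp)) z
  have d2 : DifferentiableAt ℝ (fun z => fderiv ℝ f z (Pi.single j I)) z :=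
    ((SmoothB_fderiv_test hf _).smooth.differentiable (by simp)) z
  have h1 := ((d1.hasFDerivAt.add (d2.hasFDerivAt.const_smul I)).const_smul (1 / 2 : ℂ)).fderiv
  have h2 : dbar j f = ((1 / 2 : ℂ) • ((fun z => fderiv ℝ f z (Pi.single j 1)) +
      (I • fun z => fderiv ℝ f z (Pi.single j I)))) := rfl
  rw [h2, h1]
  simp only [smul_apply, add_apply, SmoothB_D2 hf]

private theorem SmoothB_fderiv_ddel {f : C3 → Fm m} (hf : IsTestC f) (j : Fin 3) (z w : C3) :
    fderiv ℝ (ddel j f) z w = (1 / 2 : ℂ) • (fderiv ℝ (fderiv ℝ f) z w (Pi.single j 1) -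
      I • fderiv ℝ (fderiv ℝ f) z w (Pi.single j I)) := by
  have d1 : DifferentiableAt ℝ (fun z => fderiv ℝ f z (Pi.single j 1)) z :=
    ((SmoothB_fderiv_test hf _).smooth.differentiable (by simp)) z
  have d2 : DifferentiableAt ℝ (fun z => fderiv ℝ f z (Pi.single j I)) z :=
    ((SmoothB_fderiv_test hf _).smooth.differentiable (by simp)) z
  have h1 := ((d1.hasFDerivAt.sub (d2.hasFDerivAt.const_smul I)).const_smul (1 / 2 : ℂ)).fderiv
  have h2 : ddel j f = ((1 / 2 : ℂ) • ((fun z => fderiv ℝ f z (Pi.single j 1)) -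
      (I • fun z => fderiv ℝ f z (Pi.single j I)))) := rfl
  rw [h2, h1]
  simp only [smul_apply, sub_apply, SmoothB_D2 hf]

private theorem SmoothB_comm {f : C3 → Fm m} (hf : IsTestC f) (j k : Fin 3) (z : C3) :
    dbar j (ddel k f) z = ddel k (dbar j f) z := by
  have e : ∀ v w, fderiv ℝ (fderiv ℝ f) z w v = fderiv ℝ (fderiv ℝ f) z v w :=
    fun v w => SmoothB_D2_symm hf v w z
  rw [dbar, ddel, SmoothB_fderiv_ddel hf, SmoothB_fderiv_ddel hf, SmoothB_fderiv_dbar hf,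
    SmoothB_fderiv_dbar hf, e (Pi.single k 1) (Pi.single j 1), e (Pi.single k I) (Pi.single j 1),
    e (Pi.single k 1) (Pi.single j I), e (Pi.single k I) (Pi.single j I)]
  simp only [smul_add, smul_sub, smul_smul]
  module

/-- `⟪∂̄_k f, ∂̄_j g⟫ = ⟪∂_j f, ∂_k g⟫`. -/
private theorem SmoothB_swap {f g : C3 → Fm m} (hf : IsTestC f) (hg : IsTestC g) (j k : Fin 3) :
    ∫ z, inner ℂ (dbar k f z) (dbar j g z) = ∫ z, inner ℂ (ddel j f z) (ddel k g z) := by
  have h1 := SmoothB_ibp_ddel hf (SmoothB_dbar_test hg j) k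
  have h2 := SmoothB_ibp_dbar hf (SmoothB_ddel_test hg k) j
  have h3 : (∫ z, inner ℂ (f z) (ddel k (dbar j g) z)) =
      ∫ z, inner ℂ (f z) (dbar j (ddel k g) z) := by
    congr 1
    ext z
    rw [SmoothB_comm hg]
  rw [h1, h2] at h3
  exact neg_inj.mp h3

private theorem SmoothB_norm_sq (f : C3 → Fm m) :
    ∫ z, inner ℂ (f z) (f z) = ((∫ z, ‖f z‖ ^ 2 : ℝ) : ℂ) := by
  rw [← integral_complex_ofReal]
  congr 1
  ext z
  rw [inner_self_eq_norm_sq_to_K]
  push_cast
  rfl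

private theorem SmoothB_integrable_norm_sq {f : C3 → Fm m} (hf : IsTestC f) :
    Integrable (fun z => ‖f z‖ ^ 2) := by
  apply Continuous.integrable_of_hasCompactSupport
  · exact (SmoothB_cont hf).norm.pow 2
  · apply hf.compact.mono
    intro z hz h
    apply hz
    simp only [h, norm_zero]
    norm_num

private theorem SmoothB_sub_test {f g : C3 → Fm m} (hf : IsTestC f) (hg : IsTestC g) :
    IsTestC (fun z => f z - g z) :=
  ⟨hf.smooth.sub hg.smooth, hf.compact.sub hg.compact⟩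

private theorem SmoothB_curl {a : Fin 3 → Fin 3 → C3 → Fm m} {b : Fin 3 → C3 → Fm m}
    (ha : ∀ j k, IsTestC (a j k)) (hb : ∀ j, IsTestC (b j))
    (h : ∀ j k, ∫ z, inner ℂ (a k j z) (a j k z) = ∫ z, inner ℂ (b j z) (b k z)) :
    ∫ z, ∑ j : Fin 3, ∑ k : Fin 3, ‖a j k z‖ ^ 2 =
      (∫ z, ∑ i : Fin 3, ‖a (i + 1) (i + 2) z - a (i + 2) (i + 1) z‖ ^ 2) +
      ∫ z, ‖∑ j : Fin 3, b j z‖ ^ 2 := by
  have key : ∀ (n : ℕ) (g : Fin n → C3 → Fm m),
      ((∫ z, ∑ i, ‖g i z‖ ^ 2 : ℝ) : ℂ) = ∫ z, ∑ i, inner ℂ (g i z) (g i z) := by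
    intro n g
    rw [← integral_complex_ofReal]
    congr 1
    ext z
    push_cast
    refine Finset.sum_congr rfl fun i _ => ?_
    rw [inner_self_eq_norm_sq_to_K]
    rfl
  have key2 : ((∫ z, ∑ j : Fin 3, ∑ k : Fin 3, ‖a j k z‖ ^ 2 : ℝ) : ℂ) =
      ∫ z, ∑ j : Fin 3, ∑ k : Fin 3, inner ℂ (a j k z) (a j k z) := by
    rw [← integral_complex_ofReal]
    congr 1
    ext z
    push_cast
    refine Finset.sum_congr rfl fun i _ => Finset.sum_congr rfl fun j _ => ?_
    rw [inner_self_eq_norm_sq_to_K]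
    rfl
  have h1 : ((∫ z, ‖∑ j : Fin 3, b j z‖ ^ 2 : ℝ) : ℂ) =
      ∫ z, ∑ j : Fin 3, ∑ k : Fin 3, inner ℂ (a k j z) (a j k z) := by
    rw [← SmoothB_norm_sq]
    simp only [inner_sum, sum_inner]
    have i1 : ∀ i j : Fin 3, Integrable (fun z => inner ℂ (b i z) (b j z)) :=
      fun i j => SmoothB_integrable_inner (hb i) (hb j)
    have i2 : ∀ i j : Fin 3, Integrable (fun z => inner ℂ (a i j z) (a j i z)) :=
      fun i j => SmoothB_integrable_inner (ha i j) (ha j i)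
    rw [integral_finsetSum _ fun i _ => integrable_finsetSum _ fun j _ => i1 j i,
      integral_finsetSum _ fun i _ => integrable_finsetSum _ fun j _ => i2 j i]
    have e1 : ∀ i : Fin 3, (∫ z, ∑ j : Fin 3, inner ℂ (b j z) (b i z)) =
        ∑ j : Fin 3, ∫ z, inner ℂ (b j z) (b i z) :=
      fun i => integral_finsetSum _ fun j _ => i1 j i
    have e2 : ∀ i : Fin 3, (∫ z, ∑ j : Fin 3, inner ℂ (a j i z) (a i j z)) =
        ∑ j : Fin 3, ∫ z, inner ℂ (a j i z) (a i j z) :=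
      fun i => integral_finsetSum _ fun j _ => i2 j i
    simp only [e1, e2, h]
    rw [Finset.sum_comm]
  have h2 : ((∫ z, ∑ i : Fin 3, ‖a (i + 1) (i + 2) z - a (i + 2) (i + 1) z‖ ^ 2 : ℝ) : ℂ) =
      ∫ z, ∑ i : Fin 3, inner ℂ (a (i + 1) (i + 2) z - a (i + 2) (i + 1) z)
        (a (i + 1) (i + 2) z - a (i + 2) (i + 1) z) := key 3 _
  have h3 : ((∫ z, ∑ j : Fin 3, ∑ k : Fin 3, ‖a j k z‖ ^ 2 : ℝ) : ℂ) =
      ((∫ z, ∑ i : Fin 3, ‖a (i + 1) (i + 2) z - a (i + 2) (i + 1) z‖ ^ 2 : ℝ) : ℂ) +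
      ((∫ z, ‖∑ j : Fin 3, b j z‖ ^ 2 : ℝ) : ℂ) := by
    rw [h1, h2, key2, ← integral_add]
    · congr 1
      ext z
      simp only [Fin.sum_univ_three, inner_sub_left, inner_sub_right]
      simp only [Fin.isValue, zero_add, Fin.reduceAdd]
      ring
    · exact integrable_finsetSum _ fun i _ => SmoothB_integrable_inner
        (SmoothB_sub_test (ha _ _) (ha _ _)) (SmoothB_sub_test (ha _ _) (ha _ _))
    · exact integrable_finsetSum _ fun i _ => integrable_finsetSum _ fun j _ =>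
        SmoothB_integrable_inner (ha _ _) (ha _ _)
  exact_mod_cast h3

end SmoothBAux

theorem ddel_eq {f : C3 → Fm m} (hf : IsTestC f) (j : Fin 3) :
    ∫ z, ‖ddel j f z‖ ^ 2 = ∫ z, ‖dbar j f z‖ ^ 2 := by
  have := SmoothB_swap hf hf j j
  rw [SmoothB_norm_sq, SmoothB_norm_sq] at this
  exact_mod_cast this.symm

theorem grad_eq {f : Fin 3 → C3 → Fm m} (hf : ∀ k, IsTestC (f k)) :
    ∫ z, ∑ j : Fin 3, ∑ k : Fin 3, ‖dbar j (f k) z‖ ^ 2 =
      (∫ z, ∑ i : Fin 3, ‖dbar (i + 1) (f (i + 2)) z - dbar (i + 2) (f (i + 1)) z‖ ^ 2) +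
      ∫ z, ‖∑ j : Fin 3, ddel j (f j) z‖ ^ 2 :=
  SmoothB_curl (a := fun j k => dbar j (f k)) (b := fun j => ddel j (f j))
    (fun j k => SmoothB_dbar_test (hf k) j) (fun j => SmoothB_ddel_test (hf j) j)
    (fun j k => SmoothB_swap (hf j) (hf k) j k)

/-- The mirrored version. -/
theorem grad_eq' {f : Fin 3 → C3 → Fm m} (hf : ∀ k, IsTestC (f k)) :
    ∫ z, ∑ j : Fin 3, ∑ k : Fin 3, ‖dbar j (f k) z‖ ^ 2 =
      (∫ z, ∑ i : Fin 3, ‖ddel (i + 1) (f (i + 2)) z - ddel (i + 2) (f (i + 1)) z‖ ^ 2) +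
      ∫ z, ‖∑ j : Fin 3, dbar j (f j) z‖ ^ 2 := by
  rw [← SmoothB_curl (a := fun j k => ddel j (f k)) (b := fun j => dbar j (f j))
    (fun j k => SmoothB_ddel_test (hf k) j) (fun j => SmoothB_dbar_test (hf j) j)
    (fun j k => (SmoothB_swap (hf j) (hf k) k j).symm)]
  have i1 : ∀ j k : Fin 3, Integrable (fun z => ‖dbar j (f k) z‖ ^ 2) :=
    fun j k => SmoothB_integrable_norm_sq (SmoothB_dbar_test (hf k) j)
  have i2 : ∀ j k : Fin 3, Integrable (fun z => ‖ddel j (f k) z‖ ^ 2) :=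
    fun j k => SmoothB_integrable_norm_sq (SmoothB_ddel_test (hf k) j)
  rw [integral_finsetSum _ fun i _ => integrable_finsetSum _ fun j _ => i1 i j,
    integral_finsetSum _ fun i _ => integrable_finsetSum _ fun j _ => i2 i j]
  refine Finset.sum_congr rfl fun j _ => ?_
  rw [integral_finsetSum _ fun k _ => i1 j k, integral_finsetSum _ fun k _ => i2 j k]
  exact Finset.sum_congr rfl fun k _ => (ddel_eq (hf k) j).symm

private theorem SmoothB_fderiv_eq {f : C3 → Fm m} (z y : C3) :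
    fderiv ℝ f z y = ∑ j : Fin 3, (y j • ddel j f z + conj (y j) • dbar j f z) := by
  have h1 : y = ∑ j : Fin 3, ((y j).re • (Pi.single j 1 : C3) + (y j).im • (Pi.single j I : C3)) := by
    ext k
    simp only [Finset.sum_apply, Pi.add_apply, Pi.smul_apply, Pi.single_apply]
    rw [Finset.sum_eq_single k]
    · simp [Complex.re_add_im]
    · intro b _ hb
      simp [Ne.symm hb]
    · simp
  conv_lhs => rw [h1]
  rw [map_sum]
  refine Finset.sum_congr rfl fun j _ => ?_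
  rw [map_add, map_smul, map_smul, dbar, ddel]
  set X := fderiv ℝ f z (Pi.single j 1)
  set Y := fderiv ℝ f z (Pi.single j I)
  rw [← Complex.coe_smul, ← Complex.coe_smul]
  have e1 : y j = (y j).re + (y j).im * I := (Complex.re_add_im _).symm
  have e2 : conj (y j) = (y j).re - (y j).im * I := by
    apply Complex.ext <;> simp
  rw [e2]
  have key : ∀ a b : ℝ, (a : ℂ) • X + (b : ℂ) • Y =
      ((a : ℂ) + b * I) • ((1 / 2 : ℂ) • (X - I • Y)) +
      ((a : ℂ) - b * I) • ((1 / 2 : ℂ) • (X + I • Y)) := by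
    intro a b
    match_scalars
    · ring
    · linear_combination (b : ℂ) * Complex.I_sq
  rw [key, ← e1]

private theorem SmoothB_norm_fderiv_le {f : C3 → Fm m} (z y : C3) :
    ‖fderiv ℝ f z y‖ ^ 2 ≤ 6 * ‖y‖ ^ 2 * ((∑ j : Fin 3, ‖ddel j f z‖ ^ 2) +
      ∑ j : Fin 3, ‖dbar j f z‖ ^ 2) := by
  have h1 : ‖fderiv ℝ f z y‖ ≤ ‖y‖ * ∑ j : Fin 3, (‖ddel j f z‖ + ‖dbar j f z‖) := by
    rw [SmoothB_fderiv_eq, Finset.mul_sum]
    refine (norm_sum_le _ _).trans (Finset.sum_le_sum fun j _ => ?_)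
    refine (norm_add_le _ _).trans ?_
    rw [norm_smul, norm_smul, RCLike.norm_conj, ← mul_add]
    exact mul_le_mul_of_nonneg_right (norm_le_pi_norm y j) (by positivity)
  have h2 : ‖fderiv ℝ f z y‖ ^ 2 ≤ (‖y‖ * ∑ j : Fin 3, (‖ddel j f z‖ + ‖dbar j f z‖)) ^ 2 :=
    pow_le_pow_left₀ (norm_nonneg _) h1 2
  refine h2.trans ?_
  rw [mul_pow]
  have h3 : (∑ j : Fin 3, (‖ddel j f z‖ + ‖dbar j f z‖)) ^ 2 ≤
      6 * ((∑ j : Fin 3, ‖ddel j f z‖ ^ 2) + ∑ j : Fin 3, ‖dbar j f z‖ ^ 2) := by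
    simp only [Fin.sum_univ_three]
    generalize ‖ddel 0 f z‖ = a
    generalize ‖ddel 1 f z‖ = b
    generalize ‖ddel 2 f z‖ = c
    generalize ‖dbar 0 f z‖ = a'
    generalize ‖dbar 1 f z‖ = b'
    generalize ‖dbar 2 f z‖ = c'
    nlinarith [sq_nonneg (a - b), sq_nonneg (a - c), sq_nonneg (a - a'), sq_nonneg (a - b'),
      sq_nonneg (a - c'), sq_nonneg (b - c), sq_nonneg (b - a'), sq_nonneg (b - b'),
      sq_nonneg (b - c'), sq_nonneg (c - a'), sq_nonneg (c - b'), sq_nonneg (c - c'),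
      sq_nonneg (a' - b'), sq_nonneg (a' - c'), sq_nonneg (b' - c')]
  nlinarith [mul_le_mul_of_nonneg_left h3 (sq_nonneg ‖y‖)]

private theorem SmoothB_shift_test {f : C3 → Fm m} (hf : IsTestC f) (y : C3) :
    IsTestC (fun z => f (z - y)) :=
  ⟨hf.smooth.comp (contDiff_id.sub contDiff_const),
    hf.compact.comp_homeomorph (Homeomorph.subRight y)⟩

private theorem SmoothB_jensen {h : ℝ → Fm m} (hh : Continuous h) :
    ‖∫ t in (0 : ℝ)..1, h t‖ ^ 2 ≤ ∫ t in (0 : ℝ)..1, ‖h t‖ ^ 2 := by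
  set c := ‖∫ t in (0 : ℝ)..1, h t‖ with hc
  have h1 : c ≤ ∫ t in (0 : ℝ)..1, ‖h t‖ :=
    intervalIntegral.norm_integral_le_integral_norm (by norm_num)
  have h2 : 0 ≤ ∫ t in (0 : ℝ)..1, (‖h t‖ - c) ^ 2 :=
    intervalIntegral.integral_nonneg (by norm_num) fun t _ => sq_nonneg _
  have h3 : ∫ t in (0 : ℝ)..1, (‖h t‖ - c) ^ 2 =
      (∫ t in (0 : ℝ)..1, ‖h t‖ ^ 2) - 2 * c * (∫ t in (0 : ℝ)..1, ‖h t‖) + c ^ 2 := by
    have e : ∀ t, (‖h t‖ - c) ^ 2 = ‖h t‖ ^ 2 - 2 * c * ‖h t‖ + c ^ 2 := fun t => by ring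
    simp only [e]
    have i1 : IntervalIntegrable (fun t => ‖h t‖ ^ 2) volume 0 1 :=
      (hh.norm.pow 2).intervalIntegrable _ _
    have i2 : IntervalIntegrable (fun t => 2 * c * ‖h t‖) volume 0 1 :=
      (continuous_const.mul hh.norm).intervalIntegrable _ _
    rw [intervalIntegral.integral_add (i1.sub i2) (by simp),
      intervalIntegral.integral_sub i1 i2, intervalIntegral.integral_const_mul]
    simp
  have hc0 : 0 ≤ c := norm_nonneg _
  nlinarith [mul_le_mul_of_nonneg_left h1 hc0]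

private theorem SmoothB_translate_pt {f : C3 → Fm m} (hf : IsTestC f) (y z : C3) :
    ‖f (z - y) - f z‖ ^ 2 ≤ ∫ t in (0 : ℝ)..1, ‖fderiv ℝ f (z - t • y) y‖ ^ 2 := by
  have hd : ∀ t ∈ Set.uIcc (0 : ℝ) 1, HasDerivAt (fun t : ℝ => f (z - t • y))
      (-(fderiv ℝ f (z - t • y) y)) t := by
    intro t _
    have h1 : HasDerivAt (fun t : ℝ => z - t • y) (-y) t := by
      have := ((hasDerivAt_id t).smul_const y).const_sub z
      simpa using this
    have h2 : HasFDerivAt f (fderiv ℝ f (z - t • y)) (z - t • y) :=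
      ((hf.smooth.differentiable (by simp)) _).hasFDerivAt
    have := h2.comp_hasDerivAt t h1
    rw [map_neg] at this
    exact this
  have hcont : Continuous fun t : ℝ => -(fderiv ℝ f (z - t • y) y) := by
    have : Continuous (fun x => fderiv ℝ f x y) := (SmoothB_cont (SmoothB_fderiv_test hf y))
    exact (this.comp (by fun_prop : Continuous fun t : ℝ => z - t • y)).neg
  have h3 := intervalIntegral.integral_eq_sub_of_hasDerivAt hd (hcont.intervalIntegrable _ _)
  simp only [one_smul, zero_smul, sub_zero] at h3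
  rw [← h3]
  refine (SmoothB_jensen hcont).trans (le_of_eq ?_)
  simp only [norm_neg]

/-- Translation estimate: `u(z-y) - u(z) = -∫₀¹ Du(z - t y)[y] dt`, `|Du(z)[y]|² ≤
6 ‖y‖² ∑_j (|∂_j u|² + |∂̄_j u|²)` and `ddel_eq`. -/
theorem translate_le {f : C3 → Fm m} (hf : IsTestC f) (y : C3) :
    ∫ z, ‖f (z - y) - f z‖ ^ 2 ≤ 12 * ‖y‖ ^ 2 * ∫ z, ∑ j : Fin 3, ‖dbar j f z‖ ^ 2 := by
  set G : C3 → ℝ := fun z => ‖fderiv ℝ f z y‖ ^ 2 with hG
  have hGi : Integrable G := SmoothB_integrable_norm_sq (SmoothB_fderiv_test hf y)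
  have hGc : Continuous G := (SmoothB_cont (SmoothB_fderiv_test hf y)).norm.pow 2
  have hprod : Integrable (fun p : ℝ × C3 => G (p.2 - p.1 • y))
      ((volume.restrict (Set.Ioc (0 : ℝ) 1)).prod volume) := by
    rw [integrable_prod_iff]
    · constructor
      · exact Eventually.of_forall fun t => hGi.comp_sub_right (t • y)
      · have : ∀ t : ℝ, (∫ z, ‖G (z - t • y)‖) = ∫ z, ‖G z‖ := fun t =>
          integral_sub_right_eq_self (fun z => ‖G z‖) (t • y)
        simp only [this]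
        exact integrable_const _
    · exact (hGc.comp (by fun_prop)).aestronglyMeasurable
  have hsw := integral_integral_swap (f := fun (t : ℝ) (z : C3) => G (z - t • y)) hprod
  have h1 : ∫ z, ‖f (z - y) - f z‖ ^ 2 ≤ ∫ z, G z := by
    calc ∫ z, ‖f (z - y) - f z‖ ^ 2 ≤ ∫ z, ∫ t in Set.Ioc (0 : ℝ) 1, G (z - t • y) := by
          apply integral_mono
          · exact SmoothB_integrable_norm_sq (SmoothB_sub_test (SmoothB_shift_test hf y) hf)
          · exact hprod.integral_prod_right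
          · intro z
            have := SmoothB_translate_pt hf y z
            rw [intervalIntegral.integral_of_le (by norm_num)] at this
            exact this
      _ = ∫ t in Set.Ioc (0 : ℝ) 1, ∫ z, G (z - t • y) := hsw.symm
      _ = ∫ t in Set.Ioc (0 : ℝ) 1, ∫ z, G z := by
          congr 1
          ext t
          exact integral_sub_right_eq_self G (t • y)
      _ = ∫ z, G z := by
          rw [integral_const]
          simp
  have hi1 : ∀ j : Fin 3, Integrable (fun z => ‖dbar j f z‖ ^ 2) :=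
    fun j => SmoothB_integrable_norm_sq (SmoothB_dbar_test hf j)
  have hi2 : ∀ j : Fin 3, Integrable (fun z => ‖ddel j f z‖ ^ 2) :=
    fun j => SmoothB_integrable_norm_sq (SmoothB_ddel_test hf j)
  have hs1 : Integrable (fun z => ∑ j : Fin 3, ‖dbar j f z‖ ^ 2) :=
    integrable_finsetSum _ fun j _ => hi1 j
  have hs2 : Integrable (fun z => ∑ j : Fin 3, ‖ddel j f z‖ ^ 2) :=
    integrable_finsetSum _ fun j _ => hi2 j
  have h2 : ∫ z, G z ≤ ∫ z, 6 * ‖y‖ ^ 2 * ((∑ j : Fin 3, ‖ddel j f z‖ ^ 2) +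
      ∑ j : Fin 3, ‖dbar j f z‖ ^ 2) :=
    integral_mono hGi ((hs2.add hs1).const_mul _) fun z => SmoothB_norm_fderiv_le z y
  have h3 : (∫ z, ∑ j : Fin 3, ‖ddel j f z‖ ^ 2) = ∫ z, ∑ j : Fin 3, ‖dbar j f z‖ ^ 2 := by
    rw [integral_finsetSum _ fun j _ => hi1 j, integral_finsetSum _ fun j _ => hi2 j]
    exact Finset.sum_congr rfl fun j _ => ddel_eq hf j
  rw [integral_const_mul, integral_add hs2 hs1, h3] at h2
  linarith

private def SmoothB_l (i : Fin 4) : C3 →L[ℝ] ℝ :=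
  ![Complex.reCLM ∘L (ContinuousLinearMap.proj (R := ℝ) (φ := fun _ : Fin 3 => ℂ) 1),
    Complex.imCLM ∘L (ContinuousLinearMap.proj (R := ℝ) (φ := fun _ : Fin 3 => ℂ) 1),
    Complex.reCLM ∘L (ContinuousLinearMap.proj (R := ℝ) (φ := fun _ : Fin 3 => ℂ) 2),
    Complex.imCLM ∘L (ContinuousLinearMap.proj (R := ℝ) (φ := fun _ : Fin 3 => ℂ) 2)] i

private def SmoothB_v (i : Fin 4) : C3 :=
  ![Pi.single 1 1, Pi.single 1 I, Pi.single 2 1, Pi.single 2 I] i

private theorem SmoothB_l_v (i j : Fin 4) : SmoothB_l i (SmoothB_v j) = if i = j then 1 else 0 := by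
  fin_cases i <;> fin_cases j <;> simp [SmoothB_l, SmoothB_v]

private def SmoothB_w (δ : ℝ) (z : C3) : ℝ := (∑ i : Fin 4, SmoothB_l i z ^ 2) + δ

private theorem SmoothB_w_eq (δ : ℝ) (z : C3) :
    SmoothB_w δ z = ‖z 1‖ ^ 2 + ‖z 2‖ ^ 2 + δ := by
  rw [SmoothB_w, Fin.sum_univ_four, ← Complex.normSq_eq_norm_sq, ← Complex.normSq_eq_norm_sq,
    Complex.normSq_apply, Complex.normSq_apply]
  simp [SmoothB_l]
  ring

private theorem SmoothB_w_pos {δ : ℝ} (hδ : 0 < δ) (z : C3) : 0 < SmoothB_w δ z := by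
  unfold SmoothB_w
  positivity

private theorem SmoothB_w_smooth (δ : ℝ) : ContDiff ℝ ∞ (SmoothB_w δ) := by
  unfold SmoothB_w
  apply ContDiff.add _ contDiff_const
  apply ContDiff.sum
  intro i _
  exact (SmoothB_l i).contDiff.pow 2

private theorem SmoothB_w_hasFDerivAt (δ : ℝ) (z : C3) :
    HasFDerivAt (SmoothB_w δ) (∑ i : Fin 4, (2 * SmoothB_l i z) • SmoothB_l i) z := by
  unfold SmoothB_w
  apply HasFDerivAt.add_const
  apply HasFDerivAt.fun_sum
  intro i _
  have := (SmoothB_l i).hasFDerivAt (x := z) |>.pow 2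
  simpa using this

private def SmoothB_c (δ : ℝ) (i : Fin 4) (z : C3) : ℝ := SmoothB_l i z * (SmoothB_w δ z)⁻¹

private theorem SmoothB_c_smooth {δ : ℝ} (hδ : 0 < δ) (i : Fin 4) :
    ContDiff ℝ ∞ (SmoothB_c δ i) :=
  (SmoothB_l i).contDiff.mul ((SmoothB_w_smooth δ).inv fun z => (SmoothB_w_pos hδ z).ne')

private theorem SmoothB_c_deriv {δ : ℝ} (hδ : 0 < δ) (i : Fin 4) (z : C3) :
    fderiv ℝ (SmoothB_c δ i) z (SmoothB_v i) =
      (SmoothB_w δ z)⁻¹ - 2 * SmoothB_l i z ^ 2 * ((SmoothB_w δ z)⁻¹) ^ 2 := by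
  have h0 := (SmoothB_w_pos hδ z).ne'
  have h1 : HasFDerivAt (fun z => (SmoothB_w δ z)⁻¹) _ z :=
    (hasFDerivAt_inv h0).comp z (SmoothB_w_hasFDerivAt δ z)
  have h2 : HasFDerivAt (SmoothB_c δ i) _ z := ((SmoothB_l i).hasFDerivAt (x := z)).mul h1
  rw [h2.fderiv]
  simp [SmoothB_l_v]
  field_simp
  ring

private theorem SmoothB_smul_test {f : C3 → Fm m} (hf : IsTestC f) {c : C3 → ℝ}
    (hc : ContDiff ℝ ∞ c) : IsTestC (fun z => c z • f z) := by
  refine ⟨hc.smul hf.smooth, ?_⟩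
  apply hf.compact.mono
  intro z hz h
  apply hz
  simp only [h, smul_zero]

private theorem SmoothB_integrable_mul {f : C3 → Fm m} (hf : IsTestC f) {c : C3 → ℝ}
    (hc : Continuous c) : Integrable (fun z => c z * ‖f z‖ ^ 2) := by
  apply Continuous.integrable_of_hasCompactSupport
  · exact hc.mul ((SmoothB_cont hf).norm.pow 2)
  · apply hf.compact.mono
    intro z hz h
    apply hz
    simp only [h, norm_zero]
    norm_num

private theorem SmoothB_integrable_mul_re {f g : C3 → Fm m} (hf : IsTestC f) (hg : IsTestC g)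
    {c : C3 → ℝ} (hc : Continuous c) :
    Integrable (fun z => c z * (inner ℂ (f z) (g z) : ℂ).re) := by
  apply Continuous.integrable_of_hasCompactSupport
  · exact hc.mul (Complex.continuous_re.comp ((SmoothB_cont hf).inner (SmoothB_cont hg)))
  · apply hf.compact.mono
    intro z hz h
    apply hz
    simp only [h, inner_zero_left]
    simp

private theorem SmoothB_ibp_sq {f : C3 → Fm m} (hf : IsTestC f) {c : C3 → ℝ}
    (hc : ContDiff ℝ ∞ c) (v : C3) :
    ∫ z, fderiv ℝ c z v * ‖f z‖ ^ 2 =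
      -2 * ∫ z, c z * (inner ℂ (f z) (fderiv ℝ f z v) : ℂ).re := by
  have h1 := SmoothB_ibp hf (SmoothB_smul_test hf hc) v
  have hfd : ∀ z, fderiv ℝ (fun z => c z • f z) z v =
      c z • fderiv ℝ f z v + fderiv ℝ c z v • f z := by
    intro z
    have d1 : HasFDerivAt c (fderiv ℝ c z) z :=
      ((hc.differentiable (by simp)) z).hasFDerivAt
    have d2 : HasFDerivAt f (fderiv ℝ f z) z :=
      ((hf.smooth.differentiable (by simp)) z).hasFDerivAt
    have := (d1.smul d2).fderiv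
    have e : (fun z => c z • f z) = c • f := rfl
    rw [e, this]
    simp
  have hcc : Continuous (fun z => fderiv ℝ c z v) :=
    ((hc.fderiv_right (m := ∞) (by simp)).clm_apply contDiff_const).continuous
  have h2 : (∫ z, inner ℂ (f z) (fderiv ℝ (fun z => c z • f z) z v)).re =
      (∫ z, c z * (inner ℂ (f z) (fderiv ℝ f z v) : ℂ).re) + ∫ z, fderiv ℝ c z v * ‖f z‖ ^ 2 := by
    rw [← integral_add (SmoothB_integrable_mul_re hf (SmoothB_fderiv_test hf v) hc.continuous)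
      (SmoothB_integrable_mul hf hcc)]
    have := integral_re (SmoothB_integrable_inner hf (SmoothB_fderiv_test (SmoothB_smul_test hf hc) v))
    simp only [RCLike.re_eq_complex_re] at this
    rw [← this]
    congr 1
    ext z
    rw [hfd, inner_add_right, ← Complex.coe_smul, ← Complex.coe_smul, inner_smul_right,
      inner_smul_right, inner_self_eq_norm_sq_to_K, Complex.add_re, Complex.re_ofReal_mul]
    congr 1
    have e9 : ((RCLike.ofReal ‖f z‖ : ℂ) ^ 2) = ((‖f z‖ ^ 2 : ℝ) : ℂ) := by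
      push_cast
      rfl
    rw [e9, Complex.re_ofReal_mul, Complex.ofReal_re]
  have h3 : (∫ z, inner ℂ (fderiv ℝ f z v) (c z • f z)).re =
      ∫ z, c z * (inner ℂ (f z) (fderiv ℝ f z v) : ℂ).re := by
    have := integral_re (SmoothB_integrable_inner (SmoothB_fderiv_test hf v) (SmoothB_smul_test hf hc))
    simp only [RCLike.re_eq_complex_re] at this
    rw [← this]
    congr 1
    ext z
    rw [← Complex.coe_smul, inner_smul_right, Complex.re_ofReal_mul, ← inner_conj_symm,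
      Complex.conj_re]
  have h4 := congrArg Complex.re h1
  rw [Complex.neg_re, h2, h3] at h4
  linarith

/-- Hardy inequality in the last two variables: with `w = |z_1|² + |z_2|² + δ` and
`X = (z_1, z_2)/w` one has `div X ≥ 2/w`; integrate by parts `∫ |f|² div X = -2 ∫ Re ⟪f, X·∇f⟫`.
-/
theorem hardy {f : C3 → Fm m} (hf : IsTestC f) {δ : ℝ} (hδ : 0 < δ) :
    ∫ z, ‖f z‖ ^ 2 / (‖z 1‖ ^ 2 + ‖z 2‖ ^ 2 + δ) ≤ 4 * ∫ z, ∑ j : Fin 3, ‖dbar j f z‖ ^ 2 := by
  have hi1 : ∀ j : Fin 3, Integrable (fun z => ‖dbar j f z‖ ^ 2) :=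
    fun j => SmoothB_integrable_norm_sq (SmoothB_dbar_test hf j)
  have hi2 : ∀ j : Fin 3, Integrable (fun z => ‖ddel j f z‖ ^ 2) :=
    fun j => SmoothB_integrable_norm_sq (SmoothB_ddel_test hf j)
  have hs1 : Integrable (fun z => ∑ j : Fin 3, ‖dbar j f z‖ ^ 2) :=
    integrable_finsetSum _ fun j _ => hi1 j
  have hs2 : Integrable (fun z => ∑ j : Fin 3, ‖ddel j f z‖ ^ 2) :=
    integrable_finsetSum _ fun j _ => hi2 j
  have h3 : (∫ z, ∑ j : Fin 3, ‖ddel j f z‖ ^ 2) = ∫ z, ∑ j : Fin 3, ‖dbar j f z‖ ^ 2 := by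
    rw [integral_finsetSum _ fun j _ => hi1 j, integral_finsetSum _ fun j _ => hi2 j]
    exact Finset.sum_congr rfl fun j _ => ddel_eq hf j
  have hwc : Continuous (SmoothB_w δ) := (SmoothB_w_smooth δ).continuous
  have hwi : Continuous fun z => (SmoothB_w δ z)⁻¹ :=
    hwc.inv₀ fun z => (SmoothB_w_pos hδ z).ne'
  -- integration by parts, summed over the four directions
  have hdc : ∀ i : Fin 4, Continuous (fun z => fderiv ℝ (SmoothB_c δ i) z (SmoothB_v i)) :=
    fun i => (((SmoothB_c_smooth hδ i).fderiv_right (m := ∞) (by simp)).clm_apply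
      contDiff_const).continuous
  have hibp : (∫ z, (∑ i : Fin 4, fderiv ℝ (SmoothB_c δ i) z (SmoothB_v i)) * ‖f z‖ ^ 2) =
      ∫ z, -2 * ∑ i : Fin 4, SmoothB_c δ i z *
        (inner ℂ (f z) (fderiv ℝ f z (SmoothB_v i)) : ℂ).re := by
    simp only [Finset.sum_mul]
    rw [integral_const_mul, integral_finsetSum _ fun i _ => SmoothB_integrable_mul hf (hdc i),
      integral_finsetSum _ fun i _ => SmoothB_integrable_mul_re hf (SmoothB_fderiv_test hf _)
        (SmoothB_c_smooth hδ i).continuous, Finset.mul_sum]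
    exact Finset.sum_congr rfl fun i _ => SmoothB_ibp_sq hf (SmoothB_c_smooth hδ i) _
  -- lower bound of the divergence
  have hdiv : ∀ z, 2 * ((SmoothB_w δ z)⁻¹ * ‖f z‖ ^ 2) ≤
      (∑ i : Fin 4, fderiv ℝ (SmoothB_c δ i) z (SmoothB_v i)) * ‖f z‖ ^ 2 := by
    intro z
    rw [← mul_assoc]
    apply mul_le_mul_of_nonneg_right _ (by positivity)
    simp only [SmoothB_c_deriv hδ]
    have hw := SmoothB_w_pos hδ z
    have e : (∑ i : Fin 4, ((SmoothB_w δ z)⁻¹ - 2 * SmoothB_l i z ^ 2 * ((SmoothB_w δ z)⁻¹) ^ 2)) =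
        4 * (SmoothB_w δ z)⁻¹ - 2 * (SmoothB_w δ z - δ) * ((SmoothB_w δ z)⁻¹) ^ 2 := by
      have : SmoothB_w δ z - δ = ∑ i : Fin 4, SmoothB_l i z ^ 2 := by
        unfold SmoothB_w
        ring
      rw [this]
      simp only [Fin.sum_univ_four]
      ring
    rw [e]
    have e2 : SmoothB_w δ z * (SmoothB_w δ z)⁻¹ ^ 2 = (SmoothB_w δ z)⁻¹ := by
      field_simp
    have : 0 ≤ δ * (SmoothB_w δ z)⁻¹ ^ 2 := by positivity
    nlinarith
  -- upper bound of the right hand side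
  have hup : ∀ z, -2 * ∑ i : Fin 4, SmoothB_c δ i z *
        (inner ℂ (f z) (fderiv ℝ f z (SmoothB_v i)) : ℂ).re ≤
      (SmoothB_w δ z)⁻¹ * ‖f z‖ ^ 2 + 2 * ((∑ j : Fin 3, ‖ddel j f z‖ ^ 2) +
        ∑ j : Fin 3, ‖dbar j f z‖ ^ 2) := by
    intro z
    have hw := SmoothB_w_pos hδ z
    set w := SmoothB_w δ z with hwdef
    set X : C3 := ∑ i : Fin 4, SmoothB_c δ i z • SmoothB_v i with hX
    have hX0 : X 0 = 0 := by
      simp [hX, Fin.sum_univ_four, SmoothB_v]
    have hX1 : X 1 = z 1 * ((w⁻¹ : ℝ) : ℂ) := by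
      simp only [hX, Fin.sum_univ_four, SmoothB_v, SmoothB_c, SmoothB_l]
      simp [← hwdef]
      conv_rhs => rw [← Complex.re_add_im (z 1)]
      ring
    have hX2 : X 2 = z 2 * ((w⁻¹ : ℝ) : ℂ) := by
      simp only [hX, Fin.sum_univ_four, SmoothB_v, SmoothB_c, SmoothB_l]
      simp [← hwdef]
      conv_rhs => rw [← Complex.re_add_im (z 2)]
      ring
    have hsum : (∑ i : Fin 4, SmoothB_c δ i z *
        (inner ℂ (f z) (fderiv ℝ f z (SmoothB_v i)) : ℂ).re) =
        (inner ℂ (f z) (fderiv ℝ f z X) : ℂ).re := by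
      rw [hX, map_sum, inner_sum, Complex.re_sum]
      refine Finset.sum_congr rfl fun i _ => ?_
      rw [map_smul, ← Complex.coe_smul, inner_smul_right, Complex.re_ofReal_mul]
    rw [hsum]
    have hn : ‖fderiv ℝ f z X‖ ≤ ‖X 1‖ * (‖ddel 1 f z‖ + ‖dbar 1 f z‖) +
        ‖X 2‖ * (‖ddel 2 f z‖ + ‖dbar 2 f z‖) := by
      rw [SmoothB_fderiv_eq, Fin.sum_univ_three, hX0]
      simp only [zero_smul, map_zero, add_zero, zero_add]
      refine (norm_add_le _ _).trans (add_le_add ?_ ?_)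
      · refine (norm_add_le _ _).trans ?_
        rw [norm_smul, norm_smul, RCLike.norm_conj, ← mul_add]
      · refine (norm_add_le _ _).trans ?_
        rw [norm_smul, norm_smul, RCLike.norm_conj, ← mul_add]
    have hx : ‖X 1‖ ^ 2 + ‖X 2‖ ^ 2 ≤ w⁻¹ := by
      rw [hX1, hX2, norm_mul, norm_mul, Complex.norm_real, Real.norm_eq_abs,
        abs_of_pos (inv_pos.mpr hw), mul_pow, mul_pow, ← add_mul]
      have h5 : ‖z 1‖ ^ 2 + ‖z 2‖ ^ 2 ≤ w := by
        rw [hwdef, SmoothB_w_eq]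
        linarith
      calc (‖z 1‖ ^ 2 + ‖z 2‖ ^ 2) * w⁻¹ ^ 2 ≤ w * w⁻¹ ^ 2 :=
            mul_le_mul_of_nonneg_right h5 (by positivity)
        _ = w⁻¹ := by field_simp
    set G := (∑ j : Fin 3, ‖ddel j f z‖ ^ 2) + ∑ j : Fin 3, ‖dbar j f z‖ ^ 2 with hGdef
    have hn2 : ‖fderiv ℝ f z X‖ ^ 2 ≤ w⁻¹ * (2 * G) := by
      have h6 : (‖X 1‖ * (‖ddel 1 f z‖ + ‖dbar 1 f z‖) +
        ‖X 2‖ * (‖ddel 2 f z‖ + ‖dbar 2 f z‖)) ^ 2 ≤ (‖X 1‖ ^ 2 + ‖X 2‖ ^ 2) *
          ((‖ddel 1 f z‖ + ‖dbar 1 f z‖) ^ 2 + (‖ddel 2 f z‖ + ‖dbar 2 f z‖) ^ 2) := by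
        nlinarith [sq_nonneg (‖X 1‖ * (‖ddel 2 f z‖ + ‖dbar 2 f z‖) -
          ‖X 2‖ * (‖ddel 1 f z‖ + ‖dbar 1 f z‖))]
      have h7 : (‖ddel 1 f z‖ + ‖dbar 1 f z‖) ^ 2 + (‖ddel 2 f z‖ + ‖dbar 2 f z‖) ^ 2 ≤ 2 * G := by
        rw [hGdef]
        simp only [Fin.sum_univ_three]
        nlinarith [sq_nonneg (‖ddel 1 f z‖ - ‖dbar 1 f z‖), sq_nonneg (‖ddel 2 f z‖ - ‖dbar 2 f z‖),
          sq_nonneg (‖ddel 0 f z‖), sq_nonneg (‖dbar 0 f z‖)]
      calc ‖fderiv ℝ f z X‖ ^ 2 ≤ _ := pow_le_pow_left₀ (norm_nonneg _) hn 2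
        _ ≤ _ := h6
        _ ≤ w⁻¹ * (2 * G) := mul_le_mul hx h7 (by positivity) (by positivity)
    have hre : -2 * (inner ℂ (f z) (fderiv ℝ f z X) : ℂ).re ≤ 2 * (‖f z‖ * ‖fderiv ℝ f z X‖) := by
      have := (Complex.abs_re_le_norm (inner ℂ (f z) (fderiv ℝ f z X))).trans
        (norm_inner_le_norm (𝕜 := ℂ) (f z) (fderiv ℝ f z X))
      have := (abs_le.mp this).1
      linarith
    refine hre.trans ?_
    set a := ‖f z‖
    set n := ‖fderiv ℝ f z X‖
    have h8 : 2 * (a * n) ≤ w⁻¹ * a ^ 2 + w * n ^ 2 := by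
      have h9 : w⁻¹ * a ^ 2 + w * n ^ 2 - 2 * (a * n) = w⁻¹ * (a - w * n) ^ 2 := by
        field_simp
        ring
      have : 0 ≤ w⁻¹ * (a - w * n) ^ 2 := by positivity
      linarith
    have h10 : w * n ^ 2 ≤ 2 * G := by
      calc w * n ^ 2 ≤ w * (w⁻¹ * (2 * G)) := mul_le_mul_of_nonneg_left hn2 hw.le
        _ = 2 * G := by field_simp
    linarith
  have hA : Integrable (fun z => (SmoothB_w δ z)⁻¹ * ‖f z‖ ^ 2) := SmoothB_integrable_mul hf hwi
  have hG : Integrable (fun z => 2 * ((∑ j : Fin 3, ‖ddel j f z‖ ^ 2) +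
        ∑ j : Fin 3, ‖dbar j f z‖ ^ 2)) := (hs2.add hs1).const_mul 2
  have m1 := integral_mono (hA.const_mul 2)
    (SmoothB_integrable_mul hf (continuous_finsetSum _ fun i _ => hdc i)) hdiv
  have m2 := integral_mono ((integrable_finsetSum _ fun i _ =>
    SmoothB_integrable_mul_re hf (SmoothB_fderiv_test hf _)
        (SmoothB_c_smooth hδ i).continuous).const_mul (-2)) (hA.add hG) hup
  have m3 : (∫ z, (SmoothB_w δ z)⁻¹ * ‖f z‖ ^ 2 + 2 * ((∑ j : Fin 3, ‖ddel j f z‖ ^ 2) +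
        ∑ j : Fin 3, ‖dbar j f z‖ ^ 2)) = (∫ z, (SmoothB_w δ z)⁻¹ * ‖f z‖ ^ 2) +
        4 * ∫ z, ∑ j : Fin 3, ‖dbar j f z‖ ^ 2 := by
    rw [integral_add hA hG, integral_const_mul, integral_add hs2 hs1, h3]
    ring
  have m4 : (∫ z, ‖f z‖ ^ 2 / (‖z 1‖ ^ 2 + ‖z 2‖ ^ 2 + δ)) =
      ∫ z, (SmoothB_w δ z)⁻¹ * ‖f z‖ ^ 2 := by
    congr 1
    ext z
    rw [← SmoothB_w_eq, div_eq_inv_mul]
  rw [integral_const_mul] at m1
  rw [m4]
  have m5 := m1.trans (hibp.le.trans m2)
  simp only [Pi.add_apply] at m5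
  linarith [m5, m3]

end

end Pool.Agent.HopfEmb
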