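import Pool.Agent.Lib.MP_d404b9_ag.SmoothA
import Pool.Agent.Lib.MP_d404b9_ag.SmoothB
import Pool.Agent.Lib.MP_d404b9_ag.Moll

/-!
# JOB WEAKEST: the inequalities of `Smooth.lean` for weak solutions with compact support

For `v ∈ L²` supported in `{a ≤ |z| ≤ b}` whose weak `∂̄`-curl and weak `∂`-divergence are in `L²`,
apply the smooth inequalities to the mollifications `moll n v` (`n` large; their curl/divergence
are the mollifications of the curl/divergence, by testing with `w ↦ φ_n(z - w)`), and let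
`n → ∞`: all terms converge by `moll_tendsto` (the functions `η_j`, `1/R2` are bounded on the
supports, which stay in `{a/2 ≤ |z| ≤ b + 2}` for `n` large; note `c`, `d` vanish a.e. outside the
support of `v` by the weak equation, or simply use that they have compact support, which is
assumed).
-/

set_option autoImplicit false

open MeasureTheory Complex Filter Topology
open scoped ContDiff ComplexConjugate

namespace Pool.Agent.HopfEmb

noncomputable section

variable {m : ℕ}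

/-- Convergence in `L²`. -/
private structure CV (g : ℕ → C3 → Fm m) (g0 : C3 → Fm m) : Prop where
  mem : ∀ n, MemLp (g n) 2 volume
  mem0 : MemLp g0 2 volume
  lim : Tendsto (fun n => eLpNorm (fun z => g n z - g0 z) 2 volume) atTop (𝓝 0)

private lemma CV.add {g h : ℕ → C3 → Fm m} {g0 h0 : C3 → Fm m} (hg : CV g g0) (hh : CV h h0) :
    CV (fun n z => g n z + h n z) (fun z => g0 z + h0 z) := by
  refine ⟨fun n => (hg.mem n).add (hh.mem n), hg.mem0.add hh.mem0, ?_⟩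
  have h1 := hg.lim.add hh.lim
  rw [add_zero] at h1
  refine tendsto_of_tendsto_of_tendsto_of_le_of_le tendsto_const_nhds h1
    (fun n => zero_le) (fun n => ?_)
  have h2 : (fun z => g n z + h n z - (g0 z + h0 z)) =
      (fun z => g n z - g0 z) + (fun z => h n z - h0 z) := by
    funext z; simp only [Pi.add_apply]; abel
  simp only [h2]
  exact eLpNorm_add_le ((hg.mem n).sub hg.mem0).1 ((hh.mem n).sub hh.mem0).1 (by norm_num)

private lemma CV.wmul {g : ℕ → C3 → Fm m} {g0 : C3 → Fm m} (hg : CV g g0) {w : C3 → ℂ}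
    (hw : AEStronglyMeasurable w volume) {C : ℝ}
    (h : ∀ n z, g n z ≠ 0 → ‖w z‖ ≤ C) (h0 : ∀ z, g0 z ≠ 0 → ‖w z‖ ≤ C) :
    CV (fun n z => w z • g n z) (fun z => w z • g0 z) := by
  have aux : ∀ f : C3 → Fm m, (∀ z, f z ≠ 0 → ‖w z‖ ≤ C) → ∀ z, ‖w z • f z‖ ≤ C * ‖f z‖ := by
    intro f hf z
    rw [norm_smul]
    by_cases hz : f z = 0
    · simp [hz]
    · exact mul_le_mul_of_nonneg_right (hf z hz) (norm_nonneg _)
  refine ⟨fun n => ?_, ?_, ?_⟩
  · exact (hg.mem n).of_le_mul (hw.smul (hg.mem n).1) (Eventually.of_forall (aux _ (h n)))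
  · exact hg.mem0.of_le_mul (hw.smul hg.mem0.1) (Eventually.of_forall (aux _ h0))
  · have h1 : Tendsto (fun n => ENNReal.ofReal C * eLpNorm (fun z => g n z - g0 z) 2 volume) atTop
        (𝓝 (ENNReal.ofReal C * 0)) :=
      ENNReal.Tendsto.const_mul hg.lim (Or.inr ENNReal.ofReal_ne_top)
    rw [mul_zero] at h1
    refine tendsto_of_tendsto_of_tendsto_of_le_of_le tendsto_const_nhds h1
      (fun n => zero_le) (fun n => ?_)
    apply eLpNorm_le_mul_eLpNorm_of_ae_le_mul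
    refine Eventually.of_forall (fun z => ?_)
    rw [← smul_sub]
    refine aux (fun z => g n z - g0 z) (fun z hz => ?_) z
    by_cases hz1 : g n z = 0
    · refine h0 z (fun hz2 => hz ?_)
      simp [hz1, hz2]
    · exact h n z hz1

private lemma CV.csmul {g : ℕ → C3 → Fm m} {g0 : C3 → Fm m} (hg : CV g g0) (s : ℂ) :
    CV (fun n z => s • g n z) (fun z => s • g0 z) :=
  hg.wmul (w := fun _ => s) aestronglyMeasurable_const (C := ‖s‖) (fun _ _ _ => le_rfl)
    (fun _ _ => le_rfl)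

private lemma CV.neg {g : ℕ → C3 → Fm m} {g0 : C3 → Fm m} (hg : CV g g0) :
    CV (fun n z => - g n z) (fun z => - g0 z) := by
  simpa using hg.csmul (-1)

private lemma CV.sub {g h : ℕ → C3 → Fm m} {g0 h0 : C3 → Fm m} (hg : CV g g0) (hh : CV h h0) :
    CV (fun n z => g n z - h n z) (fun z => g0 z - h0 z) := by
  simpa [sub_eq_add_neg] using hg.add hh.neg

private lemma CV.comp_sub {g : ℕ → C3 → Fm m} {g0 : C3 → Fm m} (hg : CV g g0) (y : C3) :
    CV (fun n z => g n (z - y)) (fun z => g0 (z - y)) := by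
  have hp := measurePreserving_sub_right (volume : Measure C3) y
  refine ⟨fun n => (hg.mem n).comp_measurePreserving hp, hg.mem0.comp_measurePreserving hp, ?_⟩
  refine hg.lim.congr (fun n => ?_)
  exact (eLpNorm_comp_measurePreserving ((hg.mem n).sub hg.mem0).1 hp).symm

private lemma int_sq_eq {g : C3 → Fm m} (hg : MemLp g 2 volume) :
    ∫ z, ‖g z‖ ^ 2 = (eLpNorm g 2 volume).toReal ^ 2 := by
  have h := hg.eLpNorm_eq_integral_rpow_norm (by norm_num) (by norm_num)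
  have h0 : 0 ≤ ∫ z, ‖g z‖ ^ 2 := integral_nonneg (fun z => by positivity)
  rw [h]
  simp only [ENNReal.toReal_ofNat, Real.rpow_ofNat]
  rw [ENNReal.toReal_ofReal (by positivity), ← Real.rpow_natCast, ← Real.rpow_mul h0]
  norm_num

private lemma CV.sq {g : ℕ → C3 → Fm m} {g0 : C3 → Fm m} (hg : CV g g0) :
    Tendsto (fun n => ∫ z, ‖g n z‖ ^ 2) atTop (𝓝 (∫ z, ‖g0 z‖ ^ 2)) := by
  have h1 : Tendsto (fun n => (eLpNorm (g n) 2 volume).toReal) atTop
      (𝓝 (eLpNorm g0 2 volume).toReal) := by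
    have h2 : Tendsto (fun n => (eLpNorm (fun z => g n z - g0 z) 2 volume).toReal) atTop
        (𝓝 0) := by
      have h := (ENNReal.tendsto_toReal ENNReal.zero_ne_top).comp hg.lim
      rw [ENNReal.toReal_zero] at h
      exact h
    rw [tendsto_iff_norm_sub_tendsto_zero]
    refine squeeze_zero (fun n => norm_nonneg _) (fun n => ?_) h2
    have h3 := Lp.norm_toLp (g n) (hg.mem n)
    have h4 := Lp.norm_toLp g0 hg.mem0
    have h5 := Lp.norm_toLp (g n - g0) ((hg.mem n).sub hg.mem0)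
    rw [MemLp.toLp_sub (hg.mem n) hg.mem0] at h5
    have h6 := abs_norm_sub_norm_le ((hg.mem n).toLp) (hg.mem0.toLp)
    rw [h3, h4, h5] at h6
    exact h6
  have h2 := h1.pow 2
  rw [← int_sq_eq hg.mem0] at h2
  refine h2.congr (fun n => ?_)
  rw [← int_sq_eq (hg.mem n)]

/-- Sums of three squares. -/
private lemma int_sum_sq {g : Fin 3 → C3 → Fm m} (hg : ∀ k, MemLp (g k) 2 volume) :
    ∫ z, ∑ k : Fin 3, ‖g k z‖ ^ 2 = ∑ k : Fin 3, ∫ z, ‖g k z‖ ^ 2 := by
  apply integral_finsetSum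
  intro k _
  exact (memLp_two_iff_integrable_sq_norm (hg k).1).1 (hg k)

private lemma CV.sum {g : Fin 3 → ℕ → C3 → Fm m} {g0 : Fin 3 → C3 → Fm m}
    (hg : ∀ k, CV (g k) (g0 k)) : CV (fun n z => ∑ k : Fin 3, g k n z)
      (fun z => ∑ k : Fin 3, g0 k z) := by
  simp only [Fin.sum_univ_three]
  exact ((hg 0).add (hg 1)).add (hg 2)

private lemma CV.sum_sq {g : Fin 3 → ℕ → C3 → Fm m} {g0 : Fin 3 → C3 → Fm m}
    (hg : ∀ k, CV (g k) (g0 k)) :
    Tendsto (fun n => ∫ z, ∑ k : Fin 3, ‖g k n z‖ ^ 2) atTop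
      (𝓝 (∫ z, ∑ k : Fin 3, ‖g0 k z‖ ^ 2)) := by
  rw [int_sum_sq (fun k => (hg k).mem0)]
  have h := tendsto_finsetSum (Finset.univ : Finset (Fin 3)) (fun k _ => (hg k).sq)
  refine h.congr (fun n => ?_)
  rw [int_sum_sq (fun k => (hg k).mem n)]

private lemma CV_moll {v : C3 → Fm m} (hv : MemLp v 2 volume) (hc : HasCompactSupport v) (N : ℕ) :
    CV (fun n => moll (n + N) v) v := by
  refine ⟨fun n => moll_memLp _ hv hc, hv, ?_⟩
  have h1 := (tendsto_add_atTop_iff_nat N).2 (moll_tendsto hv hc)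
  have h2 : Tendsto (fun x : ℝ => ENNReal.ofReal (x ^ ((1 : ℝ) / 2))) (𝓝 0) (𝓝 0) := by
    have h3 : Tendsto (fun x : ℝ => ENNReal.ofReal (x ^ ((1 : ℝ) / 2))) (𝓝 0)
        (𝓝 (ENNReal.ofReal ((0 : ℝ) ^ ((1 : ℝ) / 2)))) := by
      apply ENNReal.tendsto_ofReal
      exact (Real.continuousAt_rpow_const 0 (1 / 2) (Or.inr (by norm_num)))
    simpa using h3
  refine (h2.comp h1).congr (fun n => ?_)
  have h := ((moll_memLp (n + N) hv hc).sub hv).eLpNorm_eq_integral_rpow_norm (by norm_num)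
    (by norm_num)
  change _ = eLpNorm (moll (n + N) v - v) 2 volume
  rw [h]
  simp

/-- The weak equation for the mollifications. -/
private lemma integrable_test_smul {φ : C3 → ℂ} (hφ : Continuous φ) (hc : HasCompactSupport φ)
    {v : C3 → Fm m} (hv : MemLp v 2 volume) : Integrable (fun w => φ w • v w) := by
  have h1 : MemLp φ 2 volume := hφ.memLp_of_hasCompactSupport hc
  have h2 : MemLp (φ • v) 1 volume := MemLp.smul hv h1
  exact memLp_one_iff_integrable.1 h2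

private lemma dbar_cont {G : Type*} [NormedAddCommGroup G] [NormedSpace ℂ G] {φ : C3 → G}
    (hφ : IsTestC φ) (j : Fin 3) :
    Continuous (dbar j φ) ∧ HasCompactSupport (dbar j φ) := by
  have h1 : Continuous (fderiv ℝ φ) := hφ.smooth.continuous_fderiv (by simp)
  have h2 : HasCompactSupport (fderiv ℝ φ) := hφ.compact.fderiv (𝕜 := ℝ)
  refine ⟨?_, ?_⟩
  · unfold dbar
    fun_prop
  · refine h2.mono ?_
    intro z hz hz2
    apply hz
    simp [dbar, hz2]

private lemma ddel_cont {φ : C3 → ℂ} (hφ : IsTestC φ) (j : Fin 3) :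
    Continuous (ddel j φ) ∧ HasCompactSupport (ddel j φ) := by
  have h1 : Continuous (fderiv ℝ φ) := hφ.smooth.continuous_fderiv (by simp)
  have h2 : HasCompactSupport (fderiv ℝ φ) := hφ.compact.fderiv (𝕜 := ℝ)
  refine ⟨?_, ?_⟩
  · unfold ddel
    fun_prop
  · refine h2.mono ?_
    intro z hz hz2
    apply hz
    simp [ddel, hz2]

private lemma dbar_moll_eq (n : ℕ) {v c : C3 → Fm m} (hv : MemLp v 2 volume)
    (hcv : HasCompactSupport v) (j : Fin 3)
    (hw : ∀ φ : C3 → ℂ, IsTestC φ → ∫ z, dbar j φ z • v z = - ∫ z, φ z • c z) (z : C3) :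
    dbar j (moll n v) z = moll n c z := by
  rw [dbar_moll n hv hcv]
  have h := hw _ (bumpn_reflect_test n z)
  simp only [dbar_bumpn_reflect, neg_smul, integral_neg, neg_inj] at h
  exact h

private lemma dcurl_moll_eq (n : ℕ) {v1 v2 c : C3 → Fm m} (hv1 : MemLp v1 2 volume)
    (hcv1 : HasCompactSupport v1) (hv2 : MemLp v2 2 volume)
    (hcv2 : HasCompactSupport v2) (j1 j2 : Fin 3)
    (hw : ∀ φ : C3 → ℂ, IsTestC φ → ∫ z, (dbar j1 φ z • v2 z - dbar j2 φ z • v1 z)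
      = - ∫ z, φ z • c z) (z : C3) :
    dbar j1 (moll n v2) z - dbar j2 (moll n v1) z = moll n c z := by
  have h := hw _ (bumpn_reflect_test n z)
  rw [integral_sub (integrable_test_smul (dbar_cont (bumpn_reflect_test n z) _).1
    (dbar_cont (bumpn_reflect_test n z) _).2 hv2)
    (integrable_test_smul (dbar_cont (bumpn_reflect_test n z) _).1
    (dbar_cont (bumpn_reflect_test n z) _).2 hv1)] at h
  simp only [dbar_bumpn_reflect, neg_smul, integral_neg] at h
  rw [dbar_moll n hv1 hcv1, dbar_moll n hv2 hcv2]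
  unfold moll
  rw [← neg_inj, ← h]
  abel

private lemma ecurl_moll_eq (n : ℕ) {v1 v2 c : C3 → Fm m} (hv1 : MemLp v1 2 volume)
    (hcv1 : HasCompactSupport v1) (hv2 : MemLp v2 2 volume)
    (hcv2 : HasCompactSupport v2) (j1 j2 : Fin 3)
    (hw : ∀ φ : C3 → ℂ, IsTestC φ → ∫ z, (ddel j1 φ z • v2 z - ddel j2 φ z • v1 z)
      = - ∫ z, φ z • c z) (z : C3) :
    ddel j1 (moll n v2) z - ddel j2 (moll n v1) z = moll n c z := by
  have h := hw _ (bumpn_reflect_test n z)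
  rw [integral_sub (integrable_test_smul (ddel_cont (bumpn_reflect_test n z) _).1
    (ddel_cont (bumpn_reflect_test n z) _).2 hv2)
    (integrable_test_smul (ddel_cont (bumpn_reflect_test n z) _).1
    (ddel_cont (bumpn_reflect_test n z) _).2 hv1)] at h
  simp only [ddel_bumpn_reflect, neg_smul, integral_neg] at h
  rw [ddel_moll n hv1 hcv1, ddel_moll n hv2 hcv2]
  unfold moll
  rw [← neg_inj, ← h]
  abel

private lemma ddiv_moll_eq (n : ℕ) {v : Fin 3 → C3 → Fm m} {d : C3 → Fm m}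
    (hv : ∀ k, MemLp (v k) 2 volume) (hcv : ∀ k, HasCompactSupport (v k))
    (hw : ∀ φ : C3 → ℂ, IsTestC φ →
      ∫ z, ∑ j : Fin 3, ddel j φ z • v j z = - ∫ z, φ z • d z) (z : C3) :
    ∑ j : Fin 3, ddel j (moll n (v j)) z = moll n d z := by
  have h := hw _ (bumpn_reflect_test n z)
  rw [integral_finsetSum _ (fun j _ => integrable_test_smul
    (ddel_cont (bumpn_reflect_test n z) _).1 (ddel_cont (bumpn_reflect_test n z) _).2 (hv j))] at h
  simp only [ddel_bumpn_reflect, neg_smul, integral_neg, Finset.sum_neg_distrib, neg_inj] at h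
  unfold moll
  rw [← h]
  exact Finset.sum_congr rfl (fun j _ => ddel_moll n (hv j) (hcv j) j z)

private lemma bdiv_moll_eq (n : ℕ) {v : Fin 3 → C3 → Fm m} {d : C3 → Fm m}
    (hv : ∀ k, MemLp (v k) 2 volume) (hcv : ∀ k, HasCompactSupport (v k))
    (hw : ∀ φ : C3 → ℂ, IsTestC φ →
      ∫ z, ∑ j : Fin 3, dbar j φ z • v j z = - ∫ z, φ z • d z) (z : C3) :
    ∑ j : Fin 3, dbar j (moll n (v j)) z = moll n d z := by
  have h := hw _ (bumpn_reflect_test n z)
  rw [integral_finsetSum _ (fun j _ => integrable_test_smul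
    (dbar_cont (bumpn_reflect_test n z) _).1 (dbar_cont (bumpn_reflect_test n z) _).2 (hv j))] at h
  simp only [dbar_bumpn_reflect, neg_smul, integral_neg, Finset.sum_neg_distrib, neg_inj] at h
  unfold moll
  rw [← h]
  exact Finset.sum_congr rfl (fun j _ => dbar_moll n (hv j) (hcv j) j z)

/-! ### Supports and weights -/

private lemma rr_eq (z : C3) : rr z = ‖(WithLp.toLp 2 z : EuclideanSpace ℂ (Fin 3))‖ := by
  rw [EuclideanSpace.norm_eq]
  rfl

private lemma rr_le_two (z : C3) : rr z ≤ 2 * ‖z‖ := by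
  unfold rr R2
  apply Real.sqrt_le_iff.2 ⟨by positivity, ?_⟩
  have h : ∀ i, ‖z i‖ ^ 2 ≤ ‖z‖ ^ 2 := fun i => by
    have := norm_le_pi_norm z i
    gcongr
  rw [Fin.sum_univ_three]
  nlinarith [h 0, h 1, h 2]

private lemma norm_comp_le_rr (z : C3) (j : Fin 3) : ‖z j‖ ≤ rr z := by
  unfold rr R2
  apply Real.le_sqrt_of_sq_le
  exact Finset.single_le_sum (f := fun i => ‖z i‖ ^ 2) (fun i _ => by positivity)
    (Finset.mem_univ j)

private lemma rr_nonneg (z : C3) : 0 ≤ rr z := Real.sqrt_nonneg _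

private lemma rr_sq (z : C3) : rr z ^ 2 = R2 z := by
  unfold rr
  exact Real.sq_sqrt (by unfold R2; positivity)

private lemma rr_tri (z w : C3) : rr w ≤ rr z + 2 * ‖z - w‖ := by
  have h1 : rr w ≤ rr z + rr (z - w) := by
    rw [rr_eq, rr_eq, rr_eq]
    have h : (WithLp.toLp 2 w : EuclideanSpace ℂ (Fin 3)) =
        WithLp.toLp 2 z - WithLp.toLp 2 (z - w) := by
      rw [← WithLp.toLp_sub]; simp
    rw [h]
    exact norm_sub_le _ _
  have h2 := rr_le_two (z - w)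
  linarith

private lemma cont_R2 : Continuous R2 := by
  unfold R2
  fun_prop

private lemma cont_rr : Continuous rr := by
  unfold rr
  exact cont_R2.sqrt

private lemma compact_of_shell {b : ℝ} {v : C3 → Fm m} (h : ∀ z, v z ≠ 0 → rr z ≤ b) :
    HasCompactSupport v := by
  apply HasCompactSupport.of_support_subset_isCompact (K := Metric.closedBall (0 : C3) b)
    (isCompact_closedBall _ _)
  intro z hz
  rw [mem_closedBall_zero_iff, pi_norm_le_iff_of_nonneg]
  · exact fun i => (norm_comp_le_rr z i).trans (h z hz)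
  · exact (rr_nonneg z).trans (h z hz)

private lemma exists_N {a : ℝ} (ha : 0 < a) : ∃ N : ℕ, ∀ n : ℕ, 2 * (1 / (((n + N : ℕ) : ℝ) + 1)) ≤ a / 2 := by
  obtain ⟨N, hN⟩ := exists_nat_gt (4 / a)
  refine ⟨N, fun n => ?_⟩
  have h1 : (4 / a) < ((n + N : ℕ) : ℝ) + 1 := by push_cast; linarith [(Nat.cast_nonneg n : (0:ℝ) ≤ n)]
  have h2 : (0 : ℝ) < ((n + N : ℕ) : ℝ) + 1 := by positivity
  rw [div_lt_iff₀ ha] at h1
  rw [mul_one_div, div_le_iff₀ h2]
  linarith

private lemma moll_rr {a : ℝ} {v : C3 → Fm m} (hv : ∀ z, v z ≠ 0 → a ≤ rr z) {n : ℕ}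
    (hn : 2 * (1 / ((n : ℝ) + 1)) ≤ a / 2) {z : C3} (hz : moll n v z ≠ 0) : a / 2 ≤ rr z := by
  obtain ⟨w, hw, hzw⟩ := moll_supp n hz
  have h1 := hv w hw
  have h2 := rr_tri z w
  linarith

private lemma moll_isTest {a : ℝ} (ha : 0 < a) {v : C3 → Fm m} (hv2 : MemLp v 2 volume)
    (hc : HasCompactSupport v) (hv : ∀ z, v z ≠ 0 → a ≤ rr z) {n : ℕ}
    (hn : 2 * (1 / ((n : ℝ) + 1)) ≤ a / 2) : IsTest (moll n v) := by
  obtain ⟨h1, h2⟩ := moll_test n hv2 hc
  refine ⟨h1, h2, ?_⟩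
  intro h0
  have h3 : tsupport (moll n v) ⊆ {z : C3 | a / 2 ≤ rr z} := by
    apply closure_minimal
    · intro z hz
      exact moll_rr hv hn hz
    · exact isClosed_le continuous_const cont_rr
  have h4 := h3 h0
  change a / 2 ≤ rr (0 : C3) at h4
  have h5 : rr (0 : C3) = 0 := by simp [rr, R2]
  linarith

private lemma meas_eta (j : Fin 3) : AEStronglyMeasurable (eta j) (volume : Measure C3) := by
  apply Measurable.aestronglyMeasurable
  unfold eta
  have := cont_R2.measurable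
  fun_prop

private lemma eta_le {a : ℝ} (ha : 0 < a) (j : Fin 3) {z : C3} (hz : a / 2 ≤ rr z) :
    ‖eta j z‖ ≤ 2 / a := by
  have h1 := norm_comp_le_rr z j
  have h2 : 0 < rr z := by linarith
  unfold eta
  rw [norm_div, ← rr_sq, Complex.norm_real, Real.norm_of_nonneg (by positivity)]
  rw [div_le_div_iff₀ (by positivity) ha]
  nlinarith

/-- the weight `1/|z|` -/
private def wr (z : C3) : ℂ := ((1 / rr z : ℝ) : ℂ)

private lemma meas_wr : AEStronglyMeasurable wr (volume : Measure C3) := by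
  apply Measurable.aestronglyMeasurable
  unfold wr
  have := cont_rr.measurable
  fun_prop

private lemma wr_le {a : ℝ} (ha : 0 < a) {z : C3} (hz : a / 2 ≤ rr z) : ‖wr z‖ ≤ 2 / a := by
  have h2 : 0 < rr z := by linarith
  unfold wr
  rw [Complex.norm_real, Real.norm_of_nonneg (by positivity), div_le_div_iff₀ h2 ha]
  linarith

private lemma wr_sq (z : C3) (x : Fm m) : ‖wr z • x‖ ^ 2 = ‖x‖ ^ 2 / R2 z := by
  rw [norm_smul, mul_pow]
  unfold wr
  rw [Complex.norm_real, Real.norm_eq_abs, sq_abs, div_pow, one_pow, rr_sq]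
  ring

/-- The shifted mollifications, `N` large. -/
private structure Good (a : ℝ) (N : ℕ) : Prop where
  ha : 0 < a
  hN : ∀ n : ℕ, 2 * (1 / (((n + N : ℕ) : ℝ) + 1)) ≤ a / 2

private lemma CV_wr {a : ℝ} {N : ℕ} (hG : Good a N) {v : C3 → Fm m} (hv : MemLp v 2 volume)
    (hc : HasCompactSupport v) (hs : ∀ z, v z ≠ 0 → a ≤ rr z) :
    CV (fun n z => wr z • moll (n + N) v z) (fun z => wr z • v z) :=
  (CV_moll hv hc N).wmul meas_wr (C := 2 / a)
    (fun n _ hz => wr_le hG.ha (moll_rr hs (hG.hN n) hz))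
    (fun z hz => wr_le hG.ha (by linarith [hs z hz, hG.ha]))

private lemma CV_eta {a : ℝ} {N : ℕ} (hG : Good a N) {v : C3 → Fm m} (hv : MemLp v 2 volume)
    (hc : HasCompactSupport v) (hs : ∀ z, v z ≠ 0 → a ≤ rr z) (j : Fin 3) :
    CV (fun n z => eta j z • moll (n + N) v z) (fun z => eta j z • v z) :=
  (CV_moll hv hc N).wmul (meas_eta j) (C := 2 / a)
    (fun n _ hz => eta_le hG.ha j (moll_rr hs (hG.hN n) hz))
    (fun z hz => eta_le hG.ha j (by linarith [hs z hz, hG.ha]))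

private lemma CV_ceta {a : ℝ} {N : ℕ} (hG : Good a N) {v : C3 → Fm m} (hv : MemLp v 2 volume)
    (hc : HasCompactSupport v) (hs : ∀ z, v z ≠ 0 → a ≤ rr z) (j : Fin 3) :
    CV (fun n z => conj (eta j z) • moll (n + N) v z) (fun z => conj (eta j z) • v z) := by
  have hm : AEStronglyMeasurable (fun z => conj (eta j z)) (volume : Measure C3) :=
    Complex.continuous_conj.comp_aestronglyMeasurable (meas_eta j)
  refine (CV_moll hv hc N).wmul hm (C := 2 / a) (fun n _ hz => ?_) (fun z hz => ?_)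
  · rw [RCLike.norm_conj]
    exact eta_le hG.ha j (moll_rr hs (hG.hN n) hz)
  · rw [RCLike.norm_conj]
    exact eta_le hG.ha j (by linarith [hs z hz, hG.ha])

private lemma lhs_lim {a : ℝ} {N : ℕ} (hG : Good a N) {v : C3 → Fm m} (hv : MemLp v 2 volume)
    (hc : HasCompactSupport v) (hs : ∀ z, v z ≠ 0 → a ≤ rr z) :
    Tendsto (fun n => ∫ z, ‖moll (n + N) v z‖ ^ 2 / R2 z) atTop (𝓝 (∫ z, ‖v z‖ ^ 2 / R2 z)) := by
  simpa only [wr_sq] using (CV_wr hG hv hc hs).sq

private lemma lhs_lim_sum {a : ℝ} {N : ℕ} (hG : Good a N) {v : Fin 3 → C3 → Fm m}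
    (hv : ∀ k, MemLp (v k) 2 volume)
    (hc : ∀ k, HasCompactSupport (v k)) (hs : ∀ k z, v k z ≠ 0 → a ≤ rr z) :
    Tendsto (fun n => ∫ z, (∑ k : Fin 3, ‖moll (n + N) (v k) z‖ ^ 2) / R2 z) atTop
      (𝓝 (∫ z, (∑ k : Fin 3, ‖v k z‖ ^ 2) / R2 z)) := by
  have h := CV.sum_sq (fun k => CV_wr hG (hv k) (hc k) (hs k))
  simpa only [wr_sq, Finset.sum_div] using h

theorem weakest0 {a b : ℝ} (ha : 0 < a) {v : C3 → Fm m} {c : Fin 3 → C3 → Fm m}
    (hv : MemLp v 2 volume) (hsv : ∀ z, v z ≠ 0 → a ≤ rr z ∧ rr z ≤ b)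
    (hc : ∀ j, MemLp (c j) 2 volume) (hsc : ∀ j, HasCompactSupport (c j))
    (hw : ∀ φ : C3 → ℂ, IsTestC φ → ∀ j, ∫ z, dbar j φ z • v z = - ∫ z, φ z • c j z) :
    (∀ s : ℝ, s ≤ 0 → 4 * (-s) * ∫ z, ‖v z‖ ^ 2 / R2 z ≤
      ∫ z, ∑ j : Fin 3, ‖c j z + ((s : ℂ) * eta j z) • v z‖ ^ 2) ∧
    (∀ y : C3, ∫ z, ‖v (z - y) - v z‖ ^ 2 ≤ 12 * ‖y‖ ^ 2 * ∫ z, ∑ j : Fin 3, ‖c j z‖ ^ 2) := by
  obtain ⟨N, hN⟩ := exists_N ha
  have hG : Good a N := ⟨ha, hN⟩
  have hcv : HasCompactSupport v := compact_of_shell (fun z hz => (hsv z hz).2)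
  have hs : ∀ z, v z ≠ 0 → a ≤ rr z := fun z hz => (hsv z hz).1
  have hd : ∀ n j z, dbar j (moll n v) z = moll n (c j) z := fun n j z =>
    dbar_moll_eq n hv hcv j (fun φ hφ => hw φ hφ j) z
  refine ⟨fun s hs0 => ?_, fun y => ?_⟩
  · have h1 := (lhs_lim hG hv hcv hs).const_mul (4 * (-s))
    have h2 := CV.sum_sq (fun j => (CV_moll (hc j) (hsc j) N).add
      ((CV_eta hG hv hcv hs j).csmul (s : ℂ)))
    simp only [smul_smul] at h2
    refine le_of_tendsto_of_tendsto' h1 h2 (fun n => ?_)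
    have h3 := smooth0 hs0 (moll_isTest ha hv hcv hs (hN n))
    simpa only [Zop, hd] using h3
  · have h1 := (((CV_moll hv hcv N).comp_sub y).sub (CV_moll hv hcv N)).sq
    have h2 := (CV.sum_sq (fun j => CV_moll (hc j) (hsc j) N)).const_mul (12 * ‖y‖ ^ 2)
    refine le_of_tendsto_of_tendsto' h1 h2 (fun n => ?_)
    have h3 := translate_le (moll_test (n + N) hv hcv) y
    simpa only [hd] using h3

theorem weakest1 {a b : ℝ} (ha : 0 < a) {v c : Fin 3 → C3 → Fm m} {d : C3 → Fm m}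
    (hv : ∀ k, MemLp (v k) 2 volume) (hsv : ∀ k z, v k z ≠ 0 → a ≤ rr z ∧ rr z ≤ b)
    (hc : ∀ i, MemLp (c i) 2 volume) (hsc : ∀ i, HasCompactSupport (c i))
    (hd : MemLp d 2 volume) (hsd : HasCompactSupport d)
    (hw1 : ∀ φ : C3 → ℂ, IsTestC φ → ∀ i : Fin 3,
      ∫ z, (dbar (i + 1) φ z • v (i + 2) z - dbar (i + 2) φ z • v (i + 1) z) =
        - ∫ z, φ z • c i z)
    (hw2 : ∀ φ : C3 → ℂ, IsTestC φ →
      ∫ z, ∑ j : Fin 3, ddel j φ z • v j z = - ∫ z, φ z • d z) :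
    (∀ s : ℝ, s ≤ 0 → 2 * (-s) * ∫ z, (∑ k : Fin 3, ‖v k z‖ ^ 2) / R2 z ≤
      (∫ z, ∑ i : Fin 3, ‖c i z + (s : ℂ) • (eta (i + 1) z • v (i + 2) z
        - eta (i + 2) z • v (i + 1) z)‖ ^ 2) +
      ∫ z, ‖- d z + (s : ℂ) • ∑ j : Fin 3, conj (eta j z) • v j z‖ ^ 2) ∧
    (∀ y : C3, ∫ z, ∑ k : Fin 3, ‖v k (z - y) - v k z‖ ^ 2 ≤
      12 * ‖y‖ ^ 2 * ((∫ z, ∑ i : Fin 3, ‖c i z‖ ^ 2) + ∫ z, ‖d z‖ ^ 2)) := by
  obtain ⟨N, hN⟩ := exists_N ha
  have hG : Good a N := ⟨ha, hN⟩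
  have hcv : ∀ k, HasCompactSupport (v k) := fun k =>
    compact_of_shell (fun z hz => (hsv k z hz).2)
  have hs : ∀ k z, v k z ≠ 0 → a ≤ rr z := fun k z hz => (hsv k z hz).1
  have hcurl : ∀ n i z, dbar (i + 1) (moll n (v (i + 2))) z
      - dbar (i + 2) (moll n (v (i + 1))) z = moll n (c i) z := fun n i z =>
    dcurl_moll_eq n (hv (i + 1)) (hcv (i + 1)) (hv (i + 2)) (hcv (i + 2)) (i + 1) (i + 2)
      (fun φ hφ => hw1 φ hφ i) z
  have hdiv : ∀ n z, ∑ j : Fin 3, ddel j (moll n (v j)) z = moll n d z := fun n z =>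
    ddiv_moll_eq n hv hcv hw2 z
  refine ⟨fun s hs0 => ?_, fun y => ?_⟩
  · have h1 := (lhs_lim_sum hG hv hcv hs).const_mul (2 * (-s))
    have h2 := CV.sum_sq (fun i => (CV_moll (hc i) (hsc i) N).add
      (((CV_eta hG (hv (i + 2)) (hcv (i + 2)) (hs (i + 2)) (i + 1)).sub
        (CV_eta hG (hv (i + 1)) (hcv (i + 1)) (hs (i + 1)) (i + 2))).csmul (s : ℂ)))
    have h4 := ((CV_moll hd hsd N).neg.add
      ((CV.sum (fun j => CV_ceta hG (hv j) (hcv j) (hs j) j)).csmul (s : ℂ))).sq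
    have h5 := h2.add h4
    refine le_of_tendsto_of_tendsto' h1 h5 (fun n => ?_)
    have h3 := smooth1 hs0 (fun k => moll_isTest ha (hv k) (hcv k) (hs k) (hN n))
    refine h3.trans (le_of_eq ?_)
    congr 1
    · refine integral_congr_ae (Eventually.of_forall (fun z => ?_))
      refine Finset.sum_congr rfl (fun i _ => ?_)
      simp only [Zop, ← hcurl]
      congr 2
      module
    · refine integral_congr_ae (Eventually.of_forall (fun z => ?_))
      simp only [Zst, Finset.sum_add_distrib, Finset.sum_neg_distrib, hdiv]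
      simp only [Fin.sum_univ_three]
      congr 2
      module
  · have h1 := CV.sum_sq (fun k => ((CV_moll (hv k) (hcv k) N).comp_sub y).sub
      (CV_moll (hv k) (hcv k) N))
    have h2 := ((CV.sum_sq (fun i => CV_moll (hc i) (hsc i) N)).add
      (CV_moll hd hsd N).sq).const_mul (12 * ‖y‖ ^ 2)
    refine le_of_tendsto_of_tendsto' h1 h2 (fun n => ?_)
    have ht : ∀ k, IsTestC (moll (n + N) (v k)) := fun k => moll_test (n + N) (hv k) (hcv k)
    have h3 := grad_eq ht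
    have hmem : ∀ k, MemLp (moll (n + N) (v k)) 2 volume := fun k =>
      moll_memLp (n + N) (hv k) (hcv k)
    rw [int_sum_sq (g := fun k z => moll (n + N) (v k) (z - y) - moll (n + N) (v k) z)
      (fun k => (((CV_moll (hv k) (hcv k) N).comp_sub y).sub
      (CV_moll (hv k) (hcv k) N)).mem n)]
    simp only [hcurl, hdiv] at h3
    rw [← h3]
    have h4 : ∫ z, ∑ j : Fin 3, ∑ k : Fin 3, ‖dbar j (moll (n + N) (v k)) z‖ ^ 2 =
        ∑ k : Fin 3, ∫ z, ∑ j : Fin 3, ‖dbar j (moll (n + N) (v k)) z‖ ^ 2 := by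
      rw [← integral_finsetSum]
      · refine integral_congr_ae (Eventually.of_forall (fun z => ?_))
        exact Finset.sum_comm
      · intro k _
        apply integrable_finsetSum
        intro j _
        have hcont := dbar_cont (ht k) j
        exact (memLp_two_iff_integrable_sq_norm hcont.1.aestronglyMeasurable).1
          (hcont.1.memLp_of_hasCompactSupport hcont.2)
    rw [h4, Finset.mul_sum]
    exact Finset.sum_le_sum (fun k _ => translate_le (ht k) y)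

theorem weakest2 {a b : ℝ} (ha : 0 < a) {v c : Fin 3 → C3 → Fm m} {d : C3 → Fm m}
    (hv : ∀ k, MemLp (v k) 2 volume) (hsv : ∀ k z, v k z ≠ 0 → a ≤ rr z ∧ rr z ≤ b)
    (hc : ∀ i, MemLp (c i) 2 volume) (hsc : ∀ i, HasCompactSupport (c i))
    (hd : MemLp d 2 volume) (hsd : HasCompactSupport d)
    (hw1 : ∀ φ : C3 → ℂ, IsTestC φ → ∀ i : Fin 3,
      ∫ z, (ddel (i + 1) φ z • v (i + 2) z - ddel (i + 2) φ z • v (i + 1) z) =
        - ∫ z, φ z • c i z)
    (hw2 : ∀ φ : C3 → ℂ, IsTestC φ →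
      ∫ z, ∑ j : Fin 3, dbar j φ z • v j z = - ∫ z, φ z • d z) :
    ∀ s : ℝ, 0 ≤ s → 2 * s * ∫ z, (∑ k : Fin 3, ‖v k z‖ ^ 2) / R2 z ≤
      (∫ z, ∑ i : Fin 3, ‖- c i z + (s : ℂ) • (conj (eta (i + 1) z) • v (i + 2) z
        - conj (eta (i + 2) z) • v (i + 1) z)‖ ^ 2) +
      ∫ z, ‖d z + (s : ℂ) • ∑ j : Fin 3, eta j z • v j z‖ ^ 2 := by
  obtain ⟨N, hN⟩ := exists_N ha
  have hG : Good a N := ⟨ha, hN⟩
  have hcv : ∀ k, HasCompactSupport (v k) := fun k =>
    compact_of_shell (fun z hz => (hsv k z hz).2)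
  have hs : ∀ k z, v k z ≠ 0 → a ≤ rr z := fun k z hz => (hsv k z hz).1
  have hcurl : ∀ n i z, ddel (i + 1) (moll n (v (i + 2))) z
      - ddel (i + 2) (moll n (v (i + 1))) z = moll n (c i) z := fun n i z =>
    ecurl_moll_eq n (hv (i + 1)) (hcv (i + 1)) (hv (i + 2)) (hcv (i + 2)) (i + 1) (i + 2)
      (fun φ hφ => hw1 φ hφ i) z
  have hdiv : ∀ n z, ∑ j : Fin 3, dbar j (moll n (v j)) z = moll n d z := fun n z =>
    bdiv_moll_eq n hv hcv hw2 z
  intro s hs0
  have h1 := (lhs_lim_sum hG hv hcv hs).const_mul (2 * s)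
  have h2 := CV.sum_sq (fun i => (CV_moll (hc i) (hsc i) N).neg.add
    (((CV_ceta hG (hv (i + 2)) (hcv (i + 2)) (hs (i + 2)) (i + 1)).sub
      (CV_ceta hG (hv (i + 1)) (hcv (i + 1)) (hs (i + 1)) (i + 2))).csmul (s : ℂ)))
  have h4 := ((CV_moll hd hsd N).add
    ((CV.sum (fun j => CV_eta hG (hv j) (hcv j) (hs j) j)).csmul (s : ℂ))).sq
  have h5 := h2.add h4
  refine le_of_tendsto_of_tendsto' h1 h5 (fun n => ?_)
  have h3 := smooth2 hs0 (fun k => moll_isTest ha (hv k) (hcv k) (hs k) (hN n))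
  refine h3.trans (le_of_eq ?_)
  congr 1
  · refine integral_congr_ae (Eventually.of_forall (fun z => ?_))
    refine Finset.sum_congr rfl (fun i _ => ?_)
    simp only [Zst, ← hcurl]
    congr 2
    module
  · refine integral_congr_ae (Eventually.of_forall (fun z => ?_))
    simp only [Zop, Finset.sum_add_distrib, hdiv]
    simp only [Fin.sum_univ_three]
    congr 2
    module

/-- Hardy's inequality for weak solutions (no condition at the origin is needed). -/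
theorem weak_hardy {v : C3 → Fm m} {c : Fin 3 → C3 → Fm m}
    (hv : MemLp v 2 volume) (hsv : HasCompactSupport v)
    (hc : ∀ j, MemLp (c j) 2 volume) (hsc : ∀ j, HasCompactSupport (c j))
    (hw : ∀ φ : C3 → ℂ, IsTestC φ → ∀ j, ∫ z, dbar j φ z • v z = - ∫ z, φ z • c j z)
    {δ : ℝ} (hδ : 0 < δ) :
    ∫ z, ‖v z‖ ^ 2 / (‖z 1‖ ^ 2 + ‖z 2‖ ^ 2 + δ) ≤ 4 * ∫ z, ∑ j : Fin 3, ‖c j z‖ ^ 2 := by
  have hd : ∀ n j z, dbar j (moll n v) z = moll n (c j) z := fun n j z =>
    dbar_moll_eq n hv hsv j (fun φ hφ => hw φ hφ j) z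
  have hm : AEStronglyMeasurable
      (fun z : C3 => ((1 / Real.sqrt (‖z 1‖ ^ 2 + ‖z 2‖ ^ 2 + δ) : ℝ) : ℂ)) volume := by
    apply Measurable.aestronglyMeasurable
    fun_prop
  have hb : ∀ z : C3, ‖((1 / Real.sqrt (‖z 1‖ ^ 2 + ‖z 2‖ ^ 2 + δ) : ℝ) : ℂ)‖
      ≤ 1 / Real.sqrt δ := by
    intro z
    rw [Complex.norm_real, Real.norm_of_nonneg (by positivity)]
    apply one_div_le_one_div_of_le (Real.sqrt_pos.2 hδ)
    apply Real.sqrt_le_sqrt
    nlinarith [sq_nonneg ‖z 1‖, sq_nonneg ‖z 2‖]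
  have h1 := ((CV_moll hv hsv 0).wmul hm (fun _ z _ => hb z) (fun z _ => hb z)).sq
  have h2 := (CV.sum_sq (fun j => CV_moll (hc j) (hsc j) 0)).const_mul 4
  have h3 : ∀ (z : C3) (x : Fm m),
      ‖((1 / Real.sqrt (‖z 1‖ ^ 2 + ‖z 2‖ ^ 2 + δ) : ℝ) : ℂ) • x‖ ^ 2 =
        ‖x‖ ^ 2 / (‖z 1‖ ^ 2 + ‖z 2‖ ^ 2 + δ) := by
    intro z x
    rw [norm_smul, mul_pow, Complex.norm_real, Real.norm_eq_abs, sq_abs, div_pow, one_pow,
      Real.sq_sqrt (by positivity)]
    ring
  simp only [h3] at h1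
  refine le_of_tendsto_of_tendsto' h1 h2 (fun n => ?_)
  have h4 := hardy (moll_test (n + 0) hv hsv) hδ
  simpa only [hd] using h4

end

end Pool.Agent.HopfEmb
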