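import Pool.Agent.Lib.MP_d404b9_ag.Adj
import Pool.Agent.Lib.MP_d404b9_ag.CalcC
import Pool.Agent.Lib.MP_d404b9_ag.WeakEst
import Pool.Agent.Lib.MP_d404b9_ag.Compact
import Pool.Agent.Lib.MP_d404b9_ag.EstBase

/-!
# JOB EST-0: a priori estimate and compactness in degree 0

`v = ρ ext 0 u`; by `Weak0.localize` the hypotheses of `weakest0` hold with
`c_j = ∂̄_j ρ U + ρ (E_j U - s η_j U + F_j)`, and `c_j + s η_j v = ∂̄_j ρ U + ρ (E_j U + F_j)` does not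
involve `s`. With `norm_le_ext` and `ext_bound`: `-s ‖u‖² ≤ C (‖u‖² + ∑ ‖f_j‖²)`, so for `-s` large
`‖u‖² ≤ C' ∑ ‖f_j‖²`. Compactness of `Q`: `J ∘ Q` satisfies the translation estimate,
`IsCompactOperator (J ∘ Q)` by `compact_of_translation`, and `Q = R ∘ J ∘ Q` (`exists_loc`; use
`IsCompactOperator.clm_comp`/`codRestrict` to come back to the subspace `HP P`).
-/

set_option autoImplicit false

open MeasureTheory Complex Filter Topology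
open scoped ContDiff ComplexConjugate

namespace Pool.Agent.HopfEmb

noncomputable section

variable {m : ℕ}

/-- The localized right hand side in degree `0`. -/
private def c0 {P : C3 → (Fm m →L[ℂ] Fm m)} (ρ : C3 → ℂ) (E : Fin 3 → C3 → (Fm m →L[ℂ] Fm m))
    (j : Fin 3) (y : HP P × (Fin 3 → HP P)) (z : C3) : Fm m :=
  dbar j ρ z • ext 0 (y.1 : Lp (Fm m) 2 μS) z +
    ρ z • (E j z (ext 0 (y.1 : Lp (Fm m) 2 μS) z) + ext 1 (y.2 j : Lp (Fm m) 2 μS) z)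

private def N0 {P : C3 → (Fm m →L[ℂ] Fm m)} (y : HP P × (Fin 3 → HP P)) : ℝ :=
  ‖y.1‖ ^ 2 + ∑ j : Fin 3, ‖y.2 j‖ ^ 2

private lemma N0_fst {P : C3 → (Fm m →L[ℂ] Fm m)} (y : HP P × (Fin 3 → HP P)) :
    ‖(y.1 : Lp (Fm m) 2 μS)‖ ^ 2 ≤ N0 y := by
  have : 0 ≤ ∑ j : Fin 3, ‖y.2 j‖ ^ 2 := Finset.sum_nonneg fun _ _ => by positivity
  have h : ‖(y.1 : Lp (Fm m) 2 μS)‖ = ‖y.1‖ := rfl
  rw [N0, h]; linarith

private lemma N0_snd {P : C3 → (Fm m →L[ℂ] Fm m)} (y : HP P × (Fin 3 → HP P)) (j : Fin 3) :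
    ‖(y.2 j : Lp (Fm m) 2 μS)‖ ^ 2 ≤ N0 y := by
  have h1 : ‖y.2 j‖ ^ 2 ≤ ∑ j : Fin 3, ‖y.2 j‖ ^ 2 :=
    Finset.single_le_sum (f := fun j => ‖y.2 j‖ ^ 2) (fun _ _ => by positivity)
      (Finset.mem_univ j)
  have h : ‖(y.2 j : Lp (Fm m) 2 μS)‖ = ‖y.2 j‖ := rfl
  rw [N0, h]; nlinarith [sq_nonneg ‖y.1‖]

private lemma c0_bd {P : C3 → (Fm m →L[ℂ] Fm m)} {ρ : C3 → ℂ} (hρ : IsTest ρ)
    {E : Fin 3 → C3 → (Fm m →L[ℂ] Fm m)} (hE : ∀ j, ContinuousOn (E j) {z | z ≠ 0}) (j : Fin 3) :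
    EstBd N0 (c0 (P := P) ρ E j) := by
  obtain ⟨d1, d2, d3⟩ := est_dbar_test hρ j
  refine ((est_bd_scalar d1 d2 d3 0 (fun y : HP P × (Fin 3 → HP P) => (y.1 : Lp (Fm m) 2 μS))
    N0_fst).add
    ((est_bd_coef hρ (hE j) 0 (fun y : HP P × (Fin 3 → HP P) => (y.1 : Lp (Fm m) 2 μS))
      N0_fst).add
    (est_bd_scalar hρ.smooth.continuous hρ.compact hρ.zero_notMem 1
      (fun y : HP P × (Fin 3 → HP P) => (y.2 j : Lp (Fm m) 2 μS)) (fun y => N0_snd y j)))).congr ?_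
  intro y z
  rw [c0, smul_add]

private lemma c0_twist {P : C3 → (Fm m →L[ℂ] Fm m)} {ρ : C3 → ℂ}
    {E : Fin 3 → C3 → (Fm m →L[ℂ] Fm m)} (s : ℝ) (j : Fin 3) (y : HP P × (Fin 3 → HP P)) (z : C3) :
    c0 ρ (twist s E) j y z + ((s : ℂ) * eta j z) • (ρ z • ext 0 (y.1 : Lp (Fm m) 2 μS) z) =
      c0 ρ E j y z := by
  simp only [c0, twist, sub_apply, smul_apply, ContinuousLinearMap.id_apply]
  module

theorem est0 {P : C3 → (Fm m →L[ℂ] Fm m)} {E : Fin 3 → C3 → (Fm m →L[ℂ] Fm m)} (hPE : PE P E) :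
    ∃ σ C : ℝ, 0 < C ∧ ∀ s : ℝ, s ≤ -σ → ∀ (u : HP P) (f : Fin 3 → HP P),
      Rel0 (twist s E) (u : Lp (Fm m) 2 μS) (fn f) → ‖u‖ ^ 2 ≤ C * ∑ j : Fin 3, ‖f j‖ ^ 2 := by
  obtain ⟨ρ, h1, h2, h3, h4, h5, h6⟩ := exists_cutoff
  have hρ := est_isTest h1 h2 h3
  obtain ⟨C1, hC1, hb⟩ := EstBd.sum_sq (fun j => c0_bd (P := P) hρ (est_E_cont hPE) j)
  refine ⟨C1 + 1, C1 + 1, by linarith, fun s hs u f hr => ?_⟩
  set y : HP P × (Fin 3 → HP P) := (u, f) with hy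
  have hsm : s ≤ 0 := by linarith
  have hw := weakest0 (a := 1 / 4) (b := 8) (by norm_num)
    (v := fun z => ((ρ z : ℝ) : ℂ) • ext 0 (u : Lp (Fm m) 2 μS) z)
    (c := fun j => c0 (fun z => ((ρ z : ℝ) : ℂ)) (twist s E) j y)
    ((est_bd_scalar hρ.smooth.continuous hρ.compact hρ.zero_notMem 0
      (fun y : HP P × (Fin 3 → HP P) => (y.1 : Lp (Fm m) 2 μS)) N0_fst).choose_spec.2 y).1
    (est_supp h6 _)
    (fun j => ((c0_bd (P := P) hρ (est_twist_cont hPE s) j).choose_spec.2 y).1)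
    (fun j => est_compactSupport hρ fun z hz => by
      rw [c0, est_dbar_zero hz, image_eq_zero_of_notMem_tsupport hz]
      simp)
    (fun φ hφ j => Weak0.localize (fun j z hz => est_twist_smooth hPE s j hz) (ext_LI 0 _)
      (fun j => ext_LI 1 _) hr hρ φ hφ j)
  have hw1 := hw.1 s hsm
  have e : ∀ z, ∑ j : Fin 3, ‖c0 (fun z => ((ρ z : ℝ) : ℂ)) (twist s E) j y z +
      ((s : ℂ) * eta j z) • (((ρ z : ℝ) : ℂ) • ext 0 (u : Lp (Fm m) 2 μS) z)‖ ^ 2 =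
      ∑ j : Fin 3, ‖c0 (fun z => ((ρ z : ℝ) : ℂ)) E j y z‖ ^ 2 := by
    intro z
    refine Finset.sum_congr rfl fun j _ => ?_
    exact congrArg (fun v => ‖v‖ ^ 2)
      (c0_twist (ρ := fun z => ((ρ z : ℝ) : ℂ)) (E := E) s j y z)
  simp only [e] at hw1
  have hlow := norm_le_ext (q := 0) (by norm_num) h1.continuous h2 h3 h4 (u : Lp (Fm m) 2 μS)
  have hby := hb y
  have hN : N0 y = ‖u‖ ^ 2 + ∑ j : Fin 3, ‖f j‖ ^ 2 := rfl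
  rw [hN] at hby
  have hu : ‖(u : Lp (Fm m) 2 μS)‖ = ‖u‖ := rfl
  rw [hu] at hlow
  set Iv := ∫ z, ‖((ρ z : ℝ) : ℂ) • ext 0 (u : Lp (Fm m) 2 μS) z‖ ^ 2 / R2 z
  set F := ∑ j : Fin 3, ‖f j‖ ^ 2
  have hF : 0 ≤ F := Finset.sum_nonneg fun _ _ => by positivity
  have h7 : (-s) * ‖u‖ ^ 2 ≤ C1 * (‖u‖ ^ 2 + F) := by
    calc (-s) * ‖u‖ ^ 2 ≤ (-s) * (4 * Iv) := mul_le_mul_of_nonneg_left hlow (by linarith)
      _ = 4 * (-s) * Iv := by ring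
      _ ≤ _ := hw1.trans hby
  have h8 : (C1 + 1) * ‖u‖ ^ 2 ≤ (-s) * ‖u‖ ^ 2 :=
    mul_le_mul_of_nonneg_right (by linarith) (by positivity)
  nlinarith

theorem cpt0 {P : C3 → (Fm m →L[ℂ] Fm m)} {E : Fin 3 → C3 → (Fm m →L[ℂ] Fm m)} (hPE : PE P E)
    {X : Type*} [NormedAddCommGroup X] [NormedSpace ℂ X] (Q : X →L[ℂ] HP P)
    (A : Fin 3 → X →L[ℂ] HP P)
    (h : ∀ x, Rel0 E (Q x : Lp (Fm m) 2 μS) (fn fun j => A j x)) : IsCompactOperator Q := by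
  obtain ⟨ρ, h1, h2, h3, h4, h5, h6⟩ := exists_cutoff
  have hρ := est_isTest h1 h2 h3
  obtain ⟨C1, hC1, hb⟩ := EstBd.sum_sq (fun j => c0_bd (P := P) hρ (est_E_cont hPE) j)
  refine est_compact (q := 0) (by norm_num) h1 h2 h3 h4 h6 Q
    (12 * (C1 * (‖Q‖ ^ 2 + ∑ j : Fin 3, ‖A j‖ ^ 2))) fun x y => ?_
  set w : HP P × (Fin 3 → HP P) := (Q x, fun j => A j x) with hw'
  have hw := weakest0 (a := 1 / 4) (b := 8) (by norm_num)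
    (v := fun z => ((ρ z : ℝ) : ℂ) • ext 0 (Q x : Lp (Fm m) 2 μS) z)
    (c := fun j => c0 (fun z => ((ρ z : ℝ) : ℂ)) E j w)
    ((est_bd_scalar hρ.smooth.continuous hρ.compact hρ.zero_notMem 0
      (fun y : HP P × (Fin 3 → HP P) => (y.1 : Lp (Fm m) 2 μS)) N0_fst).choose_spec.2 w).1
    (est_supp h6 _)
    (fun j => ((c0_bd (P := P) hρ (est_E_cont hPE) j).choose_spec.2 w).1)
    (fun j => est_compactSupport hρ fun z hz => by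
      rw [c0, est_dbar_zero hz, image_eq_zero_of_notMem_tsupport hz]
      simp)
    (fun φ hφ j => Weak0.localize hPE.E_smooth (ext_LI 0 _)
      (fun j => ext_LI 1 _) (h x) hρ φ hφ j)
  refine (hw.2 y).trans ?_
  have hN : N0 w ≤ (‖Q‖ ^ 2 + ∑ j : Fin 3, ‖A j‖ ^ 2) * ‖x‖ ^ 2 := by
    have e1 : ‖Q x‖ ^ 2 ≤ ‖Q‖ ^ 2 * ‖x‖ ^ 2 := by
      rw [← mul_pow]; exact pow_le_pow_left₀ (norm_nonneg _) (Q.le_opNorm x) 2
    have e2 : ∀ j, ‖A j x‖ ^ 2 ≤ ‖A j‖ ^ 2 * ‖x‖ ^ 2 := fun j => by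
      rw [← mul_pow]; exact pow_le_pow_left₀ (norm_nonneg _) ((A j).le_opNorm x) 2
    calc N0 w = ‖Q x‖ ^ 2 + ∑ j : Fin 3, ‖A j x‖ ^ 2 := rfl
      _ ≤ ‖Q‖ ^ 2 * ‖x‖ ^ 2 + ∑ j : Fin 3, ‖A j‖ ^ 2 * ‖x‖ ^ 2 :=
          add_le_add e1 (Finset.sum_le_sum fun j _ => e2 j)
      _ = _ := by rw [← Finset.sum_mul]; ring
  calc 12 * ‖y‖ ^ 2 * ∫ z, ∑ j : Fin 3, ‖c0 (fun z => ((ρ z : ℝ) : ℂ)) E j w z‖ ^ 2
      ≤ 12 * ‖y‖ ^ 2 * (C1 * ((‖Q‖ ^ 2 + ∑ j : Fin 3, ‖A j‖ ^ 2) * ‖x‖ ^ 2)) := by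
        refine mul_le_mul_of_nonneg_left ((hb w).trans ?_) (by positivity)
        exact mul_le_mul_of_nonneg_left hN hC1
    _ = _ := by ring

end

end Pool.Agent.HopfEmb
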