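import Pool.Agent.Lib.MP_d404b9_ag.Adj
import Pool.Agent.Lib.MP_d404b9_ag.CalcB
import Pool.Agent.Lib.MP_d404b9_ag.CalcC
import Pool.Agent.Lib.MP_d404b9_ag.WeakEst
import Pool.Agent.Lib.MP_d404b9_ag.Compact
import Pool.Agent.Lib.MP_d404b9_ag.EstBase

/-!
# JOB EST-1: a priori estimate and compactness in degree 1

`v_k = ρ ext 1 (f k)`, curl from `Weak1.localize`, divergence from `adj1` and `del_div_localize`; the
terms with `s` cancel since `P F_j = F_j` and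
`Ladj 2 P (twist s E) j = Ladj 2 P E j + s conj η_j P`. Then `weakest1`, `norm_le_ext`, `ext_bound`;
compactness as in `Est0.lean`.
-/

set_option autoImplicit false

open MeasureTheory Complex Filter Topology
open scoped ContDiff ComplexConjugate

namespace Pool.Agent.HopfEmb

noncomputable section

variable {m : ℕ}

private abbrev Y1 (P : C3 → (Fm m →L[ℂ] Fm m)) := (Fin 3 → HP P) × (Fin 3 → HP P)

private def N1 {P : C3 → (Fm m →L[ℂ] Fm m)} (y : Y1 P) : ℝ :=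
  (∑ j : Fin 3, ‖y.1 j‖ ^ 2) + ∑ j : Fin 3, ‖y.2 j‖ ^ 2

private lemma N1_fst {P : C3 → (Fm m →L[ℂ] Fm m)} (y : Y1 P) (j : Fin 3) :
    ‖(y.1 j : Lp (Fm m) 2 μS)‖ ^ 2 ≤ N1 y := by
  have h1 : ‖y.1 j‖ ^ 2 ≤ ∑ j : Fin 3, ‖y.1 j‖ ^ 2 :=
    Finset.single_le_sum (f := fun j => ‖y.1 j‖ ^ 2) (fun _ _ => by positivity)
      (Finset.mem_univ j)
  have h2 : 0 ≤ ∑ j : Fin 3, ‖y.2 j‖ ^ 2 := Finset.sum_nonneg fun _ _ => by positivity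
  have h : ‖(y.1 j : Lp (Fm m) 2 μS)‖ = ‖y.1 j‖ := rfl
  rw [N1, h]; linarith

private lemma N1_snd {P : C3 → (Fm m →L[ℂ] Fm m)} (y : Y1 P) (j : Fin 3) :
    ‖(y.2 j : Lp (Fm m) 2 μS)‖ ^ 2 ≤ N1 y := by
  have h1 : ‖y.2 j‖ ^ 2 ≤ ∑ j : Fin 3, ‖y.2 j‖ ^ 2 :=
    Finset.single_le_sum (f := fun j => ‖y.2 j‖ ^ 2) (fun _ _ => by positivity)
      (Finset.mem_univ j)
  have h2 : 0 ≤ ∑ j : Fin 3, ‖y.1 j‖ ^ 2 := Finset.sum_nonneg fun _ _ => by positivity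
  have h : ‖(y.2 j : Lp (Fm m) 2 μS)‖ = ‖y.2 j‖ := rfl
  rw [N1, h]; linarith

/-- The localized curl. -/
private def c1 {P : C3 → (Fm m →L[ℂ] Fm m)} (ρ : C3 → ℂ) (E : Fin 3 → C3 → (Fm m →L[ℂ] Fm m))
    (i : Fin 3) (y : Y1 P) (z : C3) : Fm m :=
  dbar (i + 1) ρ z • ext 1 (y.1 (i + 2) : Lp (Fm m) 2 μS) z
    - dbar (i + 2) ρ z • ext 1 (y.1 (i + 1) : Lp (Fm m) 2 μS) z +
    ρ z • (E (i + 1) z (ext 1 (y.1 (i + 2) : Lp (Fm m) 2 μS) z)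
      - E (i + 2) z (ext 1 (y.1 (i + 1) : Lp (Fm m) 2 μS) z)
      + ext 2 (y.2 i : Lp (Fm m) 2 μS) z)

/-- The localized divergence. -/
private def d1 {P : C3 → (Fm m →L[ℂ] Fm m)} (ρ : C3 → ℂ) (L : Fin 3 → C3 → (Fm m →L[ℂ] Fm m))
    (y : Y1 P) (z : C3) : Fm m :=
  (∑ j : Fin 3, ddel j ρ z • ext 1 (y.1 j : Lp (Fm m) 2 μS) z) +
    ρ z • ∑ j : Fin 3, L j z (ext 1 (y.1 j : Lp (Fm m) 2 μS) z)

private lemma c1_bd {P : C3 → (Fm m →L[ℂ] Fm m)} {ρ : C3 → ℂ} (hρ : IsTest ρ)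
    {E : Fin 3 → C3 → (Fm m →L[ℂ] Fm m)} (hE : ∀ j, ContinuousOn (E j) {z | z ≠ 0}) (i : Fin 3) :
    EstBd N1 (c1 (P := P) ρ E i) := by
  obtain ⟨a1, a2, a3⟩ := est_dbar_test hρ (i + 1)
  obtain ⟨b1, b2, b3⟩ := est_dbar_test hρ (i + 2)
  refine (((est_bd_scalar a1 a2 a3 1 (fun y : Y1 P => (y.1 (i + 2) : Lp (Fm m) 2 μS))
    (fun y => N1_fst y _)).sub
    (est_bd_scalar b1 b2 b3 1 (fun y : Y1 P => (y.1 (i + 1) : Lp (Fm m) 2 μS))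
    (fun y => N1_fst y _))).add
    (((est_bd_coef hρ (hE (i + 1)) 1 (fun y : Y1 P => (y.1 (i + 2) : Lp (Fm m) 2 μS))
      (fun y => N1_fst y _)).sub
      (est_bd_coef hρ (hE (i + 2)) 1 (fun y : Y1 P => (y.1 (i + 1) : Lp (Fm m) 2 μS))
      (fun y => N1_fst y _))).add
    (est_bd_scalar hρ.smooth.continuous hρ.compact hρ.zero_notMem 2
      (fun y : Y1 P => (y.2 i : Lp (Fm m) 2 μS)) (fun y => N1_snd y _)))).congr ?_
  intro y z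
  rw [c1, smul_add, smul_sub]

private lemma d1_bd {P : C3 → (Fm m →L[ℂ] Fm m)} {ρ : C3 → ℂ} (hρ : IsTest ρ)
    {L : Fin 3 → C3 → (Fm m →L[ℂ] Fm m)} (hL : ∀ j, ContinuousOn (L j) {z | z ≠ 0}) :
    EstBd N1 (d1 (P := P) ρ L) := by
  refine ((EstBd.sum (fun j => est_bd_scalar (est_ddel_test hρ j).1 (est_ddel_test hρ j).2.1
    (est_ddel_test hρ j).2.2 1 (fun y : Y1 P => (y.1 j : Lp (Fm m) 2 μS))
    (fun y => N1_fst y _))).add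
    (EstBd.sum (fun j => est_bd_coef hρ (hL j) 1 (fun y : Y1 P => (y.1 j : Lp (Fm m) 2 μS))
      (fun y => N1_fst y _)))).congr ?_
  intro y z
  rw [d1, Finset.smul_sum]

private lemma c1_twist {P : C3 → (Fm m →L[ℂ] Fm m)} (ρ : C3 → ℂ)
    (E : Fin 3 → C3 → (Fm m →L[ℂ] Fm m)) (s : ℝ) (i : Fin 3) (y : Y1 P) (z : C3) :
    c1 ρ (twist s E) i y z + (s : ℂ) •
      (eta (i + 1) z • (ρ z • ext 1 (y.1 (i + 2) : Lp (Fm m) 2 μS) z)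
        - eta (i + 2) z • (ρ z • ext 1 (y.1 (i + 1) : Lp (Fm m) 2 μS) z)) =
      c1 ρ E i y z := by
  simp only [c1, twist, sub_apply, smul_apply, ContinuousLinearMap.id_apply]
  module

private lemma d1_twist {P : C3 → (Fm m →L[ℂ] Fm m)} {E : Fin 3 → C3 → (Fm m →L[ℂ] Fm m)}
    (hPE : PE P E) (ρ : C3 → ℂ) (s : ℝ) (y : Y1 P) :
    ∀ᵐ z : C3, - d1 ρ (Ladj 2 P (twist s E)) y z + (s : ℂ) •
      ∑ j : Fin 3, conj (eta j z) • (ρ z • ext 1 (y.1 j : Lp (Fm m) 2 μS) z) =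
      - d1 ρ (Ladj 2 P E) y z := by
  have hP : ∀ᵐ z : C3, ∀ j : Fin 3, P z (ext 1 (y.1 j : Lp (Fm m) 2 μS) z) =
      ext 1 (y.1 j : Lp (Fm m) 2 μS) z :=
    ae_all_iff.2 fun j => ext_proj hPE.P_scale (y.1 j).2 1
  filter_upwards [hP, est_ae_ne_zero] with z hz hz0
  have e : ∀ j, Ladj 2 P (twist s E) j z (ext 1 (y.1 j : Lp (Fm m) 2 μS) z) =
      Ladj 2 P E j z (ext 1 (y.1 j : Lp (Fm m) 2 μS) z) +
        ((s : ℂ) * conj (eta j z)) • ext 1 (y.1 j : Lp (Fm m) 2 μS) z := fun j =>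
    est_Ladj_twist hPE s 2 j hz0 (hz j)
  simp only [d1, e, Fin.sum_univ_three]
  module

private lemma v1_memLp {P : C3 → (Fm m →L[ℂ] Fm m)} {ρ : C3 → ℂ} (hρ : IsTest ρ) (f : Fin 3 → HP P)
    (k : Fin 3) : MemLp (fun z => ρ z • ext 1 (f k : Lp (Fm m) 2 μS) z) 2 volume :=
  ((est_bd_scalar hρ.smooth.continuous hρ.compact hρ.zero_notMem 1
      (fun y : Y1 P => (y.1 k : Lp (Fm m) 2 μS)) (fun y => N1_fst y _)).choose_spec.2 (f, f)).1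

private lemma adj_LI {P : C3 → (Fm m →L[ℂ] Fm m)} {E : Fin 3 → C3 → (Fm m →L[ℂ] Fm m)}
    (hPE : PE P E) (t : ℝ) (f : Fin 3 → HP P) :
    LI (fun z => ∑ j : Fin 3, Ladj t P E j z (ext 1 (f j : Lp (Fm m) 2 μS) z)) :=
  est_LI_sum fun j => est_LI_clm (est_Ladj_cont hPE (est_E_cont hPE) t j) (ext_LI 1 _)

theorem est1 {P : C3 → (Fm m →L[ℂ] Fm m)} {E : Fin 3 → C3 → (Fm m →L[ℂ] Fm m)} (hPE : PE P E) :
    ∃ σ C : ℝ, 0 < C ∧ ∀ s : ℝ, s ≤ -σ → ∀ (f h : Fin 3 → HP P),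
      Rel1 (twist s E) (fn f) (fn h) →
      (∀ (u : HP P) (f' : Fin 3 → HP P), Rel0 (twist s E) (u : Lp (Fm m) 2 μS) (fn f') →
        ∑ j : Fin 3, inner ℂ (f' j) (f j) = 0) →
      ∑ j : Fin 3, ‖f j‖ ^ 2 ≤ C * ∑ j : Fin 3, ‖h j‖ ^ 2 := by
  obtain ⟨ρ, h1, h2, h3, h4, h5, h6⟩ := exists_cutoff
  have hρ := est_isTest h1 h2 h3
  obtain ⟨C1, hC1, hb1⟩ := EstBd.sum_sq (fun j => c1_bd (P := P) hρ (est_E_cont hPE) j)
  obtain ⟨C2, hC2, hb2⟩ := d1_bd (P := P) hρ (L := Ladj 2 P E)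
    (est_Ladj_cont hPE (est_E_cont hPE) 2)
  refine ⟨2 * (C1 + C2 + 1), C1 + C2 + 1, by linarith, fun s hs f h hr hadj => ?_⟩
  have hPs := hPE.twist s
  set y : Y1 P := (f, h) with hy
  have hsm : s ≤ 0 := by linarith
  have hw := weakest1 (a := 1 / 4) (b := 8) (by norm_num)
    (v := fun k z => ((ρ z : ℝ) : ℂ) • ext 1 (f k : Lp (Fm m) 2 μS) z)
    (c := fun i => c1 (fun z => ((ρ z : ℝ) : ℂ)) (twist s E) i y)
    (d := d1 (fun z => ((ρ z : ℝ) : ℂ)) (Ladj 2 P (twist s E)) y)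
    (fun k => v1_memLp hρ f k)
    (fun k => est_supp h6 _)
    (fun j => ((c1_bd (P := P) hρ (est_twist_cont hPE s) j).choose_spec.2 y).1)
    (fun j => est_compactSupport hρ fun z hz => by
      rw [c1, est_dbar_zero hz, est_dbar_zero hz, image_eq_zero_of_notMem_tsupport hz]
      simp)
    ((d1_bd (P := P) hρ (est_Ladj_cont hPs (est_E_cont hPs) 2)).choose_spec.2 y).1
    (est_compactSupport hρ fun z hz => by
      rw [d1, image_eq_zero_of_notMem_tsupport hz]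
      simp [est_ddel_zero hz])
    (fun φ hφ i => Weak1.localize (fun j z hz => est_twist_smooth hPE s j hz)
      (fun j => ext_LI 1 _) (fun j => ext_LI 2 _) hr hρ φ hφ i)
    (fun φ hφ => del_div_localize (fun j => ext_LI 1 _) (adj_LI hPs 2 f)
      (adj1 hPs f hadj) hρ φ hφ)
  have hw1 := hw.1 s hsm
  have e : ∀ z, ∑ i : Fin 3, ‖c1 (fun z => ((ρ z : ℝ) : ℂ)) (twist s E) i y z +
      (s : ℂ) • (eta (i + 1) z • (((ρ z : ℝ) : ℂ) • ext 1 (f (i + 2) : Lp (Fm m) 2 μS) z)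
        - eta (i + 2) z • (((ρ z : ℝ) : ℂ) • ext 1 (f (i + 1) : Lp (Fm m) 2 μS) z))‖ ^ 2 =
      ∑ i : Fin 3, ‖c1 (fun z => ((ρ z : ℝ) : ℂ)) E i y z‖ ^ 2 := by
    intro z
    refine Finset.sum_congr rfl fun i _ => ?_
    exact congrArg (fun v => ‖v‖ ^ 2) (c1_twist (fun z => ((ρ z : ℝ) : ℂ)) E s i y z)
  have e2 : ∫ z, ‖- d1 (fun z => ((ρ z : ℝ) : ℂ)) (Ladj 2 P (twist s E)) y z + (s : ℂ) •
      ∑ j : Fin 3, conj (eta j z) • (((ρ z : ℝ) : ℂ) • ext 1 (f j : Lp (Fm m) 2 μS) z)‖ ^ 2 =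
      ∫ z, ‖d1 (fun z => ((ρ z : ℝ) : ℂ)) (Ladj 2 P E) y z‖ ^ 2 := by
    refine integral_congr_ae ?_
    filter_upwards [d1_twist hPE (fun z => ((ρ z : ℝ) : ℂ)) s y] with z hz
    exact (congrArg (fun v => ‖v‖ ^ 2) hz).trans (by simp only [norm_neg])
  simp only [e] at hw1
  rw [e2] at hw1
  have hlow := est_lower (q := 1) (by norm_num) h1 h2 h3 h4
    (fun k => (f k : Lp (Fm m) 2 μS))
  have hby1 := hb1 y
  have hby2 := (hb2 y).2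
  have hN : N1 y = (∑ j : Fin 3, ‖f j‖ ^ 2) + ∑ j : Fin 3, ‖h j‖ ^ 2 := rfl
  rw [hN] at hby1 hby2
  have hu : ∀ k, ‖(f k : Lp (Fm m) 2 μS)‖ = ‖f k‖ := fun k => rfl
  simp only [hu] at hlow
  set Iv := ∫ z, (∑ k : Fin 3, ‖((ρ z : ℝ) : ℂ) • ext 1 (f k : Lp (Fm m) 2 μS) z‖ ^ 2) / R2 z
  set F := ∑ j : Fin 3, ‖f j‖ ^ 2
  set K := ∑ j : Fin 3, ‖h j‖ ^ 2
  have hF : 0 ≤ F := Finset.sum_nonneg fun _ _ => by positivity
  have hK : 0 ≤ K := Finset.sum_nonneg fun _ _ => by positivity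
  have h7 : (-s / 2) * F ≤ (C1 + C2) * (F + K) := by
    calc (-s / 2) * F ≤ (-s / 2) * (4 * Iv) := mul_le_mul_of_nonneg_left hlow (by linarith)
      _ = 2 * (-s) * Iv := by ring
      _ ≤ _ := hw1
      _ ≤ C1 * (F + K) + C2 * (F + K) := add_le_add hby1 hby2
      _ = _ := by ring
  have h8 : (C1 + C2 + 1) * F ≤ (-s / 2) * F :=
    mul_le_mul_of_nonneg_right (by linarith) hF
  nlinarith

theorem cpt1 {P : C3 → (Fm m →L[ℂ] Fm m)} {E : Fin 3 → C3 → (Fm m →L[ℂ] Fm m)} (hPE : PE P E)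
    {X : Type*} [NormedAddCommGroup X] [NormedSpace ℂ X] (Q A : Fin 3 → X →L[ℂ] HP P)
    (h : ∀ x, Rel1 E (fn fun j => Q j x) (fn fun j => A j x))
    (h' : ∀ x, ∀ (u : HP P) (f' : Fin 3 → HP P), Rel0 E (u : Lp (Fm m) 2 μS) (fn f') →
        ∑ j : Fin 3, inner ℂ (f' j) (Q j x) = 0) (j : Fin 3) :
    IsCompactOperator (Q j) := by
  obtain ⟨ρ, h1, h2, h3, h4, h5, h6⟩ := exists_cutoff
  have hρ := est_isTest h1 h2 h3
  obtain ⟨C1, hC1, hb1⟩ := EstBd.sum_sq (fun j => c1_bd (P := P) hρ (est_E_cont hPE) j)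
  obtain ⟨C2, hC2, hb2⟩ := d1_bd (P := P) hρ (L := Ladj 2 P E)
    (est_Ladj_cont hPE (est_E_cont hPE) 2)
  refine est_compact (q := 1) (by norm_num) h1 h2 h3 h4 h6 (Q j)
    (12 * ((C1 + C2) * ((∑ j : Fin 3, ‖Q j‖ ^ 2) + ∑ j : Fin 3, ‖A j‖ ^ 2))) fun x y => ?_
  set w : Y1 P := (fun j => Q j x, fun j => A j x) with hw'
  have hw := weakest1 (a := 1 / 4) (b := 8) (by norm_num)
    (v := fun k z => ((ρ z : ℝ) : ℂ) • ext 1 (Q k x : Lp (Fm m) 2 μS) z)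
    (c := fun i => c1 (fun z => ((ρ z : ℝ) : ℂ)) E i w)
    (d := d1 (fun z => ((ρ z : ℝ) : ℂ)) (Ladj 2 P E) w)
    (fun k => v1_memLp hρ (fun j => Q j x) k)
    (fun k => est_supp h6 _)
    (fun j => ((c1_bd (P := P) hρ (est_E_cont hPE) j).choose_spec.2 w).1)
    (fun j => est_compactSupport hρ fun z hz => by
      rw [c1, est_dbar_zero hz, est_dbar_zero hz, image_eq_zero_of_notMem_tsupport hz]
      simp)
    (hb2 w).1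
    (est_compactSupport hρ fun z hz => by
      rw [d1, image_eq_zero_of_notMem_tsupport hz]
      simp [est_ddel_zero hz])
    (fun φ hφ i => Weak1.localize hPE.E_smooth
      (fun j => ext_LI 1 _) (fun j => ext_LI 2 _) (h x) hρ φ hφ i)
    (fun φ hφ => del_div_localize (fun j => ext_LI 1 _) (adj_LI hPE 2 fun j => Q j x)
      (adj1 hPE (fun j => Q j x) (h' x)) hρ φ hφ)
  have hN : N1 w ≤ ((∑ j : Fin 3, ‖Q j‖ ^ 2) + ∑ j : Fin 3, ‖A j‖ ^ 2) * ‖x‖ ^ 2 := by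
    have e : ∀ T : X →L[ℂ] HP P, ‖T x‖ ^ 2 ≤ ‖T‖ ^ 2 * ‖x‖ ^ 2 := fun T => by
      rw [← mul_pow]; exact pow_le_pow_left₀ (norm_nonneg _) (T.le_opNorm x) 2
    calc N1 w = (∑ j : Fin 3, ‖Q j x‖ ^ 2) + ∑ j : Fin 3, ‖A j x‖ ^ 2 := rfl
      _ ≤ (∑ j : Fin 3, ‖Q j‖ ^ 2 * ‖x‖ ^ 2) + ∑ j : Fin 3, ‖A j‖ ^ 2 * ‖x‖ ^ 2 :=
          add_le_add (Finset.sum_le_sum fun j _ => e _) (Finset.sum_le_sum fun j _ => e _)
      _ = _ := by rw [← Finset.sum_mul, ← Finset.sum_mul]; ring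
  have hshift : ∀ k, MemLp (fun z => ((ρ (z - y) : ℝ) : ℂ) •
      ext 1 (Q k x : Lp (Fm m) 2 μS) (z - y)) 2 volume := fun k =>
    (v1_memLp hρ (fun j => Q j x) k).comp_measurePreserving (measurePreserving_sub_right volume y)
  have hint : ∀ k, Integrable (fun z => ‖((ρ (z - y) : ℝ) : ℂ) •
      ext 1 (Q k x : Lp (Fm m) 2 μS) (z - y) -
      ((ρ z : ℝ) : ℂ) • ext 1 (Q k x : Lp (Fm m) 2 μS) z‖ ^ 2) := fun k =>
    ((hshift k).sub (v1_memLp hρ (fun j => Q j x) k)).norm.integrable_sq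
  calc ∫ z, ‖((ρ (z - y) : ℝ) : ℂ) • ext 1 (Q j x : Lp (Fm m) 2 μS) (z - y) -
      ((ρ z : ℝ) : ℂ) • ext 1 (Q j x : Lp (Fm m) 2 μS) z‖ ^ 2
      ≤ ∫ z, ∑ k : Fin 3, ‖((ρ (z - y) : ℝ) : ℂ) • ext 1 (Q k x : Lp (Fm m) 2 μS) (z - y) -
        ((ρ z : ℝ) : ℂ) • ext 1 (Q k x : Lp (Fm m) 2 μS) z‖ ^ 2 := by
        refine integral_mono (hint j) (integrable_finsetSum _ fun k _ => hint k) fun z => ?_
        exact Finset.single_le_sum (f := fun k => ‖((ρ (z - y) : ℝ) : ℂ) •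
          ext 1 (Q k x : Lp (Fm m) 2 μS) (z - y) -
          ((ρ z : ℝ) : ℂ) • ext 1 (Q k x : Lp (Fm m) 2 μS) z‖ ^ 2)
          (fun _ _ => by positivity) (Finset.mem_univ j)
    _ ≤ _ := hw.2 y
    _ ≤ 12 * ‖y‖ ^ 2 * ((C1 + C2) * (((∑ j : Fin 3, ‖Q j‖ ^ 2) + ∑ j : Fin 3, ‖A j‖ ^ 2) *
          ‖x‖ ^ 2)) := by
        refine mul_le_mul_of_nonneg_left ((add_le_add (hb1 w) (hb2 w).2).trans ?_) (by positivity)
        rw [← add_mul]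
        exact mul_le_mul_of_nonneg_left hN (by linarith)
    _ = _ := by ring

end

end Pool.Agent.HopfEmb
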