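import Pool.Agent.Lib.MP_d404b9_ag.Adj
import Pool.Agent.Lib.MP_d404b9_ag.CalcB
import Pool.Agent.Lib.MP_d404b9_ag.CalcC
import Pool.Agent.Lib.MP_d404b9_ag.WeakEst
import Pool.Agent.Lib.MP_d404b9_ag.Compact
import Pool.Agent.Lib.MP_d404b9_ag.EstBase

/-!
# JOB EST-2: dual a priori estimate in degree 2

`v_k = ρ ext 2 (v k)`, `∂̄`-divergence from `Weak2.localize`, `∂`-curl from `adj2` and
`del_curl_localize`, then `weakest2`, `norm_le_ext`, `ext_bound`.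
-/

set_option autoImplicit false

open MeasureTheory Complex Filter Topology
open scoped ContDiff ComplexConjugate

namespace Pool.Agent.HopfEmb

noncomputable section

variable {m : ℕ}

private abbrev Y2 (P : C3 → (Fm m →L[ℂ] Fm m)) := (Fin 3 → HP P) × (Fin 3 → HP P)

private def N2 {P : C3 → (Fm m →L[ℂ] Fm m)} (y : Y2 P) : ℝ :=
  (∑ j : Fin 3, ‖y.1 j‖ ^ 2) + ∑ j : Fin 3, ‖y.2 j‖ ^ 2

private lemma N2_fst {P : C3 → (Fm m →L[ℂ] Fm m)} (y : Y2 P) (j : Fin 3) :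
    ‖(y.1 j : Lp (Fm m) 2 μS)‖ ^ 2 ≤ N2 y := by
  have h1 : ‖y.1 j‖ ^ 2 ≤ ∑ j : Fin 3, ‖y.1 j‖ ^ 2 :=
    Finset.single_le_sum (f := fun j => ‖y.1 j‖ ^ 2) (fun _ _ => by positivity)
      (Finset.mem_univ j)
  have h2 : 0 ≤ ∑ j : Fin 3, ‖y.2 j‖ ^ 2 := Finset.sum_nonneg fun _ _ => by positivity
  have h : ‖(y.1 j : Lp (Fm m) 2 μS)‖ = ‖y.1 j‖ := rfl
  rw [N2, h]; linarith

private lemma N2_snd {P : C3 → (Fm m →L[ℂ] Fm m)} (y : Y2 P) (j : Fin 3) :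
    ‖(y.2 j : Lp (Fm m) 2 μS)‖ ^ 2 ≤ N2 y := by
  have h1 : ‖y.2 j‖ ^ 2 ≤ ∑ j : Fin 3, ‖y.2 j‖ ^ 2 :=
    Finset.single_le_sum (f := fun j => ‖y.2 j‖ ^ 2) (fun _ _ => by positivity)
      (Finset.mem_univ j)
  have h2 : 0 ≤ ∑ j : Fin 3, ‖y.1 j‖ ^ 2 := Finset.sum_nonneg fun _ _ => by positivity
  have h : ‖(y.2 j : Lp (Fm m) 2 μS)‖ = ‖y.2 j‖ := rfl
  rw [N2, h]; linarith

/-- The zeroth order part of the `∂`-curl equation. -/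
private def H2 {P : C3 → (Fm m →L[ℂ] Fm m)} (L : Fin 3 → C3 → (Fm m →L[ℂ] Fm m))
    (y : Y2 P) (i : Fin 3) (z : C3) : Fm m :=
  L (i + 1) z (ext 2 (y.1 (i + 2) : Lp (Fm m) 2 μS) z)
    - L (i + 2) z (ext 2 (y.1 (i + 1) : Lp (Fm m) 2 μS) z)
    + ((R2 z : ℂ))⁻¹ • ext 1 (y.2 i : Lp (Fm m) 2 μS) z

/-- The localized `∂`-curl. -/
private def c2 {P : C3 → (Fm m →L[ℂ] Fm m)} (ρ : C3 → ℂ) (L : Fin 3 → C3 → (Fm m →L[ℂ] Fm m))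
    (i : Fin 3) (y : Y2 P) (z : C3) : Fm m :=
  ddel (i + 1) ρ z • ext 2 (y.1 (i + 2) : Lp (Fm m) 2 μS) z
    - ddel (i + 2) ρ z • ext 2 (y.1 (i + 1) : Lp (Fm m) 2 μS) z + ρ z • H2 L y i z

/-- The localized `∂̄`-divergence. -/
private def d2 {P : C3 → (Fm m →L[ℂ] Fm m)} (ρ : C3 → ℂ) (E : Fin 3 → C3 → (Fm m →L[ℂ] Fm m))
    (y : Y2 P) (z : C3) : Fm m :=
  ∑ j : Fin 3, (dbar j ρ z • ext 2 (y.1 j : Lp (Fm m) 2 μS) z +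
    ρ z • E j z (ext 2 (y.1 j : Lp (Fm m) 2 μS) z))

private lemma R2inv_cont : ContinuousOn (fun z : C3 => ((R2 z : ℂ))⁻¹ •
    ContinuousLinearMap.id ℂ (Fm m)) {z | z ≠ 0} := by
  have hr2 : Continuous (fun z : C3 => ((R2 z : ℝ) : ℂ)) :=
    continuous_ofReal.comp estBase_R2_contDiff.continuous
  have hi : ContinuousOn (fun z : C3 => ((R2 z : ℂ))⁻¹) {z | z ≠ 0} := by
    refine ContinuousOn.inv₀ hr2.continuousOn ?_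
    intro z hz
    have h : R2 z ≠ 0 := by
      rw [← estBase_rr_sq]
      exact pow_ne_zero 2 (rr_pos hz).ne'
    exact_mod_cast h
  exact hi.smul continuousOn_const

private lemma c2_bd {P : C3 → (Fm m →L[ℂ] Fm m)} {ρ : C3 → ℂ} (hρ : IsTest ρ)
    {L : Fin 3 → C3 → (Fm m →L[ℂ] Fm m)} (hL : ∀ j, ContinuousOn (L j) {z | z ≠ 0}) (i : Fin 3) :
    EstBd N2 (c2 (P := P) ρ L i) := by
  obtain ⟨a1, a2, a3⟩ := est_ddel_test hρ (i + 1)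
  obtain ⟨b1, b2, b3⟩ := est_ddel_test hρ (i + 2)
  refine (((est_bd_scalar a1 a2 a3 2 (fun y : Y2 P => (y.1 (i + 2) : Lp (Fm m) 2 μS))
    (fun y => N2_fst y _)).sub
    (est_bd_scalar b1 b2 b3 2 (fun y : Y2 P => (y.1 (i + 1) : Lp (Fm m) 2 μS))
    (fun y => N2_fst y _))).add
    (((est_bd_coef hρ (hL (i + 1)) 2 (fun y : Y2 P => (y.1 (i + 2) : Lp (Fm m) 2 μS))
      (fun y => N2_fst y _)).sub
      (est_bd_coef hρ (hL (i + 2)) 2 (fun y : Y2 P => (y.1 (i + 1) : Lp (Fm m) 2 μS))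
      (fun y => N2_fst y _))).add
    (est_bd_coef hρ R2inv_cont 1
      (fun y : Y2 P => (y.2 i : Lp (Fm m) 2 μS)) (fun y => N2_snd y _)))).congr ?_
  intro y z
  rw [c2, H2, smul_add (ρ z), smul_sub (ρ z), smul_apply, ContinuousLinearMap.id_apply]

private lemma d2_bd {P : C3 → (Fm m →L[ℂ] Fm m)} {ρ : C3 → ℂ} (hρ : IsTest ρ)
    {E : Fin 3 → C3 → (Fm m →L[ℂ] Fm m)} (hE : ∀ j, ContinuousOn (E j) {z | z ≠ 0}) :
    EstBd N2 (d2 (P := P) ρ E) :=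
  EstBd.sum (fun j => (est_bd_scalar (est_dbar_test hρ j).1 (est_dbar_test hρ j).2.1
    (est_dbar_test hρ j).2.2 2 (fun y : Y2 P => (y.1 j : Lp (Fm m) 2 μS))
    (fun y => N2_fst y _)).add
    (est_bd_coef hρ (hE j) 2 (fun y : Y2 P => (y.1 j : Lp (Fm m) 2 μS))
      (fun y => N2_fst y _)))

private lemma d2_twist {P : C3 → (Fm m →L[ℂ] Fm m)} (ρ : C3 → ℂ)
    (E : Fin 3 → C3 → (Fm m →L[ℂ] Fm m)) (s : ℝ) (y : Y2 P) (z : C3) :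
    d2 ρ (twist s E) y z + (s : ℂ) •
      ∑ j : Fin 3, eta j z • (ρ z • ext 2 (y.1 j : Lp (Fm m) 2 μS) z) = d2 ρ E y z := by
  simp only [d2, twist, sub_apply, smul_apply, ContinuousLinearMap.id_apply, Fin.sum_univ_three]
  module

private lemma c2_twist {P : C3 → (Fm m →L[ℂ] Fm m)} {E : Fin 3 → C3 → (Fm m →L[ℂ] Fm m)}
    (hPE : PE P E) (ρ : C3 → ℂ) (s : ℝ) (y : Y2 P) :
    ∀ᵐ z : C3, ∀ i : Fin 3, - c2 ρ (Ladj 1 P (twist s E)) i y z + (s : ℂ) •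
      (conj (eta (i + 1) z) • (ρ z • ext 2 (y.1 (i + 2) : Lp (Fm m) 2 μS) z)
        - conj (eta (i + 2) z) • (ρ z • ext 2 (y.1 (i + 1) : Lp (Fm m) 2 μS) z)) =
      - c2 ρ (Ladj 1 P E) i y z := by
  have hP : ∀ᵐ z : C3, ∀ j : Fin 3, P z (ext 2 (y.1 j : Lp (Fm m) 2 μS) z) =
      ext 2 (y.1 j : Lp (Fm m) 2 μS) z :=
    ae_all_iff.2 fun j => ext_proj hPE.P_scale (y.1 j).2 2
  filter_upwards [hP, est_ae_ne_zero] with z hz hz0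
  intro i
  have e : ∀ j k, Ladj 1 P (twist s E) j z (ext 2 (y.1 k : Lp (Fm m) 2 μS) z) =
      Ladj 1 P E j z (ext 2 (y.1 k : Lp (Fm m) 2 μS) z) +
        ((s : ℂ) * conj (eta j z)) • ext 2 (y.1 k : Lp (Fm m) 2 μS) z := fun j k =>
    est_Ladj_twist hPE s 1 j hz0 (hz k)
  simp only [c2, H2, e]
  module

private lemma v2_memLp {P : C3 → (Fm m →L[ℂ] Fm m)} {ρ : C3 → ℂ} (hρ : IsTest ρ) (f : Fin 3 → HP P)
    (k : Fin 3) : MemLp (fun z => ρ z • ext 2 (f k : Lp (Fm m) 2 μS) z) 2 volume :=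
  ((est_bd_scalar hρ.smooth.continuous hρ.compact hρ.zero_notMem 2
      (fun y : Y2 P => (y.1 k : Lp (Fm m) 2 μS)) (fun y => N2_fst y _)).choose_spec.2 (f, f)).1

private lemma H2_LI {P : C3 → (Fm m →L[ℂ] Fm m)} {L : Fin 3 → C3 → (Fm m →L[ℂ] Fm m)}
    (hL : ∀ j, ContinuousOn (L j) {z | z ≠ 0}) (y : Y2 P) (i : Fin 3) : LI (H2 L y i) := by
  have h1 := est_LI_add (est_LI_sub (est_LI_clm (hL (i + 1))
    (ext_LI 2 (y.1 (i + 2) : Lp (Fm m) 2 μS)))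
    (est_LI_clm (hL (i + 2)) (ext_LI 2 (y.1 (i + 1) : Lp (Fm m) 2 μS))))
    (est_LI_clm R2inv_cont (ext_LI 1 (y.2 i : Lp (Fm m) 2 μS)))
  have e : H2 L y i = fun z => L (i + 1) z (ext 2 (y.1 (i + 2) : Lp (Fm m) 2 μS) z)
    - L (i + 2) z (ext 2 (y.1 (i + 1) : Lp (Fm m) 2 μS) z)
    + (((R2 z : ℂ))⁻¹ • ContinuousLinearMap.id ℂ (Fm m)) (ext 1 (y.2 i : Lp (Fm m) 2 μS) z) := by
    funext z
    rw [H2, smul_apply, ContinuousLinearMap.id_apply]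
  rw [e]
  exact h1

theorem est2 {P : C3 → (Fm m →L[ℂ] Fm m)} {E : Fin 3 → C3 → (Fm m →L[ℂ] Fm m)} (hPE : PE P E) :
    ∃ σ C : ℝ, 0 < C ∧ ∀ s : ℝ, σ ≤ s → ∀ (v g : Fin 3 → HP P),
      Rel2 (twist s E) (fn v) →
      (∀ (f h : Fin 3 → HP P), Rel1 (twist s E) (fn f) (fn h) →
        ∑ i : Fin 3, inner ℂ (h i) (v i) = ∑ j : Fin 3, inner ℂ (f j) (g j)) →
      ∑ j : Fin 3, ‖v j‖ ^ 2 ≤ C * ∑ j : Fin 3, ‖g j‖ ^ 2 := by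
  obtain ⟨ρ, h1, h2, h3, h4, h5, h6⟩ := exists_cutoff
  have hρ := est_isTest h1 h2 h3
  obtain ⟨C1, hC1, hb1⟩ := EstBd.sum_sq (fun j => c2_bd (P := P) hρ (L := Ladj 1 P E)
    (est_Ladj_cont hPE (est_E_cont hPE) 1) j)
  obtain ⟨C2, hC2, hb2⟩ := d2_bd (P := P) hρ (est_E_cont hPE)
  refine ⟨2 * (C1 + C2 + 1), C1 + C2 + 1, by linarith, fun s hs v g hr hadj => ?_⟩
  have hPs := hPE.twist s
  obtain ⟨y, hyv, hyg⟩ : ∃ y : Y2 P, y.1 = v ∧ y.2 = g := ⟨(v, g), rfl, rfl⟩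
  subst hyv hyg
  have hsm : 0 ≤ s := by linarith
  have hadj' : ∀ Ψ : C3 → (Fm m →L[ℂ] ℂ), IsTest Ψ → ∀ i : Fin 3,
      ∫ z, ((ddel (i + 1) Ψ z) (ext 2 (y.1 (i + 2) : Lp (Fm m) 2 μS) z)
          - (ddel (i + 2) Ψ z) (ext 2 (y.1 (i + 1) : Lp (Fm m) 2 μS) z)) =
        - ∫ z, Ψ z (H2 (Ladj 1 P (twist s E)) y i z) := by
    intro Ψ hΨ i
    exact adj2 hPs y.1 y.2 hadj Ψ hΨ i
  have k1 : ∀ i, MemLp (c2 (fun z => ((ρ z : ℝ) : ℂ)) (Ladj 1 P (twist s E)) i y) 2 volume :=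
    fun j => ((c2_bd (P := P) hρ (est_Ladj_cont hPs (est_E_cont hPs) 1) j).choose_spec.2 y).1
  have k2 : MemLp (d2 (fun z => ((ρ z : ℝ) : ℂ)) (twist s E) y) 2 volume :=
    ((d2_bd (P := P) hρ (est_twist_cont hPE s)).choose_spec.2 y).1
  have k3 : ∀ i, HasCompactSupport (c2 (fun z => ((ρ z : ℝ) : ℂ)) (Ladj 1 P (twist s E)) i y) :=
    fun j => est_compactSupport hρ fun z hz => by
      rw [c2, est_ddel_zero hz, est_ddel_zero hz, image_eq_zero_of_notMem_tsupport hz]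
      simp only [zero_smul, sub_self, add_zero]
  have k4 : HasCompactSupport (d2 (fun z => ((ρ z : ℝ) : ℂ)) (twist s E) y) :=
    est_compactSupport hρ fun z hz => by
      rw [d2, image_eq_zero_of_notMem_tsupport hz]
      simp only [est_dbar_zero hz, zero_smul, add_zero, Finset.sum_const_zero]
  have k5 : ∀ φ : C3 → ℂ, IsTestC φ → ∀ i : Fin 3,
      ∫ z, (ddel (i + 1) φ z • (((ρ z : ℝ) : ℂ) • ext 2 (y.1 (i + 2) : Lp (Fm m) 2 μS) z)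
        - ddel (i + 2) φ z • (((ρ z : ℝ) : ℂ) • ext 2 (y.1 (i + 1) : Lp (Fm m) 2 μS) z)) =
        - ∫ z, φ z • c2 (fun z => ((ρ z : ℝ) : ℂ)) (Ladj 1 P (twist s E)) i y z := by
    intro φ hφ i
    have hk := del_curl_localize (fun j => ext_LI 2 (y.1 j : Lp (Fm m) 2 μS))
      (H2_LI (est_Ladj_cont hPs (est_E_cont hPs) 1) y) hadj' hρ φ hφ i
    exact hk
  have k6 : ∀ φ : C3 → ℂ, IsTestC φ →
      ∫ z, ∑ j : Fin 3, dbar j φ z • (((ρ z : ℝ) : ℂ) • ext 2 (y.1 j : Lp (Fm m) 2 μS) z) =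
        - ∫ z, φ z • d2 (fun z => ((ρ z : ℝ) : ℂ)) (twist s E) y z := by
    intro φ hφ
    have hk := Weak2.localize (fun j z hz => est_twist_smooth hPE s j hz)
      (fun j => ext_LI 2 (y.1 j : Lp (Fm m) 2 μS)) hr hρ φ hφ
    exact hk
  have hw := weakest2 (a := 1 / 4) (b := 8) (by norm_num)
    (v := fun k z => ((ρ z : ℝ) : ℂ) • ext 2 (y.1 k : Lp (Fm m) 2 μS) z)
    (c := fun i => c2 (fun z => ((ρ z : ℝ) : ℂ)) (Ladj 1 P (twist s E)) i y)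
    (d := d2 (fun z => ((ρ z : ℝ) : ℂ)) (twist s E) y)
    (fun k => v2_memLp hρ y.1 k)
    (fun k => est_supp h6 _) k1 k3 k2 k4 k5 k6
  have hw1 := hw s hsm
  have e2 : ∫ z, ∑ i : Fin 3, ‖- c2 (fun z => ((ρ z : ℝ) : ℂ)) (Ladj 1 P (twist s E)) i y z +
      (s : ℂ) • (conj (eta (i + 1) z) • (((ρ z : ℝ) : ℂ) • ext 2 (y.1 (i + 2) : Lp (Fm m) 2 μS) z)
        - conj (eta (i + 2) z) • (((ρ z : ℝ) : ℂ) • ext 2 (y.1 (i + 1) : Lp (Fm m) 2 μS) z))‖ ^ 2 =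
      ∫ z, ∑ i : Fin 3, ‖c2 (fun z => ((ρ z : ℝ) : ℂ)) (Ladj 1 P E) i y z‖ ^ 2 := by
    refine integral_congr_ae ?_
    filter_upwards [c2_twist hPE (fun z => ((ρ z : ℝ) : ℂ)) s y] with z hz
    refine Finset.sum_congr rfl fun i _ => ?_
    exact (congrArg (fun v => ‖v‖ ^ 2) (hz i)).trans (by simp only [norm_neg])
  have e : ∀ z, ‖d2 (fun z => ((ρ z : ℝ) : ℂ)) (twist s E) y z +
      (s : ℂ) • ∑ j : Fin 3, eta j z • (((ρ z : ℝ) : ℂ) • ext 2 (y.1 j : Lp (Fm m) 2 μS) z)‖ ^ 2 =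
      ‖d2 (fun z => ((ρ z : ℝ) : ℂ)) E y z‖ ^ 2 := by
    intro z
    exact congrArg (fun v => ‖v‖ ^ 2) (d2_twist (fun z => ((ρ z : ℝ) : ℂ)) E s y z)
  simp only [e] at hw1
  rw [e2] at hw1
  have hlow := est_lower (q := 2) (by norm_num) h1 h2 h3 h4
    (fun k => (y.1 k : Lp (Fm m) 2 μS))
  have hby1 := hb1 y
  have hby2 := (hb2 y).2
  have hN : N2 y = (∑ j : Fin 3, ‖y.1 j‖ ^ 2) + ∑ j : Fin 3, ‖y.2 j‖ ^ 2 := rfl
  rw [hN] at hby1 hby2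
  have hu : ∀ k, ‖(y.1 k : Lp (Fm m) 2 μS)‖ = ‖y.1 k‖ := fun k => rfl
  simp only [hu] at hlow
  set Iv := ∫ z, (∑ k : Fin 3, ‖((ρ z : ℝ) : ℂ) • ext 2 (y.1 k : Lp (Fm m) 2 μS) z‖ ^ 2) / R2 z
  set F := ∑ j : Fin 3, ‖y.1 j‖ ^ 2
  set K := ∑ j : Fin 3, ‖y.2 j‖ ^ 2
  have hF : 0 ≤ F := Finset.sum_nonneg fun _ _ => by positivity
  have hK : 0 ≤ K := Finset.sum_nonneg fun _ _ => by positivity
  have h7 : (s / 2) * F ≤ (C1 + C2) * (F + K) := by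
    calc (s / 2) * F ≤ (s / 2) * (4 * Iv) := mul_le_mul_of_nonneg_left hlow (by linarith)
      _ = 2 * s * Iv := by ring
      _ ≤ _ := hw1
      _ ≤ C1 * (F + K) + C2 * (F + K) := add_le_add hby1 hby2
      _ = _ := by ring
  have h8 : (C1 + C2 + 1) * F ≤ (s / 2) * F :=
    mul_le_mul_of_nonneg_right (by linarith) hF
  nlinarith

end

end Pool.Agent.HopfEmb
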