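import Pool.Agent.Lib.MP_d404b9_ag.Per

/-!
# The Hilbert space `L²(S)` and its homogeneous extensions

For `u ∈ L²(S)` the function `tl u` on `ℂ³ ∖ 0` is the extension with `tl u (2 z) = 2⁻³ tl u z`
and `ext q u z = |z|^{3-q} tl u z`, so `ext q u (2 z) = 2^{-q} ext q u z`. Since Lebesgue measure
scales by `2⁶`, `∫_{2^k S} ‖tl u‖² = ∫_S ‖u‖²` for every `k`.
-/

set_option autoImplicit false

open MeasureTheory Complex Filter Topology
open scoped ContDiff ComplexConjugate ENNReal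

namespace Pool.Agent.HopfEmb

noncomputable section

variable {m : ℕ}

/-- The unique `k` with `2^k ≤ |z| < 2^{k+1}` (for `z ≠ 0`). -/
def idx (z : C3) : ℤ := Int.log 2 (rr z)

/-- The representative of `z ≠ 0` in the shell `S`. -/
def base (z : C3) : C3 := ((2 : ℂ) ^ (-(idx z))) • z

/-- The extension of weight `-3`. -/
def tl (u : C3 → Fm m) (z : C3) : Fm m := ((2 : ℂ) ^ (-3 * idx z)) • u (base z)

/-- The extension of weight `-q` (used for `q = 0, 1, 2`). -/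
def ext (q : ℕ) (u : C3 → Fm m) (z : C3) : Fm m := ((rr z : ℂ) ^ (3 - q)) • tl u z

/-- The `L²` sections with values in the range of `P`. -/
def HP (P : C3 → (Fm m →L[ℂ] Fm m)) : Submodule ℂ (Lp (Fm m) 2 μS) where
  carrier := {u | ∀ᵐ z ∂μS, P z (u z) = u z}
  add_mem' := by
    intro u v hu hv
    filter_upwards [hu, hv, Lp.coeFn_add u v] with z h1 h2 h3
    rw [h3, Pi.add_apply, map_add, h1, h2]
  zero_mem' := by
    filter_upwards [Lp.coeFn_zero (Fm m) 2 μS] with z h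
    rw [h, Pi.zero_apply, map_zero]
  smul_mem' := by
    intro c u hu
    filter_upwards [hu, Lp.coeFn_smul c u] with z h1 h2
    rw [h2, Pi.smul_apply, map_smul, h1]

theorem rr_smul (c : ℂ) (z : C3) : rr (c • z) = ‖c‖ * rr z := by
  unfold rr R2
  simp only [Pi.smul_apply, smul_eq_mul, norm_mul, mul_pow]
  rw [← Finset.mul_sum, Real.sqrt_mul (by positivity), Real.sqrt_sq (norm_nonneg c)]

theorem ExtA_R2_pos {z : C3} (hz : z ≠ 0) : 0 < R2 z := by
  have : ∃ i, z i ≠ 0 := by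
    by_contra h
    push Not at h
    exact hz (funext h)
  obtain ⟨i, hi⟩ := this
  unfold R2
  exact Finset.sum_pos' (fun j _ => by positivity) ⟨i, Finset.mem_univ i, by positivity⟩

theorem rr_pos {z : C3} (hz : z ≠ 0) : 0 < rr z := Real.sqrt_pos.2 (ExtA_R2_pos hz)

theorem ExtA_rr_zero : rr (0 : C3) = 0 := by simp [rr, R2]

theorem ExtA_ne_of_rr {z : C3} (hz : 0 < rr z) : z ≠ 0 := by
  rintro rfl
  rw [ExtA_rr_zero] at hz
  exact lt_irrefl _ hz

theorem ExtA_norm_zpow (k : ℤ) : ‖(2 : ℂ) ^ k‖ = (2 : ℝ) ^ k := by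
  rw [norm_zpow, Complex.norm_ofNat]

theorem base_mem_S {z : C3} (hz : z ≠ 0) : base z ∈ S := by
  have hp := rr_pos hz
  have h1 : ((2 : ℕ) : ℝ) ^ (idx z) ≤ rr z := Int.zpow_log_le_self (by norm_num) hp
  have h2 : rr z < ((2 : ℕ) : ℝ) ^ (idx z + 1) := Int.lt_zpow_succ_log_self (by norm_num) (rr z)
  have h3 : (0 : ℝ) < (2 : ℝ) ^ (idx z) := by positivity
  push_cast at h1 h2
  refine ⟨?_, ?_⟩
  · unfold base
    rw [rr_smul, ExtA_norm_zpow, zpow_neg, ← div_eq_inv_mul, le_div_iff₀ h3, one_mul]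
    exact h1
  · unfold base
    rw [rr_smul, ExtA_norm_zpow, zpow_neg, ← div_eq_inv_mul, div_lt_iff₀ h3]
    rw [zpow_add₀ (by norm_num), zpow_one, mul_comm] at h2
    exact h2

theorem ExtA_idx_eq {z : C3} {k : ℤ} (h1 : (2 : ℝ) ^ k ≤ rr z) (h2 : rr z < (2 : ℝ) ^ (k + 1)) :
    idx z = k := by
  have hp : 0 < rr z := lt_of_lt_of_le (by positivity) h1
  apply le_antisymm
  · have : Int.log 2 (rr z) < k + 1 := by
      rw [← Int.lt_zpow_iff_log_lt (by norm_num) hp]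
      exact_mod_cast h2
    unfold idx
    omega
  · unfold idx
    rw [← Int.zpow_le_iff_le_log (by norm_num) hp]
    exact_mod_cast h1

theorem ExtA_idx_of_mem_S {z : C3} (hz : z ∈ S) : idx z = 0 := by
  apply ExtA_idx_eq
  · simpa using hz.1
  · simpa using hz.2

theorem ExtA_zpow_idx_le {z : C3} (hz : z ≠ 0) : (2 : ℝ) ^ (idx z) ≤ rr z := by
  have := Int.zpow_log_le_self (b := 2) (r := rr z) (by norm_num) (rr_pos hz)
  exact_mod_cast this

theorem ExtA_lt_zpow_idx (z : C3) : rr z < (2 : ℝ) ^ (idx z + 1) := by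
  have := Int.lt_zpow_succ_log_self (b := 2) (by norm_num) (rr z)
  exact_mod_cast this

theorem idx_smul {z : C3} (hz : z ≠ 0) (k : ℤ) : idx (((2 : ℂ) ^ k) • z) = idx z + k := by
  have h1 := ExtA_zpow_idx_le hz
  have h2 := ExtA_lt_zpow_idx z
  have h3 : (0 : ℝ) < (2 : ℝ) ^ k := by positivity
  apply ExtA_idx_eq
  · rw [rr_smul, ExtA_norm_zpow, zpow_add₀ (by norm_num), mul_comm]
    exact mul_le_mul_of_nonneg_left h1 h3.le
  · rw [rr_smul, ExtA_norm_zpow, show idx z + k + 1 = k + (idx z + 1) by ring,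
      zpow_add₀ (by norm_num) k]
    exact mul_lt_mul_of_pos_left h2 h3

theorem ExtA_continuous_R2 : Continuous R2 := by
  unfold R2
  fun_prop

theorem ExtA_continuous_rr : Continuous rr := ExtA_continuous_R2.sqrt

theorem measurableSet_S : MeasurableSet S := by
  have h := ExtA_continuous_rr.measurable
  exact (measurableSet_le measurable_const h).inter (measurableSet_lt h measurable_const)

theorem ExtA_base_of_mem_S {z : C3} (hz : z ∈ S) : base z = z := by
  unfold base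
  rw [ExtA_idx_of_mem_S hz]
  simp

theorem ext_of_mem_S {q : ℕ} {u : C3 → Fm m} {z : C3} (hz : z ∈ S) :
    ext q u z = ((rr z : ℂ) ^ (3 - q)) • u z := by
  unfold ext tl
  rw [ExtA_idx_of_mem_S hz, ExtA_base_of_mem_S hz]
  simp

theorem ExtA_base_smul {z : C3} (hz : z ≠ 0) (k : ℤ) : base (((2 : ℂ) ^ k) • z) = base z := by
  unfold base
  rw [idx_smul hz, smul_smul, ← zpow_add₀ (by norm_num)]
  congr 2
  ring

theorem ExtA_ext_zpow {q : ℕ} (hq : q ≤ 3) (u : C3 → Fm m) {z : C3} (hz : z ≠ 0) (k : ℤ) :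
    ext q u (((2 : ℂ) ^ k) • z) = ((2 : ℂ) ^ (-(q : ℤ) * k)) • ext q u z := by
  unfold ext tl
  rw [ExtA_base_smul hz, idx_smul hz, rr_smul, ExtA_norm_zpow]
  simp only [smul_smul]
  congr 1
  push_cast
  rw [mul_pow, ← zpow_natCast ((2 : ℂ) ^ k), ← zpow_mul]
  have e : (-3 * (idx z + k) : ℤ) = -3 * idx z + -3 * k := by ring
  rw [e, zpow_add₀ (by norm_num : (2 : ℂ) ≠ 0)]
  have e2 : (-(q : ℤ) * k) = k * ((3 - q : ℕ) : ℤ) + -3 * k := by
    push_cast [Nat.cast_sub hq]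
    ring
  rw [e2, zpow_add₀ (by norm_num : (2 : ℂ) ≠ 0)]
  ring

theorem ext_scale {q : ℕ} (hq : q ≤ 3) (u : C3 → Fm m) {z : C3} (hz : z ≠ 0) :
    ext q u ((2 : ℂ) • z) = ((2 : ℂ) ^ (-(q : ℤ))) • ext q u z := by
  have := ExtA_ext_zpow hq u hz 1
  simpa using this

theorem ExtA_cast_smul (k : ℤ) (z : C3) : ((2 : ℂ) ^ k) • z = ((2 : ℝ) ^ k) • z := by
  funext i
  simp only [Pi.smul_apply, smul_eq_mul, Complex.real_smul]
  push_cast
  rfl

theorem ExtA_finrank : Module.finrank ℝ C3 = 6 := by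
  rw [Module.finrank_pi_fintype]
  simp [Complex.finrank_real_complex]

/-- Change of variables for a dilation. -/
theorem ExtA_lintegral_smul (g : C3 → ℝ≥0∞) (k : ℤ) :
    ∫⁻ z, g z = ENNReal.ofReal ((2 : ℝ) ^ (6 * k)) * ∫⁻ z : C3, g (((2 : ℂ) ^ k) • z) := by
  have hc : (2 : ℝ) ^ k ≠ 0 := by positivity
  have hE : MeasurableEmbedding (fun z : C3 => ((2 : ℝ) ^ k) • z) :=
    (Homeomorph.smulOfNeZero ((2 : ℝ) ^ k) hc).measurableEmbedding
  have h1 := hE.lintegral_map (μ := (volume : Measure C3)) g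
  have h2 := Measure.map_addHaar_smul (volume : Measure C3) hc
  rw [h2, lintegral_smul_measure, ExtA_finrank] at h1
  simp only [ExtA_cast_smul]
  rw [← h1, smul_eq_mul, ← mul_assoc, ← ENNReal.ofReal_mul (by positivity)]
  have : (2 : ℝ) ^ (6 * k) * |(((2 : ℝ) ^ k) ^ 6)⁻¹| = 1 := by
    rw [abs_of_pos (by positivity), ← zpow_natCast ((2 : ℝ) ^ k), ← zpow_mul]
    rw [show k * ((6 : ℕ) : ℤ) = 6 * k by push_cast; ring]
    exact mul_inv_cancel₀ (by positivity)
  rw [this, ENNReal.ofReal_one, one_mul]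

/-- The shell `2^k S`. -/
def ExtA_shell (k : ℤ) : Set C3 := {z | (2 : ℝ) ^ k ≤ rr z ∧ rr z < (2 : ℝ) ^ (k + 1)}

theorem ExtA_smul_mem_shell (k : ℤ) (z : C3) : ((2 : ℂ) ^ k) • z ∈ ExtA_shell k ↔ z ∈ S := by
  have h3 : (0 : ℝ) < (2 : ℝ) ^ k := by positivity
  have e1 : (ExtA_shell k) = {z | (2 : ℝ) ^ k ≤ rr z ∧ rr z < (2 : ℝ) ^ (k + 1)} := rfl
  have e2 : S = {z | 1 ≤ rr z ∧ rr z < 2} := rfl
  rw [e1, e2, Set.mem_ofPred_eq, Set.mem_ofPred_eq, rr_smul, ExtA_norm_zpow,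
    zpow_add₀ (by norm_num), zpow_one, mul_lt_mul_iff_right₀ h3]
  refine and_congr_left fun _ => ?_
  constructor
  · intro h
    by_contra h'
    push Not at h'
    have := mul_lt_mul_of_pos_left h' h3
    linarith
  · intro h
    have := mul_le_mul_of_nonneg_left h h3.le
    linarith

theorem ExtA_measurableSet_shell (k : ℤ) : MeasurableSet (ExtA_shell k) := by
  have h := ExtA_continuous_rr.measurable
  exact (measurableSet_le measurable_const h).inter (measurableSet_lt h measurable_const)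

theorem ExtA_mem_shell {k : ℤ} {z : C3} (hz : z ∈ ExtA_shell k) : idx z = k :=
  ExtA_idx_eq hz.1 hz.2

theorem ExtA_iUnion_shell : (⋃ k, ExtA_shell k) = {z : C3 | z ≠ 0} := by
  ext z
  simp only [Set.mem_iUnion, Set.mem_ofPred_eq]
  constructor
  · rintro ⟨k, hk⟩
    exact ExtA_ne_of_rr (lt_of_lt_of_le (by positivity) hk.1)
  · intro hz
    exact ⟨idx z, ExtA_zpow_idx_le hz, ExtA_lt_zpow_idx z⟩

theorem ExtA_ae_ne_zero : ∀ᵐ z : C3, z ≠ 0 := by
  rw [ae_iff]
  simp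

/-- Decomposition of an integral over `ℂ³` into integrals over the shells `2^k S`. -/
theorem lintegral_shells {g : C3 → ℝ≥0∞} (_hg : AEMeasurable g volume) :
    ∫⁻ z, g z = ∑' k : ℤ, ENNReal.ofReal ((2 : ℝ) ^ (6 * k)) *
      ∫⁻ z in S, g (((2 : ℂ) ^ k) • z) := by
  have h0 : ∫⁻ z, g z = ∫⁻ z in (⋃ k, ExtA_shell k), g z := by
    rw [ExtA_iUnion_shell]
    have : (volume : Measure C3).restrict {z : C3 | z ≠ 0} = volume := by
      apply Measure.restrict_eq_self_of_ae_mem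
      exact ExtA_ae_ne_zero
    rw [this]
  rw [h0, lintegral_iUnion ExtA_measurableSet_shell]
  · congr 1
    funext k
    rw [← lintegral_indicator (ExtA_measurableSet_shell k), ExtA_lintegral_smul _ k,
      ← lintegral_indicator measurableSet_S]
    congr 2
    funext z
    by_cases hz : z ∈ S
    · rw [Set.indicator_of_mem hz, Set.indicator_of_mem ((ExtA_smul_mem_shell k z).2 hz)]
    · rw [Set.indicator_of_notMem hz,
        Set.indicator_of_notMem (fun h => hz ((ExtA_smul_mem_shell k z).1 h))]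
  · intro i j hij
    rw [Function.onFun, Set.disjoint_left]
    intro z h1 h2
    exact hij ((ExtA_mem_shell h1).symm.trans (ExtA_mem_shell h2))

theorem ExtA_quasi (k : ℤ) {p : C3 → Prop} (h : ∀ᵐ z : C3, p z) :
    ∀ᵐ z : C3, p (((2 : ℂ) ^ k) • z) := by
  have hc : (2 : ℝ) ^ k ≠ 0 := by positivity
  have hE : MeasurableEmbedding (fun z : C3 => ((2 : ℝ) ^ k) • z) :=
    (Homeomorph.smulOfNeZero ((2 : ℝ) ^ k) hc).measurableEmbedding
  have h2 := Measure.map_addHaar_smul (volume : Measure C3) hc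
  simp only [ExtA_cast_smul]
  have : ∀ᵐ w ∂(Measure.map (fun z : C3 => ((2 : ℝ) ^ k) • z) volume), p w := by
    rw [h2]
    exact Measure.ae_smul_measure h _
  exact hE.ae_map_iff.1 this

/-- If a property holds a.e. on the shell, then it holds at `base z` for a.e. `z`. -/
theorem ae_base {p : C3 → Prop} (h : ∀ᵐ z ∂μS, p z) : ∀ᵐ z : C3, p (base z) := by
  have h1 : ∀ᵐ z : C3, z ∈ S → p z := (ae_restrict_iff' measurableSet_S).1 h
  have h2 : ∀ᵐ z : C3, ∀ k : ℤ, ((2 : ℂ) ^ k) • z ∈ S → p (((2 : ℂ) ^ k) • z) :=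
    ae_all_iff.2 fun k => ExtA_quasi k h1
  filter_upwards [h2, ExtA_ae_ne_zero] with z hz hz0
  exact hz (-(idx z)) (base_mem_S hz0)

theorem ext_congr {u v : C3 → Fm m} (h : u =ᵐ[μS] v) (q : ℕ) : ext q u =ᵐ[volume] ext q v := by
  filter_upwards [ae_base h] with z hz
  unfold ext tl
  rw [hz]

theorem ExtA_measurable_idx : Measurable idx := by
  have h := ExtA_continuous_rr.measurable
  apply measurable_to_countable'
  intro k
  have : idx ⁻¹' {k} = ExtA_shell k ∪ (if k = 0 then {0} else ∅) := by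
    ext z
    simp only [Set.mem_preimage, Set.mem_singleton_iff, Set.mem_union]
    constructor
    · intro hk
      by_cases hz : z = 0
      · right
        subst hz
        have : idx (0 : C3) = 0 := by
          unfold idx
          rw [ExtA_rr_zero]
          simp
        rw [if_pos (hk.symm.trans this)]
        rfl
      · left
        subst hk
        exact ⟨ExtA_zpow_idx_le hz, ExtA_lt_zpow_idx z⟩
    · rintro (hk | hk)
      · exact ExtA_mem_shell hk
      · split_ifs at hk with h0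
        · have : z = 0 := hk
          subst this
          subst h0
          unfold idx
          rw [ExtA_rr_zero]
          simp
        · exact absurd hk (Set.notMem_empty z)
  rw [this]
  apply (ExtA_measurableSet_shell k).union
  split_ifs
  · exact measurableSet_singleton 0
  · exact MeasurableSet.empty

theorem ExtA_measurable_base : Measurable base := by
  have h1 : Measurable (fun z : C3 => (2 : ℂ) ^ (-(idx z))) :=
    (measurable_of_countable (fun k : ℤ => (2 : ℂ) ^ (-k))).comp ExtA_measurable_idx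
  have h2 : Measurable (fun z : C3 => z) := measurable_id
  exact h1.smul h2

theorem ext_aesm {u : C3 → Fm m} (h : AEStronglyMeasurable u μS) (q : ℕ) :
    AEStronglyMeasurable (ext q u) volume := by
  refine AEStronglyMeasurable.congr ?_ (ext_congr h.ae_eq_mk.symm q)
  have h1 : StronglyMeasurable (fun z : C3 => h.mk u (base z)) :=
    h.stronglyMeasurable_mk.comp_measurable ExtA_measurable_base
  have h2 : Measurable (fun z : C3 => ((2 : ℂ) ^ (-3 * idx z))) :=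
    (measurable_of_countable (fun k : ℤ => (2 : ℂ) ^ (-3 * k))).comp ExtA_measurable_idx
  have h3 : Measurable (fun z : C3 => ((rr z : ℂ) ^ (3 - q))) := by
    have := ExtA_continuous_rr.measurable
    exact (Complex.measurable_ofReal.comp this).pow_const _
  exact (h3.stronglyMeasurable.smul (h2.stronglyMeasurable.smul h1)).aestronglyMeasurable

theorem ExtA_scale_zpow {α : Type*} {P : C3 → α} (hP : ∀ z : C3, z ≠ 0 → P ((2 : ℂ) • z) = P z)
    {z : C3} (hz : z ≠ 0) (k : ℤ) : P (((2 : ℂ) ^ k) • z) = P z := by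
  have hne : ∀ k : ℤ, ((2 : ℂ) ^ k) • z ≠ 0 := fun k =>
    smul_ne_zero (zpow_ne_zero _ (by norm_num)) hz
  induction k using Int.induction_on with
  | zero => simp
  | succ k ih =>
    rw [← ih, zpow_add₀ (by norm_num), zpow_one, mul_comm, mul_smul]
    exact hP _ (hne _)
  | pred k ih =>
    rw [← ih]
    have := hP _ (hne (-(k : ℤ) - 1))
    rw [← this, smul_smul]
    congr 2
    nth_rewrite 1 [← zpow_one (2 : ℂ)]
    rw [← zpow_add₀ (by norm_num)]
    congr 1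
    ring

theorem ext_proj {P : C3 → (Fm m →L[ℂ] Fm m)} (hP : ∀ z : C3, z ≠ 0 → P ((2 : ℂ) • z) = P z)
    {u : C3 → Fm m} (h : ∀ᵐ z ∂μS, P z (u z) = u z) (q : ℕ) :
    ∀ᵐ z : C3, P z (ext q u z) = ext q u z := by
  filter_upwards [ae_base h, ExtA_ae_ne_zero] with z hz hz0
  have : P (base z) = P z := ExtA_scale_zpow hP hz0 _
  rw [this] at hz
  unfold ext tl
  rw [map_smul, map_smul, hz]

theorem ext_add (q : ℕ) (u v : Lp (Fm m) 2 μS) :
    ext q (⇑(u + v)) =ᵐ[volume] fun z => ext q u z + ext q v z := by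
  refine (ext_congr (Lp.coeFn_add u v) q).trans (Eventually.of_forall fun z => ?_)
  simp only [ext, tl, Pi.add_apply, smul_add]

theorem ext_smul (q : ℕ) (c : ℂ) (u : Lp (Fm m) 2 μS) :
    ext q (⇑(c • u)) =ᵐ[volume] fun z => c • ext q u z := by
  refine (ext_congr (Lp.coeFn_smul c u) q).trans (Eventually.of_forall fun z => ?_)
  simp only [ext, tl, Pi.smul_apply]
  rw [smul_comm _ c, smul_comm _ c]

theorem ExtA_coe_tl (u : C3 → Fm m) {z : C3} (hz : z ∈ S) (k : ℤ) (q : ℕ) (hq : q ≤ 3) :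
    ext q u (((2 : ℂ) ^ k) • z) = ((2 : ℂ) ^ (-(q : ℤ) * k)) • ((rr z : ℂ) ^ (3 - q)) • u z := by
  have hz0 : z ≠ 0 := ExtA_ne_of_rr (lt_of_lt_of_le one_pos hz.1)
  rw [ExtA_ext_zpow hq u hz0, ext_of_mem_S hz]

theorem ExtA_ext_zpow' {q : ℕ} (hq : 3 ≤ q) (u : C3 → Fm m) {z : C3} (hz : z ≠ 0) (k : ℤ) :
    ext q u (((2 : ℂ) ^ k) • z) = ((2 : ℂ) ^ (-3 * k)) • ext q u z := by
  have e : 3 - q = 0 := by omega
  unfold ext tl
  rw [ExtA_base_smul hz, idx_smul hz, e]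
  simp only [smul_smul, pow_zero, one_mul]
  congr 1
  rw [← zpow_add₀ (by norm_num : (2 : ℂ) ≠ 0)]
  congr 1
  ring

/-- A nonnegative constant bounding `‖ext q u (2^k z)‖` by `‖u z‖` for `z` in the shell. -/
theorem ExtA_norm_ext_le (u : C3 → Fm m) {z : C3} (hz : z ∈ S) (k : ℤ) (q : ℕ) :
    ‖ext q u (((2 : ℂ) ^ k) • z)‖ ≤
      (8 * (2 : ℝ) ^ (-((min q 3 : ℕ) : ℤ) * k)) * ‖u z‖ := by
  have hz0 : z ≠ 0 := ExtA_ne_of_rr (lt_of_lt_of_le one_pos hz.1)
  have h8 : ‖((rr z : ℂ) ^ (3 - q))‖ ≤ 8 := by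
    rw [norm_pow, Complex.norm_real, Real.norm_eq_abs, abs_of_nonneg (by linarith [hz.1])]
    calc rr z ^ (3 - q) ≤ 2 ^ (3 - q) := pow_le_pow_left₀ (by linarith [hz.1]) hz.2.le _
      _ ≤ 2 ^ 3 := pow_le_pow_right₀ (by norm_num) (by omega)
      _ = 8 := by norm_num
  rcases le_total q 3 with hq | hq
  · rw [ExtA_coe_tl u hz k q hq, norm_smul, norm_smul, min_eq_left hq, ExtA_norm_zpow]
    have h2 : (0 : ℝ) < (2 : ℝ) ^ (-(q : ℤ) * k) := by positivity
    calc _ = (‖((rr z : ℂ) ^ (3 - q))‖ * (2 : ℝ) ^ (-(q : ℤ) * k)) * ‖u z‖ := by ring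
      _ ≤ _ := by gcongr
  · rw [ExtA_ext_zpow' hq u hz0, ext_of_mem_S hz, norm_smul, norm_smul, min_eq_right hq,
      ExtA_norm_zpow]
    have h2 : (0 : ℝ) < (2 : ℝ) ^ (-3 * k) := by positivity
    calc _ = (‖((rr z : ℂ) ^ (3 - q))‖ * (2 : ℝ) ^ (-3 * k)) * ‖u z‖ := by ring
      _ ≤ _ := by
        push_cast
        gcongr

/-- The compact support of a function away from `0` lies in an annulus. -/
theorem ExtA_annulus {G : Type*} [NormedAddCommGroup G] {A : C3 → G}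
    (hc : HasCompactSupport A) (h0 : (0 : C3) ∉ tsupport A) :
    ∃ N : ℕ, ∀ z : C3, A z ≠ 0 → (2 : ℝ) ^ (-(N : ℤ)) < rr z ∧ rr z < (2 : ℝ) ^ (N : ℤ) := by
  by_cases hne : (tsupport A).Nonempty
  · obtain ⟨x, hx, hxmin⟩ := hc.isCompact.exists_isMinOn hne ExtA_continuous_rr.continuousOn
    obtain ⟨y, hy, hymax⟩ := hc.isCompact.exists_isMaxOn hne ExtA_continuous_rr.continuousOn
    have hx0 : 0 < rr x := rr_pos (fun h => h0 (h ▸ hx))
    obtain ⟨N1, hN1⟩ := pow_unbounded_of_one_lt (rr x)⁻¹ (by norm_num : (1 : ℝ) < 2)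
    obtain ⟨N2, hN2⟩ := pow_unbounded_of_one_lt (rr y) (by norm_num : (1 : ℝ) < 2)
    refine ⟨max N1 N2, fun z hz => ?_⟩
    have hz' : z ∈ tsupport A := subset_tsupport _ hz
    have h1 : rr x ≤ rr z := hxmin hz'
    have h2 : rr z ≤ rr y := hymax hz'
    refine ⟨?_, ?_⟩
    · have h3 : (rr x)⁻¹ < (2 : ℝ) ^ (max N1 N2) :=
        hN1.trans_le (pow_le_pow_right₀ (by norm_num) (le_max_left _ _))
      rw [zpow_neg, zpow_natCast]
      exact (inv_lt_of_inv_lt₀ hx0 h3).trans_le h1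
    · have h3 : rr y < (2 : ℝ) ^ (max N1 N2) :=
        hN2.trans_le (pow_le_pow_right₀ (by norm_num) (le_max_right _ _))
      rw [zpow_natCast]
      exact h2.trans_lt h3
  · refine ⟨0, fun z hz => ?_⟩
    exact absurd ⟨z, subset_tsupport _ hz⟩ hne

theorem ExtA_bounded {G : Type*} [NormedAddCommGroup G] {A : C3 → G} (hA : Continuous A)
    (hc : HasCompactSupport A) : ∃ M : ℝ, 0 ≤ M ∧ ∀ z, ‖A z‖ ≤ M := by
  obtain ⟨M, hM⟩ := hc.exists_bound_of_continuous hA
  exact ⟨M, (norm_nonneg _).trans (hM 0), hM⟩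

theorem ExtA_shell_zero {G : Type*} [NormedAddCommGroup G] {A : C3 → G} {N : ℕ}
    (hN : ∀ z : C3, A z ≠ 0 → (2 : ℝ) ^ (-(N : ℤ)) < rr z ∧ rr z < (2 : ℝ) ^ (N : ℤ))
    {z : C3} (hz : z ∈ S) {k : ℤ} (hk : k ∉ Finset.Icc (-(N : ℤ) - 1) N) :
    A (((2 : ℂ) ^ k) • z) = 0 := by
  by_contra hne
  obtain ⟨h1, h2⟩ := hN _ hne
  have h3 := (ExtA_smul_mem_shell k z).2 hz
  obtain ⟨h4, h5⟩ := h3
  have h6 : k < N := by
    have := h4.trans_lt h2
    exact (zpow_lt_zpow_iff_right₀ (by norm_num)).1 this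
  have h7 : -(N : ℤ) < k + 1 := by
    have := h1.trans h5
    exact (zpow_lt_zpow_iff_right₀ (by norm_num)).1 this
  apply hk
  rw [Finset.mem_Icc]
  constructor <;> omega

theorem ExtA_aux {G : Type*} [NormedAddCommGroup G] [NormedSpace ℂ G]
    {A : C3 → (Fm m →L[ℂ] G)} (hA : Continuous A) (hc : HasCompactSupport A)
    (h0 : (0 : C3) ∉ tsupport A) (q : ℕ) :
    ∃ C : ℝ, 0 ≤ C ∧ ∀ u : C3 → Fm m, AEStronglyMeasurable u μS →
      ∫⁻ z, ‖A z (ext q u z)‖ₑ ^ 2 ≤ ENNReal.ofReal C * ∫⁻ z, ‖u z‖ₑ ^ 2 ∂μS := by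
  obtain ⟨N, hN⟩ := ExtA_annulus hc h0
  obtain ⟨M, hM0, hM⟩ := ExtA_bounded hA hc
  let K := Finset.Icc (-(N : ℤ) - 1) N
  let c : ℤ → ℝ := fun k => (2 : ℝ) ^ (6 * k) * (M * (8 * (2 : ℝ) ^ (-((min q 3 : ℕ) : ℤ) * k))) ^ 2
  have hc0 : ∀ k, 0 ≤ c k := fun k => by positivity
  refine ⟨∑ k ∈ K, c k, Finset.sum_nonneg fun k _ => hc0 k, fun u hu => ?_⟩
  have hmeas : AEStronglyMeasurable (fun z => A z (ext q u z)) volume :=
    (ContinuousLinearMap.apply ℂ G).aestronglyMeasurable_comp₂ (ext_aesm hu q)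
      hA.aestronglyMeasurable
  rw [lintegral_shells (hmeas.enorm.pow_const 2)]
  have hz : ∀ k ∉ K, ENNReal.ofReal ((2 : ℝ) ^ (6 * k)) *
      ∫⁻ z in S, ‖A (((2 : ℂ) ^ k) • z) (ext q u (((2 : ℂ) ^ k) • z))‖ₑ ^ 2 = 0 := by
    intro k hk
    have : ∫⁻ z in S, ‖A (((2 : ℂ) ^ k) • z) (ext q u (((2 : ℂ) ^ k) • z))‖ₑ ^ 2 = 0 := by
      rw [setLIntegral_congr_fun measurableSet_S (g := fun _ => 0) ?_]
      · simp
      · intro z hz
        simp only
        rw [ExtA_shell_zero hN hz hk]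
        simp
    rw [this, mul_zero]
  rw [tsum_eq_sum hz, ENNReal.ofReal_sum_of_nonneg (fun k _ => hc0 k), Finset.sum_mul]
  apply Finset.sum_le_sum
  intro k _
  have hb : ∫⁻ z in S, ‖A (((2 : ℂ) ^ k) • z) (ext q u (((2 : ℂ) ^ k) • z))‖ₑ ^ 2 ≤
      ∫⁻ z in S, ENNReal.ofReal ((M * (8 * (2 : ℝ) ^ (-((min q 3 : ℕ) : ℤ) * k))) ^ 2) *
        ‖u z‖ₑ ^ 2 := by
    apply setLIntegral_mono' measurableSet_S
    intro z hz
    have h1 : ‖A (((2 : ℂ) ^ k) • z) (ext q u (((2 : ℂ) ^ k) • z))‖ ≤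
        (M * (8 * (2 : ℝ) ^ (-((min q 3 : ℕ) : ℤ) * k))) * ‖u z‖ := by
      calc _ ≤ ‖A (((2 : ℂ) ^ k) • z)‖ * ‖ext q u (((2 : ℂ) ^ k) • z)‖ :=
            ContinuousLinearMap.le_opNorm _ _
        _ ≤ M * ((8 * (2 : ℝ) ^ (-((min q 3 : ℕ) : ℤ) * k)) * ‖u z‖) := by
            gcongr
            · exact hM _
            · exact ExtA_norm_ext_le u hz k q
        _ = _ := by ring
    have h2 : ‖A (((2 : ℂ) ^ k) • z) (ext q u (((2 : ℂ) ^ k) • z))‖ₑ ≤
        ENNReal.ofReal (M * (8 * (2 : ℝ) ^ (-((min q 3 : ℕ) : ℤ) * k))) * ‖u z‖ₑ := by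
      rw [← ofReal_norm, ← ofReal_norm, ← ENNReal.ofReal_mul (by positivity)]
      exact ENNReal.ofReal_le_ofReal h1
    calc _ ≤ (ENNReal.ofReal (M * (8 * (2 : ℝ) ^ (-((min q 3 : ℕ) : ℤ) * k))) * ‖u z‖ₑ) ^ 2 := by
          gcongr
      _ = _ := by
          rw [mul_pow, ENNReal.ofReal_pow (by positivity)]
  calc _ ≤ ENNReal.ofReal ((2 : ℝ) ^ (6 * k)) *
        ∫⁻ z in S, ENNReal.ofReal ((M * (8 * (2 : ℝ) ^ (-((min q 3 : ℕ) : ℤ) * k))) ^ 2) *
        ‖u z‖ₑ ^ 2 := by gcongr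
    _ = _ := by
      rw [lintegral_const_mul' _ _ ENNReal.ofReal_ne_top, ← mul_assoc,
        ← ENNReal.ofReal_mul (by positivity)]
      rfl

theorem ExtA_lintegral_sq {μ : Measure C3} {G : Type*} [NormedAddCommGroup G] {f : C3 → G}
    (hf : MemLp f 2 μ) : ∫⁻ z, ‖f z‖ₑ ^ 2 ∂μ = ENNReal.ofReal (∫ z, ‖f z‖ ^ 2 ∂μ) := by
  rw [ofReal_integral_eq_lintegral_ofReal ((memLp_two_iff_integrable_sq_norm hf.1).1 hf)
    (Eventually.of_forall fun z => by positivity)]
  congr 1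
  funext z
  rw [← ofReal_norm, ENNReal.ofReal_pow (norm_nonneg _)]

theorem ExtA_memLp_of_lintegral {μ : Measure C3} {G : Type*} [NormedAddCommGroup G] {f : C3 → G}
    (hf : AEStronglyMeasurable f μ) (h : ∫⁻ z, ‖f z‖ₑ ^ 2 ∂μ < ⊤) : MemLp f 2 μ := by
  rw [memLp_two_iff_integrable_sq_norm hf]
  refine ⟨(hf.norm.pow 2), ?_⟩
  rw [hasFiniteIntegral_iff_enorm]
  refine lt_of_le_of_lt (le_of_eq ?_) h
  congr 1
  funext z
  rw [enorm_pow, enorm_norm]

theorem ExtA_norm_sq (u : Lp (Fm m) 2 μS) :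
    ∫⁻ z, ‖u z‖ₑ ^ 2 ∂μS = ENNReal.ofReal (‖u‖ ^ 2) := by
  rw [ExtA_lintegral_sq (Lp.memLp u)]
  congr 1
  have := (InnerProductSpace.norm_sq_eq_re_inner (𝕜 := ℂ) u)
  rw [this, L2.inner_def, ← integral_re]
  · congr 1
    funext z
    rw [← InnerProductSpace.norm_sq_eq_re_inner]
  · exact L2.integrable_inner u u

/-- `L²` bound for a localized extension. -/
theorem ext_bound {G : Type*} [NormedAddCommGroup G] [NormedSpace ℂ G]
    {A : C3 → (Fm m →L[ℂ] G)} (hA : Continuous A) (hc : HasCompactSupport A)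
    (h0 : (0 : C3) ∉ tsupport A) (q : ℕ) :
    ∃ C : ℝ, 0 ≤ C ∧ ∀ u : Lp (Fm m) 2 μS,
      MemLp (fun z => A z (ext q u z)) 2 volume ∧
      ∫ z, ‖A z (ext q u z)‖ ^ 2 ≤ C * ‖u‖ ^ 2 := by
  obtain ⟨C, hC0, hC⟩ := ExtA_aux hA hc h0 q
  refine ⟨C, hC0, fun u => ?_⟩
  have h1 := hC u (Lp.aestronglyMeasurable u)
  have hmeas : AEStronglyMeasurable (fun z => A z (ext q u z)) volume :=
    (ContinuousLinearMap.apply ℂ G).aestronglyMeasurable_comp₂
      (ext_aesm (Lp.aestronglyMeasurable u) q) hA.aestronglyMeasurable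
  rw [ExtA_norm_sq, ← ENNReal.ofReal_mul hC0] at h1
  have hM : MemLp (fun z => A z (ext q u z)) 2 volume :=
    ExtA_memLp_of_lintegral hmeas (h1.trans_lt ENNReal.ofReal_lt_top)
  refine ⟨hM, ?_⟩
  rw [ExtA_lintegral_sq hM] at h1
  exact (ENNReal.ofReal_le_ofReal_iff (by positivity)).1 h1

/-- The pairing with a continuous compactly supported dual-valued function is a continuous
linear functional on `L²(S)`. -/
theorem ext_pairing {A : C3 → (Fm m →L[ℂ] ℂ)} (hA : Continuous A) (hc : HasCompactSupport A)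
    (h0 : (0 : C3) ∉ tsupport A) (q : ℕ) :
    (∀ u : Lp (Fm m) 2 μS, Integrable (fun z => A z (ext q u z))) ∧
    ∃ ℓ : Lp (Fm m) 2 μS →L[ℂ] ℂ, ∀ u : Lp (Fm m) 2 μS, ℓ u = ∫ z, A z (ext q u z) := by
  obtain ⟨C, hC0, hC⟩ := ext_bound hA hc h0 q
  have hK : MeasurableSet (tsupport A) := (isClosed_tsupport A).measurableSet
  have hKfin : (volume : Measure C3) (tsupport A) < ⊤ := hc.isCompact.measure_lt_top
  have hsupp : ∀ u : Lp (Fm m) 2 μS, Function.support (fun z => A z (ext q u z)) ⊆ tsupport A := by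
    intro u z hz
    apply subset_tsupport
    intro h
    apply hz
    simp [h]
  have hint : ∀ u : Lp (Fm m) 2 μS, Integrable (fun z => A z (ext q u z)) := by
    intro u
    rw [← integrableOn_iff_integrable_of_support_subset (hsupp u)]
    have : IsFiniteMeasure ((volume : Measure C3).restrict (tsupport A)) :=
      ⟨by rw [Measure.restrict_apply_univ]; exact hKfin⟩
    exact ((hC u).1.restrict _).integrable (by norm_num)
  refine ⟨hint, ?_⟩
  let L : Lp (Fm m) 2 μS →ₗ[ℂ] ℂ :=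
    { toFun := fun u => ∫ z, A z (ext q u z)
      map_add' := fun u v => by
        rw [← integral_add (hint u) (hint v)]
        apply integral_congr_ae
        filter_upwards [ext_add q u v] with z hz
        rw [hz, map_add]
      map_smul' := fun c u => by
        rw [RingHom.id_apply, ← integral_smul]
        apply integral_congr_ae
        filter_upwards [ext_smul q c u] with z hz
        rw [hz, map_smul] }
  let V : ℝ := ((volume : Measure C3) (tsupport A)).toReal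
  have hb : ∀ u : Lp (Fm m) 2 μS, ‖L u‖ ≤ V + C * ‖u‖ ^ 2 := by
    intro u
    have h1 : ‖L u‖ ≤ ∫ z, ‖A z (ext q u z)‖ := norm_integral_le_integral_norm _
    have h2 : ∫ z, ‖A z (ext q u z)‖ ≤
        ∫ z, ((tsupport A).indicator (fun _ => (1 : ℝ)) z + ‖A z (ext q u z)‖ ^ 2) := by
      apply integral_mono (hint u).norm
      · apply Integrable.add
        · rw [integrable_indicator_iff hK]
          exact integrableOn_const hKfin.ne
        · exact (memLp_two_iff_integrable_sq_norm (hC u).1.1).1 (hC u).1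
      · intro z
        simp only
        by_cases hz : z ∈ tsupport A
        · rw [Set.indicator_of_mem hz]
          nlinarith [sq_nonneg (‖A z (ext q u z)‖ - 1), sq_nonneg ‖A z (ext q u z)‖]
        · have : A z (ext q u z) = 0 := by
            by_contra h
            exact hz (hsupp u h)
          rw [Set.indicator_of_notMem hz, this]
          simp
    have h3 : ∫ z, ((tsupport A).indicator (fun _ => (1 : ℝ)) z + ‖A z (ext q u z)‖ ^ 2) =
        V + ∫ z, ‖A z (ext q u z)‖ ^ 2 := by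
      rw [integral_add]
      · congr 1
        rw [integral_indicator hK]
        simp [V, Measure.real]
      · rw [integrable_indicator_iff hK]
        exact integrableOn_const hKfin.ne
      · exact (memLp_two_iff_integrable_sq_norm (hC u).1.1).1 (hC u).1
    have h4 := (hC u).2
    linarith
  have hb2 : ∀ u : Lp (Fm m) 2 μS, ‖L u‖ ≤ (V + C) * ‖u‖ := by
    intro u
    by_cases hu : u = 0
    · subst hu
      simp
    · have hu0 : 0 < ‖u‖ := norm_pos_iff.2 hu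
      have h1 := hb ((((‖u‖⁻¹ : ℝ) : ℂ)) • u)
      have h2 : ‖(((‖u‖⁻¹ : ℝ) : ℂ)) • u‖ = 1 := by
        rw [norm_smul, Complex.norm_real, norm_inv, norm_norm, inv_mul_cancel₀ hu0.ne']
      rw [h2, map_smul, norm_smul, Complex.norm_real, norm_inv, norm_norm, one_pow, mul_one,
        ← div_eq_inv_mul, div_le_iff₀ hu0] at h1
      exact h1
  exact ⟨L.mkContinuous (V + C) hb2, fun u => rfl⟩

/-- Every `L²` function of weight `-q` is of the form `ext q u`. -/
theorem exists_mk {q : ℕ} (hq : q ≤ 3) {U : C3 → Fm m} (_h1 : AEStronglyMeasurable U volume)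
    (h2 : ∀ᵐ z : C3, U ((2 : ℂ) • z) = ((2 : ℂ) ^ (-(q : ℤ))) • U z) (h3 : MemLp U 2 μS) :
    ∃ u : Lp (Fm m) 2 μS, ext q u =ᵐ[volume] U ∧
      ∀ P : C3 → (Fm m →L[ℂ] Fm m), (∀ᵐ z : C3, P z (U z) = U z) → u ∈ HP P := by
  have hc : ∀ z ∈ S, ‖((rr z : ℂ) ^ (3 - q))⁻¹‖ ≤ 1 := by
    intro z hz
    rw [norm_inv, norm_pow, Complex.norm_real, Real.norm_eq_abs,
      abs_of_nonneg (by linarith [hz.1])]
    exact inv_le_one_of_one_le₀ (one_le_pow₀ hz.1)
  have hm : Measurable (fun z : C3 => ((rr z : ℂ) ^ (3 - q))⁻¹) :=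
    ((Complex.measurable_ofReal.comp ExtA_continuous_rr.measurable).pow_const _).inv
  have hmem : MemLp (fun z : C3 => ((rr z : ℂ) ^ (3 - q))⁻¹ • U z) 2 μS := by
    refine MemLp.mono h3 (hm.aestronglyMeasurable.smul h3.1) ?_
    refine (ae_restrict_iff' measurableSet_S).2 (Eventually.of_forall fun z hz => ?_)
    rw [norm_smul]
    exact mul_le_of_le_one_left (norm_nonneg _) (hc z hz)
  have hall : ∀ᵐ z : C3, ∀ k : ℤ, U (((2 : ℂ) ^ k) • z) = ((2 : ℂ) ^ (-(q : ℤ) * k)) • U z := by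
    have h4 : ∀ᵐ z : C3, ∀ k : ℤ, U ((2 : ℂ) • ((2 : ℂ) ^ k) • z) =
        ((2 : ℂ) ^ (-(q : ℤ))) • U (((2 : ℂ) ^ k) • z) :=
      ae_all_iff.2 fun k => ExtA_quasi k h2
    filter_upwards [h4] with z hz k
    induction k using Int.induction_on with
    | zero => simp
    | succ k ih =>
      have e : ((2 : ℂ) ^ ((k : ℤ) + 1)) • z = (2 : ℂ) • ((2 : ℂ) ^ (k : ℤ)) • z := by
        rw [smul_smul, zpow_add₀ (by norm_num), zpow_one, mul_comm]
      rw [e, hz, ih, smul_smul, ← zpow_add₀ (by norm_num)]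
      congr 2
      ring
    | pred k ih =>
      have e : ((2 : ℂ) ^ (-(k : ℤ))) • z = (2 : ℂ) • ((2 : ℂ) ^ (-(k : ℤ) - 1)) • z := by
        rw [smul_smul]
        nth_rewrite 2 [← zpow_one (2 : ℂ)]
        rw [← zpow_add₀ (by norm_num)]
        congr 2
        ring
      rw [e, hz] at ih
      have h5 : ((2 : ℂ) ^ (q : ℤ)) • ((2 : ℂ) ^ (-(q : ℤ))) • U (((2 : ℂ) ^ (-(k : ℤ) - 1)) • z) =
          ((2 : ℂ) ^ (q : ℤ)) • ((2 : ℂ) ^ (-(q : ℤ) * -(k : ℤ))) • U z := by rw [ih]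
      rw [smul_smul, smul_smul, ← zpow_add₀ (by norm_num), ← zpow_add₀ (by norm_num),
        add_neg_cancel, zpow_zero, one_smul] at h5
      rw [h5]
      congr 2
      ring
  refine ⟨hmem.toLp _, ?_, ?_⟩
  · refine (ext_congr hmem.coeFn_toLp q).trans ?_
    filter_upwards [hall, ExtA_ae_ne_zero] with z hz hz0
    have h6 := hz (-(idx z))
    have h7 : U (base z) = ((2 : ℂ) ^ (-(q : ℤ) * -(idx z))) • U z := h6
    have h8 : rr (base z) = (2 : ℝ) ^ (-(idx z)) * rr z := by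
      unfold base
      rw [rr_smul, ExtA_norm_zpow]
    have h9 : (rr z : ℂ) ≠ 0 := by
      exact_mod_cast (rr_pos hz0).ne'
    unfold ext tl
    simp only
    rw [h7, h8]
    simp only [smul_smul]
    have : (rr z : ℂ) ^ (3 - q) * ((2 : ℂ) ^ (-3 * idx z) *
        ((((((2 : ℝ) ^ (-(idx z)) * rr z : ℝ) : ℂ)) ^ (3 - q))⁻¹ *
          (2 : ℂ) ^ (-(q : ℤ) * -(idx z)))) = 1 := by
      push_cast
      rw [mul_pow, mul_inv, ← zpow_natCast ((2 : ℂ) ^ (-(idx z))), ← zpow_mul, ← zpow_neg]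
      have e3 : (2 : ℂ) ^ (-3 * idx z) * ((2 : ℂ) ^ (-(-(idx z) * ((3 - q : ℕ) : ℤ))) *
          (2 : ℂ) ^ (-(q : ℤ) * -(idx z))) = 1 := by
        rw [← zpow_add₀ (by norm_num : (2 : ℂ) ≠ 0), ← zpow_add₀ (by norm_num : (2 : ℂ) ≠ 0)]
        have : -3 * idx z + (-(-(idx z) * ((3 - q : ℕ) : ℤ)) + -(q : ℤ) * -(idx z)) = 0 := by
          push_cast [Nat.cast_sub hq]
          ring
        rw [this, zpow_zero]
      have e4 : (rr z : ℂ) ^ (3 - q) * ((rr z : ℂ) ^ (3 - q))⁻¹ = 1 :=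
        mul_inv_cancel₀ (pow_ne_zero _ h9)
      calc _ = ((rr z : ℂ) ^ (3 - q) * ((rr z : ℂ) ^ (3 - q))⁻¹) *
          ((2 : ℂ) ^ (-3 * idx z) * ((2 : ℂ) ^ (-(-(idx z) * ((3 - q : ℕ) : ℤ))) *
          (2 : ℂ) ^ (-(q : ℤ) * -(idx z)))) := by ring
        _ = 1 := by rw [e3, e4, one_mul]
    rw [this, one_smul]
  · intro P hP
    have h10 : ∀ᵐ z ∂μS, P z (U z) = U z := ae_restrict_of_ae hP
    show ∀ᵐ z ∂μS, P z ((hmem.toLp _ : Lp (Fm m) 2 μS) z) = (hmem.toLp _ : Lp (Fm m) 2 μS) z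
    filter_upwards [h10, hmem.coeFn_toLp] with z h11 h12
    rw [h12, map_smul, h11]

/-- Conversely, `ext q u` is square integrable on the shell. -/
theorem ext_memLp (q : ℕ) (u : Lp (Fm m) 2 μS) : MemLp (ext q u) 2 μS := by
  have h : MemLp (fun z => (8 : ℝ) • u z) 2 μS := (Lp.memLp u).const_smul (8 : ℝ)
  refine MemLp.mono h (ext_aesm (Lp.aestronglyMeasurable u) q).restrict ?_
  refine (ae_restrict_iff' measurableSet_S).2 (Eventually.of_forall fun z hz => ?_)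
  have := ExtA_norm_ext_le (u : C3 → Fm m) hz 0 q
  simp only [zpow_zero, one_smul, mul_zero, mul_one] at this
  rw [norm_smul, Real.norm_eq_abs, abs_of_pos (by norm_num)]
  exact this

end

end Pool.Agent.HopfEmb
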