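import Pool.Agent.Lib.MP_d404b9_ag.ExtA

/-!
# JOB EXT-B: unfolding, localization, multiplication by `η` on `L²(S)`

All statements follow from `lintegral_shells`, `ext_bound`, `exists_mk` and pointwise formulas in
`ExtA.lean`.
-/

set_option autoImplicit false

open MeasureTheory Complex Filter Topology
open scoped ContDiff ComplexConjugate ENNReal Pointwise

namespace Pool.Agent.HopfEmb

noncomputable section

variable {m : ℕ}

private theorem continuous_R2 : Continuous R2 := by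
  unfold R2
  fun_prop

private theorem continuous_rr : Continuous rr := by
  unfold rr
  exact continuous_R2.sqrt

private theorem R2_nonneg (z : C3) : 0 ≤ R2 z := by
  unfold R2
  positivity

private theorem rr_sq (z : C3) : rr z ^ 2 = R2 z := Real.sq_sqrt (R2_nonneg z)

private theorem rr_nonneg (z : C3) : 0 ≤ rr z := Real.sqrt_nonneg _

private theorem ne_zero_of_mem_S {z : C3} (hz : z ∈ S) : z ≠ 0 := by
  intro h
  have := hz.1
  rw [h] at this
  simp [rr, R2] at this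
  norm_num at this

private theorem base_eq (z : C3) : ((2 : ℂ) ^ (idx z)) • base z = z := by
  unfold base
  rw [smul_smul, ← zpow_add₀ (by norm_num : (2:ℂ) ≠ 0)]
  simp

private theorem idx_of_mem_S {z : C3} (hz : z ∈ S) : idx z = 0 := by
  have h := idx_smul (ne_zero_of_mem_S hz) 0
  unfold idx
  have h1 := hz.1
  have h2 := hz.2
  rw [Int.log_of_one_le_right _ h1]
  have : ⌊rr z⌋₊ = 1 := by
    rw [Nat.floor_eq_iff (by linarith)]
    constructor
    · simpa using h1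
    · push_cast
      linarith
  rw [this]
  simp

private theorem ae_ne_zero : ∀ᵐ z : C3, z ≠ 0 := by
  rw [ae_iff]
  simp

private theorem normsq_Lp {ν : Measure C3} (f : Lp (Fm m) 2 ν) :
    ‖f‖ ^ 2 = ∫ z, ‖f z‖ ^ 2 ∂ν := by
  have h := @inner_self_eq_norm_sq_to_K ℂ (Lp (Fm m) 2 ν) _ _ _ f
  rw [L2.inner_def] at h
  simp_rw [inner_self_eq_norm_sq_to_K] at h
  have h2 : ((∫ z, ‖f z‖ ^ 2 ∂ν : ℝ) : ℂ) = ((‖f‖ ^ 2 : ℝ) : ℂ) := by
    rw [← integral_complex_ofReal]
    push_cast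
    exact h
  exact_mod_cast h2.symm

/-- Construction of continuous linear maps between `L²` spaces. -/
private theorem exists_clm {μ ν : Measure C3} (T : Lp (Fm m) 2 μ → C3 → Fm m)
    (hmem : ∀ u, MemLp (T u) 2 ν)
    (hadd : ∀ u v, T (u + v) =ᵐ[ν] fun z => T u z + T v z)
    (hsmul : ∀ (c : ℂ) u, T (c • u) =ᵐ[ν] fun z => c • T u z)
    {C : ℝ} (hC0 : 0 ≤ C) (hC : ∀ u, ∫ z, ‖T u z‖ ^ 2 ∂ν ≤ C * ‖u‖ ^ 2) :
    ∃ L : Lp (Fm m) 2 μ →L[ℂ] Lp (Fm m) 2 ν, ∀ u, ⇑(L u) =ᵐ[ν] T u := by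
  let L0 : Lp (Fm m) 2 μ →ₗ[ℂ] Lp (Fm m) 2 ν :=
    { toFun := fun u => (hmem u).toLp
      map_add' := by
        intro u v
        apply Lp.ext
        filter_upwards [(hmem (u + v)).coeFn_toLp, (hmem u).coeFn_toLp, (hmem v).coeFn_toLp,
          hadd u v, Lp.coeFn_add (hmem u).toLp (hmem v).toLp] with z h1 h2 h3 h4 h5
        rw [h1, h5, Pi.add_apply, h2, h3, h4]
      map_smul' := by
        intro c u
        apply Lp.ext
        filter_upwards [(hmem (c • u)).coeFn_toLp, (hmem u).coeFn_toLp,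
          hsmul c u, Lp.coeFn_smul c (hmem u).toLp] with z h1 h2 h4 h5
        rw [h1, RingHom.id_apply, h5, Pi.smul_apply, h2, h4] }
  refine ⟨L0.mkContinuous (Real.sqrt C) ?_, fun u => (hmem u).coeFn_toLp⟩
  intro u
  have h1 : ‖L0 u‖ ^ 2 ≤ C * ‖u‖ ^ 2 := by
    rw [normsq_Lp]
    refine le_trans (le_of_eq ?_) (hC u)
    apply integral_congr_ae
    filter_upwards [(hmem u).coeFn_toLp] with z h1
    change ‖((hmem u).toLp : C3 → Fm m) z‖ ^ 2 = _
    rw [h1]
  have h2 : C * ‖u‖ ^ 2 = (Real.sqrt C * ‖u‖) ^ 2 := by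
    rw [mul_pow, Real.sq_sqrt hC0]
  rw [h2] at h1
  exact le_of_sq_le_sq h1 (by positivity)


private theorem exists_K {G : Type*} [NormedAddCommGroup G] {Φ : C3 → G}
    (hc : HasCompactSupport Φ) (h0 : (0 : C3) ∉ tsupport Φ) :
    ∃ K : Finset ℤ, ∀ z : C3, z ≠ 0 → idx z ∉ K → Φ z = 0 := by
  rcases (tsupport Φ).eq_empty_or_nonempty with he | hne
  · refine ⟨∅, fun z _ _ => ?_⟩
    by_contra h
    have : z ∈ tsupport Φ := subset_tsupport _ h
    rw [he] at this
    exact this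
  · obtain ⟨a, ha, hmin⟩ := hc.exists_isMinOn hne continuous_rr.continuousOn
    obtain ⟨b, hb, hmax⟩ := hc.exists_isMaxOn hne continuous_rr.continuousOn
    have ha0 : a ≠ 0 := fun h => h0 (h ▸ ha)
    refine ⟨Finset.Icc (Int.log 2 (rr a)) (Int.log 2 (rr b)), fun z hz hk => ?_⟩
    by_contra h
    have hzs : z ∈ tsupport Φ := subset_tsupport _ h
    apply hk
    rw [Finset.mem_Icc]
    exact ⟨Int.log_mono_right (rr_pos ha0) (hmin hzs), Int.log_mono_right (rr_pos hz) (hmax hzs)⟩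

/-- The shell `2^k S`. -/
private def TT (k : ℤ) : Set C3 := {z | z ≠ 0 ∧ idx z = k}

private theorem smul_coe (k : ℤ) (z : C3) : ((2 : ℝ) ^ k) • z = ((2 : ℂ) ^ k) • z := by
  ext i
  simp

private theorem TT_eq (k : ℤ) : ((2 : ℝ) ^ k) • S = TT k := by
  ext z
  rw [Set.mem_smul_set]
  constructor
  · rintro ⟨y, hy, rfl⟩
    have hy0 := ne_zero_of_mem_S hy
    rw [smul_coe]
    refine ⟨smul_ne_zero (zpow_ne_zero _ (by norm_num)) hy0, ?_⟩
    rw [idx_smul hy0, idx_of_mem_S hy, zero_add]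
  · rintro ⟨h0, rfl⟩
    exact ⟨base z, base_mem_S h0, by rw [smul_coe, base_eq z]⟩

private theorem TT_meas (k : ℤ) : MeasurableSet (TT k) := by
  rw [← TT_eq]
  exact measurableSet_S.const_smul₀ _

private theorem TT_disj (t : Set ℤ) : t.Pairwise (Function.onFun Disjoint TT) := by
  intro i _ j _ hij
  rw [Function.onFun, Set.disjoint_left]
  rintro z ⟨_, h1⟩ ⟨_, h2⟩
  exact hij (h1.symm.trans h2)

private theorem integral_TT {G : Type*} [NormedAddCommGroup G] [NormedSpace ℝ G]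
    (W : C3 → G) (k : ℤ) :
    ∫ z in TT k, W z = ((2 : ℝ) ^ (6 * k)) • ∫ z in S, W (((2 : ℂ) ^ k) • z) := by
  have h2 : (0 : ℝ) < (2 : ℝ) ^ k := by positivity
  have h := Measure.setIntegral_comp_smul_of_pos (volume : Measure C3) W S h2
  simp_rw [smul_coe] at h
  rw [h, TT_eq, smul_smul]
  have hf : Module.finrank ℝ C3 = 6 := by
    have := Module.finrank_pi_fintype ℝ (M := fun _ : Fin 3 => ℂ)
    rw [this]
    simp
  rw [hf, ← zpow_natCast, ← zpow_mul, ← zpow_neg, ← zpow_add₀ (by norm_num)]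
  have : 6 * k + -(k * ((6 : ℕ) : ℤ)) = 0 := by push_cast; ring
  rw [this]
  simp

private theorem integral_shells {G : Type*} [NormedAddCommGroup G] [NormedSpace ℝ G]
    {W : C3 → G} (hW : Integrable W) {K : Finset ℤ}
    (hK : ∀ z : C3, z ≠ 0 → idx z ∉ K → W z = 0) (hW0 : W 0 = 0) :
    ∫ z, W z = ∫ z in S, ∑ k ∈ K, ((2 : ℝ) ^ (6 * k)) • W (((2 : ℂ) ^ k) • z) := by
  have h1 : ∫ z, W z = ∫ z in ⋃ k ∈ K, TT k, W z := by
    symm
    apply setIntegral_eq_integral_of_forall_compl_eq_zero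
    intro z hz
    by_cases h0 : z = 0
    · rw [h0, hW0]
    · apply hK z h0
      intro hk
      apply hz
      exact Set.mem_biUnion hk ⟨h0, rfl⟩
  rw [h1, integral_biUnion_finset K (fun i _ => TT_meas i) (TT_disj _)
    (fun i _ => hW.integrableOn)]
  rw [integral_finsetSum]
  · apply Finset.sum_congr rfl
    intro k _
    rw [integral_TT, integral_smul]
  · intro k _
    apply Integrable.smul
    have := (integrable_comp_smul_iff (volume : Measure C3) W
      (zpow_ne_zero k (by norm_num : (2:ℝ) ≠ 0))).mpr hW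
    simp_rw [smul_coe] at this
    exact this.integrableOn


private theorem scale_zpow {G : Type*} [AddCommGroup G] [Module ℂ G] {F : C3 → G} {a : ℤ}
    (h : ∀ z : C3, z ≠ 0 → F ((2 : ℂ) • z) = ((2 : ℂ) ^ a) • F z) (k : ℤ) {z : C3} (hz : z ≠ 0) :
    F (((2 : ℂ) ^ k) • z) = ((2 : ℂ) ^ (a * k)) • F z := by
  have h2 : (2 : ℂ) ≠ 0 := by norm_num
  induction k using Int.induction_on with
  | zero => simp
  | succ i ih =>
    have hne : ((2 : ℂ) ^ (i : ℤ)) • z ≠ 0 := smul_ne_zero (zpow_ne_zero _ h2) hz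
    have e1 : ((2 : ℂ) ^ ((i : ℤ) + 1)) • z = (2 : ℂ) • ((2 : ℂ) ^ (i : ℤ)) • z := by
      rw [smul_smul, zpow_add_one₀ h2, mul_comm]
    rw [e1, h _ hne, ih, smul_smul, ← zpow_add₀ h2]
    congr 2
    ring
  | pred i ih =>
    have hne : ((2 : ℂ) ^ (-(i : ℤ) - 1)) • z ≠ 0 := smul_ne_zero (zpow_ne_zero _ h2) hz
    have e1 : ((2 : ℂ) ^ (-(i : ℤ))) • z = (2 : ℂ) • ((2 : ℂ) ^ (-(i : ℤ) - 1)) • z := by
      rw [smul_smul, ← zpow_one_add₀ h2]
      congr 2
      ring
    rw [e1, h _ hne] at ih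
    have e2 := congrArg (fun x => ((2 : ℂ) ^ (-a)) • x) ih
    simp only [smul_smul] at e2
    rw [← zpow_add₀ h2, ← zpow_add₀ h2] at e2
    simp only [neg_add_cancel, zpow_zero, one_smul] at e2
    rw [e2]
    congr 2
    ring

private theorem Per_of_mem_S {G : Type*} [NormedAddCommGroup G] [NormedSpace ℂ G] {Φ : C3 → G}
    {K : Finset ℤ} (hK : ∀ z : C3, z ≠ 0 → idx z ∉ K → Φ z = 0) (w : ℤ) {z : C3} (hz : z ∈ S) :
    Per w Φ z = ∑ k ∈ K, ((2 : ℂ) ^ (w * k)) • Φ (((2 : ℂ) ^ k) • z) := by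
  unfold Per
  apply tsum_eq_sum
  intro k hk
  have hz0 := ne_zero_of_mem_S hz
  rw [hK _ (smul_ne_zero (zpow_ne_zero _ (by norm_num)) hz0), smul_zero]
  rwa [idx_smul hz0, idx_of_mem_S hz, zero_add]

private theorem continuous_of_away {G G' : Type*} [NormedAddCommGroup G]
    [NormedAddCommGroup G'] {A : C3 → G} {Φ : C3 → G'}
    (h0 : (0 : C3) ∉ tsupport Φ) (hA : ∀ z : C3, z ≠ 0 → ContinuousAt A z)
    (hz : ∀ z, Φ z = 0 → A z = 0) : Continuous A := by
  have hs : Function.support A ⊆ Function.support Φ := by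
    intro z h h'
    exact h (hz z h')
  have ht : tsupport A ⊆ tsupport Φ := closure_mono hs
  apply continuous_of_tsupport
  intro z hz
  apply hA
  rintro rfl
  exact h0 (ht hz)

private theorem rr_zpow_smul (k : ℤ) (z : C3) : rr (((2 : ℂ) ^ k) • z) = (2 : ℝ) ^ k * rr z := by
  rw [rr_smul]
  simp

/-- Unfolding: pairing with a periodization. -/
theorem unfold_inner {q : ℕ} (hq : q ≤ 3) {Φ : C3 → Fm m} (hΦ : Continuous Φ)
    (hc : HasCompactSupport Φ) (h0 : (0 : C3) ∉ tsupport Φ) {v : Lp (Fm m) 2 μS}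
    (hv : ext q v =ᵐ[volume] Per (q : ℤ) Φ) (u : Lp (Fm m) 2 μS) :
    inner ℂ v u = ∫ z, ((rr z : ℂ) ^ (2 * (q : ℤ) - 6)) * inner ℂ (Φ z) (ext q u z) := by
  obtain ⟨K, hK⟩ := exists_K hc h0
  -- the functional
  let A : C3 → (Fm m →L[ℂ] ℂ) := fun z => ((rr z : ℂ) ^ (2 * (q : ℤ) - 6)) • innerSL ℂ (Φ z)
  have hAcont : Continuous A := by
    refine continuous_of_away (Φ := fun z => innerSL ℂ (Φ z)) ?_ ?_ ?_
    · intro h
      apply h0
      refine closure_mono ?_ h
      intro z hz hz'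
      apply hz
      simp [hz']
    · intro z hz
      refine ContinuousAt.smul (f := fun z : C3 => ((rr z : ℂ) ^ (2 * (q : ℤ) - 6))) ?_ ?_
      · apply ContinuousAt.zpow₀
        · exact (Complex.continuous_ofReal.comp continuous_rr).continuousAt
        · left
          exact_mod_cast (rr_pos hz).ne'
      · exact ((innerSL ℂ).continuous.comp hΦ).continuousAt
    · intro z hz
      simp only [A, hz]
      ext v
      simp
  have hsupp : Function.support A ⊆ Function.support Φ := by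
    intro z hz hz'
    apply hz
    simp only [A, hz', map_zero]
    ext v
    simp
  have hAc : HasCompactSupport A := by
    exact HasCompactSupport.mono hc hsupp
  have hA0 : (0 : C3) ∉ tsupport A := fun h => h0 (closure_mono hsupp h)
  have hint := (ext_pairing hAcont hAc hA0 q).1 u
  have hAe : ∀ z, A z (ext q u z) =
      ((rr z : ℂ) ^ (2 * (q : ℤ) - 6)) * inner ℂ (Φ z) (ext q u z) := by
    intro z
    simp [A]
  simp_rw [hAe] at hint
  have hΦ0 : Φ 0 = 0 := by
    by_contra h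
    exact h0 (subset_tsupport _ h)
  rw [integral_shells hint (K := K) (by
    intro z hz hk
    rw [hK z hz hk]
    simp) (by rw [hΦ0]; simp)]
  rw [L2.inner_def]
  apply integral_congr_ae
  have hv' : ∀ᵐ z ∂μS, ext q v z = Per (q : ℤ) Φ z := ae_restrict_of_ae hv
  filter_upwards [hv', ae_restrict_mem measurableSet_S] with z h1 hz
  have hz0 := ne_zero_of_mem_S hz
  have hr : (rr z : ℂ) ≠ 0 := by exact_mod_cast (rr_pos hz0).ne'
  rw [ext_of_mem_S hz, Per_of_mem_S hK _ hz] at h1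
  have hv1 : v z = ((rr z : ℂ) ^ (3 - q))⁻¹ •
      ∑ k ∈ K, ((2 : ℂ) ^ ((q : ℤ) * k)) • Φ (((2 : ℂ) ^ k) • z) := by
    rw [← h1, smul_smul, inv_mul_cancel₀ (pow_ne_zero _ hr), one_smul]
  have hu1 : u z = ((rr z : ℂ) ^ (3 - q))⁻¹ • ext q u z := by
    rw [ext_of_mem_S hz, smul_smul, inv_mul_cancel₀ (pow_ne_zero _ hr), one_smul]
  rw [hv1, inner_smul_left, sum_inner, hu1, Finset.mul_sum]
  apply Finset.sum_congr rfl
  intro k _
  rw [inner_smul_left, inner_smul_right, scale_zpow (fun z hz => ext_scale hq u hz) k hz0,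
    inner_smul_right, rr_zpow_smul]
  generalize inner ℂ (Φ (((2 : ℂ) ^ k) • z)) (ext q u z) = I
  have h2 : (2 : ℂ) ≠ 0 := by norm_num
  have e3 : ((rr z : ℂ) ^ (3 - q)) = (rr z : ℂ) ^ (3 - (q : ℤ)) := by
    rw [← zpow_natCast]
    congr 1
    omega
  rw [e3]
  simp only [map_inv₀, map_zpow₀, Complex.conj_ofReal, Complex.conj_ofNat]
  rw [Complex.real_smul]
  push_cast
  rw [mul_zpow, ← zpow_mul, ← zpow_neg]
  have e4 : (rr z : ℂ) ^ (2 * (q : ℤ) - 6) = (rr z : ℂ) ^ (-(3 - (q : ℤ))) *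
      (rr z : ℂ) ^ (-(3 - (q : ℤ))) := by
    rw [← zpow_add₀ hr]
    congr 1
    ring
  have e5 : (2 : ℂ) ^ ((q : ℤ) * k) = (2 : ℂ) ^ (6 * k) * (2 : ℂ) ^ (k * (2 * (q : ℤ) - 6)) *
      (2 : ℂ) ^ (-(q : ℤ) * k) := by
    rw [← zpow_add₀ h2, ← zpow_add₀ h2]
    congr 1
    ring
  rw [e4, e5]
  ring


private theorem norm_le_rr (z : C3) : ‖z‖ ≤ rr z := by
  rw [pi_norm_le_iff_of_nonneg (rr_nonneg z)]
  intro i
  unfold rr
  apply Real.le_sqrt_of_sq_le
  unfold R2
  exact Finset.single_le_sum (f := fun i => ‖z i‖ ^ 2) (fun i _ => by positivity)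
    (Finset.mem_univ i)

private instance finite_μS : IsFiniteMeasure μS := by
  constructor
  unfold μS
  rw [Measure.restrict_apply_univ]
  have h : S ⊆ Metric.closedBall (0 : C3) 2 := by
    intro z hz
    rw [mem_closedBall_zero_iff]
    exact (norm_le_rr z).trans hz.2.le
  exact lt_of_le_of_lt (measure_mono h) (isCompact_closedBall _ _).measure_lt_top

/-- Existence of the element of `L²(S)` given by a periodization. -/
theorem exists_per {q : ℕ} (hq : q ≤ 3) {Φ : C3 → Fm m} (hΦ : Continuous Φ)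
    (hc : HasCompactSupport Φ) (h0 : (0 : C3) ∉ tsupport Φ) :
    ∃ v : Lp (Fm m) 2 μS, ext q v =ᵐ[volume] Per (q : ℤ) Φ ∧
      ∀ P : C3 → (Fm m →L[ℂ] Fm m), (∀ z : C3, z ≠ 0 → P ((2 : ℂ) • z) = P z) →
        (∀ z : C3, z ≠ 0 → P z (Φ z) = Φ z) → v ∈ HP P := by
  obtain ⟨K, hK⟩ := exists_K hc h0
  have hcont : ∀ z : C3, z ≠ 0 → ContinuousAt (Per (q : ℤ) Φ) z := by
    intro z hz
    obtain ⟨K', hK'⟩ := Per_eventually hc h0 hz
    have h1 : Per (q : ℤ) Φ =ᶠ[𝓝 z]
        fun y => ∑ k ∈ K', ((2 : ℂ) ^ ((q : ℤ) * k)) • Φ (((2 : ℂ) ^ k) • y) := by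
      filter_upwards [hK'] with y hy
      exact hy.2 q
    refine ContinuousAt.congr ?_ h1.symm
    apply Continuous.continuousAt
    apply continuous_finsetSum
    intro k _
    exact (hΦ.comp (continuous_const_smul ((2 : ℂ) ^ k))).const_smul ((2 : ℂ) ^ ((q : ℤ) * k))
  have hsm : AEStronglyMeasurable (Per (q : ℤ) Φ) volume := by
    have h1 : ContinuousOn (Per (q : ℤ) Φ) ({0}ᶜ : Set C3) :=
      fun z hz => (hcont z hz).continuousWithinAt
    have h2 := h1.aestronglyMeasurable (μ := (volume : Measure C3))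
      (measurableSet_singleton (0 : C3)).compl
    rwa [Measure.restrict_eq_self_of_ae_mem] at h2
    exact ae_ne_zero
  have hscale : ∀ᵐ z : C3, Per (q : ℤ) Φ ((2 : ℂ) • z) =
      ((2 : ℂ) ^ (-(q : ℤ))) • Per (q : ℤ) Φ z := by
    filter_upwards [ae_ne_zero] with z hz
    exact Per_scale hc h0 _ hz
  have hmem : MemLp (Per (q : ℤ) Φ) 2 μS := by
    obtain ⟨C, hC⟩ := hΦ.bounded_above_of_compact_support hc
    refine MemLp.of_bound (C := ∑ k ∈ K, ‖((2 : ℂ) ^ ((q : ℤ) * k))‖ * C) hsm.restrict ?_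
    filter_upwards [ae_restrict_mem measurableSet_S] with z hz
    rw [Per_of_mem_S hK _ hz]
    refine (norm_sum_le _ _).trans (Finset.sum_le_sum fun k _ => ?_)
    rw [norm_smul]
    exact mul_le_mul_of_nonneg_left (hC _) (norm_nonneg _)
  obtain ⟨v, hv1, hv2⟩ := exists_mk hq hsm hscale hmem
  refine ⟨v, hv1, fun P hP hPΦ => hv2 P ?_⟩
  filter_upwards [ae_ne_zero] with z hz
  obtain ⟨K', hK'⟩ := Per_eventually hc h0 hz
  have h1 := hK'.self_of_nhds.2 (q : ℤ)
  rw [h1, map_sum]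
  apply Finset.sum_congr rfl
  intro k _
  rw [map_smul]
  congr 1
  have h2 : P (((2 : ℂ) ^ k) • z) = P z := by
    have := scale_zpow (F := P) (a := 0) (fun z hz => by rw [hP z hz, zpow_zero, one_smul]) k hz
    rwa [zero_mul, zpow_zero, one_smul] at this
  rw [← h2]
  exact hPΦ _ (smul_ne_zero (zpow_ne_zero _ (by norm_num)) hz)

/-- Lower bound. -/
theorem norm_le_ext {q : ℕ} (hq : q ≤ 3) {ρ : C3 → ℝ} (hρ : Continuous ρ)
    (hc : HasCompactSupport ρ) (h0 : (0 : C3) ∉ tsupport ρ) (h1 : ∀ z ∈ S, ρ z = 1)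
    (u : Lp (Fm m) 2 μS) :
    ‖u‖ ^ 2 ≤ 4 * ∫ z, ‖((ρ z : ℝ) : ℂ) • ext q u z‖ ^ 2 / R2 z := by
  let A : C3 → (Fm m →L[ℂ] Fm m) := fun z =>
    ((ρ z / rr z : ℝ) : ℂ) • ContinuousLinearMap.id ℂ (Fm m)
  have hAz : ∀ z, ρ z = 0 → A z = 0 := by
    intro z hz
    ext v
    simp [A, hz]
  have hA : Continuous A := by
    refine continuous_of_away h0 ?_ hAz
    intro z hz
    refine ContinuousAt.smul (f := fun z : C3 => ((ρ z / rr z : ℝ) : ℂ)) ?_ continuousAt_const
    apply Complex.continuous_ofReal.continuousAt.comp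
    exact hρ.continuousAt.div continuous_rr.continuousAt (rr_pos hz).ne'
  have hsupp : Function.support A ⊆ Function.support ρ := by
    intro z hz hz'
    exact hz (hAz z hz')
  have hAc : HasCompactSupport A := hc.mono hsupp
  have hA0 : (0 : C3) ∉ tsupport A := fun h => h0 (closure_mono hsupp h)
  obtain ⟨C, _, hC⟩ := ext_bound hA hAc hA0 q
  obtain ⟨hmem, _⟩ := hC u
  have e1 : ∀ z, ‖A z (ext q u z)‖ ^ 2 = ‖((ρ z : ℝ) : ℂ) • ext q u z‖ ^ 2 / R2 z := by
    intro z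
    have : A z (ext q u z) = ((ρ z / rr z : ℝ) : ℂ) • ext q u z := by simp [A]
    rw [this, norm_smul, norm_smul, mul_pow, mul_pow, Complex.norm_real, Complex.norm_real,
      norm_div, div_pow, Real.norm_of_nonneg (rr_nonneg z), rr_sq]
    ring
  have hint : Integrable (fun z => ‖((ρ z : ℝ) : ℂ) • ext q u z‖ ^ 2 / R2 z) := by
    have := hmem.integrable_norm_pow (by norm_num)
    refine this.congr (Eventually.of_forall fun z => ?_)
    simp only
    rw [← e1]
  have h2 : ∫ z in S, ‖((ρ z : ℝ) : ℂ) • ext q u z‖ ^ 2 / R2 z ≤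
      ∫ z, ‖((ρ z : ℝ) : ℂ) • ext q u z‖ ^ 2 / R2 z := by
    apply setIntegral_le_integral hint
    exact Eventually.of_forall fun z => div_nonneg (by positivity) (R2_nonneg z)
  have h3 : ‖u‖ ^ 2 ≤ ∫ z in S, 4 * (‖((ρ z : ℝ) : ℂ) • ext q u z‖ ^ 2 / R2 z) := by
    rw [normsq_Lp]
    apply integral_mono_ae
    · have := (Lp.memLp u).integrable_norm_pow (by norm_num)
      simpa using this
    · exact (hint.const_mul 4).integrableOn
    · filter_upwards [ae_restrict_mem measurableSet_S] with z hz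
      rw [h1 z hz, ext_of_mem_S hz, Complex.ofReal_one, one_smul, norm_smul, norm_pow,
        Complex.norm_real, Real.norm_of_nonneg (rr_nonneg z), ← rr_sq]
      have hr1 : 1 ≤ rr z := hz.1
      have hr2 : rr z < 2 := hz.2
      have hr0 : 0 < rr z := by linarith
      have key : 1 ≤ 4 * ((rr z ^ (3 - q)) ^ 2 / rr z ^ 2) := by
        rw [mul_div_assoc', le_div_iff₀ (by positivity), one_mul]
        interval_cases q
        · norm_num
          nlinarith [one_le_pow₀ hr1 (n := 4), sq_nonneg (rr z)]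
        · norm_num
          nlinarith [one_le_pow₀ hr1 (n := 2), sq_nonneg (rr z)]
        · norm_num
          nlinarith [sq_nonneg (rr z)]
        · norm_num
          nlinarith
      have e2 : 4 * ((rr z ^ (3 - q) * ‖u z‖) ^ 2 / rr z ^ 2) =
          (4 * ((rr z ^ (3 - q)) ^ 2 / rr z ^ 2)) * ‖u z‖ ^ 2 := by ring
      rw [e2]
      exact le_mul_of_one_le_left (by positivity) key
  rw [integral_const_mul] at h3
  linarith


private theorem exists_mulS {μ : Measure C3} (hμ : μS ≤ μ) {ϕ : C3 → ℂ}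
    (hϕ : AEStronglyMeasurable ϕ μS) (h1 : ∀ z ∈ S, ‖ϕ z‖ ≤ 1) :
    ∃ L : Lp (Fm m) 2 μ →L[ℂ] Lp (Fm m) 2 μS, ∀ u, ⇑(L u) =ᵐ[μS] fun z => ϕ z • u z := by
  have hle : ∀ u : Lp (Fm m) 2 μ, ∀ᵐ z ∂μS, ‖ϕ z • u z‖ ≤ ‖u z‖ := by
    intro u
    filter_upwards [ae_restrict_mem measurableSet_S] with z hz
    rw [norm_smul]
    exact mul_le_of_le_one_left (norm_nonneg _) (h1 z hz)
  have hmemu : ∀ u : Lp (Fm m) 2 μ, MemLp u 2 μS := fun u => (Lp.memLp u).mono_measure hμ
  have hmem : ∀ u : Lp (Fm m) 2 μ, MemLp (fun z => ϕ z • u z) 2 μS := fun u =>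
    (hmemu u).mono (hϕ.smul (hmemu u).1) (hle u)
  apply exists_clm (fun u z => ϕ z • u z) hmem (C := 1) _ _ zero_le_one _
  · intro u v
    filter_upwards [(Lp.coeFn_add u v).filter_mono (ae_mono hμ)] with z hz
    rw [hz, Pi.add_apply, smul_add]
  · intro c u
    filter_upwards [(Lp.coeFn_smul c u).filter_mono (ae_mono hμ)] with z hz
    rw [hz, Pi.smul_apply, smul_comm]
  · intro u
    have hu2 : Integrable (fun z => ‖u z‖ ^ 2) μ := by
      have := (Lp.memLp u).integrable_norm_pow (by norm_num)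
      simpa using this
    have h2 : ∫ z, ‖ϕ z • u z‖ ^ 2 ∂μS ≤ ∫ z, ‖u z‖ ^ 2 ∂μS := by
      apply integral_mono_ae
      · have := (hmem u).integrable_norm_pow (by norm_num)
        simpa using this
      · exact hu2.mono_measure hμ
      · filter_upwards [hle u] with z hz
        exact pow_le_pow_left₀ (norm_nonneg _) hz 2
    have h3 : ∫ z, ‖u z‖ ^ 2 ∂μS ≤ ∫ z, ‖u z‖ ^ 2 ∂μ := by
      apply integral_mono_measure hμ
      · exact Eventually.of_forall fun z => by positivity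
      · exact hu2
    rw [one_mul, normsq_Lp]
    exact h2.trans h3

/-- The localization operator and a left inverse of it. -/
theorem exists_loc {q : ℕ} (hq : q ≤ 3) {ρ : C3 → ℝ} (hρ : Continuous ρ)
    (hc : HasCompactSupport ρ) (h0 : (0 : C3) ∉ tsupport ρ) (h1 : ∀ z ∈ S, ρ z = 1) :
    ∃ (J : Lp (Fm m) 2 μS →L[ℂ] Lp (Fm m) 2 (volume : Measure C3))
      (R : Lp (Fm m) 2 (volume : Measure C3) →L[ℂ] Lp (Fm m) 2 μS),
      (∀ u : Lp (Fm m) 2 μS, ⇑(J u) =ᵐ[volume] fun z => ((ρ z : ℝ) : ℂ) • ext q u z) ∧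
      ∀ u, R (J u) = u := by
  let A : C3 → (Fm m →L[ℂ] Fm m) := fun z => ((ρ z : ℝ) : ℂ) • ContinuousLinearMap.id ℂ (Fm m)
  have hAz : ∀ z, ρ z = 0 → A z = 0 := by
    intro z hz
    ext v
    simp [A, hz]
  have hA : Continuous A := by
    refine Continuous.smul (f := fun z : C3 => ((ρ z : ℝ) : ℂ)) ?_ continuous_const
    exact Complex.continuous_ofReal.comp hρ
  have hsupp : Function.support A ⊆ Function.support ρ := by
    intro z hz hz'
    exact hz (hAz z hz')
  have hAc : HasCompactSupport A := hc.mono hsupp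
  have hA0 : (0 : C3) ∉ tsupport A := fun h => h0 (closure_mono hsupp h)
  obtain ⟨C, hC0, hC⟩ := ext_bound hA hAc hA0 q
  have e1 : ∀ (u : Lp (Fm m) 2 μS) z, A z (ext q u z) = ((ρ z : ℝ) : ℂ) • ext q u z := by
    intro u z
    simp [A]
  simp_rw [e1] at hC
  obtain ⟨J, hJ⟩ := exists_clm (μ := μS) (ν := (volume : Measure C3))
    (fun (u : Lp (Fm m) 2 μS) z => ((ρ z : ℝ) : ℂ) • ext q u z) (fun u => (hC u).1) (by
      intro u v
      filter_upwards [ext_add q u v] with z hz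
      rw [hz, smul_add]) (by
      intro c u
      filter_upwards [ext_smul q c u] with z hz
      rw [hz, smul_comm]) hC0 (fun u => (hC u).2)
  have hμ : μS ≤ (volume : Measure C3) := Measure.restrict_le_self
  have hϕ : AEStronglyMeasurable (fun z : C3 => (((rr z : ℂ) ^ (3 - q))⁻¹)) μS := by
    apply Measurable.aestronglyMeasurable
    have : Measurable rr := continuous_rr.measurable
    fun_prop
  obtain ⟨R, hR⟩ := exists_mulS (m := m) hμ hϕ (by
    intro z hz
    rw [norm_inv, norm_pow, Complex.norm_real, Real.norm_of_nonneg (rr_nonneg z)]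
    exact inv_le_one_of_one_le₀ (one_le_pow₀ hz.1))
  refine ⟨J, R, hJ, fun u => ?_⟩
  apply Lp.ext
  filter_upwards [hR (J u), (hJ u).filter_mono (ae_mono hμ),
    ae_restrict_mem measurableSet_S] with z h2 h3 hz
  have hr : (rr z : ℂ) ≠ 0 := by exact_mod_cast (rr_pos (ne_zero_of_mem_S hz)).ne'
  rw [h2, h3, h1 z hz, ext_of_mem_S hz, Complex.ofReal_one, one_smul, smul_smul,
    inv_mul_cancel₀ (pow_ne_zero _ hr), one_smul]

/-- Multiplication by `|z| η_j = z_j / |z|` on `L²(S)`. -/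
theorem exists_mulEta (j : Fin 3) :
    ∃ M : Lp (Fm m) 2 μS →L[ℂ] Lp (Fm m) 2 μS,
      (∀ (u : Lp (Fm m) 2 μS) (q : ℕ), q ≤ 2 →
        ext (q + 1) (M u) =ᵐ[volume] fun z => eta j z • ext q u z) ∧
      ∀ (P : C3 → (Fm m →L[ℂ] Fm m)) (u : Lp (Fm m) 2 μS), u ∈ HP P → M u ∈ HP P := by
  have hϕ : AEStronglyMeasurable (fun z : C3 => z j / (rr z : ℂ)) μS := by
    apply Measurable.aestronglyMeasurable
    have : Measurable rr := continuous_rr.measurable
    fun_prop
  obtain ⟨M, hM⟩ := exists_mulS (m := m) (le_refl μS) hϕ (by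
    intro z hz
    have hr := rr_pos (ne_zero_of_mem_S hz)
    rw [norm_div, Complex.norm_real, Real.norm_of_nonneg hr.le, div_le_one hr]
    exact (norm_le_pi_norm z j).trans (norm_le_rr z))
  refine ⟨M, ?_, ?_⟩
  · intro u q hq
    refine (ext_congr (hM u) (q + 1)).trans ?_
    filter_upwards [ae_ne_zero] with z hz
    have hr : (rr z : ℂ) ≠ 0 := by exact_mod_cast (rr_pos hz).ne'
    have h2 : ((2 : ℂ) ^ (-(idx z))) ≠ 0 := zpow_ne_zero _ (by norm_num)
    have e1 : base z j / (rr (base z) : ℂ) = z j / (rr z : ℂ) := by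
      unfold base
      rw [rr_zpow_smul, Pi.smul_apply, smul_eq_mul]
      push_cast
      rw [mul_div_mul_left _ _ h2]
    unfold ext tl
    simp only
    rw [e1]
    unfold eta
    have e2 : ((R2 z : ℝ) : ℂ) = (rr z : ℂ) ^ 2 := by
      rw [← rr_sq]
      push_cast
      rfl
    have e3 : 3 - q = (3 - (q + 1)) + 1 := by omega
    rw [e2, e3]
    simp only [smul_smul]
    congr 1
    rw [pow_succ]
    field_simp
    ring
  · intro P u hu
    change ∀ᵐ z ∂μS, P z (M u z) = M u z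
    have hu' : ∀ᵐ z ∂μS, P z (u z) = u z := hu
    filter_upwards [hM u, hu'] with z h3 h4
    rw [h3, map_smul, h4]

end

end Pool.Agent.HopfEmb
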