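import Pool.Agent.Lib.MP_d404b9_ag.HopfModel
import Pool.Agent.Lib.MP_d404b9_ag.Data

/-!
# JOB EXTRACT: an embedding of the pinched Hopf threefold gives cocycle data

Let `e : HopfX ≃ₜ Y ⊆ M` be as in `EmbedsIn`, `j z = e (proj z) : M` for `z ≠ 0`, `φ_p = chartAt p`.
* Coordinates of `φ_p` are `HolAt` at the points of the chart domain, so their compositions with `e`
  are `IsHolX`, hence `φ_p ∘ j` is analytic at every `z ≠ 0` with `j z ∈ (φ_p).source` (at points
  `2^k e1` use the second alternative of `IsHolX` and `j (2 z) = j z`).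
* By compactness of `HopfX` finitely many charts `p_1, …, p_n` suffice, `I = Fin n`,
  `V i = {z ≠ 0 | j z ∈ (φ_i).source}`, `g i k z = D(φ_i ∘ φ_k⁻¹)(φ_k (j z))`,
  `s i z = D(φ_i ∘ j)(z)[z]` (derivative in the direction `z`). `j(2z) = j(z)` gives
  `D(φ_i ∘ j)(2z)[2z] = D(φ_i ∘ j)(z)[z]`. Chain rule for `g_mul`, `s_trans`.
* `i₀` with `e1 ∈ V i₀`. By the second alternative of `IsHolX` (componentwise)
  `φ_{i₀}(j(e1 + w)) = G(Φ w)` for `w` near `0` with `G` analytic at `0`. Since
  `DΦ(w)[e1 + w] = w_0 (2(1+w_0), 3w_0(1+w_0), 0,0,0,0) + w_1 (0,0,1,0,1+2w_0,0)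
  + w_2 (0,0,0,1,0,1+2w_0)`, put `a(e1+w) = DG(Φ w)[(2(1+w_0), 3w_0(1+w_0), 0,0,0,0)]` etc.
* `s_ne`: let `z = t e1`, `t ≠ 1` near `1`, so `x = proj z ≠ x0`. The function `f` on `HopfX` with
  `f (proj z') = z'_0` for `z'` in a small ball around `z` (and `0` elsewhere) is `IsHolX` at `x`, so
  `z'_0 = g (j z')` near `z` with `g` holomorphic on `M`; differentiate in the direction `z`:
  `t = D(g ∘ φ⁻¹)[s i₀ z]`, so `s i₀ z ≠ 0`.
-/

set_option autoImplicit false

open Filter Topology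
open scoped Manifold ContDiff

namespace Pool.Agent.HopfEmb

theorem extract_an_iff {E F : Type*} [NormedAddCommGroup E] [NormedSpace ℂ E]
    [NormedAddCommGroup F] [NormedSpace ℂ F] [CompleteSpace F] (f : E → F) (x : E) :
    ContDiffAt ℂ ω f x ↔ AnalyticAt ℂ f x := by
  rw [← contDiffWithinAt_univ, contDiffWithinAt_omega_iff_analyticWithinAt, analyticWithinAt_univ]

theorem extract_an_piLp {E : Type*} [NormedAddCommGroup E] [NormedSpace ℂ E] {n : ℕ}
    (f : E → EuclideanSpace ℂ (Fin n)) (x : E) :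
    AnalyticAt ℂ f x ↔ ∀ i, AnalyticAt ℂ (fun y => f y i) x := by
  rw [← extract_an_iff, contDiffAt_piLp]
  exact forall_congr' fun i => extract_an_iff _ _

theorem extract_Phi_an (w : C3) : AnalyticAt ℂ Φ w := by
  rw [extract_an_piLp]
  intro i
  have h : ∀ k : Fin 3, AnalyticAt ℂ (fun y : C3 => y k) w := fun k =>
    (ContinuousLinearMap.proj (R := ℂ) (φ := fun _ : Fin 3 => ℂ) k).analyticAt w
  fin_cases i
  · exact (h 0).pow 2
  · exact (h 0).pow 3
  · exact h 1
  · exact h 2
  · exact (h 0).mul (h 1)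
  · exact (h 0).mul (h 2)

theorem extract_Phi_zero : Φ 0 = 0 := by
  ext i
  fin_cases i <;> simp [Φ]

/-- The derivative of `Φ`. -/
theorem extract_fderiv_Phi (w v : C3) : fderiv ℂ Φ w v =
    !₂[2 * w 0 * v 0, 3 * w 0 ^ 2 * v 0, v 1, v 2, w 0 * v 1 + w 1 * v 0,
      w 0 * v 2 + w 2 * v 0] := by
  have hd : DifferentiableAt ℂ Φ w := (extract_Phi_an w).differentiableAt
  have h : ∀ k : Fin 3, HasFDerivAt (fun y : C3 => y k)
      (ContinuousLinearMap.proj (R := ℂ) (φ := fun _ : Fin 3 => ℂ) k) w := fun k =>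
    (ContinuousLinearMap.proj (R := ℂ) (φ := fun _ : Fin 3 => ℂ) k).hasFDerivAt
  have key : ∀ (i : Fin 6) (L : C3 →L[ℂ] ℂ), HasFDerivAt (fun y => Φ y i) L w →
      (fderiv ℂ Φ w v) i = L v := by
    intro i L hL
    have h1 : HasFDerivAt (fun y => Φ y i) ((EuclideanSpace.proj i).comp (fderiv ℂ Φ w)) w :=
      ((EuclideanSpace.proj i : EuclideanSpace ℂ (Fin 6) →L[ℂ] ℂ).hasFDerivAt).comp w
        hd.hasFDerivAt
    rw [← h1.unique hL]
    rfl
  ext i
  fin_cases i
  · refine (key 0 _ ((h 0).pow 2)).trans ?_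
    simp
  · refine (key 1 _ ((h 0).pow 3)).trans ?_
    simp
  · refine (key 2 _ (h 1)).trans ?_
    simp
  · refine (key 3 _ (h 2)).trans ?_
    simp
  · refine (key 4 _ ((h 0).mul (h 1))).trans ?_
    simp
  · refine (key 5 _ ((h 0).mul (h 2))).trans ?_
    simp

section main

variable {N : ℕ} {M : Type*} [TopologicalSpace M] [ChartedSpace (EuclideanSpace ℂ (Fin N)) M]
    [IsManifold (𝓘(ℂ, EuclideanSpace ℂ (Fin N))) ω M] {Y : Set M} (e : HopfX ≃ₜ Y)

/-- The lifted map. -/
noncomputable def extractJ (z : C3) : M := (e (proj z) : M)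

omit [ChartedSpace (EuclideanSpace ℂ (Fin N)) M]
    [IsManifold (𝓘(ℂ, EuclideanSpace ℂ (Fin N))) ω M] in
theorem extractJ_scale (z : C3) (hz : z ≠ 0) : extractJ e ((2 : ℂ) • z) = extractJ e z := by
  have h2 : (2 : ℂ) • z ≠ 0 := smul_ne_zero (by norm_num) hz
  have : proj ((2 : ℂ) • z) = proj z := by
    symm
    rw [proj_eq_iff hz h2]
    exact ⟨1, by simp⟩
  unfold extractJ
  rw [this]

omit [ChartedSpace (EuclideanSpace ℂ (Fin N)) M]
    [IsManifold (𝓘(ℂ, EuclideanSpace ℂ (Fin N))) ω M] in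
theorem extractJ_cont (z : C3) (hz : z ≠ 0) : ContinuousAt (extractJ e) z :=
  continuous_subtype_val.continuousAt.comp (e.continuous.continuousAt.comp (proj_continuousAt hz))

/-- The property of `EmbedsIn`. -/
def ExtractEmb (N : ℕ) {M : Type*} [TopologicalSpace M]
    [ChartedSpace (EuclideanSpace ℂ (Fin N)) M] {Y : Set M} (e : HopfX ≃ₜ Y) : Prop :=
  ∀ (f : HopfX → ℂ) (x : HopfX),
    hopfSpace.IsHol f x ↔ ∃ g : M → ℂ, HolAt (N := N) g (e x : M) ∧
      ∀ᶠ x' in 𝓝 x, f x' = g (e x' : M)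

/-- The chart, as a map to the Euclidean space. -/
noncomputable abbrev ech (N : ℕ) {M : Type*} [TopologicalSpace M]
    [ChartedSpace (EuclideanSpace ℂ (Fin N)) M] (p : M) :
    PartialEquiv M (EuclideanSpace ℂ (Fin N)) :=
  extChartAt (𝓘(ℂ, EuclideanSpace ℂ (Fin N))) p

theorem extract_comp_hol (he : ExtractEmb N e) (p : M) (x : HopfX)
    (hx : (e x : M) ∈ (chartAt (EuclideanSpace ℂ (Fin N)) p).source) (c : Fin N) :
    IsHolX (fun x' => ech N p (e x' : M) c) x := by
  refine (he _ x).2 ⟨fun m => ech N p m c, ?_, Filter.Eventually.of_forall fun _ => rfl⟩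
  unfold HolAt
  have h1 : ContMDiffAt (𝓘(ℂ, EuclideanSpace ℂ (Fin N))) (𝓘(ℂ, EuclideanSpace ℂ (Fin N))) ω
      (ech N p) (e x : M) := contMDiffAt_extChartAt' hx
  have h2 : ContMDiffAt (𝓘(ℂ, EuclideanSpace ℂ (Fin N))) 𝓘(ℂ, ℂ) ω
      (fun v : EuclideanSpace ℂ (Fin N) => v c) (ech N p (e x : M)) := by
    rw [contMDiffAt_iff_contDiffAt]
    exact (EuclideanSpace.proj c : EuclideanSpace ℂ (Fin N) →L[ℂ] ℂ).contDiff.contDiffAt
  exact h2.comp _ h1

theorem extract_chart_an (he : ExtractEmb N e) (p : M) (z : C3) (hz : z ≠ 0)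
    (hp : extractJ e z ∈ (chartAt (EuclideanSpace ℂ (Fin N)) p).source) :
    AnalyticAt ℂ (fun w => ech N p (extractJ e w)) z := by
  rw [extract_an_piLp]
  intro c
  have h := extract_comp_hol e he p (proj z) hp c
  rcases h with ⟨_, h⟩ | ⟨h0, g, hg, hev⟩
  · exact h z hz rfl
  · obtain ⟨k, hk⟩ := (proj_eq_iff hz e1_ne_zero).1 h0
    have h2k : ((2 : ℂ) ^ k) ≠ 0 := zpow_ne_zero _ (by norm_num)
    have hcont : ContinuousAt (fun w : C3 => ((2 : ℂ) ^ k) • w - e1) z := by fun_prop
    have hz0 : ((2 : ℂ) ^ k) • z - e1 = 0 := by rw [← hk, sub_self]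
    have hev2 : ∀ᶠ w in 𝓝 z, ech N p (e (proj (e1 + (((2 : ℂ) ^ k) • w - e1))) : M) c =
        g (Φ (((2 : ℂ) ^ k) • w - e1)) := by
      have : Tendsto (fun w : C3 => ((2 : ℂ) ^ k) • w - e1) (𝓝 z) (𝓝 0) := by
        rw [← hz0]; exact hcont
      exact this.eventually hev
    have hne : ∀ᶠ w in 𝓝 z, w ≠ 0 := isOpen_ne.mem_nhds hz
    have heq : (fun w => g (Φ (((2 : ℂ) ^ k) • w - e1))) =ᶠ[𝓝 z]
        fun w => ech N p (extractJ e w) c := by
      filter_upwards [hev2, hne] with w h1 h2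
      rw [← h1]
      have h3 : proj (e1 + (((2 : ℂ) ^ k) • w - e1)) = proj w := by
        rw [add_sub_cancel]
        symm
        rw [proj_eq_iff h2 (smul_ne_zero h2k h2)]
        exact ⟨k, rfl⟩
      rw [h3]
      rfl
    refine AnalyticAt.congr ?_ heq
    have h4 : AnalyticAt ℂ (fun w : C3 => ((2 : ℂ) ^ k) • w - e1) z := by
      fun_prop
    have h5 : AnalyticAt ℂ (fun w : C3 => Φ (((2 : ℂ) ^ k) • w - e1)) z :=
      (extract_Phi_an _).comp h4
    have h6 : Φ (((2 : ℂ) ^ k) • z - e1) = 0 := by rw [hz0, extract_Phi_zero]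
    exact AnalyticAt.comp (g := g) (by rw [h6]; exact hg) h5

/-- Transition maps. -/
theorem extract_trans_an (p q : M) (m : M)
    (hp : m ∈ (chartAt (EuclideanSpace ℂ (Fin N)) p).source)
    (hq : m ∈ (chartAt (EuclideanSpace ℂ (Fin N)) q).source) :
    AnalyticAt ℂ (fun y => ech N p ((ech N q).symm y)) (ech N q m) := by
  rw [← extract_an_iff, ← contMDiffAt_iff_contDiffAt]
  have hq' : m ∈ (ech N q).source := by rwa [extChartAt_source]
  have h1 : ContMDiffAt (𝓘(ℂ, EuclideanSpace ℂ (Fin N))) (𝓘(ℂ, EuclideanSpace ℂ (Fin N))) ω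
      (ech N q).symm (ech N q m) :=
    (contMDiffOn_extChartAt_symm q).contMDiffAt
      (extChartAt_target_mem_nhds' ((ech N q).map_source hq'))
  have h2 : ContMDiffAt (𝓘(ℂ, EuclideanSpace ℂ (Fin N))) (𝓘(ℂ, EuclideanSpace ℂ (Fin N))) ω
      (ech N p) ((ech N q).symm (ech N q m)) := by
    rw [(ech N q).left_inv hq']
    exact contMDiffAt_extChartAt' hp
  exact h2.comp _ h1

omit [IsManifold (𝓘(ℂ, EuclideanSpace ℂ (Fin N))) ω M] in
theorem extract_symm_ev (q : M) (z : C3) (hz : z ≠ 0)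
    (hq : extractJ e z ∈ (chartAt (EuclideanSpace ℂ (Fin N)) q).source) :
    ∀ᶠ w in 𝓝 z, (ech N q).symm (ech N q (extractJ e w)) = extractJ e w := by
  have h1 : ∀ᶠ w in 𝓝 z, extractJ e w ∈ (ech N q).source := by
    refine (extractJ_cont e z hz).eventually ?_
    rw [extChartAt_source]
    exact (chartAt (EuclideanSpace ℂ (Fin N)) q).open_source.mem_nhds hq
  filter_upwards [h1] with w hw
  exact (ech N q).left_inv hw

/-- Smooth section component: the derivative of the lifted map in the radial direction. -/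
noncomputable def extractS (p : M) (z : C3) : EuclideanSpace ℂ (Fin N) :=
  fderiv ℂ (fun w => ech N p (extractJ e w)) z z

/-- The cocycle. -/
noncomputable def extractG (p q : M) (z : C3) :
    EuclideanSpace ℂ (Fin N) →L[ℂ] EuclideanSpace ℂ (Fin N) :=
  fderiv ℂ (fun y => ech N p ((ech N q).symm y)) (ech N q (extractJ e z))

theorem extractS_an (he : ExtractEmb N e) (p : M) (z : C3) (hz : z ≠ 0)
    (hp : extractJ e z ∈ (chartAt (EuclideanSpace ℂ (Fin N)) p).source) :
    AnalyticAt ℂ (extractS (N := N) e p) z := by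
  have h1 := (extract_chart_an e he p z hz hp).fderiv
  rw [← extract_an_iff] at h1 ⊢
  exact h1.clm_apply contDiffAt_id

theorem extractG_an (he : ExtractEmb N e) (p q : M) (z : C3) (hz : z ≠ 0)
    (hp : extractJ e z ∈ (chartAt (EuclideanSpace ℂ (Fin N)) p).source)
    (hq : extractJ e z ∈ (chartAt (EuclideanSpace ℂ (Fin N)) q).source) :
    AnalyticAt ℂ (extractG (N := N) e p q) z :=
  AnalyticAt.comp (g := fderiv ℂ (fun y => ech N p ((ech N q).symm y)))
    (extract_trans_an p q _ hp hq).fderiv (extract_chart_an e he q z hz hq)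

theorem extractS_trans (he : ExtractEmb N e) (p q : M) (z : C3) (hz : z ≠ 0)
    (hp : extractJ e z ∈ (chartAt (EuclideanSpace ℂ (Fin N)) p).source)
    (hq : extractJ e z ∈ (chartAt (EuclideanSpace ℂ (Fin N)) q).source) :
    extractS (N := N) e p z = extractG e p q z (extractS e q z) := by
  have h1 := (extract_chart_an e he q z hz hq).differentiableAt.hasFDerivAt
  have h2 := (extract_trans_an (N := N) p q _ hp hq).differentiableAt.hasFDerivAt
  have h3 : HasFDerivAt (fun w => ech N p (extractJ e w))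
      ((extractG e p q z).comp (fderiv ℂ (fun w => ech N q (extractJ e w)) z)) z := by
    have h4 := HasFDerivAt.comp z (g := fun y => ech N p ((ech N q).symm y)) h2 h1
    refine h4.congr_of_eventuallyEq ?_
    filter_upwards [extract_symm_ev e q z hz hq] with w hw
    simp only [Function.comp_apply]
    rw [hw]
  unfold extractS
  rw [h3.fderiv]
  rfl

theorem extractG_mul (p q r : M) (z : C3)
    (hp : extractJ e z ∈ (chartAt (EuclideanSpace ℂ (Fin N)) p).source)
    (hq : extractJ e z ∈ (chartAt (EuclideanSpace ℂ (Fin N)) q).source)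
    (hr : extractJ e z ∈ (chartAt (EuclideanSpace ℂ (Fin N)) r).source) :
    (extractG (N := N) e p q z).comp (extractG e q r z) = extractG e p r z := by
  have h1 := (extract_trans_an (N := N) q r _ hq hr).differentiableAt.hasFDerivAt
  have h2 := (extract_trans_an (N := N) p q _ hp hq).differentiableAt.hasFDerivAt
  have hr' : extractJ e z ∈ (ech N r).source := by rwa [extChartAt_source]
  have hpt : ech N q ((ech N r).symm (ech N r (extractJ e z))) = ech N q (extractJ e z) := by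
    rw [(ech N r).left_inv hr']
  have h3 : HasFDerivAt (fun y => ech N p ((ech N r).symm y))
      ((extractG e p q z).comp (extractG e q r z)) (ech N r (extractJ e z)) := by
    have h4 := HasFDerivAt.comp (ech N r (extractJ e z))
      (g := fun y => ech N p ((ech N q).symm y)) (f := fun y => ech N q ((ech N r).symm y))
      (by rw [hpt]; exact h2) h1
    refine h4.congr_of_eventuallyEq ?_
    have h5 : ContinuousAt (ech N r).symm (ech N r (extractJ e z)) :=
      continuousAt_extChartAt_symm' hr'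
    have h6 : ∀ᶠ y in 𝓝 (ech N r (extractJ e z)), (ech N r).symm y ∈ (ech N q).source := by
      refine h5.eventually ?_
      rw [(ech N r).left_inv hr', extChartAt_source]
      exact (chartAt (EuclideanSpace ℂ (Fin N)) q).open_source.mem_nhds hq
    filter_upwards [h6] with y hy
    simp only [Function.comp_apply]
    rw [(ech N q).left_inv hy]
  unfold extractG at h3 ⊢
  rw [h3.fderiv]

theorem extractG_self (p : M) (z : C3)
    (hp : extractJ e z ∈ (chartAt (EuclideanSpace ℂ (Fin N)) p).source) :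
    extractG (N := N) e p p z = ContinuousLinearMap.id ℂ _ := by
  unfold extractG
  have hp' : extractJ e z ∈ (ech N p).source := by rwa [extChartAt_source]
  have h1 : ∀ᶠ y in 𝓝 (ech N p (extractJ e z)), ech N p ((ech N p).symm y) = y := by
    have h2 : (ech N p).target ∈ 𝓝 (ech N p (extractJ e z)) :=
      extChartAt_target_mem_nhds' ((ech N p).map_source hp')
    filter_upwards [h2] with y hy
    exact (ech N p).right_inv hy
  have h3 : (fun y => ech N p ((ech N p).symm y)) =ᶠ[𝓝 (ech N p (extractJ e z))] id := h1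
  rw [h3.fderiv_eq, fderiv_id]

theorem extractS_scale (he : ExtractEmb N e) (p : M) (z : C3) (hz : z ≠ 0)
    (hp : extractJ e z ∈ (chartAt (EuclideanSpace ℂ (Fin N)) p).source) :
    extractS (N := N) e p ((2 : ℂ) • z) = extractS e p z := by
  have h2z : (2 : ℂ) • z ≠ 0 := smul_ne_zero (by norm_num) hz
  have hp2 : extractJ e ((2 : ℂ) • z) ∈ (chartAt (EuclideanSpace ℂ (Fin N)) p).source := by
    rwa [extractJ_scale e z hz]
  have h1 := (extract_chart_an e he p _ h2z hp2).differentiableAt.hasFDerivAt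
  have h2 : HasFDerivAt (fun w : C3 => (2 : ℂ) • w) ((2 : ℂ) • ContinuousLinearMap.id ℂ C3) z :=
    (hasFDerivAt_id z).const_smul (2 : ℂ)
  have h3 : HasFDerivAt (fun w => ech N p (extractJ e w))
      ((fderiv ℂ (fun w => ech N p (extractJ e w)) ((2 : ℂ) • z)).comp
        ((2 : ℂ) • ContinuousLinearMap.id ℂ C3)) z := by
    refine (HasFDerivAt.comp z h1 h2).congr_of_eventuallyEq ?_
    have hne : ∀ᶠ w in 𝓝 z, w ≠ 0 := isOpen_ne.mem_nhds hz
    filter_upwards [hne] with w hw
    simp only [Function.comp_apply]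
    rw [extractJ_scale e w hw]
  unfold extractS
  rw [h3.fderiv]
  simp

/-- The section does not vanish at the other points. -/
theorem extractS_ne (he : ExtractEmb N e) (p : M) (z : C3) (hz : z ≠ 0)
    (hp : extractJ e z ∈ (chartAt (EuclideanSpace ℂ (Fin N)) p).source) (hx : proj z ≠ x0)
    (hz0 : z 0 ≠ 0) : extractS (N := N) e p z ≠ 0 := by
  classical
  obtain ⟨r, hr, hr0, hinj⟩ := proj_injOn hz
  let f : HopfX → ℂ := fun x =>
    if h : ∃ z' ∈ Metric.ball z r, proj z' = x then (Classical.choose h) 0 else 0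
  have hf : ∀ z' ∈ Metric.ball z r, f (proj z') = z' 0 := by
    intro z' hz'
    have hex : ∃ z'' ∈ Metric.ball z r, proj z'' = proj z' := ⟨z', hz', rfl⟩
    have h1 := Classical.choose_spec hex
    simp only [f]
    rw [dif_pos hex]
    rw [hinj h1.1 hz' h1.2]
  have hhol : IsHolX f (proj z) := by
    left
    refine ⟨hx, ?_⟩
    intro z'' hz'' hpr
    obtain ⟨k, hk⟩ := (proj_eq_iff hz'' hz).1 hpr
    have h2k : ((2 : ℂ) ^ k) ≠ 0 := zpow_ne_zero _ (by norm_num)
    have hcont : Tendsto (fun w : C3 => ((2 : ℂ) ^ k) • w) (𝓝 z'') (𝓝 z) := by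
      have : ContinuousAt (fun w : C3 => ((2 : ℂ) ^ k) • w) z'' := by fun_prop
      rw [ContinuousAt, ← hk] at this
      exact this
    have hev : ∀ᶠ w in 𝓝 z'', ((2 : ℂ) ^ k) • w ∈ Metric.ball z r :=
      hcont.eventually (Metric.ball_mem_nhds z hr)
    have hne : ∀ᶠ w in 𝓝 z'', w ≠ 0 := isOpen_ne.mem_nhds hz''
    have heq : (fun w : C3 => ((2 : ℂ) ^ k) * w 0) =ᶠ[𝓝 z''] fun w => f (proj w) := by
      filter_upwards [hev, hne] with w h1 h2
      have h3 : proj w = proj (((2 : ℂ) ^ k) • w) := by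
        rw [proj_eq_iff h2 (smul_ne_zero h2k h2)]
        exact ⟨k, rfl⟩
      rw [h3, hf _ h1]
      simp
    refine AnalyticAt.congr ?_ heq
    exact analyticAt_const.mul
      ((ContinuousLinearMap.proj (R := ℂ) (φ := fun _ : Fin 3 => ℂ) 0).analyticAt z'')
  obtain ⟨g, hg, hev⟩ := (he f (proj z)).1 hhol
  have hp' : extractJ e z ∈ (ech N p).source := by rwa [extChartAt_source]
  have hH : DifferentiableAt ℂ (fun y => g ((ech N p).symm y)) (ech N p (extractJ e z)) := by
    have h1 : ContMDiffAt (𝓘(ℂ, EuclideanSpace ℂ (Fin N))) (𝓘(ℂ, EuclideanSpace ℂ (Fin N))) ω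
        (ech N p).symm (ech N p (extractJ e z)) :=
      (contMDiffOn_extChartAt_symm p).contMDiffAt
        (extChartAt_target_mem_nhds' ((ech N p).map_source hp'))
    have h2 : ContMDiffAt (𝓘(ℂ, EuclideanSpace ℂ (Fin N))) 𝓘(ℂ, ℂ) ω g
        ((ech N p).symm (ech N p (extractJ e z))) := by
      rw [(ech N p).left_inv hp']
      exact hg
    have h3 := h2.comp _ h1
    rw [contMDiffAt_iff_contDiffAt] at h3
    exact h3.differentiableAt (by simp)
  have h1 := (extract_chart_an e he p z hz hp).differentiableAt.hasFDerivAt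
  have h2 := HasFDerivAt.comp z (g := fun y => g ((ech N p).symm y)) hH.hasFDerivAt h1
  have h3 : (fun w : C3 => w 0) =ᶠ[𝓝 z]
      (fun y => g ((ech N p).symm y)) ∘ (fun w => ech N p (extractJ e w)) := by
    have e1 : ∀ᶠ w in 𝓝 z, f (proj w) = g (e (proj w) : M) :=
      (proj_continuousAt hz).eventually hev
    filter_upwards [e1, extract_symm_ev e p z hz hp, Metric.ball_mem_nhds z hr] with w a1 a2 a3
    simp only [Function.comp_apply]
    rw [a2, ← hf w a3, a1]
    rfl
  have h4 := h2.congr_of_eventuallyEq h3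
  have h5 : HasFDerivAt (fun y : C3 => y 0)
      (ContinuousLinearMap.proj (R := ℂ) (φ := fun _ : Fin 3 => ℂ) 0) z :=
    (ContinuousLinearMap.proj (R := ℂ) (φ := fun _ : Fin 3 => ℂ) 0).hasFDerivAt
  have h6 := h4.unique h5
  intro hS
  apply hz0
  have h7 := congrArg (fun L : C3 →L[ℂ] ℂ => L z) h6
  simp only [ContinuousLinearMap.comp_apply, ContinuousLinearMap.proj_apply] at h7
  rw [← h7]
  unfold extractS at hS
  rw [hS, map_zero]

/-- The local structure at the singular point. -/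
theorem extract_near (he : ExtractEmb N e) (p : M)
    (hp : extractJ e e1 ∈ (chartAt (EuclideanSpace ℂ (Fin N)) p).source) :
    ∃ G : EuclideanSpace ℂ (Fin 6) → EuclideanSpace ℂ (Fin N), AnalyticAt ℂ G 0 ∧
      ∀ᶠ z in 𝓝 e1, ech N p (extractJ e z) = G (Φ (z - e1)) := by
  have h : ∀ c : Fin N, ∃ g : EuclideanSpace ℂ (Fin 6) → ℂ, AnalyticAt ℂ g 0 ∧
      ∀ᶠ w in 𝓝 (0 : C3), ech N p (e (proj (e1 + w)) : M) c = g (Φ w) := by
    intro c
    rcases extract_comp_hol e he p (proj e1) hp c with ⟨h1, _⟩ | ⟨_, h⟩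
    · exact absurd rfl h1
    · exact h
  choose g hg hev using h
  refine ⟨fun y => WithLp.toLp 2 fun c => g c y, ?_, ?_⟩
  · rw [extract_an_piLp]
    exact hg
  · have h1 : ∀ᶠ w in 𝓝 (0 : C3), ∀ c, ech N p (e (proj (e1 + w)) : M) c = g c (Φ w) :=
      eventually_all.2 hev
    have h2 : Tendsto (fun z : C3 => z - e1) (𝓝 e1) (𝓝 0) := by
      have : ContinuousAt (fun z : C3 => z - e1) e1 := by fun_prop
      rw [ContinuousAt, sub_self] at this
      exact this
    filter_upwards [h2.eventually h1] with z hz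
    ext c
    have := hz c
    rw [add_sub_cancel] at this
    exact this

theorem extract_vec (z : C3) : fderiv ℂ Φ (z - e1) z =
    (z 0 - 1) • (!₂[2 * z 0, 3 * (z 0 - 1) * z 0, 0, 0, 0, 0] : EuclideanSpace ℂ (Fin 6)) +
    z 1 • (!₂[0, 0, 1, 0, 2 * z 0 - 1, 0] : EuclideanSpace ℂ (Fin 6)) +
    z 2 • (!₂[0, 0, 0, 1, 0, 2 * z 0 - 1] : EuclideanSpace ℂ (Fin 6)) := by
  rw [extract_fderiv_Phi]
  ext i
  fin_cases i <;> simp [e1] <;> ring

theorem extract_local (he : ExtractEmb N e) (p : M)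
    (hp : extractJ e e1 ∈ (chartAt (EuclideanSpace ℂ (Fin N)) p).source) :
    ∃ a b c : C3 → EuclideanSpace ℂ (Fin N), AnalyticAt ℂ a e1 ∧ AnalyticAt ℂ b e1 ∧
      AnalyticAt ℂ c e1 ∧ ∀ᶠ z in 𝓝 e1, extractS (N := N) e p z =
        (z 0 - 1) • a z + z 1 • b z + z 2 • c z := by
  obtain ⟨G, hG, hev⟩ := extract_near e he p hp
  have hsub : AnalyticAt ℂ (fun z : C3 => z - e1) e1 := by fun_prop
  have hPhi : AnalyticAt ℂ (fun z : C3 => Φ (z - e1)) e1 := (extract_Phi_an _).comp hsub
  have h0 : Φ (e1 - e1) = 0 := by rw [sub_self, extract_Phi_zero]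
  have hD : AnalyticAt ℂ (fun z : C3 => fderiv ℂ G (Φ (z - e1))) e1 :=
    AnalyticAt.comp (g := fderiv ℂ G) (by rw [h0]; exact hG.fderiv) hPhi
  have hco : ∀ k : Fin 3, AnalyticAt ℂ (fun y : C3 => y k) e1 := fun k =>
    (ContinuousLinearMap.proj (R := ℂ) (φ := fun _ : Fin 3 => ℂ) k).analyticAt e1
  have happ : ∀ v : C3 → EuclideanSpace ℂ (Fin 6), AnalyticAt ℂ v e1 →
      AnalyticAt ℂ (fun z : C3 => fderiv ℂ G (Φ (z - e1)) (v z)) e1 := by
    intro v hv
    rw [← extract_an_iff] at hD hv ⊢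
    exact hD.clm_apply hv
  refine ⟨fun z => fderiv ℂ G (Φ (z - e1)) !₂[2 * z 0, 3 * (z 0 - 1) * z 0, 0, 0, 0, 0],
    fun z => fderiv ℂ G (Φ (z - e1)) !₂[0, 0, 1, 0, 2 * z 0 - 1, 0],
    fun z => fderiv ℂ G (Φ (z - e1)) !₂[0, 0, 0, 1, 0, 2 * z 0 - 1],
    happ _ ?_, happ _ ?_, happ _ ?_, ?_⟩
  · rw [extract_an_piLp]
    intro i
    have a0 := hco 0
    fin_cases i
    · exact analyticAt_const.mul a0
    · exact (analyticAt_const.mul (a0.sub analyticAt_const)).mul a0
    · exact analyticAt_const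
    · exact analyticAt_const
    · exact analyticAt_const
    · exact analyticAt_const
  · rw [extract_an_piLp]
    intro i
    have a0 := hco 0
    fin_cases i
    · exact analyticAt_const
    · exact analyticAt_const
    · exact analyticAt_const
    · exact analyticAt_const
    · exact (analyticAt_const.mul a0).sub analyticAt_const
    · exact analyticAt_const
  · rw [extract_an_piLp]
    intro i
    have a0 := hco 0
    fin_cases i
    · exact analyticAt_const
    · exact analyticAt_const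
    · exact analyticAt_const
    · exact analyticAt_const
    · exact analyticAt_const
    · exact (analyticAt_const.mul a0).sub analyticAt_const
  · have hGan : ∀ᶠ z in 𝓝 e1, AnalyticAt ℂ G (Φ (z - e1)) := by
      have h1 : Tendsto (fun z : C3 => Φ (z - e1)) (𝓝 e1) (𝓝 0) := by
        have := hPhi.continuousAt
        rw [ContinuousAt, h0] at this
        exact this
      exact h1.eventually hG.eventually_analyticAt
    filter_upwards [eventually_eventually_nhds.2 hev, hGan] with z h1 h2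
    have h3 : HasFDerivAt (fun w : C3 => Φ (w - e1)) (fderiv ℂ Φ (z - e1)) z := by
      have h4 : HasFDerivAt (fun w : C3 => w - e1) (ContinuousLinearMap.id ℂ C3) z :=
        (hasFDerivAt_id z).sub_const e1
      have h5 := HasFDerivAt.comp z (g := Φ)
        (extract_Phi_an (z - e1)).differentiableAt.hasFDerivAt h4
      exact h5
    have h6 : HasFDerivAt (fun w : C3 => G (Φ (w - e1)))
        ((fderiv ℂ G (Φ (z - e1))).comp (fderiv ℂ Φ (z - e1))) z :=
      HasFDerivAt.comp z (g := G) h2.differentiableAt.hasFDerivAt h3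
    have h7 : HasFDerivAt (fun w => ech N p (extractJ e w))
        ((fderiv ℂ G (Φ (z - e1))).comp (fderiv ℂ Φ (z - e1))) z :=
      h6.congr_of_eventuallyEq h1
    unfold extractS
    rw [h7.fderiv, ContinuousLinearMap.comp_apply, extract_vec]
    simp only [map_add, map_smul]

theorem extract_main (he : ExtractEmb N e) : ∃ n : ℕ, Nonempty (HopfData N (Fin n)) := by
  classical
  -- finitely many charts
  have hcov : ∃ t : Finset M, ∀ x : HopfX, ∃ p ∈ t,
      (e x : M) ∈ (chartAt (EuclideanSpace ℂ (Fin N)) p).source := by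
    let U : M → Set HopfX := fun p =>
      {x | (e x : M) ∈ (chartAt (EuclideanSpace ℂ (Fin N)) p).source}
    have hU : ∀ p, IsOpen (U p) := fun p =>
      (chartAt (EuclideanSpace ℂ (Fin N)) p).open_source.preimage
        (continuous_subtype_val.comp e.continuous)
    obtain ⟨t, ht⟩ := isCompact_univ.elim_finite_subcover U hU
      (fun x _ => Set.mem_iUnion.2 ⟨(e x : M), mem_chart_source _ _⟩)
    refine ⟨t, fun x => ?_⟩
    have := ht (Set.mem_univ x)
    simpa [U] using this
  obtain ⟨t, ht⟩ := hcov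
  let P : Fin t.card → M := fun i => (t.equivFin.symm i : M)
  have hP : ∀ x : HopfX, ∃ i, (e x : M) ∈ (chartAt (EuclideanSpace ℂ (Fin N)) (P i)).source := by
    intro x
    obtain ⟨p, hp, hx⟩ := ht x
    refine ⟨t.equivFin ⟨p, hp⟩, ?_⟩
    simpa [P] using hx
  let V : Fin t.card → Set C3 := fun i =>
    {z | z ≠ 0 ∧ extractJ e z ∈ (chartAt (EuclideanSpace ℂ (Fin N)) (P i)).source}
  have hVo : ∀ i, IsOpen (V i) := by
    intro i
    rw [isOpen_iff_mem_nhds]
    rintro z ⟨hz, hz'⟩
    have h1 : ∀ᶠ w in 𝓝 z, w ≠ 0 := isOpen_ne.mem_nhds hz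
    have h2 : ∀ᶠ w in 𝓝 z,
        extractJ e w ∈ (chartAt (EuclideanSpace ℂ (Fin N)) (P i)).source :=
      (extractJ_cont e z hz).eventually
        ((chartAt (EuclideanSpace ℂ (Fin N)) (P i)).open_source.mem_nhds hz')
    filter_upwards [h1, h2] with w a1 a2
    exact ⟨a1, a2⟩
  obtain ⟨i₀, hi₀⟩ := hP (proj e1)
  have hmem : e1 ∈ V i₀ := ⟨e1_ne_zero, hi₀⟩
  obtain ⟨a, b, c, ha, hb, hc, hev⟩ := extract_local e he (P i₀) hi₀
  refine ⟨t.card, ⟨{
    V := V
    V_open := hVo
    V_zero := fun i h => h.1 rfl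
    V_cover := fun z hz => ?_
    V_scale := fun i z => ?_
    g := fun i k => extractG (N := N) e (P i) (P k)
    g_an := fun i k z hz => extractG_an e he _ _ z hz.1.1 hz.1.2 hz.2.2
    g_scale := fun i k z hz => ?_
    g_self := fun i z hz => extractG_self e _ z hz.2
    g_mul := fun i k l z hz => extractG_mul e _ _ _ z hz.1.1.2 hz.1.2.2 hz.2.2
    s := fun i => extractS (N := N) e (P i)
    s_an := fun i z hz => extractS_an e he _ z hz.1 hz.2
    s_scale := fun i z hz => extractS_scale e he _ z hz.1 hz.2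
    s_trans := fun i k z hz => extractS_trans e he _ _ z hz.1.1 hz.1.2 hz.2.2
    i₀ := i₀
    mem₀ := hmem
    a := a
    b := b
    c := c
    a_an := ha
    b_an := hb
    c_an := hc
    s_eq := hev
    s_ne := ?_ }⟩⟩
  · obtain ⟨i, hi⟩ := hP (proj z)
    exact ⟨i, hz, hi⟩
  · by_cases hz : z = 0
    · subst hz
      simp
    · have h2z : (2 : ℂ) • z ≠ 0 := smul_ne_zero (by norm_num) hz
      constructor
      · rintro ⟨_, h⟩
        exact ⟨hz, by rwa [extractJ_scale e z hz] at h⟩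
      · rintro ⟨_, h⟩
        exact ⟨h2z, by rwa [extractJ_scale e z hz]⟩
  · show extractG (N := N) e (P i) (P k) ((2 : ℂ) • z) = extractG e (P i) (P k) z
    unfold extractG
    rw [extractJ_scale e z hz.1.1]
  · obtain ⟨r, hr, hr0, hinj⟩ := proj_injOn e1_ne_zero
    have hcont : Tendsto (fun t : ℂ => t • e1) (𝓝 1) (𝓝 e1) := by
      have : ContinuousAt (fun t : ℂ => t • e1) 1 := by fun_prop
      rw [ContinuousAt, one_smul] at this
      exact this
    have h1 : ∀ᶠ t : ℂ in 𝓝 1, t • e1 ∈ V i₀ := hcont.eventually ((hVo i₀).mem_nhds hmem)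
    have h2 : ∀ᶠ t : ℂ in 𝓝 1, t • e1 ∈ Metric.ball e1 r :=
      hcont.eventually (Metric.ball_mem_nhds e1 hr)
    have h3 : ∀ᶠ t : ℂ in 𝓝 1, t ≠ 0 := isOpen_ne.mem_nhds one_ne_zero
    filter_upwards [nhdsWithin_le_nhds h1, nhdsWithin_le_nhds h2, nhdsWithin_le_nhds h3,
      self_mem_nhdsWithin] with t a1 a2 a3 a4
    refine extractS_ne e he (P i₀) (t • e1) a1.1 a1.2 ?_ ?_
    · intro hx
      have h5 := hinj a2 (Metric.mem_ball_self hr) hx
      apply a4
      have h6 := congrFun h5 0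
      simpa [e1] using h6
    · simpa [e1] using a3

end main

theorem hopfData_of_embeds {N : ℕ} {M : Type*} [TopologicalSpace M]
    [ChartedSpace (EuclideanSpace ℂ (Fin N)) M]
    [IsManifold (𝓘(ℂ, EuclideanSpace ℂ (Fin N))) ω M]
    (h : EmbedsIn hopfSpace N M) :
    ∃ n : ℕ, Nonempty (HopfData N (Fin n)) := by
  obtain ⟨Y, _, e, he⟩ := h
  exact extract_main e he

end Pool.Agent.HopfEmb
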