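import Mathlib

/-!
# JOB FA-1: countability of the bad set of a compact operator

-/

set_option autoImplicit false

open Filter Topology

namespace Pool.Agent.HopfEmb

noncomputable section

/-- The eigenvectors of distinct eigenvalues, orthonormalised. -/
private theorem FA1_step {H : Type*} [NormedAddCommGroup H] [InnerProductSpace ℂ H]
    (C : H →L[ℂ] H) (μ : ℕ → ℂ) (hμ : Function.Injective μ) (x : ℕ → H)
    (hx : ∀ n, Module.End.HasEigenvector (C : Module.End ℂ H) (μ n) (x n)) :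
    ∃ y : ℕ → H, (∀ n, ‖y n‖ = 1) ∧ ∀ k n, k < n → ‖μ n‖ ≤ ‖C (y n) - C (y k)‖ := by
  classical
  have hli : LinearIndependent ℂ x :=
    Module.End.eigenvectors_linearIndependent' _ μ hμ x hx
  have hCx : ∀ n, C (x n) = μ n • x n := fun n => (hx n).apply_eq_smul
  let V : ℕ → Submodule ℂ H := fun n => Submodule.span ℂ (x '' Set.Iio n)
  have hVmono : ∀ {a b : ℕ}, a ≤ b → V a ≤ V b := fun h =>
    Submodule.span_mono (Set.image_mono fun i hi => lt_of_lt_of_le hi h)
  have hVC : ∀ n, ∀ v ∈ V n, C v ∈ V n := by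
    intro n v hv
    induction hv using Submodule.span_induction with
    | mem v hv =>
      obtain ⟨i, hi, rfl⟩ := hv
      rw [hCx]
      exact Submodule.smul_mem _ _ (Submodule.subset_span ⟨i, hi, rfl⟩)
    | zero => rw [map_zero]; exact zero_mem _
    | add a b _ _ ha hb => rw [map_add]; exact add_mem ha hb
    | smul c a _ ha => rw [map_smul]; exact Submodule.smul_mem _ _ ha
  have hVC' : ∀ n, ∀ v ∈ V (n + 1), C v - μ n • v ∈ V n := by
    intro n v hv
    induction hv using Submodule.span_induction with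
    | mem v hv =>
      obtain ⟨i, hi, rfl⟩ := hv
      rw [hCx, ← sub_smul]
      rcases (Nat.lt_succ_iff_lt_or_eq.1 hi) with h | h
      · exact Submodule.smul_mem _ _ (Submodule.subset_span ⟨i, h, rfl⟩)
      · rw [h, sub_self, zero_smul]; exact zero_mem _
    | zero => rw [map_zero, smul_zero, sub_zero]; exact zero_mem _
    | add a b _ _ ha hb =>
      have e : C (a + b) - μ n • (a + b) = (C a - μ n • a) + (C b - μ n • b) := by
        rw [map_add, smul_add]; abel
      rw [e]; exact add_mem ha hb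
    | smul c a _ ha =>
      have e : C (c • a) - μ n • (c • a) = c • (C a - μ n • a) := by
        rw [map_smul, smul_sub, smul_comm]
      rw [e]; exact Submodule.smul_mem _ _ ha
  let y : ℕ → H := InnerProductSpace.gramSchmidtNormed ℂ x
  have hyon : Orthonormal ℂ y := InnerProductSpace.gramSchmidtNormed_orthonormal hli
  have hyV : ∀ n, y n ∈ V (n + 1) := by
    intro n
    have h1 : y n ∈ Submodule.span ℂ (y '' Set.Iic n) := Submodule.subset_span ⟨n, Set.mem_Iic.2 le_rfl, rfl⟩
    rw [show Submodule.span ℂ (y '' Set.Iic n)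
      = Submodule.span ℂ (InnerProductSpace.gramSchmidt ℂ x '' Set.Iic n) from
        InnerProductSpace.span_gramSchmidtNormed x _, InnerProductSpace.span_gramSchmidt_Iic] at h1
    have h2 : Set.Iic n = Set.Iio (n + 1) := by ext i; simp [Nat.lt_succ_iff]
    rw [h2] at h1
    exact h1
  have horth : ∀ n, ∀ v ∈ V n, inner ℂ v (y n) = 0 := by
    intro n v hv
    have h1 : V n = Submodule.span ℂ (y '' Set.Iio n) := by
      rw [show Submodule.span ℂ (y '' Set.Iio n)
        = Submodule.span ℂ (InnerProductSpace.gramSchmidt ℂ x '' Set.Iio n) from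
          InnerProductSpace.span_gramSchmidtNormed x _, InnerProductSpace.span_gramSchmidt_Iio]
    rw [h1] at hv
    induction hv using Submodule.span_induction with
    | mem v hv =>
      obtain ⟨i, hi, rfl⟩ := hv
      exact hyon.2 (ne_of_lt hi)
    | zero => rw [inner_zero_left]
    | add a b _ _ ha hb => rw [inner_add_left, ha, hb, add_zero]
    | smul c a _ ha => rw [inner_smul_left, ha, mul_zero]
  refine ⟨y, hyon.1, fun k n hkn => ?_⟩
  let v : H := (C (y n) - μ n • y n) - C (y k)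
  have hv : v ∈ V n := Submodule.sub_mem _ (hVC' n _ (hyV n))
    (hVC n _ (hVmono (Nat.succ_le_of_lt hkn) (hyV k)))
  have e : C (y n) - C (y k) = v + μ n • y n := by simp only [v]; abel
  have h0 : inner ℂ v (μ n • y n) = 0 := by rw [inner_smul_right, horth n v hv, mul_zero]
  have h2 := norm_add_sq_eq_norm_sq_add_norm_sq_of_inner_eq_zero v (μ n • y n) (𝕜 := ℂ) h0
  rw [e]
  have h3 : ‖μ n • y n‖ = ‖μ n‖ := by rw [norm_smul, hyon.1 n, mul_one]
  rw [h3] at h2
  nlinarith [norm_nonneg v, norm_nonneg (v + μ n • y n), norm_nonneg (μ n)]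

private theorem FA1_finite {H : Type*} [NormedAddCommGroup H] [InnerProductSpace ℂ H]
    (C : H →L[ℂ] H) (hC : IsCompactOperator C) (ε : ℝ) (hε : 0 < ε) :
    {μ : ℂ | ε ≤ ‖μ‖ ∧ Module.End.HasEigenvalue (C : Module.End ℂ H) μ}.Finite := by
  by_contra hinf
  have hinf' : {μ : ℂ | ε ≤ ‖μ‖ ∧ Module.End.HasEigenvalue (C : Module.End ℂ H) μ}.Infinite := hinf
  let f := hinf'.natEmbedding
  have hf : ∀ n, ε ≤ ‖(f n : ℂ)‖ := fun n => (f n).2.1
  choose x hx using fun n => (f n).2.2.exists_hasEigenvector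
  obtain ⟨y, hy1, hy2⟩ := FA1_step C (fun n => (f n : ℂ))
    (fun a b h => f.injective (Subtype.ext h)) x hx
  obtain ⟨K, hK, hK'⟩ := hC.image_closedBall_subset_compact 1
  obtain ⟨z, -, ψ, hψ, hψz⟩ := hK.tendsto_subseq
    (fun n => hK' ⟨y n, by simp [hy1], rfl⟩ : ∀ n, C (y n) ∈ K)
  have hc := hψz.cauchySeq
  rw [Metric.cauchySeq_iff'] at hc
  obtain ⟨N, hN⟩ := hc ε hε
  have h1 := hN (N + 1) (Nat.le_succ N)
  rw [dist_eq_norm] at h1
  have h2 := hy2 (ψ N) (ψ (N + 1)) (hψ (Nat.lt_succ_self N))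
  exact absurd (lt_of_le_of_lt ((hf _).trans h2) h1) (lt_irrefl _)

/-- FA-1. For a compact operator `C` the set of real `τ` such that `1 + τ C` is not injective is
countable (Riesz: for every `ε > 0` there are only finitely many eigenvalues of modulus `≥ ε`;
otherwise take distinct eigenvalues `μ_n`, `|μ_n| ≥ ε`, `E_n` = span of the first `n` eigenvectors,
`y_n ∈ E_n` orthonormal with `y_n ⟂ E_{n-1}`; `(C - μ_n) E_n ⊆ E_{n-1}` gives
`‖C y_n - C y_k‖ ≥ ε` for `k < n`). -/
theorem countable_bad {H : Type*} [NormedAddCommGroup H] [InnerProductSpace ℂ H] [CompleteSpace H]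
    (C : H →L[ℂ] H) (hC : IsCompactOperator C) :
    {τ : ℝ | ∃ u : H, u ≠ 0 ∧ u + (τ : ℂ) • C u = 0}.Countable := by
  have h1 : (⋃ n : ℕ, {μ : ℂ | 1 / ((n : ℝ) + 1) ≤ ‖μ‖ ∧
      Module.End.HasEigenvalue (C : Module.End ℂ H) μ}).Countable :=
    Set.countable_iUnion fun n => (FA1_finite C hC _ (by positivity)).countable
  have hinj : Function.Injective fun τ : ℝ => -((τ : ℂ)⁻¹) := by
    intro a b h
    exact Complex.ofReal_injective (inv_injective (neg_injective h))
  refine (h1.preimage hinj).mono ?_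
  rintro τ ⟨u, hu, hτ⟩
  have hτ0 : τ ≠ 0 := by
    rintro rfl
    apply hu
    simpa using hτ
  have hτ0' : (τ : ℂ) ≠ 0 := Complex.ofReal_ne_zero.2 hτ0
  have hCu : C u = (-((τ : ℂ)⁻¹)) • u := by
    have h2 : (τ : ℂ) • C u = -u := by
      rw [eq_neg_iff_add_eq_zero, add_comm]; exact hτ
    calc C u = (τ : ℂ)⁻¹ • ((τ : ℂ) • C u) := (inv_smul_smul₀ hτ0' _).symm
      _ = (-((τ : ℂ)⁻¹)) • u := by rw [h2, smul_neg, neg_smul]
  have hpos : 0 < ‖-((τ : ℂ)⁻¹)‖ := by
    rw [norm_neg, norm_inv]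
    exact inv_pos.2 (norm_pos_iff.2 hτ0')
  obtain ⟨n, hn⟩ := exists_nat_one_div_lt hpos
  refine Set.mem_iUnion.2 ⟨n, hn.le, ?_⟩
  exact Module.End.hasEigenvalue_of_hasEigenvector
    ⟨Module.End.mem_eigenspace_iff.2 hCu, hu⟩

end

end Pool.Agent.HopfEmb
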