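import Pool.Agent.Lib.MP_d404b9_ag.FA1

/-!
# JOB FA-2: propagation of exactness
Closed (unbounded) operators are represented by their graphs.
-/

set_option autoImplicit false

open Filter Topology

namespace Pool.Agent.HopfEmb

noncomputable section

variable {H0 H1 H2 : Type*} [NormedAddCommGroup H0] [InnerProductSpace ℂ H0] [CompleteSpace H0]
  [NormedAddCommGroup H1] [InnerProductSpace ℂ H1] [CompleteSpace H1]
  [NormedAddCommGroup H2] [InnerProductSpace ℂ H2] [CompleteSpace H2]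

/-- Bounded right inverse of a closed relation which is bounded below. -/
private theorem FA2_inverse {X Y : Type*} [NormedAddCommGroup X] [InnerProductSpace ℂ X]
    [CompleteSpace X] [NormedAddCommGroup Y] [InnerProductSpace ℂ Y] [CompleteSpace Y]
    (G : Submodule ℂ (X × Y)) (hG : IsClosed (G : Set (X × Y))) (C : ℝ)
    (est : ∀ x y, (x, y) ∈ G → ‖x‖ ≤ C * ‖y‖) :
    ∃ (Q : Y →L[ℂ] X) (A : Y →L[ℂ] Y), (∀ y, (Q y, A y) ∈ G) ∧
      (∀ x y, (x, y) ∈ G → Q y = x ∧ A y = y) ∧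
      (∀ y, ∀ x y', (x, y') ∈ G → inner ℂ y' (y - A y) = 0) ∧
      (∀ y, (∀ x y', (x, y') ∈ G → inner ℂ y' y = 0) → Q y = 0) := by
  classical
  let L : G →L[ℂ] Y := ContinuousLinearMap.snd ℂ X Y ∘L G.subtypeL
  have hLdef : ∀ g : G, L g = g.1.2 := fun g => rfl
  have hb : ∀ g : G, ‖g‖ ≤ (⟨max |C| 1, by positivity⟩ : NNReal) * ‖L g‖ := by
    intro g
    change ‖g.1‖ ≤ max |C| 1 * ‖g.1.2‖
    rw [Prod.norm_def]
    refine max_le ?_ ?_
    · refine (est g.1.1 g.1.2 g.2).trans ?_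
      exact mul_le_mul_of_nonneg_right ((le_abs_self C).trans (le_max_left _ _)) (norm_nonneg _)
    · nlinarith [norm_nonneg g.1.2, le_max_right |C| 1]
  have hanti : AntilipschitzWith _ L := L.antilipschitz_of_bound hb
  have hGc : CompleteSpace G := hG.completeSpace_coe
  have hclosed : IsClosed (L.range : Set Y) := hanti.isClosed_range L.uniformContinuous
  have hRc : CompleteSpace L.range := hclosed.completeSpace_coe
  let E : G ≃ₗ[ℂ] L.range := LinearEquiv.ofInjective (L : G →ₗ[ℂ] Y) hanti.injective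
  have hE : ∀ r : L.range, L (E.symm r) = r := by
    intro r
    have h1 : E (E.symm r) = r := E.apply_symm_apply r
    exact congrArg Subtype.val h1
  let q0 : L.range →ₗ[ℂ] X :=
    (LinearMap.fst ℂ X Y ∘ₗ G.subtype) ∘ₗ (E.symm : L.range →ₗ[ℂ] G)
  have hq0 : ∀ r : L.range, (q0 r, (r : Y)) ∈ G := by
    intro r
    have h1 := (E.symm r).2
    have h2 : (E.symm r).1 = (q0 r, (r : Y)) := by
      refine Prod.ext rfl ?_
      exact hE r
    rwa [h2] at h1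
  let q : L.range →L[ℂ] X := q0.mkContinuous C (fun r => est _ _ (hq0 r))
  have hq : ∀ r : L.range, (q r, (r : Y)) ∈ G := hq0
  have hmem : ∀ x y, (x, y) ∈ G → y ∈ L.range := fun x y h => ⟨⟨(x, y), h⟩, rfl⟩
  have huniq : ∀ x x' y, (x, y) ∈ G → (x', y) ∈ G → x = x' := by
    intro x x' y h h'
    have h1 := est (x - x') 0 (by
      have := G.sub_mem h h'
      rwa [Prod.mk_sub_mk, sub_self] at this)
    rw [norm_zero, mul_zero] at h1
    exact sub_eq_zero.1 (norm_le_zero_iff.1 h1)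
  refine ⟨q ∘L L.range.orthogonalProjectionOnto, L.range.starProjection, ?_, ?_, ?_, ?_⟩
  · intro y
    exact hq _
  · intro x y h
    have h1 : L.range.starProjection y = y :=
      Submodule.starProjection_eq_self_iff.2 (hmem x y h)
    refine ⟨?_, h1⟩
    refine huniq _ _ y ?_ h
    have h2 := hq (L.range.orthogonalProjectionOnto y)
    have h3 : ((L.range.orthogonalProjectionOnto y : L.range) : Y) = y := h1
    rw [h3] at h2
    exact h2
  · intro y x y' h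
    exact Submodule.sub_starProjection_mem_orthogonal y y' (hmem x y' h)
  · intro y h
    have h1 : L.range.orthogonalProjectionOnto y = 0 := by
      rw [Submodule.orthogonalProjectionOnto_eq_zero_iff]
      rintro _ ⟨g, rfl⟩
      exact h g.1.1 g.1.2 g.2
    rw [ContinuousLinearMap.comp_apply, h1, map_zero]

/-- The Fredholm alternative in the form used below. -/
private theorem FA2_surj {H : Type*} [NormedAddCommGroup H] [InnerProductSpace ℂ H]
    [CompleteSpace H] (C : H →L[ℂ] H) (hC : IsCompactOperator C) (τ : ℂ)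
    (hinj : ∀ u, u + τ • C u = 0 → u = 0) (y : H) : ∃ v, v + τ • C v = y := by
  by_cases hτ : τ = 0
  · exact ⟨y, by rw [hτ, zero_smul, add_zero]⟩
  have hμ : -(τ⁻¹) ≠ 0 := neg_ne_zero.2 (inv_ne_zero hτ)
  rcases IsCompactOperator.hasEigenvalue_or_mem_resolventSet hC hμ with h | h
  · obtain ⟨u, hu⟩ := h.exists_hasEigenvector
    have h1 : C u = (-(τ⁻¹)) • u := hu.apply_eq_smul
    exfalso
    apply hu.2
    apply hinj
    rw [h1, smul_smul, mul_neg, mul_inv_cancel₀ hτ, neg_one_smul, add_neg_cancel]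
  · rw [spectrum.mem_resolventSet_iff, ContinuousLinearMap.isUnit_iff_bijective] at h
    obtain ⟨v, hv⟩ := h.2 ((-(τ⁻¹)) • y)
    refine ⟨v, ?_⟩
    have h1 : (-(τ⁻¹)) • v - C v = (-(τ⁻¹)) • y := hv
    have h2 := congrArg (fun t => (-τ) • t) h1
    simp only [smul_sub, smul_smul] at h2
    rw [neg_mul_neg, mul_inv_cancel₀ hτ, one_smul, one_smul, neg_smul, sub_neg_eq_add] at h2
    exact h2

/-- FA-2. Propagation of exactness.

Proof. Let `R0 = {f | ∃ u, (u,f) ∈ G0}`; it is closed by `est0`. `Q1 f = u` where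
`(u, proj_{R0} f) ∈ G0`. If `(f,0) ∈ G1` then `f ∈ R0` (subtract the projection, use `est1`).
`R1 = {h | ∃ f, (f,h) ∈ G1}` is closed by `est1` (normalise `f ⟂ R0`); `Q2 h = f` where `f ⟂ R0` and
`(f, proj_{R1} h) ∈ G1`. For `(f,h) ∈ G1`: `(Q1 f, f - Q2 h) ∈ G0`. For `(u,f) ∈ G0`: `Q1 f = u`.
`Q1`, `Q2` are compact by `cpt0`, `cpt1`. Put `C0 = Q1 M0`, `C1 = M0 Q1 + Q2 M1`, and let `N` be the
set of `τ` for which `1 + τ C0` or `1 + τ C1` is not injective (FA-1).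
(a) If `(u, -τ M0 u) ∈ G0` then `u = Q1 (-τ M0 u)`, so `(1 + τ C0) u = 0`.
(b) If `(f, -τ M1 f) ∈ G1`, let `u₀ = Q1 f`; then `(u₀, f + τ Q2 M1 f) ∈ G0`. As `1 + τ C0` is
bijective (Fredholm alternative `IsCompactOperator.hasEigenvalue_or_mem_resolventSet`) there is `v`
with `v + τ Q1 M0 v = u₀`, and `(v, w) ∈ G0` with `w = proj f - τ proj (M0 v)`. Let
`f' = w + τ M0 v`; then `(f', -τ M1 f') ∈ G1`, `Q1 f' = u₀`, and applying the homotopy identity to
`f` and `f'` gives `(1 + τ C1) f' = (1 + τ C1) f`, hence `f' = f`. -/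
theorem exact_perturb
    (G0 : Submodule ℂ (H0 × H1)) (G1 : Submodule ℂ (H1 × H2))
    (hG0 : IsClosed (G0 : Set (H0 × H1))) (hG1 : IsClosed (G1 : Set (H1 × H2)))
    (h01 : ∀ u f, (u, f) ∈ G0 → (f, (0 : H2)) ∈ G1)
    (C : ℝ)
    (est0 : ∀ u f, (u, f) ∈ G0 → ‖u‖ ≤ C * ‖f‖)
    (est1 : ∀ f h, (f, h) ∈ G1 → (∀ u f', (u, f') ∈ G0 → inner ℂ f' f = 0) → ‖f‖ ≤ C * ‖h‖)
    (M0 : H0 →L[ℂ] H1) (M1 : H1 →L[ℂ] H2) (hM : ∀ u, M1 (M0 u) = 0)
    (hGM : ∀ u f, (u, f) ∈ G0 → (M0 u, - M1 f) ∈ G1)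
    (cpt0 : ∀ (Q : H1 →L[ℂ] H0) (A : H1 →L[ℂ] H1), (∀ x, (Q x, A x) ∈ G0) → IsCompactOperator Q)
    (cpt1 : ∀ (Q : H2 →L[ℂ] H1) (A : H2 →L[ℂ] H2), (∀ x, (Q x, A x) ∈ G1) →
      (∀ x u f', (u, f') ∈ G0 → inner ℂ f' (Q x) = 0) → IsCompactOperator Q) :
    ∃ N : Set ℝ, N.Countable ∧ ∀ τ : ℝ, τ ∉ N →
      (∀ u, (u, -((τ : ℂ) • M0 u)) ∈ G0 → u = 0) ∧
      (∀ f, (f, -((τ : ℂ) • M1 f)) ∈ G1 → ∃ u, (u, f - (τ : ℂ) • M0 u) ∈ G0) := by
  obtain ⟨Q1, A1, hQ1, hQ1', hQ1o, hQ1z⟩ := FA2_inverse G0 hG0 C est0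
  -- the restricted relation
  let G1' : Submodule ℂ (H1 × H2) :=
    { carrier := {p | p ∈ G1 ∧ ∀ u f', (u, f') ∈ G0 → inner ℂ f' p.1 = 0}
      add_mem' := by
        rintro a b ⟨ha, ha'⟩ ⟨hb, hb'⟩
        refine ⟨G1.add_mem ha hb, fun u f' h => ?_⟩
        rw [Prod.fst_add, inner_add_right, ha' u f' h, hb' u f' h, add_zero]
      zero_mem' := ⟨G1.zero_mem, fun u f' _ => inner_zero_right _⟩
      smul_mem' := by
        rintro c a ⟨ha, ha'⟩
        refine ⟨G1.smul_mem c ha, fun u f' h => ?_⟩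
        rw [Prod.smul_fst, inner_smul_right, ha' u f' h, mul_zero] }
  have hG1' : IsClosed (G1' : Set (H1 × H2)) := by
    have h1 : (G1' : Set (H1 × H2)) = (G1 : Set (H1 × H2)) ∩
        ⋂ (p : H0 × H1) (_ : p ∈ G0), {x : H1 × H2 | inner ℂ p.2 x.1 = 0} := by
      ext x
      simp only [Set.mem_inter_iff, Set.mem_iInter, Set.mem_ofPred_eq]
      constructor
      · rintro ⟨h, h'⟩
        exact ⟨h, fun p hp => h' p.1 p.2 hp⟩
      · rintro ⟨h, h'⟩
        exact ⟨h, fun u f' huf => h' (u, f') huf⟩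
    rw [h1]
    refine hG1.inter (isClosed_iInter fun p => isClosed_iInter fun _ => ?_)
    exact isClosed_eq (by fun_prop) continuous_const
  obtain ⟨Q2, A2, hQ2, hQ2', -, -⟩ := FA2_inverse G1' hG1' C
    (fun f h hfh => est1 f h hfh.1 hfh.2)
  have hcQ1 : IsCompactOperator Q1 := cpt0 Q1 A1 hQ1
  have hcQ2 : IsCompactOperator Q2 := cpt1 Q2 A2 (fun x => (hQ2 x).1) (fun x => (hQ2 x).2)
  -- the homotopy identity
  have hA1 : ∀ f h, (f, h) ∈ G1 → A1 f = f - Q2 h := by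
    intro f h hfh
    have h1 : (A1 f, (0 : H2)) ∈ G1 := h01 _ _ (hQ1 f)
    have h2 : (f - A1 f, h) ∈ G1' := by
      refine ⟨?_, fun u f' huf => hQ1o f u f' huf⟩
      have := G1.sub_mem hfh h1
      rwa [Prod.mk_sub_mk, sub_zero] at this
    rw [(hQ2' _ _ h2).1, sub_sub_cancel]
  let C0 : H0 →L[ℂ] H0 := Q1 ∘L M0
  let C1 : H1 →L[ℂ] H1 := M0 ∘L Q1 + Q2 ∘L M1
  have hC0 : IsCompactOperator C0 := hcQ1.comp_clm M0
  have hC1 : IsCompactOperator C1 := (hcQ1.clm_comp M0).add (hcQ2.comp_clm M1)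
  refine ⟨{τ : ℝ | ∃ u : H0, u ≠ 0 ∧ u + (τ : ℂ) • C0 u = 0} ∪
    {τ : ℝ | ∃ f : H1, f ≠ 0 ∧ f + (τ : ℂ) • C1 f = 0},
    (countable_bad C0 hC0).union (countable_bad C1 hC1), fun τ hτ => ?_⟩
  have h0 : ∀ u, u + (τ : ℂ) • C0 u = 0 → u = 0 := by
    intro u hu
    by_contra hne
    exact hτ (Or.inl ⟨u, hne, hu⟩)
  have h1 : ∀ f, f + (τ : ℂ) • C1 f = 0 → f = 0 := by
    intro u hu
    by_contra hne
    exact hτ (Or.inr ⟨u, hne, hu⟩)
  refine ⟨?_, ?_⟩
  · intro u hu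
    apply h0
    have h2 := (hQ1' _ _ hu).1
    rw [map_neg, map_smul] at h2
    change u + (τ : ℂ) • Q1 (M0 u) = 0
    nth_rw 1 [← h2]
    rw [neg_add_cancel]
  · intro f hf
    obtain ⟨v, hv⟩ := FA2_surj C0 hC0 τ h0 (Q1 f)
    have hv1 : Q1 (f - (τ : ℂ) • M0 v) = v := by
      rw [map_sub, map_smul, ← hv]
      exact add_sub_cancel_right _ _
    let w : H1 := A1 (f - (τ : ℂ) • M0 v)
    have hw : (v, w) ∈ G0 := by
      have := hQ1 (f - (τ : ℂ) • M0 v)
      rwa [hv1] at this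
    let f' : H1 := w + (τ : ℂ) • M0 v
    have hM1f' : M1 f' = M1 w := by
      change M1 (w + (τ : ℂ) • M0 v) = M1 w
      rw [map_add, map_smul, hM, smul_zero, add_zero]
    have hf' : (f', -((τ : ℂ) • M1 f')) ∈ G1 := by
      have h2 := G1.add_mem (h01 _ _ hw) (G1.smul_mem (τ : ℂ) (hGM _ _ hw))
      rw [Prod.smul_mk, Prod.mk_add_mk, zero_add, smul_neg] at h2
      rw [hM1f']
      exact h2
    have hQf' : Q1 f' = Q1 f := by
      change Q1 (w + (τ : ℂ) • M0 v) = Q1 f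
      rw [map_add, map_smul, (hQ1' _ _ hw).1]
      exact hv
    -- the difference
    let d : H1 := f - f'
    have hQd : Q1 d = 0 := by
      change Q1 (f - f') = 0
      rw [map_sub, hQf', sub_self]
    have hd : (d, -((τ : ℂ) • M1 d)) ∈ G1 := by
      have h2 := G1.sub_mem hf hf'
      rw [Prod.mk_sub_mk] at h2
      have e : -((τ : ℂ) • M1 d) = -((τ : ℂ) • M1 f) - -((τ : ℂ) • M1 f') := by
        change -((τ : ℂ) • M1 (f - f')) = _
        rw [map_sub, smul_sub]; abel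
      rw [e]; exact h2
    have hy : ((0 : H0), d + (τ : ℂ) • Q2 (M1 d)) ∈ G0 := by
      have h2 := hQ1 d
      rw [hQd, hA1 _ _ hd, map_neg, map_smul, sub_neg_eq_add] at h2
      exact h2
    have hz : Q2 (M1 (d + (τ : ℂ) • Q2 (M1 d))) = 0 := by
      have h2 := hGM _ _ hy
      rw [map_zero] at h2
      have h3 : ((0 : H1), -(M1 (d + (τ : ℂ) • Q2 (M1 d)))) ∈ G1' :=
        ⟨h2, fun u f' _ => inner_zero_right _⟩
      have h4 := (hQ2' _ _ h3).1
      rwa [map_neg, neg_eq_zero] at h4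
    have hg : Q2 (M1 d) = 0 := by
      apply h1
      have h2 : Q1 (Q2 (M1 d)) = 0 := hQ1z _ (fun u f' huf => (hQ2 (M1 d)).2 u f' huf)
      change Q2 (M1 d) + (τ : ℂ) • (M0 (Q1 (Q2 (M1 d))) + Q2 (M1 (Q2 (M1 d)))) = 0
      rw [h2, map_zero, zero_add]
      rw [map_add, map_smul, map_add, map_smul] at hz
      exact hz
    rw [hg, smul_zero, add_zero] at hy
    refine ⟨v, ?_⟩
    have h2 := G0.add_mem hw hy
    rw [Prod.mk_add_mk, add_zero] at h2
    have e : w + d = f - (τ : ℂ) • M0 v := by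
      change w + (f - (w + (τ : ℂ) • M0 v)) = _
      abel
    rwa [e] at h2

end

end Pool.Agent.HopfEmb
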