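import Pool.Agent.Lib.MP_d404b9_ag.HopfTop

/-!
# JOB HOPF-MODEL: local models of the pinched Hopf threefold

At `x ≠ x0`, `x = proj z`: model `A = U =` small ball around `z` not meeting
`2^ℤ e1` (via `EuclideanSpace.equiv`), `e` = local inverse of `proj`. At `x0`: take a small ball
`B = B(0,r)`, `V = proj (e1 + B)`; `A = Φ(B)` is an analytic subset of the open set
`U = {(a,b,c,d,e,f) | √|a| < r, |c| < r, |d| < r}` (for the sup norm on `C3`), with equations
`b² = a³, e² = a c², f² = a d², b c = a e, b d = a f` (if `a ≠ 0` put `t = b/a`, then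
`t² = a, t³ = b, e = t c, f = t d`; if `a = 0` then `b = e = f = 0`). `Φ` is injective and a
homeomorphism onto `A` (it is proper/closed; or the inverse is continuous: `t = b/a` for `a ≠ 0`, and
`|t| = √|a| → 0`). Holomorphic functions: at `0` the two notions agree by definition of `IsHolX`;
at `w ≠ 0` near `0` there is a holomorphic local retraction `r` of `Φ`: `w_0 = b/a` if `w_0 ≠ 0`,
`w_0 = e/c` if `w_1 ≠ 0`, `w_0 = f/d` if `w_2 ≠ 0`, so `f = (f ∘ r) ∘ Φ`.
-/

set_option autoImplicit false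

open Filter Topology
open scoped Manifold ContDiff

namespace Pool.Agent.HopfEmb

noncomputable section

private theorem HopfModel_two_zpow (k : ℤ) : ((2 : ℂ) ^ k) ≠ 0 := zpow_ne_zero _ (by norm_num)

private theorem HopfModel_proj_smul {z : C3} (hz : z ≠ 0) (k : ℤ) :
    proj (((2 : ℂ) ^ k) • z) = proj z := by
  symm
  rw [proj_eq_iff hz (smul_ne_zero (HopfModel_two_zpow k) hz)]
  exact ⟨k, rfl⟩

private theorem HopfModel_analytic_smul {f : HopfX → ℂ} {z : C3} (hz : z ≠ 0) (k : ℤ)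
    (h : AnalyticAt ℂ (fun w => f (proj w)) z) :
    AnalyticAt ℂ (fun w => f (proj w)) (((2 : ℂ) ^ k) • z) := by
  have h1 : AnalyticAt ℂ (fun w : C3 => ((2 : ℂ) ^ (-k)) • w) (((2 : ℂ) ^ k) • z) :=
    (((2 : ℂ) ^ (-k)) • (ContinuousLinearMap.id ℂ C3)).analyticAt _
  have hpt : ((2 : ℂ) ^ (-k)) • (((2 : ℂ) ^ k) • z) = z := by
    rw [smul_smul, ← zpow_add₀ (by norm_num : (2 : ℂ) ≠ 0)]
    simp
  have h2 : AnalyticAt ℂ (fun w => f (proj w)) (((2 : ℂ) ^ (-k)) • (((2 : ℂ) ^ k) • z)) := by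
    rw [hpt]
    exact h
  have h3 : AnalyticAt ℂ (fun w : C3 => f (proj (((2 : ℂ) ^ (-k)) • w)))
      (((2 : ℂ) ^ k) • z) := AnalyticAt.comp (g := fun w => f (proj w))
      (f := fun w : C3 => ((2 : ℂ) ^ (-k)) • w) h2 h1
  apply h3.congr
  have hne : ((2 : ℂ) ^ k) • z ≠ 0 := smul_ne_zero (HopfModel_two_zpow k) hz
  filter_upwards [isOpen_ne.mem_nhds hne] with w hw
  rw [HopfModel_proj_smul hw]

private theorem HopfModel_isHolX_iff {f : HopfX → ℂ} {z : C3} (hz : z ≠ 0) (hx : proj z ≠ x0) :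
    IsHolX f (proj z) ↔ AnalyticAt ℂ (fun w => f (proj w)) z := by
  constructor
  · rintro (⟨-, h⟩ | ⟨h, -⟩)
    · exact h z hz rfl
    · exact absurd h hx
  · intro h
    left
    refine ⟨hx, ?_⟩
    intro z' hz' hzz
    obtain ⟨k, hk⟩ := (proj_eq_iff hz hz').mp hzz.symm
    rw [hk]
    exact HopfModel_analytic_smul hz k h

/-- From a chart of the Hopf threefold and an embedding of the chart to a local model. -/
private theorem HopfModel_aux {n : ℕ} (z : C3) {r : ℝ} (hr : 0 < r)
    (h0 : (0 : C3) ∉ Metric.ball z r) (hinj : Set.InjOn proj (Metric.ball z r))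
    (Ψ : C3 → EuclideanSpace ℂ (Fin n)) (hΨ : IsEmbedding Ψ)
    (U : Set (EuclideanSpace ℂ (Fin n))) (hU : IsOpen U)
    (hA : IsAnalyticSubset U (Ψ '' Metric.ball 0 r))
    (hloc : ∀ (f : HopfX → ℂ), ∀ w ∈ Metric.ball (0 : C3) r, IsHolX f (proj (z + w)) ↔
      ∃ g : EuclideanSpace ℂ (Fin n) → ℂ, AnalyticAt ℂ g (Ψ w) ∧
        ∀ᶠ w' in 𝓝 w, f (proj (z + w')) = g (Ψ w')) :
    ∃ (n : ℕ) (U A : Set (EuclideanSpace ℂ (Fin n)))
    (V : Set HopfX) (e : V ≃ₜ A), IsOpen V ∧ proj z ∈ V ∧ IsOpen U ∧ IsAnalyticSubset U A ∧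
      ∀ (f : HopfX → ℂ) (y : V), IsHolX f y ↔ HolOn A (fun a => f (e.symm a)) (e y) := by
  set B : Set C3 := Metric.ball (0 : C3) r with hB
  have hBo : IsOpen B := Metric.isOpen_ball
  have hshift : ∀ w ∈ B, z + w ∈ Metric.ball z r := by
    intro w hw
    rw [hB, Metric.mem_ball, dist_zero_right] at hw
    rw [Metric.mem_ball, dist_eq_norm, add_sub_cancel_left]
    exact hw
  have hshift' : ∀ w, z + w ∈ Metric.ball z r → w ∈ B := by
    intro w hw
    rw [Metric.mem_ball, dist_eq_norm, add_sub_cancel_left] at hw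
    rw [hB, Metric.mem_ball, dist_zero_right]
    exact hw
  have hnz : ∀ w ∈ B, z + w ≠ 0 := fun w hw h => h0 (h ▸ hshift w hw)
  -- the chart
  have hψ : IsOpenEmbedding (fun w : B => proj (z + w)) := by
    apply IsOpenEmbedding.of_continuous_injective_isOpenMap
    · rw [continuous_iff_continuousAt]
      intro w
      have h1 : ContinuousAt proj (z + w) := proj_continuousAt (hnz w w.2)
      exact ContinuousAt.comp (f := fun w : B => z + (w : C3)) (g := proj) h1
        (by fun_prop)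
    · intro w w' h
      have h1 := hinj (hshift w w.2) (hshift w' w'.2) h
      exact Subtype.ext (add_left_cancel h1)
    · intro O hO
      obtain ⟨O', hO', rfl⟩ := isOpen_induced_iff.mp hO
      have h1 : (fun w : B => proj (z + w)) '' (Subtype.val ⁻¹' O') =
          proj '' ((fun w => z + w) '' (O' ∩ B)) := by
        ext x
        constructor
        · rintro ⟨w, hw, rfl⟩
          exact ⟨z + w, ⟨w, ⟨hw, w.2⟩, rfl⟩, rfl⟩
        · rintro ⟨_, ⟨w, ⟨hw, hw2⟩, rfl⟩, rfl⟩
          exact ⟨⟨w, hw2⟩, hw, rfl⟩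
      rw [h1]
      apply proj_image_open
      · exact (Homeomorph.addLeft z).isOpenMap _ (hO'.inter hBo)
      · rintro ⟨w, ⟨-, hw⟩, hw2⟩
        exact hnz w hw hw2
  have hΨB : IsEmbedding (fun w : B => Ψ w) := hΨ.comp IsEmbedding.subtypeVal
  have hrange : Set.range (fun w : B => Ψ w) = Ψ '' B := by
    ext a
    constructor
    · rintro ⟨w, rfl⟩
      exact ⟨w, w.2, rfl⟩
    · rintro ⟨w, hw, rfl⟩
      exact ⟨⟨w, hw⟩, rfl⟩
  refine ⟨n, U, Set.range (fun w : B => Ψ w), Set.range (fun w : B => proj (z + w)),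
    hψ.isEmbedding.toHomeomorph.symm.trans hΨB.toHomeomorph, hψ.isOpen_range, ?_, hU, ?_, ?_⟩
  · exact ⟨⟨0, Metric.mem_ball_self hr⟩, by simp⟩
  · rw [hrange]
    exact hA
  · rintro f ⟨_, w, rfl⟩
    set E1 := hψ.isEmbedding.toHomeomorph with hE1
    set E2 := hΨB.toHomeomorph with hE2
    have e1w : (⟨proj (z + w), w, rfl⟩ : Set.range (fun w : B => proj (z + w))) = E1 w := rfl
    have key : ∀ g : EuclideanSpace ℂ (Fin n) → ℂ,
        (∀ᶠ a : Set.range (fun w : B => Ψ w) in 𝓝 (E2 w), f (E1 (E2.symm a)) = g a) ↔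
        ∀ᶠ w' in 𝓝 (w : C3), f (proj (z + w')) = g (Ψ w') := by
      intro g
      rw [← E2.map_nhds_eq w, eventually_map]
      have h1 : (∀ᶠ w' : B in 𝓝 w, f (E1 (E2.symm (E2 w'))) = g (E2 w')) ↔
          ∀ᶠ w' : B in 𝓝 w, f (proj (z + w')) = g (Ψ w') := by
        apply eventually_congr
        filter_upwards with w'
        rw [E2.symm_apply_apply]
        rfl
      rw [h1, ← hBo.isOpenEmbedding_subtypeVal.map_nhds_eq w, eventually_map]
    rw [e1w]
    have h2 : HolOn (Set.range (fun w : B => Ψ w))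
        (fun a => f ((E1.symm.trans E2).symm a)) ((E1.symm.trans E2) (E1 w)) ↔
        ∃ g : EuclideanSpace ℂ (Fin n) → ℂ, AnalyticAt ℂ g (Ψ w) ∧
        ∀ᶠ w' in 𝓝 (w : C3), f (proj (z + w')) = g (Ψ w') := by
      have h3 : (E1.symm.trans E2) (E1 w) = E2 w := by
        simp
      rw [h3]
      unfold HolOn
      constructor
      · rintro ⟨g, hg1, hg2⟩
        exact ⟨g, hg1, (key g).mp hg2⟩
      · rintro ⟨g, hg1, hg2⟩
        exact ⟨g, hg1, (key g).mpr hg2⟩
    rw [h2]
    exact hloc f w w.2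

/-- Translation. -/
private theorem HopfModel_translate {f : HopfX → ℂ} {z w : C3} :
    AnalyticAt ℂ (fun w => f (proj w)) (z + w) ↔
      AnalyticAt ℂ (fun w => f (proj (z + w))) w := by
  constructor
  · intro h
    exact AnalyticAt.comp (g := fun w => f (proj w)) (f := fun w => z + w) h
      (analyticAt_const.add analyticAt_id)
  · intro h
    have hw : -z + (z + w) = w := by abel
    have h1 : AnalyticAt ℂ (fun w => f (proj (z + w))) (-z + (z + w)) := by
      rw [hw]
      exact h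
    have h2 := AnalyticAt.comp (g := fun w => f (proj (z + w))) (f := fun w => -z + w)
      (x := z + w) h1 (analyticAt_const.add analyticAt_id)
    apply h2.congr
    filter_upwards with y
    simp only [Function.comp]
    congr 2
    abel

private theorem HopfModel_smooth_point {z : C3} (hz : z ≠ 0) (hx : proj z ≠ x0) :
    ∃ (n : ℕ) (U A : Set (EuclideanSpace ℂ (Fin n)))
    (V : Set HopfX) (e : V ≃ₜ A), IsOpen V ∧ proj z ∈ V ∧ IsOpen U ∧ IsAnalyticSubset U A ∧
      ∀ (f : HopfX → ℂ) (y : V), IsHolX f y ↔ HolOn A (fun a => f (e.symm a)) (e y) := by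
  obtain ⟨r₁, hr₁, h0, hinj⟩ := proj_injOn hz
  have h1 : ∀ᶠ w in 𝓝 z, proj w ≠ x0 :=
    (proj_continuousAt hz).eventually (isOpen_ne.mem_nhds hx)
  obtain ⟨r₂, hr₂, h2⟩ := Metric.eventually_nhds_iff_ball.mp h1
  set r := min r₁ r₂ with hr
  have hrpos : 0 < r := lt_min hr₁ hr₂
  have hsub : Metric.ball z r ⊆ Metric.ball z r₁ := Metric.ball_subset_ball (min_le_left _ _)
  have hsub2 : Metric.ball z r ⊆ Metric.ball z r₂ := Metric.ball_subset_ball (min_le_right _ _)
  let L : EuclideanSpace ℂ (Fin 3) ≃L[ℂ] C3 := EuclideanSpace.equiv (Fin 3) ℂ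
  apply HopfModel_aux z hrpos (fun h => h0 (hsub h)) (hinj.mono hsub) L.symm
    L.symm.toHomeomorph.isEmbedding (L.symm '' Metric.ball 0 r)
    (L.symm.toHomeomorph.isOpenMap _ Metric.isOpen_ball)
  · refine ⟨Set.Subset.rfl, ?_⟩
    intro x hx
    refine ⟨L.symm '' Metric.ball 0 r,
      (L.symm.toHomeomorph.isOpenMap _ Metric.isOpen_ball).mem_nhds hx, 0, fun i => i.elim0,
      fun i => i.elim0, ?_⟩
    intro y hy
    exact ⟨fun _ i => i.elim0, fun _ => hy⟩
  · intro f w hw
    have hzw : z + w ∈ Metric.ball z r := by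
      rw [Metric.mem_ball, dist_zero_right] at hw
      rw [Metric.mem_ball, dist_eq_norm, add_sub_cancel_left]
      exact hw
    have hne : z + w ≠ 0 := fun h => h0 (hsub (h ▸ hzw))
    rw [HopfModel_isHolX_iff hne (h2 _ (hsub2 hzw)), HopfModel_translate]
    constructor
    · intro h
      refine ⟨fun a => f (proj (z + L a)), ?_, ?_⟩
      · have h3 : AnalyticAt ℂ (fun w => f (proj (z + w))) (L (L.symm w)) := by
          rw [L.apply_symm_apply]
          exact h
        exact AnalyticAt.comp (g := fun w => f (proj (z + w))) (f := fun a => L a) h3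
          (L.toContinuousLinearMap.analyticAt _)
      · filter_upwards with w'
        rw [L.apply_symm_apply]
    · rintro ⟨g, hg1, hg2⟩
      have h3 : AnalyticAt ℂ (fun w' => g (L.symm w')) w :=
        AnalyticAt.comp (g := g) (f := fun w' => L.symm w') hg1
          (L.symm.toContinuousLinearMap.analyticAt _)
      exact h3.congr (hg2.mono fun w' h => h.symm)

/-! ### The singular point -/

private theorem HopfModel_apply (w : C3) :
    Φ w 0 = w 0 ^ 2 ∧ Φ w 1 = w 0 ^ 3 ∧ Φ w 2 = w 1 ∧ Φ w 3 = w 2 ∧ Φ w 4 = w 0 * w 1 ∧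
      Φ w 5 = w 0 * w 2 := by
  refine ⟨?_, ?_, ?_, ?_, ?_, ?_⟩ <;> simp [Φ]

private theorem HopfModel_Φ_analytic (w : C3) : AnalyticAt ℂ Φ w := by
  let L : EuclideanSpace ℂ (Fin 6) ≃L[ℂ] (Fin 6 → ℂ) := EuclideanSpace.equiv (Fin 6) ℂ
  have hc : ∀ i : Fin 3, AnalyticAt ℂ (fun w : C3 => w i) w := fun i =>
    (ContinuousLinearMap.proj (R := ℂ) (φ := fun _ : Fin 3 => ℂ) i).analyticAt w
  have h1 : AnalyticAt ℂ (fun w : C3 => L (Φ w)) w := by
    rw [analyticAt_pi_iff]
    intro i
    have hi : ∀ w : C3, (L (Φ w)) i = Φ w i := fun w => rfl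
    simp only [hi]
    fin_cases i
    · exact ((hc 0).pow 2).congr (by filter_upwards with w'; exact (HopfModel_apply w').1.symm)
    · exact ((hc 0).pow 3).congr (by filter_upwards with w'; exact (HopfModel_apply w').2.1.symm)
    · exact (hc 1).congr (by filter_upwards with w'; exact (HopfModel_apply w').2.2.1.symm)
    · exact (hc 2).congr (by filter_upwards with w'; exact (HopfModel_apply w').2.2.2.1.symm)
    · exact ((hc 0).mul (hc 1)).congr
        (by filter_upwards with w'; exact (HopfModel_apply w').2.2.2.2.1.symm)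
    · exact ((hc 0).mul (hc 2)).congr
        (by filter_upwards with w'; exact (HopfModel_apply w').2.2.2.2.2.symm)
  have h2 := AnalyticAt.comp (g := fun v => L.symm v) (f := fun w => L (Φ w)) (x := w)
    (L.symm.toContinuousLinearMap.analyticAt _) h1
  apply h2.congr
  filter_upwards with w'
  simp only [Function.comp]
  exact L.symm_apply_apply _

private theorem HopfModel_Φ_injective : Function.Injective Φ := by
  intro w w' h
  obtain ⟨a0, a1, a2, a3, -, -⟩ := HopfModel_apply w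
  obtain ⟨b0, b1, b2, b3, -, -⟩ := HopfModel_apply w'
  rw [h] at a0 a1 a2 a3
  have e0 : w 0 ^ 2 = w' 0 ^ 2 := a0.symm.trans b0
  have e1 : w 0 ^ 3 = w' 0 ^ 3 := a1.symm.trans b1
  have e2 : w 1 = w' 1 := a2.symm.trans b2
  have e3 : w 2 = w' 2 := a3.symm.trans b3
  have e4 : w 0 = w' 0 := by
    by_cases h0 : w' 0 = 0
    · rw [h0] at e0 ⊢
      simpa using e0
    · have h2 : w' 0 ^ 2 ≠ 0 := pow_ne_zero _ h0
      have h3 : w 0 * w' 0 ^ 2 = w' 0 * w' 0 ^ 2 := by
        calc w 0 * w' 0 ^ 2 = w 0 * w 0 ^ 2 := by rw [e0]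
          _ = w 0 ^ 3 := by ring
          _ = w' 0 * w' 0 ^ 2 := by rw [e1]; ring
      exact mul_right_cancel₀ h2 h3
  funext i
  fin_cases i
  · exact e4
  · exact e2
  · exact e3

private theorem HopfModel_norm_le (w : C3) : ‖w‖ - 1 ≤ ‖Φ w‖ := by
  obtain ⟨a0, a1, a2, a3, -, -⟩ := HopfModel_apply w
  have hk : ∀ i, ‖Φ w i‖ ≤ ‖Φ w‖ := fun i => PiLp.norm_apply_le (Φ w) i
  have h0 : ‖w 0‖ ^ 2 ≤ ‖Φ w‖ := by
    have := hk 0
    rwa [a0, norm_pow] at this
  have h1 : ‖w 1‖ ≤ ‖Φ w‖ := by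
    have := hk 2
    rwa [a2] at this
  have h2 : ‖w 2‖ ≤ ‖Φ w‖ := by
    have := hk 3
    rwa [a3] at this
  have hn : 0 ≤ ‖Φ w‖ + 1 := by positivity
  have h3 : ‖w‖ ≤ ‖Φ w‖ + 1 := by
    rw [pi_norm_le_iff_of_nonneg hn]
    intro i
    fin_cases i
    · change ‖w 0‖ ≤ _
      nlinarith [norm_nonneg (w 0), sq_nonneg (‖w 0‖ - 1)]
    · change ‖w 1‖ ≤ _
      linarith
    · change ‖w 2‖ ≤ _
      linarith
  linarith

private theorem HopfModel_Φ_embedding : IsEmbedding Φ := by
  have hcont : Continuous Φ := continuous_iff_continuousAt.mpr fun w =>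
    (HopfModel_Φ_analytic w).continuousAt
  have hproper : IsProperMap Φ := by
    rw [isProperMap_iff_tendsto_cocompact]
    refine ⟨hcont, ?_⟩
    rw [← Metric.cobounded_eq_cocompact (α := EuclideanSpace ℂ (Fin 6)),
      ← comap_norm_atTop (E := EuclideanSpace ℂ (Fin 6)), tendsto_comap_iff]
    apply tendsto_atTop_mono (f := fun w : C3 => ‖w‖ - 1)
    · intro w
      exact HopfModel_norm_le w
    · exact tendsto_atTop_add_const_right _ (-1) (tendsto_norm_cocompact_atTop (E := C3))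
  exact (IsClosedEmbedding.of_continuous_injective_isClosedMap hcont HopfModel_Φ_injective
    hproper.isClosedMap).isEmbedding

/-- The holomorphic local retractions of `Φ`. -/
private theorem HopfModel_retraction {w : C3} (hw : w ≠ 0) :
    ∃ ρ : EuclideanSpace ℂ (Fin 6) → C3, AnalyticAt ℂ ρ (Φ w) ∧
      ∀ᶠ w' in 𝓝 w, ρ (Φ w') = w' := by
  have hc : ∀ (i : Fin 6) (a : EuclideanSpace ℂ (Fin 6)),
      AnalyticAt ℂ (fun a : EuclideanSpace ℂ (Fin 6) => a i) a := fun i a =>
    (EuclideanSpace.proj (𝕜 := ℂ) i).analyticAt a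
  have hci : ∀ i : Fin 3, Continuous fun w : C3 => w i := fun i => continuous_apply i
  have key : ∀ (i j : Fin 6) (k : Fin 3), (∀ w : C3, Φ w i = w 0 * Φ w j) → (Φ w j ≠ 0) →
      (∀ᶠ w' in 𝓝 w, Φ w' j ≠ 0) →
      ∃ ρ : EuclideanSpace ℂ (Fin 6) → C3, AnalyticAt ℂ ρ (Φ w) ∧
      ∀ᶠ w' in 𝓝 w, ρ (Φ w') = w' := by
    intro i j k h1 h2 h3
    refine ⟨fun a => ![a i / a j, a 2, a 3], ?_, ?_⟩
    · rw [analyticAt_pi_iff]
      intro l
      fin_cases l
      · exact (hc i _).div (hc j _) h2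
      · exact hc 2 _
      · exact hc 3 _
    · filter_upwards [h3] with w' hw'
      obtain ⟨-, -, a2, a3, -, -⟩ := HopfModel_apply w'
      funext l
      fin_cases l
      · change Φ w' i / Φ w' j = w' 0
        rw [h1 w', mul_div_assoc, div_self hw', mul_one]
      · exact a2
      · exact a3
  by_cases h0 : w 0 = 0
  · by_cases h1 : w 1 = 0
    · have h2 : w 2 ≠ 0 := by
        intro h2
        apply hw
        funext l
        fin_cases l
        · exact h0
        · exact h1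
        · exact h2
      refine key 5 3 0 ?_ ?_ ?_
      · intro w
        obtain ⟨-, -, a2, a3, a4, a5⟩ := HopfModel_apply w
        rw [a5, a3]
      · rw [(HopfModel_apply w).2.2.2.1]
        exact h2
      · filter_upwards [(hci 2).continuousAt.eventually (isOpen_ne.mem_nhds h2)] with w' hw'
        rw [(HopfModel_apply w').2.2.2.1]
        exact hw'
    · refine key 4 2 0 ?_ ?_ ?_
      · intro w
        obtain ⟨-, -, a2, a3, a4, a5⟩ := HopfModel_apply w
        rw [a4, a2]
      · rw [(HopfModel_apply w).2.2.1]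
        exact h1
      · filter_upwards [(hci 1).continuousAt.eventually (isOpen_ne.mem_nhds h1)] with w' hw'
        rw [(HopfModel_apply w').2.2.1]
        exact hw'
  · refine key 1 0 0 ?_ ?_ ?_
    · intro w
      obtain ⟨a0, a1, -, -, -, -⟩ := HopfModel_apply w
      rw [a0, a1]
      ring
    · rw [(HopfModel_apply w).1]
      exact pow_ne_zero _ h0
    · filter_upwards [(hci 0).continuousAt.eventually (isOpen_ne.mem_nhds h0)] with w' hw'
      rw [(HopfModel_apply w').1]
      exact pow_ne_zero _ hw'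

/-- The open set in which the model of the singular point lives. -/
private def HopfModel_U (r : ℝ) : Set (EuclideanSpace ℂ (Fin 6)) :=
  {a | ‖a 0‖ < r ^ 2 ∧ ‖a 2‖ < r ∧ ‖a 3‖ < r}

private theorem HopfModel_isOpen_U (r : ℝ) : IsOpen (HopfModel_U r) := by
  have hc : ∀ i : Fin 6, Continuous fun a : EuclideanSpace ℂ (Fin 6) => ‖a i‖ := fun i =>
    ((EuclideanSpace.proj (𝕜 := ℂ) i).continuous).norm
  exact (isOpen_lt (hc 0) continuous_const).inter
    ((isOpen_lt (hc 2) continuous_const).inter (isOpen_lt (hc 3) continuous_const))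

/-- The equations. -/
private def HopfModel_eqs : Fin 5 → EuclideanSpace ℂ (Fin 6) → ℂ :=
  ![fun a => a 1 ^ 2 - a 0 ^ 3, fun a => a 4 ^ 2 - a 0 * a 2 ^ 2,
    fun a => a 5 ^ 2 - a 0 * a 3 ^ 2, fun a => a 1 * a 2 - a 0 * a 4,
    fun a => a 1 * a 3 - a 0 * a 5]

private theorem HopfModel_mem_iff {r : ℝ} (hr : 0 < r) {a : EuclideanSpace ℂ (Fin 6)}
    (ha : a ∈ HopfModel_U r) :
    a ∈ Φ '' Metric.ball 0 r ↔ ∀ i, HopfModel_eqs i a = 0 := by
  constructor
  · rintro ⟨w, -, rfl⟩ i
    obtain ⟨a0, a1, a2, a3, a4, a5⟩ := HopfModel_apply w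
    fin_cases i
    · change Φ w 1 ^ 2 - Φ w 0 ^ 3 = 0
      rw [a0, a1]; ring
    · change Φ w 4 ^ 2 - Φ w 0 * Φ w 2 ^ 2 = 0
      rw [a0, a2, a4]; ring
    · change Φ w 5 ^ 2 - Φ w 0 * Φ w 3 ^ 2 = 0
      rw [a0, a3, a5]; ring
    · change Φ w 1 * Φ w 2 - Φ w 0 * Φ w 4 = 0
      rw [a0, a1, a2, a4]; ring
    · change Φ w 1 * Φ w 3 - Φ w 0 * Φ w 5 = 0
      rw [a0, a1, a3, a5]; ring
  · intro h
    have q0 : a 1 ^ 2 - a 0 ^ 3 = 0 := h 0
    have q1 : a 4 ^ 2 - a 0 * a 2 ^ 2 = 0 := h 1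
    have q2 : a 5 ^ 2 - a 0 * a 3 ^ 2 = 0 := h 2
    have q3 : a 1 * a 2 - a 0 * a 4 = 0 := h 3
    have q4 : a 1 * a 3 - a 0 * a 5 = 0 := h 4
    -- the parameter
    obtain ⟨t, ht0, ht1, ht2, ht3⟩ : ∃ t : ℂ, t ^ 2 = a 0 ∧ t ^ 3 = a 1 ∧ t * a 2 = a 4 ∧
        t * a 3 = a 5 := by
      by_cases h0 : a 0 = 0
      · rw [h0] at q0 q1 q2
        refine ⟨0, ?_, ?_, ?_, ?_⟩
        · rw [h0]; ring
        · have : a 1 ^ 2 = 0 := by linear_combination q0
          rw [pow_eq_zero_iff (by norm_num)] at this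
          rw [this]; ring
        · have : a 4 ^ 2 = 0 := by linear_combination q1
          rw [pow_eq_zero_iff (by norm_num)] at this
          rw [this]; ring
        · have : a 5 ^ 2 = 0 := by linear_combination q2
          rw [pow_eq_zero_iff (by norm_num)] at this
          rw [this]; ring
      · refine ⟨a 1 / a 0, ?_, ?_, ?_, ?_⟩
        · field_simp
          linear_combination q0
        · field_simp
          linear_combination (a 1) * q0
        · field_simp
          linear_combination q3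
        · field_simp
          linear_combination q4
    refine ⟨![t, a 2, a 3], ?_, ?_⟩
    · rw [Metric.mem_ball, dist_zero_right, pi_norm_lt_iff hr]
      obtain ⟨u0, u1, u2⟩ := ha
      intro l
      fin_cases l
      · change ‖t‖ < r
        rw [← ht0, norm_pow] at u0
        exact lt_of_pow_lt_pow_left₀ 2 hr.le u0
      · exact u1
      · exact u2
    · obtain ⟨a0, a1, a2, a3, a4, a5⟩ := HopfModel_apply ![t, a 2, a 3]
      apply PiLp.ext
      intro l
      fin_cases l
      · exact a0.trans ht0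
      · exact a1.trans ht1
      · exact a2
      · exact a3
      · exact a4.trans ht2
      · exact a5.trans ht3

private theorem HopfModel_eqs_analytic (i : Fin 5) (a : EuclideanSpace ℂ (Fin 6)) :
    AnalyticAt ℂ (HopfModel_eqs i) a := by
  have hc : ∀ (i : Fin 6), AnalyticAt ℂ (fun a : EuclideanSpace ℂ (Fin 6) => a i) a := fun i =>
    (EuclideanSpace.proj (𝕜 := ℂ) i).analyticAt a
  fin_cases i
  · exact ((hc 1).pow 2).sub ((hc 0).pow 3)
  · exact ((hc 4).pow 2).sub ((hc 0).mul ((hc 2).pow 2))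
  · exact ((hc 5).pow 2).sub ((hc 0).mul ((hc 3).pow 2))
  · exact ((hc 1).mul (hc 2)).sub ((hc 0).mul (hc 4))
  · exact ((hc 1).mul (hc 3)).sub ((hc 0).mul (hc 5))

private theorem HopfModel_singular_point :
    ∃ (n : ℕ) (U A : Set (EuclideanSpace ℂ (Fin n)))
    (V : Set HopfX) (e : V ≃ₜ A), IsOpen V ∧ proj e1 ∈ V ∧ IsOpen U ∧ IsAnalyticSubset U A ∧
      ∀ (f : HopfX → ℂ) (y : V), IsHolX f y ↔ HolOn A (fun a => f (e.symm a)) (e y) := by
  obtain ⟨r, hr, h0, hinj⟩ := proj_injOn e1_ne_zero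
  apply HopfModel_aux e1 hr h0 hinj Φ HopfModel_Φ_embedding (HopfModel_U r)
    (HopfModel_isOpen_U r)
  · constructor
    · rintro _ ⟨w, hw, rfl⟩
      rw [Metric.mem_ball, dist_zero_right, pi_norm_lt_iff hr] at hw
      obtain ⟨a0, a1, a2, a3, a4, a5⟩ := HopfModel_apply w
      refine ⟨?_, ?_, ?_⟩
      · rw [a0, norm_pow]
        exact pow_lt_pow_left₀ (hw 0) (norm_nonneg _) (by norm_num)
      · rw [a2]; exact hw 1
      · rw [a3]; exact hw 2
    · intro x hx
      refine ⟨HopfModel_U r, (HopfModel_isOpen_U r).mem_nhds hx, 5, HopfModel_eqs,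
        fun i a _ => HopfModel_eqs_analytic i a, ?_⟩
      intro y hy
      exact HopfModel_mem_iff hr hy
  · intro f w hw
    by_cases hw0 : w = 0
    · subst hw0
      have hΦ0 : Φ 0 = 0 := by
        apply PiLp.ext
        intro l
        fin_cases l <;> simp [Φ]
      rw [add_zero, hΦ0]
      constructor
      · rintro (⟨h, -⟩ | ⟨-, h⟩)
        · exact absurd rfl h
        · exact h
      · intro h
        exact Or.inr ⟨rfl, h⟩
    · have hmem : e1 + w ∈ Metric.ball e1 r := by
        rw [Metric.mem_ball, dist_zero_right] at hw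
        rw [Metric.mem_ball, dist_eq_norm, add_sub_cancel_left]
        exact hw
      have hne : e1 + w ≠ 0 := fun h => h0 (h ▸ hmem)
      have hx0 : proj (e1 + w) ≠ x0 := by
        intro h
        have h1 := hinj hmem (Metric.mem_ball_self hr) h
        apply hw0
        simpa using h1
      rw [HopfModel_isHolX_iff hne hx0, HopfModel_translate]
      constructor
      · intro h
        obtain ⟨ρ, hρ1, hρ2⟩ := HopfModel_retraction hw0
        refine ⟨fun a => f (proj (e1 + ρ a)), ?_, ?_⟩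
        · have h2 : AnalyticAt ℂ (fun w => f (proj (e1 + w))) (ρ (Φ w)) := by
            rw [hρ2.self_of_nhds]
            exact h
          exact AnalyticAt.comp (g := fun w => f (proj (e1 + w))) (f := ρ) h2 hρ1
        · filter_upwards [hρ2] with w' hw'
          rw [hw']
      · rintro ⟨g, hg1, hg2⟩
        have h3 : AnalyticAt ℂ (fun w' => g (Φ w')) w :=
          AnalyticAt.comp (g := g) (f := Φ) hg1 (HopfModel_Φ_analytic w)
        exact h3.congr (hg2.mono fun w' h => h.symm)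

theorem hopf_local_model (x : HopfX) : ∃ (n : ℕ) (U A : Set (EuclideanSpace ℂ (Fin n)))
    (V : Set HopfX) (e : V ≃ₜ A), IsOpen V ∧ x ∈ V ∧ IsOpen U ∧ IsAnalyticSubset U A ∧
      ∀ (f : HopfX → ℂ) (y : V), IsHolX f y ↔ HolOn A (fun a => f (e.symm a)) (e y) := by
  by_cases hx : x = x0
  · subst hx
    exact HopfModel_singular_point
  · obtain ⟨z, hz, rfl⟩ := proj_surj x
    exact HopfModel_smooth_point hz hx

/-- The pinched Hopf threefold as a reduced complex space. -/
def hopfSpace : ReducedComplexSpace HopfX where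
  IsHol := IsHolX
  local_model := hopf_local_model

end

end Pool.Agent.HopfEmb
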