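import Pool.Agent.Lib.MP_d404b9_ag.Space
import Pool.Agent.Lib.MP_d404b9_ag.Basic

/-!
# JOB HOPF-TOP: the pinched Hopf threefold (definitions, topology)

`HopfX = (ℂ³ ∖ 0)/(z ~ 2z)` with the sheaf of holomorphic functions, modified at the single point
`x0 = [e1]`: there a function `f` is holomorphic iff near `0` we have `f([e1 + w]) = g(Φ w)` with `g`
holomorphic near `0 ∈ ℂ⁶`, `Φ(w) = (w_0², w_0³, w_1, w_2, w_0 w_1, w_0 w_2)`.

HOPF-TOP. Compact: image of the compact shell `{1 ≤ |z| ≤ 2}`. Hausdorff: e.g. the map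
`[z] ↦ (z/|z|, exp(2πi log₂|z|))` is continuous and injective into a Hausdorff space, or separate
orbits by hand. `proj` is continuous at `z ≠ 0`, open, and injective on small balls
(`proj_injOn`).
-/

set_option autoImplicit false

open Filter Topology
open scoped Manifold ContDiff

namespace Pool.Agent.HopfEmb

noncomputable section

theorem e1_ne_zero : e1 ≠ 0 := by
  intro h
  have := congrFun h 0
  simp [e1] at this

/-- The equivalence relation `w = 2^k z`. -/
def hopfSetoid : Setoid {z : C3 // z ≠ 0} where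
  r z w := ∃ k : ℤ, (w : C3) = ((2 : ℂ) ^ k) • (z : C3)
  iseqv :=
    { refl := fun z => ⟨0, by simp⟩
      symm := by
        rintro z w ⟨k, hk⟩
        refine ⟨-k, ?_⟩
        rw [hk, smul_smul, ← zpow_add₀ (by norm_num : (2 : ℂ) ≠ 0)]
        simp
      trans := by
        rintro x y z ⟨k, hk⟩ ⟨l, hl⟩
        refine ⟨l + k, ?_⟩
        rw [hl, hk, smul_smul, ← zpow_add₀ (by norm_num : (2 : ℂ) ≠ 0)] }

/-- The underlying set of the Hopf threefold. -/
def HopfX : Type := Quotient hopfSetoid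

instance : TopologicalSpace HopfX := inferInstanceAs (TopologicalSpace (Quotient hopfSetoid))

open Classical in
/-- The projection (with a junk value at `0`). -/
def proj (z : C3) : HopfX :=
  if h : z ≠ 0 then Quotient.mk hopfSetoid ⟨z, h⟩ else Quotient.mk hopfSetoid ⟨e1, e1_ne_zero⟩

/-- The singular point. -/
def x0 : HopfX := proj e1

/-- The local model of the singularity. -/
def Φ (w : C3) : EuclideanSpace ℂ (Fin 6) :=
  !₂[w 0 ^ 2, w 0 ^ 3, w 1, w 2, w 0 * w 1, w 0 * w 2]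

/-- The sheaf of the pinched Hopf threefold. -/
def IsHolX (f : HopfX → ℂ) (x : HopfX) : Prop :=
  (x ≠ x0 ∧ ∀ z : C3, z ≠ 0 → proj z = x → AnalyticAt ℂ (fun w => f (proj w)) z) ∨
  (x = x0 ∧ ∃ g : EuclideanSpace ℂ (Fin 6) → ℂ, AnalyticAt ℂ g 0 ∧
    ∀ᶠ w in 𝓝 (0 : C3), f (proj (e1 + w)) = g (Φ w))

theorem proj_of_ne {z : C3} (h : z ≠ 0) : proj z = Quotient.mk hopfSetoid ⟨z, h⟩ :=
  dif_pos h

theorem proj_surj (x : HopfX) : ∃ z : C3, z ≠ 0 ∧ proj z = x := by
  induction x using Quotient.inductionOn with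
  | h z => exact ⟨z.1, z.2, proj_of_ne z.2⟩

theorem proj_eq_iff {z w : C3} (hz : z ≠ 0) (hw : w ≠ 0) :
    proj z = proj w ↔ ∃ k : ℤ, w = ((2 : ℂ) ^ k) • z := by
  rw [proj_of_ne hz, proj_of_ne hw]
  exact Quotient.eq (r := hopfSetoid)

private theorem hopfTop_isOpen_ne : IsOpen {z : C3 | z ≠ 0} := isOpen_ne

private theorem hopfTop_continuousOn : ContinuousOn proj {z : C3 | z ≠ 0} := by
  rw [continuousOn_iff_continuous_domRestrict]
  have h : Set.domRestrict {z : C3 | z ≠ 0} proj =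
      fun z : {z : C3 // z ≠ 0} => (Quotient.mk hopfSetoid z : HopfX) := by
    funext z
    exact proj_of_ne z.2
  rw [h]
  exact continuous_quotient_mk' (s := hopfSetoid)

theorem proj_continuousAt {z : C3} (hz : z ≠ 0) : ContinuousAt proj z :=
  hopfTop_continuousOn.continuousAt (hopfTop_isOpen_ne.mem_nhds hz)

private theorem hopfTop_smul_ne {z : C3} (hz : z ≠ 0) (k : ℤ) : ((2 : ℂ) ^ k) • z ≠ 0 :=
  smul_ne_zero (zpow_ne_zero _ two_ne_zero) hz

/-- `proj` is an open map on `ℂ³ ∖ 0`. -/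
theorem proj_image_open {W : Set C3} (hW : IsOpen W) (h0 : (0 : C3) ∉ W) :
    IsOpen (proj '' W) := by
  have hq : Topology.IsQuotientMap (Quotient.mk hopfSetoid) := isQuotientMap_quotient_mk'
  have key : IsOpen (Quotient.mk hopfSetoid ⁻¹' (proj '' W)) := by
    have h1 : Quotient.mk hopfSetoid ⁻¹' (proj '' W) =
        ⋃ k : ℤ, {z : {z : C3 // z ≠ 0} | ((2 : ℂ) ^ k) • (z : C3) ∈ W} := by
      ext z
      rw [Set.mem_preimage, Set.mem_iUnion]
      constructor
      · rintro ⟨w, hw, hwz⟩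
        have hw0 : w ≠ 0 := fun h => h0 (h ▸ hw)
        have h2 : proj (z : C3) = proj w := by
          rw [hwz, proj_of_ne z.2]
        obtain ⟨k, hk⟩ := (proj_eq_iff z.2 hw0).mp h2
        refine ⟨k, ?_⟩
        show ((2 : ℂ) ^ k) • (z : C3) ∈ W
        rw [← hk]
        exact hw
      · rintro ⟨k, hk⟩
        refine ⟨((2 : ℂ) ^ k) • (z : C3), hk, ?_⟩
        have h2 : proj (z : C3) = proj (((2 : ℂ) ^ k) • (z : C3)) :=
          (proj_eq_iff z.2 (hopfTop_smul_ne z.2 k)).mpr ⟨k, rfl⟩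
        rw [← h2, proj_of_ne z.2]
    rw [h1]
    apply isOpen_iUnion
    intro k
    exact hW.preimage (continuous_subtype_val.const_smul ((2 : ℂ) ^ k))
  exact hq.isOpen_preimage.mp key

private theorem hopfTop_norm (k : ℤ) (z : C3) : ‖((2 : ℂ) ^ k) • z‖ = (2 : ℝ) ^ k * ‖z‖ := by
  rw [norm_smul, norm_zpow]
  norm_num

/-- `proj` is injective on small balls. -/
theorem proj_injOn {z : C3} (hz : z ≠ 0) :
    ∃ r : ℝ, 0 < r ∧ (0 : C3) ∉ Metric.ball z r ∧ Set.InjOn proj (Metric.ball z r) := by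
  have hz' : 0 < ‖z‖ := norm_pos_iff.mpr hz
  have hnorm : ∀ x ∈ Metric.ball z (‖z‖ / 4), 3 / 4 * ‖z‖ < ‖x‖ ∧ ‖x‖ < 5 / 4 * ‖z‖ := by
    intro x hx
    rw [Metric.mem_ball, dist_eq_norm] at hx
    have h1 := norm_sub_norm_le z x
    have h2 := norm_sub_norm_le x z
    rw [norm_sub_rev] at h1
    constructor <;> linarith
  refine ⟨‖z‖ / 4, by positivity, ?_, ?_⟩
  · intro h
    have := (hnorm 0 h).1
    rw [norm_zero] at this
    linarith
  · intro x hx y hy hxy
    have hx' := hnorm x hx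
    have hy' := hnorm y hy
    have hx0 : x ≠ 0 := by
      rintro rfl
      rw [norm_zero] at hx'
      linarith
    have hy0 : y ≠ 0 := by
      rintro rfl
      rw [norm_zero] at hy'
      linarith
    obtain ⟨k, hk⟩ := (proj_eq_iff hx0 hy0).mp hxy
    have hyn : ‖y‖ = (2 : ℝ) ^ k * ‖x‖ := by rw [hk, hopfTop_norm]
    have hk0 : k = 0 := by
      rcases lt_trichotomy k 0 with hk' | hk' | hk'
      · exfalso
        have h3 : (2 : ℝ) ^ k ≤ (2 : ℝ) ^ (-1 : ℤ) :=
          zpow_le_zpow_right₀ (by norm_num) (by omega)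
        have h4 : (2 : ℝ) ^ (-1 : ℤ) = 1 / 2 := by norm_num
        rw [h4] at h3
        have h5 := mul_le_mul_of_nonneg_right h3 (norm_nonneg x)
        linarith
      · exact hk'
      · exfalso
        have h3 : (2 : ℝ) ^ (1 : ℤ) ≤ (2 : ℝ) ^ k :=
          zpow_le_zpow_right₀ (by norm_num) (by omega)
        have h4 : (2 : ℝ) ^ (1 : ℤ) = 2 := by norm_num
        rw [h4] at h3
        have h5 := mul_le_mul_of_nonneg_right h3 (norm_nonneg x)
        linarith
    rw [hk, hk0, zpow_zero, one_smul]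

instance : CompactSpace HopfX := by
  have hK : IsCompact (Metric.closedBall (0 : C3) 2 \ Metric.ball 0 1) :=
    (isCompact_closedBall (0 : C3) 2).diff Metric.isOpen_ball
  have hK0 : Metric.closedBall (0 : C3) 2 \ Metric.ball 0 1 ⊆ {z : C3 | z ≠ 0} := by
    rintro z ⟨_, hz⟩ rfl
    apply hz
    rw [Metric.mem_ball, dist_self]
    norm_num
  have h1 : IsCompact (proj '' (Metric.closedBall (0 : C3) 2 \ Metric.ball 0 1)) :=
    hK.image_of_continuousOn (hopfTop_continuousOn.mono hK0)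
  have h2 : proj '' (Metric.closedBall (0 : C3) 2 \ Metric.ball 0 1) = Set.univ := by
    rw [Set.eq_univ_iff_forall]
    intro x
    obtain ⟨z, hz, rfl⟩ := proj_surj x
    have hz' : 0 < ‖z‖ := norm_pos_iff.mpr hz
    obtain ⟨n, hn1, hn2⟩ := exists_mem_Ico_zpow hz' (by norm_num : (1 : ℝ) < 2)
    refine ⟨((2 : ℂ) ^ (-n)) • z, ⟨?_, ?_⟩, ?_⟩
    · rw [Metric.mem_closedBall, dist_zero_right, hopfTop_norm]
      have h3 : (2 : ℝ) ^ (-n) * ‖z‖ ≤ (2 : ℝ) ^ (-n) * (2 : ℝ) ^ (n + 1) :=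
        mul_le_mul_of_nonneg_left hn2.le (by positivity)
      rw [← zpow_add₀ (by norm_num : (2 : ℝ) ≠ 0)] at h3
      have h4 : -n + (n + 1) = 1 := by ring
      rw [h4, zpow_one] at h3
      exact h3
    · rw [Metric.mem_ball, dist_zero_right, hopfTop_norm, not_lt]
      have h3 : (2 : ℝ) ^ (-n) * (2 : ℝ) ^ n ≤ (2 : ℝ) ^ (-n) * ‖z‖ :=
        mul_le_mul_of_nonneg_left hn1 (by positivity)
      rw [← zpow_add₀ (by norm_num : (2 : ℝ) ≠ 0)] at h3
      have h4 : -n + n = 0 := by ring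
      rw [h4, zpow_zero] at h3
      exact h3
    · exact ((proj_eq_iff hz (hopfTop_smul_ne hz (-n))).mpr ⟨-n, rfl⟩).symm
  exact ⟨h2 ▸ h1⟩

/-- A function separating the orbits. -/
private def hopfTopSep (z : C3) : C3 × ℂ :=
  (((‖z‖⁻¹ : ℝ) : ℂ) • z, Complex.exp (((Real.logb 2 ‖z‖ : ℝ) : ℂ) * (2 * Real.pi * Complex.I)))

private theorem hopfTopSep_smul (k : ℤ) {z : C3} (hz : z ≠ 0) :
    hopfTopSep (((2 : ℂ) ^ k) • z) = hopfTopSep z := by
  have hz' : 0 < ‖z‖ := norm_pos_iff.mpr hz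
  unfold hopfTopSep
  rw [hopfTop_norm]
  congr 1
  · rw [smul_smul]
    congr 1
    push_cast
    rw [mul_inv, mul_assoc, mul_comm ((‖z‖ : ℂ)⁻¹), ← mul_assoc,
      inv_mul_cancel₀ (zpow_ne_zero _ two_ne_zero), one_mul]
  · rw [Real.logb_mul (by positivity) hz'.ne', ← Real.rpow_intCast,
      Real.logb_rpow (by norm_num) (by norm_num)]
    push_cast
    rw [add_mul, Complex.exp_add, Complex.exp_int_mul_two_pi_mul_I, one_mul]

private theorem hopfTopSep_eq {z w : C3} (hz : z ≠ 0) (hw : w ≠ 0)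
    (h : hopfTopSep z = hopfTopSep w) : ∃ k : ℤ, w = ((2 : ℂ) ^ k) • z := by
  have hz' : 0 < ‖z‖ := norm_pos_iff.mpr hz
  have hw' : 0 < ‖w‖ := norm_pos_iff.mpr hw
  have h1 : ((‖z‖⁻¹ : ℝ) : ℂ) • z = ((‖w‖⁻¹ : ℝ) : ℂ) • w := congrArg Prod.fst h
  have h2 : Complex.exp (((Real.logb 2 ‖z‖ : ℝ) : ℂ) * (2 * Real.pi * Complex.I)) =
      Complex.exp (((Real.logb 2 ‖w‖ : ℝ) : ℂ) * (2 * Real.pi * Complex.I)) :=
    congrArg Prod.snd h
  rw [eq_comm, Complex.exp_eq_exp_iff_exists_int] at h2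
  obtain ⟨n, hn⟩ := h2
  have h3 : Real.logb 2 ‖w‖ = Real.logb 2 ‖z‖ + n := by
    have h4 : (((Real.logb 2 ‖w‖ : ℝ) : ℂ)) * (2 * Real.pi * Complex.I) =
        (((Real.logb 2 ‖z‖ + n : ℝ) : ℂ)) * (2 * Real.pi * Complex.I) := by
      rw [hn]
      push_cast
      ring
    have h5 := mul_right_cancel₀ Complex.two_pi_I_ne_zero h4
    exact_mod_cast h5
  have h6 : ‖w‖ = (2 : ℝ) ^ n * ‖z‖ := by
    rw [← Real.rpow_logb (by norm_num : (0 : ℝ) < 2) (by norm_num) hw', h3,
      Real.rpow_add (by norm_num), Real.rpow_logb (by norm_num) (by norm_num) hz',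
      Real.rpow_intCast, mul_comm]
  refine ⟨n, ?_⟩
  have h7 : w = ((‖w‖ : ℝ) : ℂ) • (((‖w‖⁻¹ : ℝ) : ℂ) • w) := by
    rw [smul_smul, ← Complex.ofReal_mul, mul_inv_cancel₀ hw'.ne', Complex.ofReal_one, one_smul]
  rw [h7, ← h1, smul_smul, h6]
  congr 1
  push_cast
  rw [mul_assoc, mul_inv_cancel₀, mul_one]
  exact_mod_cast hz'.ne'

private theorem hopfTopSep_continuousOn : ContinuousOn hopfTopSep {z : C3 | z ≠ 0} := by
  intro z hz
  apply ContinuousAt.continuousWithinAt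
  have hz' : ‖z‖ ≠ 0 := norm_ne_zero_iff.mpr hz
  have h1 : ContinuousAt (fun z : C3 => ‖z‖) z := continuous_norm.continuousAt
  unfold hopfTopSep
  apply ContinuousAt.prodMk
  · exact (Complex.continuous_ofReal.continuousAt.comp (h1.inv₀ hz')).smul continuousAt_id
  · apply Complex.continuous_exp.continuousAt.comp
    apply ContinuousAt.mul _ continuousAt_const
    apply Complex.continuous_ofReal.continuousAt.comp
    unfold Real.logb
    exact (h1.log hz').div_const _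

instance : T2Space HopfX := by
  let f : HopfX → C3 × ℂ := Quotient.lift (fun z : {z : C3 // z ≠ 0} => hopfTopSep z) (by
    rintro z w ⟨k, hk⟩
    show hopfTopSep z = hopfTopSep w
    rw [hk, hopfTopSep_smul k z.2])
  have hf : Continuous f := by
    apply Continuous.quotient_lift
    exact continuousOn_iff_continuous_domRestrict.mp hopfTopSep_continuousOn
  have hinj : Function.Injective f := by
    intro x y hxy
    obtain ⟨z, hz, rfl⟩ := proj_surj x
    obtain ⟨w, hw, rfl⟩ := proj_surj y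
    rw [proj_eq_iff hz hw]
    rw [proj_of_ne hz, proj_of_ne hw] at hxy
    exact hopfTopSep_eq hz hw hxy
  exact T2Space.of_injective_continuous hinj hf

end

end Pool.Agent.HopfEmb
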