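import Pool.Agent.Lib.MP_d404b9_ag.Est0
import Pool.Agent.Lib.MP_d404b9_ag.Est1
import Pool.Agent.Lib.MP_d404b9_ag.Est2
import Pool.Agent.Lib.MP_d404b9_ag.CalcB
import Pool.Agent.Lib.MP_d404b9_ag.FA2
import Pool.Agent.Lib.MP_d404b9_ag.FA3

/-!
# Vanishing and solvability for the twisted Dolbeault complex on the Hopf threefold
-/

set_option autoImplicit false

open MeasureTheory Complex Filter Topology
open scoped ContDiff ComplexConjugate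

namespace Pool.Agent.HopfEmb

noncomputable section

variable {m : ℕ}

/-! ## Congruence lemmas -/

theorem Weak0.congr {E : Fin 3 → C3 → (Fm m →L[ℂ] Fm m)} {U U' : C3 → Fm m}
    {F F' : Fin 3 → C3 → Fm m} (h : Weak0 E U F) (hU : U =ᵐ[volume] U')
    (hF : ∀ j, F j =ᵐ[volume] F' j) : Weak0 E U' F' := by
  intro Ψ hΨ j
  refine (integral_congr_ae ?_).trans ((h Ψ hΨ j).trans (congrArg Neg.neg (integral_congr_ae ?_)))
  · filter_upwards [hU] with z hz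
    simp only [hz]
  · filter_upwards [hU, hF j] with z hz hz'
    simp only [hz, hz']

theorem Weak1.congr {E : Fin 3 → C3 → (Fm m →L[ℂ] Fm m)} {F F' H H' : Fin 3 → C3 → Fm m}
    (h : Weak1 E F H) (hF : ∀ j, F j =ᵐ[volume] F' j) (hH : ∀ j, H j =ᵐ[volume] H' j) :
    Weak1 E F' H' := by
  intro Ψ hΨ i
  refine (integral_congr_ae ?_).trans ((h Ψ hΨ i).trans (congrArg Neg.neg (integral_congr_ae ?_)))
  · filter_upwards [hF (i + 1), hF (i + 2)] with z h1 h2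
    simp only [h1, h2]
  · filter_upwards [hF (i + 1), hF (i + 2), hH i] with z h1 h2 h3
    simp only [h1, h2, h3]

theorem Weak2.congr {E : Fin 3 → C3 → (Fm m →L[ℂ] Fm m)} {H H' : Fin 3 → C3 → Fm m}
    (h : Weak2 E H) (hH : ∀ j, H j =ᵐ[volume] H' j) : Weak2 E H' := by
  intro Ψ hΨ
  have hall : ∀ᵐ z : C3, ∀ j, H j z = H' j z := by
    rw [ae_all_iff]
    exact hH
  refine (integral_congr_ae ?_).trans ((h Ψ hΨ).trans (congrArg Neg.neg (integral_congr_ae ?_)))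
  · filter_upwards [hall] with z hz
    simp only [hz]
  · filter_upwards [hall] with z hz
    simp only [hz]

/-! ## Closed submodules defined by families of functionals -/

theorem exists_closed_submodule {X : Type*} [AddCommGroup X] [Module ℂ X] [TopologicalSpace X]
    {ι : Type*} (R : ι → X → Prop) (h : ∀ i, ∃ ℓ : X →L[ℂ] ℂ, ∀ p, R i p ↔ ℓ p = 0) :
    ∃ G : Submodule ℂ X, IsClosed (G : Set X) ∧ ∀ p, p ∈ G ↔ ∀ i, R i p := by
  choose ℓ hℓ using h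
  refine ⟨⨅ i, LinearMap.ker (ℓ i).toLinearMap, ?_, ?_⟩
  · rw [Submodule.coe_iInf]
    refine isClosed_iInter fun i => ?_
    have : (LinearMap.ker (ℓ i).toLinearMap : Set X) = ℓ i ⁻¹' {0} := by
      ext p; simp
    rw [this]
    exact isClosed_singleton.preimage (ℓ i).continuous
  · intro p
    simp [Submodule.mem_iInf, hℓ]

/-! ## Continuity of the relations -/

theorem tsupport_dbar_subset {G : Type*} [NormedAddCommGroup G] [NormedSpace ℂ G] (j : Fin 3)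
    (f : C3 → G) : tsupport (dbar j f) ⊆ tsupport f := by
  refine closure_minimal ?_ (isClosed_tsupport f)
  intro z hz
  by_contra h
  apply hz
  have h1 : fderiv ℝ f z = 0 := by
    by_contra h2
    exact h (support_fderiv_subset ℝ h2)
  simp [dbar, h1]

theorem continuous_dbar {G : Type*} [NormedAddCommGroup G] [NormedSpace ℂ G] (j : Fin 3)
    {f : C3 → G} (hf : ContDiff ℝ ∞ f) : Continuous (dbar j f) := by
  have h := hf.continuous_fderiv (by simp)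
  unfold dbar
  fun_prop

theorem IsTest.cont_dbar {G : Type*} [NormedAddCommGroup G] [NormedSpace ℂ G] {f : C3 → G}
    (hf : IsTest f) (j : Fin 3) : Continuous (dbar j f) ∧ HasCompactSupport (dbar j f) ∧
      (0 : C3) ∉ tsupport (dbar j f) :=
  ⟨continuous_dbar j hf.smooth, hf.compact.mono' ((subset_tsupport _).trans
    (tsupport_dbar_subset j f)), fun h => hf.zero_notMem (tsupport_dbar_subset j f h)⟩

theorem IsTest.cont_comp {Ψ : C3 → (Fm m →L[ℂ] ℂ)} (hΨ : IsTest Ψ)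
    {A : C3 → (Fm m →L[ℂ] Fm m)} (hA : ∀ z : C3, z ≠ 0 → ContDiffAt ℝ ∞ A z) :
    Continuous (fun z => Ψ z ∘L A z) ∧ HasCompactSupport (fun z => Ψ z ∘L A z) ∧
      (0 : C3) ∉ tsupport (fun z => Ψ z ∘L A z) := by
  have hsub : Function.support (fun z => Ψ z ∘L A z) ⊆ Function.support Ψ := by
    intro z hz h
    apply hz
    have h' : Ψ z = 0 := by simpa using h
    simp [h']
  have hts : tsupport (fun z => Ψ z ∘L A z) ⊆ tsupport Ψ := closure_mono hsub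
  refine ⟨?_, hΨ.compact.mono hsub, fun h => hΨ.zero_notMem (hts h)⟩
  rw [continuous_iff_continuousAt]
  intro z
  by_cases hz : z = 0
  · have : (fun z => Ψ z ∘L A z) =ᶠ[𝓝 z] fun _ => 0 := by
      have h0 : (tsupport Ψ)ᶜ ∈ 𝓝 z := by
        rw [hz]
        exact (isClosed_tsupport Ψ).isOpen_compl.mem_nhds hΨ.zero_notMem
      filter_upwards [h0] with y hy
      have : Ψ y = 0 := image_eq_zero_of_notMem_tsupport hy
      simp [this]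
    exact continuousAt_const.congr this.symm
  · exact (hΨ.smooth.continuous.continuousAt).clm_comp (hA z hz).continuousAt

theorem IsTest.cont {G : Type*} [NormedAddCommGroup G] [NormedSpace ℂ G] {f : C3 → G}
    (hf : IsTest f) : Continuous f ∧ HasCompactSupport f ∧ (0 : C3) ∉ tsupport f :=
  ⟨hf.smooth.continuous, hf.compact, hf.zero_notMem⟩

/-- The space of tuples. -/
abbrev H1 (P : C3 → (Fm m →L[ℂ] Fm m)) : Type := PiLp 2 (fun _ : Fin 3 => HP P)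

/-- The pairing functional on `HP P`. -/
theorem HP_pairing (P : C3 → (Fm m →L[ℂ] Fm m)) {A : C3 → (Fm m →L[ℂ] ℂ)}
    (hA : Continuous A ∧ HasCompactSupport A ∧ (0 : C3) ∉ tsupport A) (q : ℕ) :
    (∀ u : HP P, Integrable (fun z => A z (ext q (u : Lp (Fm m) 2 μS) z))) ∧
    ∃ ℓ : HP P →L[ℂ] ℂ, ∀ u : HP P, ℓ u = ∫ z, A z (ext q (u : Lp (Fm m) 2 μS) z) := by
  obtain ⟨h1, ℓ, h2⟩ := ext_pairing (m := m) hA.1 hA.2.1 hA.2.2 q
  exact ⟨fun u => h1 u, ℓ ∘L (HP P).subtypeL, fun u => by simp [h2]⟩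

theorem exists_G0 (P : C3 → (Fm m →L[ℂ] Fm m)) {E : Fin 3 → C3 → (Fm m →L[ℂ] Fm m)}
    (hE : ∀ j, ∀ z : C3, z ≠ 0 → ContDiffAt ℝ ∞ (E j) z) :
    ∃ G : Submodule ℂ (HP P × H1 P), IsClosed (G : Set (HP P × H1 P)) ∧
      ∀ p, p ∈ G ↔ Rel0 E (p.1 : Lp (Fm m) 2 μS) (fn fun j => p.2 j) := by
  have key : ∀ i : {Ψ : C3 → (Fm m →L[ℂ] ℂ) // IsTest Ψ} × Fin 3,
      ∃ ℓ : (HP P × H1 P) →L[ℂ] ℂ, ∀ p,
        (∫ z, (dbar i.2 i.1.1 z) (ext 0 (p.1 : Lp (Fm m) 2 μS) z) =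
          - ∫ z, i.1.1 z (E i.2 z (ext 0 (p.1 : Lp (Fm m) 2 μS) z) +
            ext 1 (p.2 i.2 : Lp (Fm m) 2 μS) z)) ↔ ℓ p = 0 := by
    rintro ⟨⟨Ψ, hΨ⟩, j⟩
    obtain ⟨i1, ℓ1, e1⟩ := HP_pairing P (hΨ.cont_dbar j) 0
    obtain ⟨i2, ℓ2, e2⟩ := HP_pairing P (hΨ.cont_comp (hE j)) 0
    obtain ⟨i3, ℓ3, e3⟩ := HP_pairing P hΨ.cont 1
    refine ⟨(ℓ1 + ℓ2) ∘L ContinuousLinearMap.fst ℂ (HP P) (H1 P) +
      (ℓ3 ∘L PiLp.proj 2 (fun _ : Fin 3 => HP P) j) ∘L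
        ContinuousLinearMap.snd ℂ (HP P) (H1 P), fun p => ?_⟩
    have e4 : ∫ z, Ψ z (E j z (ext 0 (p.1 : Lp (Fm m) 2 μS) z) +
        ext 1 (p.2 j : Lp (Fm m) 2 μS) z) = ℓ2 p.1 + ℓ3 (p.2 j) := by
      rw [e2, e3, ← integral_add (i2 p.1) (i3 (p.2 j))]
      simp
    simp only [e4, ← e1]
    simp only [add_apply, ContinuousLinearMap.comp_apply,
      ContinuousLinearMap.coe_fst', ContinuousLinearMap.coe_snd', PiLp.proj_apply]
    constructor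
    · intro h
      rw [h]; ring
    · intro h
      linear_combination h
  obtain ⟨G, h1, h2⟩ := exists_closed_submodule (X := HP P × H1 P) _ key
  refine ⟨G, h1, fun p => ?_⟩
  rw [h2 p]
  constructor
  · intro h Ψ hΨ j
    exact h (⟨Ψ, hΨ⟩, j)
  · rintro h ⟨⟨Ψ, hΨ⟩, j⟩
    exact h Ψ hΨ j

theorem exists_G1 (P : C3 → (Fm m →L[ℂ] Fm m)) {E : Fin 3 → C3 → (Fm m →L[ℂ] Fm m)}
    (hE : ∀ j, ∀ z : C3, z ≠ 0 → ContDiffAt ℝ ∞ (E j) z) :
    ∃ G : Submodule ℂ (H1 P × H1 P), IsClosed (G : Set (H1 P × H1 P)) ∧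
      ∀ p, p ∈ G ↔ Rel1 E (fn fun j => p.1 j) (fn fun j => p.2 j) := by
  have key : ∀ i : {Ψ : C3 → (Fm m →L[ℂ] ℂ) // IsTest Ψ} × Fin 3,
      ∃ ℓ : (H1 P × H1 P) →L[ℂ] ℂ, ∀ p,
        (∫ z, ((dbar (i.2 + 1) i.1.1 z) (ext 1 (p.1 (i.2 + 2) : Lp (Fm m) 2 μS) z) -
            (dbar (i.2 + 2) i.1.1 z) (ext 1 (p.1 (i.2 + 1) : Lp (Fm m) 2 μS) z)) =
          - ∫ z, i.1.1 z (E (i.2 + 1) z (ext 1 (p.1 (i.2 + 2) : Lp (Fm m) 2 μS) z) -
            E (i.2 + 2) z (ext 1 (p.1 (i.2 + 1) : Lp (Fm m) 2 μS) z) +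
            ext 2 (p.2 i.2 : Lp (Fm m) 2 μS) z)) ↔ ℓ p = 0 := by
    rintro ⟨⟨Ψ, hΨ⟩, j⟩
    obtain ⟨i1, ℓ1, e1⟩ := HP_pairing P (hΨ.cont_dbar (j + 1)) 1
    obtain ⟨i2, ℓ2, e2⟩ := HP_pairing P (hΨ.cont_dbar (j + 2)) 1
    obtain ⟨i3, ℓ3, e3⟩ := HP_pairing P (hΨ.cont_comp (hE (j + 1))) 1
    obtain ⟨i4, ℓ4, e4⟩ := HP_pairing P (hΨ.cont_comp (hE (j + 2))) 1
    obtain ⟨i5, ℓ5, e5⟩ := HP_pairing P hΨ.cont 2
    refine ⟨((ℓ1 + ℓ3) ∘L PiLp.proj 2 (fun _ : Fin 3 => HP P) (j + 2)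
        - (ℓ2 + ℓ4) ∘L PiLp.proj 2 (fun _ : Fin 3 => HP P) (j + 1))
          ∘L ContinuousLinearMap.fst ℂ (H1 P) (H1 P) +
      (ℓ5 ∘L PiLp.proj 2 (fun _ : Fin 3 => HP P) j) ∘L
        ContinuousLinearMap.snd ℂ (H1 P) (H1 P), fun p => ?_⟩
    have e6 : ∫ z, Ψ z (E (j + 1) z (ext 1 (p.1 (j + 2) : Lp (Fm m) 2 μS) z) -
            E (j + 2) z (ext 1 (p.1 (j + 1) : Lp (Fm m) 2 μS) z) +
            ext 2 (p.2 j : Lp (Fm m) 2 μS) z) =
        ℓ3 (p.1 (j + 2)) - ℓ4 (p.1 (j + 1)) + ℓ5 (p.2 j) := by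
      have hh : (fun z => Ψ z (E (j + 1) z (ext 1 (p.1 (j + 2) : Lp (Fm m) 2 μS) z) -
            E (j + 2) z (ext 1 (p.1 (j + 1) : Lp (Fm m) 2 μS) z) +
            ext 2 (p.2 j : Lp (Fm m) 2 μS) z)) = fun z =>
          ((Ψ z ∘L E (j + 1) z) (ext 1 (p.1 (j + 2) : Lp (Fm m) 2 μS) z) -
            (Ψ z ∘L E (j + 2) z) (ext 1 (p.1 (j + 1) : Lp (Fm m) 2 μS) z)) +
            Ψ z (ext 2 (p.2 j : Lp (Fm m) 2 μS) z) := by
        funext z
        simp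
      have ia : Integrable (fun z =>
          ((Ψ z ∘L E (j + 1) z) (ext 1 (p.1 (j + 2) : Lp (Fm m) 2 μS) z) -
            (Ψ z ∘L E (j + 2) z) (ext 1 (p.1 (j + 1) : Lp (Fm m) 2 μS) z))) :=
        (i3 (p.1 (j + 2))).sub (i4 (p.1 (j + 1)))
      rw [hh, integral_add ia (i5 (p.2 j)),
        integral_sub (i3 (p.1 (j + 2))) (i4 (p.1 (j + 1))), e3, e4, e5]
    have e7 : ∫ z, ((dbar (j + 1) Ψ z) (ext 1 (p.1 (j + 2) : Lp (Fm m) 2 μS) z) -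
            (dbar (j + 2) Ψ z) (ext 1 (p.1 (j + 1) : Lp (Fm m) 2 μS) z)) =
        ℓ1 (p.1 (j + 2)) - ℓ2 (p.1 (j + 1)) := by
      rw [e1, e2, ← integral_sub (i1 _) (i2 _)]
    simp only [e6, e7]
    simp only [add_apply, ContinuousLinearMap.comp_apply,
      sub_apply,
      ContinuousLinearMap.coe_fst', ContinuousLinearMap.coe_snd', PiLp.proj_apply]
    constructor
    · intro h
      linear_combination h
    · intro h
      linear_combination h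
  obtain ⟨G, h1, h2⟩ := exists_closed_submodule (X := H1 P × H1 P) _ key
  refine ⟨G, h1, fun p => ?_⟩
  rw [h2 p]
  constructor
  · intro h Ψ hΨ j
    exact h (⟨Ψ, hΨ⟩, j)
  · rintro h ⟨⟨Ψ, hΨ⟩, j⟩
    exact h Ψ hΨ j

theorem exists_K2 (P : C3 → (Fm m →L[ℂ] Fm m)) {E : Fin 3 → C3 → (Fm m →L[ℂ] Fm m)}
    (hE : ∀ j, ∀ z : C3, z ≠ 0 → ContDiffAt ℝ ∞ (E j) z) :
    ∃ G : Submodule ℂ (H1 P), IsClosed (G : Set (H1 P)) ∧
      ∀ p, p ∈ G ↔ Rel2 E (fn fun j => p j) := by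
  have key : ∀ i : {Ψ : C3 → (Fm m →L[ℂ] ℂ) // IsTest Ψ},
      ∃ ℓ : (H1 P) →L[ℂ] ℂ, ∀ p,
        (∫ z, ∑ j : Fin 3, (dbar j i.1 z) (ext 2 (p j : Lp (Fm m) 2 μS) z) =
          - ∫ z, ∑ j : Fin 3, i.1 z (E j z (ext 2 (p j : Lp (Fm m) 2 μS) z))) ↔ ℓ p = 0 := by
    rintro ⟨Ψ, hΨ⟩
    have h1 := fun j : Fin 3 => HP_pairing P (hΨ.cont_dbar j) 2
    have h2 := fun j : Fin 3 => HP_pairing P (hΨ.cont_comp (hE j)) 2
    choose i1 ℓ1 e1 using h1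
    choose i2 ℓ2 e2 using h2
    refine ⟨∑ j : Fin 3, (ℓ1 j + ℓ2 j) ∘L PiLp.proj 2 (fun _ : Fin 3 => HP P) j, fun p => ?_⟩
    have e3 : ∫ z, ∑ j : Fin 3, (dbar j Ψ z) (ext 2 (p j : Lp (Fm m) 2 μS) z) =
        ∑ j : Fin 3, ℓ1 j (p j) := by
      rw [integral_finsetSum _ fun j _ => i1 j (p j)]
      simp [e1]
    have e4 : ∫ z, ∑ j : Fin 3, Ψ z (E j z (ext 2 (p j : Lp (Fm m) 2 μS) z)) =
        ∑ j : Fin 3, ℓ2 j (p j) := by
      rw [integral_finsetSum _ fun j _ => by simpa using i2 j (p j)]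
      simp [e2]
    simp only [e3, e4]
    simp only [sum_apply, add_apply,
      ContinuousLinearMap.comp_apply, PiLp.proj_apply, Finset.sum_add_distrib]
    constructor
    · intro h
      rw [h]; ring
    · intro h
      linear_combination h
  obtain ⟨G, h1, h2⟩ := exists_closed_submodule (X := H1 P) _ key
  refine ⟨G, h1, fun p => ?_⟩
  rw [h2 p]
  constructor
  · intro h Ψ hΨ
    exact h ⟨Ψ, hΨ⟩
  · rintro h ⟨Ψ, hΨ⟩
    exact h Ψ hΨ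

end

end Pool.Agent.HopfEmb
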