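import Pool.Agent.Lib.MP_d404b9_ag.Main1

/-!
# The multiplication operators and the perturbation identities
-/

set_option autoImplicit false

open MeasureTheory Complex Filter Topology
open scoped ContDiff ComplexConjugate

namespace Pool.Agent.HopfEmb

noncomputable section

variable {m : ℕ}

theorem isClosed_HP (P : C3 → (Fm m →L[ℂ] Fm m)) : IsClosed (HP P : Set (Lp (Fm m) 2 μS)) := by
  apply isClosed_of_closure_subset
  intro u hu
  rw [mem_closure_iff_seq_limit] at hu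
  obtain ⟨v, hv, hlim⟩ := hu
  have h1 : TendstoInMeasure μS (fun n => (v n : C3 → Fm m)) atTop (u : C3 → Fm m) :=
    tendstoInMeasure_of_tendsto_Lp hlim
  obtain ⟨ns, -, hns⟩ := h1.exists_seq_tendsto_ae
  have h2 : ∀ᵐ z ∂μS, ∀ n, P z (v n z) = v n z := by
    rw [ae_all_iff]
    exact fun n => hv n
  show ∀ᵐ z ∂μS, P z (u z) = u z
  filter_upwards [hns, h2] with z hz1 hz2
  have h3 : Tendsto (fun i => P z (v (ns i) z)) atTop (𝓝 (P z (u z))) :=
    ((P z).continuous.tendsto _).comp hz1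
  have h4 : (fun i => P z (v (ns i) z)) = fun i => v (ns i) z := by
    funext i
    exact hz2 (ns i)
  rw [h4] at h3
  exact tendsto_nhds_unique h3 hz1

instance (P : C3 → (Fm m →L[ℂ] Fm m)) : CompleteSpace (HP P) :=
  (isClosed_HP P).completeSpace_coe

theorem μS_le : μS ≤ (volume : Measure C3) := Measure.restrict_le_self

/-- `ext q` is injective. -/
theorem ext_injective (q : ℕ) {u v : Lp (Fm m) 2 μS} (h : ext q u =ᵐ[volume] ext q v) : u = v := by
  apply Lp.ext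
  have h1 : ext q u =ᵐ[μS] ext q v := ae_mono μS_le h
  have h2 : ∀ᵐ z ∂μS, z ∈ S := ae_restrict_mem measurableSet_S
  filter_upwards [h1, h2] with z hz hzS
  rw [ext_of_mem_S hzS, ext_of_mem_S hzS] at hz
  have h3 : ((rr z : ℂ) ^ (3 - q)) ≠ 0 := by
    have : rr z ≠ 0 := by
      have := hzS.1
      linarith
    exact pow_ne_zero _ (by exact_mod_cast this)
  exact smul_right_injective _ h3 hz

theorem Weak0_twist_add {E : Fin 3 → C3 → (Fm m →L[ℂ] Fm m)} {U : C3 → Fm m}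
    {F : Fin 3 → C3 → Fm m} (s τ : ℝ) :
    Weak0 (twist (s + τ) E) U F ↔
      Weak0 (twist s E) U (fun j z => F j z - ((τ : ℂ) * eta j z) • U z) := by
  unfold Weak0
  refine forall_congr' fun Ψ => forall_congr' fun _ => forall_congr' fun j => ?_
  have : ∀ z, twist (s + τ) E j z (U z) + F j z =
      twist s E j z (U z) + (F j z - ((τ : ℂ) * eta j z) • U z) := by
    intro z
    simp only [twist, sub_apply, smul_apply, ContinuousLinearMap.id_apply,
      Complex.ofReal_add, add_mul, add_smul]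
    abel
  simp only [this]

theorem Weak1_twist_add {E : Fin 3 → C3 → (Fm m →L[ℂ] Fm m)} {F H : Fin 3 → C3 → Fm m}
    (s τ : ℝ) :
    Weak1 (twist (s + τ) E) F H ↔
      Weak1 (twist s E) F (fun i z => H i z - (τ : ℂ) • (eta (i + 1) z • F (i + 2) z
        - eta (i + 2) z • F (i + 1) z)) := by
  unfold Weak1
  refine forall_congr' fun Ψ => forall_congr' fun _ => forall_congr' fun i => ?_
  have : ∀ z, twist (s + τ) E (i + 1) z (F (i + 2) z) - twist (s + τ) E (i + 2) z (F (i + 1) z)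
        + H i z =
      twist s E (i + 1) z (F (i + 2) z) - twist s E (i + 2) z (F (i + 1) z)
        + (H i z - (τ : ℂ) • (eta (i + 1) z • F (i + 2) z - eta (i + 2) z • F (i + 1) z)) := by
    intro z
    simp only [twist, sub_apply, smul_apply, ContinuousLinearMap.id_apply,
      Complex.ofReal_add, add_mul, add_smul, smul_sub, smul_smul]
    abel
  simp only [this]

/-- The multiplication operators on `HP P`. -/
theorem exists_Mops (P : C3 → (Fm m →L[ℂ] Fm m)) :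
    ∃ M : Fin 3 → (HP P →L[ℂ] HP P), ∀ (j : Fin 3) (u : HP P) (q : ℕ), q ≤ 2 →
      ext (q + 1) (M j u : Lp (Fm m) 2 μS) =ᵐ[volume]
        fun z => eta j z • ext q (u : Lp (Fm m) 2 μS) z := by
  choose M hM hM' using exists_mulEta (m := m)
  refine ⟨fun j => (M j ∘L (HP P).subtypeL).codRestrict (HP P)
    (fun u => hM' j P u u.2), fun j u q hq => ?_⟩
  exact hM j u q hq

/-- Tuples of operators into `H1 P`. -/
def pack {X : Type*} [NormedAddCommGroup X] [NormedSpace ℂ X] (P : C3 → (Fm m →L[ℂ] Fm m))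
    (T : Fin 3 → (X →L[ℂ] HP P)) : X →L[ℂ] H1 P :=
  (PiLp.continuousLinearEquiv 2 ℂ (fun _ : Fin 3 => HP P)).symm.toContinuousLinearMap ∘L
    ContinuousLinearMap.pi T

theorem pack_apply {X : Type*} [NormedAddCommGroup X] [NormedSpace ℂ X]
    (P : C3 → (Fm m →L[ℂ] Fm m)) (T : Fin 3 → (X →L[ℂ] HP P)) (x : X) (j : Fin 3) :
    pack P T x j = T j x := rfl

theorem isCompact_of_comp {X : Type*} [NormedAddCommGroup X] [NormedSpace ℂ X]
    (P : C3 → (Fm m →L[ℂ] Fm m)) (T : X →L[ℂ] H1 P)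
    (h : ∀ j, IsCompactOperator ((PiLp.proj 2 (fun _ : Fin 3 => HP P) j) ∘L T)) :
    IsCompactOperator T := by
  let inc : Fin 3 → (HP P →L[ℂ] H1 P) := fun j =>
    pack P (fun k => if k = j then ContinuousLinearMap.id ℂ (HP P) else 0)
  have key : ∀ j : Fin 3, IsCompactOperator
      (inc j ∘L (PiLp.proj 2 (fun _ : Fin 3 => HP P) j ∘L T)) :=
    fun j => by
      have := (h j).clm_comp (inc j)
      exact this
  have hT : T = inc 0 ∘L (PiLp.proj 2 (fun _ : Fin 3 => HP P) 0 ∘L T) +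
      inc 1 ∘L (PiLp.proj 2 (fun _ : Fin 3 => HP P) 1 ∘L T) +
      inc 2 ∘L (PiLp.proj 2 (fun _ : Fin 3 => HP P) 2 ∘L T) := by
    ext1 x
    refine PiLp.ext fun k => ?_
    fin_cases k <;> simp [inc, pack_apply]
  rw [hT]
  exact ((key 0).add (key 1)).add (key 2)

/-! ## The shift identities on the Hilbert space level -/

section shift

variable {P : C3 → (Fm m →L[ℂ] Fm m)} {E : Fin 3 → C3 → (Fm m →L[ℂ] Fm m)}
  {M : Fin 3 → (HP P →L[ℂ] HP P)}

/-- `u ↦ η u`. -/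
def MM0 (M : Fin 3 → (HP P →L[ℂ] HP P)) : HP P →L[ℂ] H1 P := pack (X := HP P) P M

/-- `f ↦ η × f`. -/
def MM1 (M : Fin 3 → (HP P →L[ℂ] HP P)) : H1 P →L[ℂ] H1 P :=
  pack (X := H1 P) P (fun i => M (i + 1) ∘L PiLp.proj 2 (fun _ : Fin 3 => HP P) (i + 2) -
    M (i + 2) ∘L PiLp.proj 2 (fun _ : Fin 3 => HP P) (i + 1))

theorem MM0_apply (u : HP P) (j : Fin 3) : MM0 M u j = M j u := rfl

theorem MM1_apply (f : H1 P) (i : Fin 3) :
    MM1 M f i = M (i + 1) (f (i + 2)) - M (i + 2) (f (i + 1)) := rfl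

theorem ext_sub_smul (q : ℕ) (u v : Lp (Fm m) 2 μS) (c : ℂ) :
    ext q (⇑(u - c • v)) =ᵐ[volume] fun z => ext q u z - c • ext q v z := by
  have h1 := ext_add q u ((-c) • v)
  have h2 := ext_smul q (-c) v
  have h3 : u - c • v = u + (-c) • v := by rw [neg_smul, sub_eq_add_neg]
  rw [h3]
  filter_upwards [h1, h2] with z hz1 hz2
  rw [hz1, hz2, neg_smul, sub_eq_add_neg]

theorem ext_zero_ae (q : ℕ) : ext q (⇑(0 : Lp (Fm m) 2 μS)) =ᵐ[volume] fun _ => 0 := by
  have h1 := ext_smul q (0 : ℂ) (0 : Lp (Fm m) 2 μS)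
  rw [zero_smul] at h1
  filter_upwards [h1] with z hz
  rw [hz, zero_smul]

theorem rel0_shift (hM : ∀ (j : Fin 3) (u : HP P) (q : ℕ), q ≤ 2 →
      ext (q + 1) (M j u : Lp (Fm m) 2 μS) =ᵐ[volume]
        fun z => eta j z • ext q (u : Lp (Fm m) 2 μS) z) (s τ : ℝ) (u : HP P) (f : H1 P) :
    Rel0 (twist (s + τ) E) (u : Lp (Fm m) 2 μS) (fn fun j => f j) ↔
      Rel0 (twist s E) (u : Lp (Fm m) 2 μS) (fn fun j => (f - (τ : ℂ) • MM0 M u) j) := by
  unfold Rel0
  rw [Weak0_twist_add]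
  have key : ∀ j : Fin 3, (fun z => ext 1 (fn (fun j => f j) j) z -
      ((τ : ℂ) * eta j z) • ext 0 (u : Lp (Fm m) 2 μS) z) =ᵐ[volume]
      ext 1 (fn (fun j => (f - (τ : ℂ) • MM0 M u) j) j) := by
    intro j
    have h1 := ext_sub_smul 1 (f j : Lp (Fm m) 2 μS) (M j u : Lp (Fm m) 2 μS) (τ : ℂ)
    have h2 := hM j u 0 (by norm_num)
    filter_upwards [h1, h2] with z hz1 hz2
    have h3 : fn (fun j => (f - (τ : ℂ) • MM0 M u) j) j =
        ⇑((f j : Lp (Fm m) 2 μS) - (τ : ℂ) • (M j u : Lp (Fm m) 2 μS)) := rfl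
    rw [h3, hz1]
    simp only [fn, zero_add] at hz2 ⊢
    rw [hz2, smul_smul]
  constructor
  · intro h
    exact h.congr (ae_eq_refl _) key
  · intro h
    exact h.congr (ae_eq_refl _) fun j => (key j).symm

theorem rel1_shift (hM : ∀ (j : Fin 3) (u : HP P) (q : ℕ), q ≤ 2 →
      ext (q + 1) (M j u : Lp (Fm m) 2 μS) =ᵐ[volume]
        fun z => eta j z • ext q (u : Lp (Fm m) 2 μS) z) (s τ : ℝ) (f h : H1 P) :
    Rel1 (twist (s + τ) E) (fn fun j => f j) (fn fun j => h j) ↔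
      Rel1 (twist s E) (fn fun j => f j) (fn fun j => (h - (τ : ℂ) • MM1 M f) j) := by
  unfold Rel1
  rw [Weak1_twist_add]
  have key : ∀ i : Fin 3, (fun z => ext 2 (fn (fun j => h j) i) z -
      (τ : ℂ) • (eta (i + 1) z • ext 1 (fn (fun j => f j) (i + 2)) z -
        eta (i + 2) z • ext 1 (fn (fun j => f j) (i + 1)) z)) =ᵐ[volume]
      ext 2 (fn (fun j => (h - (τ : ℂ) • MM1 M f) j) i) := by
    intro i
    have h1 := ext_sub_smul 2 (h i : Lp (Fm m) 2 μS) (MM1 M f i : Lp (Fm m) 2 μS) (τ : ℂ)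
    have h2 := hM (i + 1) (f (i + 2)) 1 (by norm_num)
    have h3 := hM (i + 2) (f (i + 1)) 1 (by norm_num)
    have h4 := ext_sub_smul 2 (M (i + 1) (f (i + 2)) : Lp (Fm m) 2 μS)
      (M (i + 2) (f (i + 1)) : Lp (Fm m) 2 μS) 1
    filter_upwards [h1, h2, h3, h4] with z hz1 hz2 hz3 hz4
    have h5 : fn (fun j => (h - (τ : ℂ) • MM1 M f) j) i =
        ⇑((h i : Lp (Fm m) 2 μS) - (τ : ℂ) • (MM1 M f i : Lp (Fm m) 2 μS)) := rfl
    have h6 : (MM1 M f i : Lp (Fm m) 2 μS) = (M (i + 1) (f (i + 2)) : Lp (Fm m) 2 μS) -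
        (1 : ℂ) • (M (i + 2) (f (i + 1)) : Lp (Fm m) 2 μS) := by
      rw [MM1_apply, one_smul]; rfl
    rw [h5, hz1, h6, hz4]
    simp only [fn] at hz2 hz3 ⊢
    norm_num at hz2 hz3
    rw [hz2, hz3, one_smul]
  constructor
  · intro h
    exact h.congr (fun _ => ae_eq_refl _) key
  · intro h
    exact h.congr (fun _ => ae_eq_refl _) fun j => (key j).symm

end shift

end

end Pool.Agent.HopfEmb
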