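import Pool.Agent.Lib.MP_d404b9_ag.Main2
import Pool.Agent.Lib.MP_d404b9_ag.Abs

/-!
# Vanishing and solvability on the Hilbert space level
-/

set_option autoImplicit false

open MeasureTheory Complex Filter Topology
open scoped ContDiff ComplexConjugate

namespace Pool.Agent.HopfEmb

noncomputable section

variable {m : ℕ}

theorem HP_ext_proj {P : C3 → (Fm m →L[ℂ] Fm m)} {E : Fin 3 → C3 → (Fm m →L[ℂ] Fm m)}
    (hPE : PE P E) (u : HP P) (q : ℕ) :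
    ∀ᵐ z : C3, P z (ext q (u : Lp (Fm m) 2 μS) z) = ext q (u : Lp (Fm m) 2 μS) z :=
  ext_proj hPE.P_scale u.2 q

theorem H1_norm_sq {P : C3 → (Fm m →L[ℂ] Fm m)} (f : H1 P) : ‖f‖ ^ 2 = ∑ j : Fin 3, ‖f j‖ ^ 2 := by
  rw [PiLp.norm_sq_eq_of_L2]

theorem fn_zero_ae (P : C3 → (Fm m →L[ℂ] Fm m)) (q : ℕ) (j : Fin 3) :
    (fun _ => (0 : Fm m)) =ᵐ[volume] ext q (fn (fun _ : Fin 3 => (0 : HP P)) j) :=
  (ext_zero_ae q).symm

theorem rel1_of_rel0 {P : C3 → (Fm m →L[ℂ] Fm m)} {E : Fin 3 → C3 → (Fm m →L[ℂ] Fm m)}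
    (hPE : PE P E) {u : HP P} {f : Fin 3 → HP P}
    (h : Rel0 E (u : Lp (Fm m) 2 μS) (fn f)) : Rel1 E (fn f) (fn fun _ => (0 : HP P)) :=
  Weak1.congr (weak1_of_weak0 hPE (ext_LI 0 _) (fun _ => ext_LI 1 _) (HP_ext_proj hPE u 0) h)
    (fun _ => ae_eq_refl _) (fun j => fn_zero_ae P 2 j)

theorem rel2_of_rel1 {P : C3 → (Fm m →L[ℂ] Fm m)} {E : Fin 3 → C3 → (Fm m →L[ℂ] Fm m)}
    (hPE : PE P E) {f h : Fin 3 → HP P}
    (hh : Rel1 E (fn f) (fn h)) : Rel2 E (fn h) :=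
  weak2_of_weak1 hPE (fun _ => ext_LI 1 _) (fun _ => ext_LI 2 _)
    (fun _ => HP_ext_proj hPE _ 1) hh

set_option backward.isDefEq.respectTransparency false in
/-- The first abstract theorem applied to `HP P`. -/
theorem pre_V01 {P : C3 → (Fm m →L[ℂ] Fm m)} {E : Fin 3 → C3 → (Fm m →L[ℂ] Fm m)}
    (hPE : PE P E) :
    ∃ N : Set ℝ, N.Countable ∧ ∀ s : ℝ, s ∉ N →
      (∀ u : HP P, Rel0 (twist s E) (u : Lp (Fm m) 2 μS) (fn fun _ => (0 : HP P)) → u = 0) ∧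
      (∀ f : Fin 3 → HP P, Rel1 (twist s E) (fn f) (fn fun _ => (0 : HP P)) →
        ∃ u : HP P, Rel0 (twist s E) (u : Lp (Fm m) 2 μS) (fn f)) := by
  obtain ⟨M, hM⟩ := exists_Mops P
  refine abs_V01 (K := HP P) (fun s u f => Rel0 (twist s E) (u : Lp (Fm m) 2 μS) (fn f))
    (fun s f h => Rel1 (twist s E) (fn f) (fn h)) M ?_ ?_ ?_ ?_ ?_ ?_ ?_ ?_ ?_ ?_
  · intro i j u
    apply Subtype.ext
    apply ext_injective 2
    have h1 := hM i (M j u) 1 (by norm_num)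
    have h2 := hM j u 0 (by norm_num)
    have h3 := hM j (M i u) 1 (by norm_num)
    have h4 := hM i u 0 (by norm_num)
    filter_upwards [h1, h2, h3, h4] with z hz1 hz2 hz3 hz4
    norm_num at hz1 hz2 hz3 hz4
    rw [hz1, hz2, hz3, hz4, smul_smul, smul_smul, mul_comm]
  · intro s
    exact exists_G0 P (hPE.twist s).E_smooth
  · intro s
    exact exists_G1 P (hPE.twist s).E_smooth
  · intro s u f h
    exact rel1_of_rel0 (hPE.twist s) h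
  · intro s τ u f
    exact rel0_shift (E := E) hM s τ u (WithLp.toLp 2 f)
  · intro s τ f h
    exact rel1_shift (E := E) hM s τ (WithLp.toLp 2 f) (WithLp.toLp 2 h)
  · exact est0 hPE
  · exact est1 hPE
  · intro s Q A h
    exact cpt0 (hPE.twist s) Q A h
  · intro s Q A h h' j
    exact cpt1 (hPE.twist s) Q A h h' j

set_option backward.isDefEq.respectTransparency false in
/-- The second abstract theorem applied to `HP P`. -/
theorem pre_V2 {P : C3 → (Fm m →L[ℂ] Fm m)} {E : Fin 3 → C3 → (Fm m →L[ℂ] Fm m)}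
    (hPE : PE P E) :
    ∃ σ : ℝ, ∀ s : ℝ, σ ≤ s → ∀ h : Fin 3 → HP P, Rel2 (twist s E) (fn h) →
      ∃ f : Fin 3 → HP P, Rel1 (twist s E) (fn f) (fn h) := by
  obtain ⟨σ, C, hC, hest⟩ := est2 hPE
  refine ⟨σ, fun s hs => ?_⟩
  refine abs_V2 (K := HP P) (fun f h => Rel1 (twist s E) (fn f) (fn h))
    (fun h => Rel2 (twist s E) (fn h)) ?_ ?_ ?_ C hC ?_
  · exact exists_G1 P (hPE.twist s).E_smooth
  · exact exists_K2 P (hPE.twist s).E_smooth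
  · intro f h hfh
    exact rel2_of_rel1 (hPE.twist s) hfh
  · intro v g hv hvg
    exact hest s hs v g hv hvg

theorem hilbert_V01 {P : C3 → (Fm m →L[ℂ] Fm m)} {E : Fin 3 → C3 → (Fm m →L[ℂ] Fm m)}
    (hPE : PE P E) :
    ∃ N : Set ℝ, N.Countable ∧ ∀ s : ℝ, s ∉ N →
      (∀ u : HP P, Rel0 (twist s E) (u : Lp (Fm m) 2 μS) (fn fun j => (0 : H1 P) j) → u = 0) ∧
      (∀ f : H1 P, Rel1 (twist s E) (fn fun j => f j) (fn fun j => (0 : H1 P) j) →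
        ∃ u : HP P, Rel0 (twist s E) (u : Lp (Fm m) 2 μS) (fn fun j => f j)) := by
  obtain ⟨N, hN, h⟩ := pre_V01 hPE
  exact ⟨N, hN, fun s hs => ⟨fun u hu => (h s hs).1 u hu, fun f hf => (h s hs).2 _ hf⟩⟩

theorem hilbert_V2 {P : C3 → (Fm m →L[ℂ] Fm m)} {E : Fin 3 → C3 → (Fm m →L[ℂ] Fm m)}
    (hPE : PE P E) :
    ∃ σ : ℝ, ∀ s : ℝ, σ ≤ s → ∀ h : H1 P, Rel2 (twist s E) (fn fun j => h j) →
      ∃ f : H1 P, Rel1 (twist s E) (fn fun j => f j) (fn fun j => h j) := by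
  obtain ⟨σ, h⟩ := pre_V2 hPE
  refine ⟨σ, fun s hs g hg => ?_⟩
  obtain ⟨f, hf⟩ := h s hs _ hg
  exact ⟨WithLp.toLp 2 f, hf⟩

end

end Pool.Agent.HopfEmb
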