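import Pool.Agent.Lib.MP_d404b9_ag.EstBase
import Pool.Agent.Lib.MP_d404b9_ag.CalcB

/-!
# JOB PL2-A: operations on `L²` sections, first part

`R2 (2 z) = 4 R2 z`, `ext q u` has weight `-q`. Use `ext_scale`, `ext_proj`, `ext_aesm`,
`ext_memLp`, `exists_mk` from `ExtA.lean`; on the shell `S` the function `R2 ^ s` is bounded
(`MemLp.of_le_mul` and similar).
-/

set_option autoImplicit false

open MeasureTheory Complex Filter Topology
open scoped ContDiff ComplexConjugate ENNReal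

namespace Pool.Agent.HopfEmb

noncomputable section

variable {m : ℕ}

theorem PL2A_R2_two (z : C3) : R2 ((2 : ℂ) • z) = 4 * R2 z := by
  unfold R2
  rw [Finset.mul_sum]
  refine Finset.sum_congr rfl fun i _ => ?_
  rw [Pi.smul_apply, smul_eq_mul, norm_mul, mul_pow]
  norm_num

theorem PL2A_R2_nonneg (z : C3) : 0 ≤ R2 z := by
  unfold R2
  positivity

theorem PL2A_R2_eq (z : C3) : R2 z = (rr z) ^ 2 := by
  unfold rr
  rw [Real.sq_sqrt (PL2A_R2_nonneg z)]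

theorem PL2A_bound (s : ℝ) {z : C3} (hz : z ∈ S) : (R2 z) ^ s ≤ (4 : ℝ) ^ |s| := by
  have h1 : 1 ≤ R2 z := by
    rw [PL2A_R2_eq]
    nlinarith [hz.1]
  have h2 : R2 z ≤ 4 := by
    rw [PL2A_R2_eq]
    nlinarith [hz.1, hz.2]
  calc (R2 z) ^ s ≤ (R2 z) ^ |s| := Real.rpow_le_rpow_of_exponent_le h1 (le_abs_self s)
    _ ≤ (4 : ℝ) ^ |s| := Real.rpow_le_rpow (by linarith) h2 (abs_nonneg s)

theorem PL2A_measurable (s : ℝ) : Measurable (fun z : C3 => (((R2 z) ^ s : ℝ) : ℂ)) :=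
  Complex.measurable_ofReal.comp (ExtA_continuous_R2.measurable.pow_const s)

theorem PL2A_scale (s : ℝ) (z : C3) :
    (R2 ((2 : ℂ) • z)) ^ s = (2 : ℝ) ^ (2 * s) * (R2 z) ^ s := by
  rw [PL2A_R2_two, Real.mul_rpow (by norm_num) (PL2A_R2_nonneg z)]
  congr 1
  rw [Real.rpow_mul (by norm_num)]
  norm_num

theorem PL2.rpow {P : C3 → (Fm m →L[ℂ] Fm m)} {w : ℝ} {U : C3 → Fm m} (hU : PL2 P w U) (s : ℝ) :
    PL2 P (w + 2 * s) (fun z => (((R2 z) ^ s : ℝ) : ℂ) • U z) where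
  aesm := (PL2A_measurable s).aestronglyMeasurable.smul hU.aesm
  scale := by
    filter_upwards [hU.scale] with z hz
    rw [hz, PL2A_scale, Real.rpow_add (by norm_num), smul_smul, smul_smul]
    congr 1
    push_cast
    ring
  proj := by
    filter_upwards [hU.proj] with z hz
    rw [map_smul, hz]
  l2 := by
    refine MemLp.of_le_mul (c := (4 : ℝ) ^ |s|) hU.l2
      ((PL2A_measurable s).aestronglyMeasurable.smul hU.l2.1) ?_
    refine (ae_restrict_iff' measurableSet_S).2 (Eventually.of_forall fun z hz => ?_)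
    rw [norm_smul, Complex.norm_real, Real.norm_eq_abs,
      abs_of_nonneg (Real.rpow_nonneg (PL2A_R2_nonneg z) s)]
    exact mul_le_mul_of_nonneg_right (PL2A_bound s hz) (norm_nonneg _)

theorem PL2A_cast (q : ℕ) : (((2 : ℝ) ^ (-(q : ℝ)) : ℝ) : ℂ) = (2 : ℂ) ^ (-(q : ℤ)) := by
  rw [Real.rpow_neg (by norm_num), Real.rpow_natCast, zpow_neg, zpow_natCast]
  push_cast
  rfl

theorem PL2.exists_HP {P : C3 → (Fm m →L[ℂ] Fm m)} {q : ℕ} (hq : q ≤ 3) {U : C3 → Fm m}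
    (hU : PL2 P (-(q : ℝ)) U) :
    ∃ u : HP P, ext q (u : Lp (Fm m) 2 μS) =ᵐ[volume] U := by
  have h2 : ∀ᵐ z : C3, U ((2 : ℂ) • z) = ((2 : ℂ) ^ (-(q : ℤ))) • U z := by
    filter_upwards [hU.scale] with z hz
    rw [hz, PL2A_cast]
  obtain ⟨u, hu1, hu2⟩ := exists_mk hq hU.aesm h2 hU.l2
  exact ⟨⟨u, hu2 P hU.proj⟩, hu1⟩

theorem PL2_ext {P : C3 → (Fm m →L[ℂ] Fm m)} (hP : ∀ z : C3, z ≠ 0 → P ((2 : ℂ) • z) = P z)
    {q : ℕ} (hq : q ≤ 3) (u : HP P) : PL2 P (-(q : ℝ)) (ext q (u : Lp (Fm m) 2 μS)) where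
  aesm := ext_aesm (Lp.aestronglyMeasurable (u : Lp (Fm m) 2 μS)) q
  scale := by
    filter_upwards [ExtA_ae_ne_zero] with z hz
    rw [ext_scale hq _ hz, PL2A_cast]
  proj := ext_proj hP u.2 q
  l2 := ext_memLp q (u : Lp (Fm m) 2 μS)

/-- Powers of `R2` cancel. -/
theorem R2_rpow_neg_mul (s : ℝ) {z : C3} (hz : z ≠ 0) :
    (((R2 z) ^ s : ℝ) : ℂ) * (((R2 z) ^ (-s) : ℝ) : ℂ) = 1 := by
  have h := ExtA_R2_pos hz
  rw [← Complex.ofReal_mul, ← Real.rpow_add h, add_neg_cancel, Real.rpow_zero, Complex.ofReal_one]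

end

end Pool.Agent.HopfEmb
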