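import Pool.Agent.Lib.MP_d404b9_ag.EstBase
import Pool.Agent.Lib.MP_d404b9_ag.CalcB

/-!
# JOB PL2-B: operations on `L²` sections, second part

For `PL2.l2loc`: a compact set `K` with `0 ∉ K` lies in `{2^{-n} ≤ rr z < 2^n}`, i.e. in finitely
many shells `2^k S`, and `U (2^k z) = 2^{wk} U z` a.e.; or: with `a = R2 ^ (-(w+3)/2)` the function
`a • U` has weight `-3`, so it is `ext 3 u` a.e. (`exists_mk`), use `ext_bound` with a cutoff which is
`1` on `K`, and that `R2 ^ ((w+3)/2)` is bounded on `K`.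
A set with `μS` finite: `S` is bounded; a function continuous on `ℂ³ ∖ 0` is bounded on
`closure S ⊆ {1 ≤ rr z ≤ 2}`, hence in `L²(μS)`.
-/

set_option autoImplicit false

open MeasureTheory Complex Filter Topology
open scoped ContDiff ComplexConjugate ENNReal

namespace Pool.Agent.HopfEmb

noncomputable section

variable {m : ℕ}

theorem PL2B_norm_scale {P : C3 → (Fm m →L[ℂ] Fm m)} {w : ℝ} {U : C3 → Fm m} (hU : PL2 P w U) :
    ∀ᵐ z : C3, ∀ k : ℤ, ‖U (((2 : ℂ) ^ k) • z)‖ = ((2 : ℝ) ^ w) ^ k * ‖U z‖ := by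
  have h1 : ∀ᵐ z : C3, ‖U ((2 : ℂ) • z)‖ = ((2 : ℝ) ^ w) * ‖U z‖ := by
    filter_upwards [hU.scale] with z hz
    rw [hz, norm_smul, Complex.norm_real, Real.norm_eq_abs, abs_of_pos (by positivity)]
  have h2 : ∀ᵐ z : C3, ∀ k : ℤ, ‖U ((2 : ℂ) • (((2 : ℂ) ^ k) • z))‖ =
      ((2 : ℝ) ^ w) * ‖U (((2 : ℂ) ^ k) • z)‖ := ae_all_iff.2 fun k => ExtA_quasi k h1
  filter_upwards [h2] with z hz
  have hc : (0 : ℝ) < (2 : ℝ) ^ w := by positivity
  have h3 : ∀ k : ℤ, ‖U (((2 : ℂ) ^ (k + 1)) • z)‖ = ((2 : ℝ) ^ w) * ‖U (((2 : ℂ) ^ k) • z)‖ := by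
    intro k
    rw [← hz k, smul_smul, mul_comm (2 : ℂ), zpow_add₀ (by norm_num), zpow_one]
  intro k
  induction k using Int.induction_on with
  | zero => simp
  | succ k ih =>
    rw [h3, ih, zpow_add₀ hc.ne', zpow_one]
    ring
  | pred k ih =>
    have h4 := h3 (-(k : ℤ) - 1)
    rw [sub_add_cancel, ih] at h4
    have e : ((2 : ℝ) ^ w) ^ (-(k : ℤ)) = ((2 : ℝ) ^ w) ^ (-(k : ℤ) - 1) * (2 : ℝ) ^ w := by
      rw [← zpow_add_one₀ hc.ne', sub_add_cancel]
    rw [e] at h4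
    have h5 : (2 : ℝ) ^ w * (((2 : ℝ) ^ w) ^ (-(k : ℤ) - 1) * ‖U z‖) =
        (2 : ℝ) ^ w * ‖U ((2 : ℂ) ^ (-(k : ℤ) - 1) • z)‖ := by
      rw [← h4]
      ring
    exact (mul_left_cancel₀ hc.ne' h5).symm

theorem PL2.l2loc {P : C3 → (Fm m →L[ℂ] Fm m)} {w : ℝ} {U : C3 → Fm m} (hU : PL2 P w U) :
    L2loc U := by
  intro K hK h0
  have hKm : MeasurableSet K := hK.isClosed.measurableSet
  let A : C3 → ℝ := K.indicator (fun _ => (1 : ℝ))
  have hA : tsupport A ⊆ K := closure_minimal Set.support_indicator_subset hK.isClosed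
  have hAc : HasCompactSupport A := IsCompact.of_isClosed_subset hK (isClosed_tsupport A) hA
  obtain ⟨N, hN⟩ := ExtA_annulus hAc (fun h => h0 (hA h))
  have hz : ∀ z ∈ S, ∀ k : ℤ, k ∉ Finset.Icc (-(N : ℤ) - 1) N → ((2 : ℂ) ^ k) • z ∉ K := by
    intro z hz k hk hmem
    have h1 : A (((2 : ℂ) ^ k) • z) = 0 := ExtA_shell_zero hN hz hk
    have h2 : A (((2 : ℂ) ^ k) • z) = 1 := Set.indicator_of_mem hmem _
    exact one_ne_zero (h2.symm.trans h1)
  apply ExtA_memLp_of_lintegral hU.aesm.restrict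
  rw [← lintegral_indicator hKm]
  have hg : AEMeasurable (K.indicator fun z => ‖U z‖ₑ ^ 2) volume :=
    (hU.aesm.enorm.pow_const 2).indicator hKm
  rw [lintegral_shells hg, tsum_eq_sum (s := Finset.Icc (-(N : ℤ) - 1) N)]
  · rw [ENNReal.sum_lt_top]
    intro k _
    apply ENNReal.mul_lt_top ENNReal.ofReal_lt_top
    have h1 : ∫⁻ z in S, K.indicator (fun z => ‖U z‖ₑ ^ 2) (((2 : ℂ) ^ k) • z) ≤
        ∫⁻ z in S, ENNReal.ofReal (((2 : ℝ) ^ w) ^ k) ^ 2 * ‖U z‖ₑ ^ 2 := by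
      apply lintegral_mono_ae
      filter_upwards [ae_restrict_of_ae (PL2B_norm_scale hU)] with z hz
      refine (Set.indicator_le_self _ _ _).trans ?_
      rw [← mul_pow]
      apply le_of_eq
      congr 1
      rw [← ofReal_norm, hz k, ENNReal.ofReal_mul (by positivity), ofReal_norm]
    refine h1.trans_lt ?_
    rw [lintegral_const_mul' _ _ (by simp)]
    apply ENNReal.mul_lt_top (by simp)
    have h2 := ExtA_lintegral_sq hU.l2
    unfold μS at h2
    rw [h2]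
    exact ENNReal.ofReal_lt_top
  · intro k hk
    have h1 : ∫⁻ z in S, K.indicator (fun z => ‖U z‖ₑ ^ 2) (((2 : ℂ) ^ k) • z) = 0 := by
      rw [setLIntegral_congr_fun (g := fun _ => 0) measurableSet_S]
      · simp
      · intro z hzS
        exact Set.indicator_of_notMem (hz z hzS k hk) _
    rw [h1, mul_zero]

theorem PL2.li {P : C3 → (Fm m →L[ℂ] Fm m)} {w : ℝ} {U : C3 → Fm m} (hU : PL2 P w U) :
    LI U := by
  intro z hz
  have hz' : z ∈ ({0}ᶜ : Set C3) := hz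
  obtain ⟨K, hK, hKn, hK0⟩ := exists_compact_subset (isOpen_compl_singleton (x := (0 : C3))) hz'
  refine ⟨K, mem_nhdsWithin_of_mem_nhds (mem_interior_iff_mem_nhds.1 hKn), ?_⟩
  have h1 := hU.l2loc K hK (fun h => hK0 h rfl)
  have : IsFiniteMeasure ((volume : Measure C3).restrict K) :=
    ⟨by rw [Measure.restrict_apply_univ]; exact hK.measure_lt_top⟩
  exact h1.integrable (by norm_num)

theorem PL2B_norm_coord_le {z : C3} (hz : z ∈ S) (j : Fin 3) : ‖z j‖ ≤ 2 := by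
  have h1 : ‖z j‖ ^ 2 ≤ R2 z := by
    unfold R2
    exact Finset.single_le_sum (f := fun i => ‖z i‖ ^ 2) (fun i _ => by positivity)
      (Finset.mem_univ j)
  have h2 : ‖z j‖ ≤ rr z := by
    unfold rr
    exact Real.le_sqrt_of_sq_le h1
  exact h2.trans hz.2.le

theorem PL2.coord {P : C3 → (Fm m →L[ℂ] Fm m)} {w : ℝ} {U : C3 → Fm m} (hU : PL2 P w U)
    (j : Fin 3) : PL2 P (w + 1) (fun z => z j • U z) := by
  have hm : AEStronglyMeasurable (fun z : C3 => z j) volume :=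
    (continuous_apply j).aestronglyMeasurable
  refine ⟨hm.smul hU.aesm, ?_, ?_, ?_⟩
  · filter_upwards [hU.scale] with z hz
    rw [hz, smul_smul, smul_smul, Pi.smul_apply, smul_eq_mul, Real.rpow_add_one (by norm_num)]
    congr 1
    push_cast
    ring
  · filter_upwards [hU.proj] with z hz
    rw [map_smul, hz]
  · refine MemLp.of_le_mul (c := 2) hU.l2 ((hm.smul hU.aesm).restrict) ?_
    filter_upwards [ae_restrict_mem measurableSet_S] with z hz
    rw [norm_smul]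
    exact mul_le_mul_of_nonneg_right (PL2B_norm_coord_le hz j) (norm_nonneg _)

theorem PL2.add {P : C3 → (Fm m →L[ℂ] Fm m)} {w : ℝ} {U V : C3 → Fm m} (hU : PL2 P w U)
    (hV : PL2 P w V) : PL2 P w (fun z => U z + V z) := by
  refine ⟨hU.aesm.add hV.aesm, ?_, ?_, hU.l2.add hV.l2⟩
  · filter_upwards [hU.scale, hV.scale] with z h1 h2
    rw [h1, h2, smul_add]
  · filter_upwards [hU.proj, hV.proj] with z h1 h2
    rw [map_add, h1, h2]

theorem PL2.sub {P : C3 → (Fm m →L[ℂ] Fm m)} {w : ℝ} {U V : C3 → Fm m} (hU : PL2 P w U)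
    (hV : PL2 P w V) : PL2 P w (fun z => U z - V z) := by
  refine ⟨hU.aesm.sub hV.aesm, ?_, ?_, hU.l2.sub hV.l2⟩
  · filter_upwards [hU.scale, hV.scale] with z h1 h2
    rw [h1, h2, smul_sub]
  · filter_upwards [hU.proj, hV.proj] with z h1 h2
    rw [map_sub, h1, h2]

theorem PL2B_isCompact_annulus : IsCompact {z : C3 | 1 ≤ rr z ∧ rr z ≤ 2} := by
  have hc := ExtA_continuous_rr
  have h1 : IsClosed {z : C3 | 1 ≤ rr z ∧ rr z ≤ 2} :=
    (isClosed_le continuous_const hc).inter (isClosed_le hc continuous_const)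
  refine (isCompact_closedBall (0 : C3) 2).of_isClosed_subset h1 ?_
  intro z hz
  rw [mem_closedBall_zero_iff, pi_norm_le_iff_of_nonneg (by norm_num)]
  intro j
  have h1 : ‖z j‖ ^ 2 ≤ R2 z := by
    unfold R2
    exact Finset.single_le_sum (f := fun i => ‖z i‖ ^ 2) (fun i _ => by positivity)
      (Finset.mem_univ j)
  have h2 : ‖z j‖ ≤ rr z := by
    unfold rr
    exact Real.le_sqrt_of_sq_le h1
  exact h2.trans hz.2

theorem PL2_of_smooth {P : C3 → (Fm m →L[ℂ] Fm m)} {w : ℝ} {U : C3 → Fm m}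
    (hs : ∀ z : C3, z ≠ 0 → ContDiffAt ℝ ∞ U z) (hP : ∀ z : C3, z ≠ 0 → P z (U z) = U z)
    (hw : ∀ z : C3, z ≠ 0 → U ((2 : ℂ) • z) = (((2 : ℝ) ^ w : ℝ) : ℂ) • U z) : PL2 P w U := by
  have hc : ContinuousOn U {z : C3 | z ≠ 0} := fun z hz => (hs z hz).continuousAt.continuousWithinAt
  have hmz : MeasurableSet {z : C3 | z ≠ 0} := isOpen_ne.measurableSet
  have hr : (volume : Measure C3).restrict {z : C3 | z ≠ 0} = volume :=
    Measure.restrict_eq_self_of_ae_mem ExtA_ae_ne_zero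
  have haesm : AEStronglyMeasurable U volume := by
    rw [← hr]
    exact hc.aestronglyMeasurable hmz
  refine ⟨haesm, ?_, ?_, ?_⟩
  · filter_upwards [ExtA_ae_ne_zero] with z hz using hw z hz
  · filter_upwards [ExtA_ae_ne_zero] with z hz using hP z hz
  · have hsub : {z : C3 | 1 ≤ rr z ∧ rr z ≤ 2} ⊆ {z : C3 | z ≠ 0} := fun z hz =>
      ExtA_ne_of_rr (lt_of_lt_of_le one_pos hz.1)
    obtain ⟨C, hC⟩ := PL2B_isCompact_annulus.exists_bound_of_continuousOn (hc.mono hsub)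
    have hfin : IsFiniteMeasure μS := by
      refine ⟨?_⟩
      unfold μS
      rw [Measure.restrict_apply_univ]
      have hsub : S ⊆ {z : C3 | 1 ≤ rr z ∧ rr z ≤ 2} := fun z hz => ⟨hz.1, hz.2.le⟩
      exact (measure_mono hsub).trans_lt PL2B_isCompact_annulus.measure_lt_top
    refine MemLp.of_bound haesm.restrict C ?_
    filter_upwards [ae_restrict_mem measurableSet_S] with z hz
    exact hC z ⟨hz.1, hz.2.le⟩

/-- Differences of weak solutions. -/
theorem Weak0.sub {E : Fin 3 → C3 → (Fm m →L[ℂ] Fm m)}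
    (hE : ∀ j, ∀ z : C3, z ≠ 0 → ContDiffAt ℝ ∞ (E j) z)
    {U U' : C3 → Fm m} {F F' : Fin 3 → C3 → Fm m} (hU : LI U) (hU' : LI U')
    (hF : ∀ j, LI (F j)) (hF' : ∀ j, LI (F' j)) (h : Weak0 E U F) (h' : Weak0 E U' F') :
    Weak0 E (fun z => U z - U' z) (fun j z => F j z - F' j z) := by
  intro Ψ hΨ j
  have t1 := CalcB_isTest_dbar hΨ j
  have t2 := CalcB_isTest_comp (hE j) hΨ
  have i1 : ∀ {U : C3 → Fm m} {F : Fin 3 → C3 → Fm m}, LI U → (∀ j, LI (F j)) →
      Integrable (fun z => Ψ z (E j z (U z) + F j z)) := by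
    intro U F hU hF
    refine ((CalcB_integrable t2 hU).add (CalcB_integrable hΨ (hF j))).congr ?_
    filter_upwards with z
    simp
  have e1 : ∫ z, (dbar j Ψ z) (U z - U' z) =
      (∫ z, (dbar j Ψ z) (U z)) - ∫ z, (dbar j Ψ z) (U' z) := by
    rw [← integral_sub (CalcB_integrable t1 hU) (CalcB_integrable t1 hU')]
    apply integral_congr_ae
    filter_upwards with z
    simp
  have e2 : ∫ z, Ψ z (E j z (U z - U' z) + (F j z - F' j z)) =
      (∫ z, Ψ z (E j z (U z) + F j z)) - ∫ z, Ψ z (E j z (U' z) + F' j z) := by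
    rw [← integral_sub (i1 hU hF) (i1 hU' hF')]
    apply integral_congr_ae
    filter_upwards with z
    simp only [map_add, map_sub]
    ring
  rw [e1, e2, h Ψ hΨ j, h' Ψ hΨ j]
  ring

theorem Weak1.sub {E : Fin 3 → C3 → (Fm m →L[ℂ] Fm m)}
    (hE : ∀ j, ∀ z : C3, z ≠ 0 → ContDiffAt ℝ ∞ (E j) z)
    {F F' H H' : Fin 3 → C3 → Fm m} (hF : ∀ j, LI (F j)) (hF' : ∀ j, LI (F' j))
    (hH : ∀ j, LI (H j)) (hH' : ∀ j, LI (H' j)) (h : Weak1 E F H) (h' : Weak1 E F' H') :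
    Weak1 E (fun j z => F j z - F' j z) (fun j z => H j z - H' j z) := by
  intro Ψ hΨ i
  have i1 : ∀ {F : Fin 3 → C3 → Fm m}, (∀ j, LI (F j)) →
      Integrable (fun z => (dbar (i + 1) Ψ z) (F (i + 2) z) - (dbar (i + 2) Ψ z) (F (i + 1) z)) :=
    fun hF => (CalcB_integrable (CalcB_isTest_dbar hΨ _) (hF _)).sub
      (CalcB_integrable (CalcB_isTest_dbar hΨ _) (hF _))
  have i2 : ∀ {F H : Fin 3 → C3 → Fm m}, (∀ j, LI (F j)) → (∀ j, LI (H j)) →
      Integrable (fun z => Ψ z (E (i + 1) z (F (i + 2) z) - E (i + 2) z (F (i + 1) z) + H i z)) := by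
    intro F H hF hH
    refine (((CalcB_integrable (CalcB_isTest_comp (hE (i + 1)) hΨ) (hF (i + 2))).sub
      (CalcB_integrable (CalcB_isTest_comp (hE (i + 2)) hΨ) (hF (i + 1)))).add
      (CalcB_integrable hΨ (hH i))).congr ?_
    filter_upwards with z
    simp
  have e1 : ∫ z, ((dbar (i + 1) Ψ z) (F (i + 2) z - F' (i + 2) z) -
      (dbar (i + 2) Ψ z) (F (i + 1) z - F' (i + 1) z)) =
      (∫ z, ((dbar (i + 1) Ψ z) (F (i + 2) z) - (dbar (i + 2) Ψ z) (F (i + 1) z))) -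
      ∫ z, ((dbar (i + 1) Ψ z) (F' (i + 2) z) - (dbar (i + 2) Ψ z) (F' (i + 1) z)) := by
    rw [← integral_sub (i1 hF) (i1 hF')]
    apply integral_congr_ae
    filter_upwards with z
    simp only [map_sub]
    ring
  have e2 : ∫ z, Ψ z (E (i + 1) z (F (i + 2) z - F' (i + 2) z) -
      E (i + 2) z (F (i + 1) z - F' (i + 1) z) + (H i z - H' i z)) =
      (∫ z, Ψ z (E (i + 1) z (F (i + 2) z) - E (i + 2) z (F (i + 1) z) + H i z)) -
      ∫ z, Ψ z (E (i + 1) z (F' (i + 2) z) - E (i + 2) z (F' (i + 1) z) + H' i z) := by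
    rw [← integral_sub (i2 hF hH) (i2 hF' hH')]
    apply integral_congr_ae
    filter_upwards with z
    simp only [map_add, map_sub]
    ring
  rw [e1, e2, h Ψ hΨ i, h' Ψ hΨ i]
  ring

/-- Multiplication by a coordinate (a special case of `Weak0.mul`, as `∂̄ z_k = 0`). -/
theorem Weak0.coord {E : Fin 3 → C3 → (Fm m →L[ℂ] Fm m)}
    (hE : ∀ j, ∀ z : C3, z ≠ 0 → ContDiffAt ℝ ∞ (E j) z)
    {U : C3 → Fm m} {F : Fin 3 → C3 → Fm m} (hU : LI U) (hF : ∀ j, LI (F j))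
    (h : Weak0 E U F) (k : Fin 3) :
    Weak0 E (fun z => z k • U z) (fun j z => z k • F j z) := by
  have h1 := h.mul hE hU hF (a := fun z : C3 => z k)
    (fun z _ => (contDiff_apply ℝ ℂ k).contDiffAt)
  have e : (fun (j : Fin 3) (z : C3) => dbar j (fun z : C3 => z k) z • U z + z k • F j z) =
      fun j z => z k • F j z := by
    funext j z
    rw [CalcB_dbar_coord, zero_smul, zero_add]
  rw [e] at h1
  exact h1

theorem Weak1.coord {E : Fin 3 → C3 → (Fm m →L[ℂ] Fm m)}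
    (hE : ∀ j, ∀ z : C3, z ≠ 0 → ContDiffAt ℝ ∞ (E j) z)
    {F H : Fin 3 → C3 → Fm m} (hF : ∀ j, LI (F j)) (hH : ∀ j, LI (H j))
    (h : Weak1 E F H) (k : Fin 3) :
    Weak1 E (fun j z => z k • F j z) (fun j z => z k • H j z) := by
  have h1 := h.mul hE hF hH (a := fun z : C3 => z k)
    (fun z _ => (contDiff_apply ℝ ℂ k).contDiffAt)
  have e : (fun (i : Fin 3) (z : C3) => (dbar (i + 1) (fun z : C3 => z k) z • F (i + 2) z
      - dbar (i + 2) (fun z : C3 => z k) z • F (i + 1) z) + z k • H i z) =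
      fun j z => z k • H j z := by
    funext i z
    rw [CalcB_dbar_coord, CalcB_dbar_coord, zero_smul, zero_smul, sub_zero, zero_add]
  rw [e] at h1
  exact h1

end

end Pool.Agent.HopfEmb
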