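import Pool.Agent.Lib.MP_d404b9_ag.Main3
import Pool.Agent.Lib.MP_d404b9_ag.PL2A
import Pool.Agent.Lib.MP_d404b9_ag.PL2B

/-!
# JOB FUNC: vanishing and solvability for sections of real weight

Multiply by `R2 ^ (-s)` (`PL2.rpow`), which turns weight `2 s - q` into weight `-q`, and (with
`Weak0.mul`, `dbar_R2_rpow`) `Weak0 E U F` into
`Weak0 E (R2^{-s} U) (-s η_j R2^{-s} U + R2^{-s} F_j)`, i.e. (`Weak0_twist_add`, `twist 0 E = E`)
`Weak0 (twist s E) (R2^{-s} U) (R2^{-s} F)`; then use `PL2.exists_HP`, `Weak0.congr` and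
`hilbert_V01`, `hilbert_V2`, and go back with `PL2_ext`, `PL2.rpow` and `R2_rpow_neg_mul`.
-/

set_option autoImplicit false

open MeasureTheory Complex Filter Topology
open scoped ContDiff ComplexConjugate

namespace Pool.Agent.HopfEmb

noncomputable section

variable {m : ℕ}

/-- The scalar function `R2 ^ s`. -/
private def pw (s : ℝ) (z : C3) : ℂ := (((R2 z) ^ s : ℝ) : ℂ)

private theorem pw_smooth (s : ℝ) : ∀ z : C3, z ≠ 0 → ContDiffAt ℝ ∞ (pw s) z :=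
  fun _ hz => contDiffAt_R2_rpow s hz

private theorem pw_dbar (s : ℝ) (j : Fin 3) {z : C3} (hz : z ≠ 0) :
    dbar j (pw s) z = ((s : ℂ) * eta j z) * pw s z := dbar_R2_rpow s j hz

private theorem pw_neg_mul (s : ℝ) {z : C3} (hz : z ≠ 0) : pw s z * pw (-s) z = 1 :=
  R2_rpow_neg_mul s hz

private theorem pw_PL2 {P : C3 → (Fm m →L[ℂ] Fm m)} {w w' : ℝ} {U : C3 → Fm m} (hU : PL2 P w U)
    (s : ℝ) (h : w + 2 * s = w') : PL2 P w' (fun z => pw s z • U z) := by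
  subst h
  exact hU.rpow s

private theorem twist_zero' (E : Fin 3 → C3 → (Fm m →L[ℂ] Fm m)) : twist 0 E = E := by
  funext j z
  refine ContinuousLinearMap.ext fun v => ?_
  simp [twist]

private theorem weak0_down {E : Fin 3 → C3 → (Fm m →L[ℂ] Fm m)}
    (hE : ∀ j, ∀ z : C3, z ≠ 0 → ContDiffAt ℝ ∞ (E j) z)
    {U : C3 → Fm m} {F : Fin 3 → C3 → Fm m} (hU : LI U) (hF : ∀ j, LI (F j))
    (h : Weak0 E U F) (s : ℝ) :
    Weak0 (twist s E) (fun z => pw (-s) z • U z) (fun j z => pw (-s) z • F j z) := by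
  have h1 := Weak0.mul hE hU hF h (pw_smooth (-s))
  have h2 := (Weak0_twist_add (E := E) (U := fun z => pw (-s) z • U z)
    (F := fun j z => pw (-s) z • F j z) 0 s).2
  rw [zero_add, twist_zero'] at h2
  refine h2 (h1.congr EventuallyEq.rfl fun j => ?_)
  filter_upwards [ExtA_ae_ne_zero] with z hz
  rw [pw_dbar (-s) j hz]
  push_cast
  rw [smul_smul, sub_eq_add_neg, ← neg_smul, add_comm]
  congr 2
  ring

private theorem weak0_up {E : Fin 3 → C3 → (Fm m →L[ℂ] Fm m)} {s : ℝ}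
    (hE : ∀ j, ∀ z : C3, z ≠ 0 → ContDiffAt ℝ ∞ (twist s E j) z)
    {U : C3 → Fm m} {F : Fin 3 → C3 → Fm m} (hU : LI U) (hF : ∀ j, LI (F j))
    (h : Weak0 (twist s E) U F) :
    Weak0 E (fun z => pw s z • U z) (fun j z => pw s z • F j z) := by
  have h1 := Weak0.mul hE hU hF h (pw_smooth s)
  have h2 := (Weak0_twist_add (E := E) (U := fun z => pw s z • U z)
    (F := fun j z => dbar j (pw s) z • U z + pw s z • F j z) 0 s).1
  rw [zero_add, twist_zero'] at h2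
  refine (h2 h1).congr EventuallyEq.rfl fun j => ?_
  filter_upwards [ExtA_ae_ne_zero] with z hz
  rw [pw_dbar s j hz, smul_smul]
  abel

private theorem weak1_down {E : Fin 3 → C3 → (Fm m →L[ℂ] Fm m)}
    (hE : ∀ j, ∀ z : C3, z ≠ 0 → ContDiffAt ℝ ∞ (E j) z)
    {F H : Fin 3 → C3 → Fm m} (hF : ∀ j, LI (F j)) (hH : ∀ j, LI (H j))
    (h : Weak1 E F H) (s : ℝ) :
    Weak1 (twist s E) (fun j z => pw (-s) z • F j z) (fun j z => pw (-s) z • H j z) := by
  have h1 := Weak1.mul hE hF hH h (pw_smooth (-s))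
  have h2 := (Weak1_twist_add (E := E) (F := fun j z => pw (-s) z • F j z)
    (H := fun j z => pw (-s) z • H j z) 0 s).2
  rw [zero_add, twist_zero'] at h2
  refine h2 (h1.congr (fun _ => EventuallyEq.rfl) fun j => ?_)
  filter_upwards [ExtA_ae_ne_zero] with z hz
  rw [pw_dbar (-s) (j + 1) hz, pw_dbar (-s) (j + 2) hz]
  push_cast
  module

private theorem weak1_up {E : Fin 3 → C3 → (Fm m →L[ℂ] Fm m)} {s : ℝ}
    (hE : ∀ j, ∀ z : C3, z ≠ 0 → ContDiffAt ℝ ∞ (twist s E j) z)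
    {F H : Fin 3 → C3 → Fm m} (hF : ∀ j, LI (F j)) (hH : ∀ j, LI (H j))
    (h : Weak1 (twist s E) F H) :
    Weak1 E (fun j z => pw s z • F j z) (fun j z => pw s z • H j z) := by
  have h1 := Weak1.mul hE hF hH h (pw_smooth s)
  have h2 := (Weak1_twist_add (E := E) (F := fun j z => pw s z • F j z)
    (H := fun i z => (dbar (i + 1) (pw s) z • F (i + 2) z
      - dbar (i + 2) (pw s) z • F (i + 1) z) + pw s z • H i z) 0 s).1
  rw [zero_add, twist_zero'] at h2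
  refine (h2 h1).congr (fun _ => EventuallyEq.rfl) fun j => ?_
  filter_upwards [ExtA_ae_ne_zero] with z hz
  rw [pw_dbar s (j + 1) hz, pw_dbar s (j + 2) hz]
  module

private theorem weak2_down {E : Fin 3 → C3 → (Fm m →L[ℂ] Fm m)}
    (hE : ∀ j, ∀ z : C3, z ≠ 0 → ContDiffAt ℝ ∞ (E j) z)
    {H : Fin 3 → C3 → Fm m} (hH : ∀ j, LI (H j)) (h : Weak2 E H) (s : ℝ) :
    Weak2 (twist s E) (fun j z => pw (-s) z • H j z) := by
  refine Weak2.mul hE hH h (pw_smooth (-s)) (twist s E) fun j z hz => ?_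
  rw [pw_dbar (-s) j hz]
  unfold twist
  push_cast
  module

private theorem zero_H1 (P : C3 → (Fm m →L[ℂ] Fm m)) (q : ℕ) (j : Fin 3) :
    ext q (fn (fun j => (0 : H1 P) j) j) =ᵐ[volume] fun _ => 0 := by
  have h : (fn (fun j => (0 : H1 P) j) j) =ᵐ[μS] fun _ => 0 := Lp.coeFn_zero (Fm m) 2 μS
  refine (ext_congr h q).trans (Eventually.of_forall fun z => ?_)
  simp [ext, tl]

private theorem up_down {U V : C3 → Fm m} {s : ℝ} (h : U =ᵐ[volume] fun z => pw (-s) z • V z) :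
    (fun z => pw s z • U z) =ᵐ[volume] V := by
  filter_upwards [h, ExtA_ae_ne_zero] with z h1 h2
  rw [h1, smul_smul, pw_neg_mul s h2, one_smul]

theorem func_V01 {P : C3 → (Fm m →L[ℂ] Fm m)} {E : Fin 3 → C3 → (Fm m →L[ℂ] Fm m)}
    (hPE : PE P E) :
    ∃ N : Set ℝ, N.Countable ∧ ∀ s : ℝ, s ∉ N →
      (∀ U : C3 → Fm m, PL2 P (2 * s) U → Weak0 E U (fun _ _ => 0) →
        U =ᵐ[volume] fun _ => 0) ∧
      (∀ F : Fin 3 → C3 → Fm m, (∀ j, PL2 P (2 * s - 1) (F j)) → Weak1 E F (fun _ _ => 0) →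
        ∃ U : C3 → Fm m, PL2 P (2 * s) U ∧ Weak0 E U F) := by
  obtain ⟨N, hN, hs⟩ := hilbert_V01 hPE
  refine ⟨N, hN, fun s hsN => ?_⟩
  obtain ⟨hA, hB⟩ := hs s hsN
  have hLI0 : LI (fun _ : C3 => (0 : Fm m)) := locallyIntegrableOn_zero
  refine ⟨fun U hU hW => ?_, fun F hF hW => ?_⟩
  · have h1 : PL2 P (-((0 : ℕ) : ℝ)) (fun z => pw (-s) z • U z) :=
      pw_PL2 hU (-s) (by push_cast; ring)
    obtain ⟨u, hu⟩ := PL2.exists_HP (q := 0) (by norm_num) h1
    have h2 := weak0_down hPE.E_smooth hU.li (fun _ => hLI0) hW s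
    have h3 : u = 0 := by
      apply hA u
      refine h2.congr hu.symm fun j => ?_
      refine EventuallyEq.trans (Eventually.of_forall fun z => ?_) (zero_H1 P 1 j).symm
      simp
    have h4 : ext 0 (u : Lp (Fm m) 2 μS) =ᵐ[volume] fun _ => 0 := by
      subst h3
      exact zero_H1 P 0 0
    have h5 := up_down hu
    refine h5.symm.trans ?_
    filter_upwards [h4] with z hz
    rw [hz, smul_zero]
  · have h1 : ∀ j, PL2 P (-((1 : ℕ) : ℝ)) (fun z => pw (-s) z • F j z) :=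
      fun j => pw_PL2 (hF j) (-s) (by push_cast; ring)
    choose f hf using fun j => PL2.exists_HP (q := 1) (by norm_num) (h1 j)
    have h2 := weak1_down hPE.E_smooth (fun j => (hF j).li) (fun _ => hLI0) hW s
    obtain ⟨u, hu⟩ := hB (WithLp.toLp 2 f) (by
      refine h2.congr (fun j => (hf j).symm) fun j => ?_
      refine EventuallyEq.trans (Eventually.of_forall fun z => ?_) (zero_H1 P 2 j).symm
      simp)
    have hu0 : PL2 P (-((0 : ℕ) : ℝ)) (ext 0 (u : Lp (Fm m) 2 μS)) :=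
      PL2_ext hPE.P_scale (by norm_num) u
    have hf1 : ∀ j, PL2 P (-((1 : ℕ) : ℝ)) (ext 1 (f j : Lp (Fm m) 2 μS)) :=
      fun j => PL2_ext hPE.P_scale (by norm_num) (f j)
    refine ⟨fun z => pw s z • ext 0 (u : Lp (Fm m) 2 μS) z,
      pw_PL2 hu0 s (by push_cast; ring), ?_⟩
    have h3 := weak0_up (hPE.twist s).E_smooth hu0.li (fun j => (hf1 j).li) hu
    exact h3.congr EventuallyEq.rfl fun j => up_down (hf j)

theorem func_V2 {P : C3 → (Fm m →L[ℂ] Fm m)} {E : Fin 3 → C3 → (Fm m →L[ℂ] Fm m)}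
    (hPE : PE P E) :
    ∃ σ : ℝ, ∀ s : ℝ, σ ≤ s → ∀ H : Fin 3 → C3 → Fm m, (∀ j, PL2 P (2 * s - 2) (H j)) →
      Weak2 E H → ∃ F : Fin 3 → C3 → Fm m, (∀ j, PL2 P (2 * s - 1) (F j)) ∧ Weak1 E F H := by
  obtain ⟨σ, hσ⟩ := hilbert_V2 hPE
  refine ⟨σ, fun s hs H hH hW => ?_⟩
  have h1 : ∀ j, PL2 P (-((2 : ℕ) : ℝ)) (fun z => pw (-s) z • H j z) :=
    fun j => pw_PL2 (hH j) (-s) (by push_cast; ring)
  choose h hh using fun j => PL2.exists_HP (q := 2) (by norm_num) (h1 j)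
  have h2 := weak2_down hPE.E_smooth (fun j => (hH j).li) hW s
  obtain ⟨f, hf⟩ := hσ s hs (WithLp.toLp 2 h) (h2.congr fun j => (hh j).symm)
  have hf1 : ∀ j, PL2 P (-((1 : ℕ) : ℝ)) (ext 1 (f j : Lp (Fm m) 2 μS)) :=
    fun j => PL2_ext hPE.P_scale (by norm_num) (f j)
  have hh2 : ∀ j, PL2 P (-((2 : ℕ) : ℝ)) (ext 2 (h j : Lp (Fm m) 2 μS)) :=
    fun j => PL2_ext hPE.P_scale (by norm_num) (h j)
  refine ⟨fun j z => pw s z • ext 1 (f j : Lp (Fm m) 2 μS) z,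
    fun j => pw_PL2 (hf1 j) s (by push_cast; ring), ?_⟩
  have h3 := weak1_up (hPE.twist s).E_smooth (fun j => (hf1 j).li) (fun j => (hh2 j).li) hf
  exact h3.congr (fun _ => EventuallyEq.rfl) fun j => up_down (hh j)

end

end Pool.Agent.HopfEmb
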