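import Pool.Agent.Lib.MP_d404b9_ag.CalcC
import Pool.Agent.Lib.MP_d404b9_ag.WeakEst

/-!
# JOB NODIV: a section which is nonzero on the axis is not of the form `z_1 p + z_2 p'`

Let `y₀ = t e1`. Take a smooth cutoff `ρ` supported near `y₀` (away from `0`), `ρ = 1` on a ball
`B(y₀, r)` on which `‖f‖ ≥ c > 0`. By `Weak0.localize`, `v = ρ p` has weak derivatives in `L²`, so by
`weak_hardy` and Fatou `∫ ‖ρ p‖²/(|z_1|²+|z_2|²) < ∞`, similarly for `p'`. But a.e. on
`B(y₀, r)`: `c² ≤ ‖f‖² ≤ (|z_1|²+|z_2|²)(‖p‖²+‖p'‖²)`, so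
`∫_{box_η} (‖p‖²+‖p'‖²)/(|z_1|²+|z_2|²) ≥ c² (2η²)⁻² vol(box_η) ≥ c' > 0` for all small `η`, where
`box_η = {|z_0 - t| < r, |z_1| < η, |z_2| < η}` has volume `π³ r² η⁴`; this contradicts absolute
continuity of the integral.
-/

set_option autoImplicit false

open MeasureTheory Complex Filter Topology
open scoped ContDiff ComplexConjugate ENNReal

namespace Pool.Agent.HopfEmb

variable {m : ℕ}

/-- The weight `|z_1|² + |z_2|²`. -/
private noncomputable def wt (z : C3) : ℝ := ‖z 1‖ ^ 2 + ‖z 2‖ ^ 2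

private theorem wt_nonneg (z : C3) : 0 ≤ wt z := by unfold wt; positivity

private theorem wt_continuous : Continuous wt := by unfold wt; fun_prop

/-- A product of a function with support in a compact set, continuous on it, and an `L²loc`
function. -/
private theorem memLp_of_bound {K : Set C3} (hK : IsCompact K) {g : C3 → Fm m}
    (hg : MemLp g 2 (volume.restrict K)) {G : C3 → Fm m}
    (hm : AEStronglyMeasurable G (volume.restrict K)) {C : ℝ}
    (hb : ∀ z ∈ K, ‖G z‖ ≤ C * ‖g z‖) (hs : ∀ z, z ∉ K → G z = 0) : MemLp G 2 volume := by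
  have h1 : MemLp G 2 (volume.restrict K) := by
    refine MemLp.of_le_mul (c := C) hg hm ?_
    filter_upwards [ae_restrict_mem hK.measurableSet] with z hz using hb z hz
  have h2 : K.indicator G = G := by
    funext z
    by_cases hz : z ∈ K
    · rw [Set.indicator_of_mem hz]
    · rw [Set.indicator_of_notMem hz, hs z hz]
  rw [← h2]
  exact (memLp_indicator_iff_restrict hK.measurableSet).2 h1

private theorem LI_of_L2loc {p : C3 → Fm m} (hp : L2loc p) : LI p := by
  have ho : IsOpen {z : C3 | z ≠ 0} := isOpen_ne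
  unfold LI
  rw [locallyIntegrableOn_iff ho.isLocallyClosed]
  intro k hk hkc
  have h0 : (0 : C3) ∉ k := fun h => (hk h) rfl
  have : IsFiniteMeasure (volume.restrict k) := ⟨by
    rw [Measure.restrict_apply_univ]; exact hkc.measure_lt_top⟩
  exact (hp k hkc h0).integrable one_le_two

private theorem dbar_zero_of_notMem {ρ : C3 → ℂ} {z : C3} (hz : z ∉ tsupport ρ) (j : Fin 3) :
    dbar j ρ z = 0 := by
  have h : fderiv ℝ ρ z = 0 := by
    have h1 : ρ =ᶠ[𝓝 z] fun _ => 0 := by
      have := notMem_tsupport_iff_eventuallyEq.1 hz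
      exact this
    rw [h1.fderiv_eq]
    simp
  simp [dbar, h]

private theorem dbar_continuous {ρ : C3 → ℂ} (hρ : ContDiff ℝ ∞ ρ) (j : Fin 3) :
    Continuous (dbar j ρ) := by
  have h1 : Continuous (fderiv ℝ ρ) := hρ.continuous_fderiv (by simp)
  unfold dbar
  fun_prop

/-- The Hardy estimate near a point of the punctured space. -/
private theorem hardy_local {E : Fin 3 → C3 → (Fm m →L[ℂ] Fm m)}
    (hE : ∀ j, ∀ z : C3, z ≠ 0 → ContDiffAt ℝ ∞ (E j) z)
    {p : C3 → Fm m} {F : Fin 3 → C3 → Fm m}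
    (hp : L2loc p) (hF : ∀ j, L2loc (F j)) (h : Weak0 E p F)
    {y : C3} {r : ℝ} (hr : 0 < r) (hy : 2 * r < ‖y‖) :
    ∫⁻ z in Metric.ball y r, ENNReal.ofReal (‖p z‖ ^ 2 / wt z) < (⊤ : ℝ≥0∞) := by
  -- the cutoff
  let b : ContDiffBump y := ⟨r, 2 * r, hr, by linarith⟩
  set ρ : C3 → ℂ := fun z => ((b z : ℝ) : ℂ) with hρdef
  have hρs : ContDiff ℝ ∞ ρ := by
    have : ContDiff ℝ ∞ (fun z => b z) := b.contDiff
    exact Complex.ofRealCLM.contDiff.comp this
  set K : Set C3 := Metric.closedBall y (2 * r) with hKdef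
  have hKc : IsCompact K := isCompact_closedBall _ _
  have hK0 : (0 : C3) ∉ K := by
    intro h0
    rw [hKdef, Metric.mem_closedBall, dist_eq_norm, zero_sub, norm_neg] at h0
    linarith
  have hsupp : tsupport ρ ⊆ K := by
    have h1 : tsupport (fun z => b z) = K := b.tsupport_eq
    have h2 : Function.support ρ ⊆ Function.support (fun z => b z) := by
      intro z hz
      simp only [Function.mem_support, hρdef] at hz ⊢
      intro h0
      apply hz
      rw [h0]; simp
    rw [← h1]
    exact closure_mono h2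
  have hρt : IsTest ρ := by
    refine ⟨hρs, HasCompactSupport.of_support_subset_isCompact hKc
      ((subset_tsupport _).trans hsupp), fun h0 => hK0 (hsupp h0)⟩
  have hρ1 : ∀ z, ‖ρ z‖ ≤ 1 := by
    intro z
    simp only [hρdef, Complex.norm_real, Real.norm_eq_abs]
    rw [abs_of_nonneg b.nonneg]
    exact b.le_one
  have hρout : ∀ z, z ∉ K → ρ z = 0 := fun z hz => image_eq_zero_of_notMem_tsupport
    (fun h0 => hz (hsupp h0))
  have hρin : ∀ z ∈ Metric.ball y r, ρ z = 1 := by
    intro z hz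
    have : b z = 1 := b.one_of_mem_closedBall (Metric.ball_subset_closedBall hz)
    simp only [hρdef, this, Complex.ofReal_one]
  -- the localized function and its weak derivatives
  set v : C3 → Fm m := fun z => ρ z • p z with hvdef
  set c : Fin 3 → C3 → Fm m := fun j z => dbar j ρ z • p z + ρ z • (E j z (p z) + F j z)
    with hcdef
  have hpK : MemLp p 2 (volume.restrict K) := hp K hKc hK0
  have hv : MemLp v 2 volume := by
    refine memLp_of_bound hKc hpK (C := 1) ?_ ?_ ?_
    · exact (hρs.continuous.aestronglyMeasurable).smul hpK.aestronglyMeasurable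
    · intro z _
      rw [hvdef, norm_smul]
      exact mul_le_mul_of_nonneg_right (hρ1 z) (norm_nonneg _)
    · intro z hz
      simp only [hvdef, hρout z hz, zero_smul]
  have hsv : HasCompactSupport v := by
    refine HasCompactSupport.intro hKc ?_
    intro z hz
    simp only [hvdef, hρout z hz, zero_smul]
  have hc : ∀ j, MemLp (c j) 2 volume := by
    intro j
    have hEc : ContinuousOn (E j) K := by
      intro z hz
      have : z ≠ 0 := fun h0 => hK0 (h0 ▸ hz)
      exact (hE j z this).continuousAt.continuousWithinAt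
    obtain ⟨M, hM⟩ := hKc.exists_bound_of_continuousOn hEc
    obtain ⟨M', hM'⟩ := hKc.exists_bound_of_continuousOn (dbar_continuous hρs j).continuousOn
    have h1 : MemLp (fun z => dbar j ρ z • p z) 2 volume := by
      refine memLp_of_bound hKc hpK (C := M') ?_ ?_ ?_
      · exact ((dbar_continuous hρs j).aestronglyMeasurable).smul hpK.aestronglyMeasurable
      · intro z hz
        rw [norm_smul]
        exact mul_le_mul_of_nonneg_right (hM' z hz) (norm_nonneg _)
      · intro z hz
        rw [dbar_zero_of_notMem (fun h0 => hz (hsupp h0)), zero_smul]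
    have h2 : MemLp (fun z => ρ z • E j z (p z)) 2 volume := by
      refine memLp_of_bound hKc hpK (C := M) ?_ ?_ ?_
      · refine (hρs.continuous.aestronglyMeasurable).smul ?_
        exact (ContinuousLinearMap.id ℂ (Fm m →L[ℂ] Fm m)).aestronglyMeasurable_comp₂
          (hEc.aestronglyMeasurable hKc.measurableSet) hpK.aestronglyMeasurable
      · intro z hz
        rw [norm_smul]
        calc ‖ρ z‖ * ‖E j z (p z)‖ ≤ 1 * (M * ‖p z‖) := by
              refine mul_le_mul (hρ1 z) ?_ (norm_nonneg _) zero_le_one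
              exact ((E j z).le_opNorm _).trans
                (mul_le_mul_of_nonneg_right (hM z hz) (norm_nonneg _))
          _ = M * ‖p z‖ := one_mul _
      · intro z hz
        rw [hρout z hz, zero_smul]
    have h3 : MemLp (fun z => ρ z • F j z) 2 volume := by
      have hFK : MemLp (F j) 2 (volume.restrict K) := hF j K hKc hK0
      refine memLp_of_bound hKc hFK (C := 1) ?_ ?_ ?_
      · exact (hρs.continuous.aestronglyMeasurable).smul hFK.aestronglyMeasurable
      · intro z _
        rw [norm_smul]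
        exact mul_le_mul_of_nonneg_right (hρ1 z) (norm_nonneg _)
      · intro z hz
        rw [hρout z hz, zero_smul]
    have h4 : c j = fun z => dbar j ρ z • p z + (ρ z • E j z (p z) + ρ z • F j z) := by
      funext z
      simp only [hcdef, smul_add]
    rw [h4]
    exact h1.add (h2.add h3)
  have hsc : ∀ j, HasCompactSupport (c j) := by
    intro j
    refine HasCompactSupport.intro hKc ?_
    intro z hz
    simp only [hcdef]
    rw [dbar_zero_of_notMem (fun h0 => hz (hsupp h0)), hρout z hz, zero_smul, zero_smul, add_zero]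
  have hw : ∀ φ : C3 → ℂ, IsTestC φ → ∀ j, ∫ z, dbar j φ z • v z = - ∫ z, φ z • c j z := by
    intro φ hφ j
    exact Weak0.localize hE (LI_of_L2loc hp) (fun j => LI_of_L2loc (hF j)) h hρt φ hφ j
  -- Hardy
  set Kc : ℝ := 4 * ∫ z, ∑ j : Fin 3, ‖c j z‖ ^ 2 with hKcdef
  have hH : ∀ δ : ℝ, 0 < δ →
      ∫⁻ z, ENNReal.ofReal (‖v z‖ ^ 2 / (wt z + δ)) ≤ ENNReal.ofReal Kc := by
    intro δ hδ
    have h1 := weak_hardy hv hsv hc hsc hw hδ
    have hint : Integrable (fun z => ‖v z‖ ^ 2 / (wt z + δ)) volume := by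
      have hv2 : Integrable (fun z => ‖v z‖ ^ 2) volume := hv.integrable_norm_pow (by norm_num)
      refine Integrable.mono' (hv2.mul_const (1 / δ)) ?_ ?_
      · refine (hv2.aestronglyMeasurable.mul
          ((by fun_prop : Measurable fun x : ℝ => (x + δ)⁻¹).comp
            wt_continuous.measurable).aestronglyMeasurable).congr ?_
        filter_upwards with z
        simp [div_eq_mul_inv]
      · filter_upwards with z
        have hw0 := wt_nonneg z
        rw [Real.norm_of_nonneg (by positivity), div_eq_mul_one_div]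
        exact mul_le_mul_of_nonneg_left
          (one_div_le_one_div_of_le hδ (by linarith)) (by positivity)
    rw [← ofReal_integral_eq_lintegral_ofReal hint]
    · exact ENNReal.ofReal_le_ofReal h1
    · filter_upwards with z
      have hw0 := wt_nonneg z
      simp only [Pi.zero_apply]
      positivity
  -- Fatou
  have hF2 : ∫⁻ z, ENNReal.ofReal (‖v z‖ ^ 2 / wt z) ≤ ENNReal.ofReal Kc := by
    set δ : ℕ → ℝ := fun n => 1 / ((n : ℝ) + 1) with hδdef
    have hδ : ∀ n, 0 < δ n := fun n => by simp only [hδdef]; positivity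
    have hδlim : Tendsto δ atTop (𝓝 0) := tendsto_one_div_add_atTop_nhds_zero_nat
    have hfat : ∫⁻ z, liminf (fun n => ENNReal.ofReal (‖v z‖ ^ 2 / (wt z + δ n))) atTop ≤
        liminf (fun n => ∫⁻ z, ENNReal.ofReal (‖v z‖ ^ 2 / (wt z + δ n))) atTop := by
      refine lintegral_liminf_le' ?_
      intro n
      refine AEMeasurable.ennreal_ofReal ?_
      refine AEMeasurable.div ?_ ?_
      · exact (hv.aestronglyMeasurable.norm.aemeasurable).pow_const 2
      · exact (wt_continuous.measurable.add_const (δ n)).aemeasurable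
    have hle2 : liminf (fun n => ∫⁻ z, ENNReal.ofReal (‖v z‖ ^ 2 / (wt z + δ n))) atTop ≤
        ENNReal.ofReal Kc := by
      refine (liminf_le_liminf (Eventually.of_forall fun n => hH (δ n) (hδ n))).trans ?_
      simp
    refine le_trans (lintegral_mono ?_) (hfat.trans hle2)
    intro z
    by_cases hz : wt z = 0
    · simp [hz]
    · have ht : Tendsto (fun n => ENNReal.ofReal (‖v z‖ ^ 2 / (wt z + δ n))) atTop
          (𝓝 (ENNReal.ofReal (‖v z‖ ^ 2 / wt z))) := by
        refine ENNReal.tendsto_ofReal ?_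
        refine Tendsto.div tendsto_const_nhds ?_ hz
        simpa using (tendsto_const_nhds (x := wt z)).add hδlim
      simp only
      rw [ht.liminf_eq]
  calc ∫⁻ z in Metric.ball y r, ENNReal.ofReal (‖p z‖ ^ 2 / wt z)
      = ∫⁻ z in Metric.ball y r, ENNReal.ofReal (‖v z‖ ^ 2 / wt z) := by
        refine setLIntegral_congr_fun Metric.isOpen_ball.measurableSet ?_
        intro z hz
        simp only [hvdef, hρin z hz, one_smul]
    _ ≤ ∫⁻ z, ENNReal.ofReal (‖v z‖ ^ 2 / wt z) := setLIntegral_le_lintegral _ _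
    _ ≤ ENNReal.ofReal Kc := hF2
    _ < (⊤ : ℝ≥0∞) := ENNReal.ofReal_lt_top

/-- The small boxes. -/
private def box (t : ℂ) (r η : ℝ) : Set C3 :=
  Set.pi Set.univ (fun i : Fin 3 => if i = 0 then Metric.ball t r else Metric.ball (0 : ℂ) η)

private theorem volume_box (t : ℂ) {r η : ℝ} (hr : 0 < r) (hη : 0 < η) :
    volume (box t r η) = ENNReal.ofReal (Real.pi ^ 3 * r ^ 2 * η ^ 4) := by
  unfold box
  rw [volume_pi_pi, Fin.prod_univ_three]
  simp only [if_true, Fin.isValue, one_ne_zero, if_false, (by decide : (2 : Fin 3) ≠ 0)]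
  rw [Complex.volume_ball, Complex.volume_ball]
  have hpi : ((NNReal.pi : NNReal) : ℝ≥0∞) = ENNReal.ofReal Real.pi := by
    rw [ENNReal.ofReal, ← NNReal.coe_real_pi, Real.toNNReal_coe]
  rw [hpi, ← ENNReal.ofReal_pow hr.le, ← ENNReal.ofReal_pow hη.le,
    ← ENNReal.ofReal_mul (by positivity), ← ENNReal.ofReal_mul (by positivity),
    ← ENNReal.ofReal_mul (by positivity), ← ENNReal.ofReal_mul (by positivity)]
  congr 1
  ring

theorem no_division {E : Fin 3 → C3 → (Fm m →L[ℂ] Fm m)}
    (hE : ∀ j, ∀ z : C3, z ≠ 0 → ContDiffAt ℝ ∞ (E j) z)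
    {f p p' : C3 → Fm m} {F F' : Fin 3 → C3 → Fm m}
    (hp : L2loc p) (hp' : L2loc p') (hF : ∀ j, L2loc (F j)) (hF' : ∀ j, L2loc (F' j))
    (h : Weak0 E p F) (h' : Weak0 E p' F')
    (heq : ∀ᵐ z : C3, f z = z 1 • p z + z 2 • p' z)
    {t : ℂ} (ht : t ≠ 0) (hfc : ContinuousAt f (t • e1)) (hft : f (t • e1) ≠ 0) : False := by
  set y : C3 := t • e1 with hydef
  have hyn : 0 < ‖y‖ := by
    rw [norm_pos_iff]
    intro h0
    have := congrFun h0 0
    simp [hydef, e1] at this
    exact ht this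
  set c : ℝ := ‖f y‖ / 2 with hcdef
  have hc : 0 < c := by
    have := norm_pos_iff.2 hft
    rw [hcdef]; positivity
  -- a ball on which `‖f‖ ≥ c`
  have hev : ∀ᶠ z in 𝓝 y, c < ‖f z‖ := by
    have h1 : ContinuousAt (fun z => ‖f z‖) y := hfc.norm
    refine h1.eventually_const_lt ?_
    rw [hcdef]
    have := norm_pos_iff.2 hft
    linarith
  obtain ⟨r₀, hr₀, hball⟩ := Metric.eventually_nhds_iff_ball.1 hev
  set r : ℝ := min r₀ (‖y‖ / 4) with hrdef
  have hr : 0 < r := lt_min hr₀ (by positivity)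
  have hry : 2 * r < ‖y‖ := by
    have := min_le_right r₀ (‖y‖ / 4)
    rw [← hrdef] at this
    linarith
  have hrr : Metric.ball y r ⊆ Metric.ball y r₀ := Metric.ball_subset_ball (min_le_left _ _)
  have hI1 := hardy_local hE hp hF h hr hry
  have hI2 := hardy_local hE hp' hF' h' hr hry
  set B : Set C3 := Metric.ball y r with hBdef
  have hBm : MeasurableSet B := Metric.isOpen_ball.measurableSet
  have hB0 : ∀ z ∈ B, z ≠ 0 := by
    intro z hz h0
    rw [h0, hBdef, Metric.mem_ball, dist_eq_norm, zero_sub, norm_neg] at hz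
    linarith
  -- the comparison function
  have hkey : ∀ᵐ z ∂(volume.restrict B), wt z ≠ 0 ∧
      c ^ 2 / wt z ^ 2 ≤ ‖p z‖ ^ 2 / wt z + ‖p' z‖ ^ 2 / wt z := by
    filter_upwards [ae_restrict_of_ae heq, ae_restrict_mem hBm] with z hz hzB
    have hcz : c < ‖f z‖ := hball z (hrr hzB)
    have hle : ‖f z‖ ^ 2 ≤ wt z * (‖p z‖ ^ 2 + ‖p' z‖ ^ 2) := by
      have h1 : ‖f z‖ ≤ ‖z 1‖ * ‖p z‖ + ‖z 2‖ * ‖p' z‖ := by
        rw [hz]
        refine (norm_add_le _ _).trans ?_
        rw [norm_smul, norm_smul]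
      have h2 : ‖f z‖ ^ 2 ≤ (‖z 1‖ * ‖p z‖ + ‖z 2‖ * ‖p' z‖) ^ 2 :=
        pow_le_pow_left₀ (norm_nonneg _) h1 2
      refine h2.trans ?_
      unfold wt
      nlinarith [sq_nonneg (‖z 1‖ * ‖p' z‖ - ‖z 2‖ * ‖p z‖)]
    have hc2 : c ^ 2 < wt z * (‖p z‖ ^ 2 + ‖p' z‖ ^ 2) :=
      lt_of_lt_of_le (pow_lt_pow_left₀ hcz hc.le two_ne_zero) hle
    have hw : wt z ≠ 0 := by
      intro h0
      rw [h0, zero_mul] at hc2
      have : 0 < c ^ 2 := by positivity
      linarith
    refine ⟨hw, ?_⟩
    have hwp : 0 < wt z := lt_of_le_of_ne (wt_nonneg z) (Ne.symm hw)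
    rw [← add_div, div_le_div_iff₀ (by positivity) hwp]
    nlinarith
  have hfin : ∫⁻ z, ENNReal.ofReal (c ^ 2 / wt z ^ 2) ∂(volume.restrict B) ≠ (⊤ : ℝ≥0∞) := by
    have h1 : ∫⁻ z, ENNReal.ofReal (c ^ 2 / wt z ^ 2) ∂(volume.restrict B) ≤
        ∫⁻ z, (ENNReal.ofReal (‖p z‖ ^ 2 / wt z) + ENNReal.ofReal (‖p' z‖ ^ 2 / wt z))
          ∂(volume.restrict B) := by
      refine lintegral_mono_ae ?_
      filter_upwards [hkey] with z hz
      have hw0 := wt_nonneg z
      rw [← ENNReal.ofReal_add (by positivity) (by positivity)]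
      exact ENNReal.ofReal_le_ofReal hz.2
    have h2 : ∫⁻ z, (ENNReal.ofReal (‖p z‖ ^ 2 / wt z) + ENNReal.ofReal (‖p' z‖ ^ 2 / wt z))
          ∂(volume.restrict B) = (∫⁻ z in B, ENNReal.ofReal (‖p z‖ ^ 2 / wt z)) +
          ∫⁻ z in B, ENNReal.ofReal (‖p' z‖ ^ 2 / wt z) := by
      refine lintegral_add_left' ?_ _
      have hm : AEStronglyMeasurable p (volume.restrict B) := by
        have hK : IsCompact (Metric.closedBall y r) := isCompact_closedBall _ _
        have h0 : (0 : C3) ∉ Metric.closedBall y r := by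
          intro h0
          rw [Metric.mem_closedBall, dist_eq_norm, zero_sub, norm_neg] at h0
          linarith
        exact (hp _ hK h0).aestronglyMeasurable.mono_measure
          (Measure.restrict_mono_set _ Metric.ball_subset_closedBall)
      refine AEMeasurable.ennreal_ofReal ?_
      exact (hm.norm.aemeasurable.pow_const 2).div wt_continuous.measurable.aemeasurable
    rw [h2] at h1
    exact (lt_of_le_of_lt h1 (ENNReal.add_lt_top.2 ⟨hI1, hI2⟩)).ne
  -- absolute continuity
  set ε : ℝ≥0∞ := ENNReal.ofReal (c ^ 2 / 4 * (Real.pi ^ 3 * r ^ 2)) with hεdef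
  have hε : ε ≠ 0 := by
    have : 0 < c ^ 2 / 4 * (Real.pi ^ 3 * r ^ 2) := by positivity
    rw [hεdef]
    exact (ENNReal.ofReal_pos.2 this).ne'
  obtain ⟨δ, hδ, hδ'⟩ := exists_pos_setLIntegral_lt_of_measure_lt hfin hε
  have hsmall : ∀ᶠ η : ℝ in 𝓝[>] 0, η < r ∧
      ENNReal.ofReal (Real.pi ^ 3 * r ^ 2 * η ^ 4) < δ := by
    have h1 : ∀ᶠ η : ℝ in 𝓝[>] 0, η < r :=
      mem_nhdsWithin_of_mem_nhds (Iio_mem_nhds hr)
    have h2 : Tendsto (fun η : ℝ => ENNReal.ofReal (Real.pi ^ 3 * r ^ 2 * η ^ 4)) (𝓝[>] 0)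
        (𝓝 0) := by
      have h3 : Tendsto (fun η : ℝ => Real.pi ^ 3 * r ^ 2 * η ^ 4) (𝓝[>] 0) (𝓝 0) := by
        have h4 : Continuous fun η : ℝ => Real.pi ^ 3 * r ^ 2 * η ^ 4 := by fun_prop
        have h5 := h4.tendsto 0
        simp only [ne_eq, OfNat.ofNat_ne_zero, not_false_eq_true, zero_pow, mul_zero] at h5
        exact h5.mono_left nhdsWithin_le_nhds
      have := ENNReal.tendsto_ofReal h3
      rwa [ENNReal.ofReal_zero] at this
    exact h1.and (h2.eventually (Iio_mem_nhds (by simpa using hδ)))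
  obtain ⟨η, ⟨hηr, hηδ⟩, hη0⟩ := (hsmall.and self_mem_nhdsWithin).exists
  have hη : 0 < η := hη0
  set b : Set C3 := box t r η with hbdef
  have hbm : MeasurableSet b := by
    rw [hbdef]; unfold box
    refine MeasurableSet.univ_pi ?_
    intro i
    by_cases hi : i = 0
    · simp only [hi, if_true]; exact Metric.isOpen_ball.measurableSet
    · simp only [hi, if_false]; exact Metric.isOpen_ball.measurableSet
  have hbB : b ⊆ B := by
    intro z hz
    rw [hBdef, Metric.mem_ball, dist_pi_lt_iff hr]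
    intro i
    have hzi := hz i (Set.mem_univ i)
    by_cases hi : i = 0
    · subst hi
      simp only [if_true, Metric.mem_ball] at hzi
      simpa [hydef, e1] using hzi
    · simp only [hi, if_false, Metric.mem_ball] at hzi
      have : y i = 0 := by simp [hydef, e1, hi]
      rw [this]
      exact hzi.trans hηr
  have hvol := volume_box t hr hη
  have hlt : ∫⁻ z in b, ENNReal.ofReal (c ^ 2 / wt z ^ 2) ∂(volume.restrict B) < ε := by
    refine hδ' b ?_
    refine lt_of_le_of_lt (Measure.restrict_apply_le _ _) ?_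
    rw [← hbdef] at hvol
    rw [hvol]
    exact hηδ
  have hge : ε ≤ ∫⁻ z in b, ENNReal.ofReal (c ^ 2 / wt z ^ 2) ∂(volume.restrict B) := by
    have h1 : ∫⁻ _ in b, ENNReal.ofReal (c ^ 2 / (4 * η ^ 4)) ∂(volume.restrict B) = ε := by
      rw [setLIntegral_const, Measure.restrict_apply hbm, Set.inter_eq_left.2 hbB, hbdef, hvol,
        ← ENNReal.ofReal_mul (by positivity), hεdef]
      congr 1
      field_simp
    rw [← h1]
    refine lintegral_mono_ae ?_
    filter_upwards [ae_restrict_of_ae hkey, ae_restrict_mem hbm] with z hz hzb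
    refine ENNReal.ofReal_le_ofReal ?_
    have hwp : 0 < wt z := lt_of_le_of_ne (wt_nonneg z) (Ne.symm hz.1)
    have hz1 := hzb 1 (Set.mem_univ _)
    have hz2 := hzb 2 (Set.mem_univ _)
    simp only [Fin.isValue, one_ne_zero, if_false, (by decide : (2 : Fin 3) ≠ 0),
      Metric.mem_ball, dist_zero_right] at hz1 hz2
    have hw2 : wt z ≤ 2 * η ^ 2 := by
      unfold wt
      have := pow_le_pow_left₀ (norm_nonneg _) hz1.le 2
      have := pow_le_pow_left₀ (norm_nonneg _) hz2.le 2
      linarith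
    have hw4 : wt z ^ 2 ≤ 4 * η ^ 4 := by
      calc wt z ^ 2 ≤ (2 * η ^ 2) ^ 2 := pow_le_pow_left₀ hwp.le hw2 2
        _ = 4 * η ^ 4 := by ring
    exact div_le_div_of_nonneg_left (by positivity) (by positivity) hw4
  exact absurd (hge.trans_lt hlt) (lt_irrefl _)

end Pool.Agent.HopfEmb
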