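import Pool.Agent.Lib.MP_d404b9_ag.Main4
import Pool.Agent.Lib.MP_d404b9_ag.Bundle
import Pool.Agent.Lib.MP_d404b9_ag.ChaseB
import Pool.Agent.Lib.MP_d404b9_ag.NoDiv

/-!
# JOB FINAL: there is no projection data with a section as in `SecData`

Let `N`, `σ` be from `func_V01`, `func_V2`. Choose a real `s` with `2 s ∉ ℤ`, `s ∉ N`,
`s - 1/2 ∉ N`, `s - 1 ≥ σ` (a half line is uncountable). Take `f, g, g'` from `chaseA` and
`f₁, G, G', h` from `chaseB`. All are smooth on `ℂ³ ∖ 0`, so `PL2_of_smooth`, `weak0_of_smooth`,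
`weak1_of_smooth`, `weak2_of_smooth` apply.
1. `h_i` has weight `2 s - 4 = 2 (s - 1) - 2`: `func_V2` with `s - 1` gives `K` with
   `PL2 P (2 s - 3) (K j)` and `Weak1 E K h`.
2. `G - z_2 K` has weight `2 s - 2 = 2 (s - 1/2) - 1` and `Weak1 E (G - z_2 K) 0`
   (`Weak1.coord`, `Weak1.sub`); `func_V01` with `s - 1/2` gives `p`, `PL2 P (2 s - 1) p`,
   `Weak0 E p (G - z_2 K)`. Similarly `G' + z_1 K` gives `p'`.
3. `u = f₁ - z_1 p - z_2 p'` has weight `2 s` and `Weak0 E u 0`, because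
   `z_1 (G - z_2 K) + z_2 (G' + z_1 K) = z_1 G + z_2 G'`. So `u = 0` a.e.
4. `no_division` gives a contradiction. (Here `z_1`, `z_2` are `z 1`, `z 2`.)
-/

set_option autoImplicit false

open MeasureTheory Complex Filter Topology
open scoped ContDiff ComplexConjugate

namespace Pool.Agent.HopfEmb

variable {m : ℕ}

/-- A choice of the weight. -/
theorem exists_weight {N : Set ℝ} (hN : N.Countable) (σ : ℝ) :
    ∃ s : ℝ, (∀ k : ℤ, 2 * s ≠ k) ∧ s ∉ N ∧ s - 1 / 2 ∉ N ∧ σ ≤ s - 1 := by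
  have h1 : (Set.range fun k : ℤ => (k : ℝ) / 2).Countable := Set.countable_range _
  have h2 : ((fun x : ℝ => x + 1 / 2) '' N).Countable := hN.image _
  have h3 : ((Set.range fun k : ℤ => (k : ℝ) / 2) ∪ N ∪ (fun x : ℝ => x + 1 / 2) '' N).Countable :=
    (h1.union hN).union h2
  obtain ⟨s, hs, hs'⟩ : ∃ s ∈ Set.Ioo (σ + 1) (σ + 2),
      s ∉ (Set.range fun k : ℤ => (k : ℝ) / 2) ∪ N ∪ (fun x : ℝ => x + 1 / 2) '' N := by
    by_contra hcon
    push Not at hcon
    have h4 : volume (Set.Ioo (σ + 1) (σ + 2)) ≤ 0 :=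
      le_of_le_of_eq (measure_mono hcon) (h3.measure_zero volume)
    rw [Real.volume_Ioo, nonpos_iff_eq_zero, ENNReal.ofReal_eq_zero] at h4
    linarith
  refine ⟨s, ?_, ?_, ?_, by linarith [hs.1]⟩
  · intro k hk
    exact hs' (Or.inl (Or.inl ⟨k, by simp only; linarith⟩))
  · intro h
    exact hs' (Or.inl (Or.inr h))
  · intro h
    exact hs' (Or.inr ⟨s - 1 / 2, h, by simp⟩)

theorem no_secData {P : C3 → (Fm m →L[ℂ] Fm m)} {E : Fin 3 → C3 → (Fm m →L[ℂ] Fm m)}
    (hPE : PE P E) (D : SecData P E) : False := by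
  have hE := hPE.E_smooth
  obtain ⟨N, hN, h01⟩ := func_V01 hPE
  obtain ⟨σ, hσ⟩ := func_V2 hPE
  obtain ⟨s, hk, hsN, hsN', hσs⟩ := exists_weight hN σ
  obtain ⟨δ, f, g, g', hδ0, hδ1, f_smooth, g_smooth, g'_smooth, f_proj, g_proj, g'_proj,
    f_scale, g_scale, g'_scale, hf, hg, hg', t, ht, hft⟩ := chaseA hPE D s hk
  obtain ⟨f₁, G, G', h, f1_smooth, G_smooth, G'_smooth, h_smooth, f1_proj, G_proj, G'_proj,
    h_proj, f1_scale, G_scale, G'_scale, h_scale, hf1, hG, hG', hh, hff⟩ :=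
    chaseB hPE s hδ0 hδ1 f_smooth g_smooth g'_smooth f_proj g_proj g'_proj f_scale g_scale
      g'_scale hf hg hg'
  -- the `L²` classes
  have Pf1 : PL2 P (2 * s) f₁ := PL2_of_smooth f1_smooth f1_proj f1_scale
  have PG : ∀ j, PL2 P (2 * s - 2) (G j) := fun j =>
    PL2_of_smooth (G_smooth j) (G_proj j) (G_scale j)
  have PG' : ∀ j, PL2 P (2 * s - 2) (G' j) := fun j =>
    PL2_of_smooth (G'_smooth j) (G'_proj j) (G'_scale j)
  have Ph : ∀ j, PL2 P (2 * s - 4) (h j) := fun j =>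
    PL2_of_smooth (h_smooth j) (h_proj j) (h_scale j)
  -- the weak equations
  have w0 : Weak0 E f₁ (fun j z => z 1 • G j z + z 2 • G' j z) :=
    weak0_of_smooth f1_smooth hf1
  have w1 : Weak1 E G (fun i z => z 2 • h i z) := weak1_of_smooth G_smooth hG
  have w1' : Weak1 E G' (fun i z => (-(z 1)) • h i z) := weak1_of_smooth G'_smooth hG'
  have w2 : Weak2 E h := weak2_of_smooth h_smooth hh
  -- step 1
  obtain ⟨K, PK, wK⟩ := hσ (s - 1) hσs h (fun j => by
    have := Ph j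
    have e : 2 * s - 4 = 2 * (s - 1) - 2 := by ring
    rwa [e] at this) w2
  have PzK : ∀ k j, PL2 P (2 * s - 2) (fun z => z k • K j z) := by
    intro k j
    have := (PK j).coord k
    have e : 2 * (s - 1) - 1 + 1 = 2 * s - 2 := by ring
    rwa [e] at this
  have wzK : ∀ k, Weak1 E (fun j z => z k • K j z) (fun j z => z k • h j z) := fun k =>
    Weak1.coord hE (fun j => (PK j).li) (fun j => (Ph j).li) wK k
  have Lzh : ∀ k j, LI (fun z => z k • h j z) := fun k j => ((Ph j).coord k).li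
  -- step 2
  have PA : ∀ j, PL2 P (2 * s - 2) (fun z => G j z - z 2 • K j z) := fun j =>
    (PG j).sub (PzK 2 j)
  have PB : ∀ j, PL2 P (2 * s - 2) (fun z => G' j z + z 1 • K j z) := fun j =>
    (PG' j).add (PzK 1 j)
  have wA : Weak1 E (fun j z => G j z - z 2 • K j z) (fun _ _ => 0) := by
    have := Weak1.sub hE (fun j => (PG j).li) (fun j => (PzK 2 j).li) (fun j => Lzh 2 j)
      (fun j => Lzh 2 j) w1 (wzK 2)
    simpa only [sub_self] using this
  have L0 : ∀ _ : Fin 3, LI (fun _ : C3 => (0 : Fm m)) := fun _ =>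
    (locallyIntegrable_const (0 : Fm m)).locallyIntegrableOn _
  have w00 : Weak1 E (fun _ _ => 0) (fun _ _ => 0) := by
    intro Ψ hΨ i
    simp
  have wB : Weak1 E (fun j z => G' j z + z 1 • K j z) (fun _ _ => 0) := by
    have h1 := Weak1.sub hE L0 (fun j => (PzK 1 j).li) L0 (fun j => Lzh 1 j) w00 (wzK 1)
    simp only [zero_sub] at h1
    have n1 : ∀ j, LI (fun z => -(z 1 • K j z)) := fun j => (PzK 1 j).li.neg
    have n2 : ∀ j, LI (fun z => -(z 1 • h j z)) := fun j => (Lzh 1 j).neg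
    have n3 : ∀ j, LI (fun z => (-(z 1)) • h j z) := by
      intro j
      simpa only [neg_smul] using n2 j
    have h2 := Weak1.sub hE (fun j => (PG' j).li) n1 n3 n2 w1' h1
    simpa only [sub_neg_eq_add, neg_smul, neg_add_cancel] using h2
  obtain ⟨p, Pp, wp⟩ := (h01 (s - 1 / 2) hsN').2 (fun j z => G j z - z 2 • K j z) (fun j => by
    have := PA j
    have e : 2 * s - 2 = 2 * (s - 1 / 2) - 1 := by ring
    rwa [e] at this) wA
  obtain ⟨p', Pp', wp'⟩ := (h01 (s - 1 / 2) hsN').2 (fun j z => G' j z + z 1 • K j z)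
    (fun j => by
      have := PB j
      have e : 2 * s - 2 = 2 * (s - 1 / 2) - 1 := by ring
      rwa [e] at this) wB
  -- step 3
  have Pzp : PL2 P (2 * s) (fun z => z 1 • p z) := by
    have := Pp.coord 1
    have e : 2 * (s - 1 / 2) + 1 = 2 * s := by ring
    rwa [e] at this
  have Pzp' : PL2 P (2 * s) (fun z => z 2 • p' z) := by
    have := Pp'.coord 2
    have e : 2 * (s - 1 / 2) + 1 = 2 * s := by ring
    rwa [e] at this
  have wzp := Weak0.coord hE Pp.li (fun j => (PA j).li) wp 1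
  have wzp' := Weak0.coord hE Pp'.li (fun j => (PB j).li) wp' 2
  have LF : ∀ j, LI (fun z => z 1 • G j z + z 2 • G' j z) := fun j =>
    (((PG j).coord 1).add ((PG' j).coord 2)).li
  have LA : ∀ j, LI (fun z => z 1 • (G j z - z 2 • K j z)) := fun j => ((PA j).coord 1).li
  have LB : ∀ j, LI (fun z => z 2 • (G' j z + z 1 • K j z)) := fun j => ((PB j).coord 2).li
  have LFA : ∀ j, LI (fun z => (z 1 • G j z + z 2 • G' j z) - z 1 • (G j z - z 2 • K j z)) :=
    fun j => ((((PG j).coord 1).add ((PG' j).coord 2)).sub ((PA j).coord 1)).li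
  have wu := Weak0.sub hE (Pf1.sub Pzp).li Pzp'.li LFA LB
    (Weak0.sub hE Pf1.li Pzp.li LF LA w0 wzp) wzp'
  have wu0 : Weak0 E (fun z => f₁ z - z 1 • p z - z 2 • p' z) (fun _ _ => 0) := by
    have e : (fun (j : Fin 3) (z : C3) => z 1 • G j z + z 2 • G' j z - z 1 • (G j z - z 2 • K j z) -
        z 2 • (G' j z + z 1 • K j z)) = fun _ _ => (0 : Fm m) := by
      funext j z
      module
    rw [e] at wu
    exact wu
  have hu := (h01 s hsN).1 _ ((Pf1.sub Pzp).sub Pzp') wu0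
  -- step 4
  have hte : t • e1 ≠ 0 := by
    intro h0
    have := congrFun h0 0
    simp [e1] at this
    exact ht this
  refine no_division hE Pp.l2loc Pp'.l2loc (fun j => (PA j).l2loc) (fun j => (PB j).l2loc)
    wp wp' ?_ ht (f1_smooth _ hte).continuousAt ?_
  · filter_upwards [hu] with z hz
    have hz' : f₁ z - z 1 • p z - z 2 • p' z = 0 := hz
    rw [sub_sub, sub_eq_zero] at hz'
    exact hz'
  · rw [hff t ht]
    exact hft

theorem no_hopfData {N : ℕ} {I : Type} [Fintype I] (D : HopfData N I) : False := by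
  obtain ⟨m, P, E, hPE, ⟨S⟩⟩ := exists_PE_of_hopfData D
  exact no_secData hPE S

end Pool.Agent.HopfEmb
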