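import Pool.Agent.Lib.MP_d404b9_ag.Basic

/-!
# JOB PER: periodization with respect to `z ↦ 2 z`

`Per w Φ z = ∑_{k ∈ ℤ} 2^{w k} Φ(2^k z)` for `Φ` continuous/smooth with compact support in `V ∖ 0`.
For `z ≠ 0` the sum is locally finite: if `tsupport Φ ⊆ {a ≤ ‖z‖ ≤ b}` then only finitely many `k`
matter for all `y` near `z` (`Per_eventually`). All other statements follow from that one.
`V` is a finite dimensional complex normed space (we use `V = C3` and `V = ℂ`).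
-/

set_option autoImplicit false

open MeasureTheory Complex Filter Topology
open scoped ContDiff ComplexConjugate

namespace Pool.Agent.HopfEmb

noncomputable section

section general

variable {V : Type*} [NormedAddCommGroup V] [NormedSpace ℂ V]
variable {G : Type*} [NormedAddCommGroup G] [NormedSpace ℂ G]

/-- Periodization of weight `-w`: `Per w Φ (2 z) = 2^{-w} Per w Φ z`. -/
def Per (w : ℤ) (Φ : V → G) (z : V) : G :=
  ∑' k : ℤ, ((2 : ℂ) ^ (w * k)) • Φ (((2 : ℂ) ^ k) • z)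

theorem Per_eventually {Φ : V → G} (hc : HasCompactSupport Φ) (h0 : (0 : V) ∉ tsupport Φ)
    {z : V} (hz : z ≠ 0) :
    ∃ K : Finset ℤ, ∀ᶠ y in 𝓝 z,
      (∀ k : ℤ, k ∉ K → Φ (((2 : ℂ) ^ k) • y) = 0) ∧
      ∀ w : ℤ, Per w Φ y = ∑ k ∈ K, ((2 : ℂ) ^ (w * k)) • Φ (((2 : ℂ) ^ k) • y) := by
  have hz' : 0 < ‖z‖ := norm_pos_iff.mpr hz
  obtain ⟨a, ha, hball⟩ : ∃ a : ℝ, 0 < a ∧ Metric.ball (0 : V) a ⊆ (tsupport Φ)ᶜ :=
    Metric.isOpen_iff.mp (isClosed_tsupport Φ).isOpen_compl 0 h0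
  obtain ⟨b, hb⟩ : ∃ b : ℝ, ∀ x ∈ tsupport Φ, ‖x‖ ≤ b :=
    hc.isCompact.isBounded.exists_norm_le
  obtain ⟨M₁, hM₁⟩ := pow_unbounded_of_one_lt (2 * b / ‖z‖) (by norm_num : (1 : ℝ) < 2)
  obtain ⟨M₂, hM₂⟩ := pow_unbounded_of_one_lt (2 * ‖z‖ / a) (by norm_num : (1 : ℝ) < 2)
  refine ⟨Finset.Icc (-(M₂ : ℤ)) M₁, ?_⟩
  have hev : ∀ᶠ y in 𝓝 z, ‖z‖ / 2 < ‖y‖ ∧ ‖y‖ < 2 * ‖z‖ := by
    have h1 : ContinuousAt (fun y : V => ‖y‖) z := continuous_norm.continuousAt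
    exact (h1.eventually (lt_mem_nhds (by linarith))).and
      (h1.eventually (gt_mem_nhds (by linarith)))
  filter_upwards [hev] with y hy
  have hvan : ∀ k : ℤ, k ∉ Finset.Icc (-(M₂ : ℤ)) M₁ → Φ (((2 : ℂ) ^ k) • y) = 0 := by
    intro k hk
    by_contra hne
    have hmem : ((2 : ℂ) ^ k) • y ∈ tsupport Φ := subset_tsupport Φ hne
    have hn : ‖((2 : ℂ) ^ k) • y‖ = (2 : ℝ) ^ k * ‖y‖ := by
      rw [norm_smul, norm_zpow]
      norm_num
    have hle : (2 : ℝ) ^ k * ‖y‖ ≤ b := hn ▸ hb _ hmem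
    have hge : a ≤ (2 : ℝ) ^ k * ‖y‖ := by
      by_contra hlt
      push Not at hlt
      have hin : ((2 : ℂ) ^ k) • y ∈ Metric.ball (0 : V) a := by
        rw [Metric.mem_ball, dist_zero_right, hn]
        exact hlt
      exact hball hin hmem
    apply hk
    rw [Finset.mem_Icc]
    have hpos : (0 : ℝ) < (2 : ℝ) ^ k := by positivity
    constructor
    · by_contra hlt
      push Not at hlt
      -- k < -M₂, so 2^k ≤ 2^(-M₂) < a / (2 ‖z‖)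
      have h3 : (2 : ℝ) ^ k ≤ (2 : ℝ) ^ (-(M₂ : ℤ)) :=
        zpow_le_zpow_right₀ (by norm_num) hlt.le
      rw [zpow_neg, zpow_natCast] at h3
      rw [div_lt_iff₀ ha] at hM₂
      have h4 : (2 : ℝ) ^ k * (2 : ℝ) ^ M₂ ≤ 1 := by
        calc (2 : ℝ) ^ k * (2 : ℝ) ^ M₂ ≤ ((2 : ℝ) ^ M₂)⁻¹ * (2 : ℝ) ^ M₂ :=
              mul_le_mul_of_nonneg_right h3 (by positivity)
          _ = 1 := inv_mul_cancel₀ (by positivity)
      have h5 : a ≤ (2 : ℝ) ^ k * (2 * ‖z‖) :=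
        hge.trans (mul_le_mul_of_nonneg_left hy.2.le hpos.le)
      have h6 : (2 : ℝ) ^ k * (2 * ‖z‖) < (2 : ℝ) ^ k * ((2 : ℝ) ^ M₂ * a) :=
        mul_lt_mul_of_pos_left hM₂ hpos
      have h7 : (2 : ℝ) ^ k * ((2 : ℝ) ^ M₂ * a) ≤ a := by
        rw [← mul_assoc]
        exact mul_le_of_le_one_left ha.le h4
      linarith
    · by_contra hlt
      push Not at hlt
      have h3 : (2 : ℝ) ^ (M₁ : ℤ) ≤ (2 : ℝ) ^ k :=
        zpow_le_zpow_right₀ (by norm_num) hlt.le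
      rw [zpow_natCast] at h3
      rw [div_lt_iff₀ hz'] at hM₁
      have h5 : (2 : ℝ) ^ M₁ * (‖z‖ / 2) ≤ (2 : ℝ) ^ k * ‖y‖ :=
        mul_le_mul h3 hy.1.le (by positivity) hpos.le
      linarith
  refine ⟨hvan, fun w => ?_⟩
  unfold Per
  apply tsum_eq_sum
  intro k hk
  rw [hvan k hk, smul_zero]

theorem Per_scale {Φ : V → G} (hc : HasCompactSupport Φ) (h0 : (0 : V) ∉ tsupport Φ)
    (w : ℤ) {z : V} (hz : z ≠ 0) :
    Per w Φ ((2 : ℂ) • z) = ((2 : ℂ) ^ (-w)) • Per w Φ z := by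
  unfold Per
  rw [← tsum_const_smul'', ← (Equiv.addRight (1 : ℤ)).tsum_eq
    (fun k => ((2 : ℂ) ^ (-w)) • ((2 : ℂ) ^ (w * k)) • Φ (((2 : ℂ) ^ k) • z))]
  apply tsum_congr
  intro k
  show ((2 : ℂ) ^ (w * k)) • Φ (((2 : ℂ) ^ k) • (2 : ℂ) • z) =
    ((2 : ℂ) ^ (-w)) • ((2 : ℂ) ^ (w * (k + 1))) • Φ (((2 : ℂ) ^ (k + 1)) • z)
  rw [smul_smul ((2 : ℂ) ^ (-w)), ← zpow_add₀ (by norm_num : (2 : ℂ) ≠ 0), smul_smul]
  have h1 : -w + w * (k + 1) = w * k := by ring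
  rw [h1, zpow_add₀ (by norm_num : (2 : ℂ) ≠ 0) k 1, zpow_one]

theorem Per_contDiffAt {Φ : V → G} (hs : ContDiff ℝ ∞ Φ) (hc : HasCompactSupport Φ)
    (h0 : (0 : V) ∉ tsupport Φ) (w : ℤ) {z : V} (hz : z ≠ 0) :
    ContDiffAt ℝ ∞ (Per w Φ) z := by
  obtain ⟨K, hK⟩ := Per_eventually hc h0 hz
  have h1 : (Per w Φ) =ᶠ[𝓝 z] fun y => ∑ k ∈ K, ((2 : ℂ) ^ (w * k)) • Φ (((2 : ℂ) ^ k) • y) := by
    filter_upwards [hK] with y hy
    exact hy.2 w
  refine ContDiffAt.congr_of_eventuallyEq ?_ h1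
  apply ContDiffAt.sum
  intro k _
  apply ContDiffAt.const_smul
  apply ContDiff.contDiffAt
  exact hs.comp (contDiff_const_smul _)

/-- Near a point `z ≠ 0` such that no `2^k z` lies in `tsupport Φ`, the periodization vanishes. -/
theorem Per_eventually_zero {Φ : V → G} (hc : HasCompactSupport Φ) (h0 : (0 : V) ∉ tsupport Φ)
    {z : V} (hz : z ≠ 0) (h : ∀ k : ℤ, ((2 : ℂ) ^ k) • z ∉ tsupport Φ) (w : ℤ) :
    ∀ᶠ y in 𝓝 z, Per w Φ y = 0 := by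
  obtain ⟨K, hK⟩ := Per_eventually hc h0 hz
  have h1 : ∀ᶠ y in 𝓝 z, ∀ k ∈ K, Φ (((2 : ℂ) ^ k) • y) = 0 := by
    rw [Filter.eventually_all_finset]
    intro k _
    have h2 : ContinuousAt (fun y : V => ((2 : ℂ) ^ k) • y) z :=
      (continuous_const_smul _).continuousAt
    have h3 := h2.eventually ((isClosed_tsupport Φ).isOpen_compl.mem_nhds (h k))
    filter_upwards [h3] with y hy
    exact image_eq_zero_of_notMem_tsupport hy
  filter_upwards [hK, h1] with y hy hy1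
  rw [hy.2 w]
  apply Finset.sum_eq_zero
  intro k hk
  rw [hy1 k hk, smul_zero]

private theorem Per_weight {G' : Type*} [NormedAddCommGroup G'] [NormedSpace ℂ G'] (a : ℤ)
    {A : V → G'} (hA : ∀ z : V, z ≠ 0 → A ((2 : ℂ) • z) = ((2 : ℂ) ^ (-a)) • A z)
    {z : V} (hz : z ≠ 0) (k : ℤ) : A z = ((2 : ℂ) ^ (a * k)) • A (((2 : ℂ) ^ k) • z) := by
  have h2 : (2 : ℂ) ≠ 0 := by norm_num
  have hne : ∀ k : ℤ, ((2 : ℂ) ^ k) • z ≠ 0 := fun k =>
    smul_ne_zero (zpow_ne_zero _ h2) hz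
  have hstep : ∀ k : ℤ, A (((2 : ℂ) ^ (k + 1)) • z) = ((2 : ℂ) ^ (-a)) • A (((2 : ℂ) ^ k) • z) := by
    intro k
    rw [← hA _ (hne k), smul_smul, zpow_add₀ h2, zpow_one, mul_comm]
  induction k using Int.induction_on with
  | zero => simp
  | succ k ih =>
    rw [hstep, smul_smul, ← zpow_add₀ h2]
    have h3 : a * ((k : ℤ) + 1) + -a = a * k := by ring
    rw [h3]
    exact ih
  | pred k ih =>
    have h3 := hstep (-(k : ℤ) - 1)
    rw [sub_add_cancel] at h3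
    rw [h3, smul_smul, ← zpow_add₀ h2] at ih
    have h4 : a * -(k : ℤ) + -a = a * (-(k : ℤ) - 1) := by ring
    rw [h4] at ih
    exact ih

/-- Multiplication by a function of weight `a` (i.e. `A(2^k z) = 2^{-a k} A(z)`). -/
theorem Per_bilin {G' G'' : Type*} [NormedAddCommGroup G'] [NormedSpace ℂ G']
    [NormedAddCommGroup G''] [NormedSpace ℂ G''] (B : G' →L[ℂ] G →L[ℂ] G'')
    {Φ : V → G} (hc : HasCompactSupport Φ) (h0 : (0 : V) ∉ tsupport Φ) (w a : ℤ)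
    {A : V → G'} (hA : ∀ z : V, z ≠ 0 → A ((2 : ℂ) • z) = ((2 : ℂ) ^ (-a)) • A z)
    {z : V} (hz : z ≠ 0) :
    B (A z) (Per w Φ z) = Per (w + a) (fun y => B (A y) (Φ y)) z := by
  obtain ⟨K, hK⟩ := Per_eventually hc h0 hz
  have hK' := hK.self_of_nhds
  have h1 : Per (w + a) (fun y => B (A y) (Φ y)) z =
      ∑ k ∈ K, ((2 : ℂ) ^ ((w + a) * k)) •
        B (A (((2 : ℂ) ^ k) • z)) (Φ (((2 : ℂ) ^ k) • z)) := by
    unfold Per
    apply tsum_eq_sum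
    intro k hk
    show ((2 : ℂ) ^ ((w + a) * k)) • B (A (((2 : ℂ) ^ k) • z)) (Φ (((2 : ℂ) ^ k) • z)) = 0
    rw [hK'.1 k hk, map_zero, smul_zero]
  rw [h1, hK'.2 w, map_sum]
  apply Finset.sum_congr rfl
  intro k _
  rw [map_smul]
  conv_lhs => rw [Per_weight a hA hz k]
  rw [map_smul, smul_apply, smul_smul, ← zpow_add₀ (by norm_num : (2 : ℂ) ≠ 0),
    add_mul]

end general

variable {G : Type*} [NormedAddCommGroup G] [NormedSpace ℂ G]

theorem dbar_Per {Φ : C3 → G} (hΦ : IsTest Φ) (w : ℤ) (j : Fin 3) {z : C3} (hz : z ≠ 0) :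
    dbar j (Per w Φ) z = Per (w + 1) (dbar j Φ) z := by
  obtain ⟨K, hK⟩ := Per_eventually hΦ.compact hΦ.zero_notMem hz
  have h1 : (Per w Φ) =ᶠ[𝓝 z] fun y => ∑ k ∈ K, ((2 : ℂ) ^ (w * k)) • Φ (((2 : ℂ) ^ k) • y) := by
    filter_upwards [hK] with y hy
    exact hy.2 w
  have hd : Differentiable ℝ Φ := hΦ.smooth.differentiable (by simp)
  have hsc : ∀ (k : ℤ) (v : C3), ((2 : ℂ) ^ k) • v = ((2 : ℝ) ^ k) • v := by
    intro k v
    have : ((2 : ℂ) ^ k) = (((2 : ℝ) ^ k : ℝ) : ℂ) := by push_cast; rfl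
    rw [this]
    ext i
    simp
  have hsc' : ∀ (k : ℤ) (v : G), ((2 : ℂ) ^ k) • v = ((2 : ℝ) ^ k) • v := by
    intro k v
    have : ((2 : ℂ) ^ k) = (((2 : ℝ) ^ k : ℝ) : ℂ) := by push_cast; rfl
    rw [this]
    exact Complex.coe_smul _ _
  have hderiv : ∀ k : ℤ, HasFDerivAt (fun y : C3 => Φ (((2 : ℂ) ^ k) • y))
      (((2 : ℝ) ^ k) • fderiv ℝ Φ (((2 : ℂ) ^ k) • z)) z := by
    intro k
    have h2 : HasFDerivAt (fun y : C3 => ((2 : ℂ) ^ k) • y)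
        (((2 : ℝ) ^ k) • ContinuousLinearMap.id ℝ C3) z := by
      have h3 : (fun y : C3 => ((2 : ℂ) ^ k) • y) = fun y : C3 => ((2 : ℝ) ^ k) • y := by
        funext y
        exact hsc k y
      rw [h3]
      exact (hasFDerivAt_id z).const_smul ((2 : ℝ) ^ k)
    have h4 := (hd (((2 : ℂ) ^ k) • z)).hasFDerivAt.comp z h2
    have h5 : (fderiv ℝ Φ (((2 : ℂ) ^ k) • z)).comp (((2 : ℝ) ^ k) • ContinuousLinearMap.id ℝ C3) =
        ((2 : ℝ) ^ k) • fderiv ℝ Φ (((2 : ℂ) ^ k) • z) := by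
      ext v
      simp
    rw [h5] at h4
    exact h4
  have hfd : fderiv ℝ (Per w Φ) z = ∑ k ∈ K, ((2 : ℂ) ^ (w * k)) •
      (((2 : ℝ) ^ k) • fderiv ℝ Φ (((2 : ℂ) ^ k) • z)) := by
    rw [h1.fderiv_eq]
    apply HasFDerivAt.fderiv
    apply HasFDerivAt.fun_sum
    intro k _
    exact (hderiv k).const_smul ((2 : ℂ) ^ (w * k))
  have h2 : Per (w + 1) (dbar j Φ) z =
      ∑ k ∈ K, ((2 : ℂ) ^ ((w + 1) * k)) • dbar j Φ (((2 : ℂ) ^ k) • z) := by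
    unfold Per
    apply tsum_eq_sum
    intro k hk
    have h3 : fderiv ℝ Φ (((2 : ℂ) ^ k) • z) = 0 := by
      have h4 : (fun y : C3 => Φ (((2 : ℂ) ^ k) • y)) =ᶠ[𝓝 z] fun _ => 0 := by
        filter_upwards [hK] with y hy
        exact hy.1 k hk
      have h5 := h4.fderiv_eq (𝕜 := ℝ)
      rw [(hderiv k).fderiv, fderiv_fun_const] at h5
      have h6 : ((2 : ℝ) ^ k) ≠ 0 := by positivity
      exact (smul_eq_zero.mp h5).resolve_left h6
    unfold dbar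
    rw [h3]
    simp
  rw [h2]
  unfold dbar
  rw [hfd, sum_apply, sum_apply, Finset.smul_sum,
    ← Finset.sum_add_distrib, Finset.smul_sum]
  apply Finset.sum_congr rfl
  intro k _
  rw [smul_apply, smul_apply,
    smul_apply, smul_apply, ← hsc', ← hsc', add_mul,
    one_mul, zpow_add₀ (by norm_num : (2 : ℂ) ≠ 0)]
  simp only [smul_smul, smul_add]
  congr 1
  · congr 1; ring
  · congr 1; ring

end

end Pool.Agent.HopfEmb
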