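import Pool.Agent.Lib.MP_d404b9_ag.Basic

/-!
# JOB SMOOTH-A: Bochner-Kodaira inequalities for smooth compactly supported functions

Write `Z_j = ∂̄_j + s η_j`, `Z_j^* = -∂_j + s conj η_j` (`s` real), `⟪f,g⟫ = ∫ inner (f z) (g z)`.

* Integration by parts: `⟪Z_j f, g⟫ = ⟪f, Z_j^* g⟫`
  (`integral_bilinear_hasLineDerivAt_right_eq_neg_left_of_integrable` or
  `integral_mul_fderiv_eq_neg_fderiv_mul_of_integrable`).
* `∂_k η_j = δ_{jk}/|z|² - z_j conj(z_k)/|z|⁴ =: ψ_{kj}` for `z ≠ 0`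
  and `∂̄_j conj η_k = ψ_{kj}`, so `Z_k^* Z_j f = Z_j Z_k^* f - 2 s ψ_{kj} f`.
* Key identity (K): `⟪Z_k g, Z_j f⟫ = ⟪Z_j^* g, Z_k^* f⟫ - 2 s ∫ ψ_{kj} inner g f`.
* `∑_j ψ_{jj} = 2/|z|²` and `∑_{jk} ψ_{kj} inner (f_j) (f_k)` lies between `0` and `|f|²/|z|²`
  (Cauchy-Schwarz).
* `smooth0`: diagonal case of (K): `‖Z_j u‖² = ‖Z_j^* u‖² - 2 s ∫ ψ_{jj} |u|²`, sum over `j`.
* `smooth1`: `∑_i ‖Z_{i+1} f_{i+2} - Z_{i+2} f_{i+1}‖² = ∑_{jk} ‖Z_j f_k‖² - ∑_{jk} ⟪Z_k f_j, Z_j f_k⟫`
  and by (K) `∑_{jk} ⟪Z_k f_j, Z_j f_k⟫ = ‖∑ Z_k^* f_k‖² - 2 s ∫ ∑ ψ_{kj} inner f_j f_k`;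
  finally `∑_{jk} ‖Z_j f_k‖² = ∑_{jk} ‖Z_j^* f_k‖² - 2 s ∫ (2/|z|²) |f|²`.
* `smooth2`: the same with the roles of `Z` and `Z^*` exchanged (or apply `smooth1` to the
  componentwise complex conjugates of `f` and `-s`).
-/

set_option autoImplicit false

open MeasureTheory Complex Filter Topology
open scoped ContDiff ComplexConjugate

namespace Pool.Agent.HopfEmb

noncomputable section

section testfun

variable {G : Type*} [NormedAddCommGroup G] [NormedSpace ℂ G]

private theorem smoothA_ev {f : C3 → G} (hf : IsTest f) : f =ᶠ[𝓝 0] 0 :=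
  notMem_tsupport_iff_eventuallyEq.1 hf.zero_notMem

private theorem smoothA_mk {f : C3 → G} (h1 : ContDiff ℝ ∞ f) (h2 : HasCompactSupport f)
    (h3 : f =ᶠ[𝓝 0] 0) : IsTest f :=
  ⟨h1, h2, notMem_tsupport_iff_eventuallyEq.2 h3⟩

private theorem smoothA_add {f g : C3 → G} (hf : IsTest f) (hg : IsTest g) :
    IsTest (fun z => f z + g z) := by
  refine smoothA_mk (hf.smooth.add hg.smooth) (hf.compact.add hg.compact) ?_
  filter_upwards [smoothA_ev hf, smoothA_ev hg] with z h1 h2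
  simp [h1, h2]

private theorem smoothA_neg {f : C3 → G} (hf : IsTest f) :
    IsTest (fun z => - f z) := by
  refine smoothA_mk hf.smooth.neg hf.compact.neg ?_
  filter_upwards [smoothA_ev hf] with z h1
  simp [h1]

private theorem smoothA_sub {f g : C3 → G} (hf : IsTest f) (hg : IsTest g) :
    IsTest (fun z => f z - g z) := by
  simpa only [sub_eq_add_neg] using smoothA_add hf (smoothA_neg hg)

private theorem smoothA_csmul (c : ℂ) {f : C3 → G} (hf : IsTest f) :
    IsTest (fun z => c • f z) := by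
  refine smoothA_mk (hf.smooth.const_smul c) (hf.compact.smul_left) ?_
  filter_upwards [smoothA_ev hf] with z h1
  simp [h1]

private theorem smoothA_smul {a : C3 → ℂ} (ha : ∀ z : C3, z ≠ 0 → ContDiffAt ℝ ∞ a z) {f : C3 → G}
    (hf : IsTest f) : IsTest (fun z => a z • f z) := by
  have hev := smoothA_ev hf
  refine smoothA_mk ?_ (hf.compact.smul_left) ?_
  · rw [contDiff_iff_contDiffAt]
    intro z
    by_cases hz : z = 0
    · subst hz
      have : (fun z => a z • f z) =ᶠ[𝓝 0] fun _ => 0 := by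
        filter_upwards [hev] with z h1
        simp [h1]
      exact contDiffAt_const.congr_of_eventuallyEq this
    · exact (ha z hz).smul hf.smooth.contDiffAt
  · filter_upwards [hev] with z h1
    simp [h1]

private theorem smoothA_fderiv {f : C3 → G} (hf : IsTest f) (v : C3) :
    IsTest (fun z => fderiv ℝ f z v) := by
  refine smoothA_mk ?_ (hf.compact.fderiv_apply ℝ v) ?_
  · have := hf.smooth.fderiv_right (m := ∞) (by simp)
    exact this.clm_apply contDiff_const
  · have := (smoothA_ev hf).fderiv (𝕜 := ℝ)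
    filter_upwards [this] with z h1
    rw [h1]
    simp

private theorem smoothA_dbar {f : C3 → G} (hf : IsTest f) (j : Fin 3) : IsTest (dbar j f) := by
  unfold dbar
  exact smoothA_csmul _ (smoothA_add (smoothA_fderiv hf _) (smoothA_csmul _ (smoothA_fderiv hf _)))

private theorem smoothA_ddel {f : C3 → G} (hf : IsTest f) (j : Fin 3) : IsTest (ddel j f) := by
  unfold ddel
  exact smoothA_csmul _ (smoothA_sub (smoothA_fderiv hf _) (smoothA_csmul _ (smoothA_fderiv hf _)))

private theorem smoothA_R2_contDiff : ContDiff ℝ ∞ R2 := by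
  unfold R2
  refine ContDiff.sum fun i _ => ?_
  exact (contDiff_apply ℝ ℂ i).norm_sq ℝ

private theorem smoothA_R2_pos {z : C3} (hz : z ≠ 0) : 0 < R2 z := by
  unfold R2
  obtain ⟨i, hi⟩ := Function.ne_iff.1 hz
  refine Finset.sum_pos' (fun j _ => by positivity) ⟨i, Finset.mem_univ _, ?_⟩
  have : 0 < ‖z i‖ := norm_pos_iff.2 hi
  positivity

private theorem smoothA_R2_nonneg (z : C3) : 0 ≤ R2 z := by
  unfold R2
  positivity

private theorem smoothA_R2_contDiffAt (z : C3) : ContDiffAt ℝ ∞ (fun z => (R2 z : ℂ)) z :=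
  (Complex.ofRealCLM.contDiff.comp smoothA_R2_contDiff).contDiffAt

private theorem smoothA_eta_contDiffAt (j : Fin 3) {z : C3} (hz : z ≠ 0) :
    ContDiffAt ℝ ∞ (eta j) z := by
  unfold eta
  simp only [div_eq_mul_inv]
  have h0 : (R2 z : ℂ) ≠ 0 := by exact_mod_cast (smoothA_R2_pos hz).ne'
  exact (contDiff_apply ℝ ℂ j).contDiffAt.mul ((smoothA_R2_contDiffAt z).inv h0)

private theorem smoothA_ceta_contDiffAt (j : Fin 3) {z : C3} (hz : z ≠ 0) :
    ContDiffAt ℝ ∞ (fun z => conj (eta j z)) z :=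
  (Complex.conjCLE.contDiff.contDiffAt).comp z (smoothA_eta_contDiffAt j hz)

private theorem smoothA_dbar_smul {a : C3 → ℂ} {f : C3 → G} {z : C3} (j : Fin 3)
    (ha : DifferentiableAt ℝ a z) (hf : DifferentiableAt ℝ f z) :
    dbar j (fun z => a z • f z) z = dbar j a z • f z + a z • dbar j f z := by
  unfold dbar
  rw [fderiv_fun_smul ha hf]
  simp only [add_apply, smul_apply,
    ContinuousLinearMap.smulRight_apply]
  module

private theorem smoothA_ddel_smul {a : C3 → ℂ} {f : C3 → G} {z : C3} (j : Fin 3)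
    (ha : DifferentiableAt ℝ a z) (hf : DifferentiableAt ℝ f z) :
    ddel j (fun z => a z • f z) z = ddel j a z • f z + a z • ddel j f z := by
  unfold ddel
  rw [fderiv_fun_smul ha hf]
  simp only [add_apply, smul_apply,
    ContinuousLinearMap.smulRight_apply]
  module

private theorem smoothA_dbar_add {f g : C3 → G} {z : C3} (j : Fin 3)
    (hf : DifferentiableAt ℝ f z) (hg : DifferentiableAt ℝ g z) :
    dbar j (fun z => f z + g z) z = dbar j f z + dbar j g z := by
  unfold dbar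
  rw [fderiv_fun_add hf hg]
  simp only [add_apply]
  module

private theorem smoothA_ddel_add {f g : C3 → G} {z : C3} (j : Fin 3)
    (hf : DifferentiableAt ℝ f z) (hg : DifferentiableAt ℝ g z) :
    ddel j (fun z => f z + g z) z = ddel j f z + ddel j g z := by
  unfold ddel
  rw [fderiv_fun_add hf hg]
  simp only [add_apply]
  module

private theorem smoothA_dbar_neg {f : C3 → G} {z : C3} (j : Fin 3) :
    dbar j (fun z => - f z) z = - dbar j f z := by
  unfold dbar
  rw [fderiv_fun_neg]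
  simp only [neg_apply]
  module

private theorem smoothA_ddel_coord (k j : Fin 3) (z : C3) :
    ddel k (fun z : C3 => z j) z = if j = k then 1 else 0 := by
  unfold ddel
  have h : fderiv ℝ (fun z : C3 => z j) z = ContinuousLinearMap.proj (R := ℝ) j := by
    exact (ContinuousLinearMap.proj (R := ℝ) (φ := fun _ : Fin 3 => ℂ) j).hasFDerivAt.fderiv
  rw [h]
  simp only [ContinuousLinearMap.proj_apply, Pi.single_apply]
  split_ifs
  · simp only [smul_eq_mul]
    linear_combination (-1 / 2 : ℂ) * Complex.I_mul_I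
  · simp

private theorem smoothA_dbar_coord (k j : Fin 3) (z : C3) :
    dbar k (fun z : C3 => z j) z = 0 := by
  unfold dbar
  have h : fderiv ℝ (fun z : C3 => z j) z = ContinuousLinearMap.proj (R := ℝ) j := by
    exact (ContinuousLinearMap.proj (R := ℝ) (φ := fun _ : Fin 3 => ℂ) j).hasFDerivAt.fderiv
  rw [h]
  simp only [ContinuousLinearMap.proj_apply, Pi.single_apply]
  split_ifs
  · simp only [smul_eq_mul]
    linear_combination (1 / 2 : ℂ) * Complex.I_mul_I
  · simp

private theorem smoothA_dbar_conj {a : C3 → ℂ} {z : C3} (j : Fin 3)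
    (ha : DifferentiableAt ℝ a z) :
    dbar j (fun z => conj (a z)) z = conj (ddel j a z) := by
  unfold dbar ddel
  have h : fderiv ℝ (fun z => conj (a z)) z =
      (Complex.conjCLE : ℂ →L[ℝ] ℂ).comp (fderiv ℝ a z) := by
    exact (Complex.conjCLE.hasFDerivAt.comp z ha.hasFDerivAt).fderiv
  rw [h]
  have h2 : conj (2 : ℂ) = 2 := map_ofNat _ 2
  simp [map_sub, map_mul, h2]

private theorem smoothA_ddel_conj {a : C3 → ℂ} {z : C3} (j : Fin 3)
    (ha : DifferentiableAt ℝ a z) :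
    ddel j (fun z => conj (a z)) z = conj (dbar j a z) := by
  unfold dbar ddel
  have h : fderiv ℝ (fun z => conj (a z)) z =
      (Complex.conjCLE : ℂ →L[ℝ] ℂ).comp (fderiv ℝ a z) := by
    exact (Complex.conjCLE.hasFDerivAt.comp z ha.hasFDerivAt).fderiv
  rw [h]
  have h2 : conj (2 : ℂ) = 2 := map_ofNat _ 2
  simp [map_add, map_mul, h2]
  ring

private theorem smoothA_diff_coord (j : Fin 3) (z : C3) :
    DifferentiableAt ℝ (fun z : C3 => z j) z :=
  (ContinuousLinearMap.proj (R := ℝ) (φ := fun _ : Fin 3 => ℂ) j).differentiableAt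

private theorem smoothA_diff_conj_coord (j : Fin 3) (z : C3) :
    DifferentiableAt ℝ (fun z : C3 => conj (z j)) z :=
  Complex.conjCLE.differentiableAt.comp z (smoothA_diff_coord j z)

private theorem smoothA_R2_eq (z : C3) : (R2 z : ℂ) = ∑ i : Fin 3, z i * conj (z i) := by
  unfold R2
  push_cast
  refine Finset.sum_congr rfl fun i _ => ?_
  rw [Complex.mul_conj, Complex.normSq_eq_norm_sq]
  push_cast
  rfl

private theorem smoothA_ddel_R2 (k : Fin 3) (z : C3) :
    ddel k (fun z => (R2 z : ℂ)) z = conj (z k) := by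
  have h1 : (fun z => (R2 z : ℂ)) = fun z : C3 => (z 0 • conj (z 0) + z 1 • conj (z 1))
      + z 2 • conj (z 2) := by
    funext z
    rw [smoothA_R2_eq, Fin.sum_univ_three]
    rfl
  have d : ∀ j, DifferentiableAt ℝ (fun z : C3 => z j • conj (z j)) z := fun j =>
    (smoothA_diff_coord j z).smul (smoothA_diff_conj_coord j z)
  have e : ∀ j, ddel k (fun z : C3 => z j • conj (z j)) z = if j = k then conj (z j) else 0 := by
    intro j
    rw [smoothA_ddel_smul k (smoothA_diff_coord j z) (smoothA_diff_conj_coord j z),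
      smoothA_ddel_coord, smoothA_ddel_conj k (smoothA_diff_coord j z), smoothA_dbar_coord]
    split_ifs <;> simp
  have d01 : DifferentiableAt ℝ (fun z : C3 => z 0 • conj (z 0) + z 1 • conj (z 1)) z :=
    (d 0).add (d 1)
  rw [h1, smoothA_ddel_add k d01 (d 2), smoothA_ddel_add k (d 0) (d 1), e, e, e]
  fin_cases k <;> simp

private theorem smoothA_ddel_inv {a : C3 → ℂ} {z : C3} (j : Fin 3)
    (ha : DifferentiableAt ℝ a z) (h0 : a z ≠ 0) :
    ddel j (fun z => (a z)⁻¹) z = - ddel j a z / (a z) ^ 2 := by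
  have hinv : DifferentiableAt ℝ (fun z => (a z)⁻¹) z := ha.inv h0
  have h1 := smoothA_ddel_smul j ha hinv
  have h2 : ddel j (fun z => a z • (a z)⁻¹) z = 0 := by
    have : (fun z => a z • (a z)⁻¹) =ᶠ[𝓝 z] fun _ => (1 : ℂ) := by
      filter_upwards [ha.continuousAt.eventually_ne h0] with w hw
      simp [hw]
    unfold ddel
    rw [this.fderiv_eq]
    simp
  rw [h2] at h1
  simp only [smul_eq_mul] at h1
  field_simp
  field_simp at h1
  linear_combination -h1

/-- The Levi matrix of `log |z|²`. -/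
private def smoothA_psi (k j : Fin 3) (z : C3) : ℂ :=
  (if j = k then 1 else 0) / (R2 z : ℂ) - z j * conj (z k) / (R2 z : ℂ) ^ 2

private theorem smoothA_ddel_eta (k j : Fin 3) {z : C3} (hz : z ≠ 0) :
    ddel k (eta j) z = smoothA_psi k j z := by
  have h0 : (R2 z : ℂ) ≠ 0 := by exact_mod_cast (smoothA_R2_pos hz).ne'
  have hd : DifferentiableAt ℝ (fun z => (R2 z : ℂ)) z :=
    (smoothA_R2_contDiffAt z).differentiableAt (by simp)
  have h1 : eta j = fun z => z j • (R2 z : ℂ)⁻¹ := by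
    funext z
    unfold eta
    rw [smul_eq_mul, div_eq_mul_inv]
  have hdi : DifferentiableAt ℝ (fun z => (R2 z : ℂ)⁻¹) z := hd.inv h0
  rw [h1, smoothA_ddel_smul k (smoothA_diff_coord j z) hdi, smoothA_ddel_inv k hd h0,
    smoothA_ddel_coord, smoothA_ddel_R2]
  unfold smoothA_psi
  simp only [smul_eq_mul]
  ring

private theorem smoothA_dbar_ceta (k j : Fin 3) {z : C3} (hz : z ≠ 0) :
    dbar j (fun z => conj (eta k z)) z = smoothA_psi k j z := by
  rw [smoothA_dbar_conj j ((smoothA_eta_contDiffAt k hz).differentiableAt (by simp)),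
    smoothA_ddel_eta j k hz]
  unfold smoothA_psi
  have : (if k = j then (1 : ℂ) else 0) = if j = k then 1 else 0 := by
    by_cases h : j = k
    · simp [h]
    · simp [h, Ne.symm h]
  rw [this]
  simp only [map_sub, map_div₀, map_mul, map_pow, Complex.conj_ofReal, Complex.conj_conj]
  split_ifs <;> simp <;> ring

private theorem smoothA_symm {f : C3 → G} (hf : ContDiff ℝ ∞ f) (v w : C3) (z : C3) :
    fderiv ℝ (fun z => fderiv ℝ f z v) z w = fderiv ℝ (fun z => fderiv ℝ f z w) z v := by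
  have h1 : IsSymmSndFDerivAt ℝ f z := by
    refine hf.contDiffAt.isSymmSndFDerivAt ?_
    simp only [minSmoothness_of_isRCLikeNormedField]
    exact WithTop.coe_le_coe.2 (by exact le_top)
  have h2 : DifferentiableAt ℝ (fderiv ℝ f) z :=
    ((hf.fderiv_right (m := ∞) (by simp)).differentiable (by simp)).differentiableAt
  have h3 : ∀ v w : C3, fderiv ℝ (fun z => fderiv ℝ f z v) z w = fderiv ℝ (fderiv ℝ f) z w v := by
    intro v w
    rw [fderiv_clm_apply h2 (differentiableAt_const v)]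
    simp
  rw [h3, h3]
  exact h1 w v

private theorem smoothA_diff {f : C3 → G} (hf : ContDiff ℝ ∞ f) (z : C3) :
    DifferentiableAt ℝ f z := (hf.differentiable (by simp)).differentiableAt

private theorem smoothA_diff_fderiv {f : C3 → G} (hf : ContDiff ℝ ∞ f) (v z : C3) :
    DifferentiableAt ℝ (fun z => fderiv ℝ f z v) z :=
  smoothA_diff ((hf.fderiv_right (m := ∞) (by simp)).clm_apply contDiff_const) z

private theorem smoothA_comm {f : C3 → G} (hf : ContDiff ℝ ∞ f) (j k : Fin 3) (z : C3) :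
    ddel k (dbar j f) z = dbar j (ddel k f) z := by
  have d := smoothA_diff_fderiv hf
  have e1 : ∀ (c : ℂ) (v w : C3), fderiv ℝ (fun z => (1 / 2 : ℂ) • (fderiv ℝ f z v + c •
      fderiv ℝ f z w)) z = (1 / 2 : ℂ) • (fderiv ℝ (fun z => fderiv ℝ f z v) z + c •
      fderiv ℝ (fun z => fderiv ℝ f z w) z) := by
    intro c v w
    have dd : DifferentiableAt ℝ (fun z => fderiv ℝ f z v + c • fderiv ℝ f z w) z :=
      (d v z).add ((d w z).const_smul c)
    have dw : DifferentiableAt ℝ (fun z => c • fderiv ℝ f z w) z := (d w z).const_smul c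
    rw [fderiv_fun_const_smul dd, fderiv_fun_add (d v z) dw, fderiv_fun_const_smul (d w z)]
  have e2 : ddel k f = fun z => (1 / 2 : ℂ) • (fderiv ℝ f z (Pi.single k 1) + (-I) •
      fderiv ℝ f z (Pi.single k I)) := by
    funext z
    unfold ddel
    module
  have e3 : dbar j f = fun z => (1 / 2 : ℂ) • (fderiv ℝ f z (Pi.single j 1) + I •
      fderiv ℝ f z (Pi.single j I)) := rfl
  rw [e2, e3]
  unfold dbar ddel
  rw [e1, e1]
  simp only [smul_apply, add_apply]
  rw [smoothA_symm hf (Pi.single j 1) (Pi.single k 1), smoothA_symm hf (Pi.single j I) (Pi.single k 1),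
    smoothA_symm hf (Pi.single j 1) (Pi.single k I), smoothA_symm hf (Pi.single j I) (Pi.single k I)]
  module

end testfun

section inner

variable {H : Type*} [NormedAddCommGroup H] [InnerProductSpace ℂ H]

private theorem smoothA_int {f g : C3 → H} (hf : IsTest f) (hg : IsTest g) :
    Integrable (fun z => inner ℂ (f z) (g z)) := by
  refine Continuous.integrable_of_hasCompactSupport (hf.smooth.continuous.inner
    hg.smooth.continuous) ?_
  refine hf.compact.mono' ?_
  intro z hz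
  refine subset_tsupport f ?_
  intro h
  apply hz
  simp [h]

private theorem smoothA_ibp_fderiv {f g : C3 → H} (hf : IsTest f) (hg : IsTest g) (v : C3) :
    ∫ z, inner ℂ (fderiv ℝ f z v) (g z) = - ∫ z, inner ℂ (f z) (fderiv ℝ g z v) := by
  have key := integral_bilinear_fderiv_right_eq_neg_left_of_integrable (μ := (volume : Measure C3))
    (f := f) (g := g) (v := v)
    (B := (isBoundedBilinearMap_inner (𝕜 := ℂ) (E := H)).toContinuousLinearMap)
    (smoothA_int (smoothA_fderiv hf v) hg) (smoothA_int hf (smoothA_fderiv hg v))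
    (smoothA_int hf hg) (fun z _ => smoothA_diff hf.smooth z) (fun z _ => smoothA_diff hg.smooth z)
  have key' : ∫ z, inner ℂ (f z) (fderiv ℝ g z v) = - ∫ z, inner ℂ (fderiv ℝ f z v) (g z) := key
  rw [key', neg_neg]

private theorem smoothA_ibp {f g : C3 → H} (hf : IsTest f) (hg : IsTest g) (j : Fin 3) :
    ∫ z, inner ℂ (dbar j f z) (g z) = - ∫ z, inner ℂ (f z) (ddel j g z) := by
  have i1 := smoothA_int (smoothA_fderiv hf (Pi.single j 1)) hg
  have i2 := smoothA_int (smoothA_fderiv hf (Pi.single j I)) hg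
  have i3 := smoothA_int hf (smoothA_fderiv hg (Pi.single j 1))
  have i4 := smoothA_int hf (smoothA_fderiv hg (Pi.single j I))
  have h1 : (fun z => inner ℂ (dbar j f z) (g z)) = fun z =>
      (1 / 2 : ℂ) * (inner ℂ (fderiv ℝ f z (Pi.single j 1)) (g z) +
        (-I) * inner ℂ (fderiv ℝ f z (Pi.single j I)) (g z)) := by
    funext z
    have h2 : conj (1 / 2 : ℂ) = 1 / 2 := by
      have : conj (2 : ℂ) = 2 := map_ofNat _ 2
      simp [this]
    unfold dbar
    rw [inner_smul_left, inner_add_left, inner_smul_left, h2, Complex.conj_I]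
  have h2 : (fun z => inner ℂ (f z) (ddel j g z)) = fun z =>
      (1 / 2 : ℂ) * (inner ℂ (f z) (fderiv ℝ g z (Pi.single j 1)) +
        (-I) * inner ℂ (f z) (fderiv ℝ g z (Pi.single j I))) := by
    funext z
    unfold ddel
    rw [inner_smul_right, inner_sub_right, inner_smul_right]
    ring
  rw [h1, h2, integral_const_mul, integral_const_mul, integral_add i1 (i2.const_mul _),
    integral_add i3 (i4.const_mul _), integral_const_mul, integral_const_mul,
    smoothA_ibp_fderiv hf hg, smoothA_ibp_fderiv hf hg]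
  ring

end inner

section ops

variable {m : ℕ}

private theorem smoothA_Zop {f : C3 → Fm m} (hf : IsTest f) (s : ℝ) (j : Fin 3) :
    IsTest (Zop s j f) := by
  unfold Zop
  refine smoothA_add (smoothA_dbar hf j) (smoothA_smul (fun z hz => ?_) hf)
  exact contDiffAt_const.mul (smoothA_eta_contDiffAt j hz)

private theorem smoothA_Zst {f : C3 → Fm m} (hf : IsTest f) (s : ℝ) (j : Fin 3) :
    IsTest (Zst s j f) := by
  unfold Zst
  refine smoothA_add (smoothA_neg (smoothA_ddel hf j)) (smoothA_smul (fun z hz => ?_) hf)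
  exact contDiffAt_const.mul (smoothA_ceta_contDiffAt j hz)

private theorem smoothA_adj {f g : C3 → Fm m} (hf : IsTest f) (hg : IsTest g) (s : ℝ) (j : Fin 3) :
    ∫ z, inner ℂ (Zop s j f z) (g z) = ∫ z, inner ℂ (f z) (Zst s j g z) := by
  have t1 : IsTest (fun z => ((s : ℂ) * eta j z) • f z) :=
    smoothA_smul (fun z hz => contDiffAt_const.mul (smoothA_eta_contDiffAt j hz)) hf
  have t2 : IsTest (fun z => ((s : ℂ) * conj (eta j z)) • g z) :=
    smoothA_smul (fun z hz => contDiffAt_const.mul (smoothA_ceta_contDiffAt j hz)) hg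
  have h1 : (fun z => inner ℂ (Zop s j f z) (g z)) = fun z => inner ℂ (dbar j f z) (g z) +
      inner ℂ (((s : ℂ) * eta j z) • f z) (g z) := by
    funext z
    simp only [Zop, inner_add_left]
  have h2 : (fun z => inner ℂ (f z) (Zst s j g z)) = fun z => -inner ℂ (f z) (ddel j g z) +
      inner ℂ (f z) (((s : ℂ) * conj (eta j z)) • g z) := by
    funext z
    simp only [Zst, inner_add_right, inner_neg_right]
  have i3 : Integrable (fun z => -inner ℂ (f z) (ddel j g z)) :=
    (smoothA_int hf (smoothA_ddel hg j)).neg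
  rw [h1, h2, integral_add (smoothA_int (smoothA_dbar hf j) hg) (smoothA_int t1 hg),
    integral_add i3 (smoothA_int hf t2), integral_neg, smoothA_ibp hf hg]
  congr 1
  refine integral_congr_ae (Eventually.of_forall fun z => ?_)
  simp only [inner_smul_left, inner_smul_right, map_mul, Complex.conj_ofReal]

private theorem smoothA_adj' {f g : C3 → Fm m} (hf : IsTest f) (hg : IsTest g) (s : ℝ) (j : Fin 3) :
    ∫ z, inner ℂ (g z) (Zop s j f z) = ∫ z, inner ℂ (Zst s j g z) (f z) := by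
  have h := congrArg conj (smoothA_adj hf hg s j)
  rw [← integral_conj, ← integral_conj] at h
  simpa only [inner_conj_symm] using h

private theorem smoothA_commutator {f : C3 → Fm m} (hf : IsTest f) (s : ℝ) (j k : Fin 3)
    (z : C3) :
    Zst s k (Zop s j f) z = Zop s j (Zst s k f) z - (2 * s * smoothA_psi k j z) • f z := by
  by_cases hz : z = 0
  · have e0 : ∀ {h : C3 → Fm m}, IsTest h → h z = 0 := by
      intro h hh
      rw [hz]
      exact image_eq_zero_of_notMem_tsupport hh.zero_notMem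
    rw [e0 (smoothA_Zst (smoothA_Zop hf s j) s k), e0 (smoothA_Zop (smoothA_Zst hf s k) s j),
      e0 hf]
    simp
  · have de : DifferentiableAt ℝ (fun z => (s : ℂ) * eta j z) z :=
      (contDiffAt_const.mul (smoothA_eta_contDiffAt j hz)).differentiableAt (n := ∞) (by simp)
    have dc : DifferentiableAt ℝ (fun z => (s : ℂ) * conj (eta k z)) z :=
      (contDiffAt_const.mul (smoothA_ceta_contDiffAt k hz)).differentiableAt (n := ∞) (by simp)
    have df := smoothA_diff hf.smooth z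
    have h1 : ddel k (Zop s j f) z = ddel k (dbar j f) z + (ddel k (fun z => (s : ℂ) * eta j z) z •
        f z + ((s : ℂ) * eta j z) • ddel k f z) := by
      unfold Zop
      have dd : DifferentiableAt ℝ (fun z => ((s : ℂ) * eta j z) • f z) z := de.smul df
      rw [smoothA_ddel_add k (smoothA_diff (smoothA_dbar hf j).smooth z) dd,
        smoothA_ddel_smul k de df]
    have h2 : dbar j (Zst s k f) z = - dbar j (ddel k f) z +
        (dbar j (fun z => (s : ℂ) * conj (eta k z)) z •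
        f z + ((s : ℂ) * conj (eta k z)) • dbar j f z) := by
      unfold Zst
      have hh : DifferentiableAt ℝ (fun z => - ddel k f z) z :=
        (smoothA_diff (smoothA_ddel hf k).smooth z).neg
      have dd : DifferentiableAt ℝ (fun z => ((s : ℂ) * conj (eta k z)) • f z) z := dc.smul df
      rw [smoothA_dbar_add j hh dd, smoothA_dbar_smul j dc df, smoothA_dbar_neg]
    have h3 : ddel k (fun z => (s : ℂ) * eta j z) z = s * smoothA_psi k j z := by
      have := smoothA_ddel_smul (a := fun _ => (s : ℂ)) (f := eta j) (z := z) k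
        (differentiableAt_const _) ((smoothA_eta_contDiffAt j hz).differentiableAt (by simp))
      simp only [smul_eq_mul] at this
      rw [this, smoothA_ddel_eta k j hz]
      simp [ddel]
    have h4 : dbar j (fun z => (s : ℂ) * conj (eta k z)) z = s * smoothA_psi k j z := by
      have := smoothA_dbar_smul (a := fun _ => (s : ℂ)) (f := fun z => conj (eta k z)) (z := z) j
        (differentiableAt_const _) ((smoothA_ceta_contDiffAt k hz).differentiableAt (by simp))
      simp only [smul_eq_mul] at this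
      rw [this, smoothA_dbar_ceta k j hz]
      simp [dbar]
    have h5 : Zst s k (Zop s j f) z = - ddel k (Zop s j f) z + ((s : ℂ) * conj (eta k z)) •
        Zop s j f z := rfl
    have h6 : Zop s j (Zst s k f) z = dbar j (Zst s k f) z + ((s : ℂ) * eta j z) •
        Zst s k f z := rfl
    rw [h5, h6, h1, h2, h3, h4, smoothA_comm hf.smooth]
    unfold Zop Zst
    module

private theorem smoothA_psi_contDiffAt (k j : Fin 3) {z : C3} (hz : z ≠ 0) :
    ContDiffAt ℝ ∞ (smoothA_psi k j) z := by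
  have h0 : (R2 z : ℂ) ≠ 0 := by exact_mod_cast (smoothA_R2_pos hz).ne'
  have h1 : (R2 z : ℂ) ^ 2 ≠ 0 := pow_ne_zero _ h0
  unfold smoothA_psi
  simp only [div_eq_mul_inv]
  have c0 : ContDiffAt ℝ ∞ (fun z : C3 => (R2 z : ℂ)⁻¹) z := (smoothA_R2_contDiffAt z).inv h0
  have c1 : ContDiffAt ℝ ∞ (fun z : C3 => ((R2 z : ℂ) ^ 2)⁻¹) z :=
    ((smoothA_R2_contDiffAt z).pow 2).inv h1
  have c2 : ContDiffAt ℝ ∞ (fun z : C3 => z j) z := (contDiff_apply ℝ ℂ j).contDiffAt
  have c4 : ContDiffAt ℝ ∞ (fun z : C3 => z k) z := (contDiff_apply ℝ ℂ k).contDiffAt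
  have c3 : ContDiffAt ℝ ∞ (fun z : C3 => conj (z k)) z :=
    (Complex.conjCLE.contDiff.contDiffAt).comp z c4
  have c5 : ContDiffAt ℝ ∞ (fun _ : C3 => (if j = k then (1 : ℂ) else 0)) z := contDiffAt_const
  exact (c5.mul c0).sub ((c2.mul c3).mul c1)

private theorem smoothA_psi_int {f g : C3 → Fm m} (hf : IsTest f) (hg : IsTest g) (j k : Fin 3) :
    Integrable (fun z => smoothA_psi k j z * inner ℂ (g z) (f z)) := by
  have h := smoothA_int hg (smoothA_smul (fun z hz => smoothA_psi_contDiffAt k j hz) hf)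
  refine h.congr (Eventually.of_forall fun z => ?_)
  simp only [inner_smul_right]

/-- Identity (K). -/
private theorem smoothA_K {f g : C3 → Fm m} (hf : IsTest f) (hg : IsTest g) (s : ℝ)
    (j k : Fin 3) :
    ∫ z, inner ℂ (Zop s k g z) (Zop s j f z) = (∫ z, inner ℂ (Zst s j g z) (Zst s k f z))
      - 2 * s * ∫ z, smoothA_psi k j z * inner ℂ (g z) (f z) := by
  have t : IsTest (fun z => (2 * (s : ℂ) * smoothA_psi k j z) • f z) := by
    refine smoothA_smul (fun z hz => ?_) hf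
    have hc : ContDiffAt ℝ ∞ (fun _ : C3 => 2 * (s : ℂ)) z := contDiffAt_const
    exact hc.mul (smoothA_psi_contDiffAt k j hz)
  rw [smoothA_adj hg (smoothA_Zop hf s j) s k]
  simp only [smoothA_commutator hf, inner_sub_right]
  rw [integral_sub (smoothA_int hg (smoothA_Zop (smoothA_Zst hf s k) s j)) (smoothA_int hg t),
    smoothA_adj' (smoothA_Zst hf s k) hg]
  have e : (fun z => inner ℂ (g z) ((2 * (s : ℂ) * smoothA_psi k j z) • f z)) = fun z =>
      (2 * (s : ℂ)) * (smoothA_psi k j z * inner ℂ (g z) (f z)) := by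
    funext z
    rw [inner_smul_right]
    ring
  rw [e, integral_const_mul]

private theorem smoothA_normsq (v : Fm m) : ((‖v‖ ^ 2 : ℝ) : ℂ) = inner ℂ v v := by
  rw [inner_self_eq_norm_sq_to_K]
  push_cast
  rfl

private theorem smoothA_curl {a : Fin 3 → Fin 3 → C3 → Fm m} (ha : ∀ j k, IsTest (a j k)) :
    ((∫ z, ∑ i : Fin 3, ‖a (i + 1) (i + 2) z - a (i + 2) (i + 1) z‖ ^ 2 : ℝ) : ℂ) =
      ∑ j : Fin 3, ∑ k : Fin 3, ((∫ z, inner ℂ (a j k z) (a j k z)) -
        ∫ z, inner ℂ (a k j z) (a j k z)) := by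
  have h1 : ∀ z, ((∑ i : Fin 3, ‖a (i + 1) (i + 2) z - a (i + 2) (i + 1) z‖ ^ 2 : ℝ) : ℂ) =
      ∑ j : Fin 3, ∑ k : Fin 3, (inner ℂ (a j k z) (a j k z) - inner ℂ (a k j z) (a j k z)) := by
    intro z
    push_cast
    simp only [← Complex.ofReal_pow, smoothA_normsq, inner_sub_left, inner_sub_right]
    simp only [Fin.sum_univ_three, show (0 : Fin 3) + 1 = 1 from rfl,
      show (0 : Fin 3) + 2 = 2 from rfl, show (1 : Fin 3) + 1 = 2 from rfl,
      show (1 : Fin 3) + 2 = 0 from rfl, show (2 : Fin 3) + 1 = 0 from rfl,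
      show (2 : Fin 3) + 2 = 1 from rfl]
    ring
  have hi : ∀ j k : Fin 3, Integrable (fun z => inner ℂ (a j k z) (a j k z) -
      inner ℂ (a k j z) (a j k z)) := fun j k =>
    (smoothA_int (ha j k) (ha j k)).sub (smoothA_int (ha k j) (ha j k))
  rw [← integral_complex_ofReal]
  simp only [h1]
  rw [integral_finsetSum _ fun j _ => integrable_finsetSum _ fun k _ => hi j k]
  refine Finset.sum_congr rfl fun j _ => ?_
  rw [integral_finsetSum _ fun k _ => hi j k]
  refine Finset.sum_congr rfl fun k _ => ?_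
  rw [integral_sub (smoothA_int (ha j k) (ha j k)) (smoothA_int (ha k j) (ha j k))]

private theorem smoothA_div {b : Fin 3 → C3 → Fm m} (hb : ∀ j, IsTest (b j)) :
    ((∫ z, ‖∑ j : Fin 3, b j z‖ ^ 2 : ℝ) : ℂ) =
      ∑ j : Fin 3, ∑ k : Fin 3, ∫ z, inner ℂ (b j z) (b k z) := by
  have h1 : ∀ z, ((‖∑ j : Fin 3, b j z‖ ^ 2 : ℝ) : ℂ) =
      ∑ j : Fin 3, ∑ k : Fin 3, inner ℂ (b j z) (b k z) := by
    intro z
    rw [smoothA_normsq, sum_inner]
    simp only [inner_sum]
  rw [← integral_complex_ofReal]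
  simp only [h1]
  rw [integral_finsetSum _ fun j _ => integrable_finsetSum _ fun k _ => smoothA_int (hb j) (hb k)]
  refine Finset.sum_congr rfl fun j _ => ?_
  rw [integral_finsetSum _ fun k _ => smoothA_int (hb j) (hb k)]

private theorem smoothA_Nint {f : Fin 3 → C3 → Fm m} (hf : ∀ k, IsTest (f k)) :
    Integrable (fun z => (∑ k : Fin 3, ‖f k z‖ ^ 2) / R2 z) := by
  have h1 : ∀ k, Integrable (fun z => ‖f k z‖ ^ 2 / R2 z) := by
    intro k
    have t : IsTest (fun z => ((R2 z : ℂ))⁻¹ • f k z) := by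
      refine smoothA_smul (fun z hz => ?_) (hf k)
      have h0 : (R2 z : ℂ) ≠ 0 := by exact_mod_cast (smoothA_R2_pos hz).ne'
      exact (smoothA_R2_contDiffAt z).inv h0
    have h := (smoothA_int (hf k) t).re
    refine h.congr (Eventually.of_forall fun z => ?_)
    simp only [inner_smul_right, ← smoothA_normsq]
    rw [← Complex.ofReal_inv, ← Complex.ofReal_mul]
    change ((((R2 z)⁻¹ * ‖f k z‖ ^ 2 : ℝ) : ℂ)).re = _
    rw [Complex.ofReal_re]
    ring
  have h2 : (fun z => (∑ k : Fin 3, ‖f k z‖ ^ 2) / R2 z) =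
      fun z => ∑ k : Fin 3, ‖f k z‖ ^ 2 / R2 z := by
    funext z
    rw [Finset.sum_div]
  rw [h2]
  exact integrable_finsetSum _ fun k _ => h1 k

private theorem smoothA_psi_trace (z : C3) :
    ∑ j : Fin 3, smoothA_psi j j z = 2 / (R2 z : ℂ) := by
  unfold smoothA_psi
  rw [Finset.sum_sub_distrib, ← Finset.sum_div, ← Finset.sum_div, ← smoothA_R2_eq]
  by_cases h0 : (R2 z : ℂ) = 0
  · rw [h0]
    simp
  · simp
    field_simp
    norm_num

private theorem smoothA_trace1 {f : C3 → Fm m} (hf : IsTest f) :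
    ∑ j : Fin 3, ∫ z, smoothA_psi j j z * inner ℂ (f z) (f z) =
      ((2 * ∫ z, ‖f z‖ ^ 2 / R2 z : ℝ) : ℂ) := by
  have hi := fun j => smoothA_psi_int hf hf j j
  have h1 : ∀ z, ∑ j : Fin 3, smoothA_psi j j z * inner ℂ (f z) (f z) =
      ((2 * (‖f z‖ ^ 2 / R2 z) : ℝ) : ℂ) := by
    intro z
    simp only [← smoothA_normsq, ← Finset.sum_mul]
    rw [smoothA_psi_trace]
    push_cast
    ring
  have h3 : ((2 * ∫ z, ‖f z‖ ^ 2 / R2 z : ℝ) : ℂ) =
      ∫ z, ∑ j : Fin 3, smoothA_psi j j z * inner ℂ (f z) (f z) := by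
    rw [← integral_const_mul, ← integral_complex_ofReal]
    simp only [h1]
  rw [h3, integral_finsetSum _ fun j _ => hi j]

private theorem smoothA_trace {f : Fin 3 → C3 → Fm m} (hf : ∀ k, IsTest (f k)) :
    ∑ j : Fin 3, ∑ k : Fin 3, ∫ z, smoothA_psi j j z * inner ℂ (f k z) (f k z) =
      ((2 * ∫ z, (∑ k : Fin 3, ‖f k z‖ ^ 2) / R2 z : ℝ) : ℂ) := by
  have hi := fun j k => smoothA_psi_int (hf k) (hf k) j j
  have h1 : ∀ z, ∑ j : Fin 3, ∑ k : Fin 3, smoothA_psi j j z * inner ℂ (f k z) (f k z) =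
      ((2 * ((∑ k : Fin 3, ‖f k z‖ ^ 2) / R2 z) : ℝ) : ℂ) := by
    intro z
    simp only [← smoothA_normsq, ← Finset.mul_sum, ← Finset.sum_mul]
    rw [smoothA_psi_trace]
    push_cast
    ring
  have h3 : ((2 * ∫ z, (∑ k : Fin 3, ‖f k z‖ ^ 2) / R2 z : ℝ) : ℂ) =
      ∫ z, ∑ j : Fin 3, ∑ k : Fin 3, smoothA_psi j j z * inner ℂ (f k z) (f k z) := by
    rw [← integral_const_mul, ← integral_complex_ofReal]
    simp only [h1]
  rw [h3, integral_finsetSum _ fun j _ => integrable_finsetSum _ fun k _ => hi j k]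
  refine Finset.sum_congr rfl fun j _ => ?_
  rw [integral_finsetSum _ fun k _ => hi j k]

private theorem smoothA_form_aux {f : Fin 3 → C3 → Fm m} (hf : ∀ k, IsTest (f k))
    {w : Fin 3 → Fin 3 → C3 → ℂ} {q : C3 → ℝ} (hq : ∀ z, 0 ≤ q z)
    (hi : ∀ j k, Integrable (fun z => w j k z * inner ℂ (f j z) (f k z)))
    (h1 : ∀ z, ∑ j : Fin 3, ∑ k : Fin 3, w j k z * inner ℂ (f j z) (f k z) =
      (((∑ k : Fin 3, ‖f k z‖ ^ 2) / R2 z - q z : ℝ) : ℂ)) :
    ∃ r : ℝ, r ≤ ∫ z, (∑ k : Fin 3, ‖f k z‖ ^ 2) / R2 z ∧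
      ∑ j : Fin 3, ∑ k : Fin 3, ∫ z, w j k z * inner ℂ (f j z) (f k z) = r := by
  have hi' : Integrable (fun z => ∑ j : Fin 3, ∑ k : Fin 3, w j k z * inner ℂ (f j z) (f k z)) :=
    integrable_finsetSum _ fun j _ => integrable_finsetSum _ fun k _ => hi j k
  refine ⟨∫ z, ((∑ k : Fin 3, ‖f k z‖ ^ 2) / R2 z - q z), ?_, ?_⟩
  · refine integral_mono ?_ (smoothA_Nint hf) fun z => ?_
    · have := hi'.re
      refine this.congr (Eventually.of_forall fun z => ?_)
      simp only [h1]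
      exact Complex.ofReal_re _
    · have := hq z
      simp only
      linarith
  · have h3 : ((∫ z, ((∑ k : Fin 3, ‖f k z‖ ^ 2) / R2 z - q z) : ℝ) : ℂ) =
        ∫ z, ∑ j : Fin 3, ∑ k : Fin 3, w j k z * inner ℂ (f j z) (f k z) := by
      rw [← integral_complex_ofReal]
      simp only [h1]
    rw [h3, integral_finsetSum _ fun j _ => integrable_finsetSum _ fun k _ => hi j k]
    refine Finset.sum_congr rfl fun j _ => ?_
    rw [integral_finsetSum _ fun k _ => hi j k]

private theorem smoothA_form1 {f : Fin 3 → C3 → Fm m} (hf : ∀ k, IsTest (f k)) :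
    ∃ r : ℝ, r ≤ ∫ z, (∑ k : Fin 3, ‖f k z‖ ^ 2) / R2 z ∧
      ∑ j : Fin 3, ∑ k : Fin 3, ∫ z, smoothA_psi k j z * inner ℂ (f j z) (f k z) = r := by
  refine smoothA_form_aux hf (w := fun j k => smoothA_psi k j)
    (q := fun z => ‖∑ k : Fin 3, conj (z k) • f k z‖ ^ 2 / (R2 z) ^ 2) (fun z => by positivity)
    (fun j k => smoothA_psi_int (hf k) (hf j) j k) fun z => ?_
  push_cast
  simp only [← Complex.ofReal_pow, smoothA_normsq, sum_inner, inner_sum, inner_smul_left,
    inner_smul_right, Complex.conj_conj]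
  simp only [smoothA_psi, Fin.sum_univ_three]
  simp only [show ((0 : Fin 3) = 1) = False by simp, show ((0 : Fin 3) = 2) = False by simp,
    show ((1 : Fin 3) = 0) = False by simp, show ((1 : Fin 3) = 2) = False by simp,
    show ((2 : Fin 3) = 0) = False by simp, show ((2 : Fin 3) = 1) = False by simp,
    if_true, if_false]
  push_cast
  ring

private theorem smoothA_form2 {f : Fin 3 → C3 → Fm m} (hf : ∀ k, IsTest (f k)) :
    ∃ r : ℝ, r ≤ ∫ z, (∑ k : Fin 3, ‖f k z‖ ^ 2) / R2 z ∧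
      ∑ j : Fin 3, ∑ k : Fin 3, ∫ z, smoothA_psi j k z * inner ℂ (f j z) (f k z) = r := by
  refine smoothA_form_aux hf (w := fun j k => smoothA_psi j k)
    (q := fun z => ‖∑ k : Fin 3, (z k) • f k z‖ ^ 2 / (R2 z) ^ 2) (fun z => by positivity)
    (fun j k => smoothA_psi_int (hf k) (hf j) k j) fun z => ?_
  push_cast
  simp only [← Complex.ofReal_pow, smoothA_normsq, sum_inner, inner_sum, inner_smul_left,
    inner_smul_right]
  simp only [smoothA_psi, Fin.sum_univ_three]
  simp only [show ((0 : Fin 3) = 1) = False by simp, show ((0 : Fin 3) = 2) = False by simp,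
    show ((1 : Fin 3) = 0) = False by simp, show ((1 : Fin 3) = 2) = False by simp,
    show ((2 : Fin 3) = 0) = False by simp, show ((2 : Fin 3) = 1) = False by simp,
    if_true, if_false]
  push_cast
  ring

private theorem smoothA_self {g : C3 → Fm m} :
    ∃ r : ℝ, 0 ≤ r ∧ ∫ z, inner ℂ (g z) (g z) = r := by
  refine ⟨∫ z, ‖g z‖ ^ 2, integral_nonneg fun z => by positivity, ?_⟩
  rw [← integral_complex_ofReal]
  simp only [smoothA_normsq]

end ops

variable {m : ℕ}

theorem smooth0 {s : ℝ} (hs : s ≤ 0) {f : C3 → Fm m} (hf : IsTest f) :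
    4 * (-s) * ∫ z, ‖f z‖ ^ 2 / R2 z ≤ ∫ z, ∑ j : Fin 3, ‖Zop s j f z‖ ^ 2 := by
  have hpos : ∀ j : Fin 3, ∃ r : ℝ, 0 ≤ r ∧
    ∫ z, inner ℂ (Zst s j f z) (Zst s j f z) = r := fun j => smoothA_self
  choose ρ hρ hρ' using hpos
  have e3 := smoothA_trace1 hf
  have e1 : ((∫ z, ∑ j : Fin 3, ‖Zop s j f z‖ ^ 2 : ℝ) : ℂ) =
      ∑ j : Fin 3, ∫ z, inner ℂ (Zop s j f z) (Zop s j f z) := by
    have h1 : ∀ z, ((∑ j : Fin 3, ‖Zop s j f z‖ ^ 2 : ℝ) : ℂ) =
        ∑ j : Fin 3, inner ℂ (Zop s j f z) (Zop s j f z) := by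
      intro z
      push_cast
      simp only [← Complex.ofReal_pow, smoothA_normsq]
    rw [← integral_complex_ofReal]
    simp only [h1]
    rw [integral_finsetSum _ fun j _ => smoothA_int (smoothA_Zop hf s j) (smoothA_Zop hf s j)]
  have e4 : ((∫ z, ∑ j : Fin 3, ‖Zop s j f z‖ ^ 2 : ℝ) : ℂ) =
      (((∑ j : Fin 3, ρ j) - 2 * s * (2 * ∫ z, ‖f z‖ ^ 2 / R2 z) : ℝ) : ℂ) := by
    rw [e1, Complex.ofReal_sub, Complex.ofReal_mul, ← e3]
    push_cast
    simp only [Finset.mul_sum, ← Finset.sum_sub_distrib]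
    refine Finset.sum_congr rfl fun j _ => ?_
    rw [smoothA_K hf hf s j j, hρ']
  have e5 := Complex.ofReal_injective e4
  rw [e5]
  have h6 : 0 ≤ ∑ j : Fin 3, ρ j := Finset.sum_nonneg fun j _ => hρ j
  linarith

theorem smooth1 {s : ℝ} (hs : s ≤ 0) {f : Fin 3 → C3 → Fm m} (hf : ∀ k, IsTest (f k)) :
    2 * (-s) * ∫ z, (∑ k : Fin 3, ‖f k z‖ ^ 2) / R2 z ≤
      (∫ z, ∑ i : Fin 3, ‖Zop s (i + 1) (f (i + 2)) z - Zop s (i + 2) (f (i + 1)) z‖ ^ 2) +
      ∫ z, ‖∑ j : Fin 3, Zst s j (f j) z‖ ^ 2 := by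
  obtain ⟨r, hr, hr'⟩ := smoothA_form1 hf
  have hpos : ∀ j k : Fin 3, ∃ r : ℝ, 0 ≤ r ∧
    ∫ z, inner ℂ (Zst s j (f k) z) (Zst s j (f k) z) = r := fun j k => smoothA_self
  choose ρ hρ hρ' using hpos
  have e1 := smoothA_curl (a := fun j k => Zop s j (f k)) fun j k => smoothA_Zop (hf k) s j
  have e2 := smoothA_div (b := fun j => Zst s j (f j)) fun j => smoothA_Zst (hf j) s j
  have e3 := smoothA_trace hf
  have e4 : (((∫ z, ∑ i : Fin 3, ‖Zop s (i + 1) (f (i + 2)) z - Zop s (i + 2) (f (i + 1)) z‖ ^ 2) +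
      ∫ z, ‖∑ j : Fin 3, Zst s j (f j) z‖ ^ 2 : ℝ) : ℂ) =
      (((∑ j : Fin 3, ∑ k : Fin 3, ρ j k) -
        2 * s * (2 * ∫ z, (∑ k : Fin 3, ‖f k z‖ ^ 2) / R2 z) + 2 * s * r : ℝ) : ℂ) := by
    rw [Complex.ofReal_add, e1, e2, Complex.ofReal_add, Complex.ofReal_sub, Complex.ofReal_mul,
      ← e3, Complex.ofReal_mul (2 * s) r, ← hr']
    push_cast
    simp only [Finset.mul_sum, ← Finset.sum_add_distrib, ← Finset.sum_sub_distrib]
    refine Finset.sum_congr rfl fun j _ => Finset.sum_congr rfl fun k _ => ?_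
    rw [smoothA_K (hf k) (hf k) s j j, smoothA_K (hf k) (hf j) s j k, hρ']
    ring
  have e5 := Complex.ofReal_injective e4
  rw [e5]
  have h6 : 0 ≤ ∑ j : Fin 3, ∑ k : Fin 3, ρ j k :=
    Finset.sum_nonneg fun j _ => Finset.sum_nonneg fun k _ => hρ j k
  nlinarith [mul_nonneg (neg_nonneg.2 hs) (sub_nonneg.2 hr)]

theorem smooth2 {s : ℝ} (hs : 0 ≤ s) {f : Fin 3 → C3 → Fm m} (hf : ∀ k, IsTest (f k)) :
    2 * s * ∫ z, (∑ k : Fin 3, ‖f k z‖ ^ 2) / R2 z ≤
      (∫ z, ∑ i : Fin 3, ‖Zst s (i + 1) (f (i + 2)) z - Zst s (i + 2) (f (i + 1)) z‖ ^ 2) +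
      ∫ z, ‖∑ j : Fin 3, Zop s j (f j) z‖ ^ 2 := by
  obtain ⟨r, hr, hr'⟩ := smoothA_form2 hf
  have hpos : ∀ j k : Fin 3, ∃ r : ℝ, 0 ≤ r ∧
    ∫ z, inner ℂ (Zop s j (f k) z) (Zop s j (f k) z) = r := fun j k => smoothA_self
  choose ρ hρ hρ' using hpos
  have e1 := smoothA_curl (a := fun j k => Zst s j (f k)) fun j k => smoothA_Zst (hf k) s j
  have e2 := smoothA_div (b := fun j => Zop s j (f j)) fun j => smoothA_Zop (hf j) s j
  have e3 := smoothA_trace hf
  have e4 : (((∫ z, ∑ i : Fin 3, ‖Zst s (i + 1) (f (i + 2)) z - Zst s (i + 2) (f (i + 1)) z‖ ^ 2) +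
      ∫ z, ‖∑ j : Fin 3, Zop s j (f j) z‖ ^ 2 : ℝ) : ℂ) =
      (((∑ j : Fin 3, ∑ k : Fin 3, ρ j k) +
        2 * s * (2 * ∫ z, (∑ k : Fin 3, ‖f k z‖ ^ 2) / R2 z) - 2 * s * r : ℝ) : ℂ) := by
    rw [Complex.ofReal_add, e1, e2, Complex.ofReal_sub, Complex.ofReal_add, Complex.ofReal_mul,
      ← e3, Complex.ofReal_mul (2 * s) r, ← hr']
    push_cast
    simp only [Finset.mul_sum, ← Finset.sum_add_distrib, ← Finset.sum_sub_distrib]
    refine Finset.sum_congr rfl fun j _ => Finset.sum_congr rfl fun k _ => ?_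
    have k1 := smoothA_K (hf k) (hf k) s j j
    have k2 := smoothA_K (hf k) (hf j) s k j
    rw [hρ'] at k1
    linear_combination -k1 + k2
  have e5 := Complex.ofReal_injective e4
  rw [e5]
  have h6 : 0 ≤ ∑ j : Fin 3, ∑ k : Fin 3, ρ j k :=
    Finset.sum_nonneg fun j _ => Finset.sum_nonneg fun k _ => hρ j k
  nlinarith [mul_nonneg hs (sub_nonneg.2 hr)]

end

end Pool.Agent.HopfEmb
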