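import Mathlib

/-!
# Reduced complex analytic spaces, complex manifolds, embeddings

A reduced complex space is given by a topological space with a sheaf of `ℂ`-valued functions; the
sheaf is encoded by the predicate `IsHol f x` (the germ of the function `f` at `x` is a section of
the structure sheaf), so `𝒪(W) = {f | ∀ x ∈ W, IsHol f x}`. It has to be locally isomorphic to a
model: an analytic subset `A` of an open set `U ⊆ ℂⁿ` with the sheaf of functions which are locally
restrictions of holomorphic functions of the ambient space.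
-/

set_option autoImplicit false

open Filter Topology
open scoped Manifold ContDiff

namespace Pool.Agent.HopfEmb

/-- `A` is an analytic subset of the set `U ⊆ ℂⁿ`: near every point of `U` it is the common zero set
of finitely many holomorphic functions. -/
def IsAnalyticSubset {n : ℕ} (U A : Set (EuclideanSpace ℂ (Fin n))) : Prop :=
  A ⊆ U ∧ ∀ x ∈ U, ∃ W ∈ 𝓝 x, ∃ (k : ℕ) (h : Fin k → EuclideanSpace ℂ (Fin n) → ℂ),
    (∀ i, AnalyticOnNhd ℂ (h i) W) ∧ ∀ y ∈ W, y ∈ A ↔ ∀ i, h i y = 0

/-- The function `f` on `A ⊆ ℂⁿ` is, near `a`, the restriction of a holomorphic function. -/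
def HolOn {n : ℕ} (A : Set (EuclideanSpace ℂ (Fin n))) (f : A → ℂ) (a : A) : Prop :=
  ∃ g : EuclideanSpace ℂ (Fin n) → ℂ, AnalyticAt ℂ g a ∧ ∀ᶠ y : A in 𝓝 a, f y = g y

/-- A reduced complex analytic space structure on a topological space. -/
structure ReducedComplexSpace (X : Type*) [TopologicalSpace X] where
  /-- the germ of `f` at `x` is holomorphic -/
  IsHol : (X → ℂ) → X → Prop
  /-- local models -/
  local_model : ∀ x : X, ∃ (n : ℕ) (U A : Set (EuclideanSpace ℂ (Fin n))) (V : Set X)
    (e : V ≃ₜ A), IsOpen V ∧ x ∈ V ∧ IsOpen U ∧ IsAnalyticSubset U A ∧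
      ∀ (f : X → ℂ) (y : V), IsHol f y ↔ HolOn A (fun a => f (e.symm a)) (e y)

section manifold

variable {N : ℕ} {M : Type*} [TopologicalSpace M] [ChartedSpace (EuclideanSpace ℂ (Fin N)) M]

/-- A complex valued function on a complex manifold is holomorphic at a point. -/
def HolAt (g : M → ℂ) (p : M) : Prop :=
  ContMDiffAt (𝓘(ℂ, EuclideanSpace ℂ (Fin N))) 𝓘(ℂ, ℂ) ω g p

/-- `Y` is a subvariety of `M`: a closed subset which near every point of `M` is the common zero set
of finitely many holomorphic functions. -/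
def IsSubvariety (Y : Set M) : Prop :=
  IsClosed Y ∧ ∀ x : M, ∃ W ∈ 𝓝 x, ∃ (k : ℕ) (h : Fin k → M → ℂ),
    (∀ i, ∀ y ∈ W, HolAt (N := N) (h i) y) ∧ ∀ y ∈ W, y ∈ Y ↔ ∀ i, h i y = 0

end manifold

/-- The reduced complex space `X` is biholomorphically equivalent to a subvariety of `M` (with the
sheaf of functions which are locally restrictions of holomorphic functions on `M`). -/
def EmbedsIn {X : Type*} [TopologicalSpace X] (𝒪 : ReducedComplexSpace X) (N : ℕ) (M : Type*)
    [TopologicalSpace M] [ChartedSpace (EuclideanSpace ℂ (Fin N)) M] : Prop :=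
  ∃ Y : Set M, IsSubvariety (N := N) Y ∧ ∃ e : X ≃ₜ Y, ∀ (f : X → ℂ) (x : X),
    𝒪.IsHol f x ↔ ∃ g : M → ℂ, HolAt (N := N) g (e x : M) ∧ ∀ᶠ x' in 𝓝 x, f x' = g (e x' : M)

end Pool.Agent.HopfEmb
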