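import Pool.Agent.Lib.MP_d404b9_ag.Data

/-!
# JOB UNITY: a `2`-periodic smooth partition of unity on `ℂ³ ∖ 0`

Cover the compact shell `{1 ≤ |z| ≤ 2}` by finitely many balls `B(z_l, r_l)` such that the closed
ball `B̄(z_l, 2 r_l) ⊆ V i(l)` (it does not contain `0`); take bumps `b_l` supported in `B̄(z_l, 2r_l)`,
positive on `B(z_l, r_l)`; `β_i = ∑_{l : i(l) = i} Per 0 b_l` is smooth, `2`-periodic, nonnegative,
vanishes near every point outside `V i` (`Per_eventually_zero`, `V i` is invariant under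
`z ↦ 2^k z`), and `∑ β_i > 0` on `ℂ³ ∖ 0`. Put `κ_i = β_i / sqrt (∑ β_l²)`.
-/

set_option autoImplicit false

open Complex Filter Topology
open scoped ContDiff ComplexConjugate

namespace Pool.Agent.HopfEmb

/-- Invariance under all powers of `2`. -/
private theorem unity_scale {W : Set C3} (h4 : ∀ z : C3, (2 : ℂ) • z ∈ W ↔ z ∈ W) (k : ℤ)
    (z : C3) : ((2 : ℂ) ^ k) • z ∈ W ↔ z ∈ W := by
  have hn : ∀ (n : ℕ) (z : C3), ((2 : ℂ) ^ n) • z ∈ W ↔ z ∈ W := by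
    intro n
    induction n with
    | zero => intro z; simp
    | succ n ih =>
      intro z
      rw [pow_succ', mul_smul, h4, ih]
  rcases Int.eq_nat_or_neg k with ⟨n, rfl | rfl⟩
  · rw [zpow_natCast]
    exact hn n z
  · rw [← hn n (((2 : ℂ) ^ (-(n : ℤ))) • z), smul_smul, zpow_neg, zpow_natCast,
      mul_inv_cancel₀ (pow_ne_zero _ two_ne_zero), one_smul]

private theorem unity_bump {I : Type} (V : I → Set C3) (h1 : ∀ i, IsOpen (V i))
    (h3 : ∀ z : C3, z ≠ 0 → ∃ i, z ∈ V i) (x : C3) (hx : x ≠ 0) :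
    ∃ (i : I) (U : Set C3) (Φ : C3 → ℂ), U ∈ 𝓝 x ∧ ContDiff ℝ ∞ Φ ∧ HasCompactSupport Φ ∧
      tsupport Φ ⊆ V i ∧ (∀ z, ∃ c : ℝ, 0 ≤ c ∧ Φ z = c) ∧ ∀ z ∈ U, 0 < (Φ z).re := by
  obtain ⟨i, hi⟩ := h3 x hx
  obtain ⟨ρ, hρ, hb⟩ := Metric.isOpen_iff.1 (h1 i) x hi
  let f : ContDiffBump x := ⟨ρ / 4, ρ / 2, by positivity, by linarith⟩
  refine ⟨i, Metric.ball x (ρ / 2), fun z => ((f z : ℝ) : ℂ), Metric.ball_mem_nhds x (by positivity),
    ?_, ?_, ?_, ?_, ?_⟩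
  · exact Complex.ofRealCLM.contDiff.comp f.contDiff
  · exact f.hasCompactSupport.comp_left (g := fun x : ℝ => (x : ℂ)) Complex.ofReal_zero
  · refine (closure_mono ?_ : tsupport (fun z => ((f z : ℝ) : ℂ)) ⊆ tsupport f).trans ?_
    · intro z hz hz'
      apply hz
      simp only
      rw [hz', Complex.ofReal_zero]
    · change tsupport f ⊆ V i
      rw [f.tsupport_eq]
      exact (Metric.closedBall_subset_ball (by simp only [f]; linarith)).trans hb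
  · intro z
    exact ⟨f z, f.nonneg, rfl⟩
  · intro z hz
    rw [Complex.ofReal_re]
    exact f.pos_of_mem_ball hz

private theorem unity_per {Φ : C3 → ℂ} (hc : HasCompactSupport Φ) (h0 : (0 : C3) ∉ tsupport Φ)
    (hr : ∀ z, ∃ c : ℝ, 0 ≤ c ∧ Φ z = c) {z : C3} (hz : z ≠ 0) :
    0 ≤ (Per 0 Φ z).re ∧ ∀ k : ℤ, 0 < (Φ (((2 : ℂ) ^ k) • z)).re → 0 < (Per 0 Φ z).re := by
  have hnn : ∀ y, 0 ≤ (Φ y).re := by
    intro y
    obtain ⟨c, hc, h⟩ := hr y
    rw [h, Complex.ofReal_re]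
    exact hc
  obtain ⟨K, hK⟩ := Per_eventually hc h0 hz
  obtain ⟨hK1, hK2⟩ := hK.self_of_nhds
  have h1 : (Per 0 Φ z).re = ∑ k ∈ K, (Φ (((2 : ℂ) ^ k) • z)).re := by
    rw [hK2 0, Complex.re_sum]
    simp
  constructor
  · rw [h1]
    exact Finset.sum_nonneg fun k _ => hnn _
  · intro k hk
    rw [h1]
    have hkK : k ∈ K := by
      by_contra h
      rw [hK1 k h] at hk
      simp at hk
    exact Finset.sum_pos' (fun k _ => hnn _) ⟨k, hkK, hk⟩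

private theorem unity_shell {z : C3} (hz : z ≠ 0) :
    ∃ k : ℤ, 1 ≤ ‖((2 : ℂ) ^ k) • z‖ ∧ ‖((2 : ℂ) ^ k) • z‖ ≤ 2 := by
  have hn : 0 < ‖z‖ := norm_pos_iff.2 hz
  obtain ⟨n, h1, h2⟩ := exists_mem_Ico_zpow hn (one_lt_two : (1 : ℝ) < 2)
  refine ⟨-n, ?_, ?_⟩
  · rw [norm_smul, norm_zpow, Complex.norm_ofNat, zpow_neg, ← div_eq_inv_mul,
      one_le_div (by positivity)]
    exact h1
  · rw [norm_smul, norm_zpow, Complex.norm_ofNat, zpow_neg, ← div_eq_inv_mul,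
      div_le_iff₀ (by positivity)]
    rw [zpow_add_one₀ two_ne_zero] at h2
    linarith

theorem exists_unity {I : Type} [Fintype I] (V : I → Set C3) (h1 : ∀ i, IsOpen (V i))
    (h2 : ∀ i, (0 : C3) ∉ V i) (h3 : ∀ z : C3, z ≠ 0 → ∃ i, z ∈ V i)
    (h4 : ∀ i, ∀ z : C3, (2 : ℂ) • z ∈ V i ↔ z ∈ V i) :
    ∃ κ : I → C3 → ℝ,
      (∀ i, ∀ z : C3, z ≠ 0 → ContDiffAt ℝ ∞ (κ i) z) ∧
      (∀ i, ∀ z : C3, z ≠ 0 → κ i ((2 : ℂ) • z) = κ i z) ∧
      (∀ i, ∀ z : C3, z ≠ 0 → z ∉ V i → ∀ᶠ y in 𝓝 z, κ i y = 0) ∧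
      (∀ z : C3, z ≠ 0 → ∑ i, κ i z ^ 2 = 1) := by
  classical
  have hK : IsCompact {z : C3 | 1 ≤ ‖z‖ ∧ ‖z‖ ≤ 2} := by
    have h : {z : C3 | 1 ≤ ‖z‖ ∧ ‖z‖ ≤ 2} = Metric.closedBall 0 2 ∩ {z : C3 | 1 ≤ ‖z‖} := by
      ext z
      simp only [Set.mem_ofPred_eq, Set.mem_inter_iff, mem_closedBall_zero_iff]
      exact and_comm
    rw [h]
    exact (isCompact_closedBall 0 2).inter_right (isClosed_le continuous_const continuous_norm)
  have : Nonempty I := by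
    have h : (fun _ => 1 : C3) ≠ 0 := by
      intro h
      have := congrFun h 0
      simp at this
    exact ⟨(h3 _ h).choose⟩
  choose! idx U Φ hU hs hc hV hr hp using fun x (hx : x ≠ 0) => unity_bump V h1 h3 x hx
  have hK0 : ∀ x ∈ {z : C3 | 1 ≤ ‖z‖ ∧ ‖z‖ ≤ 2}, x ≠ 0 := by
    rintro x ⟨hx, _⟩ rfl
    rw [norm_zero] at hx
    linarith
  obtain ⟨t, htK, ht⟩ := hK.elim_nhds_subcover U (fun x hx => hU x (hK0 x hx))
  have ht0 : ∀ x ∈ t, x ≠ 0 := fun x hx => hK0 x (htK x hx)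
  have hΦ0 : ∀ x ∈ t, (0 : C3) ∉ tsupport (Φ x) :=
    fun x hx h => h2 _ (hV x (ht0 x hx) h)
  let B : I → C3 → ℝ := fun i z => ∑ x ∈ t with idx x = i, (Per 0 (Φ x) z).re
  have hBs : ∀ i, ∀ z : C3, z ≠ 0 → ContDiffAt ℝ ∞ (B i) z := by
    intro i z hz
    apply ContDiffAt.sum
    intro x hx
    have hx := (Finset.mem_filter.1 hx).1
    have := Per_contDiffAt (hs x (ht0 x hx)) (hc x (ht0 x hx)) (hΦ0 x hx) 0 hz
    exact Complex.reCLM.contDiff.contDiffAt.comp z this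
  have hBp : ∀ i, ∀ z : C3, z ≠ 0 → B i ((2 : ℂ) • z) = B i z := by
    intro i z hz
    apply Finset.sum_congr rfl
    intro x hx
    have hx := (Finset.mem_filter.1 hx).1
    rw [Per_scale (hc x (ht0 x hx)) (hΦ0 x hx) 0 hz]
    simp
  have hBn : ∀ i, ∀ z : C3, z ≠ 0 → 0 ≤ B i z := by
    intro i z hz
    apply Finset.sum_nonneg
    intro x hx
    have hx := (Finset.mem_filter.1 hx).1
    exact (unity_per (hc x (ht0 x hx)) (hΦ0 x hx) (hr x (ht0 x hx)) hz).1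
  have hB0 : ∀ i, ∀ z : C3, z ≠ 0 → z ∉ V i → ∀ᶠ y in 𝓝 z, B i y = 0 := by
    intro i z hz hzV
    have h5 : ∀ᶠ y in 𝓝 z, ∀ x ∈ t.filter (fun x => idx x = i), Per 0 (Φ x) y = 0 := by
      rw [Filter.eventually_all_finset]
      intro x hx
      obtain ⟨hx, hxi⟩ := Finset.mem_filter.1 hx
      apply Per_eventually_zero (hc x (ht0 x hx)) (hΦ0 x hx) hz
      intro k hk
      apply hzV
      rw [← unity_scale (h4 i) k, ← hxi]
      exact hV x (ht0 x hx) hk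
    filter_upwards [h5] with y hy
    apply Finset.sum_eq_zero
    intro x hx
    rw [hy x hx, Complex.zero_re]
  have hSp : ∀ z : C3, z ≠ 0 → 0 < ∑ i, B i z ^ 2 := by
    intro z hz
    obtain ⟨k, hk⟩ := unity_shell hz
    obtain ⟨x, hx, hxk⟩ := Set.mem_iUnion₂.1 (ht hk)
    apply Finset.sum_pos' (fun i _ => sq_nonneg _)
    refine ⟨idx x, Finset.mem_univ _, ?_⟩
    apply pow_pos
    apply Finset.sum_pos'
    · intro y hy
      have hy := (Finset.mem_filter.1 hy).1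
      exact (unity_per (hc y (ht0 y hy)) (hΦ0 y hy) (hr y (ht0 y hy)) hz).1
    · exact ⟨x, Finset.mem_filter.2 ⟨hx, rfl⟩,
        (unity_per (hc x (ht0 x hx)) (hΦ0 x hx) (hr x (ht0 x hx)) hz).2 k
          (hp x (ht0 x hx) _ hxk)⟩
  refine ⟨fun i z => B i z / Real.sqrt (∑ l, B l z ^ 2), ?_, ?_, ?_, ?_⟩
  · intro i z hz
    apply ContDiffAt.div (hBs i z hz)
    · apply ContDiffAt.sqrt
      · apply ContDiffAt.sum
        intro l _
        exact (hBs l z hz).pow 2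
      · exact (hSp z hz).ne'
    · exact (Real.sqrt_pos.2 (hSp z hz)).ne'
  · intro i z hz
    simp only [hBp _ z hz]
  · intro i z hz hzV
    filter_upwards [hB0 i z hz hzV] with y hy
    rw [hy, zero_div]
  · intro z hz
    simp only [div_pow]
    rw [← Finset.sum_div, Real.sq_sqrt (hSp z hz).le, div_self (hSp z hz).ne']

end Pool.Agent.HopfEmb
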